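import Mathlib

/-!
# Counting inequality for distinct numbers
-/

set_option autoImplicit false

namespace Pool.Agent.LB

open Finset

namespace Cok

theorem prod_ge {κ : Type} [DecidableEq κ] (a : ℕ) (g : κ → ℕ) (S : Finset κ) :
    (∀ i ∈ S, a + 1 ≤ g i) → Set.InjOn g S → (a + 1).ascFactorial S.card ≤ ∏ i ∈ S, g i := by
  induction S using Finset.induction_on_max_value g with
  | empty =>
    intro _ _
    simp
  | insert j s hj hmax ih =>
    intro hg hinj
    rw [card_insert_of_notMem hj, prod_insert hj, Nat.ascFactorial_succ]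
    have hcard : s.card ≤ g j - (a + 1) := by
      have h1 := Finset.card_le_card_of_injOn (s := s) (t := Finset.Ico (a + 1) (g j)) g
        (fun x hx => by
          have hx' := mem_coe.1 hx
          have h2 := hg x (mem_insert_of_mem hx')
          have h3 : g x ≠ g j := by
            intro h4
            have h5 := hinj (mem_coe.2 (mem_insert_of_mem hx')) (mem_coe.2 (mem_insert_self j s)) h4
            rw [h5] at hx'
            exact hj hx'
          have h6 := hmax x hx'
          rw [mem_coe, mem_Ico]
          omega)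
        (hinj.mono (by
          intro x hx
          exact mem_coe.2 (mem_insert_of_mem (mem_coe.1 hx))))
      rwa [Nat.card_Ico] at h1
    have h7 := hg j (mem_insert_self j s)
    refine Nat.mul_le_mul (by omega) (ih (fun i hi => hg i (mem_insert_of_mem hi))
      (hinj.mono (by
          intro x hx
          exact mem_coe.2 (mem_insert_of_mem (mem_coe.1 hx)))))

theorem fac_le {κ : Type} [DecidableEq κ] (g : κ → ℕ) (S : Finset κ)
    (h1 : ∀ i ∈ S, 1 ≤ g i) (h2 : Set.InjOn g S) : S.card.factorial ≤ ∏ i ∈ S, g i := by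
  have h := prod_ge 0 g S (fun i hi => by simpa using h1 i hi) h2
  rwa [zero_add, Nat.one_ascFactorial] at h

theorem fac_le' {κ : Type} [DecidableEq κ] (g : κ → ℕ) (S : Finset κ)
    (h1 : ∀ i ∈ S, 2 ≤ g i) (h2 : Set.InjOn g S) : (S.card + 1).factorial ≤ ∏ i ∈ S, g i := by
  have h := prod_ge 1 g S (fun i hi => h1 i hi) h2
  have h3 := Nat.factorial_mul_ascFactorial 1 S.card
  rw [Nat.factorial_one, one_mul, add_comm 1 S.card] at h3
  rwa [← h3]

end Cok

open Cok in
theorem count_ok {κ : Type} [DecidableEq κ] (P T : Finset κ) (hTP : T ⊆ P) (g : κ → ℕ)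
    (hg : ∀ i ∈ P, 1 ≤ g i) (hinj : Set.InjOn g P) (N n : ℕ)
    (hN : N ≤ 2 ^ P.card * T.card.ascFactorial (P.card - T.card))
    (h : (4 ≤ T.card ∧ n < 24) ∨ (T.card = 2 ∧ ∃ q ∈ T, n < g q) ∨
      (T.card = 2 ∧ (∀ i ∈ P, 2 ≤ g i) ∧ ∃ q ∈ T, n < 2 * g q)) :
    n * N < ∏ i ∈ P, (2 * g i) := by
  have hcard := card_le_card hTP
  rw [prod_mul_distrib, prod_const]
  have hasc : ∀ t : ℕ, 1 ≤ t → t ≤ P.card →
      (t - 1).factorial * t.ascFactorial (P.card - t) = (P.card - 1).factorial := by
    intro t ht htP
    have h3 := Nat.factorial_mul_ascFactorial (t - 1) (P.card - t)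
    have h4 : t - 1 + 1 = t := by omega
    have h5 : t - 1 + (P.card - t) = P.card - 1 := by omega
    rw [h4, h5] at h3
    exact h3
  have hpow : 0 < 2 ^ P.card := by positivity
  suffices hs : n * T.card.ascFactorial (P.card - T.card) < ∏ i ∈ P, g i by
    calc n * N ≤ n * (2 ^ P.card * T.card.ascFactorial (P.card - T.card)) :=
          Nat.mul_le_mul_left _ hN
      _ = 2 ^ P.card * (n * T.card.ascFactorial (P.card - T.card)) := by ring
      _ < 2 ^ P.card * ∏ i ∈ P, g i := Nat.mul_lt_mul_of_pos_left hs hpow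
  have herase : ∀ q ∈ T, ∏ i ∈ P, g i = g q * ∏ i ∈ P.erase q, g i := fun q hq =>
    (mul_prod_erase P g (hTP hq)).symm
  have hP : P.card.factorial = P.card * (P.card - 1).factorial ∨ P.card = 0 := by
    rcases Nat.eq_zero_or_pos P.card with h0 | h0
    · exact Or.inr h0
    · exact Or.inl (Nat.mul_factorial_pred (by omega)).symm
  rcases h with ⟨h4, hn⟩ | ⟨h2, q, hq, hn⟩ | ⟨h2, hg2, q, hq, hn⟩
  · have hP' := hP.resolve_right (by omega)
    have h5 := hasc T.card (by omega) hcard
    have h6 : 6 ≤ (T.card - 1).factorial := by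
      have : Nat.factorial 3 ≤ (T.card - 1).factorial := Nat.factorial_le (by omega)
      simpa [Nat.factorial] using this
    have h7 := fac_le g P hg hinj
    refine lt_of_lt_of_le ?_ h7
    rw [hP', ← h5]
    have h8 : 0 < T.card.ascFactorial (P.card - T.card) :=
      Nat.pos_of_ne_zero fun h0 => by
        rw [h0, mul_zero] at h5
        exact (Nat.factorial_ne_zero _) h5.symm
    calc n * T.card.ascFactorial (P.card - T.card)
        < 24 * T.card.ascFactorial (P.card - T.card) := Nat.mul_lt_mul_of_pos_right hn h8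
      _ ≤ (P.card * (T.card - 1).factorial) * T.card.ascFactorial (P.card - T.card) := by
          refine Nat.mul_le_mul_right _ ?_
          calc 24 = 4 * 6 := rfl
            _ ≤ _ := Nat.mul_le_mul (h4.trans hcard) h6
      _ = _ := by ring
  · have h5 := hasc T.card (by omega) hcard
    rw [h2] at h5 ⊢
    simp only [Nat.add_one_sub_one, Nat.factorial_one, one_mul] at h5
    rw [h5, herase q hq]
    have hqP := hTP hq
    have h7 := fac_le g (P.erase q) (fun i hi => hg i (mem_of_mem_erase hi))
      (hinj.mono (coe_subset.2 (erase_subset q P)))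
    rw [card_erase_of_mem hqP] at h7
    calc n * (P.card - 1).factorial < g q * (P.card - 1).factorial :=
          Nat.mul_lt_mul_of_pos_right hn (Nat.factorial_pos _)
      _ ≤ _ := Nat.mul_le_mul_left _ h7
  · have h5 := hasc T.card (by omega) hcard
    rw [h2] at h5 ⊢
    simp only [Nat.add_one_sub_one, Nat.factorial_one, one_mul] at h5
    rw [h5, herase q hq]
    have hqP := hTP hq
    have h7 := fac_le' g (P.erase q) (fun i hi => hg2 i (mem_of_mem_erase hi))
      (hinj.mono (coe_subset.2 (erase_subset q P)))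
    have h8 : (P.erase q).card + 1 = P.card := by
      rw [card_erase_of_mem hqP]
      omega
    rw [h8, hP.resolve_right (by omega)] at h7
    calc n * (P.card - 1).factorial < (2 * g q) * (P.card - 1).factorial :=
          Nat.mul_lt_mul_of_pos_right hn (Nat.factorial_pos _)
      _ = g q * (2 * (P.card - 1).factorial) := by ring
      _ ≤ g q * (P.card * (P.card - 1).factorial) := by
          refine Nat.mul_le_mul_left _ (Nat.mul_le_mul_right _ (by omega))
      _ ≤ _ := Nat.mul_le_mul_left _ h7

end Pool.Agent.LB
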