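import Pool.Agent.LB.Cok

/-!
# Refined counting inequality for distinct numbers different from 4
-/

set_option autoImplicit false

namespace Pool.Agent.LB

open Finset

namespace Cok

theorem prod_ge4 {κ : Type} [DecidableEq κ] (a : ℕ) (ha : a ≤ 3) (g : κ → ℕ) (S : Finset κ) :
    (∀ i ∈ S, a + 1 ≤ g i) → Set.InjOn g S → (∀ i ∈ S, g i ≠ 4) → 3 ≤ a + S.card →
    (a + S.card + 1).factorial ≤ 4 * a.factorial * ∏ i ∈ S, g i := by
  induction S using Finset.induction_on_max_value g with
  | empty =>
    intro _ _ _ h3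
    rw [card_empty] at h3 ⊢
    obtain rfl : a = 3 := by omega
    simp [Nat.factorial]
  | insert j s hj hmax ih =>
    intro hg hinj h4 h3
    rw [card_insert_of_notMem hj] at h3 ⊢
    rw [prod_insert hj]
    have hs : ∀ i ∈ s, a + 1 ≤ g i := fun i hi => hg i (mem_insert_of_mem hi)
    have hsinj : Set.InjOn g s := hinj.mono (by
          intro x hx
          exact mem_coe.2 (mem_insert_of_mem (mem_coe.1 hx)))
    have hlt : ∀ x ∈ s, g x < g j := by
      intro x hx
      have h3 : g x ≠ g j := by
        intro h4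
        have h5 := hinj (mem_coe.2 (mem_insert_of_mem hx)) (mem_coe.2 (mem_insert_self j s)) h4
        rw [h5] at hx
        exact hj hx
      have h6 := hmax x hx
      omega
    have hgj := hg j (mem_insert_self j s)
    have hgj4 := h4 j (mem_insert_self j s)
    have hcard1 : s.card ≤ g j - (a + 1) := by
      have h1 := Finset.card_le_card_of_injOn (s := s) (t := Finset.Ico (a + 1) (g j)) g
        (fun x hx => by
          have hx' := mem_coe.1 hx
          have h2 := hs x hx'
          have h3 := hlt x hx'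
          rw [mem_coe, mem_Ico]
          omega) hsinj
      rwa [Nat.card_Ico] at h1
    by_cases hc : 3 ≤ a + s.card
    · have h5 : 4 < g j := by omega
      have hcard : s.card ≤ g j - (a + 1) - 1 := by
        have h1 := Finset.card_le_card_of_injOn (s := s)
          (t := (Finset.Ico (a + 1) (g j)).erase 4) g
          (fun x hx => by
            have hx' := mem_coe.1 hx
            have h2 := hs x hx'
            have h3 := hlt x hx'
            have h4' := h4 x (mem_insert_of_mem hx')
            rw [mem_coe, mem_erase, mem_Ico]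
            exact ⟨h4', by omega, by omega⟩) hsinj
        rw [card_erase_of_mem (by rw [mem_Ico]; omega), Nat.card_Ico] at h1
        exact h1
      have h6 := ih hs hsinj (fun i hi => h4 i (mem_insert_of_mem hi)) hc
      have h7 : a + (s.card + 1) + 1 = (a + s.card + 1) + 1 := by ring
      rw [h7, Nat.factorial_succ]
      calc (a + s.card + 1 + 1) * (a + s.card + 1).factorial
          ≤ g j * (4 * a.factorial * ∏ i ∈ s, g i) := Nat.mul_le_mul (by omega) h6
        _ = _ := by ring
    · have hac : a + s.card = 2 := by omega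
      have h8 := prod_ge a g s hs hsinj
      have h9 := Nat.factorial_mul_ascFactorial a s.card
      rw [hac] at h9
      have h10 : a + (s.card + 1) + 1 = 4 := by omega
      rw [h10]
      have h11 : 3 ≤ g j := by omega
      have h12 : 2 ≤ a.factorial * ∏ i ∈ s, g i := by
        calc 2 = Nat.factorial 2 := rfl
          _ = a.factorial * (a + 1).ascFactorial s.card := h9.symm
          _ ≤ _ := Nat.mul_le_mul_left _ h8
      calc Nat.factorial 4 = 4 * (2 * 3) := rfl
        _ ≤ 4 * ((a.factorial * ∏ i ∈ s, g i) * g j) :=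
          Nat.mul_le_mul_left _ (Nat.mul_le_mul h12 h11)
        _ = _ := by ring

end Cok

open Cok in
/-- refined counting -/
theorem count_ok2 {κ : Type} [DecidableEq κ] (P T : Finset κ) (hTP : T ⊆ P) (g : κ → ℕ)
    (hg : ∀ i ∈ P, 1 ≤ g i) (hinj : Set.InjOn g P) (hg4 : ∀ i ∈ P, g i ≠ 4) (N n : ℕ)
    (hN : N ≤ 2 ^ P.card * T.card.ascFactorial (P.card - T.card))
    (h : (4 ≤ T.card ∧ n < 30) ∨ (4 ≤ T.card ∧ n < 180 ∧ ∀ i ∈ P, 2 ≤ g i) ∨
      (T.card = 2 ∧ ∃ q ∈ T, n < g q) ∨
      (T.card = 2 ∧ (∀ i ∈ P, 2 ≤ g i) ∧ n < ∏ i ∈ T, g i)) :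
    n * N < ∏ i ∈ P, (2 * g i) := by
  have hcard := card_le_card hTP
  have hasc : ∀ t : ℕ, 1 ≤ t → t ≤ P.card →
      (t - 1).factorial * t.ascFactorial (P.card - t) = (P.card - 1).factorial := by
    intro t ht htP
    have h3 := Nat.factorial_mul_ascFactorial (t - 1) (P.card - t)
    have h4 : t - 1 + 1 = t := by omega
    have h5 : t - 1 + (P.card - t) = P.card - 1 := by omega
    rw [h4, h5] at h3
    exact h3
  rcases h with ⟨h4, hn⟩ | ⟨h4, hn, hg2⟩ | ⟨h2, q, hq, hn⟩ | ⟨h2, hg2, hn⟩
  rotate_left 2
  · exact count_ok P T hTP g hg hinj N n hN (Or.inr (Or.inl ⟨h2, q, hq, hn⟩))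
  all_goals
    rw [prod_mul_distrib, prod_const]
    have hpow : 0 < 2 ^ P.card := by positivity
    suffices hs : n * T.card.ascFactorial (P.card - T.card) < ∏ i ∈ P, g i by
      calc n * N ≤ n * (2 ^ P.card * T.card.ascFactorial (P.card - T.card)) :=
            Nat.mul_le_mul_left _ hN
        _ = 2 ^ P.card * (n * T.card.ascFactorial (P.card - T.card)) := by ring
        _ < 2 ^ P.card * ∏ i ∈ P, g i := Nat.mul_lt_mul_of_pos_left hs hpow
  · have h5 := hasc T.card (by omega) hcard
    rw [h2] at h5 ⊢
    simp only [Nat.add_one_sub_one, Nat.factorial_one, one_mul] at h5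
    rw [h5]
    have h7 := fac_le' g (P \ T) (fun i hi => hg2 i (mem_sdiff.mp hi).1)
      (hinj.mono (coe_subset.2 sdiff_subset))
    rw [card_sdiff_of_subset hTP, h2] at h7
    have h8 : P.card - 2 + 1 = P.card - 1 := by omega
    rw [h8] at h7
    rw [← prod_sdiff hTP]
    calc n * (P.card - 1).factorial < (∏ i ∈ T, g i) * (P.card - 1).factorial :=
          Nat.mul_lt_mul_of_pos_right hn (Nat.factorial_pos _)
      _ ≤ (∏ i ∈ T, g i) * ∏ i ∈ P \ T, g i := Nat.mul_le_mul_left _ h7
      _ = _ := mul_comm _ _
  · have h5 := hasc T.card (by omega) hcard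
    have h6 : 6 ≤ (T.card - 1).factorial := by
      have : Nat.factorial 3 ≤ (T.card - 1).factorial := Nat.factorial_le (by omega)
      simpa [Nat.factorial] using this
    have h7 := prod_ge4 0 (by norm_num) g P (fun i hi => by simpa using hg i hi) hinj hg4 (by omega)
    have h8 : 0 + P.card + 1 = (P.card - 1) + 1 + 1 := by omega
    rw [h8, Nat.factorial_succ, Nat.factorial_succ, ← h5] at h7
    simp only [Nat.factorial_zero, mul_one] at h7
    set A := T.card.ascFactorial (P.card - T.card) with hA
    have hA0 : 0 < A := Nat.pos_of_ne_zero fun h0 => by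
      rw [h0, mul_zero] at h5
      exact (Nat.factorial_ne_zero _) h5.symm
    have h9 : 5 * (4 * (6 * A)) ≤ 4 * ∏ i ∈ P, g i := by
      refine le_trans ?_ h7
      refine Nat.mul_le_mul (by omega) (Nat.mul_le_mul (by omega) (Nat.mul_le_mul_right _ h6))
    have h10 : n * A < 30 * A := Nat.mul_lt_mul_of_pos_right hn hA0
    omega
  · have h5 := hasc T.card (by omega) hcard
    have h6 : 6 ≤ (T.card - 1).factorial := by
      have : Nat.factorial 3 ≤ (T.card - 1).factorial := Nat.factorial_le (by omega)
      simpa [Nat.factorial] using this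
    have h7 := prod_ge4 1 (by norm_num) g P (fun i hi => hg2 i hi) hinj hg4 (by omega)
    have h8 : 1 + P.card + 1 = (P.card - 1) + 1 + 1 + 1 := by omega
    rw [h8, Nat.factorial_succ, Nat.factorial_succ, Nat.factorial_succ, ← h5] at h7
    simp only [Nat.factorial_one, mul_one] at h7
    set A := T.card.ascFactorial (P.card - T.card) with hA
    have hA0 : 0 < A := Nat.pos_of_ne_zero fun h0 => by
      rw [h0, mul_zero] at h5
      exact (Nat.factorial_ne_zero _) h5.symm
    have h9 : 6 * (5 * (4 * (6 * A))) ≤ 4 * ∏ i ∈ P, g i := by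
      refine le_trans ?_ h7
      refine Nat.mul_le_mul (by omega) (Nat.mul_le_mul (by omega) (Nat.mul_le_mul (by omega)
        (Nat.mul_le_mul_right _ h6)))
    have h10 : n * A < 180 * A := Nat.mul_lt_mul_of_pos_right hn hA0
    omega

end Pool.Agent.LB
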