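import Mathlib

/-!
The numerical conditions of the length bound.
-/

namespace Pool.Agent.LB

/-- A prime `q = 1` modulo 4, different from 5, 13 and 17, and an odd prime `a` which is no square
modulo `q`. -/
def BadPair (q a : ℕ) : Prop :=
  q.Prime ∧ q % 4 = 1 ∧ q ≠ 5 ∧ q ≠ 13 ∧ q ≠ 17 ∧ a.Prime ∧ a ≠ 2 ∧ ¬ IsSquare ((a : ℕ) : ZMod q)

/-- The numerical condition on the odd prime factors of `m`: for every set `P` of such primes with at
least four elements `r (|P| - 1)!` is less than `6 ∏ (p - 1) / 2`, and less than `∏ (p - 1) / 2` if `P`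
contains a bad pair. -/
def LenCond (m r : ℕ) : Prop := ∀ P : Finset ℕ, (∀ p ∈ P, p.Prime ∧ p ≠ 2 ∧ p ∣ m) →
  (4 ≤ P.card → r * (P.card - 1).factorial < 6 * ∏ p ∈ P, (p - 1) / 2) ∧
  ((∃ q ∈ P, ∃ a ∈ P, BadPair q a) → r * (P.card - 1).factorial < ∏ p ∈ P, (p - 1) / 2)

/-- The covered pairs of a degree `m` and a dimension `n`: `n ≤ 5`; or `m` is odd and `n ≤ 11`, or
`n ≤ 15` and 87 does not divide `m`, or `n ≤ 33` and 3 does not divide `m`, or the square of every prime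
factor of `m` exceeds `4 n + 9`, or the numerical condition `LenCond m (n + 2)` is satisfied; or `m` is
twice an odd number and `n ≤ 7` and 87 does not divide `m`, or `n ≤ 15` and 3 does not divide `m`, or the
square of every odd prime factor of `m` exceeds `8 n + 17`, or `LenCond m (2 n + 4)` is satisfied. -/
def Covered (m n : ℕ) : Prop :=
  n ≤ 5 ∨
  (m % 2 = 1 ∧ (n ≤ 11 ∨ (n ≤ 15 ∧ ¬ 87 ∣ m) ∨ (n ≤ 33 ∧ ¬ 3 ∣ m) ∨
    (∀ p : ℕ, p.Prime → p ∣ m → 4 * n + 9 < p ^ 2) ∨ LenCond m (n + 2))) ∨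
  (m % 4 = 2 ∧ ((n ≤ 7 ∧ ¬ 87 ∣ m) ∨ (n ≤ 15 ∧ ¬ 3 ∣ m) ∨
    (∀ p : ℕ, p.Prime → p ≠ 2 → p ∣ m → 8 * n + 17 < p ^ 2) ∨ LenCond m (2 * n + 4)))

end Pool.Agent.LB
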