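import Pool.Agent.LB.Fin

/-!
The length bound: final form.
-/

set_option linter.unusedSectionVars false

namespace Pool.Agent.LB

open Finset Pool.Agent.N993 Pool.Agent.H916R2 Pool.Agent.N992

/-- Four or more indices. -/
lemma count_four {κ : Type} [DecidableEq κ] (P T : Finset κ) (hTP : T ⊆ P) (g : κ → ℕ)
    (hg : ∀ i ∈ P, 1 ≤ g i) (hinj : Set.InjOn g P) (r : ℕ) (hT : 4 ≤ T.card)
    (hr : ∀ F ⊆ P, F.card = 4 → r < ∏ i ∈ F, g i) :
    r * (2 ^ P.card * T.card.ascFactorial (P.card - T.card)) < ∏ i ∈ P, (2 * g i) := by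
  classical
  have hcard := card_le_card hTP
  rw [prod_mul_distrib, prod_const]
  -- the elements with small values
  set P0 := P.filter (fun i => g i ≤ 4) with hP0
  have h0 : P0.card ≤ 4 := by
    have h1 := Finset.card_le_card_of_injOn (s := P0) (t := Finset.Icc 1 4) g
      (fun x hx => by
        have hx' := mem_filter.mp (mem_coe.mp hx)
        rw [mem_coe, mem_Icc]
        exact ⟨hg x hx'.1, hx'.2⟩)
      (hinj.mono (by
        intro x hx
        exact mem_coe.2 (mem_filter.mp (mem_coe.1 hx)).1))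
    simpa using h1
  obtain ⟨F, hPF, hFP, hF⟩ := exists_subsuperset_card_eq (filter_subset _ P) h0 (hT.trans hcard)
  have hrF := hr F hFP hF
  have hsd : (P \ F).card = P.card - 4 := by rw [card_sdiff_of_subset hFP, hF]
  have hB : (4 + 1 : ℕ).ascFactorial (P \ F).card ≤ ∏ i ∈ P \ F, g i :=
    Cok.prod_ge 4 g (P \ F) (fun i hi => by
      rw [mem_sdiff] at hi
      by_contra h
      exact hi.2 (hPF (mem_filter.mpr ⟨hi.1, by omega⟩)))
      (hinj.mono (by intro x hx; exact mem_coe.2 (mem_sdiff.mp (mem_coe.1 hx)).1))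
  rw [hsd] at hB
  have hprod : (∏ i ∈ P \ F, g i) * ∏ i ∈ F, g i = ∏ i ∈ P, g i := prod_sdiff hFP
  have h3 : (T.card - 1).factorial * T.card.ascFactorial (P.card - T.card) =
      (P.card - 1).factorial := by
    have h3 := Nat.factorial_mul_ascFactorial (T.card - 1) (P.card - T.card)
    have h4 : T.card - 1 + 1 = T.card := by omega
    have h5 : T.card - 1 + (P.card - T.card) = P.card - 1 := by omega
    rw [h4, h5] at h3
    exact h3
  have h4 : 24 * (4 + 1 : ℕ).ascFactorial (P.card - 4) = P.card.factorial := by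
    have h4 := Nat.factorial_mul_ascFactorial 4 (P.card - 4)
    have h5 : 4 + (P.card - 4) = P.card := by omega
    rw [h5] at h4
    have h6 : Nat.factorial 4 = 24 := rfl
    rw [h6] at h4
    exact h4
  have h6 : 6 ≤ (T.card - 1).factorial := by
    have : Nat.factorial 3 ≤ (T.card - 1).factorial := Nat.factorial_le (by omega)
    simpa [Nat.factorial] using this
  have h7 : P.card.factorial = P.card * (P.card - 1).factorial :=
    (Nat.mul_factorial_pred (by omega)).symm
  have h8 : T.card.ascFactorial (P.card - T.card) ≤ (4 + 1 : ℕ).ascFactorial (P.card - 4) := by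
    have h9 : 24 * T.card.ascFactorial (P.card - T.card) ≤
        24 * (4 + 1 : ℕ).ascFactorial (P.card - 4) := by
      rw [h4, h7, ← h3]
      calc 24 * T.card.ascFactorial (P.card - T.card)
          = 4 * (6 * T.card.ascFactorial (P.card - T.card)) := by ring
        _ ≤ P.card * ((T.card - 1).factorial * T.card.ascFactorial (P.card - T.card)) :=
            Nat.mul_le_mul (hT.trans hcard) (Nat.mul_le_mul_right _ h6)
    omega
  have hpos : 0 < T.card.ascFactorial (P.card - T.card) :=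
    Nat.pos_of_ne_zero fun h0 => by
      rw [h0, mul_zero] at h3
      exact (Nat.factorial_ne_zero _) h3.symm
  have hpow : 0 < 2 ^ P.card := by positivity
  have key : r * T.card.ascFactorial (P.card - T.card) < ∏ i ∈ P, g i := by
    calc r * T.card.ascFactorial (P.card - T.card)
        < (∏ i ∈ F, g i) * T.card.ascFactorial (P.card - T.card) :=
          Nat.mul_lt_mul_of_pos_right hrF hpos
      _ ≤ (∏ i ∈ F, g i) * ∏ i ∈ P \ F, g i := Nat.mul_le_mul_left _ (h8.trans hB)
      _ = ∏ i ∈ P, g i := by rw [mul_comm]; exact hprod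
  calc r * (2 ^ P.card * T.card.ascFactorial (P.card - T.card))
      = 2 ^ P.card * (r * T.card.ascFactorial (P.card - T.card)) := by ring
    _ < 2 ^ P.card * ∏ i ∈ P, g i := Nat.mul_lt_mul_of_pos_left key hpow

/-- Pairs. -/
lemma count_two {κ : Type} [DecidableEq κ] (P T : Finset κ) (hTP : T ⊆ P) (g : κ → ℕ)
    (hg : ∀ i ∈ P, 1 ≤ g i) (hinj : Set.InjOn g P) (r : ℕ) (hT : T.card = 2) {q : κ} (hq : q ∈ T)
    (hr : ∀ a ∈ P, a ≠ q → r < g q * g a) :
    r * (2 ^ P.card * T.card.ascFactorial (P.card - T.card)) < ∏ i ∈ P, (2 * g i) := by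
  classical
  have hcard := card_le_card hTP
  rw [prod_mul_distrib, prod_const, hT]
  have hqP := hTP hq
  have hne : (P.erase q).Nonempty := by
    rw [← card_pos, card_erase_of_mem hqP]; omega
  obtain ⟨a, ha, hmin⟩ := exists_min_image (P.erase q) g hne
  have haP : a ∈ P := mem_of_mem_erase ha
  have hra := hr a haP (ne_of_mem_erase ha)
  have h1 : ∏ i ∈ P, g i = g q * (g a * ∏ i ∈ (P.erase q).erase a, g i) := by
    rw [mul_prod_erase _ g ha, mul_prod_erase _ g hqP]
  have h2 : ∀ i ∈ (P.erase q).erase a, 2 ≤ g i := by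
    intro i hi
    have h3 := hmin i (mem_of_mem_erase hi)
    have h4 := hg a haP
    have h5 : g a ≠ g i := fun h => (ne_of_mem_erase hi)
      (hinj (mem_coe.2 haP) (mem_coe.2 (mem_of_mem_erase (mem_of_mem_erase hi))) h).symm
    omega
  have h3 := Cok.fac_le' g ((P.erase q).erase a) h2
    (hinj.mono (coe_subset.2 ((erase_subset _ _).trans (erase_subset _ _))))
  have h4 : ((P.erase q).erase a).card + 1 = P.card - 1 := by
    rw [card_erase_of_mem ha, card_erase_of_mem hqP]; omega
  rw [h4] at h3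
  have h5 : (2 : ℕ).ascFactorial (P.card - 2) = (P.card - 1).factorial := by
    have h3 := Nat.factorial_mul_ascFactorial 1 (P.card - 2)
    have h4 : 1 + (P.card - 2) = P.card - 1 := by omega
    rw [h4, Nat.factorial_one, one_mul] at h3
    exact h3
  rw [h5]
  have hpow : 0 < 2 ^ P.card := by positivity
  have key : r * (P.card - 1).factorial < ∏ i ∈ P, g i := by
    rw [h1, ← mul_assoc]
    calc r * (P.card - 1).factorial < (g q * g a) * (P.card - 1).factorial :=
          Nat.mul_lt_mul_of_pos_right hra (Nat.factorial_pos _)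
      _ ≤ _ := Nat.mul_le_mul_left _ h3
  calc r * (2 ^ P.card * (P.card - 1).factorial)
      = 2 ^ P.card * (r * (P.card - 1).factorial) := by ring
    _ < 2 ^ P.card * ∏ i ∈ P, g i := Nat.mul_lt_mul_of_pos_left key hpow

/-- A pair of odd primes which is not good contains a prime `q = 1` modulo 4 different from 5, 13, 17
for which the other prime is no square. -/
lemma bad_pair {x y : ℕ} (hxy : x ≠ y) (hx : x.Prime ∧ x % 2 = 1) (hy : y.Prime ∧ y % 2 = 1)
    (h : ¬ Good {x, y}) : ∃ q a : ℕ, ((q = x ∧ a = y) ∨ (q = y ∧ a = x)) ∧ q % 4 = 1 ∧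
      ¬ (q = 5 ∨ q = 13 ∨ q = 17) ∧ ¬ IsSquare ((a : ℕ) : ZMod q) := by
  by_contra hcon
  push Not at hcon
  apply h
  refine good_pair hxy ⟨?_, ?_⟩
  · intro z hz
    rw [mem_insert, mem_singleton] at hz
    rcases hz with rfl | rfl
    · exact Or.inl hx
    · exact Or.inl hy
  · intro p hp hp4
    by_cases h1 : p = 5 ∨ p = 13 ∨ p = 17
    · right; exact h1
    · left
      rw [mem_insert, mem_singleton] at hp
      refine ⟨?_, ?_⟩
      · intro j hj hjp
        rw [mem_insert, mem_singleton] at hj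
        have h2 := hcon p j (by
          rcases hp with hp | hp <;> rcases hj with hj | hj
          · exact absurd (hj.trans hp.symm) hjp
          · exact Or.inl ⟨hp, hj⟩
          · exact Or.inr ⟨hp, hj⟩
          · exact absurd (hj.trans hp.symm) hjp) hp4 (by
            push Not at h1; exact h1)
        exact h2
      · intro h4
        rw [mem_insert, mem_singleton] at h4
        rcases h4 with h4 | h4
        · have := hx.2; omega
        · have := hy.2; omega

/-- All odd primes of `m` other than `q` are squares modulo `q`. -/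
def Sees (m q : ℕ) : Prop :=
  ∀ a, a.Prime → a ∣ m → a ≠ 2 → a ≠ q → IsSquare ((a : ℕ) : ZMod q)

/-- The length `r` is small compared with the odd primes of `m`. -/
structure Short (m r : ℕ) : Prop where
  pairs : ∀ q, q.Prime → q ∣ m → q % 4 = 1 → ¬ Sees m q → q ≠ 5 → q ≠ 13 → q ≠ 17 →
    ∀ a, a.Prime → a ∣ m → a ≠ 2 → a ≠ q → 4 * r < (q - 1) * (a - 1)
  quadruples : ∀ F : Finset ℕ, (∀ a ∈ F, a.Prime ∧ a ∣ m ∧ a ≠ 2) → F.card = 4 →
    16 * r < ∏ a ∈ F, (a - 1)

theorem avoid_all {m : ℕ} (hm : m % 2 = 1) {S : Finset ℕ} (hS : S = m.primeFactors)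
    [∀ i : Ix S, NeZero (nn S i)] {r : ℕ} (hq : Short m r) : Avoid S r := by
  classical
  have hm0 : m ≠ 0 := by rintro rfl; omega
  have hSp : ∀ x ∈ S, (x.Prime ∧ x % 2 = 1) ∧ x ∣ m := by
    intro x hx
    rw [hS] at hx
    have h1 := Nat.prime_of_mem_primeFactors hx
    have h2 := Nat.dvd_of_mem_primeFactors hx
    refine ⟨⟨h1, ?_⟩, h2⟩
    rcases h1.eq_two_or_odd with h | h
    · exfalso; subst h; omega
    · exact h
  intro T hT hbad X hX
  refine avoid_one (fun x hx => (hSp x hx).1) T ?_ X hX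
  have hg1 : ∀ i : Ix S, 1 ≤ (i : ℕ) / 2 := fun i =>
    (Nat.one_le_div_iff (by norm_num)).mpr (hSp i i.2).1.1.two_le
  have hdbl : ∀ i : Ix S, (i : ℕ) - 1 = 2 * ((i : ℕ) / 2) := by
    intro i
    have := (hSp i i.2).1.2
    omega
  have hne2 : ∀ i : Ix S, (i : ℕ) ≠ 2 := by
    intro i h
    have := (hSp i i.2).1.2
    omega
  have hinj : ∀ P : Finset (Ix S), Set.InjOn (fun i : Ix S => (i : ℕ) / 2) P := by
    intro P i _ j _ hij
    have h1 := (hSp i i.2).1.2
    have h2 := (hSp j j.2).1.2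
    apply Subtype.ext
    have h3 : (i : ℕ) / 2 = (j : ℕ) / 2 := hij
    omega
  intro P hTP
  by_cases h4 : 4 ≤ T.card
  · refine count_four P T hTP (fun i => (i : ℕ) / 2) (fun i _ => hg1 i) (hinj P) r h4 ?_
    intro F _ hF
    have h5 := hq.quadruples (F.map (Function.Embedding.subtype _)) (by
      intro a ha
      obtain ⟨i, _, rfl⟩ := mem_map.mp ha
      exact ⟨(hSp i i.2).1.1, (hSp i i.2).2, hne2 i⟩) (by rw [card_map]; exact hF)
    rw [prod_map] at h5
    have h6 : ∏ i ∈ F, ((Function.Embedding.subtype (· ∈ S)) i - 1) =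
        16 * ∏ i ∈ F, ((i : ℕ) / 2) := by
      have h7 : ∏ i ∈ F, ((Function.Embedding.subtype (· ∈ S)) i - 1) =
          ∏ i ∈ F, (2 * ((i : ℕ) / 2)) := prod_congr rfl fun i _ => hdbl i
      rw [h7, prod_mul_distrib, prod_const, hF]
      norm_num
    rw [h6] at h5
    exact Nat.lt_of_mul_lt_mul_left h5
  · have h2 : T.card = 0 ∨ T.card = 2 := by
      obtain ⟨k, hk⟩ := hT
      omega
    rcases h2 with h2 | h2
    · exfalso
      apply hbad
      rw [card_eq_zero] at h2
      rw [h2, map_empty]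
      exact good_of_squares (fun x hx => absurd hx (notMem_empty _))
        (fun x hx => absurd hx (notMem_empty _))
    · obtain ⟨x, y, hxy, rfl⟩ := card_eq_two.mp h2
      have hmap : ({x, y} : Finset (Ix S)).map (Function.Embedding.subtype _) =
          {(x : ℕ), (y : ℕ)} := by
        ext z; simp
      rw [hmap] at hbad
      obtain ⟨q, a, hqa, hq4, hq5, hns⟩ := bad_pair (fun h => hxy (Subtype.ext h)) (hSp x x.2).1
        (hSp y y.2).1 hbad
      have hqS : ∃ q' ∈ ({x, y} : Finset (Ix S)), (q' : ℕ) = q := by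
        rcases hqa with ⟨h, _⟩ | ⟨h, _⟩
        · exact ⟨x, mem_insert_self _ _, h.symm⟩
        · exact ⟨y, mem_insert_of_mem (mem_singleton_self _), h.symm⟩
      have haS : ∃ a' ∈ ({x, y} : Finset (Ix S)), (a' : ℕ) = a := by
        rcases hqa with ⟨_, h⟩ | ⟨_, h⟩
        · exact ⟨y, mem_insert_of_mem (mem_singleton_self _), h.symm⟩
        · exact ⟨x, mem_insert_self _ _, h.symm⟩
      have hneaq : a ≠ q := by
        rcases hqa with ⟨h, h'⟩ | ⟨h, h'⟩
        · rw [h, h']; exact fun h => hxy (Subtype.ext h.symm)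
        · rw [h, h']; exact fun h => hxy (Subtype.ext h)
      obtain ⟨q', hq', hq'q⟩ := hqS
      obtain ⟨a', ha', ha'a⟩ := haS
      refine count_two P {x, y} hTP (fun i => (i : ℕ) / 2) (fun i _ => hg1 i) (hinj P) r h2 hq' ?_
      intro b hb hbq
      have hsees : ¬ Sees m q := by
        intro h
        apply hns
        refine h a (ha'a ▸ (hSp a' a'.2).1.1) (ha'a ▸ (hSp a' a'.2).2) ?_ hneaq
        rw [← ha'a]; exact hne2 a'
      have h5 := hq.pairs q (hq'q ▸ (hSp q' q'.2).1.1) (hq'q ▸ (hSp q' q'.2).2) hq4 hsees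
        (fun h => hq5 (Or.inl h)) (fun h => hq5 (Or.inr (Or.inl h)))
        (fun h => hq5 (Or.inr (Or.inr h))) b (hSp b b.2).1.1 (hSp b b.2).2 (hne2 b)
        (by rw [← hq'q]; exact fun h => hbq (Subtype.ext h))
      rw [← hq'q, hdbl q', hdbl b] at h5
      have h6 : 2 * ((q' : ℕ) / 2) * (2 * ((b : ℕ) / 2)) =
          4 * (((q' : ℕ) / 2) * ((b : ℕ) / 2)) := by ring
      rw [h6] at h5
      exact Nat.lt_of_mul_lt_mul_left h5

lemma Short.dvd {m m' r : ℕ} (h : Short m r) (hd : m' ∣ m) (h2 : ∀ a, a.Prime → a ≠ 2 → a ∣ m → a ∣ m') :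
    Short m' r where
  pairs := by
    intro q hq hqm hq4 hns h5 h13 h17 a ha ham ha2 haq
    refine h.pairs q hq (hqm.trans hd) hq4 (fun hs => hns ?_) h5 h13 h17 a ha (ham.trans hd) ha2 haq
    intro b hb hbm hb2 hbq
    exact hs b hb (hbm.trans hd) hb2 hbq
  quadruples := by
    intro F hF hF4
    exact h.quadruples F (fun a ha => ⟨(hF a ha).1, (hF a ha).2.1.trans hd, (hF a ha).2.2⟩) hF4

/-- The theorem for odd degrees and multiples of 2. -/
theorem lengthBound (m : ℕ) [NeZero m] (n : ℕ) (hm : (m % 2 = 1 ∧ Short m n) ∨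
    (m % 4 = 2 ∧ Short m (2 * n))) :
    ∃ l : ℕ, ∃ _ : NeZero (l * m), ∀ s : Multiset (ZMod m), IsHodge m s → s ≠ 0 →
      Multiset.card s ≤ n →
      Generated (l * m) (FourBase (l * m)) (s.map (iota l : ZMod m → ZMod (l * m))) := by
  classical
  -- the vanishing suffices
  have key : ∀ L : ℕ, L ≠ 0 → (∀ s : Multiset (ZMod m), IsHodge m s → Multiset.card s ≤ n →
      ∀ (N : ℕ) [NeZero N], L * m = N → ∀ (Q : Type) [AddCommGroup Q] (c : ZMod N → Q), OddDist c →
      (∀ s, FourBase N s → (s.map c).sum = 0) → (s.map (fun a => c (iota L a))).sum = 0) →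
      ∃ l : ℕ, ∃ _ : NeZero (l * m), ∀ s : Multiset (ZMod m), IsHodge m s → s ≠ 0 →
      Multiset.card s ≤ n →
      Generated (l * m) (FourBase (l * m)) (s.map (iota l : ZMod m → ZMod (l * m))) := by
    intro l hl0 hv
    have hlm : NeZero (l * m) := ⟨Nat.mul_ne_zero hl0 (NeZero.ne m)⟩
    refine ⟨l, hlm, fun s hs hne hcard => ?_⟩
    set c := cQ (l * m) (FourBase (l * m)) with hc
    have hcD : OddDist c := cQ_oddDist
    have hsl : IsHodge (l * m) (s.map (iota l : ZMod m → ZMod (l * m))) := hs.iota rfl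
    have he := hv s hs hcard (l * m) rfl _ c hcD (fun s0 hs0 =>
      cQ_sum_eq_zero (Generated.ofBase (m := l * m) (base := FourBase (l * m)) s0 hs0))
    have h4 : ((s.map (iota l : ZMod m → ZMod (l * m))).map c).sum = 0 := by
      rw [Multiset.map_map]; exact he
    rw [hc, cQ_sum, QuotientAddGroup.eq_zero_iff] at h4
    refine generated_of_mem_LL ?_ ?_ hsl.1 hsl.2.1 ?_ h4
    · rintro s (hs | hs)
      · exact Pool.Agent.Y2.Cv.base_good s hs
      · exact ⟨hs.1.1, hs.1.2.1⟩
    · rintro s (hs | hs)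
      · exact Or.inl (Pool.Agent.Y2.Cv.base_neg s hs)
      · exact Or.inr hs.neg
    · intro h5
      exact hne (Multiset.map_eq_zero.mp h5)
  rcases hm with ⟨hodd, hq⟩ | ⟨h2m, hq⟩
  · have hnz : ∀ i : Ix m.primeFactors, NeZero (nn m.primeFactors i) := fun i =>
      ⟨(Nat.prime_of_mem_primeFactors i.2).ne_zero⟩
    obtain ⟨L, hL0, hL⟩ := main_odd decompStmt rhoStmt hodd rfl (avoid_all hodd rfl hq)
    refine key L hL0 ?_
    intro s hs hcard N _ hN Q _ c hc hkill
    have h1 := hL s hcard hs.rel 1 N (by rw [one_mul]; exact hN) Q c hc hkill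
    simpa only [one_mul] using h1
  · obtain ⟨m', hm'⟩ : ∃ m', 2 * m' = m := ⟨m / 2, by omega⟩
    have hodd : m' % 2 = 1 := by omega
    have hNZ : NeZero m' := ⟨by rintro rfl; omega⟩
    have hnz : ∀ i : Ix m'.primeFactors, NeZero (nn m'.primeFactors i) := fun i =>
      ⟨(Nat.prime_of_mem_primeFactors i.2).ne_zero⟩
    have hq' : Short m' (2 * n) := hq.dvd ⟨2, by rw [← hm']; ring⟩ (by
      intro a ha ha2 ham
      rw [← hm'] at ham
      rcases (Nat.Prime.dvd_mul ha).mp ham with h | h
      · exact absurd ((Nat.prime_dvd_prime_iff_eq ha Nat.prime_two).mp h) ha2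
      · exact h)
    obtain ⟨L, hL0, hL⟩ := main_odd decompStmt rhoStmt hodd rfl
      (avoid_all (r := 2 * n) hodd rfl hq')
    refine key L hL0 ?_
    intro s hs hcard N _ hN Q _ c hc hkill
    obtain ⟨s', hs'c, hs'r, hs'⟩ := exists_half hm' hodd s hs.rel
    have h1 := hL s' (by omega) hs'r 2 N (by rw [← hN, ← hm']; ring) Q c hc hkill
    have h2 := hs' Q (fun a : ZMod m => c (iota L a)) (hc.comp_iota hN)
    rw [h2]
    have h3 : ∀ b : ZMod m', c (iota L (iota 2 b : ZMod m)) = c (iota (2 * L) b) := by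
      intro b
      rw [iota_comp hN, mul_comm L 2]
    simp only [h3]
    exact h1

end Pool.Agent.LB
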