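import Pool.Agent.LB.Cond
import Pool.Agent.LB.Fin2
import Pool.Agent.LB.Cok2

/-!
The length bound: sharp form of the counting conditions.
-/

set_option linter.unusedSectionVars false

namespace Pool.Agent.LB

open Finset Pool.Agent.N993 Pool.Agent.H916R2 Pool.Agent.N992

lemma asc_fac {t p : ℕ} (ht : 1 ≤ t) (htp : t ≤ p) :
    (t - 1).factorial * t.ascFactorial (p - t) = (p - 1).factorial := by
  have h3 := Nat.factorial_mul_ascFactorial (t - 1) (p - t)
  have h4 : t - 1 + 1 = t := by omega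
  have h5 : t - 1 + (p - t) = p - 1 := by omega
  rw [h4, h5] at h3
  exact h3

theorem avoid_all2 {m : ℕ} (hm : m % 2 = 1) {S : Finset ℕ} (hS : S = m.primeFactors)
    [∀ i : Ix S, NeZero (nn S i)] {r : ℕ} (hq : LenCond m r) : Avoid S r := by
  classical
  have hm0 : m ≠ 0 := by rintro rfl; omega
  have hSp : ∀ x ∈ S, (x.Prime ∧ x % 2 = 1) ∧ x ∣ m := by
    intro x hx
    rw [hS] at hx
    have h1 := Nat.prime_of_mem_primeFactors hx
    have h2 := Nat.dvd_of_mem_primeFactors hx
    refine ⟨⟨h1, ?_⟩, h2⟩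
    rcases h1.eq_two_or_odd with h | h
    · exfalso; subst h; omega
    · exact h
  intro T hT hbad X hX
  refine avoid_one (fun x hx => (hSp x hx).1) T ?_ X hX
  intro P hTP
  have hcard := card_le_card hTP
  have hP' : ∀ p ∈ P.map (Function.Embedding.subtype _), p.Prime ∧ p ≠ 2 ∧ p ∣ m := by
    intro p hp
    rw [mem_map] at hp
    obtain ⟨i, _, rfl⟩ := hp
    have h1 := hSp i i.2
    refine ⟨h1.1.1, ?_, h1.2⟩
    change (i : ℕ) ≠ 2
    have := h1.1.2
    omega
  have hprod : ∏ p ∈ P.map (Function.Embedding.subtype _), (p - 1) / 2 =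
      ∏ i ∈ P, (i : ℕ) / 2 := by
    rw [prod_map]
    refine prod_congr rfl fun i _ => ?_
    change ((i : ℕ) - 1) / 2 = _
    have := (hSp i i.2).1.2
    omega
  have h1 := hq _ hP'
  rw [card_map, hprod] at h1
  rw [prod_mul_distrib, prod_const]
  have hpow : 0 < 2 ^ P.card := by positivity
  suffices key : r * T.card.ascFactorial (P.card - T.card) < ∏ i ∈ P, (i : ℕ) / 2 by
    calc r * (2 ^ P.card * T.card.ascFactorial (P.card - T.card))
        = 2 ^ P.card * (r * T.card.ascFactorial (P.card - T.card)) := by ring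
      _ < 2 ^ P.card * ∏ i ∈ P, (i : ℕ) / 2 := Nat.mul_lt_mul_of_pos_left key hpow
  by_cases h4 : 4 ≤ T.card
  · have h2 := h1.1 (h4.trans hcard)
    rw [← asc_fac (by omega : 1 ≤ T.card) hcard] at h2
    have h6 : 6 ≤ (T.card - 1).factorial := by
      have : Nat.factorial 3 ≤ (T.card - 1).factorial := Nat.factorial_le (by omega)
      simpa [Nat.factorial] using this
    have h7 : 6 * (r * T.card.ascFactorial (P.card - T.card)) < 6 * ∏ i ∈ P, (i : ℕ) / 2 := by
      refine lt_of_le_of_lt ?_ h2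
      calc 6 * (r * T.card.ascFactorial (P.card - T.card))
          ≤ (T.card - 1).factorial * (r * T.card.ascFactorial (P.card - T.card)) :=
            Nat.mul_le_mul_right _ h6
        _ = _ := by ring
    omega
  · have h2 : T.card = 0 ∨ T.card = 2 := by
      obtain ⟨k, hk⟩ := hT
      omega
    rcases h2 with h2 | h2
    · exfalso
      apply hbad
      rw [card_eq_zero] at h2
      rw [h2, map_empty]
      exact good_of_squares (fun x hx => absurd hx (notMem_empty _))
        (fun x hx => absurd hx (notMem_empty _))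
    · have h3 := asc_fac (by omega : 1 ≤ T.card) hcard
      rw [h2] at h3 ⊢
      simp only [Nat.add_one_sub_one, Nat.factorial_one, one_mul] at h3
      rw [h3]
      apply h1.2
      obtain ⟨x, y, hxy, rfl⟩ := card_eq_two.mp h2
      have hmap : ({x, y} : Finset (Ix S)).map (Function.Embedding.subtype _) =
          {(x : ℕ), (y : ℕ)} := by
        ext z; simp [eq_comm]
      rw [hmap] at hbad
      have hxP : (x : ℕ) ∈ P.map (Function.Embedding.subtype _) :=
        mem_map.mpr ⟨x, hTP (mem_insert_self _ _), rfl⟩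
      have hyP : (y : ℕ) ∈ P.map (Function.Embedding.subtype _) :=
        mem_map.mpr ⟨y, hTP (mem_insert_of_mem (mem_singleton_self _)), rfl⟩
      obtain ⟨q, a, hqa, hq4, hq5, hns⟩ := bad_pair (fun h => hxy (Subtype.ext h)) (hSp x x.2).1
        (hSp y y.2).1 hbad
      push Not at hq5
      rcases hqa with ⟨rfl, rfl⟩ | ⟨rfl, rfl⟩
      · exact ⟨x, hxP, y, hyP, (hP' _ hxP).1, hq4, hq5.1, hq5.2.1, hq5.2.2, (hP' _ hyP).1,
          (hP' _ hyP).2.1, hns⟩
      · exact ⟨y, hyP, x, hxP, (hP' _ hyP).1, hq4, hq5.1, hq5.2.1, hq5.2.2, (hP' _ hxP).1,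
          (hP' _ hxP).2.1, hns⟩

/-- The theorem for odd degrees and their doubles. -/
theorem lengthBound2 (m : ℕ) [NeZero m] (n : ℕ) (hm : (m % 2 = 1 ∧ LenCond m n) ∨
    (m % 4 = 2 ∧ LenCond m (2 * n))) :
    ∃ l : ℕ, ∃ _ : NeZero (l * m), ∀ s : Multiset (ZMod m), IsHodge m s → s ≠ 0 →
      Multiset.card s ≤ n →
      Generated (l * m) (FourBase (l * m)) (s.map (iota l : ZMod m → ZMod (l * m))) := by
  classical
  -- the vanishing suffices
  have key : ∀ L : ℕ, L ≠ 0 → (∀ s : Multiset (ZMod m), IsHodge m s → Multiset.card s ≤ n →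
      ∀ (N : ℕ) [NeZero N], L * m = N → ∀ (Q : Type) [AddCommGroup Q] (c : ZMod N → Q), OddDist c →
      (∀ s, FourBase N s → (s.map c).sum = 0) → (s.map (fun a => c (iota L a))).sum = 0) →
      ∃ l : ℕ, ∃ _ : NeZero (l * m), ∀ s : Multiset (ZMod m), IsHodge m s → s ≠ 0 →
      Multiset.card s ≤ n →
      Generated (l * m) (FourBase (l * m)) (s.map (iota l : ZMod m → ZMod (l * m))) := by
    intro l hl0 hv
    have hlm : NeZero (l * m) := ⟨Nat.mul_ne_zero hl0 (NeZero.ne m)⟩
    refine ⟨l, hlm, fun s hs hne hcard => ?_⟩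
    set c := cQ (l * m) (FourBase (l * m)) with hc
    have hcD : OddDist c := cQ_oddDist
    have hsl : IsHodge (l * m) (s.map (iota l : ZMod m → ZMod (l * m))) := hs.iota rfl
    have he := hv s hs hcard (l * m) rfl _ c hcD (fun s0 hs0 =>
      cQ_sum_eq_zero (Generated.ofBase (m := l * m) (base := FourBase (l * m)) s0 hs0))
    have h4 : ((s.map (iota l : ZMod m → ZMod (l * m))).map c).sum = 0 := by
      rw [Multiset.map_map]; exact he
    rw [hc, cQ_sum, QuotientAddGroup.eq_zero_iff] at h4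
    refine generated_of_mem_LL ?_ ?_ hsl.1 hsl.2.1 ?_ h4
    · rintro s (hs | hs)
      · exact Pool.Agent.Y2.Cv.base_good s hs
      · exact ⟨hs.1.1, hs.1.2.1⟩
    · rintro s (hs | hs)
      · exact Or.inl (Pool.Agent.Y2.Cv.base_neg s hs)
      · exact Or.inr hs.neg
    · intro h5
      exact hne (Multiset.map_eq_zero.mp h5)
  rcases hm with ⟨hodd, hq⟩ | ⟨h2m, hq⟩
  · have hnz : ∀ i : Ix m.primeFactors, NeZero (nn m.primeFactors i) := fun i =>
      ⟨(Nat.prime_of_mem_primeFactors i.2).ne_zero⟩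
    obtain ⟨L, hL0, hL⟩ := main_odd decompStmt rhoStmt hodd rfl (avoid_all2 hodd rfl hq)
    refine key L hL0 ?_
    intro s hs hcard N _ hN Q _ c hc hkill
    have h1 := hL s hcard hs.rel 1 N (by rw [one_mul]; exact hN) Q c hc hkill
    simpa only [one_mul] using h1
  · obtain ⟨m', hm'⟩ : ∃ m', 2 * m' = m := ⟨m / 2, by omega⟩
    have hodd : m' % 2 = 1 := by omega
    have hNZ : NeZero m' := ⟨by rintro rfl; omega⟩
    have hnz : ∀ i : Ix m'.primeFactors, NeZero (nn m'.primeFactors i) := fun i =>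
      ⟨(Nat.prime_of_mem_primeFactors i.2).ne_zero⟩
    have hdm : ∀ a, a ∣ m' → a ∣ m := fun a h => hm' ▸ Dvd.dvd.mul_left h 2
    have hq' : LenCond m' (2 * n) := fun P hP =>
      hq P fun p hp => ⟨(hP p hp).1, (hP p hp).2.1, hdm p (hP p hp).2.2⟩
    obtain ⟨L, hL0, hL⟩ := main_odd decompStmt rhoStmt hodd rfl
      (avoid_all2 (r := 2 * n) hodd rfl hq')
    refine key L hL0 ?_
    intro s hs hcard N _ hN Q _ c hc hkill
    obtain ⟨s', hs'c, hs'r, hs'⟩ := exists_half hm' hodd s hs.rel
    have h1 := hL s' (by omega) hs'r 2 N (by rw [← hN, ← hm']; ring) Q c hc hkill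
    have h2 := hs' Q (fun a : ZMod m => c (iota L a)) (hc.comp_iota hN)
    rw [h2]
    have h3 : ∀ b : ZMod m', c (iota L (iota 2 b : ZMod m)) = c (iota (2 * L) b) := by
      intro b
      rw [iota_comp hN, mul_comm L 2]
    simp only [h3]
    exact h1

section numerical

variable {m r : ℕ}

lemma half_inj {P : Finset ℕ} (hP : ∀ p ∈ P, p.Prime ∧ p ≠ 2 ∧ p ∣ m) :
    Set.InjOn (fun p : ℕ => (p - 1) / 2) P := by
  intro i hi j hj hij
  have h1 : i % 2 = 1 := ((hP i hi).1.eq_two_or_odd).resolve_left (hP i hi).2.1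
  have h2 : j % 2 = 1 := ((hP j hj).1.eq_two_or_odd).resolve_left (hP j hj).2.1
  have h3 : (i - 1) / 2 = (j - 1) / 2 := hij
  omega

lemma half_pos' {P : Finset ℕ} (hP : ∀ p ∈ P, p.Prime ∧ p ≠ 2 ∧ p ∣ m) {p : ℕ} (hp : p ∈ P) :
    1 ≤ (p - 1) / 2 ∧ (p - 1) / 2 ≠ 4 ∧ (¬ 3 ∣ m → 2 ≤ (p - 1) / 2) := by
  have h1 : p % 2 = 1 := ((hP p hp).1.eq_two_or_odd).resolve_left (hP p hp).2.1
  have h2 := (hP p hp).1.two_le
  refine ⟨by omega, ?_, ?_⟩
  · intro h
    have h3 : p = 9 := by omega
    have := (hP p hp).1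
    rw [h3] at this
    exact absurd this (by norm_num)
  · intro h3
    by_contra h4
    have h5 : p = 3 := by omega
    exact h3 (h5 ▸ (hP p hp).2.2)

/-- the numerical condition follows from a condition on the pairs -/
theorem lenCond_of (h1 : r < 30 ∨ (¬ 3 ∣ m ∧ r < 180))
    (h2 : ∀ q a, BadPair q a → q ∣ m → a ∣ m → 2 * r < q - 1 ∨ 2 * r < a - 1 ∨
      16 * r < (q - 1) * (a - 1) ∨ (¬ 3 ∣ m ∧ 4 * r < (q - 1) * (a - 1))) : LenCond m r := by
  classical
  intro P hP
  have hinj := half_inj hP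
  refine ⟨fun h4 => ?_, ?_⟩
  · rcases h1 with h1 | ⟨h3, h1⟩
    · have h5 := Cok.prod_ge4 0 (by norm_num) (fun p : ℕ => (p - 1) / 2) P
        (fun p hp => (half_pos' hP hp).1) hinj (fun p hp => (half_pos' hP hp).2.1) (by omega)
      have h8 : 0 + P.card + 1 = (P.card - 1) + 1 + 1 := by omega
      rw [h8, Nat.factorial_succ, Nat.factorial_succ] at h5
      simp only [Nat.factorial_zero, mul_one] at h5
      have hA := Nat.factorial_pos (P.card - 1)
      set A := (P.card - 1).factorial
      have h9 : 5 * (4 * A) ≤ 4 * ∏ p ∈ P, (p - 1) / 2 := by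
        refine le_trans ?_ h5
        refine Nat.mul_le_mul (by omega) (Nat.mul_le_mul_right _ (by omega))
      have h10 : r * A < 30 * A := Nat.mul_lt_mul_of_pos_right h1 hA
      omega
    · have h5 := Cok.prod_ge4 1 (by norm_num) (fun p : ℕ => (p - 1) / 2) P
        (fun p hp => (half_pos' hP hp).2.2 h3) hinj (fun p hp => (half_pos' hP hp).2.1) (by omega)
      have h8 : 1 + P.card + 1 = (P.card - 1) + 1 + 1 + 1 := by omega
      rw [h8, Nat.factorial_succ, Nat.factorial_succ, Nat.factorial_succ] at h5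
      simp only [Nat.factorial_one, mul_one] at h5
      have hA := Nat.factorial_pos (P.card - 1)
      set A := (P.card - 1).factorial
      have h9 : 6 * (5 * (4 * A)) ≤ 4 * ∏ p ∈ P, (p - 1) / 2 := by
        refine le_trans ?_ h5
        refine Nat.mul_le_mul (by omega) (Nat.mul_le_mul (by omega)
          (Nat.mul_le_mul_right _ (by omega)))
      have h10 : r * A < 180 * A := Nat.mul_lt_mul_of_pos_right h1 hA
      omega
  · rintro ⟨q, hq, a, ha, hb⟩
    have hqa : a ≠ q := by
      rintro rfl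
      exact hb.2.2.2.2.2.2.2 ⟨0, by rw [ZMod.natCast_self, mul_zero]⟩
    have hqo : q % 2 = 1 := ((hP q hq).1.eq_two_or_odd).resolve_left (hP q hq).2.1
    have hao : a % 2 = 1 := ((hP a ha).1.eq_two_or_odd).resolve_left (hP a ha).2.1
    have hT : ({q, a} : Finset ℕ) ⊆ P := by
      intro x hx
      rw [mem_insert, mem_singleton] at hx
      rcases hx with rfl | rfl
      · exact hq
      · exact ha
    have hT2 : ({q, a} : Finset ℕ).card = 2 := card_pair hqa.symm
    have hA := Nat.factorial_pos (P.card - 1)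
    have one : ∀ x ∈ P, r < (x - 1) / 2 → r * (P.card - 1).factorial < ∏ p ∈ P, (p - 1) / 2 := by
      intro x hx hr
      have h7 := Cok.fac_le (fun p : ℕ => (p - 1) / 2) (P.erase x)
        (fun i hi => (half_pos' hP (mem_of_mem_erase hi)).1)
        (hinj.mono (coe_subset.2 (erase_subset x P)))
      rw [card_erase_of_mem hx] at h7
      rw [← mul_prod_erase P (fun p : ℕ => (p - 1) / 2) hx]
      calc r * (P.card - 1).factorial < ((x - 1) / 2) * (P.card - 1).factorial :=
            Nat.mul_lt_mul_of_pos_right hr hA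
        _ ≤ _ := Nat.mul_le_mul_left _ h7
    have hc : (P \ {q, a}).card + 2 = P.card := by
      rw [card_sdiff_of_subset hT, hT2]
      have := card_le_card hT
      omega
    have hprod : ∏ p ∈ P, (p - 1) / 2 = ((q - 1) / 2 * ((a - 1) / 2)) *
        ∏ p ∈ P \ {q, a}, (p - 1) / 2 := by
      rw [← prod_sdiff hT, prod_pair hqa.symm]; ring
    have hsub : ∀ p ∈ P \ {q, a}, p ∈ P := fun p hp => (mem_sdiff.mp hp).1
    have hmul : (q - 1) * (a - 1) = 4 * ((q - 1) / 2 * ((a - 1) / 2)) := by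
      obtain ⟨x, hx⟩ : ∃ x, q = 2 * x + 1 := ⟨q / 2, by omega⟩
      obtain ⟨y, hy⟩ : ∃ y, a = 2 * y + 1 := ⟨a / 2, by omega⟩
      rw [hx, hy]
      have e1 : (2 * x + 1 - 1) / 2 = x := by omega
      have e2 : (2 * y + 1 - 1) / 2 = y := by omega
      rw [e1, e2]
      simp only [Nat.add_one_sub_one]
      ring
    rcases h2 q a hb (hP q hq).2.2 (hP a ha).2.2 with h | h | h | ⟨h3, h⟩
    · exact one q hq (by omega)
    · exact one a ha (by omega)
    · -- the factor 4
      have h7 : (P.card - 1).factorial ≤ 4 * ∏ p ∈ P \ {q, a}, (p - 1) / 2 := by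
        by_cases hc3 : 3 ≤ (P \ {q, a}).card
        · have h5 := Cok.prod_ge4 0 (by norm_num) (fun p : ℕ => (p - 1) / 2) (P \ {q, a})
            (fun p hp => (half_pos' hP (hsub p hp)).1)
            (hinj.mono (coe_subset.2 sdiff_subset))
            (fun p hp => (half_pos' hP (hsub p hp)).2.1) (by omega)
          have h8 : 0 + (P \ {q, a}).card + 1 = P.card - 1 := by omega
          rw [h8] at h5
          simpa only [Nat.factorial_zero, mul_one] using h5
        · have h5 := Cok.fac_le (fun p : ℕ => (p - 1) / 2) (P \ {q, a})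
            (fun p hp => (half_pos' hP (hsub p hp)).1)
            (hinj.mono (coe_subset.2 sdiff_subset))
          have h8 : P.card - 1 = (P \ {q, a}).card + 1 := by omega
          rw [h8, Nat.factorial_succ]
          calc ((P \ {q, a}).card + 1) * (P \ {q, a}).card.factorial
              ≤ 4 * (P \ {q, a}).card.factorial := Nat.mul_le_mul_right _ (by omega)
            _ ≤ _ := Nat.mul_le_mul_left _ h5
      rw [hprod]
      rw [hmul] at h
      have h9 : 4 * r < (q - 1) / 2 * ((a - 1) / 2) := by omega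
      have h10 : 0 < ∏ p ∈ P \ {q, a}, (p - 1) / 2 :=
        prod_pos fun p hp => (half_pos' hP (hsub p hp)).1
      calc r * (P.card - 1).factorial ≤ r * (4 * ∏ p ∈ P \ {q, a}, (p - 1) / 2) :=
            Nat.mul_le_mul_left _ h7
        _ = (4 * r) * ∏ p ∈ P \ {q, a}, (p - 1) / 2 := by ring
        _ < _ := Nat.mul_lt_mul_of_pos_right h9 h10
    · have h7 := Cok.fac_le' (fun p : ℕ => (p - 1) / 2) (P \ {q, a})
        (fun p hp => (half_pos' hP (hsub p hp)).2.2 h3)
        (hinj.mono (coe_subset.2 sdiff_subset))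
      have h8 : (P \ {q, a}).card + 1 = P.card - 1 := by omega
      rw [h8] at h7
      rw [hprod]
      rw [hmul] at h
      have h9 : r < (q - 1) / 2 * ((a - 1) / 2) := by omega
      calc r * (P.card - 1).factorial
          < ((q - 1) / 2 * ((a - 1) / 2)) * (P.card - 1).factorial :=
            Nat.mul_lt_mul_of_pos_right h9 hA
        _ ≤ _ := Nat.mul_le_mul_left _ h7

lemma badPair_29 {q a : ℕ} (h : BadPair q a) : 37 ≤ q ∨ (q = 29 ∧ (a = 3 ∨ 11 ≤ a)) := by
  obtain ⟨h1, h2, h3, h4, h5, h6, h7, h8⟩ := h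
  by_cases h9 : 37 ≤ q
  · exact Or.inl h9
  · right
    have h10 : q = 29 := by
      push Not at h9
      interval_cases q <;> first | rfl | omega | (exfalso; revert h1; norm_num)
    subst h10
    refine ⟨rfl, ?_⟩
    by_contra h11
    push Not at h11
    obtain ⟨h12, h13⟩ := h11
    have h14 : a = 5 ∨ a = 7 := by
      interval_cases a <;> first | omega | (exfalso; revert h6; norm_num; done)
    rcases h14 with rfl | rfl
    · exact h8 ⟨11, by decide⟩
    · exact h8 ⟨6, by decide⟩

/-- at most 13 entries -/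
theorem lenCond_13 (hr : r ≤ 13) : LenCond m r := by
  refine lenCond_of (Or.inl (by omega)) fun q a h _ _ => ?_
  rcases badPair_29 h with h1 | ⟨h1, _⟩
  · left; omega
  · left; omega

/-- at most 17 entries if 87 does not divide the degree -/
theorem lenCond_17 (h87 : ¬ 87 ∣ m) (hr : r ≤ 17) : LenCond m r := by
  refine lenCond_of (Or.inl (by omega)) fun q a h hq ha => ?_
  rcases badPair_29 h with h1 | ⟨rfl, h2 | h2⟩
  · left; omega
  · exfalso
    subst h2
    apply h87
    exact Nat.Coprime.mul_dvd_of_dvd_of_dvd (by norm_num : Nat.Coprime 3 29) ha hq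
  · right; right; left
    have : 10 ≤ a - 1 := by omega
    calc 16 * r < 28 * 10 := by omega
      _ ≤ _ := Nat.mul_le_mul (by norm_num) this

/-- at most 35 entries if 3 does not divide the degree -/
theorem lenCond_35 (h3 : ¬ 3 ∣ m) (hr : r ≤ 35) : LenCond m r := by
  refine lenCond_of (Or.inr ⟨h3, by omega⟩) fun q a h hq ha => ?_
  right; right; right
  refine ⟨h3, ?_⟩
  have ha5 : 5 ≤ a := by
    obtain ⟨_, _, _, _, _, h6, h7, _⟩ := h
    by_contra h8
    push Not at h8
    have : a ≠ 3 := by rintro rfl; exact h3 ha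
    interval_cases a <;> first | omega | (revert h6; norm_num; done)
  rcases badPair_29 h with h1 | ⟨rfl, h2 | h2⟩
  · calc 4 * r < 36 * 4 := by omega
      _ ≤ _ := Nat.mul_le_mul (by omega) (by omega)
  · omega
  · calc 4 * r < 28 * 10 := by omega
      _ ≤ _ := Nat.mul_le_mul (by omega) (by omega)

/-- If all odd prime factors of the degree are at least `ℓ` then `4 r + 1 < ℓ ^ 2` is enough. -/
theorem lenCond_least {ℓ : ℕ} (hℓ : ∀ p, p.Prime → p ≠ 2 → p ∣ m → ℓ ≤ p)
    (hr : 4 * r + 1 < ℓ ^ 2) : LenCond m r := by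
  classical
  have key : ∀ P : Finset ℕ, (∀ p ∈ P, p.Prime ∧ p ≠ 2 ∧ p ∣ m) → 2 ≤ P.card →
      r * (P.card - 1).factorial < ∏ p ∈ P, (p - 1) / 2 := by
    intro P hP h2
    obtain ⟨y, hy⟩ : ∃ y, ℓ = 2 * y ∨ ℓ = 2 * y + 1 := ⟨ℓ / 2, by omega⟩
    have hy2 : 2 * y ≤ ℓ ∧ ℓ ≤ 2 * y + 1 := by omega
    have hry : r < y * (y + 1) := by
      have h3 : ℓ ^ 2 ≤ (2 * y + 1) ^ 2 := Nat.pow_le_pow_left hy2.2 2
      have h4 : (2 * y + 1) ^ 2 = 4 * (y * (y + 1)) + 1 := by ring
      omega
    have hy1 : 1 ≤ y := by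
      by_contra h
      have : y = 0 := by omega
      rw [this] at hry
      omega
    have hg : ∀ p ∈ P, y - 1 + 1 ≤ (p - 1) / 2 := by
      intro p hp
      have h1 : p % 2 = 1 := ((hP p hp).1.eq_two_or_odd).resolve_left (hP p hp).2.1
      have h2 := hℓ p (hP p hp).1 (hP p hp).2.1 (hP p hp).2.2
      omega
    have h5 := Cok.prod_ge (y - 1) (fun p : ℕ => (p - 1) / 2) P hg (half_inj hP)
    obtain ⟨k, hk⟩ : ∃ k, P.card = k + 2 := ⟨P.card - 2, by omega⟩
    have h6 : y - 1 + 1 = y := by omega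
    rw [h6, hk] at h5
    have h7 : ∀ k, y * (y + 1) * (k + 1).factorial ≤ y.ascFactorial (k + 2) := by
      intro k
      induction k with
      | zero =>
        rw [zero_add, zero_add, Nat.factorial_one, mul_one, Nat.ascFactorial_succ,
          Nat.ascFactorial_succ, Nat.ascFactorial_zero]
        exact le_of_eq (by ring)
      | succ k ih =>
        rw [Nat.factorial_succ, show k + 1 + 2 = (k + 2) + 1 from rfl, Nat.ascFactorial_succ]
        calc y * (y + 1) * ((k + 1 + 1) * (k + 1).factorial)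
            = (k + 2) * (y * (y + 1) * (k + 1).factorial) := by ring
          _ ≤ (y + (k + 2)) * y.ascFactorial (k + 2) := Nat.mul_le_mul (by omega) ih
    have h8 : P.card - 1 = k + 1 := by omega
    rw [h8]
    calc r * (k + 1).factorial < y * (y + 1) * (k + 1).factorial :=
          Nat.mul_lt_mul_of_pos_right hry (Nat.factorial_pos _)
      _ ≤ _ := (h7 k).trans h5
  intro P hP
  refine ⟨fun h4 => ?_, ?_⟩
  · have := key P hP (by omega)
    omega
  · rintro ⟨q, hq, a, ha, hb⟩
    refine key P hP ?_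
    have hqa : a ≠ q := by
      rintro rfl
      exact hb.2.2.2.2.2.2.2 ⟨0, by rw [ZMod.natCast_self, mul_zero]⟩
    have h1 : ({q, a} : Finset ℕ) ⊆ P := by
      intro x hx
      rw [mem_insert, mem_singleton] at hx
      rcases hx with rfl | rfl
      · exact hq
      · exact ha
    have h2 := card_le_card h1
    rwa [card_pair hqa.symm] at h2

end numerical

end Pool.Agent.LB
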