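import Pool.Agent.LB.EvDefs
import Pool.Agent.LB.Ref

/-!
The numerical condition for the degrees divisible by 4.
-/

set_option linter.unusedSectionVars false

namespace Pool.Agent.LB

open Finset Pool.Agent.N993 Pool.Agent.H916R2 Pool.Agent.N992

/-- The numerical condition on the odd prime factors of an even degree `m`: for every set `P` of such
primes `r |P|!` is less than `6 ∏ (p - 1) / 2` if `P` has at least three elements, less than
`∏ (p - 1) / 2` if `P` contains a bad pair, and less than `min(2, |P|) ∏ (p - 1) / 2` if `P` contains a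
prime `q = 5` modulo 8 different from 5 and 13. -/
def LenCond4 (m r : ℕ) : Prop := ∀ P : Finset ℕ, (∀ p ∈ P, p.Prime ∧ p ≠ 2 ∧ p ∣ m) →
  (3 ≤ P.card → r * P.card.factorial < 6 * ∏ p ∈ P, (p - 1) / 2) ∧
  ((∃ q ∈ P, ∃ a ∈ P, BadPair q a) → r * P.card.factorial < ∏ p ∈ P, (p - 1) / 2) ∧
  ((∃ q ∈ P, q % 8 = 5 ∧ q ≠ 5 ∧ q ≠ 13) →
    r * P.card.factorial < min 2 P.card * ∏ p ∈ P, (p - 1) / 2)

/-- The exceptional pairs. -/
def Exc (T : Finset ℕ) : Prop :=
  (∃ q a, T = {q, a} ∧ BadPair q a) ∨ ∃ q, T = {4, q} ∧ q % 8 = 5 ∧ q ≠ 5 ∧ q ≠ 13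

lemma asc_mono {s t : ℕ} (h : s ≤ t) (k : ℕ) : s.ascFactorial k ≤ t.ascFactorial k := by
  induction k with
  | zero => simp
  | succ k ih =>
    rw [Nat.ascFactorial_succ, Nat.ascFactorial_succ]
    exact Nat.mul_le_mul (by omega) ih

lemma sz_le (T : Finset ℕ) : sz T ≤ T.card := card_erase_le

lemma hh_eq {m : ℕ} {P : Finset ℕ} (hP : ∀ p ∈ P, p.Prime ∧ p ≠ 2 ∧ p ∣ m) :
    hh P = ∏ p ∈ P, (p - 1) / 2 := by
  unfold hh
  refine prod_congr rfl fun p hp => ?_
  have h1 : p % 2 = 1 := ((hP p hp).1.eq_two_or_odd).resolve_left (hP p hp).2.1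
  omega

/-- the main estimate -/
theorem prb_lt4 {m r : ℕ} (h : LenCond4 m r) {T P : Finset ℕ}
    (hP : ∀ p ∈ P, p.Prime ∧ p ≠ 2 ∧ p ∣ m) (hbad : 4 ≤ T.card ∨ (T.card = 2 ∧ Exc T)) (j : ℕ) :
    r * prb T P j < 2 * hh P := by
  have h4P : 4 ∉ P := fun h4 => absurd (hP 4 h4).1 (by norm_num)
  obtain ⟨c1, c2, c3⟩ := h P hP
  rw [← hh_eq hP] at c1 c2 c3
  have hH : 0 < hh P := by
    rw [hh_eq hP]
    exact prod_pos fun p hp => (half_pos' hP hp).1
  set H := hh P with hHd
  have ht2 : 2 ≤ T.card := by rcases hbad with h1 | h1 <;> omega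
  have hsz := sz_le T
  by_cases hT4 : 4 ∈ T
  · have hTP : ¬ T ⊆ P := fun h1 => h4P (h1 hT4)
    have key : T.erase 4 ⊆ P → r * (sz T - 1).ascFactorial (P.card + 1 - T.card) < H ∧
        r * (sz T).ascFactorial (P.card + 1 - T.card) < 2 * H := by
      intro hS
      have hSc := card_le_card hS
      rw [card_erase_of_mem hT4] at hSc
      have e1 := asc_fac (t := T.card - 1) (p := P.card) (by omega) hSc
      have e2 : P.card - (T.card - 1) = P.card + 1 - T.card := by omega
      have e3 : T.card - 1 - 1 = T.card - 2 := by omega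
      rw [e2, e3] at e1
      have e4 := asc_fac (t := T.card) (p := P.card + 1) (by omega) (by omega)
      rw [Nat.add_sub_cancel] at e4
      have m1 := asc_mono (show sz T - 1 ≤ T.card - 1 by omega) (P.card + 1 - T.card)
      have m2 := asc_mono hsz (P.card + 1 - T.card)
      set G := (T.card - 1).ascFactorial (P.card + 1 - T.card) with hG
      set F := T.card.ascFactorial (P.card + 1 - T.card) with hF
      have e5 : P.card.factorial = P.card * (P.card - 1).factorial := by
        obtain ⟨n, hn⟩ : ∃ n, P.card = n + 1 := ⟨P.card - 1, by omega⟩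
        rw [hn, Nat.factorial_succ, Nat.add_sub_cancel]
      rcases hbad with h4 | ⟨h2, hE⟩
      · have h5 := c1 (by omega)
        constructor
        · refine lt_of_le_of_lt (Nat.mul_le_mul_left r m1) ?_
          have h6 : 2 ≤ (T.card - 2).factorial := by
            have : Nat.factorial 2 ≤ (T.card - 2).factorial := Nat.factorial_le (by omega)
            simpa [Nat.factorial] using this
          have h7 : 6 ≤ P.card * (T.card - 2).factorial := by
            calc 6 = 3 * 2 := rfl
              _ ≤ _ := Nat.mul_le_mul (by omega) h6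
          have h8 : 6 * (r * G) < 6 * H := by
            refine lt_of_le_of_lt ?_ h5
            rw [e5, ← e1]
            calc 6 * (r * G) ≤ (P.card * (T.card - 2).factorial) * (r * G) :=
                  Nat.mul_le_mul_right _ h7
              _ = _ := by ring
          omega
        · have h6 : 6 ≤ (T.card - 1).factorial := by
            have : Nat.factorial 3 ≤ (T.card - 1).factorial := Nat.factorial_le (by omega)
            simpa [Nat.factorial] using this
          have h8 : 6 * (r * F) < 6 * H := by
            refine lt_of_le_of_lt ?_ h5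
            rw [← e4]
            calc 6 * (r * F) ≤ (T.card - 1).factorial * (r * F) := Nat.mul_le_mul_right _ h6
              _ = _ := by ring
          have h9 := Nat.mul_le_mul_left r m2
          omega
      · have hq : ∃ q ∈ P, q % 8 = 5 ∧ q ≠ 5 ∧ q ≠ 13 := by
          rcases hE with ⟨q, a, rfl, hb⟩ | ⟨q, rfl, hq⟩
          · exfalso
            rw [mem_insert, mem_singleton] at hT4
            rcases hT4 with h4 | h4
            · rw [← h4] at hb
              exact absurd hb.1 (by norm_num)
            · rw [← h4] at hb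
              exact absurd hb.2.2.2.2.2.1 (by norm_num)
          · refine ⟨q, hS (mem_erase.mpr ⟨by rintro rfl; omega, ?_⟩), hq⟩
            exact mem_insert_of_mem (mem_singleton_self _)
        have h5 := c3 hq
        rw [h2] at e1 e4
        norm_num at e1 e4
        constructor
        · refine lt_of_le_of_lt (Nat.mul_le_mul_left r m1) ?_
          have h6 : P.card * (r * G) < P.card * H := by
            calc P.card * (r * G) = r * P.card.factorial := by rw [e5, e1]; ring
              _ < min 2 P.card * H := h5
              _ ≤ P.card * H := Nat.mul_le_mul_right _ (min_le_right _ _)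
          exact Nat.lt_of_mul_lt_mul_left h6
        · refine lt_of_le_of_lt (Nat.mul_le_mul_left r m2) ?_
          calc r * F = r * P.card.factorial := by rw [e4]
            _ < min 2 P.card * H := h5
            _ ≤ 2 * H := Nat.mul_le_mul_right _ (min_le_left _ _)
    unfold prb
    rw [if_neg hTP, if_pos hT4]
    split_ifs with a1 a2 a3 a4 a5
    · omega
    · omega
    · have h5 := (key a4).1
      have h6 : r * (2 * (sz T - 1).ascFactorial (P.card + 1 - T.card)) =
        2 * (r * (sz T - 1).ascFactorial (P.card + 1 - T.card)) := by ring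
      omega
    · omega
    · exact (key a5).2
    · omega
  · have hTe : T.erase 4 = T := erase_eq_of_notMem hT4
    unfold prb
    rw [if_neg hT4, hTe]
    by_cases hTP : T ⊆ P
    · have ht := card_le_card hTP
      have e4 := asc_fac (t := T.card) (p := P.card + 1) (by omega) (by omega)
      rw [Nat.add_sub_cancel] at e4
      have m2 := asc_mono hsz (P.card + 1 - T.card)
      have m3 := asc_mono hsz (P.card - T.card)
      have e6 : P.card + 1 - T.card = (P.card - T.card) + 1 := by omega
      have m4 : 2 * T.card.ascFactorial (P.card - T.card) ≤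
          T.card.ascFactorial (P.card + 1 - T.card) := by
        rw [e6, Nat.ascFactorial_succ]
        exact Nat.mul_le_mul_right _ (by omega)
      set F := T.card.ascFactorial (P.card + 1 - T.card) with hF
      have key : r * F < H := by
        rcases hbad with h4 | ⟨h2, hE⟩
        · have h5 := c1 (by omega)
          have h6 : 6 ≤ (T.card - 1).factorial := by
            have : Nat.factorial 3 ≤ (T.card - 1).factorial := Nat.factorial_le (by omega)
            simpa [Nat.factorial] using this
          have h8 : 6 * (r * F) < 6 * H := by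
            refine lt_of_le_of_lt ?_ h5
            rw [← e4]
            calc 6 * (r * F) ≤ (T.card - 1).factorial * (r * F) := Nat.mul_le_mul_right _ h6
              _ = _ := by ring
          omega
        · have hq : ∃ q ∈ P, ∃ a ∈ P, BadPair q a := by
            rcases hE with ⟨q, a, rfl, hb⟩ | ⟨q, rfl, hq⟩
            · exact ⟨q, hTP (mem_insert_self _ _), a,
                hTP (mem_insert_of_mem (mem_singleton_self _)), hb⟩
            · exact absurd (mem_insert_self _ _) hT4
          have h5 := c2 hq
          rw [h2] at e4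
          norm_num at e4
          rw [e4]
          exact h5
      have n2 := Nat.mul_le_mul_left r m2
      have n3 := Nat.mul_le_mul_left r m3
      have n4 := Nat.mul_le_mul_left r m4
      have n5 : r * (2 * T.card.ascFactorial (P.card - T.card)) =
        2 * (r * T.card.ascFactorial (P.card - T.card)) := by ring
      have n6 : r * (2 * (sz T).ascFactorial (P.card - T.card)) =
        2 * (r * (sz T).ascFactorial (P.card - T.card)) := by ring
      have n7 : r * (4 * (sz T).ascFactorial (P.card - T.card)) =
        4 * (r * (sz T).ascFactorial (P.card - T.card)) := by ring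
      have n8 : r * (2 * (sz T).ascFactorial (P.card + 1 - T.card)) =
        2 * (r * (sz T).ascFactorial (P.card + 1 - T.card)) := by ring
      rw [if_pos hTP, if_pos hTP, if_pos hTP, if_pos hTP]
      split_ifs
      · omega
      · omega
      · omega
      · omega
    · rw [if_neg hTP, if_neg hTP, if_neg hTP, if_neg hTP]
      split_ifs <;> omega

/-- A pair which is not good is exceptional. -/
lemma exc_of_not_good {T : Finset ℕ} (hT : ∀ x ∈ T, (x.Prime ∧ x % 2 = 1) ∨ x = 4)
    (h2 : T.card = 2) (hbad : ¬ Good T) : Exc T := by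
  have key : ∀ x y : ℕ, x ≠ y → (x.Prime ∧ x % 2 = 1) → ((y.Prime ∧ y % 2 = 1) ∨ y = 4) →
      ¬ Good {x, y} → Exc {x, y} := by
    intro x y hxy hx hy hb
    rcases hy with hy | hy
    · obtain ⟨q, a, hqa, hq4, hq5, hns⟩ := bad_pair hxy hx hy hb
      push Not at hq5
      left
      rcases hqa with ⟨rfl, rfl⟩ | ⟨rfl, rfl⟩
      · exact ⟨q, a, rfl, hx.1, hq4, hq5.1, hq5.2.1, hq5.2.2, hy.1, by omega, hns⟩
      · exact ⟨q, a, pair_comm _ _, hy.1, hq4, hq5.1, hq5.2.1, hq5.2.2, hx.1, by omega, hns⟩
    · subst hy
      right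
      refine ⟨x, pair_comm _ _, ?_⟩
      by_contra hcon
      apply hb
      refine good_pair hxy ⟨?_, ?_⟩
      · intro z hz
        rw [mem_insert, mem_singleton] at hz
        rcases hz with rfl | rfl
        · exact Or.inl hx
        · exact Or.inr rfl
      · intro p hp hp4
        rw [mem_insert, mem_singleton] at hp
        have hpx : p = x := by
          rcases hp with h | h
          · exact h
          · omega
        subst hpx
        by_cases h1 : p = 5 ∨ p = 13 ∨ p = 17
        · exact Or.inr h1
        · left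
          push Not at h1
          have h3 : p % 8 = 1 := by
            by_contra h3
            exact hcon ⟨by omega, h1.1, h1.2.1⟩
          have hf : Fact p.Prime := ⟨hx.1⟩
          have h4 : IsSquare (2 : ZMod p) :=
            (ZMod.exists_sq_eq_two_iff (by omega)).mpr (Or.inl h3)
          refine ⟨?_, ?_⟩
          · intro j hj hjp
            rw [mem_insert, mem_singleton] at hj
            rcases hj with h | h
            · exact absurd h hjp
            · rw [h]
              exact ⟨2, by norm_num⟩
          · intro _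
            exact_mod_cast h4
  obtain ⟨x, y, hxy, rfl⟩ := card_eq_two.mp h2
  have hx := hT x (mem_insert_self _ _)
  have hy := hT y (mem_insert_of_mem (mem_singleton_self _))
  rcases hx with hx | hx
  · exact key x y hxy hx hy hbad
  · rcases hy with hy | hy
    · rw [pair_comm] at hbad ⊢
      exact key y x hxy.symm hy (Or.inr hx) hbad
    · exact absurd (hx.trans hy.symm) hxy

section numerical

variable {m r : ℕ}

/-- large primes -/
theorem lenCond4_large (h : ∀ p, p.Prime → p ≠ 2 → p ∣ m → 2 * r + 1 < p) : LenCond4 m r := by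
  classical
  have key : ∀ P : Finset ℕ, (∀ p ∈ P, p.Prime ∧ p ≠ 2 ∧ p ∣ m) → 1 ≤ P.card →
      r * P.card.factorial < ∏ p ∈ P, (p - 1) / 2 := by
    intro P hP h1
    have h5 := Cok.prod_ge r (fun p : ℕ => (p - 1) / 2) P (by
      intro p hp
      have h2 : p % 2 = 1 := ((hP p hp).1.eq_two_or_odd).resolve_left (hP p hp).2.1
      have h3 := h p (hP p hp).1 (hP p hp).2.1 (hP p hp).2.2
      omega) (half_inj hP)
    refine lt_of_lt_of_le ?_ h5
    obtain ⟨k, hk⟩ : ∃ k, P.card = k + 1 := ⟨P.card - 1, by omega⟩
    rw [hk]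
    clear h5 hk h1
    induction k with
    | zero =>
      rw [zero_add, Nat.factorial_one, Nat.ascFactorial_succ, Nat.ascFactorial_zero]
      omega
    | succ k ih =>
      rw [Nat.factorial_succ, Nat.ascFactorial_succ]
      calc r * ((k + 1 + 1) * (k + 1).factorial) = (k + 1 + 1) * (r * (k + 1).factorial) := by ring
        _ < (k + 1 + 1) * (r + 1).ascFactorial (k + 1) := Nat.mul_lt_mul_of_pos_left ih (by omega)
        _ ≤ _ := Nat.mul_le_mul_right _ (by omega)
  intro P hP
  refine ⟨fun h3 => ?_, ?_, ?_⟩
  · have := key P hP (by omega)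
    omega
  · rintro ⟨q, hq, _⟩
    exact key P hP (card_pos.mpr ⟨q, hq⟩)
  · rintro ⟨q, hq, _⟩
    have h1 : 1 ≤ P.card := card_pos.mpr ⟨q, hq⟩
    refine lt_of_lt_of_le (key P hP h1) ?_
    exact Nat.le_mul_of_pos_left _ (by omega)

/-- at most 13 entries if 3 does not divide the degree -/
theorem lenCond4_13 (h3 : ¬ 3 ∣ m) (hr : r ≤ 13) : LenCond4 m r := by
  classical
  have key : ∀ P : Finset ℕ, (∀ p ∈ P, p.Prime ∧ p ≠ 2 ∧ p ∣ m) → ∀ q ∈ P, 29 ≤ q →
      r * P.card.factorial < ∏ p ∈ P, (p - 1) / 2 := by
    intro P hP q hq h29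
    have h7 := Cok.fac_le' (fun p : ℕ => (p - 1) / 2) (P.erase q)
      (fun i hi => (half_pos' hP (mem_of_mem_erase hi)).2.2 h3)
      ((half_inj hP).mono (coe_subset.2 (erase_subset q P)))
    have h8 : 1 ≤ P.card := card_pos.mpr ⟨q, hq⟩
    rw [card_erase_of_mem hq, Nat.sub_add_cancel h8] at h7
    rw [← mul_prod_erase P (fun p : ℕ => (p - 1) / 2) hq]
    calc r * P.card.factorial < ((q - 1) / 2) * P.card.factorial :=
          Nat.mul_lt_mul_of_pos_right (by omega) (Nat.factorial_pos _)
      _ ≤ _ := Nat.mul_le_mul_left _ h7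
  intro P hP
  refine ⟨fun hc => ?_, ?_, ?_⟩
  · have h5 := Cok.prod_ge4 1 (by norm_num) (fun p : ℕ => (p - 1) / 2) P
      (fun p hp => (half_pos' hP hp).2.2 h3) (half_inj hP) (fun p hp => (half_pos' hP hp).2.1)
      (by omega)
    have h8 : 1 + P.card + 1 = (P.card + 1) + 1 := by omega
    rw [h8, Nat.factorial_succ, Nat.factorial_succ] at h5
    simp only [Nat.factorial_one, mul_one] at h5
    have hA := Nat.factorial_pos P.card
    set A := P.card.factorial
    have h9 : 5 * (4 * A) ≤ 4 * ∏ p ∈ P, (p - 1) / 2 := by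
      refine le_trans ?_ h5
      refine Nat.mul_le_mul (by omega) (Nat.mul_le_mul_right _ (by omega))
    have h10 : r * A ≤ 13 * A := Nat.mul_le_mul_right _ hr
    omega
  · rintro ⟨q, hq, a, _, hb⟩
    refine key P hP q hq ?_
    rcases badPair_29 hb with h | ⟨h, _⟩ <;> omega
  · rintro ⟨q, hq, hq8, hq5, hq13⟩
    have h1 : 29 ≤ q := by
      by_contra h2
      push Not at h2
      have h4 := (hP q hq).1
      have h6 : q = 21 := by omega
      rw [h6] at h4
      exact absurd h4 (by norm_num)
    have h2 : 1 ≤ P.card := card_pos.mpr ⟨q, hq⟩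
    refine lt_of_lt_of_le (key P hP q hq h1) ?_
    exact Nat.le_mul_of_pos_left _ (by omega)

lemma LenCond4.mono {r' : ℕ} (h : LenCond4 m r) (hr : r' ≤ r) : LenCond4 m r' := fun P hP =>
  ⟨fun h4 => lt_of_le_of_lt (Nat.mul_le_mul_right _ hr) ((h P hP).1 h4),
    fun hb => lt_of_le_of_lt (Nat.mul_le_mul_right _ hr) ((h P hP).2.1 hb),
    fun hb => lt_of_le_of_lt (Nat.mul_le_mul_right _ hr) ((h P hP).2.2 hb)⟩

end numerical

end Pool.Agent.LB
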