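import Pool.Agent.LB.Ref
import Pool.Agent.N992.Four

/-!
The covered pairs of a degree and a dimension.
-/

namespace Pool.Agent.LB

open Finset Pool.Agent.N993 Pool.Agent.H916R2 Pool.Agent.N992

theorem lenCond_sq {m r : ℕ} (h : ∀ p : ℕ, p.Prime → p ≠ 2 → p ∣ m → 4 * r + 1 < p ^ 2) :
    LenCond m r := by
  refine lenCond_least (ℓ := Nat.sqrt (4 * r + 1) + 1) ?_ ?_
  · intro p hp hp2 hpm
    have h1 := h p hp hp2 hpm
    have h2 : Nat.sqrt (4 * r + 1) < p := by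
      rw [Nat.sqrt_lt']
      exact h1
    omega
  · have := Nat.lt_succ_sqrt' (4 * r + 1)
    exact this

lemma LenCond.mono {m r r' : ℕ} (h : LenCond m r) (hr : r' ≤ r) : LenCond m r' := fun P hP =>
  ⟨fun h4 => lt_of_le_of_lt (Nat.mul_le_mul_right _ hr) ((h P hP).1 h4),
    fun hb => lt_of_le_of_lt (Nat.mul_le_mul_right _ hr) ((h P hP).2 hb)⟩

theorem Covered.lenCond {m n : ℕ} (h : Covered m n) : n ≤ 5 ∨
    (m % 2 = 1 ∧ LenCond m (2 * ((n + 2) / 2))) ∨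
    (m % 4 = 2 ∧ LenCond m (2 * (2 * ((n + 2) / 2)))) := by
  rcases h with h | ⟨hm, h | ⟨h, h'⟩ | ⟨h, h'⟩ | h | h⟩ | ⟨hm, ⟨h, h'⟩ | ⟨h, h'⟩ | h | h⟩
  · exact Or.inl h
  · exact Or.inr (Or.inl ⟨hm, lenCond_13 (by omega)⟩)
  · exact Or.inr (Or.inl ⟨hm, lenCond_17 h' (by omega)⟩)
  · exact Or.inr (Or.inl ⟨hm, lenCond_35 h' (by omega)⟩)
  · exact Or.inr (Or.inl ⟨hm, lenCond_sq fun p hp _ hpm => by have := h p hp hpm; omega⟩)
  · exact Or.inr (Or.inl ⟨hm, h.mono (by omega)⟩)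
  · exact Or.inr (Or.inr ⟨hm, lenCond_17 h' (by omega)⟩)
  · exact Or.inr (Or.inr ⟨hm, lenCond_35 h' (by omega)⟩)
  · exact Or.inr (Or.inr ⟨hm, lenCond_sq fun p hp hp2 hpm => by have := h p hp hp2 hpm; omega⟩)
  · exact Or.inr (Or.inr ⟨hm, h.mono (by omega)⟩)

/-- The theorem for the covered pairs. -/
theorem lengthBound3 (m n : ℕ) [NeZero m] (h : Covered m n) :
    ∃ l : ℕ, ∃ _ : NeZero (l * m), ∀ s : Multiset (ZMod m), IsHodge m s → s ≠ 0 →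
      Multiset.card s ≤ n + 2 →
      Generated (l * m) (FourBase (l * m)) (s.map fun a => ((l * a.val : ℕ) : ZMod (l * m))) := by
  rcases h.lenCond with h | h
  · haveI : NeZero (6 * m) := ⟨mul_ne_zero (by norm_num) (NeZero.ne m)⟩
    refine ⟨6, inferInstance, fun s hs hne hc => ?_⟩
    refine main_fourfold m s hs ?_ hne
    obtain ⟨c, hc'⟩ := hs.2.1
    omega
  · obtain ⟨l, hl, hgen⟩ := lengthBound2 m (2 * ((n + 2) / 2)) h
    refine ⟨l, hl, fun s hs hne hc => hgen s hs hne ?_⟩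
    obtain ⟨c, hc'⟩ := hs.2.1
    omega

end Pool.Agent.LB
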