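import Pool.Agent.LB.Ev4

/-!
The covered pairs of a degree and a dimension, all degrees.
-/

namespace Pool.Agent.LB

open Finset Pool.Agent.N993 Pool.Agent.H916R2 Pool.Agent.N992

/-- The covered pairs of a degree `m` and a dimension `n`: `n ≤ 7`, every degree; or `n ≤ 11` and the
degree is odd or not divisible by 3; or all odd prime factors of `m` exceed `2 n + 5`; or `m` is odd and
the square of every prime factor exceeds `4 n + 9`; or one of the numerical conditions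
`LenCond4 m (n + 2)`, `LenCond m (n + 2)` (odd `m`), `LenCond m (2 n + 4)` (`m` twice an odd number). -/
def Covered8 (m n : ℕ) : Prop :=
  n ≤ 7 ∨ (n ≤ 11 ∧ (m % 2 = 1 ∨ ¬ 3 ∣ m)) ∨
  (∀ p : ℕ, p.Prime → p ≠ 2 → p ∣ m → 2 * n + 5 < p) ∨
  (m % 2 = 1 ∧ ∀ p : ℕ, p.Prime → p ∣ m → 4 * n + 9 < p ^ 2) ∨
  LenCond4 m (n + 2) ∨ (m % 2 = 1 ∧ LenCond m (n + 2)) ∨ (m % 4 = 2 ∧ LenCond m (2 * n + 4))

/-- The theorem for the covered pairs. -/
theorem lengthBound9 (m n : ℕ) [NeZero m] (h : Covered8 m n) :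
    ∃ l : ℕ, ∃ _ : NeZero (l * m), ∀ s : Multiset (ZMod m), IsHodge m s → s ≠ 0 →
      Multiset.card s ≤ n + 2 →
      Generated (l * m) (FourBase (l * m)) (s.map fun a => ((l * a.val : ℕ) : ZMod (l * m))) := by
  apply lengthBound8 m n
  rcases h with h | ⟨h, h1 | h1⟩ | h | ⟨h1, h⟩ | h | ⟨h1, h⟩ | ⟨h1, h⟩
  · exact Or.inl h
  · exact Or.inr (Or.inl (Or.inr (Or.inl ⟨h1, Or.inl h⟩)))
  · exact Or.inr (Or.inr (Or.inl ⟨h, h1⟩))
  · exact Or.inr (Or.inr (Or.inr (Or.inl h)))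
  · exact Or.inr (Or.inl (Or.inr (Or.inl ⟨h1, Or.inr (Or.inr (Or.inr (Or.inl h)))⟩)))
  · exact Or.inr (Or.inr (Or.inr (Or.inr h)))
  · exact Or.inr (Or.inl (Or.inr (Or.inl ⟨h1, Or.inr (Or.inr (Or.inr (Or.inr h)))⟩)))
  · exact Or.inr (Or.inl (Or.inr (Or.inr ⟨h1, Or.inr (Or.inr (Or.inr h))⟩)))

/-- The degrees which are twice an odd number not divisible by 3, dimension at most 15. -/
theorem covered_two {m n : ℕ} (hm : m % 4 = 2) (h3 : ¬ 3 ∣ m) (hn : n ≤ 15) : Covered8 m n :=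
  Or.inr (Or.inr (Or.inr (Or.inr (Or.inr (Or.inr ⟨hm, lenCond_35 h3 (by omega)⟩)))))

/-- The degrees prime to 6, dimension at most 33. -/
theorem covered_six {m n : ℕ} (hm : m % 2 = 1) (h3 : ¬ 3 ∣ m) (hn : n ≤ 33) : Covered8 m n :=
  Or.inr (Or.inr (Or.inr (Or.inr (Or.inr (Or.inl ⟨hm, lenCond_35 h3 (by omega)⟩)))))

/-- The odd degrees not divisible by 87, dimension at most 15. -/
theorem covered_odd {m n : ℕ} (hm : m % 2 = 1) (h87 : ¬ 87 ∣ m) (hn : n ≤ 15) : Covered8 m n :=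
  Or.inr (Or.inr (Or.inr (Or.inr (Or.inr (Or.inl ⟨hm, lenCond_17 h87 (by omega)⟩)))))

end Pool.Agent.LB
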