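import Pool.Agent.LB.Defs
import Pool.Agent.N993.CoreG

/-!
The cyclotomic part: relations killed by distributions with values in the circle, and distributions
modulo 2 on `ZMod N`.
-/

set_option linter.unusedSectionVars false

namespace Pool.Agent.LB

open Finset Pool.Agent.N993 Pool.Agent.H916R2 Pool.Agent.N992

variable {ι : Type} [Fintype ι] [LinearOrder ι] {n : ι → ℕ} [∀ i, NeZero (n i)] {N : ℕ} [NeZero N]

/-- the projection of the rational numbers to the circle -/
noncomputable def prj : ℚ →+ AddCircle (1 : ℚ) := QuotientAddGroup.mk' (AddSubgroup.zmultiples (1 : ℚ))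

lemma prj_apply (q : ℚ) : prj q = (q : AddCircle (1 : ℚ)) := rfl

/-- A distribution which lifts to the rational numbers kills all relations. -/
theorem kills_of_zr (hn : Adm' n) (hco : Pairwise (fun i j => (n i).Coprime (n j)))
    (hN : ∏ i, n i = N) (E : (∀ i, ZMod (n i)) ≃+* ZMod N) {c : ZMod N → AddCircle (1 : ℚ)}
    (hc : OddDist c) (hz : Zr (cyc n) univ (fun x => c (E (emb x)))) (x : ZMod N → ℤ)
    (hx : Rel x) : ∑ b, x b • c b = 0 := by
  classical
  have hsupp : ∀ x : (cyc n).Pt, (cyc n).Supp univ x := fun x i hi => absurd (mem_univ i) hi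
  obtain ⟨h, hD, ho, hl⟩ := hz
  have hdist := oddDist_ext hn hco univ hN 1 (fun i hi => absurd (mem_univ i) hi)
    (fun i _ => Nat.coprime_one_left _) hD ho
  have hrat := Pool.Agent.N998.rat_zero _ hdist x hx
  set a : ZMod N → ∀ i, ZMod (n i) := fun b i => ((1 * b.val : ℕ) : ZMod (n i)) with ha
  have hio : ∀ b : ZMod N, b = E (a b) := by
    intro b
    have h1 := E_natCast E (1 * b.val)
    have h2 : ((1 * b.val : ℕ) : ZMod N) = b := by rw [one_mul, ZMod.natCast_zmod_val]
    exact h2.symm.trans h1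
  have h1 : ∀ b : ZMod N, c b = prj (ext h (a b)) := by
    intro b
    conv_lhs => rw [hio b]
    refine (c_eq_ext hn hco hN E hc (a b)).trans ?_
    rw [← ext_map]
    congr 1
    funext y
    exact (hl y (hsupp y)).symm
  have h5 : ∀ b : ZMod N, x b • c b = prj ((x b : ℚ) * ext h (a b)) := by
    intro b
    rw [h1, ← map_zsmul, zsmul_eq_mul]
  simp only [h5]
  rw [← map_sum, hrat, map_zero]

/-- A distribution which kills the relations of a divisor of the level lifts there. -/
theorem zr_of_kills (hn : Adm' n) (hco : Pairwise (fun i j => (n i).Coprime (n j)))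
    (hN : ∏ i, n i = N) (E : (∀ i, ZMod (n i)) ≃+* ZMod N) {Q : Type} [AddCommGroup Q]
    {c : ZMod N → Q} (T : Finset ι)
    (hT : ∀ (mT l : ℕ) [NeZero mT], ∏ i ∈ T, n i = mT → l * mT = N →
      ∀ x : ZMod mT → ℤ, Rel x → ∑ b, x b • c (iota l b) = 0) (φ : Q →+ AddCircle (1 : ℚ)) :
    Zr (cyc n) T (fun x => φ (c (E (emb x)))) := by
  classical
  let D := cyc n
  let X := (∀ i, ZMod (n i))ˣ
  let σ : X → D.Pt → ℤ := fun t x => saw (E ((t : ∀ i, ZMod (n i)) * emb x))
  have hσD : ∀ t, D.IsD0 univ (σ t) := by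
    intro t
    have h1 := (isD0_of_oddDist hn hco hN E
      (saw_oddDist' (Units.mapEquiv E.toMulEquiv t))).1
    have h2 : (fun x : D.Pt => saw (((Units.mapEquiv E.toMulEquiv t : (ZMod N)ˣ) : ZMod N) *
        E (emb x))) = σ t := by
      funext x
      change saw (E t * E (emb x)) = saw (E (t * emb x))
      rw [map_mul]
    rw [h2] at h1
    exact h1
  have hσo : ∀ t x, σ t (D.act D.c x) = - σ t x := by
    intro t x
    have h1 := (isD0_of_oddDist hn hco hN E
      (saw_oddDist' (Units.mapEquiv E.toMulEquiv t))).2 x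
    have h2 : ∀ x : D.Pt, saw (((Units.mapEquiv E.toMulEquiv t : (ZMod N)ˣ) : ZMod N) *
        E (emb x)) = σ t x := by
      intro x
      change saw (E t * E (emb x)) = saw (E (t * emb x))
      rw [map_mul]
    rw [h2, h2] at h1
    exact h1
  have hmT0 : ∏ i ∈ T, n i ≠ 0 := prod_ne_zero_iff.mpr fun i _ => NeZero.ne (n i)
  have : NeZero (∏ i ∈ T, n i) := ⟨hmT0⟩
  have hlT : (∏ i ∈ univ \ T, n i) * (∏ i ∈ T, n i) = N := by
    rw [← hN]; exact prod_sdiff (subset_univ T)
  obtain ⟨w, hw⟩ := exists_weights_T hco hN E (c := c) T rfl hlT (hT _ _ rfl hlT) φ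
  set ht : D.Pt → ℚ := fun x => ∑ t : X, ((σ t x : ℤ) : ℚ) * w t with hht
  have hhtD : D.IsD0 univ ht := by
    apply Dat.IsD0.sum
    intro t _
    exact (hσD t).cast.map (AddMonoidHom.mulRight (w t))
  have hhto : ∀ x, ht (D.act D.c x) = - ht x := by
    intro x
    rw [hht]
    beta_reduce
    rw [← sum_neg_distrib]
    refine sum_congr rfl fun t _ => ?_
    rw [hσo]; push_cast; ring
  have hsupp : ∀ x : D.Pt, D.Supp univ x := fun x i hi => absurd (mem_univ i) hi
  refine ⟨ht, fun i _ x _ h0 => hhtD i (mem_univ i) x (hsupp x) h0, fun x _ => hhto x, ?_⟩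
  intro x hx
  exact (hw x hx).symm

set_option allowUnsafeReducibility true in
attribute [local semireducible] cyc

lemma pt_emb {x : (cyc n).Pt} (hn : Adm' n) : pt (emb x) = x := by
  funext i
  cases h : x i with
  | none => exact pt_of_not (by rw [emb_none h]; exact not_isUnit_zero hn)
  | some u => exact pt_of_eq (emb_some h)

/-- the point of an element of `ZMod N` -/
noncomputable def pnt (n : ι → ℕ) [∀ i, NeZero (n i)] {N : ℕ} (b : ZMod N) : (cyc n).Pt :=
  pt (phi n 1 b)

lemma phi_E (hN : ∏ i, n i = N) (E : (∀ i, ZMod (n i)) ≃+* ZMod N) (a : ∀ i, ZMod (n i)) :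
    phi n 1 (E a) = a := by
  have h1 := E_natCast E (E a).val
  rw [ZMod.natCast_zmod_val] at h1
  have h2 := E.injective h1
  funext i
  unfold phi
  rw [one_mul]
  exact (congrFun h2 i).symm

lemma pnt_E (hn : Adm' n) (hN : ∏ i, n i = N) (E : (∀ i, ZMod (n i)) ≃+* ZMod N)
    (x : (cyc n).Pt) : pnt n (E (emb x)) = x := by
  unfold pnt
  rw [phi_E hN, pt_emb hn]

/-- Distributions modulo 2 on the points give distributions on `ZMod N`. -/
theorem oddDist_pnt (hn : ∀ i, (n i).Prime ∧ n i % 2 = 1)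
    (hco : Pairwise (fun i j => (n i).Coprime (n j)))
    (hN : ∏ i, n i = N) {Q : Type} [AddCommGroup Q] {h : (cyc n).Pt → Q}
    (hD : (cyc n).IsD0 univ h) (hodd : ∀ x, h ((cyc n).act (cyc n).c x) = - h x)
    (h0 : h (fun _ => none) = 0) : OddDist (fun b : ZMod N => h (pnt n b)) := by
  have hn' : Adm' n := fun i => Or.inl (hn i)
  have hd : ∀ i, n i ∣ 1 * N := by
    intro i
    rw [one_mul, ← hN]
    exact dvd_prod_of_mem n (mem_univ i)
  have hext : ∀ a : ∀ i, ZMod (n i), ext h a = h (pt a) := by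
    intro a
    apply ext_of_not
    rintro ⟨k, hk, _⟩
    have := (hn k).2
    omega
  have hodd' : N % 2 = 1 := by
    rw [← Nat.odd_iff, ← hN]
    exact prod_induction _ Odd (fun a b => Odd.mul) odd_one fun i _ => Nat.odd_iff.mpr (hn i).2
  refine ⟨?_, ?_, ?_⟩
  · intro a
    unfold pnt
    rw [phi_neg hd, pt_neg, hodd]
  · intro a ha
    have ha0 : a = 0 := by
      have h1 : ((2 : ℕ) : ZMod N) * a = 0 := by push_cast; rw [two_mul]; exact ha
      have hu : IsUnit ((2 : ℕ) : ZMod N) := by
        rw [ZMod.isUnit_iff_coprime, Nat.coprime_two_left]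
        exact Nat.odd_iff.mpr hodd'
      exact (hu.mul_right_eq_zero).mp h1
    rw [ha0]
    unfold pnt
    rw [phi_zero]
    have : (pt (0 : ∀ i, ZMod (n i)) : (cyc n).Pt) = fun _ => none := by
      funext i
      exact pt_of_not (not_isUnit_zero hn')
    rw [this]; exact h0
  · intro p d hp hpd a
    have hterm : ∀ k : ℕ, phi n 1 (a + (k : ZMod N) * (d : ZMod N)) =
        phi n 1 a + fun i => ((1 * (k * d) : ℕ) : ZMod (n i)) := by
      intro k
      rw [phi_add hd]
      congr 1
      rw [← phi_natCast hd]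
      congr 1
      push_cast; rfl
    obtain ⟨i, hiS, hpi⟩ : ∃ i ∈ (univ : Finset ι), p ∣ n i := by
      rw [← (Nat.Prime.prime hp).dvd_finsetProd_iff, hN]
      exact ⟨d, hpd.symm⟩
    set M := ∏ j ∈ univ.erase i, n j with hM
    have hiM : n i * M = N := by rw [hM, Finset.mul_prod_erase univ n hiS, hN]
    have hcop : (n i).Coprime M :=
      Nat.Coprime.prod_right fun j hj => hco (Finset.ne_of_mem_erase hj).symm
    have hother : ∀ j, j ≠ i → n j ∣ M := fun j hj =>
      Finset.dvd_prod_of_mem n (Finset.mem_erase.mpr ⟨hj, mem_univ j⟩)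
    obtain rfl : p = n i := (Nat.prime_dvd_prime_iff_eq hp (hn i).1).mp hpi
    obtain rfl : d = M := Nat.eq_of_mul_eq_mul_left hp.pos (hpd.trans hiM.symm)
    have h1 := ext_prime hn' hco hD (mem_univ i) hp (hn i).2
      (a := phi n 1 a) (fun i hi => absurd (mem_univ i) hi)
    unfold pnt
    rw [phi_mul hd, ← hext, ← h1]
    have hfact : Fact (n i).Prime := ⟨hp⟩
    have hMu : IsUnit ((1 * M : ℕ) : ZMod (n i)) := by
      rw [ZMod.isUnit_iff_coprime, one_mul]
      exact hcop.symm
    have hterm2 : ∀ k : ℕ, (phi n 1 a + fun i => ((1 * (k * M) : ℕ) : ZMod (n i))) =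
        Function.update (phi n 1 a) i
          (phi n 1 a i + (k : ZMod (n i)) * ((1 * M : ℕ) : ZMod (n i))) := by
      intro k
      funext j
      by_cases hj : j = i
      · subst hj
        rw [Function.update_self, Pi.add_apply]
        push_cast; ring
      · rw [Function.update_of_ne hj, Pi.add_apply]
        have : ((1 * (k * M) : ℕ) : ZMod (n j)) = 0 := by
          rw [ZMod.natCast_eq_zero_iff, one_mul]
          exact (hother j hj).mul_left k
        rw [this, add_zero]
    simp only [hterm, hterm2, ← hext]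
    refine sum_bij (fun k _ => phi n 1 a i + (k : ZMod (n i)) * ((1 * M : ℕ) : ZMod (n i)))
      (fun _ _ => mem_univ _) ?_ ?_ (fun _ _ => rfl)
    · intro k hk k' hk' h
      have h3 : (k : ZMod (n i)) = (k' : ZMod (n i)) := hMu.mul_right_cancel (add_left_cancel h)
      rw [ZMod.natCast_eq_natCast_iff'] at h3
      rwa [Nat.mod_eq_of_lt (mem_range.mp hk), Nat.mod_eq_of_lt (mem_range.mp hk')] at h3
    · intro j _
      obtain ⟨u, hu⟩ := hMu
      refine ⟨((j - phi n 1 a i) * (u⁻¹ : (ZMod (n i))ˣ)).val, mem_range.mpr (ZMod.val_lt _), ?_⟩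
      rw [ZMod.natCast_zmod_val, ← hu, mul_assoc, Units.inv_mul, mul_one, add_sub_cancel]

end Pool.Agent.LB
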