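import Pool.Agent.LB.Defs
import Pool.Agent.N993.SmA

/-!
The decomposition of an odd distribution with values in the circle as a distribution which lifts to
the rational numbers and a sum of distributions modulo 2.
-/

set_option linter.unusedSectionVars false

namespace Pool.Agent.LB

open Finset Pool.Agent.N993

variable {ι : Type} [DecidableEq ι] [Fintype ι] {D : Dat ι}

/-- uniqueness of the class of the full set -/
def UniqStmt (D : Dat ι) : Prop := ∀ (S : Finset ι) (θ : ℤ) (_ : θ = (-1) ^ S.card)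
    (f1 f2 : D.Pt → ℤ) (_ : D.IsD S f1) (_ : D.Ty θ S f1) (_ : D.IsD S f2) (_ : D.Ty θ S f2)
    (_ : ∀ T ⊂ S, θ = (-1) ^ T.card → D.Img θ T f1) (_ : ∀ T ⊂ S, θ = (-1) ^ T.card → D.Img θ T f2)
    (_ : ¬ D.Img θ S f1) (_ : ¬ D.Img θ S f2), D.Img θ S (f1 - f2)

/-- the tensor system is no image -/
def TenStmt (D : Dat ι) : Prop := ∀ (S : Finset ι) (b : D.GG),
    D.IsD S (ten D S b) ∧ D.Ty ((-1) ^ S.card) S (ten D S b) ∧
    ¬ D.Img ((-1) ^ S.card) S (ten D S b)

/-- odd distributions with values in the circle -/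
def OddD (D : Dat ι) (f : D.Pt → AddCircle (1 : ℚ)) : Prop :=
  D.IsD0 univ f ∧ ∀ x, f (D.act D.c x) = - f x

lemma OddD.sub {f g : D.Pt → AddCircle (1 : ℚ)} (hf : OddD D f) (hg : OddD D g) :
    OddD D (fun x => f x - g x) :=
  ⟨hf.1.sub hg.1, fun x => by beta_reduce; rw [hf.2, hg.2]; abel⟩

lemma OddD.sum {κ : Type} {s : Finset κ} {f : κ → D.Pt → AddCircle (1 : ℚ)}
    (hf : ∀ k ∈ s, OddD D (f k)) : OddD D (fun x => ∑ k ∈ s, f k x) :=
  ⟨Dat.IsD0.sum s f fun k hk => (hf k hk).1, fun x => by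
    rw [← sum_neg_distrib]; exact sum_congr rfl fun k hk => (hf k hk).2 x⟩

/-- the rational lift and the integral distribution -/
structure Nu (D : Dat ι) (f : D.Pt → AddCircle (1 : ℚ)) (ft : D.Pt → ℚ) (ν : D.Pt → ℤ) : Prop where
  isD : D.IsD0 univ ft
  lift : ∀ x, ((ft x : ℚ) : AddCircle (1 : ℚ)) = f x
  sum : ∀ x, ft x + ft (D.act D.c x) = ν x

lemma supp_univ (x : D.Pt) : D.Supp univ x := fun i hi => absurd (mem_univ i) hi

lemma circ_zero {q : ℚ} (h : ((q : ℚ) : AddCircle (1 : ℚ)) = 0) : ∃ k : ℤ, q = k := by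
  rw [AddCircle.coe_eq_zero_iff] at h
  obtain ⟨k, hk⟩ := h
  exact ⟨k, by rw [← hk]; simp⟩

lemma circ_int (k : ℤ) : (((k : ℤ) : ℚ) : AddCircle (1 : ℚ)) = 0 := by
  rw [AddCircle.coe_eq_zero_iff]
  exact ⟨k, by simp⟩

lemma exists_nu {f : D.Pt → AddCircle (1 : ℚ)} (hf : OddD D f) :
    ∃ (ft : D.Pt → ℚ) (ν : D.Pt → ℤ), Nu D f ft ν := by
  let π : ℚ →+ AddCircle (1 : ℚ) := QuotientAddGroup.mk' (AddSubgroup.zmultiples (1 : ℚ))
  have hπ : ∀ q : ℚ, π q = (q : AddCircle (1 : ℚ)) := fun q => rfl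
  obtain ⟨ft, hft, hft'⟩ : ∃ g : D.Pt → ℚ, D.IsD0 univ g ∧ ∀ x, π (g x) = f x := by
    let _ := D.trivAct ℚ
    let _ := D.trivAct (AddCircle (1 : ℚ))
    obtain ⟨g, hg, hg'⟩ := Dat.exists_lift (D := D) univ π (fun _ _ => rfl)
      (QuotientAddGroup.mk'_surjective _) (f := f) hf.1
    exact ⟨g, hg, fun x => hg' x (supp_univ x)⟩
  have hν0 : ∀ x, ∃ k : ℤ, ft x + ft (D.act D.c x) = k := by
    intro x
    apply circ_zero
    rw [← hπ, map_add, hft', hft', hf.2, add_neg_cancel]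
  choose ν hν using hν0
  exact ⟨ft, ν, hft, hft', hν⟩

lemma Nu.isD' {f : D.Pt → AddCircle (1 : ℚ)} {ft : D.Pt → ℚ} {ν : D.Pt → ℤ} (h : Nu D f ft ν) :
    D.IsD univ ν := by
  have h0 : D.IsD0 univ ν := by
    apply Dat.IsD0.of_cast
    have h1 : D.IsD0 univ (fun x => ft x + ft (D.act D.c x)) := h.isD.add (h.isD.act D.c)
    have h2 : (fun x => ft x + ft (D.act D.c x)) = fun x => (ν x : ℚ) := funext h.sum
    rwa [h2] at h1
  exact h0

lemma Nu.ty {f : D.Pt → AddCircle (1 : ℚ)} {ft : D.Pt → ℚ} {ν : D.Pt → ℤ} (h : Nu D f ft ν) :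
    D.Ty 1 univ ν := by
  intro x _
  change ν (D.act D.c x) = 1 * ν x
  have h1 := h.sum x
  have h2 := h.sum (D.act D.c x)
  rw [Dat.act_c_c] at h2
  have : ((ν (D.act D.c x) : ℤ) : ℚ) = ν x := by rw [← h1, ← h2]; ring
  rw [one_mul]
  exact_mod_cast this

lemma Nu.sub {f g : D.Pt → AddCircle (1 : ℚ)} {ft gt : D.Pt → ℚ} {ν μ : D.Pt → ℤ}
    (h : Nu D f ft ν) (k : Nu D g gt μ) :
    Nu D (fun x => f x - g x) (fun x => ft x - gt x) (ν - μ) where
  isD := h.isD.sub k.isD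
  lift := fun x => by rw [← h.lift, ← k.lift, AddCircle.coe_sub]
  sum := fun x => by
    rw [Pi.sub_apply]
    push_cast
    rw [← h.sum, ← k.sum]; ring

lemma Nu.zr_iff {f : D.Pt → AddCircle (1 : ℚ)} {ft : D.Pt → ℚ} {ν : D.Pt → ℤ} (h : Nu D f ft ν)
    (T : Finset ι) : Zr D T f ↔ D.Img 1 T ν := by
  have hft : D.IsD0 T ft := fun i _ x _ h0 => h.isD i (mem_univ i) x (supp_univ x) h0
  constructor
  · rintro ⟨g, hg, hgo, hgl⟩
    have hk0 : ∀ x, ∃ k : ℤ, D.Supp T x → ft x - g x = k := by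
      intro x
      by_cases hx : D.Supp T x
      · have h1 : ((ft x - g x : ℚ) : AddCircle (1 : ℚ)) = 0 := by
          rw [AddCircle.coe_sub, h.lift, hgl x hx, sub_self]
        obtain ⟨k, hk⟩ := circ_zero h1
        exact ⟨k, fun _ => hk⟩
      · exact ⟨0, fun h => absurd h hx⟩
    choose k hkk using hk0
    refine ⟨k, ?_, ?_⟩
    · change D.IsD0 T k
      apply Dat.IsD0.of_cast
      intro i hi x hx h0
      have h1 := (hft.sub hg) i hi x hx h0
      beta_reduce at h1 ⊢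
      rw [← hkk _ (hx.act _), ← hkk _ (hx.act _), ← h1]
      exact sum_congr rfl fun u _ => (hkk _ (hx.update hi _)).symm
    · intro x hx
      change ν x = k x + 1 * k (D.act D.c x)
      have h1 := hkk x hx
      have h2 := hkk _ (hx.act D.c)
      have h3 := h.sum x
      rw [hgo x hx] at h2
      have h4 : ((ν x : ℤ) : ℚ) = k x + 1 * k (D.act D.c x) := by
        rw [← h1, ← h2, ← h3]; ring
      exact_mod_cast h4
  · rintro ⟨k, hkD, hk2⟩
    have hkD0 : D.IsD0 T k := hkD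
    refine ⟨fun x => ft x - (k x : ℚ), hft.sub hkD0.cast, ?_, ?_⟩
    · intro x hx
      have h1 := h.sum x
      have h2 : ν x = k x + 1 * k (D.act D.c x) := hk2 x hx
      rw [h2] at h1
      push_cast at h1
      change ft (D.act D.c x) - (k (D.act D.c x) : ℚ) = -(ft x - (k x : ℚ))
      linear_combination h1
    · intro x _
      rw [AddCircle.coe_sub, h.lift, circ_int, sub_zero]

lemma Zr.mono {T T' : Finset ι} {f : D.Pt → AddCircle (1 : ℚ)} (h : Zr D T f) (hT : T' ⊆ T) :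
    Zr D T' f := by
  obtain ⟨g, h1, h2, h3⟩ := h
  exact ⟨g, fun i hi x hx h0 => h1 i (hT hi) x (hx.mono hT) h0, fun x hx => h2 x (hx.mono hT),
    fun x hx => h3 x (hx.mono hT)⟩

lemma Zr.congr {T : Finset ι} {f g : D.Pt → AddCircle (1 : ℚ)} (h : Zr D T f)
    (hfg : ∀ x, D.Supp T x → f x = g x) : Zr D T g := by
  obtain ⟨k, h1, h2, h3⟩ := h
  exact ⟨k, h1, h2, fun x hx => (h3 x hx).trans (hfg x hx)⟩

lemma Zr.zero {T : Finset ι} {f : D.Pt → AddCircle (1 : ℚ)} (h : ∀ x, D.Supp T x → f x = 0) :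
    Zr D T f := by
  refine ⟨fun _ => 0, ?_, fun _ _ => by simp, fun x hx => ?_⟩
  · intro i _ x _ _
    simp
  · rw [h x hx]; rfl

lemma zr_sub (hu : UniqStmt D) {T : Finset ι} (hT : Even T.card) {f g : D.Pt → AddCircle (1 : ℚ)}
    (hf : OddD D f) (hg : OddD D g) (hf' : ∀ T' ⊂ T, Even T'.card → Zr D T' f)
    (hg' : ∀ T' ⊂ T, Even T'.card → Zr D T' g) (h1 : ¬ Zr D T f) (h2 : ¬ Zr D T g) :
    Zr D T (fun x => f x - g x) := by
  obtain ⟨ft, ν, hν⟩ := exists_nu hf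
  obtain ⟨gt, μ, hμ⟩ := exists_nu hg
  rw [hν.zr_iff] at h1
  rw [hμ.zr_iff] at h2
  rw [(hν.sub hμ).zr_iff]
  have heven : ∀ T' : Finset ι, (1 : ℤ) = (-1) ^ T'.card → Even T'.card := by
    intro T' h
    by_contra h'
    rw [Nat.not_even_iff_odd] at h'
    rw [h'.neg_one_pow] at h
    norm_num at h
  refine hu T 1 hT.neg_one_pow.symm ν μ (hν.isD'.mono (subset_univ T)) (hν.ty.mono (subset_univ T))
    (hμ.isD'.mono (subset_univ T)) (hμ.ty.mono (subset_univ T)) ?_ ?_ h1 h2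
  · intro T' hT' h
    rw [← hν.zr_iff]; exact hf' T' hT' (heven T' h)
  · intro T' hT' h
    rw [← hμ.zr_iff]; exact hg' T' hT' (heven T' h)

lemma half_neg (a : ZMod 2) : half a = - half a := by
  rw [← map_neg, ZModModule.neg_eq_self]

lemma Lam.oddD {T : Finset ι} {b : D.GG} {lam : D.Pt → ZMod 2} (h : Lam D T b lam) :
    OddD D (fun x => half (lam x)) :=
  ⟨h.isD.map half, fun x => by beta_reduce; rw [h.inv]; exact half_neg _⟩

lemma Lam.zero_of {T T' : Finset ι} {b : D.GG} {lam : D.Pt → ZMod 2} (h : Lam D T b lam)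
    (hT : ¬ T ⊆ T') {x : D.Pt} (hx : D.Supp T' x) : half (lam x) = 0 := by
  obtain ⟨i, hi, hi'⟩ := not_subset.mp hT
  rw [h.zero x ⟨i, hi, hx i hi'⟩, map_zero]

lemma half_one : half 1 = ((1 / 2 : ℚ) : AddCircle (1 : ℚ)) := by
  have h1 : half ((1 : ℤ) : ZMod 2) = _ := ZMod.lift_coe 2 _ 1
  rw [Int.cast_one] at h1
  rw [h1, zmultiplesHom_apply, one_zsmul]

lemma ten_cases (T : Finset ι) (b : D.GG) (x : D.Pt) :
    ((∀ i ∈ T, x i = some (b i) ∨ x i = some (D.c i * b i)) ∧ (ten D T b x = 1 ∨ ten D T b x = -1)) ∨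
      (¬ (∀ i ∈ T, x i = some (b i) ∨ x i = some (D.c i * b i)) ∧ ten D T b x = 0) ∨
      ∃ i, D.c i = 1 := by
  classical
  by_cases hfree : ∃ i, D.c i = 1
  · right; right; exact hfree
  by_cases h : ∀ i ∈ T, x i = some (b i) ∨ x i = some (D.c i * b i)
  · left
    refine ⟨h, ?_⟩
    unfold ten
    refine prod_induction _ (fun z : ℤ => z = 1 ∨ z = -1) ?_ (Or.inl rfl) ?_
    · rintro a b (rfl | rfl) (rfl | rfl) <;> simp
    · intro i hi
      have hne : (some (b i)) ≠ some (D.c i * b i) := by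
        intro h'
        apply hfree
        refine ⟨i, ?_⟩
        have h2 := Option.some_injective _ h'
        have h3 : 1 * b i = D.c i * b i := by rw [one_mul]; exact h2
        exact (mul_right_cancel h3).symm
      rcases h i hi with h1 | h1
      · left
        rw [h1, if_pos rfl, if_neg hne, sub_zero]
      · right
        rw [h1, if_pos rfl, if_neg hne.symm, zero_sub]
  · right; left
    refine ⟨h, ?_⟩
    push Not at h
    obtain ⟨i, hi, h1, h2⟩ := h
    unfold ten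
    apply prod_eq_zero hi
    rw [if_neg h1, if_neg h2, sub_zero]

lemma not_zr_lam (hfree : ∀ i, D.c i ≠ 1) (ht : TenStmt D) {T : Finset ι} (hT : Even T.card)
    {b : D.GG} {lam : D.Pt → ZMod 2} (h : Lam D T b lam) : ¬ Zr D T (fun x => half (lam x)) := by
  classical
  rintro ⟨g, hg, hgo, hgl⟩
  obtain ⟨h1, h2, h3⟩ := ht T b
  rw [hT.neg_one_pow] at h2 h3
  apply h3
  have hhalf : ∀ x, D.Supp T x → half (lam x) = ((((ten D T b x : ℤ) : ℚ) / 2 : ℚ) : AddCircle (1 : ℚ)) := by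
    intro x hx
    rw [h.full x hx]
    rcases ten_cases T b x with ⟨h4, h5⟩ | ⟨h4, h5⟩ | ⟨i, hi⟩
    · rw [if_pos h4, half_one]
      rcases h5 with h5 | h5
      · rw [h5]; norm_num
      · rw [h5]
        have e1 : ((1 / 2 : ℚ) : AddCircle (1 : ℚ)) - ((((-1 : ℤ) : ℚ) / 2 : ℚ) : AddCircle (1 : ℚ)) = 0 := by
          rw [← AddCircle.coe_sub]
          have := circ_int 1
          norm_num at this ⊢
        exact sub_eq_zero.mp e1
    · rw [if_neg h4, h5, map_zero]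
      norm_num
    · exact absurd hi (hfree i)
  have hk0 : ∀ x, ∃ k : ℤ, D.Supp T x → g x - ((ten D T b x : ℤ) : ℚ) / 2 = k := by
    intro x
    by_cases hx : D.Supp T x
    · have e1 : ((g x - ((ten D T b x : ℤ) : ℚ) / 2 : ℚ) : AddCircle (1 : ℚ)) = 0 := by
        rw [AddCircle.coe_sub, hgl x hx]
        beta_reduce
        rw [hhalf x hx, sub_self]
      obtain ⟨k, hk⟩ := circ_zero e1
      exact ⟨k, fun _ => hk⟩
    · exact ⟨0, fun h => absurd h hx⟩
  choose k hk using hk0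
  have hten0 : D.IsD0 T (ten D T b) := h1
  have htD : D.IsD0 T (fun x => ((ten D T b x : ℤ) : ℚ) / 2) := by
    have e1 := hten0.cast.map (AddMonoidHom.mulRight (1 / 2 : ℚ))
    have e2 : (fun x => (AddMonoidHom.mulRight (1 / 2 : ℚ)) ((ten D T b x : ℤ) : ℚ)) =
        fun x => ((ten D T b x : ℤ) : ℚ) / 2 := by
      funext x
      change ((ten D T b x : ℤ) : ℚ) * (1 / 2) = _
      ring
    rwa [e2] at e1
  have hkD : D.IsD0 T k := by
    apply Dat.IsD0.of_cast
    intro i hi x hx h0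
    have e1 := (hg.sub htD) i hi x hx h0
    beta_reduce at e1 ⊢
    rw [← hk _ (hx.act _), ← hk _ (hx.act _), ← e1]
    exact sum_congr rfl fun u _ => (hk _ (hx.update hi _)).symm
  have hnk : D.IsD T (-k) := Dat.IsD.neg (show D.IsD T k from hkD)
  refine ⟨-k, hnk, ?_⟩
  intro x hx
  change ten D T b x = (-k) x + 1 * (-k) (D.act D.c x)
  have e1 := hk x hx
  have e2 := hk _ (hx.act D.c)
  have e3 : ten D T b (D.act D.c x) = 1 * ten D T b x := h2 x hx
  rw [hgo x hx, e3] at e2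
  have e4 : ((ten D T b x : ℤ) : ℚ) = -(k x : ℚ) + 1 * -(k (D.act D.c x) : ℚ) := by
    rw [← e1, ← e2]; push_cast; ring
  rw [Pi.neg_apply, Pi.neg_apply]
  exact_mod_cast e4

theorem decomp_aux (hfree : ∀ i, D.c i ≠ 1) (hu : UniqStmt D) (ht : TenStmt D)
    {f : D.Pt → AddCircle (1 : ℚ)} (hf : OddD D f) (b : Finset ι → D.GG)
    (lam : Finset ι → D.Pt → ZMod 2)
    (hlam : ∀ T, Even T.card → ¬ Zr D T f → Lam D T (b T) (lam T)) :
    ∀ k : ℕ, ∃ 𝓑 : Finset (Finset ι), (∀ T ∈ 𝓑, Even T.card ∧ T.card < k ∧ ¬ Zr D T f) ∧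
      ∀ T, Even T.card → T.card < k → Zr D T (fun x => f x - ∑ T ∈ 𝓑, half (lam T x)) := by
  classical
  intro k
  induction k with
  | zero => exact ⟨∅, by simp, fun T _ h => absurd h (Nat.not_lt_zero _)⟩
  | succ k ih =>
    obtain ⟨𝓑, h1, h2⟩ := ih
    set g : D.Pt → AddCircle (1 : ℚ) := fun x => f x - ∑ T ∈ 𝓑, half (lam T x) with hg
    have hgO : OddD D g := hf.sub (OddD.sum fun T hT => (hlam T (h1 T hT).1 (h1 T hT).2.2).oddD)
    set 𝓒 : Finset (Finset ι) := univ.filter (fun T => Even T.card ∧ T.card = k ∧ ¬ Zr D T g)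
      with h𝓒
    have hC : ∀ T ∈ 𝓒, Even T.card ∧ T.card = k ∧ ¬ Zr D T g := fun T hT => (mem_filter.mp hT).2
    have hCf : ∀ T ∈ 𝓒, ¬ Zr D T f := by
      intro T hT hz
      apply (hC T hT).2.2
      refine hz.congr ?_
      intro x hx
      rw [hg]
      beta_reduce
      rw [sum_eq_zero, sub_zero]
      intro T2 hT2
      refine (hlam T2 (h1 T2 hT2).1 (h1 T2 hT2).2.2).zero_of (fun hsub => ?_) hx
      exact (h1 T2 hT2).2.2 (hz.mono hsub)
    have hCl : ∀ T ∈ 𝓒, Lam D T (b T) (lam T) := fun T hT => hlam T (hC T hT).1 (hCf T hT)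
    have hdisj : Disjoint 𝓑 𝓒 := by
      rw [disjoint_left]
      intro T hT hT'
      have := (h1 T hT).2.1
      have := (hC T hT').2.1
      omega
    refine ⟨𝓑 ∪ 𝓒, ?_, ?_⟩
    · intro T hT
      rcases mem_union.mp hT with hT | hT
      · exact ⟨(h1 T hT).1, by have := (h1 T hT).2.1; omega, (h1 T hT).2.2⟩
      · exact ⟨(hC T hT).1, by have := (hC T hT).2.1; omega, hCf T hT⟩
    · intro T hTe hTk
      have hsum : ∀ x, D.Supp T x → f x - ∑ T ∈ 𝓑 ∪ 𝓒, half (lam T x) =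
          g x - ∑ T1 ∈ 𝓒, if T1 = T then half (lam T x) else 0 := by
        intro x hx
        rw [sum_union hdisj]
        change _ = (f x - ∑ T ∈ 𝓑, half (lam T x)) - _
        have e1 : ∑ T1 ∈ 𝓒, half (lam T1 x) = ∑ T1 ∈ 𝓒, if T1 = T then half (lam T x) else 0 := by
          refine sum_congr rfl fun T1 hT1 => ?_
          by_cases h3 : T1 = T
          · rw [if_pos h3, h3]
          · rw [if_neg h3]
            refine (hCl T1 hT1).zero_of (fun hsub => h3 ?_) hx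
            apply eq_of_subset_of_card_le hsub
            have := (hC T1 hT1).2.1
            omega
        rw [e1]
        abel
      by_cases hTC : T ∈ 𝓒
      · have e1 : ∀ x, D.Supp T x → g x - half (lam T x) =
            f x - ∑ T ∈ 𝓑 ∪ 𝓒, half (lam T x) := by
          intro x hx
          rw [hsum x hx, sum_ite_eq' 𝓒 T, if_pos hTC]
        refine Zr.congr ?_ e1
        refine zr_sub hu hTe hgO (hCl T hTC).oddD ?_ ?_ (hC T hTC).2.2
          (not_zr_lam hfree ht hTe (hCl T hTC))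
        · intro T' hT' he
          refine h2 T' he ?_
          have := card_lt_card hT'
          have := (hC T hTC).2.1
          omega
        · intro T' hT' _
          refine Zr.zero fun x hx => ?_
          exact (hCl T hTC).zero_of (fun hsub => hT'.2 hsub) hx
      · have e1 : ∀ x, D.Supp T x → g x = f x - ∑ T ∈ 𝓑 ∪ 𝓒, half (lam T x) := by
          intro x hx
          rw [hsum x hx, sum_ite_eq' 𝓒 T, if_neg hTC, sub_zero]
        refine Zr.congr ?_ e1
        by_cases h3 : T.card = k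
        · by_contra h4
          apply hTC
          rw [h𝓒, mem_filter]
          exact ⟨mem_univ _, hTe, h3, h4⟩
        · exact h2 T hTe (by omega)

theorem decomp' (hfree : ∀ i, D.c i ≠ 1) (hu : UniqStmt D) (ht : TenStmt D)
    {f : D.Pt → AddCircle (1 : ℚ)} (hf : OddD D f) (b : Finset ι → D.GG)
    (lam : Finset ι → D.Pt → ZMod 2)
    (hlam : ∀ T, Even T.card → ¬ Zr D T f → Lam D T (b T) (lam T)) :
    ∃ 𝓑 : Finset (Finset ι), (∀ T ∈ 𝓑, Even T.card ∧ ¬ Zr D T f) ∧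
      Zr D univ (fun x => f x - ∑ T ∈ 𝓑, half (lam T x)) := by
  obtain ⟨𝓑, h1, h2⟩ := decomp_aux hfree hu ht hf b lam hlam (Fintype.card ι + 1)
  refine ⟨𝓑, fun T hT => ⟨(h1 T hT).1, (h1 T hT).2.2⟩, ?_⟩
  have hgO : OddD D (fun x => f x - ∑ T ∈ 𝓑, half (lam T x)) :=
    hf.sub (OddD.sum fun T hT => (hlam T (h1 T hT).1 (h1 T hT).2.2).oddD)
  obtain ⟨ft, ν, hν⟩ := exists_nu hgO
  rw [hν.zr_iff]
  refine Dat.detect hfree univ 1 (by norm_num) ν hν.isD' hν.ty ?_
  intro T _ hcard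
  rw [← hν.zr_iff]
  refine h2 T ?_ (Nat.lt_succ_of_le (card_le_univ T))
  by_contra h'
  rw [Nat.not_even_iff_odd] at h'
  rw [h'.neg_one_pow] at hcard
  norm_num at hcard

end Pool.Agent.LB
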