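import Pool.Agent.N993.Det

/-!
Definitions for the length bound: odd distributions with values in the circle, classes modulo 2.
-/

set_option linter.unusedSectionVars false

namespace Pool.Agent.LB

open Finset Pool.Agent.N993

variable {ι : Type} [DecidableEq ι]

/-- the tensor system with centre `b` -/
def ten (D : Dat ι) (S : Finset ι) (b : D.GG) (x : D.Pt) : ℤ :=
  ∏ i ∈ S, ((if x i = some (b i) then 1 else 0) - (if x i = some (D.c i * b i) then 1 else 0))

/-- the restriction to `T` lifts to an odd rational distribution -/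
def Zr (D : Dat ι) (T : Finset ι) (f : D.Pt → AddCircle (1 : ℚ)) : Prop :=
  ∃ h : D.Pt → ℚ, D.IsD0 T h ∧ (∀ x, D.Supp T x → h (D.act D.c x) = - h x) ∧
    ∀ x, D.Supp T x → ((h x : ℚ) : AddCircle (1 : ℚ)) = f x

/-- the inclusion of `Z/2` in the circle -/
noncomputable def half : ZMod 2 →+ AddCircle (1 : ℚ) :=
  ZMod.lift 2 ⟨zmultiplesHom (AddCircle (1 : ℚ)) ((1 / 2 : ℚ) : AddCircle (1 : ℚ)), by
    rw [zmultiplesHom_apply]
    rw [← AddCircle.coe_zsmul, AddCircle.coe_eq_zero_iff]
    exact ⟨1, by norm_num⟩⟩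

/-- `λ` is a distribution modulo 2, invariant under the involution, with the class of the set `T`
with centre `b`. -/
structure Lam (D : Dat ι) [Fintype ι] (T : Finset ι) (b : D.GG) (lam : D.Pt → ZMod 2) : Prop where
  isD : D.IsD0 univ lam
  inv : ∀ x, lam (D.act D.c x) = lam x
  zero : ∀ x, (∃ i ∈ T, x i = none) → lam x = 0
  full : ∀ x, D.Supp T x → lam x = if ∀ i ∈ T, x i = some (b i) ∨ x i = some (D.c i * b i) then 1 else 0

/-- the support of a point -/
def spt (D : Dat ι) [Fintype ι] (x : D.Pt) : Finset ι := univ.filter (fun i => (x i).isSome)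

end Pool.Agent.LB
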