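import Pool.Agent.LB.WRem
import Pool.Agent.N997.P.Final
import Pool.Agent.N992.Four
import Pool.Agent.N993.Good

/-!
The reduction of the Hodge characters with at most eight entries to the degrees divisible by 8 without
prime factors greater than 31.
-/

set_option linter.unusedSectionVars false

namespace Pool.Agent.LB

open Finset Pool.Agent.H916R2 Pool.Agent.N992 Pool.Agent.N997 Pool.Agent.N997.P

/-- The multiset `s` is killed, in all multiples of some multiple of the level, by all odd distributions
which kill the base. -/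
def Kill (m : ℕ) (s : Multiset (ZMod m)) : Prop :=
  ∃ L : ℕ, L ≠ 0 ∧ ∀ (κ N : ℕ) [NeZero N], κ * (L * m) = N → ∀ (Q : Type) [AddCommGroup Q]
    (c : ZMod N → Q), OddDist c → (∀ u, FourBase N u → (u.map c).sum = 0) →
    (s.map (fun a => c (iota (κ * L) a))).sum = 0

/-- The weight of the entries which are new at `p`. -/
noncomputable def newW (p : ℕ) {m : ℕ} (s : Multiset (ZMod m)) : ℕ :=
  (s.map (fun a => if p ∣ a.val then 0 else w2 a)).sum

lemma kill_six {m : ℕ} [NeZero m] {s : Multiset (ZMod m)} (hs : IsHodge m s)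
    (hc : Multiset.card s ≤ 6) : Kill m s := by
  rcases eq_or_ne s 0 with rfl | hne
  · exact ⟨1, one_ne_zero, fun κ N _ _ Q _ c _ _ => by simp⟩
  have : NeZero (6 * m) := ⟨mul_ne_zero (by norm_num) (NeZero.ne m)⟩
  have hgen := main_fourfold m s hs hc hne
  refine ⟨6, by norm_num, ?_⟩
  intro κ N _ hN Q _ c hcO hk
  have h1 := kil_generated (hcO.comp_iota hN) (fun u hu => by
    have h2 := hk _ (Pool.Agent.N993.FourBase.lift hN hu)
    rw [Multiset.map_map] at h2
    exact h2) hgen
  rw [Multiset.map_map] at h1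
  rw [← h1]
  congr 1
  apply Multiset.map_congr rfl
  intro a _
  simp only [Function.comp_apply]
  have h6 : ((6 * a.val : ℕ) : ZMod (6 * m)) = iota 6 a := rfl
  rw [h6, iota_comp hN]

lemma kill_up {m m' d : ℕ} [NeZero m] [NeZero m'] (hd : d * m' = m) {s : Multiset (ZMod m)}
    {s' : Multiset (ZMod m')} (hid : ∀ (R : Type) [AddCommGroup R] (c : ZMod m → R), OddDist c →
      (s.map c).sum = (s'.map (fun b => c (iota d b))).sum) (h : Kill m' s') : Kill m s := by
  obtain ⟨L, hL, h⟩ := h
  refine ⟨L, hL, ?_⟩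
  intro κ N _ hN Q _ c hcO hk
  have hN' : κ * L * m = N := by rw [← hN]; ring
  have h1 := h (κ * d) N (by rw [← hN, ← hd]; ring) Q c hcO hk
  rw [hid Q (fun a => c (iota (κ * L) a)) (hcO.comp_iota hN'), ← h1]
  congr 1
  apply Multiset.map_congr rfl
  intro b _
  rw [iota_comp hN']
  congr 2
  ring

lemma kill_down {m e : ℕ} [NeZero m] (he : e ≠ 0) {s : Multiset (ZMod m)}
    (h : Kill (e * m) (s.map (iota e : ZMod m → ZMod (e * m)))) : Kill m s := by
  obtain ⟨L, hL, h⟩ := h
  have : NeZero (e * m) := ⟨Nat.mul_ne_zero he (NeZero.ne m)⟩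
  refine ⟨L * e, Nat.mul_ne_zero hL he, ?_⟩
  intro κ N _ hN Q _ c hcO hk
  have hN' : κ * L * (e * m) = N := by rw [← hN]; ring
  have h1 := h κ N (by rw [← hN]; ring) Q c hcO hk
  rw [Multiset.map_map] at h1
  rw [← h1]
  congr 1
  apply Multiset.map_congr rfl
  intro b _
  simp only [Function.comp_apply]
  rw [iota_comp hN']
  congr 2
  ring

lemma sum_abs_count {m : ℕ} [NeZero m] (s : Multiset (ZMod m)) :
    ∑ a ∈ univ.filter (fun a : ZMod m => ¬ 29 ∣ a.val), (w2 a : ℤ) * |((s.count a : ℕ) : ℤ)| =
      newW 29 s := by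
  have h1 := sum_count s (fun a : ZMod m => (((if 29 ∣ a.val then 0 else w2 a : ℕ)) : ℤ))
  have h2 : (s.map (fun a : ZMod m => (((if 29 ∣ a.val then 0 else w2 a : ℕ)) : ℤ))).sum =
      ((newW 29 s : ℕ) : ℤ) := by
    unfold newW
    rw [Nat.cast_multiset_sum, Multiset.map_map]
    rfl
  rw [← h2, ← h1, sum_filter]
  refine sum_congr rfl fun a _ => ?_
  by_cases ha : 29 ∣ a.val
  · rw [if_neg (not_not.mpr ha), if_pos ha]; simp
  · rw [if_pos ha, if_neg ha, Nat.abs_cast, smul_eq_mul, mul_comm]

/-- The theorem for the large degrees. -/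
def Large : Prop := ∀ (m : ℕ) [NeZero m] (s : Multiset (ZMod m)), 8 ∣ m →
  (∀ p, p.Prime → p ∣ m → p ≤ 31) → (29 ∣ m → 14 ≤ newW 29 s) → Multiset.card s = 8 →
  IsHodge m s → Kill m s

theorem reduce_main (H : Large) : ∀ (n m : ℕ) [NeZero m], m ≤ n →
    (∀ p, p.Prime → p ∣ m → p ≤ 31) → ∀ s : Multiset (ZMod m), IsHodge m s →
    Multiset.card s ≤ 8 → Kill m s := by
  intro n
  induction n with
  | zero =>
    intro m _ h
    have := NeZero.pos m
    omega
  | succ n ih =>
    intro m _ hmn hp s hs hc
    by_cases h6 : Multiset.card s ≤ 6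
    · exact kill_six hs h6
    have h8 : Multiset.card s = 8 := by
      obtain ⟨r, hr⟩ := hs.2.1
      omega
    by_cases h29 : 29 ∣ m ∧ newW 29 s ≤ 13
    · obtain ⟨h29m, hw⟩ := h29
      have hp29 : Nat.Prime 29 := by norm_num
      obtain ⟨hrel, hid⟩ := remove_prime_w hp29 (by norm_num) h29m hs.rel (k := 13) (by
        rw [sum_abs_count]; exact_mod_cast hw) (by norm_num)
      set x1 : ZMod m → ℤ := fun a => if 29 ∣ a.val then ((s.count a : ℕ) : ℤ) else 0 with hx1
      obtain ⟨d, hd⟩ := h29m
      have hd0 : NeZero d := ⟨by rintro rfl; rw [mul_zero] at hd; exact NeZero.ne m hd⟩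
      have hsupp : ∀ a, x1 a ≠ 0 → 29 ∣ a.val := by
        intro a ha
        by_contra h
        apply ha
        simp only [hx1]; rw [if_neg h]
      obtain ⟨hr, ht, hss⟩ := descend (by norm_num : 0 < 29) hd.symm x1 hrel hsupp
      have hx1k : ∑ a, |x1 a| ≤ 8 := by
        have h9 : ∑ a : ZMod m, |((s.count a : ℕ) : ℤ)| ≤ 8 := by
          rw [sum_count_abs]; exact_mod_cast hc
        refine le_trans (sum_le_sum fun a _ => ?_) h9
        simp only [hx1]
        split_ifs
        · exact le_rfl
        · rw [abs_zero]; exact abs_nonneg _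
      obtain ⟨s', hs', hcard', hid'⟩ := exists_hodge_card (fun b : ZMod d => x1 (iota 29 b)) hr 4
        (by rw [hss]; exact_mod_cast hx1k)
      have hdm : d < m := by
        have := NeZero.pos d
        omega
      refine kill_up hd.symm (s' := s') ?_ (ih d (by omega) (fun p hpp hpd => hp p hpp
        (hpd.trans ⟨29, by rw [hd, mul_comm]⟩)) s' hs' (by omega))
      intro R _ c hcO
      rw [← hid' R (fun b => c (iota 29 b)) (hcO.comp_iota hd.symm), ← ht R c,
        ← hid R c hcO, sum_count]
    · have : NeZero (8 * m) := ⟨Nat.mul_ne_zero (by norm_num) (NeZero.ne m)⟩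
      apply kill_down (e := 8) (by norm_num)
      refine H (8 * m) _ (dvd_mul_right 8 m) ?_ ?_ ?_ (hs.iota rfl)
      · intro p hpp hpm
        rcases (Nat.Prime.dvd_mul hpp).mp hpm with h | h
        · have := Nat.le_of_dvd (by norm_num) h
          omega
        · exact hp p hpp h
      · intro h
        have h29m : 29 ∣ m := by
          have h1 : Nat.Coprime 29 8 := by norm_num
          exact h1.dvd_of_dvd_mul_left h
        have hw : newW 29 (s.map (iota 8 : ZMod m → ZMod (8 * m))) = newW 29 s := by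
          unfold newW
          rw [Multiset.map_map]
          congr 1
          apply Multiset.map_congr rfl
          intro a _
          simp only [Function.comp_apply]
          have h1 := dvd_iota_iff (l := 8) (m := 8 * m) (m' := m) rfl h29m (by norm_num) a
          have h2 := w2_iota (l := 8) (m0 := m) (m := 8 * m) rfl a
          by_cases ha : 29 ∣ a.val
          · rw [if_pos (h1.mpr ha), if_pos ha]
          · rw [if_neg (fun h => ha (h1.mp h)), if_neg ha, h2]
        rw [hw]
        by_contra h9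
        exact h29 ⟨h29m, by omega⟩
      · rw [Multiset.card_map]; exact h8

theorem reduce_final (H : Large) (m : ℕ) [NeZero m] (s : Multiset (ZMod m)) (hs : IsHodge m s)
    (hc : Multiset.card s ≤ 8) : Kill m s := by
  obtain ⟨m1, l1, hm1, x1, e1, e2, e3, e4, e5⟩ :=
    reduce_smooth 8 m m (fun a : ZMod m => ((s.count a : ℕ) : ℤ)) hs.rel
      (by rw [sum_count_abs]; exact_mod_cast hc) le_rfl
  obtain ⟨s', hs', hcard', hid'⟩ := exists_hodge_card x1 e3 4 (by exact_mod_cast e4)
  refine kill_up e1 (s' := s') ?_ (reduce_main H m1 m1 le_rfl ?_ s' hs' (by omega))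
  · intro R _ c hcO
    rw [← hid' R (fun b => c (iota l1 b)) (hcO.comp_iota e1), ← e5 R c hcO, sum_count]
  · intro p hp hpm
    have h1 := e2 p hp hpm
    have h2 : cN m ≤ 2 := by unfold cN; split_ifs <;> norm_num
    have h3 : p ≤ 34 := by
      have := Nat.mul_le_mul_left 8 h2
      omega
    by_contra h4
    have h5 : 32 ≤ p := by omega
    interval_cases p <;> revert hp <;> norm_num

/-- The result for one character. -/
theorem generated_of_kill {m : ℕ} [NeZero m] {s : Multiset (ZMod m)} (hs : IsHodge m s) (hne : s ≠ 0)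
    {L : ℕ} [NeZero (L * m)] (h : ∀ (Q : Type) [AddCommGroup Q] (c : ZMod (L * m) → Q),
      OddDist c → (∀ u, FourBase (L * m) u → (u.map c).sum = 0) →
      (s.map (fun a => c (iota L a))).sum = 0) :
    Generated (L * m) (FourBase (L * m)) (s.map fun a => ((L * a.val : ℕ) : ZMod (L * m))) := by
  have h1 := gen_of_kill (m := m) (g := m) (q := L) (q' := L) (base := FourBase (L * m))
    (fun u hu => by
      rcases hu with hu | hu
      · exact Pool.Agent.Y2.Cv.base_good u hu
      · exact ⟨hu.1.1, hu.1.2.1⟩) (fun u hu => by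
      rcases hu with hu | hu
      · exact Or.inl (Pool.Agent.Y2.Cv.base_neg u hu)
      · exact Or.inr hu.neg) rfl hs hne s (fun R _ c _ => rfl) (fun R _ c hcO hk => by
      rw [Multiset.map_map]
      exact h R c hcO hk)
  exact h1

/-- The final form: one multiple for all characters with at most eight entries. -/
theorem final8 (H : Large) (m : ℕ) [NeZero m] : ∃ l : ℕ, ∃ _ : NeZero (l * m),
    ∀ s : Multiset (ZMod m), IsHodge m s → s ≠ 0 → Multiset.card s ≤ 8 →
      Generated (l * m) (FourBase (l * m)) (s.map fun a => ((l * a.val : ℕ) : ZMod (l * m))) := by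
  classical
  let P : Finset (Multiset (ZMod m)) := (Multiset.powerset (8 • (univ : Finset (ZMod m)).val)).toFinset
  let f : Multiset (ZMod m) → ℕ := fun s => if h : Kill m s then h.choose else 1
  have hf0 : ∀ s, f s ≠ 0 := by
    intro s
    by_cases h : Kill m s
    · simp only [f, dif_pos h]; exact h.choose_spec.1
    · simp only [f, dif_neg h]; exact one_ne_zero
  have hf : ∀ s, Kill m s → ∀ (κ N : ℕ) [NeZero N], κ * (f s * m) = N → ∀ (Q : Type) [AddCommGroup Q]
      (c : ZMod N → Q), OddDist c → (∀ u, FourBase N u → (u.map c).sum = 0) →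
      (s.map (fun a => c (iota (κ * f s) a))).sum = 0 := by
    intro s h
    simp only [f, dif_pos h]
    exact h.choose_spec.2
  set L : ℕ := ∏ s ∈ P, f s with hL
  have hL0 : L ≠ 0 := prod_ne_zero_iff.mpr fun s _ => hf0 s
  have hNZ : NeZero (L * m) := ⟨Nat.mul_ne_zero hL0 (NeZero.ne m)⟩
  refine ⟨L, hNZ, fun s hs hne hc => ?_⟩
  have hk := reduce_final H m s hs hc
  have hsP : s ∈ P := by
    simp only [P]
    rw [Multiset.mem_toFinset, Multiset.mem_powerset, Multiset.le_iff_count]
    intro a
    rw [Multiset.count_nsmul, Multiset.count_univ]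
    have := Multiset.count_le_card a s
    omega
  obtain ⟨e, he⟩ : f s ∣ L := dvd_prod_of_mem f hsP
  apply generated_of_kill hs hne
  intro Q _ c hcO hkb
  have h1 := hf s hk e (L * m) (by rw [he]; ring) Q c hcO hkb
  have h2 : e * f s = L := by rw [he, mul_comm]
  rw [h2] at h1
  exact h1

end Pool.Agent.LB
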