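import Pool.Agent.LB.W2c

/-!
The classes of {3, 5, 7}, {3, 5} and {5, 7}: they do not lift on the points supported in {4, 3, 5, 7},
and they lift on the points supported in a pair.
-/

set_option linter.unusedSectionVars false

namespace Pool.Agent.LB

open Finset Pool.Agent.H916R2 Pool.Agent.N992 Pool.Agent.N993 Pool.Agent.N998

/-- The three sets. -/
def ThreeSets (A : Finset ℕ) : Prop := A = {3, 5, 7} ∨ A = {3, 5} ∨ A = {5, 7}

theorem cls_not_zr {S : Finset ℕ} (hS : ∀ x ∈ S, (x.Prime ∧ x % 2 = 1) ∨ x = 4)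
    [∀ i : Ix S, NeZero (nn S i)] {m0 : ℕ} [NeZero m0] (hm0 : ∏ i : Ix S, nn S i = m0)
    (E : (∀ i, ZMod (nn S i)) ≃+* ZMod m0) {A : Finset ℕ} (hA : ThreeSets A)
    {T : Finset (Ix S)} (hT : T.map (Function.Embedding.subtype _) = {4, 3, 5, 7}) :
    ¬ Zr (cyc (nn S)) T (fun x => half (cls A (E (emb x)))) := by
  classical
  intro hz
  have hn : Adm' (nn S) := fun i => hS i i.2
  have hco : Pairwise (fun i j : Ix S => (nn S i).Coprime (nn S j)) := fun i j hij =>
    coprime_of (hS i i.2) (hS j j.2) (fun h => hij (Subtype.ext h))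
  have hA' : A.Nonempty ∧ 2 ∉ A := by
    rcases hA with rfl | rfl | rfl <;> exact ⟨⟨5, by decide⟩, by decide⟩
  have hprod : ∏ i ∈ T, nn S i = 420 := by
    have h1 : ∏ x ∈ T.map (Function.Embedding.subtype _), x = ∏ i ∈ T, nn S i := by
      rw [prod_map]; rfl
    rw [← h1, hT]
    decide
  obtain ⟨l, hl⟩ : (420 : ℕ) ∣ m0 := by
    rw [← hm0, ← hprod]
    exact prod_dvd_prod_of_subset _ _ _ (subset_univ T)
  have hl' : l * 420 = m0 := by rw [hl, mul_comm]
  have h1 := kills_of_zr_T hn hco hm0 E (c := fun a => half (cls A a))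
    (oddDist_half hA'.1 hA'.2) T hprod hl' hz _ s420_rel
  rw [sum_count s420 (fun b => half (cls A (iota l b : ZMod m0)))] at h1
  simp only [cls_iota A hl'] at h1
  rw [sum_half_map s420 (fun b => cls A b), s420_cls hA] at h1
  exact half_one_ne h1

lemma val_none_of {S : Finset ℕ} [∀ i : Ix S, NeZero (nn S i)] {x : (cyc (nn S)).Pt} {i : Ix S}
    (h : (emb x : ∀ i, ZMod (nn S i)) i = 0) (hi : 1 < nn S i) : x i = none := by
  cases hx : x i with
  | none => rfl
  | some u =>
    rw [emb_some hx] at h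
    have h1 : IsUnit ((u : (ZMod (nn S i))ˣ) : ZMod (nn S i)) := u.isUnit
    have : Fact (1 < nn S i) := ⟨hi⟩
    have h2 : ((u : (ZMod (nn S i))ˣ) : ZMod (nn S i)) = 0 := h
    rw [h2] at h1
    exact absurd h1 not_isUnit_zero

/-- If the primes dividing the order of the point are those in `A` then all coordinates in `A` are
different from zero. -/
lemma cls_none {S : Finset ℕ} (hS : ∀ x ∈ S, (x.Prime ∧ x % 2 = 1) ∨ x = 4)
    [∀ i : Ix S, NeZero (nn S i)] {m0 : ℕ} [NeZero m0] (hm0 : ∏ i : Ix S, nn S i = m0)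
    (E : (∀ i, ZMod (nn S i)) ≃+* ZMod m0) {A : Finset ℕ} {x : (cyc (nn S)).Pt} {i : Ix S}
    (hi : (i : ℕ) ∈ A) (hi4 : (i : ℕ) ≠ 4) (h : x i = none) : cls A (E (emb x)) = 0 := by
  classical
  have hip : (i : ℕ).Prime := by
    rcases hS i i.2 with h1 | h1
    · exact h1.1
    · exact absurd h1 hi4
  refine cls_supp hm0 E (T := univ.erase i) hip hi ?_ ?_
  · intro j hj hij
    rw [mem_erase] at hj
    apply hj.1
    have h2 : (i : ℕ) ∣ (j : ℕ) := hij
    have h3 : (j : ℕ) ≠ (i : ℕ) := fun h => hj.1 (Subtype.ext h)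
    have h4 := coprime_of (hS i i.2) (hS j j.2) h3.symm
    rw [Nat.Coprime, Nat.gcd_eq_left h2] at h4
    exact absurd h4 hip.one_lt.ne'
  · intro j hj
    rw [mem_erase, not_and_or, not_not] at hj
    rcases hj with hj | hj
    · rw [hj]; exact h
    · exact absurd (mem_univ j) hj

/-- the order of a point supported in `T` with no coordinate zero there -/
lemma cls_full {S : Finset ℕ} (hS : ∀ x ∈ S, (x.Prime ∧ x % 2 = 1) ∨ x = 4)
    [∀ i : Ix S, NeZero (nn S i)] {m0 : ℕ} [NeZero m0]
    (E : (∀ i, ZMod (nn S i)) ≃+* ZMod m0) {A : Finset ℕ} {T : Finset (Ix S)}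
    (hT : T.map (Function.Embedding.subtype _) = A) (h4 : 4 ∉ A) {x : (cyc (nn S)).Pt}
    (hx : (cyc (nn S)).Supp T x) (hsome : ∀ i ∈ T, x i ≠ none) : cls A (E (emb x)) = 1 := by
  classical
  have hiA : ∀ i : Ix S, i ∈ T ↔ (i : ℕ) ∈ A := by
    intro i
    rw [← hT, mem_map]
    constructor
    · intro hi; exact ⟨i, hi, rfl⟩
    · rintro ⟨j, hj, he⟩
      have : j = i := Subtype.ext he
      rwa [← this]
  have hprime : ∀ i ∈ T, (i : ℕ).Prime := by
    intro i hi
    rcases hS i i.2 with h1 | h1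
    · exact h1.1
    · exact absurd (h1 ▸ (hiA i).mp hi) h4
  unfold cls
  rw [if_pos]
  ext p
  rw [Nat.mem_primeFactors]
  constructor
  · rintro ⟨hp, hpd, _⟩
    by_contra hpA
    have h1 : (cls {p} (E (emb x)) : ZMod 2) = 0 ∨ True := Or.inr trivial
    have h2 : (∏ i ∈ T, nn S i) • (E (emb x)) = 0 := by
      rw [← map_nsmul]
      have h3 : (∏ i ∈ T, nn S i) • (emb x : ∀ i, ZMod (nn S i)) = 0 := by
        funext i
        rw [Pi.smul_apply, Pi.zero_apply]
        by_cases hi : i ∈ T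
        · obtain ⟨d, hd⟩ := dvd_prod_of_mem (nn S) hi
          rw [hd, mul_nsmul, nsmul_eq_mul, nsmul_eq_mul]
          rw [show ((nn S i : ℕ) : ZMod (nn S i)) = 0 from ZMod.natCast_self _, zero_mul, mul_zero]
        · rw [emb_none (hx i hi), smul_zero]
      rw [h3, map_zero]
    have h5 : p ∣ ∏ i ∈ T, nn S i := hpd.trans (addOrderOf_dvd_of_nsmul_eq_zero h2)
    obtain ⟨i, hi, hi'⟩ := (hp.prime.dvd_finsetProd_iff _).mp h5
    have h6 : p = (i : ℕ) := (Nat.prime_dvd_prime_iff_eq hp (hprime i hi)).mp hi'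
    exact hpA (h6 ▸ (hiA i).mp hi)
  · intro hpA
    have hpS : p ∈ S := by
      rw [← hT, mem_map] at hpA
      obtain ⟨i, _, rfl⟩ := hpA
      exact i.2
    set i : Ix S := ⟨p, hpS⟩ with hi
    have hiT : i ∈ T := (hiA i).mpr hpA
    have hp : p.Prime := hprime i hiT
    refine ⟨hp, ?_, (addOrderOf_pos _).ne'⟩
    by_contra hnd
    apply hsome i hiT
    apply val_none_of (i := i) _ hp.one_lt
    have h1 : addOrderOf (E (emb x)) • (emb x : ∀ i, ZMod (nn S i)) = 0 := by
      apply E.injective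
      rw [map_nsmul, addOrderOf_nsmul_eq_zero, map_zero]
    have h2 := congrFun h1 i
    rw [Pi.smul_apply, Pi.zero_apply, nsmul_eq_mul] at h2
    have h3 : IsUnit ((addOrderOf (E (emb x)) : ℕ) : ZMod (nn S i)) := by
      rw [ZMod.isUnit_iff_coprime]
      exact ((hp.coprime_iff_not_dvd).mpr hnd).symm
    exact (h3.mul_right_eq_zero).mp h2

/-- the sum of the quadratic character -/
lemma sum_qch {k : ℕ} [NeZero k] (hk : (k.Prime ∧ k % 2 = 1) ∨ k = 4) :
    ∑ u : (ZMod k)ˣ, ((qch k u : ℤˣ) : ℤ) = 0 := by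
  classical
  obtain ⟨v, hv⟩ : ∃ v : (ZMod k)ˣ, qch k v = -1 := by
    have hk0 := hk
    rcases hk0 with hk' | hk'
    · have : Fact k.Prime := ⟨hk'.1⟩
      obtain ⟨a, ha⟩ := FiniteField.exists_nonsquare (F := ZMod k) (by
        rw [ZMod.ringChar_zmod_n]; rintro rfl; omega)
      have ha0 : a ≠ 0 := by rintro rfl; exact ha (IsSquare.zero)
      refine ⟨Units.mk0 a ha0, ?_⟩
      rw [qch_eq_neg_one_iff hk]
      exact ha
    · refine ⟨-1, ?_⟩
      rw [qch_eq_neg_one_iff hk]
      subst hk'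
      decide
  have h1 : ∑ u : (ZMod k)ˣ, ((qch k u : ℤˣ) : ℤ) = ∑ u : (ZMod k)ˣ, ((qch k (v * u) : ℤˣ) : ℤ) :=
    (Equiv.sum_comp (Equiv.mulLeft v) (fun u => ((qch k u : ℤˣ) : ℤ))).symm
  have h2 : ∑ u : (ZMod k)ˣ, ((qch k (v * u) : ℤˣ) : ℤ) = - ∑ u : (ZMod k)ˣ, ((qch k u : ℤˣ) : ℤ) := by
    rw [← sum_neg_distrib]
    refine sum_congr rfl fun u _ => ?_
    rw [map_mul, hv]
    push_cast
    ring
  omega

section pair

variable {S : Finset ℕ} (hS : ∀ x ∈ S, (x.Prime ∧ x % 2 = 1) ∨ x = 4) [∀ i : Ix S, NeZero (nn S i)]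

/-- the value of the quadratic character, 0 at zero -/
noncomputable def vq (i : Ix S) : Option ((cyc (nn S)).G i) → ℚ
  | none => 0
  | some u => (((qq S i u : ℤˣ) : ℤ) : ℚ)

lemma vq_some (i : Ix S) (u : (cyc (nn S)).G i) :
    vq i (some u) = (((qq S i u : ℤˣ) : ℤ) : ℚ) := rfl

lemma vq_cases (i : Ix S) (o : Option ((cyc (nn S)).G i)) :
    (o = none ∧ vq i o = 0) ∨ (o ≠ none ∧ (vq i o = 1 ∨ vq i o = -1)) := by
  cases o with
  | none => left; exact ⟨rfl, rfl⟩
  | some u =>
    right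
    refine ⟨by simp, ?_⟩
    rw [vq_some]
    rcases Int.units_eq_one_or (qq S i u) with h | h
    · left; rw [h]; norm_num
    · right; rw [h]; norm_num

lemma vq_act (i : Ix S) (b : (cyc (nn S)).GG) (x : (cyc (nn S)).Pt) :
    vq i ((cyc (nn S)).act b x i) = (((qq S i (b i) : ℤˣ) : ℤ) : ℚ) * vq i (x i) := by
  cases h : x i with
  | none => rw [Dat.act_apply_none h]; unfold vq; simp
  | some u =>
    rw [Dat.act_apply_some h, vq_some, vq_some, map_mul]
    push_cast
    rfl

include hS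

lemma pair_zr {m0 : ℕ} [NeZero m0] (hm0 : ∏ i : Ix S, nn S i = m0)
    (E : (∀ i, ZMod (nn S i)) ≃+* ZMod m0) {i j : Ix S} (hi4 : (i : ℕ) % 4 = 1)
    (hj4 : (j : ℕ).Prime ∧ (j : ℕ) % 4 = 3) {A : Finset ℕ}
    (hA : ({i, j} : Finset (Ix S)).map (Function.Embedding.subtype _) = A) :
    Zr (cyc (nn S)) {i, j} (fun x => half (cls A (E (emb x)))) := by
  classical
  have hij : i ≠ j := by rintro rfl; omega
  have hi4' : (i : ℕ) ≠ 4 := by omega
  have hj4' : (j : ℕ) ≠ 4 := by omega
  have hiA : (i : ℕ) ∈ A := by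
    rw [← hA, mem_map]; exact ⟨i, mem_insert_self _ _, rfl⟩
  have hjA : (j : ℕ) ∈ A := by
    rw [← hA, mem_map]; exact ⟨j, mem_insert_of_mem (mem_singleton_self _), rfl⟩
  have h4A : 4 ∉ A := by
    rw [← hA, mem_map]
    rintro ⟨k, hk, hk4⟩
    rw [mem_insert, mem_singleton] at hk
    rcases hk with rfl | rfl
    · exact hi4' hk4
    · exact hj4' hk4
  have hs : ∀ k : Ix S, ∑ u : (cyc (nn S)).G k, vq k (some u) = 0 := by
    intro k
    have h1 := sum_qch (k := nn S k) (hS k k.2)
    have h2 : ∑ u : (cyc (nn S)).G k, vq k (some u) =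
        ((∑ u : (ZMod (nn S k))ˣ, ((qch (nn S k) u : ℤˣ) : ℤ) : ℤ) : ℚ) := by
      rw [Int.cast_sum]
      rfl
    rw [h2, h1, Int.cast_zero]
  refine ⟨fun x => 1 / 2 * (vq i (x i) * vq j (x j)), ?_, ?_, ?_⟩
  · intro k hk x _ hx
    have hzero : ∀ b : (cyc (nn S)).GG, (1 / 2 : ℚ) * (vq i ((cyc (nn S)).act b x i) *
        vq j ((cyc (nn S)).act b x j)) = 0 := by
      intro b
      rw [vq_act, vq_act]
      rw [mem_insert, mem_singleton] at hk
      rcases hk with rfl | rfl
      · rw [hx]; change 1 / 2 * (_ * 0 * _) = (0 : ℚ); ring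
      · rw [hx]; change 1 / 2 * (_ * (_ * 0)) = (0 : ℚ); ring
    beta_reduce
    rw [hzero, hzero, sub_zero]
    rw [mem_insert, mem_singleton] at hk
    rcases hk with rfl | rfl
    · have h1 : ∀ u : (cyc (nn S)).G k, (1 / 2 : ℚ) * (vq k (Function.update x k (some u) k) *
          vq j (Function.update x k (some u) j)) = vq k (some u) * (1 / 2 * vq j (x j)) := by
        intro u
        rw [Function.update_self, Function.update_of_ne hij.symm]
        ring
      rw [sum_congr rfl fun u _ => h1 u, ← sum_mul, hs, zero_mul]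
    · have h1 : ∀ u : (cyc (nn S)).G k, (1 / 2 : ℚ) * (vq i (Function.update x k (some u) i) *
          vq k (Function.update x k (some u) k)) = vq k (some u) * (1 / 2 * vq i (x i)) := by
        intro u
        rw [Function.update_self, Function.update_of_ne hij]
        ring
      rw [sum_congr rfl fun u _ => h1 u, ← sum_mul, hs, zero_mul]
  · intro x _
    beta_reduce
    rw [vq_act, vq_act, qq_c_eq_one hS hi4, qq_c_eq_neg_one hS (Or.inl hj4)]
    push_cast
    ring
  · intro x hx
    beta_reduce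
    rcases vq_cases i (x i) with ⟨h1, h2⟩ | ⟨h1, h2⟩
    · rw [h2, cls_none hS hm0 E hiA hi4' h1]
      simp
    rcases vq_cases j (x j) with ⟨h3, h4⟩ | ⟨h3, h4⟩
    · rw [h4, cls_none hS hm0 E hjA hj4' h3]
      simp
    rw [cls_full hS E hA h4A hx, half_one]
    · have e1 : ((-(1 / 2 : ℚ) : ℚ) : AddCircle (1 : ℚ)) = ((1 / 2 : ℚ) : AddCircle (1 : ℚ)) := by
        have e2 : ((1 / 2 : ℚ) : AddCircle (1 : ℚ)) - ((-(1 / 2 : ℚ) : ℚ) : AddCircle (1 : ℚ)) = 0 := by
          rw [← AddCircle.coe_sub]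
          have := circ_int 1
          norm_num at this ⊢
        exact (sub_eq_zero.mp e2).symm
      rcases h2 with h2 | h2 <;> rcases h4 with h4 | h4 <;> rw [h2, h4]
      · norm_num
      · rw [show (1 / 2 * (1 * -1) : ℚ) = -(1 / 2) by norm_num]; exact e1
      · rw [show (1 / 2 * (-1 * 1) : ℚ) = -(1 / 2) by norm_num]; exact e1
      · norm_num
    · intro k hk
      rw [mem_insert, mem_singleton] at hk
      rcases hk with rfl | rfl
      · exact h1
      · exact h3

/-- The three classes lift on the points supported in at most two primes. -/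
theorem cls_zr {m0 : ℕ} [NeZero m0] (hm0 : ∏ i : Ix S, nn S i = m0)
    (E : (∀ i, ZMod (nn S i)) ≃+* ZMod m0) {A : Finset ℕ} (hA : ThreeSets A)
    {T : Finset (Ix S)} (hT : T.card ≤ 2) : Zr (cyc (nn S)) T (fun x => half (cls A (E (emb x)))) := by
  classical
  have hprime : ∀ p ∈ A, p.Prime := by
    intro p hp
    rcases hA with rfl | rfl | rfl <;> simp only [mem_insert, mem_singleton] at hp <;>
      rcases hp with rfl | hp <;> try norm_num
    · rcases hp with rfl | rfl <;> norm_num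
    · subst hp; norm_num
    · subst hp; norm_num
  by_cases hsub : A ⊆ T.map (Function.Embedding.subtype _)
  · have hA2 : 2 ≤ A.card := by rcases hA with rfl | rfl | rfl <;> decide
    have hTc : (T.map (Function.Embedding.subtype _)).card ≤ 2 := by rw [card_map]; exact hT
    have hAT : T.map (Function.Embedding.subtype _) = A :=
      (eq_of_subset_of_card_le hsub (hTc.trans hA2)).symm
    have key : ∀ (a b : ℕ), a % 4 = 1 → b.Prime ∧ b % 4 = 3 → A = {a, b} →
        Zr (cyc (nn S)) T (fun x => half (cls A (E (emb x)))) := by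
      intro a b ha hb hab
      have haT : a ∈ T.map (Function.Embedding.subtype _) := by
        rw [hAT, hab]; exact mem_insert_self _ _
      have hbT : b ∈ T.map (Function.Embedding.subtype _) := by
        rw [hAT, hab]; exact mem_insert_of_mem (mem_singleton_self _)
      rw [mem_map] at haT hbT
      obtain ⟨i, hi, hi'⟩ := haT
      obtain ⟨j, hj, hj'⟩ := hbT
      have hi'' : (i : ℕ) = a := hi'
      have hj'' : (j : ℕ) = b := hj'
      have hTij : T = {i, j} := by
        apply map_injective (Function.Embedding.subtype (· ∈ S))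
        rw [hAT, hab]
        ext z
        rw [mem_map, mem_insert, mem_singleton]
        constructor
        · rintro (rfl | rfl)
          · exact ⟨i, mem_insert_self _ _, hi'⟩
          · exact ⟨j, mem_insert_of_mem (mem_singleton_self _), hj'⟩
        · rintro ⟨w, hw, rfl⟩
          rw [mem_insert, mem_singleton] at hw
          rcases hw with rfl | rfl
          · left; exact hi'
          · right; exact hj'
      rw [hTij]
      refine pair_zr hS hm0 E (by rw [hi'']; exact ha) (by rw [hj'']; exact hb) ?_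
      rw [← hTij]; exact hAT
    rcases hA with rfl | h | h
    · exfalso
      have h1 := card_le_card hsub
      have h2 : ({3, 5, 7} : Finset ℕ).card = 3 := by decide
      omega
    · exact key 5 3 (by norm_num) (by norm_num) (by rw [h]; decide)
    · exact key 5 7 (by norm_num) (by norm_num) h
  · obtain ⟨p, hp, hp'⟩ := not_subset.mp hsub
    apply Zr.zero
    intro x hx
    rw [cls_supp hm0 E (hprime p hp) hp ?_ hx, map_zero]
    intro i hi hpi
    apply hp'
    rw [mem_map]
    refine ⟨i, hi, ?_⟩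
    change (i : ℕ) = p
    have h' : p ∣ (i : ℕ) := hpi
    rcases hS i i.2 with h2 | h2
    · exact ((Nat.prime_dvd_prime_iff_eq (hprime p hp) h2.1).mp h').symm
    · exfalso
      rw [h2] at h'
      have h3 : p ∣ 2 ^ 2 := h'
      have h4 := (Nat.prime_dvd_prime_iff_eq (hprime p hp) Nat.prime_two).mp
        ((hprime p hp).dvd_of_dvd_pow h3)
      subst h4
      rcases hA with rfl | rfl | rfl <;> exact absurd hp (by decide)

end pair

end Pool.Agent.LB
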