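import Pool.Agent.LB.EvDefs
import Pool.Agent.LB.W1f
import Pool.Agent.LB.W3b

/-!
The statements on pairs and on the classes of the three sets in terms of `phiO`.
-/

set_option linter.unusedSectionVars false

namespace Pool.Agent.LB

open Finset Pool.Agent.H916R2 Pool.Agent.N992 Pool.Agent.N993

lemma phiO_eq_cls {A : Finset ℕ} (hA2 : 2 ∉ A) {m : ℕ} [NeZero m] (a : ZMod m) :
    phiO A m a = cls A a := by
  unfold phiO cls
  by_cases h : (addOrderOf a).primeFactors = A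
  · rw [if_pos h, if_pos]
    refine ⟨?_, h⟩
    by_contra h1
    have h2 : 2 ∣ addOrderOf a := by omega
    apply hA2
    rw [← h]
    exact Nat.mem_primeFactors.mpr ⟨Nat.prime_two, h2, (addOrderOf_pos a).ne'⟩
  · rw [if_neg h, if_neg (fun h1 => h h1.2)]

/-- (W2) The pairs. -/
theorem pairs_zr' (hmod : ModEven29) {S : Finset ℕ} (hS : ∀ x ∈ S, (x.Prime ∧ x % 2 = 1) ∨ x = 4)
    (hS31 : ∀ x ∈ S, x ≤ 31) [∀ i : Ix S, NeZero (nn S i)] :
    ∃ L2 : ℕ, L2 ≠ 0 ∧ ∀ (L N m0 : ℕ) [NeZero N] [NeZero m0], ∏ i : Ix S, nn S i = m0 → L2 ∣ L →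
      L * m0 = N → ∀ (E : (∀ i, ZMod (nn S i)) ≃+* ZMod m0) (c : ZMod N → AddCircle (1 : ℚ)),
      OddDist c → (∀ s, FourBase N s → (s.map c).sum = 0) →
      ∃ ε : ZMod 2, ∀ T : Finset (Ix S), T.card = 2 →
        Zr (cyc (nn S)) T (fun x => c (iota L (E (emb x))) - half (ε * phiO {29} m0 (E (emb x)))) := by
  obtain ⟨L2, h0, h⟩ := pairs_zr hmod hS hS31
  refine ⟨L2, h0, ?_⟩
  intro L N m0 _ _ h1 h2 h3 E c hc hk
  obtain ⟨ε, hε⟩ := h L N m0 h1 h2 h3 E c hc hk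
  refine ⟨ε, fun T hT => ?_⟩
  refine (hε T hT).congr ?_
  intro x _
  rw [phiO_eq_cls (by decide)]

/-- (W3) The three classes do not lift on the points supported in {4, 3, 5, 7}. -/
theorem phiO_not_zr {S : Finset ℕ} (hS : ∀ x ∈ S, (x.Prime ∧ x % 2 = 1) ∨ x = 4)
    [∀ i : Ix S, NeZero (nn S i)] {m0 : ℕ} [NeZero m0] (hm0 : ∏ i : Ix S, nn S i = m0)
    (E : (∀ i, ZMod (nn S i)) ≃+* ZMod m0) {A : Finset ℕ} (hA : ThreeSets A)
    {T : Finset (Ix S)} (hT : T.map (Function.Embedding.subtype _) = {4, 3, 5, 7}) :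
    ¬ Zr (cyc (nn S)) T (fun x => half (phiO A m0 (E (emb x)))) := by
  have hA2 : 2 ∉ A := by rcases hA with rfl | rfl | rfl <;> decide
  intro h
  apply cls_not_zr hS hm0 E hA hT
  refine h.congr ?_
  intro x _
  rw [phiO_eq_cls hA2]

/-- (W3) The three classes lift on the points supported in at most two primes. -/
theorem phiO_zr {S : Finset ℕ} (hS : ∀ x ∈ S, (x.Prime ∧ x % 2 = 1) ∨ x = 4)
    [∀ i : Ix S, NeZero (nn S i)] {m0 : ℕ} [NeZero m0] (hm0 : ∏ i : Ix S, nn S i = m0)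
    (E : (∀ i, ZMod (nn S i)) ≃+* ZMod m0) {A : Finset ℕ} (hA : ThreeSets A)
    {T : Finset (Ix S)} (hT : T.card ≤ 2) :
    Zr (cyc (nn S)) T (fun x => half (phiO A m0 (E (emb x)))) := by
  have hA2 : 2 ∉ A := by rcases hA with rfl | rfl | rfl <;> decide
  refine (cls_zr hS hm0 E hA hT).congr ?_
  intro x _
  rw [phiO_eq_cls hA2]

end Pool.Agent.LB
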