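import Pool.Agent.LB.WMod
import Pool.Agent.LB.W4

/-!
The class of 29 kills the modular characters.
-/

namespace Pool.Agent.LB

theorem modEven29 : ModEven29 := fun _ _ _ hs => modular_even hs (p := 29) (by norm_num) (by norm_num)

end Pool.Agent.LB
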