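import Pool.Agent.LB.EvLarge
import Pool.Agent.LB.W5
import Pool.Agent.LB.Cov

/-!
The theorem for all degrees in dimension at most seven, and for the covered pairs.
-/

namespace Pool.Agent.LB

open Finset Pool.Agent.N993 Pool.Agent.H916R2 Pool.Agent.N992

/-- The Hodge characters with at most nine entries, every degree. -/
theorem dimSeven (m : ℕ) [NeZero m] :
    ∃ l : ℕ, ∃ _ : NeZero (l * m), ∀ s : Multiset (ZMod m), IsHodge m s → s ≠ 0 →
      Multiset.card s ≤ 9 →
      Generated (l * m) (FourBase (l * m)) (s.map fun a => ((l * a.val : ℕ) : ZMod (l * m))) := by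
  obtain ⟨l, hl, h⟩ := final8 (large modEven29) m
  refine ⟨l, hl, fun s hs hne hc => h s hs hne ?_⟩
  obtain ⟨c, hc'⟩ := hs.2.1
  omega

/-- All degrees in dimension at most seven, and the covered pairs. -/
theorem lengthBound7 (m n : ℕ) [NeZero m] (h : n ≤ 7 ∨ Covered m n) :
    ∃ l : ℕ, ∃ _ : NeZero (l * m), ∀ s : Multiset (ZMod m), IsHodge m s → s ≠ 0 →
      Multiset.card s ≤ n + 2 →
      Generated (l * m) (FourBase (l * m)) (s.map fun a => ((l * a.val : ℕ) : ZMod (l * m))) := by
  rcases h with h | h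
  · obtain ⟨l, hl, hgen⟩ := dimSeven m
    exact ⟨l, hl, fun s hs hne hc => hgen s hs hne (by omega)⟩
  · exact lengthBound3 m n h

end Pool.Agent.LB
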