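import Pool.Agent.LB.Cond4
import Pool.Agent.LB.EvFin

/-!
The length bound for the degrees divisible by 4.
-/

set_option linter.unusedSectionVars false

namespace Pool.Agent.LB

open Finset Pool.Agent.N993 Pool.Agent.H916R2 Pool.Agent.N992

section

variable {m : ℕ} [NeZero m] {S : Finset ℕ} [hnz : ∀ i : Ix S, NeZero (nn S i)]
  {k0 m0 : ℕ} [NeZero m0]

lemma opf_prop {d : ℕ} (hd : d ∣ m) : ∀ p ∈ opf d, p.Prime ∧ p ≠ 2 ∧ p ∣ m := by
  intro p hp
  unfold opf at hp
  rw [mem_erase] at hp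
  exact ⟨Nat.prime_of_mem_primeFactors hp.2, hp.1, (Nat.dvd_of_mem_primeFactors hp.2).trans hd⟩

/-- the general avoidance statement -/
theorem ex_gen (h8 : 8 ∣ m) (hS : S = insert 4 (m.primeFactors.erase 2))
    (hm0 : ∏ i, nn S i = m0) (hk : k0 * m0 = m) (E : (∀ i, ZMod (nn S i)) ≃+* ZMod m0)
    {r : ℕ} (hr : LenCond4 m r) {s : Multiset (ZMod m)} (hs : Multiset.card s ≤ r)
    {T : Finset (Ix S)} (hT : 4 ≤ T.card ∨ (T.card = 2 ∧ Exc (nat' T))) :
    Ex m S k0 E s T := by
  classical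
  have hne : T.Nonempty := card_pos.mp (by rcases hT with h | h <;> omega)
  obtain ⟨γ, hγ, hγn, F, hF1, hF2, hF3⟩ := exists_fam h8 hS hm0 hk E hne
  have hC : 0 < Fintype.card γ := Fintype.card_pos
  obtain ⟨g, hg⟩ : ∃ g, ∀ a ∈ s, F g a = 0 := by
    apply fam_avoid
    have h1 : ∀ a ∈ s, r * bd F a + 1 ≤ Fintype.card γ := by
      intro a _
      have h2 := prb_lt4 hr (T := nat' T) (opf_prop (order_dvd a)) (by rw [nat'_card]; exact hT)
        (lev2 (addOrderOf a))
      have h3 := bd_lt (F := F) (a := a) (c := r) (w := 1) (hF3 a) (by rw [one_mul]; exact h2) hC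
      omega
    have h2 : (s.map (fun a => r * bd F a + 1)).sum ≤ Multiset.card s * Fintype.card γ := by
      calc (s.map (fun a => r * bd F a + 1)).sum ≤ (s.map (fun _ => Fintype.card γ)).sum :=
            Multiset.sum_map_le_sum_map _ _ h1
        _ = _ := by rw [Multiset.map_const', Multiset.sum_replicate, smul_eq_mul]
    rw [Multiset.sum_map_add, Multiset.sum_map_mul_left, Multiset.map_const', Multiset.sum_replicate,
      smul_eq_mul, mul_one] at h2
    by_cases h6 : Multiset.card s = 0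
    · rw [Multiset.card_eq_zero] at h6
      rw [h6, Multiset.map_zero, Multiset.sum_zero]
      exact hC
    · by_contra h7
      push Not at h7
      have h8' : r * Fintype.card γ ≤ r * (s.map (bd F)).sum := Nat.mul_le_mul_left _ h7
      have h9 : Multiset.card s * Fintype.card γ ≤ r * Fintype.card γ := Nat.mul_le_mul_right _ hs
      omega
  exact ⟨F g, hF1 g, hF2 g, sum_zero_of_avoid hg⟩

end

/-- The kill statement for the degrees divisible by 8. -/
theorem main_even {m : ℕ} [NeZero m] (h8 : 8 ∣ m) {r : ℕ} (hr : LenCond4 m r) :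
    ∃ L : ℕ, L ≠ 0 ∧ ∀ s : Multiset (ZMod m), Multiset.card s ≤ r →
      Rel (fun a : ZMod m => ((s.count a : ℕ) : ℤ)) → ∀ (κ N : ℕ) [NeZero N], κ * (L * m) = N →
      ∀ (Q : Type) [AddCommGroup Q] (c : ZMod N → Q), OddDist c →
      (∀ s, FourBase N s → (s.map c).sum = 0) →
      (s.map (fun a => c (iota (κ * L) a))).sum = 0 := by
  classical
  have hm : m ≠ 0 := NeZero.ne m
  obtain ⟨S, hS⟩ : ∃ S : Finset ℕ, S = insert 4 (m.primeFactors.erase 2) := ⟨_, rfl⟩
  have hmem : ∀ x ∈ S, x ≠ 4 → x.Prime ∧ x % 2 = 1 ∧ x ∣ m := by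
    intro x hx hi
    rw [hS, mem_insert] at hx
    have h2 := hx.resolve_left hi
    rw [mem_erase] at h2
    have h3 := Nat.prime_of_mem_primeFactors h2.2
    exact ⟨h3, (h3.eq_two_or_odd).resolve_left h2.1, Nat.dvd_of_mem_primeFactors h2.2⟩
  have hSx : ∀ x ∈ S, (x.Prime ∧ x % 2 = 1) ∨ x = 4 := by
    intro x hx
    by_cases h : x = 4
    · exact Or.inr h
    · exact Or.inl ⟨(hmem x hx h).1, (hmem x hx h).2.1⟩
  have hnz : ∀ i : Ix S, NeZero (nn S i) := fun i =>
    ⟨by have := one_lt_of (hSx i i.2); change (i : ℕ) ≠ 0; omega⟩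
  have hn' : Adm' (nn S) := fun i => hSx i i.2
  have hco : Pairwise (fun i j : Ix S => (nn S i).Coprime (nn S j)) := fun i j hij =>
    coprime_of (hSx i i.2) (hSx j j.2) (fun h => hij (Subtype.ext h))
  obtain ⟨m0, hm0⟩ : ∃ m0, ∏ i : Ix S, nn S i = m0 := ⟨_, rfl⟩
  have hm00 : m0 ≠ 0 := by
    rw [← hm0]; exact prod_ne_zero_iff.mpr fun i _ => (hnz i).out
  have hNZ0 : NeZero m0 := ⟨hm00⟩
  have hm0S : m0 = ∏ x ∈ S, x := by
    rw [← hm0]
    exact Finset.prod_coe_sort S (fun x => x)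
  have hdvd : m0 ∣ m := by
    rw [hm0S]
    apply Finset.prod_dvd_of_isRelPrime
    · intro a ha b hb hab
      exact Nat.coprime_iff_isRelPrime.mp (coprime_of (hSx a ha) (hSx b hb) hab)
    · intro x hx
      by_cases h : x = 4
      · rw [h]; exact dvd_trans (by norm_num) h8
      · exact (hmem x hx h).2.2
  obtain ⟨k0, hk0⟩ := hdvd
  have hk : k0 * m0 = m := (mul_comm _ _).trans hk0.symm
  have h4m0 : 4 ∣ m0 := by
    rw [hm0S]
    exact dvd_prod_of_mem (fun x => x) (by rw [hS]; exact mem_insert_self _ _)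
  have hpm : ∀ p, p.Prime → p ∣ m → p ∣ m0 := by
    intro p hp hpm
    by_cases h2 : p = 2
    · rw [h2]; exact dvd_trans (by norm_num) h4m0
    · rw [hm0S]
      exact dvd_prod_of_mem (fun x => x) (by
        rw [hS]
        exact mem_insert_of_mem (mem_erase.mpr ⟨h2, Nat.mem_primeFactors.mpr ⟨hp, hpm, hm⟩⟩))
  have hred : Red m m0 k0 := red_exists _ m m0 k0 rfl hk hpm (fun _ => h4m0)
  let E : (∀ i, ZMod (nn S i)) ≃+* ZMod m0 := by
    subst hm0
    exact (ZMod.prodEquivPi (nn S) hco).symm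
  -- the multipliers
  let l : Finset ℕ → ℕ := fun T => if h : Good T then h.choose else 1
  have hl0 : ∀ T, l T ≠ 0 := by
    intro T
    by_cases h : Good T
    · simp only [l, dif_pos h]; exact h.choose_spec.1
    · simp only [l, dif_neg h]; exact one_ne_zero
  have hl : ∀ T, Good T → ∀ (k N mT : ℕ) [NeZero N] [NeZero mT], ∏ x ∈ T, x = mT →
      k * (l T * mT) = N → ∀ (Q : Type) [AddCommGroup Q] (c : ZMod N → Q), OddDist c →
      (∀ s, FourBase N s → (s.map c).sum = 0) →
      ∀ x : ZMod mT → ℤ, Rel x → ∑ b, x b • c (iota (k * l T) b) = 0 := by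
    intro T h
    simp only [l, dif_pos h]
    exact h.choose_spec.2
  obtain ⟨L, hL⟩ : ∃ L : ℕ, L = ∏ T ∈ S.powerset, l T := ⟨_, rfl⟩
  have hL0 : L ≠ 0 := by rw [hL]; exact prod_ne_zero_iff.mpr fun T _ => hl0 T
  refine ⟨L, hL0, ?_⟩
  intro s hcard hs κ N _ hN Q _ c hc hkill
  have hκN : κ * L * m = N := by rw [← hN]; ring
  have hκN0 : κ * L * k0 * m0 = N := by rw [mul_assoc, hk, hκN]
  refine CharacterModule.eq_zero_of_character_apply fun φ0 => ?_
  let φ : Q →+ AddCircle (1 : ℚ) := φ0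
  change φ _ = 0
  have hc1D : OddDist (fun b : ZMod m0 => c (iota (κ * L * k0) b)) := hc.comp_iota hκN0
  set g : ZMod m → AddCircle (1 : ℚ) := fun a => φ (c (iota (κ * L) a)) with hg
  have hgD : OddDist g := Pool.Agent.N998.oddDist_map (hc.comp_iota hκN) φ
  have hge : (fun x : (cyc (nn S)).Pt => g (iota k0 (E (emb x)))) =
      fun x => φ (c (iota (κ * L * k0) (E (emb x)))) := by
    funext x
    rw [hg]
    beta_reduce
    rw [iota_comp hκN]
  have hgood : ∀ T : Finset (Ix S), Good (nat' T) →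
      Zr (cyc (nn S)) T (fun x => g (iota k0 (E (emb x)))) := by
    intro T hT
    rw [hge]
    refine zr_of_kills hn' hco hm0 E (c := fun b : ZMod m0 => c (iota (κ * L * k0) b)) T ?_ φ
    intro mT lT _ hmT hlT x hx
    obtain ⟨e, he⟩ : l (nat' T) ∣ L := by
      rw [hL]
      exact dvd_prod_of_mem l (mem_powerset.mpr (nat'_sub T))
    have hprod : ∏ x ∈ nat' T, x = mT := by
      rw [← hmT]; unfold nat'; rw [prod_map]; rfl
    have h1 := hl _ hT (κ * e * k0 * lT) N mT hprod (by rw [← hκN0, ← hlT, he]; ring) Q c hc hkill x hx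
    have h2 : κ * e * k0 * lT * l (nat' T) = κ * L * k0 * lT := by rw [he]; ring
    rw [h2] at h1
    rw [← h1]
    refine sum_congr rfl fun b _ => ?_
    rw [iota_comp hκN0]
  have hzero : (s.map g).sum = 0 := by
    refine sum_zero_of_fam hSx hm0 hk hred E hs hgD ?_
    intro T he hne hz
    refine ex_gen h8 hS hm0 hk E hr hcard ?_
    by_cases h4 : 4 ≤ T.card
    · exact Or.inl h4
    · right
      have h2 : T.card = 2 := by
        have h5 : 0 < T.card := card_pos.mpr hne
        obtain ⟨r, hr⟩ := he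
        omega
      refine ⟨h2, exc_of_not_good (fun x hx => hSx x (nat'_sub T hx)) (by rw [nat'_card]; exact h2)
        (fun h => hz (hgood T h))⟩
  rw [map_multiset_sum, Multiset.map_map]
  exact hzero

/-- The theorem for the degrees satisfying `LenCond4`. -/
theorem lengthBoundEven (m r : ℕ) [NeZero m] (h : LenCond4 m r) :
    ∃ l : ℕ, ∃ _ : NeZero (l * m), ∀ s : Multiset (ZMod m), IsHodge m s → s ≠ 0 →
      Multiset.card s ≤ r →
      Generated (l * m) (FourBase (l * m)) (s.map fun a => ((l * a.val : ℕ) : ZMod (l * m))) := by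
  classical
  have hNZ8 : NeZero (8 * m) := ⟨mul_ne_zero (by norm_num) (NeZero.ne m)⟩
  have h' : LenCond4 (8 * m) r := by
    intro P hP
    refine h P fun p hp => ⟨(hP p hp).1, (hP p hp).2.1, ?_⟩
    rcases (Nat.Prime.dvd_mul (hP p hp).1).mp (hP p hp).2.2 with h1 | h1
    · exfalso
      have h2 : p ∣ 2 ^ 3 := h1
      exact (hP p hp).2.1 ((Nat.prime_dvd_prime_iff_eq (hP p hp).1 Nat.prime_two).mp
        ((hP p hp).1.dvd_of_dvd_pow h2))
    · exact h1
  obtain ⟨L, hL0, hL⟩ := main_even (m := 8 * m) (dvd_mul_right 8 m) h'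
  have hNZ : NeZero (L * 8 * m) := ⟨mul_ne_zero (mul_ne_zero hL0 (by norm_num)) (NeZero.ne m)⟩
  refine ⟨L * 8, hNZ, fun s hs hne hc => ?_⟩
  apply generated_of_kill hs hne
  intro Q _ c hcO hkb
  have h1 := hL (s.map (iota 8 : ZMod m → ZMod (8 * m))) (by rw [Multiset.card_map]; exact hc)
    (hs.iota rfl).rel 1 (L * 8 * m) (by ring) Q c hcO hkb
  rw [Multiset.map_map] at h1
  rw [← h1]
  congr 1
  apply Multiset.map_congr rfl
  intro a _
  simp only [Function.comp_apply]
  rw [iota_comp (by ring), one_mul]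

/-- All degrees in dimension at most 7, degrees prime to 3 in dimension at most 11, and the general
numerical conditions. -/
theorem lengthBound8 (m n : ℕ) [NeZero m] (h : n ≤ 7 ∨ Covered m n ∨ (n ≤ 11 ∧ ¬ 3 ∣ m) ∨
    (∀ p : ℕ, p.Prime → p ≠ 2 → p ∣ m → 2 * n + 5 < p) ∨ LenCond4 m (n + 2)) :
    ∃ l : ℕ, ∃ _ : NeZero (l * m), ∀ s : Multiset (ZMod m), IsHodge m s → s ≠ 0 →
      Multiset.card s ≤ n + 2 →
      Generated (l * m) (FourBase (l * m)) (s.map fun a => ((l * a.val : ℕ) : ZMod (l * m))) := by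
  rcases h with h | h | ⟨h, h3⟩ | h | h
  · exact lengthBound7 m n (Or.inl h)
  · exact lengthBound7 m n (Or.inr h)
  · exact lengthBoundEven m (n + 2) (lenCond4_13 h3 (by omega))
  · exact lengthBoundEven m (n + 2) (lenCond4_large fun p hp hp2 hpm => by
      have := h p hp hp2 hpm; omega)
  · exact lengthBoundEven m (n + 2) h

end Pool.Agent.LB
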