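import Pool.Agent.LB.HH

/-!
The distributions modulo 2 attached to the sets of indices, and the number of points at which they do
not vanish.
-/

set_option linter.unusedSectionVars false

namespace Pool.Agent.LB

open Finset Pool.Agent.N993

/-- the numerical inequality -/
def NumIneq : Prop := ∀ s k : ℕ, ∑ i ∈ range k, k.choose i * (2 ^ i * (s + 1).ascFactorial i) +
  ∑ i ∈ range (k + 1), k.choose i * (2 ^ i * s.ascFactorial i) ≤ 2 ^ k * (s + 1).ascFactorial k

variable {ι : Type} [DecidableEq ι] [Fintype ι] {D : Dat ι}

lemma cnt_congr {F G : D.Pt → ZMod 2} {P : Finset ι} (h : ∀ x : D.Pt, spt D x = P → F x = G x) :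
    cnt D F P = cnt D G P := by
  unfold cnt
  congr 1
  ext x
  simp only [mem_filter, mem_univ, true_and]
  constructor
  · rintro ⟨h1, h2⟩; exact ⟨h1, by rwa [← h x h1]⟩
  · rintro ⟨h1, h2⟩; exact ⟨h1, by rwa [h x h1]⟩

/-- the sum of a nonnegative function over the nonempty subsets of an insert -/
lemma sum_nes_insert' {M : Finset ι} {i : ι} (hi : i ∉ M) (F : Finset ι → ℕ) :
    ∑ ε ∈ nes (insert i M), F ε = ∑ ε ∈ nes M, F ε + ∑ ε ∈ M.powerset, F (insert i ε) := by
  have h1 : nes (insert i M) = nes M ∪ M.powerset.image (insert i) := by
    ext ε
    rw [mem_nes, mem_union, mem_nes, mem_image]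
    constructor
    · rintro ⟨h1, h2⟩
      by_cases hiε : i ∈ ε
      · right
        refine ⟨ε.erase i, ?_, insert_erase hiε⟩
        rw [mem_powerset]
        intro j hj
        rcases mem_insert.mp (h1 (mem_of_mem_erase hj)) with h | h
        · exact absurd h (ne_of_mem_erase hj)
        · exact h
      · left
        refine ⟨fun j hj => ?_, h2⟩
        rcases mem_insert.mp (h1 hj) with h | h
        · subst h; exact absurd hj hiε
        · exact h
    · rintro (⟨h1, h2⟩ | ⟨ε', h1, rfl⟩)
      · exact ⟨h1.trans (subset_insert _ _), h2⟩
      · rw [mem_powerset] at h1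
        exact ⟨insert_subset_insert _ h1, (insert_nonempty _ _).ne_empty⟩
  have hdisj : Disjoint (nes M) (M.powerset.image (insert i)) := by
    rw [disjoint_left]
    intro ε h1 h2
    obtain ⟨ε', _, rfl⟩ := mem_image.mp h2
    exact hi ((mem_nes.mp h1).1 (mem_insert_self _ _))
  rw [h1, sum_union hdisj, sum_image]
  intro a ha b hb hab
  rw [coe_powerset] at ha hb
  have ha' : i ∉ a := fun h => hi (ha h)
  have hb' : i ∉ b := fun h => hi (hb h)
  have : (insert i a).erase i = (insert i b).erase i := by
    rw [show insert i a = insert i b from hab]
  rwa [erase_insert ha', erase_insert hb'] at this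

lemma sum_powerset_sub (M : Finset ι) (g : ℕ → ℕ) :
    ∑ ε ∈ M.powerset, g (M.card - ε.card) = ∑ i ∈ range (M.card + 1), M.card.choose i * g i := by
  rw [sum_powerset_apply_card (fun j => g (M.card - j)) (x := M)]
  rw [← sum_range_reflect]
  refine sum_congr rfl fun i hi => ?_
  rw [mem_range] at hi
  have e1 : M.card + 1 - 1 - i = M.card - i := by omega
  rw [e1, smul_eq_mul, Nat.choose_symm (by omega), Nat.sub_sub_self (by omega)]

lemma sum_nes_sub (M : Finset ι) (g : ℕ → ℕ) :
    ∑ ε ∈ nes M, g (M.card - ε.card) = ∑ i ∈ range M.card, M.card.choose i * g i := by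
  have h1 := sum_powerset_sub M g
  have h2 : ∑ ε ∈ M.powerset, g (M.card - ε.card) = g M.card + ∑ ε ∈ nes M, g (M.card - ε.card) := by
    unfold nes
    rw [← sum_filter_add_sum_filter_not M.powerset (fun ε => ε ≠ ∅), add_comm]
    congr 1
    rw [sum_eq_single ∅]
    · rw [card_empty, Nat.sub_zero]
    · intro b hb hne
      rw [mem_filter] at hb
      exact absurd hne hb.2
    · intro h
      exfalso; apply h
      rw [mem_filter, mem_powerset]
      exact ⟨empty_subset _, by simp⟩
  rw [h2, sum_range_succ, Nat.choose_self, one_mul, add_comm] at h1
  exact Nat.add_right_cancel h1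

/-- The bound for the half distribution. -/
theorem cnt_HH_le (hnum : NumIneq) {T' : Finset ι} {p : ι} (hp : p ∉ T') {B : D.Pt → ZMod 2}
    (hB : ∀ P, T' ⊆ P → cnt D B P ≤ 2 ^ P.card * T'.card.ascFactorial (P.card - T'.card)) :
    ∀ (n : ℕ) (P : Finset ι), P.card ≤ n → insert p T' ⊆ P →
      cnt D (HH D T' p B) P ≤ 2 ^ (P.card - 1) *
        (T'.card + 1).ascFactorial (P.card - (T'.card + 1)) := by
  intro n
  induction n with
  | zero =>
    intro P h0 hP
    have h1 := card_le_card hP
    rw [card_insert_of_notMem hp] at h1
    omega
  | succ n ih =>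
    intro P hn hP
    have hpP : p ∈ P := hP (mem_insert_self _ _)
    have hTP : T' ⊆ P := fun i hi => hP (mem_insert_of_mem hi)
    set M := P \ insert p T' with hM
    have hpM : p ∉ M := fun h => (mem_sdiff.mp h).2 (mem_insert_self _ _)
    have hPM : P \ T' = insert p M := by
      ext i
      rw [mem_sdiff, mem_insert, hM, mem_sdiff, mem_insert, not_or]
      constructor
      · rintro ⟨h1, h2⟩
        by_cases h : i = p
        · left; exact h
        · right; exact ⟨h1, h, h2⟩
      · rintro (rfl | ⟨h1, _, h2⟩)
        · exact ⟨hpP, hp⟩
        · exact ⟨h1, h2⟩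
    have hcard : P.card = T'.card + 1 + M.card := by
      rw [hM, card_sdiff_of_subset hP, card_insert_of_notMem hp]
      have h1 := card_le_card hP
      rw [card_insert_of_notMem hp] at h1
      omega
    set t := T'.card with ht
    set k := M.card with hk
    have e0 : P.card - 1 = t + k := by omega
    have e0' : P.card - (t + 1) = k := by omega
    rw [e0, e0']
    refine (cnt_HH T' p B hpP).trans ?_
    rw [hPM, sum_nes_insert' hpM]
    have b1 : ∀ ε ∈ nes M, cnt D (HH D T' p B) (P \ ε) ≤
        2 ^ t * (2 ^ (k - ε.card) * (t + 1).ascFactorial (k - ε.card)) := by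
      intro ε hε
      obtain ⟨hεM, hεne⟩ := mem_nes.mp hε
      have hεP : ε ⊆ P := hεM.trans sdiff_subset
      have hεk : ε.card ≤ k := card_le_card hεM
      have hε1 : 1 ≤ ε.card := card_pos.mpr (nonempty_iff_ne_empty.mpr hεne)
      have hc : (P \ ε).card = P.card - ε.card := card_sdiff_of_subset hεP
      have h2 := ih (P \ ε) (by omega) (by
        intro i hi
        rw [mem_sdiff]
        exact ⟨hP hi, fun h => (mem_sdiff.mp (hεM h)).2 hi⟩)
      rw [hc] at h2
      have e1 : P.card - ε.card - 1 = t + (k - ε.card) := by omega
      have e2 : P.card - ε.card - (t + 1) = k - ε.card := by omega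
      rw [e1, e2, pow_add] at h2
      rw [← mul_assoc]
      exact h2
    have b2 : ∀ ε ∈ M.powerset, cnt D (HH D T' p B) (P \ insert p ε) ≤
        2 ^ t * (2 ^ (k - ε.card) * t.ascFactorial (k - ε.card)) := by
      intro ε hε
      rw [mem_powerset] at hε
      have hpε : p ∉ ε := fun h => hpM (hε h)
      have hεP : insert p ε ⊆ P := insert_subset hpP (hε.trans sdiff_subset)
      have hεk : ε.card ≤ k := card_le_card hε
      have hc : (P \ insert p ε).card = P.card - (ε.card + 1) := by
        rw [card_sdiff_of_subset hεP, card_insert_of_notMem hpε]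
      have h1 : cnt D (HH D T' p B) (P \ insert p ε) = cnt D B (P \ insert p ε) := by
        apply cnt_congr
        intro x hx
        apply HH_none
        rw [← notMem_spt, hx, mem_sdiff, not_and, not_not]
        exact fun _ => mem_insert_self _ _
      have h2 := hB (P \ insert p ε) (by
        intro i hi
        rw [mem_sdiff, mem_insert, not_or]
        refine ⟨hTP hi, ?_, fun h => (mem_sdiff.mp (hε h)).2 (mem_insert_of_mem hi)⟩
        rintro rfl; exact hp hi)
      rw [h1]
      rw [hc] at h2
      have e1 : P.card - (ε.card + 1) = t + (k - ε.card) := by omega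
      have e2 : P.card - (ε.card + 1) - t = k - ε.card := by omega
      rw [e2, e1, pow_add] at h2
      rw [← mul_assoc]
      exact h2
    refine (Nat.add_le_add (sum_le_sum b1) (sum_le_sum b2)).trans ?_
    rw [← mul_sum, ← mul_sum, ← mul_add, pow_add, mul_assoc]
    apply Nat.mul_le_mul_left
    rw [sum_nes_sub M (fun i => 2 ^ i * (t + 1).ascFactorial i),
      sum_powerset_sub M (fun i => 2 ^ i * t.ascFactorial i)]
    exact hnum t k

lemma one_iff_none_or (a : ZMod 2) : a = 0 ∨ a = 1 := by
  fin_cases a
  · left; rfl
  · right; rfl

/-- The distributions modulo 2. -/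
theorem exists_lam (hnum : NumIneq) (hfree : ∀ i, D.c i ≠ 1) (hβ : ∀ i, D.β i = 1) (T : Finset ι) :
    ∃ lam : D.Pt → ZMod 2, Lam D T 1 lam ∧
      ∀ P, T ⊆ P → cnt D lam P ≤ 2 ^ P.card * T.card.ascFactorial (P.card - T.card) := by
  classical
  induction T using Finset.induction_on with
  | empty =>
    refine ⟨fun x => if spt D x = ∅ then 1 else 0, ⟨?_, ?_, ?_, ?_⟩, ?_⟩
    · intro i _ x _ hx
      beta_reduce
      rw [spt_act2, spt_act2, sub_self]
      apply sum_eq_zero
      intro u _
      rw [if_neg]
      rw [spt_update]
      exact (insert_nonempty _ _).ne_empty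
    · intro x; beta_reduce; rw [spt_act2]
    · rintro x ⟨i, hi, _⟩; exact absurd hi (notMem_empty i)
    · intro x hx
      have h1 : spt D x = ∅ := by
        rw [eq_empty_iff_forall_notMem]
        intro i; rw [notMem_spt]; exact hx i (notMem_empty i)
      rw [if_pos h1, if_pos (fun i hi => absurd hi (notMem_empty i))]
    · intro P _
      by_cases hP : P = ∅
      · subst hP
        rw [card_empty]
        change (univ.filter _).card ≤ 1
        rw [card_le_one]
        intro x hx y hy
        rw [mem_filter] at hx hy
        funext i
        rw [notMem_spt.mp (by rw [hx.2.1]; exact notMem_empty i : i ∉ spt D x),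
          notMem_spt.mp (by rw [hy.2.1]; exact notMem_empty i : i ∉ spt D y)]
      · have : cnt D (fun x => if spt D x = ∅ then (1 : ZMod 2) else 0) P = 0 := by
          unfold cnt
          rw [card_eq_zero, filter_eq_empty_iff]
          intro x _ h
          apply h.2
          beta_reduce
          rw [if_neg]
          rw [h.1]; exact hP
        rw [this]; exact Nat.zero_le _
  | insert p T' hp ih =>
    obtain ⟨B, hB, hBc⟩ := ih
    set H := HH D T' p B with hH
    have hrel := HH_rel hβ hp hB.isD hB.zero
    have hsup : ∀ x : D.Pt, D.Supp univ x := fun x i hi => absurd (mem_univ i) hi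
    have hH0 : ∀ x : D.Pt, (∃ i ∈ T', x i = none) → H x = 0 := fun x hx =>
      HH_zero hB.zero _ x le_rfl hx
    set lam : D.Pt → ZMod 2 := fun x => if x p = none then 0 else H x + H (D.act D.c x) with hlam
    have hlam0 : ∀ x : D.Pt, x p = none → lam x = 0 := fun x hx => if_pos hx
    have hlam1 : ∀ x : D.Pt, x p ≠ none → lam x = H x + H (D.act D.c x) := fun x hx => if_neg hx
    refine ⟨lam, ⟨?_, ?_, ?_, ?_⟩, ?_⟩
    · intro i _ x _ hx
      rw [hβ, Dat.act_one]
      have hc : ∑ u : D.G i, H (D.act D.c (Function.update x i (some u))) =
          ∑ u : D.G i, H (Function.update (D.act D.c x) i (some u)) := by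
        refine Fintype.sum_equiv (Equiv.mulLeft (D.c i)) _ _ (fun u => ?_)
        rw [Dat.act_update_some]; rfl
      by_cases hip : i = p
      · subst hip
        rw [hlam0 x hx, hlam0 _ (Dat.act_eq_none.mpr hx), sub_self]
        have e1 : ∀ u : D.G i, lam (Function.update x i (some u)) =
            H (Function.update x i (some u)) + H (D.act D.c (Function.update x i (some u))) :=
          fun u => hlam1 _ (by rw [Function.update_self]; simp)
        simp only [e1]
        rw [sum_add_distrib, hc, hrel _ x i le_rfl hx,
          hrel _ (D.act D.c x) i le_rfl (Dat.act_eq_none.mpr hx), if_pos rfl, if_pos rfl, hB.inv]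
        exact add_self2 _
      · by_cases hxp : x p = none
        · rw [hlam0 x hxp, hlam0 _ (Dat.act_eq_none.mpr hxp), sub_self]
          apply sum_eq_zero
          intro u _
          exact hlam0 _ (by rw [Function.update_of_ne (Ne.symm hip)]; exact hxp)
        · have e1 : ∀ u : D.G i, lam (Function.update x i (some u)) =
              H (Function.update x i (some u)) + H (D.act D.c (Function.update x i (some u))) :=
            fun u => hlam1 _ (by rw [Function.update_of_ne (Ne.symm hip)]; exact hxp)
          simp only [e1]
          rw [sum_add_distrib, hc, hrel _ x i le_rfl hx,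
            hrel _ (D.act D.c x) i le_rfl (Dat.act_eq_none.mpr hx), if_neg hip, if_neg hip,
            hlam1 x hxp, hlam1 _ (fun h => hxp (Dat.act_eq_none.mp h)), sub_eq_add_neg,
            ZModModule.neg_eq_self, Dat.act_act D.c (D.α i), mul_comm D.c (D.α i),
            ← Dat.act_act (D.α i) D.c]
          ring
    · intro x
      by_cases hxp : x p = none
      · rw [hlam0 x hxp, hlam0 _ (Dat.act_eq_none.mpr hxp)]
      · rw [hlam1 x hxp, hlam1 _ (fun h => hxp (Dat.act_eq_none.mp h)), Dat.act_c_c, add_comm]
    · rintro x ⟨i, hi, hxi⟩
      rcases mem_insert.mp hi with rfl | hi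
      · exact hlam0 x hxi
      · by_cases hxp : x p = none
        · exact hlam0 x hxp
        · rw [hlam1 x hxp, hH0 x ⟨i, hi, hxi⟩, hH0 _ ⟨i, hi, Dat.act_eq_none.mpr hxi⟩, add_zero]
    · intro x hx
      by_cases hxp : x p = none
      · rw [hlam0 x hxp, if_neg]
        intro h
        rcases h p (mem_insert_self _ _) with h | h <;> rw [hxp] at h <;> cases h
      · -- the value of `H`
        have hHv : ∀ y : D.Pt, D.Supp (insert p T') y → y p ≠ none →
            H y = if y p = some 1 then B (Function.update y p none) else 0 := by
          intro y hy hyp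
          rw [hH, HH_some hyp]
          unfold stp
          have h1 : spt D y \ T' = insert p ∅ := by
            ext i
            rw [mem_sdiff, mem_spt2, mem_insert]
            constructor
            · rintro ⟨h1, h2⟩
              left
              by_contra h3
              exact h1 (hy i (by rw [mem_insert, not_or]; exact ⟨h3, h2⟩))
            · rintro (rfl | h)
              · exact ⟨hyp, hp⟩
              · exact absurd h (notMem_empty i)
          have h2 : nes (∅ : Finset ι) = ∅ := by
            unfold nes; rw [powerset_empty, filter_singleton, if_neg (by simp)]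
          rw [h1, sum_nes_insert (notMem_empty p), powerset_empty, sum_singleton, h2, sum_empty,
            zero_add, th_insert_self (notMem_empty p), th_empty, Dat.act_one]
          have h3 : One D (insert p ∅) y ↔ y p = some 1 := by
            unfold One; simp
          have h4 : era D (insert p ∅) y = Function.update y p none := by
            funext i
            unfold era
            by_cases h : i = p
            · subst h; rw [if_pos (mem_insert_self _ _), Function.update_self]
            · rw [if_neg (by simp [h]), Function.update_of_ne h]
          simp only [h3]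
          rw [h4, HH_none (Function.update_self ..)]
        have hBv : ∀ y : D.Pt, D.Supp (insert p T') y → B (Function.update y p none) =
            if ∀ i ∈ T', y i = some 1 ∨ y i = some (D.c i * 1) then 1 else 0 := by
          intro y hy
          rw [hB.full _ hy.update_none]
          have : (∀ i ∈ T', (Function.update y p none) i = some ((1 : D.GG) i) ∨
              (Function.update y p none) i = some (D.c i * (1 : D.GG) i)) ↔
              ∀ i ∈ T', y i = some 1 ∨ y i = some (D.c i * 1) := by
            constructor
            · intro h i hi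
              have := h i hi
              rwa [Function.update_of_ne (by rintro rfl; exact hp hi)] at this
            · intro h i hi
              rw [Function.update_of_ne (by rintro rfl; exact hp hi)]
              exact h i hi
          simp only [this]
        have hcx : D.Supp (insert p T') (D.act D.c x) := hx.act _
        have hinv : B (Function.update (D.act D.c x) p none) = B (Function.update x p none) := by
          rw [← Dat.act_update_none, hB.inv]
        rw [hlam1 x hxp, hHv x hx hxp, hHv _ hcx (fun h => hxp (Dat.act_eq_none.mp h)), hinv,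
          hBv x hx]
        obtain ⟨v, hv⟩ := Option.ne_none_iff_exists'.mp hxp
        have hv2 : D.act D.c x p = some (D.c p * v) := Dat.act_apply_some hv
        have key : D.c p * v = 1 ↔ v = D.c p * 1 := by
          constructor
          · intro h
            rw [← h, ← mul_assoc, D.hc p, one_mul]
          · intro h
            rw [h, mul_one, D.hc p]
        have h1 : (D.act D.c x p = some 1) ↔ x p = some (D.c p * 1) := by
          rw [hv2, hv]
          constructor
          · intro h; rw [key.mp (Option.some_injective _ h)]
          · intro h; rw [key.mpr (Option.some_injective _ h)]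
        simp only [h1]
        have hne : (some (1 : D.G p)) ≠ some (D.c p * 1) := by
          intro h
          have h2 := Option.some_injective _ h
          rw [mul_one] at h2
          exact hfree p h2.symm
        have hall : (∀ i ∈ insert p T', x i = some ((1 : D.GG) i) ∨
            x i = some (D.c i * (1 : D.GG) i)) ↔
            ((x p = some 1 ∨ x p = some (D.c p * 1)) ∧
              ∀ i ∈ T', x i = some 1 ∨ x i = some (D.c i * 1)) := by
          constructor
          · intro h
            exact ⟨h p (mem_insert_self _ _), fun i hi => h i (mem_insert_of_mem hi)⟩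
          · rintro ⟨h2, h3⟩ i hi
            rcases mem_insert.mp hi with rfl | hi
            · exact h2
            · exact h3 i hi
        by_cases h2 : x p = some 1
        · have h3 : ¬ x p = some (D.c p * 1) := fun h => hne (h2.symm.trans h)
          rw [if_pos h2, if_neg h3, add_zero]
          simp only [hall, h2, true_or, true_and]
        · rw [if_neg h2, zero_add]
          by_cases h3 : x p = some (D.c p * 1)
          · rw [if_pos h3]
            simp only [hall, h3, or_true, true_and]
          · rw [if_neg h3, if_neg]
            intro h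
            rcases (hall.mp h).1 with h | h
            · exact h2 h
            · exact h3 h
    · intro P hP
      have hpP : p ∈ P := hP (mem_insert_self _ _)
      have h1 := cnt_HH_le hnum hp hBc _ P le_rfl hP
      have h2 : cnt D lam P ≤ 2 * cnt D H P := by
        have h3 : univ.filter (fun x : D.Pt => spt D x = P ∧ lam x ≠ 0) ⊆
            univ.filter (fun x : D.Pt => spt D x = P ∧ H x ≠ 0) ∪
            univ.filter (fun x : D.Pt => spt D x = P ∧ H (D.act D.c x) ≠ 0) := by
          intro x hx
          rw [mem_filter] at hx
          obtain ⟨_, hxP, hx0⟩ := hx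
          have hxp : x p ≠ none := by rw [← mem_spt2, hxP]; exact hpP
          rw [hlam1 x hxp] at hx0
          rw [mem_union, mem_filter, mem_filter]
          by_cases h4 : H x = 0
          · right
            rw [h4, zero_add] at hx0
            exact ⟨mem_univ _, hxP, hx0⟩
          · left
            exact ⟨mem_univ _, hxP, h4⟩
        have h5 : (univ.filter (fun x : D.Pt => spt D x = P ∧ H (D.act D.c x) ≠ 0)).card ≤
            cnt D H P := by
          refine card_le_card_of_injOn (fun x => D.act D.c x) ?_ ?_
          · intro x hx
            rw [mem_coe, mem_filter] at hx ⊢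
            exact ⟨mem_univ _, by rw [spt_act2]; exact hx.2.1, hx.2.2⟩
          · intro x _ y _ hxy
            have := congrArg (D.act D.c) hxy
            simp only [Dat.act_c_c] at this
            exact this
        calc cnt D lam P ≤ _ := card_le_card h3
          _ ≤ _ := card_union_le _ _
          _ ≤ cnt D H P + cnt D H P := Nat.add_le_add le_rfl h5
          _ = 2 * cnt D H P := by ring
      rw [card_insert_of_notMem hp]
      have h6 : 1 ≤ P.card := card_pos.mpr ⟨p, hpP⟩
      calc cnt D lam P ≤ 2 * cnt D H P := h2
        _ ≤ 2 * (2 ^ (P.card - 1) * (T'.card + 1).ascFactorial (P.card - (T'.card + 1))) :=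
          Nat.mul_le_mul_left _ h1
        _ = 2 ^ (P.card - 1 + 1) * (T'.card + 1).ascFactorial (P.card - (T'.card + 1)) := by
          rw [pow_succ]; ring
        _ = _ := by rw [Nat.sub_add_cancel h6]

/-- translates -/
lemma Lam.translate {T : Finset ι} {b : D.GG} {lam : D.Pt → ZMod 2} (h : Lam D T b lam) (g : D.GG) :
    Lam D T (g⁻¹ * b) (fun x => lam (D.act g x)) where
  isD := by
    intro i hi x hx h0
    have hsup : ∀ x : D.Pt, D.Supp univ x := fun x i hi => absurd (mem_univ i) hi
    have h1 := h.isD i hi (D.act g x) (hsup _) (Dat.act_eq_none.mpr h0)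
    have e1 : ∑ u : D.G i, lam (D.act g (Function.update x i (some u))) =
        ∑ u : D.G i, lam (Function.update (D.act g x) i (some u)) := by
      refine Fintype.sum_equiv (Equiv.mulLeft (g i)) _ _ (fun u => ?_)
      rw [Dat.act_update_some]; rfl
    rw [e1, h1]
    simp only [Dat.act_act, mul_comm]
  inv := by
    intro x
    change lam (D.act g (D.act D.c x)) = lam (D.act g x)
    rw [← h.inv (D.act g x)]
    simp only [Dat.act_act, mul_comm]
  zero := by
    rintro x ⟨i, hi, hx⟩
    exact h.zero _ ⟨i, hi, Dat.act_eq_none.mpr hx⟩
  full := by
    intro x hx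
    change lam (D.act g x) = _
    rw [h.full _ (hx.act g)]
    have key : ∀ (i : ι) (w : D.G i), D.act g x i = some w ↔ x i = some (g⁻¹ i * w) := by
      intro i w
      cases hxi : x i with
      | none =>
        rw [Dat.act_apply_none hxi]
        constructor <;> intro h <;> cases h
      | some v =>
        rw [Dat.act_apply_some hxi]
        constructor
        · intro h
          have := Option.some_injective _ h
          rw [← this, Pi.inv_apply, inv_mul_cancel_left]
        · intro h
          have := Option.some_injective _ h
          rw [this, Pi.inv_apply, mul_inv_cancel_left]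
    have h2 : (∀ i ∈ T, D.act g x i = some (b i) ∨ D.act g x i = some (D.c i * b i)) ↔
        ∀ i ∈ T, x i = some ((g⁻¹ * b) i) ∨ x i = some (D.c i * (g⁻¹ * b) i) := by
      refine forall₂_congr fun i _ => ?_
      rw [key, key, Pi.mul_apply, mul_left_comm]
    simp only [h2]

end Pool.Agent.LB
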