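import Pool.Agent.LB.Defs

/-!
Pigeonhole for translates: if the function `lam` vanishes at most points of each support of the
points of `s`, then it vanishes at all points of some translate of `s`.
-/

set_option linter.unusedSectionVars false

namespace Pool.Agent.LB

open Finset Pool.Agent.N993

variable {ι : Type} [DecidableEq ι] [Fintype ι] {D : Dat ι}

lemma mem_spt {x : D.Pt} {i : ι} : i ∈ spt D x ↔ (x i).isSome := by
  simp [spt]

lemma spt_act (g : D.GG) (x : D.Pt) : spt D (D.act g x) = spt D x := by
  ext i
  rw [mem_spt, mem_spt]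
  unfold Dat.act
  cases x i <;> simp

/-- the number of translations from a point to another one of the same support -/
lemma card_fiber {x y : D.Pt} (h : spt D y = spt D x) :
    (univ.filter (fun g : D.GG => D.act g x = y)).card * ∏ i ∈ spt D x, Fintype.card (D.G i) =
      Fintype.card D.GG := by
  have h1 : (univ.filter (fun g : D.GG => D.act g x = y)) =
      Fintype.piFinset (fun i => univ.filter (fun u : D.G i => (x i).map (fun v => u * v) = y i)) := by
    ext g
    simp only [mem_filter, mem_univ, true_and, Fintype.mem_piFinset]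
    constructor
    · intro hg i
      rw [← hg]; rfl
    · intro hg
      funext i
      exact hg i
  have h2 : ∀ i, (univ.filter (fun u : D.G i => (x i).map (fun v => u * v) = y i)).card =
      if i ∈ spt D x then 1 else Fintype.card (D.G i) := by
    intro i
    have hy : i ∈ spt D y ↔ i ∈ spt D x := by rw [h]
    split_ifs with hi
    · have hyi := hy.mpr hi
      rw [mem_spt] at hi hyi
      obtain ⟨a, ha⟩ := Option.isSome_iff_exists.mp hi
      obtain ⟨b, hb⟩ := Option.isSome_iff_exists.mp hyi
      rw [card_eq_one]
      refine ⟨b * a⁻¹, ?_⟩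
      ext u
      simp only [mem_filter, mem_univ, true_and, mem_singleton, ha, hb, Option.map_some,
        Option.some.injEq]
      exact eq_mul_inv_iff_mul_eq.symm
    · have hyi : i ∉ spt D y := fun h' => hi (hy.mp h')
      rw [mem_spt, Option.not_isSome_iff_eq_none] at hi hyi
      rw [← Finset.card_univ]
      congr 1
      ext u
      simp [hi, hyi]
  rw [h1, Fintype.card_piFinset]
  have h3 : ∏ i ∈ spt D x, Fintype.card (D.G i) =
      ∏ i, if i ∈ spt D x then Fintype.card (D.G i) else 1 := by
    rw [prod_ite_mem]; simp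
  rw [h3, ← prod_mul_distrib, Fintype.card_pi]
  refine prod_congr rfl fun i _ => ?_
  rw [h2 i]
  split_ifs <;> simp

/-- the number of the translations with `lam ≠ 0` at the image of `x` -/
lemma card_bad (lam : D.Pt → ZMod 2) (x : D.Pt) :
    (univ.filter (fun g : D.GG => lam (D.act g x) ≠ 0)).card *
        ∏ i ∈ spt D x, Fintype.card (D.G i) =
      (univ.filter (fun y : D.Pt => spt D y = spt D x ∧ lam y ≠ 0)).card * Fintype.card D.GG := by
  have h1 : (univ.filter (fun g : D.GG => lam (D.act g x) ≠ 0)).card =
      ∑ y ∈ univ.filter (fun y : D.Pt => spt D y = spt D x ∧ lam y ≠ 0),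
        ((univ.filter (fun g : D.GG => lam (D.act g x) ≠ 0)).filter
          (fun g => D.act g x = y)).card := by
    apply card_eq_sum_card_fiberwise
    intro g hg
    rw [mem_coe, mem_filter] at hg
    rw [mem_coe, mem_filter]
    exact ⟨mem_univ _, spt_act g x, hg.2⟩
  rw [h1, sum_mul, ← smul_eq_mul, ← sum_const]
  refine sum_congr rfl fun y hy => ?_
  rw [mem_filter] at hy
  rw [← card_fiber hy.2.1, filter_filter]
  congr 2
  ext g
  simp only [mem_filter, mem_univ, true_and]
  constructor
  · exact fun h => h.2
  · intro h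
    exact ⟨by rw [h]; exact hy.2.2, h⟩

/-- pigeonhole for translates -/
theorem exists_translate (lam : D.Pt → ZMod 2) (s : Multiset D.Pt) (n : ℕ)
    (hn : Multiset.card s ≤ n)
    (h : ∀ x ∈ s, n * (univ.filter (fun y => spt D y = spt D x ∧ lam y ≠ 0)).card <
      ∏ i ∈ spt D x, Fintype.card (D.G i)) :
    ∃ g : D.GG, ∀ x ∈ s, lam (D.act g x) = 0 := by
  classical
  -- the bad translations
  have hb : ∀ x ∈ s, n * (univ.filter (fun g : D.GG => lam (D.act g x) ≠ 0)).card <
      Fintype.card D.GG := by
    intro x hx
    have h1 := h x hx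
    have h2 := card_bad lam x
    have h0 : 0 < Fintype.card D.GG := Fintype.card_pos
    have hN : 0 < ∏ i ∈ spt D x, Fintype.card (D.G i) := lt_of_le_of_lt (Nat.zero_le _) h1
    have h3 : n * (univ.filter (fun g : D.GG => lam (D.act g x) ≠ 0)).card *
        ∏ i ∈ spt D x, Fintype.card (D.G i) <
        Fintype.card D.GG * ∏ i ∈ spt D x, Fintype.card (D.G i) := by
      calc n * (univ.filter (fun g : D.GG => lam (D.act g x) ≠ 0)).card *
            ∏ i ∈ spt D x, Fintype.card (D.G i)
          = (n * (univ.filter (fun y : D.Pt => spt D y = spt D x ∧ lam y ≠ 0)).card) *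
              Fintype.card D.GG := by rw [mul_assoc, h2, mul_assoc]
        _ < (∏ i ∈ spt D x, Fintype.card (D.G i)) * Fintype.card D.GG :=
            Nat.mul_lt_mul_of_pos_right h1 h0
        _ = _ := mul_comm _ _
    exact lt_of_mul_lt_mul_right h3 (Nat.zero_le _)
  by_contra hcon
  push Not at hcon
  -- every translation is bad for some point
  have hcov : Fintype.card D.GG ≤
      ∑ x ∈ s.toFinset, (univ.filter (fun g : D.GG => lam (D.act g x) ≠ 0)).card := by
    rw [← Finset.card_univ]
    refine le_trans (card_le_card ?_) card_biUnion_le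
    intro g _
    obtain ⟨x, hx, hx'⟩ := hcon g
    rw [mem_biUnion]
    exact ⟨x, Multiset.mem_toFinset.mpr hx, by rw [mem_filter]; exact ⟨mem_univ _, hx'⟩⟩
  have h0 : 0 < Fintype.card D.GG := Fintype.card_pos
  have hne : s.toFinset.Nonempty := by
    obtain ⟨x, hx, -⟩ := hcon 1
    exact ⟨x, Multiset.mem_toFinset.mpr hx⟩
  have hsum : ∑ x ∈ s.toFinset, n * (univ.filter (fun g : D.GG => lam (D.act g x) ≠ 0)).card <
      ∑ _x ∈ s.toFinset, Fintype.card D.GG :=
    sum_lt_sum_of_nonempty hne fun x hx => hb x (Multiset.mem_toFinset.mp hx)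
  rw [← mul_sum, sum_const, smul_eq_mul] at hsum
  have hc : s.toFinset.card ≤ n := le_trans (Multiset.toFinset_card_le s) hn
  have : n * Fintype.card D.GG < n * Fintype.card D.GG :=
    calc n * Fintype.card D.GG
        ≤ n * ∑ x ∈ s.toFinset, (univ.filter (fun g : D.GG => lam (D.act g x) ≠ 0)).card :=
          Nat.mul_le_mul_left _ hcov
      _ < s.toFinset.card * Fintype.card D.GG := hsum
      _ ≤ n * Fintype.card D.GG := Nat.mul_le_mul_right _ hc
  exact lt_irrefl _ this

end Pool.Agent.LB
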