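import Pool.Agent.LB.EvDefs
import Pool.Agent.LB.LamEx
import Pool.Agent.LB.Pig

/-!
Counting the translates of the lift which do not vanish at a given element (helper297).
-/

set_option linter.unusedSectionVars false

namespace Pool.Agent.LB

open Finset Pool.Agent.N993 Pool.Agent.H916R2 Pool.Agent.N992

namespace EvC

/-! ### Units modulo a power of 2 -/

section pow2

variable {m k : ℕ}

lemma pow_mul_ne (hm : m = 2 ^ k) {v : ℕ} (hv : v < k) (u : (ZMod m)ˣ) :
    (2 : ZMod m) ^ v * (u : ZMod m) ≠ 0 := by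
  intro h
  have h1 : (2 : ZMod m) ^ v = 0 := by
    rw [← Units.mul_left_eq_zero u]; exact h
  have h2 : ((2 ^ v : ℕ) : ZMod m) = 0 := by push_cast; exact h1
  rw [ZMod.natCast_eq_zero_iff, hm] at h2
  have h3 := (Nat.pow_dvd_pow_iff_le_right (by norm_num : 1 < 2)).1 h2
  omega

lemma pow_k (hm : m = 2 ^ k) : (2 : ZMod m) ^ k = 0 := by
  have h2 : ((2 ^ k : ℕ) : ZMod m) = 0 := by
    rw [ZMod.natCast_eq_zero_iff, hm]
  push_cast at h2
  exact h2

lemma pow_mul_inj_aux (hm : m = 2 ^ k) {v w : ℕ} (hvw : v < w) (hw : w ≤ k)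
    (u u' : (ZMod m)ˣ) : (2 : ZMod m) ^ v * (u : ZMod m) ≠ 2 ^ w * (u' : ZMod m) := by
  intro h
  have h1 : (2 : ZMod m) ^ (k - w + v) * (u : ZMod m) = 0 := by
    rw [pow_add, mul_assoc, h, ← mul_assoc, ← pow_add, Nat.sub_add_cancel hw, pow_k hm, zero_mul]
  exact pow_mul_ne hm (by omega) u h1

lemma pow_mul_inj (hm : m = 2 ^ k) {v w : ℕ} (hv : v < k) (hw : w < k) {u u' : (ZMod m)ˣ}
    (h : (2 : ZMod m) ^ v * (u : ZMod m) = 2 ^ w * (u' : ZMod m)) : v = w := by
  rcases lt_trichotomy v w with h1 | h1 | h1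
  · exact absurd h (pow_mul_inj_aux hm h1 hw.le u u')
  · exact h1
  · exact absurd h.symm (pow_mul_inj_aux hm h1 hv.le u' u)

lemma unit_odd (hm : m = 2 ^ k) (hk : 1 ≤ k) (u : (ZMod m)ˣ) : (u : ZMod m).val % 2 = 1 := by
  have h1 := ZMod.val_coe_unit_coprime u
  have h2 : Nat.Coprime ((u : ZMod m).val) 2 :=
    Nat.Coprime.coprime_dvd_right ((dvd_pow_self 2 (by omega)).trans (dvd_of_eq hm.symm)) h1
  rw [Nat.coprime_two_right] at h2
  exact Nat.odd_iff.1 h2

lemma top_mul [NeZero m] (hm : m = 2 ^ k) (hk : 1 ≤ k) (u : (ZMod m)ˣ) :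
    (2 : ZMod m) ^ (k - 1) * (u : ZMod m) = 2 ^ (k - 1) := by
  have h1 := unit_odd hm hk u
  obtain ⟨t, ht⟩ : ∃ t, (u : ZMod m).val = 2 * t + 1 := ⟨(u : ZMod m).val / 2, by omega⟩
  have h2 : (u : ZMod m) = ((2 * t + 1 : ℕ) : ZMod m) := by
    rw [← ht, ZMod.natCast_zmod_val]
  rw [h2]
  push_cast
  have h3 : (2 : ZMod m) ^ (k - 1) * 2 = 0 := by
    rw [← pow_succ, Nat.sub_add_cancel hk, pow_k hm]
  calc (2 : ZMod m) ^ (k - 1) * (2 * t + 1) = (2 ^ (k - 1) * 2) * t + 2 ^ (k - 1) := by ring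
    _ = 2 ^ (k - 1) := by rw [h3]; ring

lemma card_units_pow [NeZero m] (hm : m = 2 ^ k) (hk : 1 ≤ k) :
    Fintype.card (ZMod m)ˣ = 2 ^ (k - 1) := by
  rw [ZMod.card_units_eq_totient, hm, Nat.totient_prime_pow Nat.prime_two hk]
  simp

lemma card_sol [NeZero m] (hm : m = 2 ^ k) {j : ℕ} (hjk : j ≤ k) (u0 : (ZMod m)ˣ) :
    (univ.filter (fun u : (ZMod m)ˣ =>
      (2 : ZMod m) ^ (k - j) * (u : ZMod m) = 2 ^ (k - j) * (u0 : ZMod m))).card ≤ 2 ^ (k - j) := by
  have key : ∀ u : (ZMod m)ˣ, (2 : ZMod m) ^ (k - j) * (u : ZMod m) =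
      2 ^ (k - j) * (u0 : ZMod m) → (u : ZMod m).val % 2 ^ j = (u0 : ZMod m).val % 2 ^ j := by
    intro u hu
    have h1 : ((2 ^ (k - j) * (u : ZMod m).val : ℕ) : ZMod m) =
        ((2 ^ (k - j) * (u0 : ZMod m).val : ℕ) : ZMod m) := by
      push_cast
      rw [ZMod.natCast_zmod_val, ZMod.natCast_zmod_val]
      exact hu
    rw [ZMod.natCast_eq_natCast_iff] at h1
    have h2 : 2 ^ (k - j) * 2 ^ j = m := by
      rw [← pow_add, Nat.sub_add_cancel hjk, ← hm]
    have h3 : ∀ x y M : ℕ, x ≡ y [MOD m] → M = m → x ≡ y [MOD M] := by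
      intro x y M h e
      rw [e]
      exact h
    exact Nat.ModEq.mul_left_cancel' (pow_ne_zero _ two_ne_zero) (h3 _ _ _ h1 h2)
  have h3 : (range (2 ^ (k - j))).card = 2 ^ (k - j) := card_range _
  rw [← h3]
  refine card_le_card_of_injOn (fun u : (ZMod m)ˣ => (u : ZMod m).val / 2 ^ j) ?_ ?_
  · intro u _
    rw [mem_coe, mem_range, Nat.div_lt_iff_lt_mul (by positivity), ← pow_add,
      Nat.sub_add_cancel hjk, ← hm]
    exact ZMod.val_lt _
  · intro u hu v hv huv
    rw [mem_coe, mem_filter] at hu hv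
    have h4 := key u hu.2
    have h5 := key v hv.2
    apply Units.ext
    apply ZMod.val_injective m
    rw [← Nat.div_add_mod ((u : ZMod m).val) (2 ^ j), ← Nat.div_add_mod ((v : ZMod m).val) (2 ^ j),
      h4, h5]
    have huv' : (u : ZMod m).val / 2 ^ j = (v : ZMod m).val / 2 ^ j := huv
    rw [huv']

lemma not_unit_of_even [NeZero m] (hm : m = 2 ^ k) (hk : 1 ≤ k) (x : ZMod m) :
    ¬ IsUnit (2 * x) := by
  rintro ⟨u, hu⟩
  have h1 : (2 : ZMod m) ^ (k - 1) * (u : ZMod m) = 0 := by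
    rw [hu, ← mul_assoc, ← pow_succ, Nat.sub_add_cancel hk, pow_k hm, zero_mul]
  exact pow_mul_ne hm (by omega) u h1

end pow2

/-! ### The lift -/

variable {ι : Type} [Fintype ι] [LinearOrder ι] {n : ι → ℕ} [∀ i, NeZero (n i)] {N : ℕ} [NeZero N]
  {o : ι} {k : ℕ}

lemma lft_pow (H : Adm2 n o k N) (L : (∀ i, Option (ZMod (n i))ˣ) → ZMod 2)
    (a : ∀ i, ZMod (n i)) {w : ℕ} (hw : w < k) (u0 : (ZMod (n o))ˣ)
    (ha : a o = 2 ^ w * (u0 : ZMod (n o))) :
    lft n o k L a = ∑ u : (ZMod (n o))ˣ,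
      if (2 : ZMod (n o)) ^ w * (u : ZMod (n o)) = 2 ^ w * (u0 : ZMod (n o)) then
        L (Function.update (pt (fun i => (2 : ZMod (n i)) ^ (k - 1 - w) * a i)) o (some u))
      else 0 := by
  unfold lft
  rw [if_neg (by rw [ha]; exact pow_mul_ne H.ho hw u0), zero_add,
    sum_eq_single w]
  · refine sum_congr rfl fun u _ => ?_
    rw [ha]
  · intro v hv hvw
    refine sum_eq_zero fun u _ => ?_
    rw [if_neg]
    intro h
    rw [ha] at h
    exact hvw (pow_mul_inj H.ho (mem_range.1 hv) hw h)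
  · intro h
    exact absurd (mem_range.2 hw) h

lemma lft_zero (H : Adm2 n o k N) (L : (∀ i, Option (ZMod (n i))ˣ) → ZMod 2)
    (a : ∀ i, ZMod (n i)) (ha : a o = 0) : lft n o k L a = L (pt a) := by
  unfold lft
  rw [if_pos ha, add_eq_left]
  refine sum_eq_zero fun v hv => sum_eq_zero fun u _ => ?_
  rw [if_neg]
  rw [ha]
  exact pow_mul_ne H.ho (mem_range.1 hv) u

lemma isUnit_iff (H : Adm2 n o k N) {i : ι} (hi : i ≠ o) (x : ZMod (n i)) (s : ℕ) :
    IsUnit ((2 : ZMod (n i)) ^ s * x) ↔ x ≠ 0 := by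
  have hp := (H.hn i hi).1
  have : Fact (n i).Prime := ⟨hp⟩
  have h2 : (2 : ZMod (n i)) ≠ 0 := by
    intro h
    have h3 : ((2 : ℕ) : ZMod (n i)) = 0 := by exact_mod_cast h
    rw [ZMod.natCast_eq_zero_iff, Nat.prime_dvd_prime_iff_eq hp Nat.prime_two] at h3
    have := (H.hn i hi).2
    omega
  rw [isUnit_iff_ne_zero]
  constructor
  · intro h h0
    exact h (by rw [h0, mul_zero])
  · intro h
    exact mul_ne_zero (pow_ne_zero _ h2) h

lemma pt_some_iff (b : ∀ i, ZMod (n i)) (i : ι) : (pt b i).isSome ↔ IsUnit (b i) := by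
  unfold pt
  by_cases h : IsUnit (b i)
  · simp [h]
  · simp [h]

/-- the support of the point -/
lemma spt_pt (H : Adm2 n o k N) (a : ∀ i, ZMod (n i)) (ha : ¬ IsUnit (a o)) :
    spt (cyr n (rd n o)) (pt a) = osup o a := by
  ext i
  rw [mem_spt, pt_some_iff]
  unfold osup
  rw [mem_filter]
  by_cases hi : i = o
  · subst hi
    simp [ha]
  · have h1 := isUnit_iff H hi (a i) 0
    rw [pow_zero, one_mul] at h1
    simp [h1, hi]

lemma spt_upd (H : Adm2 n o k N) (a : ∀ i, ZMod (n i)) (s : ℕ) (u : (ZMod (n o))ˣ) :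
    spt (cyr n (rd n o)) (Function.update (pt (fun i => (2 : ZMod (n i)) ^ s * a i)) o (some u)) =
      insert o (osup o a) := by
  ext i
  rw [mem_spt]
  unfold osup
  rw [mem_insert, mem_filter]
  by_cases hi : i = o
  · subst hi
    rw [Function.update_self]
    simp
  · rw [Function.update_of_ne hi, pt_some_iff, isUnit_iff H hi]
    simp [hi]

lemma spt_upd_none (H : Adm2 n o k N) (a : ∀ i, ZMod (n i)) (s : ℕ) :
    spt (cyr n (rd n o)) (Function.update (pt (fun i => (2 : ZMod (n i)) ^ s * a i)) o none) =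
      osup o a := by
  ext i
  rw [mem_spt]
  unfold osup
  rw [mem_filter]
  by_cases hi : i = o
  · subst hi
    rw [Function.update_self]
    simp
  · rw [Function.update_of_ne hi, pt_some_iff, isUnit_iff H hi]
    simp [hi]

/-- the number of the bad translations, with `cnt` -/
lemma card_bad' {D : Dat ι} (lam : D.Pt → ZMod 2) (x : D.Pt) {P : Finset ι} (hP : spt D x = P) :
    (univ.filter (fun g : D.GG => lam (D.act g x) ≠ 0)).card * ∏ i ∈ P, Fintype.card (D.G i) =
      cnt D lam P * Fintype.card D.GG := by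
  subst hP
  exact card_bad lam x

end EvC

open EvC

variable {ι : Type} [Fintype ι] [LinearOrder ι] {n : ι → ℕ} [∀ i, NeZero (n i)] {N : ℕ} [NeZero N]
  {o : ι} {k : ℕ}

/-- the data of the family -/

theorem badc_zero (H : Adm2 n o k N) (lam : (cyr n (rd n o)).Pt → ZMod 2) (a : ∀ i, ZMod (n i))
    (ha : a o = 0) :
    badc n o k lam a * ∏ i ∈ osup o a, Fintype.card ((cyr n (rd n o)).G i) ≤
      cnt (cyr n (rd n o)) lam (osup o a) * Fintype.card (cyr n (rd n o)).GG := by
  have hk := H.hk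
  have h0 : ¬ IsUnit (a o) := by
    rw [ha]
    have := not_unit_of_even H.ho (by omega) 0
    rwa [mul_zero] at this
  rw [← card_bad' lam (pt a) (spt_pt H a h0)]
  refine Nat.mul_le_mul_right _ (le_of_eq ?_)
  unfold badc
  congr 1
  ext g
  rw [mem_filter, mem_filter, lft_zero H _ a ha]

theorem badc_one (H : Adm2 n o k N) {lam : (cyr n (rd n o)).Pt → ZMod 2}
    (hD : (cyr n (rd n o)).IsD0 univ lam) (a : ∀ i, ZMod (n i))
    (ha : a o = 2 ^ (k - 1)) :
    badc n o k lam a * ∏ i ∈ osup o a, Fintype.card ((cyr n (rd n o)).G i) ≤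
      2 * cnt (cyr n (rd n o)) lam (osup o a) * Fintype.card (cyr n (rd n o)).GG := by
  have hk := H.hk
  have h0 : ¬ IsUnit (a o) := by
    have := not_unit_of_even H.ho (by omega) ((2 : ZMod (n o)) ^ (k - 2))
    rw [← pow_succ'] at this
    rw [ha]
    have e : k - 2 + 1 = k - 1 := by omega
    rwa [e] at this
  have hx0 : ∀ g : ((cyr n (rd n o))).GG, ((cyr n (rd n o))).act g (pt a) o = none := by
    intro g
    apply Dat.act_apply_none
    have := pt_some_iff a o
    rw [← Option.not_isSome_iff_eq_none, this]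
    exact h0
  have hsup : ∀ x : ((cyr n (rd n o))).Pt, ((cyr n (rd n o))).Supp univ x := fun x i hi => absurd (mem_univ i) hi
  have hl : ∀ g : ((cyr n (rd n o))).GG, lft n o k (fun x => lam (((cyr n (rd n o))).act g x)) a =
      lam (((cyr n (rd n o))).act (((cyr n (rd n o))).α o * g) (pt a)) - lam (((cyr n (rd n o))).act g (pt a)) := by
    intro g
    have h1 := lft_pow H (fun x => lam (((cyr n (rd n o))).act g x)) a (w := k - 1) (by omega) 1
      (by rw [ha, Units.val_one, mul_one])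
    have h2 : ∀ u : (ZMod (n o))ˣ, (2 : ZMod (n o)) ^ (k - 1) * (u : ZMod (n o)) =
        2 ^ (k - 1) * ((1 : (ZMod (n o))ˣ) : ZMod (n o)) := by
      intro u
      rw [top_mul H.ho (by omega) u, Units.val_one, mul_one]
    rw [h1]
    have h3 := hD o (mem_univ o) (((cyr n (rd n o))).act g (pt a)) (hsup _) (hx0 g)
    have hβ : ((cyr n (rd n o))).β o = 1 := rfl
    rw [hβ, Dat.act_one, Dat.act_act] at h3
    rw [← h3]
    have h4 : (fun i => (2 : ZMod (n i)) ^ (k - 1 - (k - 1)) * a i) = a := by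
      funext i
      rw [Nat.sub_self, pow_zero, one_mul]
    rw [h4]
    refine Fintype.sum_equiv (Equiv.mulLeft (g o)) _ _ (fun u => ?_)
    rw [if_pos (h2 u)]
    exact congrArg lam (Dat.act_update_some g (pt a) o u)
  have hsub : univ.filter (fun g : ((cyr n (rd n o))).GG => lft n o k (fun x => lam (((cyr n (rd n o))).act g x)) a ≠ 0) ⊆
      univ.filter (fun g : ((cyr n (rd n o))).GG => lam (((cyr n (rd n o))).act (((cyr n (rd n o))).α o * g) (pt a)) ≠ 0) ∪
        univ.filter (fun g : ((cyr n (rd n o))).GG => lam (((cyr n (rd n o))).act g (pt a)) ≠ 0) := by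
    intro g hg
    rw [mem_filter] at hg
    rw [mem_union, mem_filter, mem_filter]
    by_contra hcon
    push Not at hcon
    apply hg.2
    rw [hl g, hcon.1 (mem_univ _), hcon.2 (mem_univ _), sub_self]
  have hcard : (univ.filter (fun g : ((cyr n (rd n o))).GG => lam (((cyr n (rd n o))).act (((cyr n (rd n o))).α o * g) (pt a)) ≠ 0)).card =
      (univ.filter (fun g : ((cyr n (rd n o))).GG => lam (((cyr n (rd n o))).act g (pt a)) ≠ 0)).card := by
    refine card_bij (fun g _ => ((cyr n (rd n o))).α o * g) ?_ ?_ ?_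
    · intro g hg
      rw [mem_filter] at hg ⊢
      exact ⟨mem_univ _, hg.2⟩
    · intro g _ g' _ h
      exact mul_left_cancel h
    · intro g hg
      refine ⟨(((cyr n (rd n o))).α o)⁻¹ * g, ?_, mul_inv_cancel_left _ _⟩
      rw [mem_filter] at hg ⊢
      refine ⟨mem_univ _, ?_⟩
      rw [mul_inv_cancel_left]
      exact hg.2
  have hb : badc n o k lam a ≤
      2 * (univ.filter (fun g : ((cyr n (rd n o))).GG => lam (((cyr n (rd n o))).act g (pt a)) ≠ 0)).card := by
    unfold badc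
    refine (card_le_card hsub).trans ((card_union_le _ _).trans (le_of_eq ?_))
    rw [hcard, two_mul]
  calc badc n o k lam a * ∏ i ∈ osup o a, Fintype.card (((cyr n (rd n o))).G i)
      ≤ 2 * (univ.filter (fun g : ((cyr n (rd n o))).GG => lam (((cyr n (rd n o))).act g (pt a)) ≠ 0)).card *
          ∏ i ∈ osup o a, Fintype.card (((cyr n (rd n o))).G i) := Nat.mul_le_mul_right _ hb
    _ = 2 * ((univ.filter (fun g : ((cyr n (rd n o))).GG => lam (((cyr n (rd n o))).act g (pt a)) ≠ 0)).card *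
          ∏ i ∈ osup o a, Fintype.card (((cyr n (rd n o))).G i)) := by rw [mul_assoc]
    _ = 2 * (cnt (cyr n (rd n o)) lam (osup o a) * Fintype.card ((cyr n (rd n o))).GG) := by
        rw [card_bad' lam (pt a) (spt_pt H a h0)]
    _ = _ := by rw [mul_assoc]

theorem badc_two (H : Adm2 n o k N) (lam : (cyr n (rd n o)).Pt → ZMod 2) (a : ∀ i, ZMod (n i))
    {j : ℕ} (hj : 2 ≤ j) (hjk : j ≤ k) (u0 : (ZMod (n o))ˣ)
    (ha : a o = 2 ^ (k - j) * (u0 : ZMod (n o))) :
    badc n o k lam a * (2 ^ (j - 1) * ∏ i ∈ osup o a, Fintype.card ((cyr n (rd n o)).G i)) ≤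
      cnt (cyr n (rd n o)) lam (insert o (osup o a)) * Fintype.card (cyr n (rd n o)).GG := by
  have hk := H.hk
  set y : ((cyr n (rd n o))).Pt := pt (fun i => (2 : ZMod (n i)) ^ (k - 1 - (k - j)) * a i) with hy
  set U := univ.filter (fun u : (ZMod (n o))ˣ =>
    (2 : ZMod (n o)) ^ (k - j) * (u : ZMod (n o)) = 2 ^ (k - j) * (u0 : ZMod (n o))) with hU
  have hsub : univ.filter (fun g : ((cyr n (rd n o))).GG => lft n o k (fun x => lam (((cyr n (rd n o))).act g x)) a ≠ 0) ⊆
      U.biUnion (fun u => univ.filter (fun g : ((cyr n (rd n o))).GG =>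
        lam (((cyr n (rd n o))).act g (Function.update y o (some u))) ≠ 0)) := by
    intro g hg
    rw [mem_filter, lft_pow H _ a (w := k - j) (by omega) u0 ha] at hg
    obtain ⟨u, _, hu⟩ := exists_ne_zero_of_sum_ne_zero hg.2
    rw [mem_biUnion]
    have hu1 : (2 : ZMod (n o)) ^ (k - j) * (u : ZMod (n o)) = 2 ^ (k - j) * (u0 : ZMod (n o)) := by
      by_contra h
      exact hu (if_neg h)
    rw [if_pos hu1] at hu
    exact ⟨u, by rw [hU, mem_filter]; exact ⟨mem_univ _, hu1⟩, by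
      rw [mem_filter]; exact ⟨mem_univ _, hu⟩⟩
  have hcu := card_sol H.ho hjk u0
  rw [← hU] at hcu
  have hcG : Fintype.card (((cyr n (rd n o))).G o) = 2 ^ (k - j) * 2 ^ (j - 1) := by
    have h1 : Fintype.card (((cyr n (rd n o))).G o) = 2 ^ (k - 1) := card_units_pow H.ho (by omega)
    rw [h1, ← pow_add]
    congr 1
    omega
  have hno : o ∉ osup o a := by
    unfold osup
    rw [mem_filter]
    simp
  have hone : ∀ u : (ZMod (n o))ˣ, (univ.filter (fun g : ((cyr n (rd n o))).GG =>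
      lam (((cyr n (rd n o))).act g (Function.update y o (some u))) ≠ 0)).card *
      (2 ^ (k - j) * (2 ^ (j - 1) * ∏ i ∈ osup o a, Fintype.card (((cyr n (rd n o))).G i))) =
      cnt (cyr n (rd n o)) lam (insert o (osup o a)) * Fintype.card ((cyr n (rd n o))).GG := by
    intro u
    have h1 := card_bad' (D := (cyr n (rd n o))) lam (Function.update y o (some u)) (spt_upd H a _ u)
    rw [prod_insert hno, hcG, mul_assoc] at h1
    exact h1
  have hb : badc n o k lam a ≤ ∑ u ∈ U, (univ.filter (fun g : ((cyr n (rd n o))).GG =>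
        lam (((cyr n (rd n o))).act g (Function.update y o (some u))) ≠ 0)).card := by
    unfold badc
    exact (card_le_card hsub).trans card_biUnion_le
  have h5 : 2 ^ (k - j) * (badc n o k lam a *
      (2 ^ (j - 1) * ∏ i ∈ osup o a, Fintype.card (((cyr n (rd n o))).G i))) ≤
      2 ^ (k - j) * (cnt (cyr n (rd n o)) lam (insert o (osup o a)) * Fintype.card ((cyr n (rd n o))).GG) := by
    calc 2 ^ (k - j) * (badc n o k lam a *
          (2 ^ (j - 1) * ∏ i ∈ osup o a, Fintype.card (((cyr n (rd n o))).G i)))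
        = badc n o k lam a * (2 ^ (k - j) *
          (2 ^ (j - 1) * ∏ i ∈ osup o a, Fintype.card (((cyr n (rd n o))).G i))) := by ring
      _ ≤ (∑ u ∈ U, (univ.filter (fun g : ((cyr n (rd n o))).GG =>
          lam (((cyr n (rd n o))).act g (Function.update y o (some u))) ≠ 0)).card) * (2 ^ (k - j) *
          (2 ^ (j - 1) * ∏ i ∈ osup o a, Fintype.card (((cyr n (rd n o))).G i))) := Nat.mul_le_mul_right _ hb
      _ = ∑ u ∈ U, cnt (cyr n (rd n o)) lam (insert o (osup o a)) * Fintype.card ((cyr n (rd n o))).GG := by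
          rw [sum_mul]
          exact sum_congr rfl fun u _ => hone u
      _ = U.card * (cnt (cyr n (rd n o)) lam (insert o (osup o a)) * Fintype.card ((cyr n (rd n o))).GG) := by
          rw [sum_const, smul_eq_mul]
      _ ≤ _ := Nat.mul_le_mul_right _ hcu
  exact le_of_mul_le_mul_left h5 (by positivity)

theorem badc_push (H : Adm2 n o k N) {lam B : (cyr n (rd n o)).Pt → ZMod 2}
    (hB : ∀ x : (cyr n (rd n o)).Pt, x o = none → ∀ h : (ZMod (n o))ˣ,
      ∑ u : (ZMod (n o))ˣ, (if (2 : ZMod (n o)) ^ (k - 2) * (u : ZMod (n o)) = 2 ^ (k - 2) * h then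
        lam (Function.update x o (some u)) else 0) = B x)
    (a : ∀ i, ZMod (n i)) (u0 : (ZMod (n o))ˣ)
    (ha : a o = 2 ^ (k - 2) * (u0 : ZMod (n o))) :
    badc n o k lam a * ∏ i ∈ osup o a, Fintype.card ((cyr n (rd n o)).G i) ≤
      cnt (cyr n (rd n o)) B (osup o a) * Fintype.card (cyr n (rd n o)).GG := by
  have hk := H.hk
  set y : ((cyr n (rd n o))).Pt := pt (fun i => (2 : ZMod (n i)) ^ (k - 1 - (k - 2)) * a i) with hy
  rw [← card_bad' B (Function.update y o none) (spt_upd_none H a _)]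
  refine Nat.mul_le_mul_right _ (le_of_eq ?_)
  unfold badc
  congr 1
  refine filter_congr fun g _ => ?_
  have hx : ((cyr n (rd n o))).act g (Function.update y o none) o = none :=
    Dat.act_apply_none (Function.update_self ..)
  have h1 := hB (((cyr n (rd n o))).act g (Function.update y o none)) hx (g o * u0)
  rw [lft_pow H _ a (w := k - 2) (by omega) u0 ha, ← h1]
  refine not_congr ?_
  have h2 : (∑ u : (ZMod (n o))ˣ,
      if (2 : ZMod (n o)) ^ (k - 2) * (u : ZMod (n o)) = 2 ^ (k - 2) * (u0 : ZMod (n o)) then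
        lam (((cyr n (rd n o))).act g (Function.update y o (some u))) else 0) =
      ∑ u : (ZMod (n o))ˣ, (if (2 : ZMod (n o)) ^ (k - 2) * (u : ZMod (n o)) =
        2 ^ (k - 2) * ((g o * u0 : (ZMod (n o))ˣ) : ZMod (n o)) then
        lam (Function.update (((cyr n (rd n o))).act g (Function.update y o none)) o (some u)) else 0) := by
    refine Fintype.sum_equiv (Equiv.mulLeft (g o)) _ _ (fun u => ?_)
    have e1 : ((cyr n (rd n o))).act g (Function.update y o (some u)) =
        Function.update (((cyr n (rd n o))).act g (Function.update y o none)) o (some (g o * u)) := by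
      rw [Dat.act_update_some, Dat.act_update_none, Function.update_idem]
    have e2 : ((2 : ZMod (n o)) ^ (k - 2) * (u : ZMod (n o)) = 2 ^ (k - 2) * (u0 : ZMod (n o))) ↔
        (2 : ZMod (n o)) ^ (k - 2) * ((g o * u : (ZMod (n o))ˣ) : ZMod (n o)) =
          2 ^ (k - 2) * ((g o * u0 : (ZMod (n o))ˣ) : ZMod (n o)) := by
      rw [Units.val_mul, Units.val_mul, mul_left_comm, mul_left_comm _ ((g o : (ZMod (n o))ˣ) : ZMod (n o)),
        Units.mul_right_inj]
    rw [e1]
    exact if_congr e2 rfl rfl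
  exact Eq.congr_left h2

end Pool.Agent.LB
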