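import Pool.Agent.LB.Cyc
import Pool.Agent.N993.Fin

/-!
Definitions for the length bound in even degrees.
-/

set_option linter.unusedSectionVars false

namespace Pool.Agent.LB

open Finset Pool.Agent.N993 Pool.Agent.H916R2

/-- the data attached to a family of pairwise coprime prime powers `n i` with multipliers `r i` -/
@[reducible] def cyr {ι : Type} (n r : ι → ℕ) [∀ i, NeZero (n i)] : Dat ι where
  G i := (ZMod (n i))ˣ
  grp i := inferInstance
  fin i := inferInstance
  deq i := inferInstance
  α i j := unOf (r i) (n j)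
  β _ _ := 1
  c _ := -1
  hc i := by rw [neg_mul_neg, one_mul]

/-- the multipliers: 2 at the index `o` -/
def rd {ι : Type} [DecidableEq ι] (n : ι → ℕ) (o : ι) : ι → ℕ := fun i => if i = o then 2 else n i

/-- standing hypotheses: `n o = 2 ^ k` and the other `n i` are odd primes -/
structure Adm2 {ι : Type} [Fintype ι] (n : ι → ℕ) (o : ι) (k N : ℕ) : Prop where
  hk : 3 ≤ k
  ho : n o = 2 ^ k
  hn : ∀ i, i ≠ o → (n i).Prime ∧ n i % 2 = 1
  hco : Pairwise (fun i j => (n i).Coprime (n j))
  hN : ∏ i, n i = N

/-- the function on the product attached to a function on the points of `cyr n r` -/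
noncomputable def lft {ι : Type} [DecidableEq ι] (n : ι → ℕ) [∀ i, NeZero (n i)] (o : ι) (k : ℕ)
    (lam : (∀ i, Option (ZMod (n i))ˣ) → ZMod 2) (a : ∀ i, ZMod (n i)) : ZMod 2 :=
  (if a o = 0 then lam (pt a) else 0) + ∑ v ∈ range k, ∑ u : (ZMod (n o))ˣ,
    if (2 : ZMod (n o)) ^ v * (u : ZMod (n o)) = a o then
      lam (Function.update (pt (fun i => (2 : ZMod (n i)) ^ (k - 1 - v) * a i)) o (some u)) else 0

/-- the indices different from `o` of the nonzero coordinates -/
def osup {ι : Type} [Fintype ι] [DecidableEq ι] {n : ι → ℕ} (o : ι)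
    (a : ∀ i, ZMod (n i)) : Finset ι := univ.filter (fun i => i ≠ o ∧ a i ≠ 0)

/-- the number of translates which do not vanish at `a` -/
noncomputable def badc {ι : Type} [Fintype ι] [DecidableEq ι] (n : ι → ℕ) [∀ i, NeZero (n i)] (o : ι)
    (k : ℕ) (lam : (cyr n (rd n o)).Pt → ZMod 2) (a : ∀ i, ZMod (n i)) : ℕ :=
  (univ.filter (fun g : (cyr n (rd n o)).GG =>
    lft n o k (fun x => lam ((cyr n (rd n o)).act g x)) a ≠ 0)).card

/-- the distribution modulo 2 attached to a set of odd primes -/
noncomputable def phiO (A : Finset ℕ) (m : ℕ) (a : ZMod m) : ZMod 2 :=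
  if addOrderOf a % 2 = 1 ∧ (addOrderOf a).primeFactors = A then 1 else 0

/-- the number of indices whose group has more than two elements -/
def big {ι : Type} (D : Dat ι) (T : Finset ι) : ℕ :=
  (T.filter (fun i => 2 < Fintype.card (D.G i))).card

/-- the 2-level of an order, at most 3 -/
def lev2 (d : ℕ) : ℕ := min 3 (padicValNat 2 d)

/-- the odd prime factors -/
def opf (d : ℕ) : Finset ℕ := d.primeFactors.erase 2

/-- the product of the half orders -/
def hh (P : Finset ℕ) : ℕ := ∏ p ∈ P, p / 2

/-- the number of elements different from 3 -/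
def sz (T : Finset ℕ) : ℕ := (T.erase 3).card

/-- twice the bound for the proportion of the translates which do not vanish, times `hh P` -/
def prb (T P : Finset ℕ) (j : ℕ) : ℕ :=
  if j = 0 then (if T ⊆ P then 2 * (sz T).ascFactorial (P.card - T.card) else 0)
  else if j = 1 then (if T ⊆ P then 4 * (sz T).ascFactorial (P.card - T.card) else 0)
  else if j = 2 then (if T.erase 4 ⊆ P then
    (if 4 ∈ T then 2 * (sz T - 1).ascFactorial (P.card + 1 - T.card)
      else 2 * (sz T).ascFactorial (P.card + 1 - T.card)) else 0)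
  else (if T.erase 4 ⊆ P then (sz T).ascFactorial (P.card + 1 - T.card) else 0)

end Pool.Agent.LB
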