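import Pool.Agent.LB.EvDefs

/-!
# EV/7 (helper951): levels and supports of elements of `ZMod N`
-/

set_option linter.unusedSectionVars false

namespace Pool.Agent.LB

open Finset Pool.Agent.N993 Pool.Agent.H916R2 Pool.Agent.N992

variable {ι : Type} [Fintype ι] [DecidableEq ι] {n : ι → ℕ} [∀ i, NeZero (n i)] {N : ℕ} [NeZero N]
  {o : ι} {k : ℕ}

lemma evlev_ord_dvd (b : ZMod N) (m : ℕ) : addOrderOf b ∣ m ↔ N ∣ m * b.val := by
  have h : m • b = ((m * b.val : ℕ) : ZMod N) := by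
    rw [nsmul_eq_mul, Nat.cast_mul, ZMod.natCast_zmod_val]
  rw [addOrderOf_dvd_iff_nsmul_eq_zero, h, ZMod.natCast_eq_zero_iff]

lemma evlev_ord_dvd_N (b : ZMod N) : addOrderOf b ∣ N := by
  rw [evlev_ord_dvd]
  exact dvd_mul_right _ _

lemma evlev_ord_ne (b : ZMod N) : addOrderOf b ≠ 0 := by
  intro h
  have := evlev_ord_dvd_N b
  rw [h, zero_dvd_iff] at this
  exact NeZero.ne N this

/-- the 2-adic level of a divisor -/
lemma evlev_val_le {d M j : ℕ} (hd : d ∣ 2 ^ k * M) (hd0 : d ≠ 0) (hM : M % 2 = 1) :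
    padicValNat 2 d ≤ j ↔ d ∣ 2 ^ j * M := by
  obtain ⟨a, e, he, hde⟩ := Nat.exists_eq_pow_mul_and_not_dvd hd0 2 (by norm_num)
  have hval : padicValNat 2 d = a := by
    rw [hde, padicValNat.mul (by positivity) (by rintro rfl; exact he (dvd_zero _)),
      padicValNat.prime_pow, padicValNat.eq_zero_of_not_dvd he, add_zero]
  have hM2 : Nat.Coprime 2 M := by
    rw [Nat.Prime.coprime_iff_not_dvd Nat.prime_two]
    omega
  have he2 : Nat.Coprime e 2 :=
    (Nat.coprime_comm.1 ((Nat.Prime.coprime_iff_not_dvd Nat.prime_two).2 he))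
  rw [hval]
  constructor
  · intro h
    rw [hde]
    apply mul_dvd_mul (pow_dvd_pow 2 h)
    have h1 : e ∣ 2 ^ k * M := (Dvd.intro_left _ hde.symm).trans hd
    exact (Nat.Coprime.pow_right k he2).dvd_of_dvd_mul_left h1
  · intro h
    have h1 : 2 ^ a ∣ 2 ^ j * M := (Dvd.intro _ hde.symm).trans h
    have h2 : 2 ^ a ∣ 2 ^ j := (Nat.Coprime.pow_left a hM2).dvd_of_dvd_mul_right h1
    exact (Nat.pow_dvd_pow_iff_le_right (by norm_num)).1 h2

lemma evlev_split (H : Adm2 n o k N) : ∃ M, N = 2 ^ k * M ∧ M % 2 = 1 := by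
  refine ⟨∏ i ∈ univ.erase o, n i, ?_, ?_⟩
  · rw [← H.ho, ← H.hN, Finset.mul_prod_erase _ _ (mem_univ o)]
  · rw [← Nat.odd_iff]
    refine Finset.prod_induction _ _ (fun a b ha hb => ha.mul hb) odd_one ?_
    intro i hi
    rw [Nat.odd_iff]
    exact (H.hn i (ne_of_mem_erase hi)).2

theorem phi_level (H : Adm2 n o k N) (b : ZMod N) :
    (padicValNat 2 (addOrderOf b) = 0 → phi n 1 b o = 0) ∧
    (padicValNat 2 (addOrderOf b) = 1 → phi n 1 b o = 2 ^ (k - 1)) ∧
    (2 ≤ padicValNat 2 (addOrderOf b) → padicValNat 2 (addOrderOf b) ≤ k ∧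
      ∃ u0 : (ZMod (n o))ˣ,
        phi n 1 b o = 2 ^ (k - padicValNat 2 (addOrderOf b)) * (u0 : ZMod (n o))) := by
  obtain ⟨M, hNM, hM⟩ := evlev_split H
  have hM0 : 0 < M := by omega
  have hphi : phi n 1 b o = ((b.val : ℕ) : ZMod (n o)) := by
    unfold phi
    rw [one_mul]
  -- the levels
  have key : ∀ j ≤ k, padicValNat 2 (addOrderOf b) ≤ j ↔ 2 ^ (k - j) ∣ b.val := by
    intro j hj
    rw [evlev_val_le (k := k) (hNM ▸ evlev_ord_dvd_N b) (evlev_ord_ne b) hM, evlev_ord_dvd]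
    generalize b.val = v
    rw [hNM]
    have h1 : 2 ^ k * M = (2 ^ j * M) * 2 ^ (k - j) := by
      have : 2 ^ k = 2 ^ j * 2 ^ (k - j) := by
        rw [← pow_add]
        congr 1
        omega
      rw [this]
      ring
    rw [h1]
    exact Nat.mul_dvd_mul_iff_left (by positivity)
  have hle : padicValNat 2 (addOrderOf b) ≤ k := by
    rw [key k le_rfl]
    simp
  -- the factorisation
  have fac : ∀ j, padicValNat 2 (addOrderOf b) = j → 1 ≤ j → ∃ w, b.val = 2 ^ (k - j) * w ∧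
      w % 2 = 1 := by
    intro j hj hj1
    have hjk : j ≤ k := hj ▸ hle
    obtain ⟨w, hw⟩ := (key j hjk).1 hj.le
    refine ⟨w, hw, ?_⟩
    by_contra hcon
    have h2 : 2 ∣ w := by omega
    obtain ⟨w', rfl⟩ := h2
    have h3 : padicValNat 2 (addOrderOf b) ≤ j - 1 := by
      rw [key (j - 1) (by omega), hw]
      have h4 : k - (j - 1) = (k - j) + 1 := by omega
      rw [h4, pow_succ]
      exact ⟨w', by ring⟩
    omega
  refine ⟨?_, ?_, ?_⟩
  · intro h
    rw [hphi, ZMod.natCast_eq_zero_iff, H.ho]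
    have := (key 0 (Nat.zero_le _)).1 h.le
    simpa using this
  · intro h
    obtain ⟨w, hw, hw2⟩ := fac 1 h le_rfl
    have hk := H.hk
    rw [hphi, hw]
    have h1 : w = 1 + 2 * (w / 2) := by omega
    have h2 : ((2 ^ (k - 1) * w : ℕ) : ZMod (n o)) = ((2 ^ (k - 1) : ℕ) : ZMod (n o)) := by
      rw [ZMod.natCast_eq_natCast_iff, h1]
      have h3 : 2 ^ (k - 1) * (1 + 2 * (w / 2)) = 2 ^ (k - 1) + n o * (w / 2) := by
        rw [H.ho]
        have : 2 ^ k = 2 ^ (k - 1) * 2 := by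
          rw [← pow_succ]
          congr 1
          omega
        rw [this]
        ring
      rw [h3]
      exact (Nat.ModEq.refl _).symm.trans (by simp [Nat.ModEq])
    rw [h2]
    push_cast
    rfl
  · intro h
    refine ⟨hle, ?_⟩
    obtain ⟨w, hw, hw2⟩ := fac _ rfl (by omega)
    have hcop : Nat.Coprime w (n o) := by
      rw [H.ho]
      apply Nat.Coprime.pow_right
      rw [Nat.coprime_comm, Nat.Prime.coprime_iff_not_dvd Nat.prime_two]
      omega
    refine ⟨ZMod.unitOfCoprime w hcop, ?_⟩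
    rw [hphi, ZMod.coe_unitOfCoprime]
    conv_lhs => rw [hw]
    push_cast
    rfl

theorem osup_phi (H : Adm2 n o k N) (b : ZMod N) (i : ι) :
    i ∈ osup o (phi n 1 b) ↔ i ≠ o ∧ n i ∣ addOrderOf b := by
  unfold osup
  rw [mem_filter]
  simp only [mem_univ, true_and]
  refine and_congr_right fun hi => ?_
  have hp := (H.hn i hi).1
  have hphi : phi n 1 b i = ((b.val : ℕ) : ZMod (n i)) := by
    unfold phi
    rw [one_mul]
  rw [hphi, Ne, ZMod.natCast_eq_zero_iff]
  set M := ∏ j ∈ univ.erase i, n j with hM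
  have hNM : N = n i * M := by
    rw [← H.hN, Finset.mul_prod_erase _ _ (mem_univ i)]
  have hcop : Nat.Coprime (n i) M := by
    apply Nat.Coprime.prod_right
    intro j hj
    exact H.hco (ne_of_mem_erase hj).symm
  have hM0 : 0 < M := by
    rcases Nat.eq_zero_or_pos M with h | h
    · rw [h, mul_zero] at hNM
      exact absurd hNM (NeZero.ne N)
    · exact h
  have h1 : addOrderOf b ∣ M ↔ n i ∣ b.val := by
    rw [evlev_ord_dvd]
    generalize b.val = v
    rw [hNM, mul_comm (n i) M]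
    exact Nat.mul_dvd_mul_iff_left hM0
  rw [← h1]
  constructor
  · intro h
    by_contra hcon
    apply h
    have h2 : Nat.Coprime (n i) (addOrderOf b) := (Nat.Prime.coprime_iff_not_dvd hp).2 hcon
    have h3 : addOrderOf b ∣ n i * M := hNM ▸ evlev_ord_dvd_N b
    exact h2.symm.dvd_of_dvd_mul_left h3
  · intro h h2
    have h3 : n i ∣ M := h.trans h2
    have h4 := Nat.Coprime.eq_one_of_dvd hcop h3
    exact hp.one_lt.ne' h4

end Pool.Agent.LB
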