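import Pool.Agent.LB.EvDefs

/-!
The lift of a distribution modulo 2 on the points to `ZMod (2 ^ k * M)`.
-/

set_option linter.unusedSectionVars false

namespace Pool.Agent.LB

open Finset Pool.Agent.N993 Pool.Agent.H916R2 Pool.Agent.N992

namespace EvLft

section pts

variable {ι : Type} [DecidableEq ι] {n : ι → ℕ} [∀ i, NeZero (n i)]

/-- the points, in plain form -/
abbrev PP (n : ι → ℕ) : Type := ∀ i, Option (ZMod (n i))ˣ

/-- the point of an element, in plain form -/
noncomputable def qt (a : ∀ i, ZMod (n i)) : PP n := pt a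

/-- the action, in plain form -/
def ac (b : ∀ i, (ZMod (n i))ˣ) (x : PP n) : PP n := fun i => (x i).map (fun u => b i * u)

lemma qt_iff (a : ∀ i, ZMod (n i)) (i : ι) (u : (ZMod (n i))ˣ) :
    qt a i = some u ↔ (u : ZMod (n i)) = a i := by
  unfold qt pt
  constructor
  · intro h
    by_cases hu : IsUnit (a i)
    · rw [dif_pos hu] at h
      have h1 : hu.unit = u := Option.some.inj h
      rw [← h1]; exact hu.unit_spec
    · rw [dif_neg hu] at h
      cases h
  · intro h
    have hu : IsUnit (a i) := h ▸ u.isUnit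
    rw [dif_pos hu]
    congr 1
    apply Units.ext
    rw [h]; exact hu.unit_spec

lemma ac_iff (b : ∀ i, (ZMod (n i))ˣ) (x : PP n) (i : ι) (u : (ZMod (n i))ˣ) :
    ac b x i = some u ↔ x i = some ((b i)⁻¹ * u) := by
  unfold ac
  rw [Option.map_eq_some_iff]
  constructor
  · rintro ⟨v, hv, hvu⟩
    rw [hv, ← hvu, inv_mul_cancel_left]
  · intro h
    exact ⟨_, h, mul_inv_cancel_left _ _⟩

lemma pp_ext {x y : PP n} (h : ∀ i (u : (ZMod (n i))ˣ), x i = some u ↔ y i = some u) : x = y := by
  funext i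
  apply Option.ext
  intro u
  exact h i u

lemma up_iff (x : PP n) (o : ι) (w : (ZMod (n o))ˣ) (i : ι) (hi : i ≠ o) (u : (ZMod (n i))ˣ) :
    Function.update x o (some w) i = some u ↔ x i = some u := by
  rw [Function.update_of_ne hi]

/-- updating a coordinate by a unit -/
lemma qt_update_unit (a : ∀ i, ZMod (n i)) (i : ι) (u : (ZMod (n i))ˣ) :
    qt (Function.update a i (u : ZMod (n i))) = Function.update (qt a) i (some u) := by
  apply pp_ext
  intro j w
  by_cases h : j = i
  · subst h
    rw [qt_iff, Function.update_self, Function.update_self]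
    constructor
    · intro h; rw [Units.ext h]
    · intro h; rw [Option.some.inj h]
  · rw [qt_iff, Function.update_of_ne h, Function.update_of_ne h, qt_iff]

/-- updating a coordinate by a nonunit -/
lemma qt_update_non (a : ∀ i, ZMod (n i)) (i : ι) {v : ZMod (n i)} (hv : ¬ IsUnit v) :
    qt (Function.update a i v) = Function.update (qt a) i none := by
  apply pp_ext
  intro j w
  by_cases h : j = i
  · subst h
    rw [qt_iff, Function.update_self, Function.update_self]
    constructor
    · intro h; exact absurd (h ▸ w.isUnit) hv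
    · intro h; cases h
  · rw [qt_iff, Function.update_of_ne h, Function.update_of_ne h, qt_iff]

/-- multiplication by a number which is a unit at all coordinates but one -/
lemma qt_smul (a : ∀ i, ZMod (n i)) (i : ι) (q : ℕ) (b : ∀ i, (ZMod (n i))ˣ)
    (hb : ∀ j, j ≠ i → ((b j : (ZMod (n j))ˣ) : ZMod (n j)) = q)
    (hq : ∀ v : ZMod (n i), ¬ IsUnit ((q : ZMod (n i)) * v)) :
    qt (fun j => (q : ZMod (n j)) * a j) = ac b (Function.update (qt a) i none) := by
  apply pp_ext
  intro j w
  rw [qt_iff, ac_iff]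
  by_cases h : j = i
  · subst h
    rw [Function.update_self]
    constructor
    · intro h; exact absurd (h ▸ w.isUnit) (hq _)
    · intro h; cases h
  · rw [Function.update_of_ne h, qt_iff, ← hb j h]
    constructor
    · intro h1
      rw [Units.val_mul, h1, ← mul_assoc, ← Units.val_mul, inv_mul_cancel, Units.val_one, one_mul]
    · intro h1
      rw [← h1, ← Units.val_mul, mul_inv_cancel_left]

lemma qt_neg (a : ∀ i, ZMod (n i)) : qt (fun i => - a i) = ac (fun _ => -1) (qt a) := by
  apply pp_ext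
  intro j w
  rw [qt_iff, ac_iff, qt_iff, Units.val_mul]
  have : (((-1 : (ZMod (n j))ˣ)⁻¹ : (ZMod (n j))ˣ) : ZMod (n j)) = -1 := by
    rw [inv_neg, inv_one, Units.val_neg, Units.val_one]
  rw [this]
  constructor
  · intro h; rw [h]; ring
  · intro h; rw [← h]; ring

lemma ac_update_some (b : ∀ i, (ZMod (n i))ˣ) (x : PP n) (i : ι) (u : (ZMod (n i))ˣ) :
    ac b (Function.update x i (some u)) = Function.update (ac b x) i (some (b i * u)) := by
  funext j
  by_cases h : j = i
  · subst h
    rw [Function.update_self]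
    unfold ac
    rw [Function.update_self]; rfl
  · rw [Function.update_of_ne h]
    unfold ac
    rw [Function.update_of_ne h]

end pts

section lifts

variable {ι : Type} [Fintype ι] [LinearOrder ι] {n : ι → ℕ} [∀ i, NeZero (n i)] {N : ℕ} [NeZero N]
  {o : ι} {k : ℕ}

/-- the relations, in plain form -/
def Rl (n : ι → ℕ) [∀ i, NeZero (n i)] (o : ι) (lam : PP n → ZMod 2) : Prop :=
  ∀ (i : ι) (x : PP n), x i = none →
    lam x + ∑ u : (ZMod (n i))ˣ, lam (Function.update x i (some u)) =
      lam (ac (fun j => unOf (rd n o i) (n j)) x)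

lemma rl_of {lam : (cyr n (rd n o)).Pt → ZMod 2} (hD : (cyr n (rd n o)).IsD0 univ lam) :
    Rl n o lam := by
  intro i x hx
  have h := hD i (mem_univ i) x (fun i hi => absurd (mem_univ i) hi) hx
  have h1 : (cyr n (rd n o)).act ((cyr n (rd n o)).β i) x = x := by
    change (cyr n (rd n o)).act (1 : (cyr n (rd n o)).GG) x = x
    exact Dat.act_one (D := cyr n (rd n o)) x
  rw [h1] at h
  have h2 : ∑ u : (ZMod (n i))ˣ, lam (Function.update x i (some u)) =
      lam (ac (fun j => unOf (rd n o i) (n j)) x) - lam x := h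
  rw [h2]; ring

/-- the part of index `v` -/
noncomputable def Gp (n : ι → ℕ) [∀ i, NeZero (n i)] (o : ι) (k : ℕ) (lam : PP n → ZMod 2)
    (v : ℕ) (c : ∀ i, ZMod (n i)) (z : ZMod (n o)) : ZMod 2 :=
  ∑ u : (ZMod (n o))ˣ, if (2 : ZMod (n o)) ^ v * (u : ZMod (n o)) = z then
    lam (Function.update (qt (fun i => (2 : ZMod (n i)) ^ (k - 1 - v) * c i)) o (some u)) else 0

lemma lft_eq (lam : PP n → ZMod 2) (a : ∀ i, ZMod (n i)) :
    lft n o k lam a = (if a o = 0 then lam (qt a) else 0) +
      ∑ v ∈ range k, Gp n o k lam v a (a o) := rfl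

/-- points which agree away from `o` -/
lemma up_congr {a c : ∀ i, ZMod (n i)} (h : ∀ i, i ≠ o → a i = c i) (w : Option (ZMod (n o))ˣ) :
    Function.update (qt a) o w = Function.update (qt c) o w := by
  funext i
  by_cases hi : i = o
  · subst hi
    rw [Function.update_self, Function.update_self]
  · rw [Function.update_of_ne hi, Function.update_of_ne hi]
    apply Option.ext
    intro u
    rw [qt_iff, qt_iff, h i hi]

lemma Gp_congr (lam : PP n → ZMod 2) (v : ℕ) {a c : ∀ i, ZMod (n i)} (h : ∀ i, i ≠ o → a i = c i)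
    (z : ZMod (n o)) : Gp n o k lam v a z = Gp n o k lam v c z := by
  unfold Gp
  refine sum_congr rfl fun u _ => ?_
  rw [up_congr (a := fun i => (2 : ZMod (n i)) ^ (k - 1 - v) * a i)
    (c := fun i => (2 : ZMod (n i)) ^ (k - 1 - v) * c i) (fun i hi => by rw [h i hi])]

/-! ### The ring modulo a power of 2 -/

lemma two_facts (m k : ℕ) [NeZero m] (hm : m = 2 ^ k) (hk : 3 ≤ k) :
    (2 : ZMod m) ^ (k - 1) ≠ 0 ∧ (∀ x : ZMod m, 2 * x = 0 ↔ x = 0 ∨ x = 2 ^ (k - 1)) ∧
    (∀ u : (ZMod m)ˣ, (2 : ZMod m) ^ (k - 1) * (u : ZMod m) = 2 ^ (k - 1)) ∧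
    (∀ x : ZMod m, ¬ IsUnit (2 * x)) := by
  obtain ⟨K, rfl⟩ : ∃ K, k = K + 1 := ⟨k - 1, by omega⟩
  rw [Nat.add_sub_cancel]
  subst hm
  have hz : (2 : ZMod (2 ^ (K + 1))) * 2 ^ K = 0 := by
    have := ZMod.natCast_self (2 ^ (K + 1))
    push_cast at this
    rw [← pow_succ']; exact this
  have hne : (2 : ZMod (2 ^ (K + 1))) ^ K ≠ 0 := by
    intro h
    have h1 : ((2 ^ K : ℕ) : ZMod (2 ^ (K + 1))) = 0 := by push_cast; exact h
    rw [ZMod.natCast_eq_zero_iff] at h1
    have := (Nat.pow_dvd_pow_iff_le_right (by norm_num : 1 < 2)).mp h1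
    omega
  refine ⟨hne, ?_, ?_, ?_⟩
  · intro x
    constructor
    · intro h
      have h1 : ((2 * x.val : ℕ) : ZMod (2 ^ (K + 1))) = 0 := by
        push_cast; rw [ZMod.natCast_zmod_val]; exact h
      rw [ZMod.natCast_eq_zero_iff] at h1
      have h1' : 2 * 2 ^ K ∣ 2 * x.val := by rw [← pow_succ']; exact h1
      have h2 : 2 ^ K ∣ x.val := Nat.dvd_of_mul_dvd_mul_left (by norm_num) h1'
      obtain ⟨c, hc⟩ := h2
      have h3 := ZMod.val_lt x
      rw [hc, pow_succ] at h3
      have h4 : c < 2 := Nat.lt_of_mul_lt_mul_left h3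
      have h5 : x = ((x.val : ℕ) : ZMod (2 ^ (K + 1))) := (ZMod.natCast_zmod_val x).symm
      interval_cases c
      · left; rw [h5, hc]; simp
      · right; rw [h5, hc]; push_cast; ring
    · rintro (h | h)
      · rw [h, mul_zero]
      · rw [h, hz]
  · intro u
    have h1 := ZMod.val_coe_unit_coprime u
    have h2 : Nat.Coprime (u : ZMod (2 ^ (K + 1))).val 2 :=
      Nat.Coprime.coprime_dvd_right (dvd_pow_self 2 (by omega)) h1
    have h3 : (u : ZMod (2 ^ (K + 1))).val % 2 = 1 := by
      rw [Nat.coprime_two_right] at h2; exact Nat.odd_iff.mp h2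
    obtain ⟨t, ht⟩ : ∃ t, (u : ZMod (2 ^ (K + 1))).val = 2 * t + 1 :=
      ⟨(u : ZMod (2 ^ (K + 1))).val / 2, by omega⟩
    have h5 : (u : ZMod (2 ^ (K + 1))) = ((2 * t + 1 : ℕ) : ZMod (2 ^ (K + 1))) := by
      rw [← ht, ZMod.natCast_zmod_val]
    rw [h5]
    push_cast
    have : (2 : ZMod (2 ^ (K + 1))) ^ K * (2 * t + 1) = (2 * 2 ^ K) * t + 2 ^ K := by ring
    rw [this, hz, zero_mul, zero_add]
  · intro x h
    have h1 : IsUnit (2 : ZMod (2 ^ (K + 1))) := isUnit_of_mul_isUnit_left h
    have h2 : IsUnit ((2 : ℕ) : ZMod (2 ^ (K + 1))) := by exact_mod_cast h1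
    rw [ZMod.isUnit_iff_coprime] at h2
    have h3 : Nat.Coprime 2 2 := Nat.Coprime.coprime_dvd_right (dvd_pow_self 2 (by omega)) h2
    norm_num at h3

lemma pow_ne (m k v : ℕ) [NeZero m] (hm : m = 2 ^ k) (hv : v < k) (u : (ZMod m)ˣ) :
    (2 : ZMod m) ^ v * (u : ZMod m) ≠ 0 := by
  subst hm
  intro h
  rw [Units.mul_left_eq_zero] at h
  have h1 : ((2 ^ v : ℕ) : ZMod (2 ^ k)) = 0 := by push_cast; exact h
  rw [ZMod.natCast_eq_zero_iff] at h1
  have := (Nat.pow_dvd_pow_iff_le_right (by norm_num : 1 < 2)).mp h1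
  omega

/-! ### The relations of the lift -/

lemma Gp_neg {lam : PP n → ZMod 2} (hinv : ∀ x, lam (ac (fun _ => -1) x) = lam x) (v : ℕ)
    (a : ∀ i, ZMod (n i)) (z : ZMod (n o)) :
    Gp n o k lam v (fun i => - a i) (-z) = Gp n o k lam v a z := by
  unfold Gp
  rw [← Equiv.sum_comp (Equiv.neg (ZMod (n o))ˣ)]
  refine sum_congr rfl fun u _ => ?_
  have h1 : ((2 : ZMod (n o)) ^ v * (((Equiv.neg (ZMod (n o))ˣ) u : (ZMod (n o))ˣ) : ZMod (n o))
      = -z) ↔ (2 : ZMod (n o)) ^ v * (u : ZMod (n o)) = z := by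
    rw [Equiv.neg_apply, Units.val_neg, mul_neg, neg_inj]
  have h2 : (fun i => (2 : ZMod (n i)) ^ (k - 1 - v) * (- a i)) =
      fun i => - ((2 : ZMod (n i)) ^ (k - 1 - v) * a i) := by
    funext i; ring
  have h3 : lam (Function.update (qt (fun i => (2 : ZMod (n i)) ^ (k - 1 - v) * (- a i))) o
      (some ((Equiv.neg (ZMod (n o))ˣ) u))) =
      lam (Function.update (qt (fun i => (2 : ZMod (n i)) ^ (k - 1 - v) * a i)) o (some u)) := by
    rw [← hinv (Function.update (qt (fun i => (2 : ZMod (n i)) ^ (k - 1 - v) * a i)) o (some u)),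
      ac_update_some, neg_one_mul, ← qt_neg, h2]
    rfl
  by_cases hc : (2 : ZMod (n o)) ^ v * (u : ZMod (n o)) = z
  · rw [if_pos (h1.mpr hc), if_pos hc, h3]
  · rw [if_neg (fun h => hc (h1.mp h)), if_neg hc]

lemma lft_neg {lam : PP n → ZMod 2} (hinv : ∀ x, lam (ac (fun _ => -1) x) = lam x)
    (a : ∀ i, ZMod (n i)) : lft n o k lam (fun i => - a i) = lft n o k lam a := by
  rw [lft_eq, lft_eq]
  congr 1
  · by_cases h : a o = 0
    · rw [if_pos (by rw [h, neg_zero]), if_pos h, qt_neg, hinv]
    · rw [if_neg (fun h' => h (neg_eq_zero.mp h')), if_neg h]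
  · exact sum_congr rfl fun v _ => Gp_neg hinv v a (a o)

lemma not_unit_zero {m : ℕ} (hm : m ≠ 1) : ¬ IsUnit (0 : ZMod m) := by
  have : Nontrivial (ZMod m) := by
    rcases Nat.eq_zero_or_pos m with h | h
    · subst h; infer_instance
    · have : Fact (1 < m) := ⟨by omega⟩
      infer_instance
  exact _root_.not_isUnit_zero

lemma adm_ne_one (H : Adm2 n o k N) (i : ι) : n i ≠ 1 := by
  by_cases h : i = o
  · rw [h, H.ho]
    have := H.hk
    intro h1
    have h2 : 2 ^ 3 ≤ 2 ^ k := Nat.pow_le_pow_right (by norm_num) this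
    omega
  · exact (H.hn i h).1.ne_one

lemma sum_prime' {i : ι} (hp : (n i).Prime) (g : ZMod (n i) → ZMod 2) :
    ∑ j : ZMod (n i), g j = g 0 + ∑ u : (ZMod (n i))ˣ, g (u : ZMod (n i)) :=
  sum_prime hp g

lemma sum_qt (H : Adm2 n o k N) {lam : PP n → ZMod 2} (hR : Rl n o lam) {i : ι} (hi : i ≠ o)
    (c : ∀ i, ZMod (n i)) :
    ∑ w : ZMod (n i), lam (qt (Function.update c i w)) =
      lam (qt (fun j => ((n i : ℕ) : ZMod (n j)) * c j)) := by
  have hp := (H.hn i hi).1
  have hz : ¬ IsUnit (0 : ZMod (n i)) := not_unit_zero (adm_ne_one H i)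
  rw [sum_prime' hp, qt_update_non c i hz]
  simp only [qt_update_unit]
  have h1 := hR i (Function.update (qt c) i none) (Function.update_self ..)
  simp only [Function.update_idem] at h1
  rw [h1]
  congr 1
  rw [qt_smul c i (n i) (fun j => unOf (rd n o i) (n j))]
  · intro j hj
    have : rd n o i = n i := by unfold rd; rw [if_neg hi]
    rw [this]
    exact unOf_val (H.hco (Ne.symm hj))
  · intro v
    rw [ZMod.natCast_self, zero_mul]
    exact hz

lemma Gp_sum (H : Adm2 n o k N) {lam : PP n → ZMod 2} (hR : Rl n o lam) {i : ι} (hi : i ≠ o)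
    (v : ℕ) (a : ∀ i, ZMod (n i)) (z : ZMod (n o)) :
    ∑ w : ZMod (n i), Gp n o k lam v (Function.update a i w) z =
      Gp n o k lam v (fun j => ((n i : ℕ) : ZMod (n j)) * a j) (((n i : ℕ) : ZMod (n o)) * z) := by
  have hQ : ((unOf (n i) (n o) : (ZMod (n o))ˣ) : ZMod (n o)) = ((n i : ℕ) : ZMod (n o)) :=
    unOf_val (H.hco hi)
  have h2u : IsUnit ((2 : ZMod (n i)) ^ (k - 1 - v)) := by
    have h1 : IsUnit ((2 : ℕ) : ZMod (n i)) := by
      rw [ZMod.isUnit_iff_coprime, Nat.coprime_two_left]
      exact Nat.odd_iff.mpr (H.hn i hi).2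
    have h2 : IsUnit (2 : ZMod (n i)) := by exact_mod_cast h1
    exact h2.pow _
  obtain ⟨t, ht⟩ := h2u
  unfold Gp
  rw [sum_comm]
  refine Eq.trans ?_ (Equiv.sum_comp (Equiv.mulLeft (unOf (n i) (n o))) _)
  refine sum_congr rfl fun u _ => ?_
  have hval : (((Equiv.mulLeft (unOf (n i) (n o))) u : (ZMod (n o))ˣ) : ZMod (n o)) =
      ((n i : ℕ) : ZMod (n o)) * (u : ZMod (n o)) := by
    rw [Equiv.coe_mulLeft, Units.val_mul, hQ]
  have hcond : ((2 : ZMod (n o)) ^ v * (((Equiv.mulLeft (unOf (n i) (n o))) u : (ZMod (n o))ˣ) :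
      ZMod (n o)) = ((n i : ℕ) : ZMod (n o)) * z) ↔ (2 : ZMod (n o)) ^ v * (u : ZMod (n o)) = z := by
    rw [hval, mul_left_comm, ← hQ]
    exact Units.mul_right_inj _
  by_cases hc : (2 : ZMod (n o)) ^ v * (u : ZMod (n o)) = z
  · rw [if_pos (hcond.mpr hc)]
    simp only [if_pos hc]
    have e1 : ∀ w : ZMod (n i), Function.update (qt (fun j => (2 : ZMod (n j)) ^ (k - 1 - v) *
        Function.update a i w j)) o (some u) =
        qt (Function.update (Function.update (fun j => (2 : ZMod (n j)) ^ (k - 1 - v) * a j) o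
          (u : ZMod (n o))) i ((t : ZMod (n i)) * w)) := by
      intro w
      rw [← qt_update_unit]
      congr 1
      funext j
      by_cases hj : j = i
      · subst hj
        rw [Function.update_of_ne hi, Function.update_self, Function.update_self, ht]
      · rw [Function.update_of_ne hj]
        by_cases hjo : j = o
        · subst hjo
          rw [Function.update_self, Function.update_self]
        · rw [Function.update_of_ne hjo, Function.update_of_ne hjo, Function.update_of_ne hj]
    simp only [e1]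
    have e2 := Equiv.sum_comp (Units.mulLeft t) (fun w : ZMod (n i) =>
      lam (qt (Function.update (Function.update (fun j => (2 : ZMod (n j)) ^ (k - 1 - v) * a j) o
          (u : ZMod (n o))) i w)))
    have e3 : ∑ w : ZMod (n i), lam (qt (Function.update (Function.update
        (fun j => (2 : ZMod (n j)) ^ (k - 1 - v) * a j) o
          (u : ZMod (n o))) i ((t : ZMod (n i)) * w))) = _ := e2
    rw [e3, sum_qt H hR hi]
    congr 1
    rw [← qt_update_unit]
    congr 1
    funext j
    by_cases hjo : j = o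
    · subst hjo
      rw [Function.update_self, Function.update_self, hval]
    · rw [Function.update_of_ne hjo, Function.update_of_ne hjo]
      ring
  · rw [if_neg (fun h => hc (hcond.mp h))]
    simp only [if_neg hc, sum_const_zero]

lemma lft_sum (H : Adm2 n o k N) {lam : PP n → ZMod 2} (hR : Rl n o lam) {i : ι} (hi : i ≠ o)
    (a : ∀ i, ZMod (n i)) :
    ∑ w : ZMod (n i), lft n o k lam (Function.update a i w) =
      lft n o k lam (fun j => ((n i : ℕ) : ZMod (n j)) * a j) := by
  simp only [lft_eq, Function.update_of_ne (Ne.symm hi)]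
  rw [sum_add_distrib]
  congr 1
  · have hQ : ((unOf (n i) (n o) : (ZMod (n o))ˣ) : ZMod (n o)) = ((n i : ℕ) : ZMod (n o)) :=
      unOf_val (H.hco hi)
    by_cases h : a o = 0
    · simp only [if_pos h]
      rw [if_pos (by rw [h, mul_zero]), sum_qt H hR hi]
    · simp only [if_neg h]
      rw [sum_const_zero, if_neg]
      intro h'
      rw [← hQ, Units.mul_right_eq_zero] at h'
      exact h h'
  · rw [sum_comm]
    exact sum_congr rfl fun v _ => Gp_sum H hR hi v a (a o)

lemma Gp_zero (H : Adm2 n o k N) (lam : PP n → ZMod 2) (a : ∀ i, ZMod (n i)) (z : ZMod (n o)) :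
    Gp n o k lam 0 a (2 * z) = 0 := by
  obtain ⟨_, _, _, h4⟩ := two_facts (n o) k H.ho H.hk
  unfold Gp
  refine sum_eq_zero fun u _ => ?_
  rw [if_neg]
  intro h
  rw [pow_zero, one_mul] at h
  exact h4 z (h ▸ u.isUnit)

lemma Gp_succ (H : Adm2 n o k N) (lam : PP n → ZMod 2) (a : ∀ i, ZMod (n i)) (z : ZMod (n o))
    {v : ℕ} (hv : v + 1 < k) :
    Gp n o k lam (v + 1) (fun i => 2 * a i) (2 * z) =
      Gp n o k lam v a z + Gp n o k lam v a (z + 2 ^ (k - 1)) := by
  obtain ⟨h1, h2, _, _⟩ := two_facts (n o) k H.ho H.hk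
  unfold Gp
  rw [← sum_add_distrib]
  refine sum_congr rfl fun u _ => ?_
  have e1 : (fun i => (2 : ZMod (n i)) ^ (k - 1 - (v + 1)) * (2 * a i)) =
      fun i => (2 : ZMod (n i)) ^ (k - 1 - v) * a i := by
    funext i
    have : k - 1 - v = (k - 1 - (v + 1)) + 1 := by omega
    rw [this, pow_succ]; ring
  rw [e1]
  have e2 : ((2 : ZMod (n o)) ^ (v + 1) * (u : ZMod (n o)) = 2 * z) ↔
      ((2 : ZMod (n o)) ^ v * (u : ZMod (n o)) = z ∨
        (2 : ZMod (n o)) ^ v * (u : ZMod (n o)) = z + 2 ^ (k - 1)) := by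
    have e3 : (2 : ZMod (n o)) * ((2 : ZMod (n o)) ^ v * (u : ZMod (n o)) - z) =
        (2 : ZMod (n o)) ^ (v + 1) * (u : ZMod (n o)) - 2 * z := by ring
    rw [← sub_eq_zero, ← e3, h2, sub_eq_zero, sub_eq_iff_eq_add, add_comm ((2 : ZMod (n o)) ^ (k - 1))]
  by_cases c1 : (2 : ZMod (n o)) ^ v * (u : ZMod (n o)) = z
  · have c2 : ¬ (2 : ZMod (n o)) ^ v * (u : ZMod (n o)) = z + 2 ^ (k - 1) := by
      rw [c1]
      intro h
      exact h1 (left_eq_add.mp h)
    rw [if_pos (e2.mpr (Or.inl c1)), if_pos c1, if_neg c2, add_zero]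
  · by_cases c2 : (2 : ZMod (n o)) ^ v * (u : ZMod (n o)) = z + 2 ^ (k - 1)
    · rw [if_pos (e2.mpr (Or.inr c2)), if_neg c1, if_pos c2, zero_add]
    · rw [if_neg (fun h => (e2.mp h).elim c1 c2), if_neg c1, if_neg c2, add_zero]

lemma Gp_top (H : Adm2 n o k N) (lam : PP n → ZMod 2) (a : ∀ i, ZMod (n i)) (z : ZMod (n o)) :
    Gp n o k lam (k - 1) a z = if z = 2 ^ (k - 1) then
      ∑ u : (ZMod (n o))ˣ, lam (Function.update (qt a) o (some u)) else 0 := by
  obtain ⟨_, _, h3, _⟩ := two_facts (n o) k H.ho H.hk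
  unfold Gp
  have e1 : (fun i => (2 : ZMod (n i)) ^ (k - 1 - (k - 1)) * a i) = a := by
    funext i
    rw [Nat.sub_self, pow_zero, one_mul]
  rw [e1]
  simp only [h3]
  by_cases c : z = 2 ^ (k - 1)
  · rw [if_pos c]
    exact sum_congr rfl fun u _ => if_pos c.symm
  · rw [if_neg c]
    exact sum_eq_zero fun u _ => if_neg (Ne.symm c)

lemma rel_o (H : Adm2 n o k N) {lam : PP n → ZMod 2} (hR : Rl n o lam) (a : ∀ i, ZMod (n i)) :
    lam (Function.update (qt a) o none) +
      ∑ u : (ZMod (n o))ˣ, lam (Function.update (qt a) o (some u)) =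
      lam (qt (fun j => 2 * a j)) := by
  obtain ⟨_, _, _, h4⟩ := two_facts (n o) k H.ho H.hk
  have h1 := hR o (Function.update (qt a) o none) (Function.update_self ..)
  simp only [Function.update_idem] at h1
  rw [h1]
  have h2 := qt_smul a o 2 (fun j => unOf (rd n o o) (n j)) ?_ ?_
  · have h3 : (fun j => ((2 : ℕ) : ZMod (n j)) * a j) = fun j => 2 * a j := by
      funext j; push_cast; rfl
    rw [h3] at h2
    rw [h2]
  · intro j hj
    have : rd n o o = 2 := by unfold rd; rw [if_pos rfl]
    rw [this]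
    apply unOf_val
    rw [Nat.coprime_two_left]
    exact Nat.odd_iff.mpr (H.hn j hj).2
  · intro v
    push_cast
    exact h4 v

lemma lft_two (H : Adm2 n o k N) {lam : PP n → ZMod 2} (hR : Rl n o lam)
    (a : ∀ i, ZMod (n i)) :
    lft n o k lam a + lft n o k lam (Function.update a o (a o + 2 ^ (k - 1))) =
      lft n o k lam (fun j => 2 * a j) := by
  obtain ⟨h1, h2, _, _⟩ := two_facts (n o) k H.ho H.hk
  have hz : ¬ IsUnit (0 : ZMod (n o)) := not_unit_zero (adm_ne_one H o)
  rw [lft_eq, lft_eq, lft_eq]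
  have e1 : ∀ v, Gp n o k lam v (Function.update a o (a o + 2 ^ (k - 1)))
      (Function.update a o (a o + 2 ^ (k - 1)) o) = Gp n o k lam v a (a o + 2 ^ (k - 1)) := by
    intro v
    rw [Function.update_self]
    exact Gp_congr lam v (fun i hi => Function.update_of_ne hi _ _) _
  simp only [e1]
  have hk : range k = range ((k - 1) + 1) := by
    have := H.hk
    rw [Nat.sub_add_cancel (by omega)]
  have e2 : ∑ v ∈ range k, Gp n o k lam v (fun j => 2 * a j) (2 * a o) =
      ∑ v ∈ range (k - 1), (Gp n o k lam v a (a o) + Gp n o k lam v a (a o + 2 ^ (k - 1))) := by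
    rw [hk, sum_range_succ', Gp_zero H, add_zero]
    refine sum_congr rfl fun v hv => ?_
    exact Gp_succ H lam a (a o) (by have := mem_range.mp hv; omega)
  rw [e2, hk, sum_range_succ, sum_range_succ, sum_add_distrib, Gp_top H, Gp_top H]
  have e3 : (a o + 2 ^ (k - 1) = 2 ^ (k - 1)) ↔ a o = 0 := by
    constructor
    · intro h; exact add_eq_right.mp h
    · intro h; rw [h, zero_add]
  have hq : ∀ c : ∀ i, ZMod (n i), c o = 0 → (∀ i, i ≠ o → c i = a i) →
      qt c = Function.update (qt a) o none := by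
    intro c hc hca
    rw [← up_congr hca none]
    have : c = Function.update c o 0 := by rw [← hc, Function.update_eq_self]
    rw [this, qt_update_non c o hz, Function.update_idem]
  have key : (if a o = 0 then lam (qt a) else 0) +
      (if Function.update a o (a o + 2 ^ (k - 1)) o = 0 then
        lam (qt (Function.update a o (a o + 2 ^ (k - 1)))) else 0) +
      ((if a o = 2 ^ (k - 1) then
        ∑ u : (ZMod (n o))ˣ, lam (Function.update (qt a) o (some u)) else 0) +
      (if a o + 2 ^ (k - 1) = 2 ^ (k - 1) then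
        ∑ u : (ZMod (n o))ˣ, lam (Function.update (qt a) o (some u)) else 0)) =
      (if 2 * a o = 0 then lam (qt (fun j => 2 * a j)) else 0) := by
    rw [Function.update_self]
    by_cases c0 : a o = 0
    · have c1 : ¬ a o = 2 ^ (k - 1) := by rw [c0]; exact Ne.symm h1
      have c2 : ¬ a o + 2 ^ (k - 1) = 0 := by rw [c0, zero_add]; exact h1
      have e4 : lam (qt a) = lam (Function.update (qt a) o none) :=
        congrArg lam (hq a c0 (fun _ _ => rfl))
      rw [if_pos c0, if_neg c2, if_neg c1, if_pos (e3.mpr c0), if_pos ((h2 _).mpr (Or.inl c0)),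
        add_zero, zero_add, e4]
      exact rel_o H hR a
    · by_cases c1 : a o = 2 ^ (k - 1)
      · have c2 : a o + 2 ^ (k - 1) = 0 := by
          rw [c1, ← two_mul]; exact (h2 _).mpr (Or.inr rfl)
        rw [if_neg c0, if_pos c2, if_pos c1, if_neg (fun h => c0 (e3.mp h)),
          if_pos ((h2 _).mpr (Or.inr c1)), add_zero, zero_add,
          hq (Function.update a o (a o + 2 ^ (k - 1))) (by rw [Function.update_self, c2])
            (fun i hi => Function.update_of_ne hi _ _)]
        exact rel_o H hR a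
      · have c2 : ¬ a o + 2 ^ (k - 1) = 0 := by
          intro h
          have h5 : (2 : ZMod (n o)) ^ (k - 1) + 2 ^ (k - 1) = 0 := by
            rw [← two_mul]; exact (h2 _).mpr (Or.inr rfl)
          exact c1 (add_right_cancel (h.trans h5.symm))
        rw [if_neg c0, if_neg c2, if_neg c1, if_neg (fun h => c0 (e3.mp h)),
          if_neg (fun h => ((h2 _).mp h).elim c0 c1)]
        simp
  rw [← key]
  ring

lemma lft_zero (H : Adm2 n o k N) {lam : PP n → ZMod 2} (h0 : lam (fun _ => none) = 0) :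
    lft n o k lam (fun _ => 0) = 0 := by
  rw [lft_eq, if_pos rfl]
  have e1 : qt (fun i => (0 : ZMod (n i))) = fun _ => none := by
    apply pp_ext
    intro i u
    rw [qt_iff]
    constructor
    · intro h; exact absurd (h ▸ u.isUnit) (not_unit_zero (adm_ne_one H i))
    · intro h; cases h
  rw [e1, h0, zero_add]
  refine sum_eq_zero fun v hv => ?_
  unfold Gp
  refine sum_eq_zero fun u _ => ?_
  rw [if_neg]
  exact pow_ne (n o) k v H.ho (mem_range.mp hv) u

end lifts

end EvLft

variable {ι : Type} [Fintype ι] [LinearOrder ι] {n : ι → ℕ} [∀ i, NeZero (n i)] {N : ℕ} [NeZero N]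
  {o : ι} {k : ℕ}

open EvLft in
theorem oddDist_lft (H : Adm2 n o k N) {lam : (cyr n (rd n o)).Pt → ZMod 2}
    (hD : (cyr n (rd n o)).IsD0 univ lam)
    (hinv : ∀ x, lam ((cyr n (rd n o)).act (cyr n (rd n o)).c x) = lam x)
    (h0 : lam (fun _ => none) = 0) : OddDist (fun b : ZMod N => lft n o k lam (phi n 1 b)) := by
  have hR := rl_of hD
  have hinv' : ∀ x : PP n, lam (ac (fun _ => -1) x) = lam x := hinv
  have hz0 := lft_zero (k := k) H (lam := lam) h0
  obtain ⟨t1, t2, t3, t4⟩ := two_facts (n o) k H.ho H.hk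
  have hd : ∀ i, n i ∣ 1 * N := by
    intro i
    rw [one_mul, ← H.hN]
    exact dvd_prod_of_mem n (mem_univ i)
  refine ⟨?_, ?_, ?_⟩
  · intro a
    rw [phi_neg hd]
    have e : (-phi n 1 a : ∀ i, ZMod (n i)) = fun i => - phi n 1 a i := rfl
    rw [e, lft_neg hinv', ZMod.neg_eq_self_mod_two]
  · intro a ha
    change lft n o k lam (phi n 1 a) = 0
    have e := phi_add hd a a
    rw [ha, phi_zero] at e
    have ei : ∀ i, 2 * phi n 1 a i = 0 := by
      intro i
      rw [two_mul]
      exact (congrFun e i).symm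
    have hi : ∀ i, i ≠ o → phi n 1 a i = 0 := by
      intro i hio
      have h1 : IsUnit ((2 : ℕ) : ZMod (n i)) := by
        rw [ZMod.isUnit_iff_coprime, Nat.coprime_two_left]
        exact Nat.odd_iff.mpr (H.hn i hio).2
      have h2 : IsUnit (2 : ZMod (n i)) := by exact_mod_cast h1
      exact (h2.mul_right_eq_zero).mp (ei i)
    rcases (t2 _).mp (ei o) with h | h
    · have : phi n 1 a = fun _ => 0 := by
        funext i
        by_cases hio : i = o
        · rw [hio, h]
        · exact hi i hio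
      rw [this]; exact hz0
    · have : phi n 1 a = Function.update (fun _ => 0) o (0 + 2 ^ (k - 1)) := by
        funext i
        by_cases hio : i = o
        · subst hio
          rw [Function.update_self, h, zero_add]
        · rw [Function.update_of_ne hio]
          exact hi i hio
      have h3 := lft_two H hR (fun _ => 0)
      simp only [mul_zero] at h3
      rw [hz0, zero_add] at h3
      rw [this]; exact h3
  · intro p d hp hpd a
    change ∑ s ∈ range p, lft n o k lam (phi n 1 (a + (s : ZMod N) * (d : ZMod N))) =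
      lft n o k lam (phi n 1 ((p : ZMod N) * a))
    have hmul : phi n 1 ((p : ZMod N) * a) = fun j => ((p : ℕ) : ZMod (n j)) * phi n 1 a j := by
      rw [phi_mul hd]
      funext j
      rw [Pi.smul_apply, nsmul_eq_mul]
    rw [hmul]
    have hterm : ∀ s : ℕ, phi n 1 (a + (s : ZMod N) * (d : ZMod N)) =
        fun j => phi n 1 a j + ((s * d : ℕ) : ZMod (n j)) := by
      intro s
      have e1 : (s : ZMod N) * (d : ZMod N) = ((s * d : ℕ) : ZMod N) := by push_cast; rfl
      rw [e1, phi_add hd, phi_natCast hd]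
      funext j
      rw [Pi.add_apply, one_mul]
    simp only [hterm]
    obtain ⟨i, hiS, hpi⟩ : ∃ i ∈ (univ : Finset ι), p ∣ n i := by
      rw [← (Nat.Prime.prime hp).dvd_finsetProd_iff, H.hN]
      exact ⟨d, hpd.symm⟩
    set M := ∏ j ∈ univ.erase i, n j with hM
    have hiM : n i * M = N := by rw [hM, Finset.mul_prod_erase univ n hiS, H.hN]
    have hcop : (n i).Coprime M :=
      Nat.Coprime.prod_right fun j hj => H.hco (Finset.ne_of_mem_erase hj).symm
    have hother : ∀ j, j ≠ i → n j ∣ M := fun j hj =>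
      Finset.dvd_prod_of_mem n (Finset.mem_erase.mpr ⟨hj, mem_univ j⟩)
    by_cases hio : i = o
    · subst hio
      rw [H.ho] at hpi
      obtain rfl : p = 2 := (Nat.prime_dvd_prime_iff_eq hp Nat.prime_two).mp (hp.dvd_of_dvd_pow hpi)
      have hk := H.hk
      have hdM : d = 2 ^ (k - 1) * M := by
        rw [H.ho] at hiM
        have e1 : 2 * (2 ^ (k - 1) * M) = 2 * d := by
          rw [hpd, ← hiM, ← mul_assoc, ← pow_succ', Nat.sub_add_cancel (by omega)]
        omega
      have hMo : M % 2 = 1 := by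
        rw [H.ho] at hcop
        have : Nat.Coprime 2 M := Nat.Coprime.coprime_dvd_left (dvd_pow_self 2 (by omega)) hcop
        rw [Nat.coprime_two_left] at this
        exact Nat.odd_iff.mp this
      rw [sum_range_succ, sum_range_one]
      have e0 : (fun j => phi n 1 a j + ((0 * d : ℕ) : ZMod (n j))) = phi n 1 a := by
        funext j
        rw [zero_mul, Nat.cast_zero, add_zero]
      have e1 : (fun j => phi n 1 a j + ((1 * d : ℕ) : ZMod (n j))) =
          Function.update (phi n 1 a) i (phi n 1 a i + 2 ^ (k - 1)) := by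
        funext j
        by_cases hj : j = i
        · subst hj
          rw [Function.update_self]
          congr 1
          rw [one_mul, hdM]
          obtain ⟨t, ht⟩ : ∃ t, M = 2 * t + 1 := ⟨M / 2, by omega⟩
          rw [ht]
          push_cast
          have e5 : (2 : ZMod (n j)) ^ (k - 1) * (2 * t + 1) = (2 * 2 ^ (k - 1)) * t + 2 ^ (k - 1) := by
            ring
          rw [e5, (t2 _).mpr (Or.inr rfl), zero_mul, zero_add]
        · rw [Function.update_of_ne hj]
          have : ((1 * d : ℕ) : ZMod (n j)) = 0 := by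
            rw [ZMod.natCast_eq_zero_iff, one_mul, hdM]
            exact (hother j hj).mul_left _
          rw [this, add_zero]
      rw [e0, e1, lft_two H hR]
      congr 1
    · have hpri := (H.hn i hio).1
      obtain rfl : p = n i := (Nat.prime_dvd_prime_iff_eq hp hpri).mp hpi
      obtain rfl : d = M := Nat.eq_of_mul_eq_mul_left hp.pos (hpd.trans hiM.symm)
      rw [← lft_sum H hR hio]
      have hfact : Fact (n i).Prime := ⟨hp⟩
      have hMu : IsUnit ((M : ℕ) : ZMod (n i)) := by
        rw [ZMod.isUnit_iff_coprime]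
        exact hcop.symm
      have hterm2 : ∀ s : ℕ, (fun j => phi n 1 a j + ((s * M : ℕ) : ZMod (n j))) =
          Function.update (phi n 1 a) i
            (phi n 1 a i + (s : ZMod (n i)) * ((M : ℕ) : ZMod (n i))) := by
        intro s
        funext j
        by_cases hj : j = i
        · subst hj
          rw [Function.update_self]
          push_cast; ring
        · rw [Function.update_of_ne hj]
          have : ((s * M : ℕ) : ZMod (n j)) = 0 := by
            rw [ZMod.natCast_eq_zero_iff]
            exact (hother j hj).mul_left s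
          rw [this, add_zero]
      simp only [hterm2]
      refine sum_bij (fun s _ => phi n 1 a i + (s : ZMod (n i)) * ((M : ℕ) : ZMod (n i)))
        (fun _ _ => mem_univ _) ?_ ?_ (fun _ _ => rfl)
      · intro s hs s' hs' h
        have h3 : (s : ZMod (n i)) = (s' : ZMod (n i)) := hMu.mul_right_cancel (add_left_cancel h)
        rw [ZMod.natCast_eq_natCast_iff'] at h3
        rwa [Nat.mod_eq_of_lt (mem_range.mp hs), Nat.mod_eq_of_lt (mem_range.mp hs')] at h3
      · intro j _
        obtain ⟨u, hu⟩ := hMu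
        refine ⟨((j - phi n 1 a i) * (u⁻¹ : (ZMod (n i))ˣ)).val, mem_range.mpr (ZMod.val_lt _), ?_⟩
        rw [ZMod.natCast_zmod_val, ← hu, mul_assoc, Units.inv_mul, mul_one, add_sub_cancel]

end Pool.Agent.LB
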