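import Pool.Agent.LB.EvDefs

/-!
The restriction of the lift to the level `4 M`.
-/

set_option linter.unusedSectionVars false

namespace Pool.Agent.LB

open Finset Pool.Agent.N993 Pool.Agent.H916R2 Pool.Agent.N992

namespace EvRes

/-! ### Arithmetic -/

lemma unit_val_odd {m k : ℕ} (hm : m = 2 ^ k) (hk : 1 ≤ k) [NeZero m] (u : (ZMod m)ˣ) :
    (u : ZMod m).val % 2 = 1 := by
  have h1 : ((u : ZMod m).val).Coprime m := ZMod.val_coe_unit_coprime u
  have h2 : 2 ∣ m := by rw [hm]; exact dvd_pow_self 2 (by omega)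
  have h3 : ((u : ZMod m).val).Coprime 2 := Nat.Coprime.coprime_dvd_right h2 h1
  rw [Nat.coprime_comm, Nat.coprime_two_left] at h3
  exact Nat.odd_iff.mp h3

lemma cast_eq_iff {m k : ℕ} (hm : m = 2 ^ k) [NeZero m] (u : (ZMod m)ˣ) (v w : ℕ) :
    (2 : ZMod m) ^ v * (u : ZMod m) = ((2 ^ (k - 2) * w : ℕ) : ZMod m) ↔
      2 ^ v * (u : ZMod m).val ≡ 2 ^ (k - 2) * w [MOD 2 ^ k] := by
  rw [← hm, ← ZMod.natCast_eq_natCast_iff]
  have : (2 : ZMod m) ^ v * (u : ZMod m) = ((2 ^ v * (u : ZMod m).val : ℕ) : ZMod m) := by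
    push_cast
    rw [ZMod.natCast_zmod_val]
  rw [this]

lemma P1 {m k w v : ℕ} (hm : m = 2 ^ k) (hk : 3 ≤ k) (hv : v < k) [NeZero m] (u : (ZMod m)ˣ)
    (hw : w % 2 = 1) : (2 : ZMod m) ^ v * (u : ZMod m) = ((2 ^ (k - 2) * w : ℕ) : ZMod m) ↔
      (v = k - 2 ∧ (u : ZMod m).val % 4 = w % 4) := by
  rw [cast_eq_iff hm u v w]
  have hu := unit_val_odd hm (by omega) u
  set U := (u : ZMod m).val
  have h4 : (2 : ℕ) ^ k = 2 ^ (k - 2) * 4 := by
    rw [show (4 : ℕ) = 2 ^ 2 by norm_num, ← pow_add]; congr 1; omega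
  rcases lt_trichotomy v (k - 2) with h | h | h
  · constructor
    · intro hc
      exfalso
      have h1 : 2 ^ v * U ≡ 2 ^ (k - 2) * w [MOD 2 ^ (v + 1)] :=
        hc.of_dvd (pow_dvd_pow 2 (by omega))
      have h2 : 2 ^ (v + 1) ∣ 2 ^ (k - 2) * w := (pow_dvd_pow 2 (by omega)).mul_right w
      have h3 : 2 ^ (v + 1) ∣ 2 ^ v * U := (h1.dvd_iff (dvd_refl _)).2 h2
      rw [pow_succ] at h3
      have h5 : 2 ∣ U := Nat.dvd_of_mul_dvd_mul_left (by positivity) h3
      omega
    · rintro ⟨h', -⟩; omega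
  · subst h
    rw [h4]
    constructor
    · intro hc
      exact ⟨rfl, Nat.ModEq.mul_left_cancel' (by positivity) hc⟩
    · rintro ⟨-, hc⟩
      exact Nat.ModEq.mul_left' _ hc
  · have hv' : v = k - 1 := by omega
    constructor
    · intro hc
      exfalso
      have h1 : 2 ^ v * U ≡ 2 ^ (k - 2) * w [MOD 2 ^ (k - 1)] :=
        hc.of_dvd (pow_dvd_pow 2 (by omega))
      have h2 : 2 ^ (k - 1) ∣ 2 ^ v * U := by rw [hv']; exact Dvd.intro _ rfl
      have h3 : 2 ^ (k - 1) ∣ 2 ^ (k - 2) * w := (h1.dvd_iff (dvd_refl _)).1 h2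
      rw [show k - 1 = (k - 2) + 1 by omega, pow_succ] at h3
      have h5 : 2 ∣ w := Nat.dvd_of_mul_dvd_mul_left (by positivity) h3
      omega
    · rintro ⟨h', -⟩; omega

lemma P0 {m k v : ℕ} (hm : m = 2 ^ k) (hv : v < k) [NeZero m] (u : (ZMod m)ˣ) :
    (2 : ZMod m) ^ v * (u : ZMod m) ≠ 0 := by
  intro h
  have h1 : (2 : ZMod m) ^ v = 0 := by
    have := congrArg (fun z => z * ((u⁻¹ : (ZMod m)ˣ) : ZMod m)) h
    simpa [mul_assoc] using this
  have h2 : ((2 ^ v : ℕ) : ZMod m) = 0 := by push_cast; exact h1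
  rw [ZMod.natCast_eq_zero_iff, hm] at h2
  have h3 := (Nat.pow_dvd_pow_iff_le_right (by norm_num)).1 h2
  omega

lemma P4 {m k w : ℕ} (hm : m = 2 ^ k) (hk : 3 ≤ k) (hw : 4 ∣ w) :
    ((2 ^ (k - 2) * w : ℕ) : ZMod m) = 0 := by
  rw [ZMod.natCast_eq_zero_iff, hm]
  obtain ⟨t, rfl⟩ := hw
  have h4 : (2 : ℕ) ^ k = 2 ^ (k - 2) * 4 := by
    rw [show (4 : ℕ) = 2 ^ 2 by norm_num, ← pow_add]; congr 1; omega
  rw [h4, ← mul_assoc]
  exact Dvd.intro _ rfl

lemma P2 {m k w : ℕ} (hm : m = 2 ^ k) (hk : 3 ≤ k) (hw : w % 2 = 1) :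
    ((2 ^ (k - 2) * w : ℕ) : ZMod m) ≠ 0 := by
  rw [Ne, ZMod.natCast_eq_zero_iff, hm]
  intro h
  have h4 : (2 : ℕ) ^ k = 2 ^ (k - 2) * 4 := by
    rw [show (4 : ℕ) = 2 ^ 2 by norm_num, ← pow_add]; congr 1; omega
  rw [h4] at h
  have h5 : 4 ∣ w := Nat.dvd_of_mul_dvd_mul_left (by positivity) h
  omega

/-- exactly one of two opposite units has a given odd residue modulo 4 -/
lemma count_one {m k w : ℕ} (hm : m = 2 ^ k) (hk : 3 ≤ k) [NeZero m] (β : (ZMod m)ˣ)
    (hw : w % 2 = 1) :
    ∑ u : (ZMod m)ˣ, (if (u : ZMod m).val % 4 = w % 4 ∧ (u = β ∨ u = -1 * β) then (1 : ZMod 2) else 0) = 1 := by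
  have h4 : 4 ∣ m := by
    rw [hm, show (4 : ℕ) = 2 ^ 2 by norm_num]
    exact pow_dvd_pow 2 (by omega)
  have hβ := unit_val_odd hm (by omega) β
  have hneg : ((-1 * β : (ZMod m)ˣ) : ZMod m).val = m - (β : ZMod m).val := by
    have h0 : (β : ZMod m) ≠ 0 := by
      intro h
      rw [h, ZMod.val_zero] at hβ
      omega
    have : ((-1 * β : (ZMod m)ˣ) : ZMod m) = -(β : ZMod m) := by
      rw [neg_one_mul, Units.val_neg]
    rw [this]
    have : NeZero (β : ZMod m) := ⟨h0⟩
    exact ZMod.val_neg_of_ne_zero _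
  have hlt := ZMod.val_lt (β : ZMod m)
  have key : ((-1 * β : (ZMod m)ˣ) : ZMod m).val % 4 = (4 - (β : ZMod m).val % 4) % 4 := by
    rw [hneg]; omega
  by_cases hc : (β : ZMod m).val % 4 = w % 4
  · rw [Finset.sum_eq_single β]
    · rw [if_pos ⟨hc, Or.inl rfl⟩]
    · intro u _ hu
      rw [if_neg]
      rintro ⟨h1, h2 | h2⟩
      · exact hu h2
      · rw [h2, key] at h1; omega
    · intro h; exact absurd (mem_univ _) h
  · rw [Finset.sum_eq_single (-1 * β)]
    · rw [if_pos ⟨by rw [key]; omega, Or.inr rfl⟩]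
    · intro u _ hu
      rw [if_neg]
      rintro ⟨h1, h2 | h2⟩
      · rw [h2] at h1; exact hc h1
      · exact hu h2
    · intro h; exact absurd (mem_univ _) h

/-- the transported unit -/
def tr (m m4 e : ℕ) (β : (ZMod m)ˣ) : (ZMod m4)ˣ :=
  unOf ((β : ZMod m) * ((unOf (2 ^ e) m)⁻¹ : (ZMod m)ˣ)).val m4

lemma tr_iff {m m4 : ℕ} (h : m4 = m) [NeZero m] (w e : ℕ) (hodd : Nat.Coprime 2 m)
    (β : (ZMod m)ˣ) :
    ((w : ZMod m4) = (tr m m4 e β : ZMod m4) ∨ (w : ZMod m4) = ((-1 * tr m m4 e β : (ZMod m4)ˣ) : ZMod m4)) ↔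
      ((2 : ZMod m) ^ e * w = (β : ZMod m) ∨ (2 : ZMod m) ^ e * w = ((-1 * β : (ZMod m)ˣ) : ZMod m)) := by
  subst h
  have h2 : ((unOf (2 ^ e) m4 : (ZMod m4)ˣ) : ZMod m4) = (2 : ZMod m4) ^ e := by
    rw [unOf_val (Nat.Coprime.pow_left e hodd)]; push_cast; rfl
  have h1 : ((tr m4 m4 e β : (ZMod m4)ˣ) : ZMod m4) = (β : ZMod m4) * ((unOf (2 ^ e) m4)⁻¹ : (ZMod m4)ˣ) := by
    unfold tr
    rw [unOf_val]
    · rw [ZMod.natCast_zmod_val]
    · have := ZMod.val_coe_unit_coprime (β * (unOf (2 ^ e) m4)⁻¹)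
      rw [Units.val_mul] at this
      exact this
  have h3 : ∀ z : ZMod m4, ((w : ZMod m4) = z * ((unOf (2 ^ e) m4)⁻¹ : (ZMod m4)ˣ)) ↔ (2 : ZMod m4) ^ e * w = z := by
    intro z
    rw [← h2, Units.eq_mul_inv_iff_mul_eq, mul_comm]
  rw [neg_one_mul, Units.val_neg, h1, ← neg_mul, h3, h3, neg_one_mul, Units.val_neg]

lemma units_four' {m : ℕ} (hm : m = 4) (u : (ZMod m)ˣ) : u = 1 ∨ u = -1 * 1 := by
  subst hm
  revert u
  decide

/-! ### Points -/

variable {ι : Type} [Fintype ι] [LinearOrder ι] {n : ι → ℕ} [∀ i, NeZero (n i)] {N : ℕ} [NeZero N]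
  {o : ι} {k : ℕ}

lemma pt_some_iff (a : ∀ i, ZMod (n i)) (i : ι) (u : (ZMod (n i))ˣ) :
    (pt a i = some u) ↔ a i = (u : ZMod (n i)) := by
  constructor
  · intro h
    by_cases hu : IsUnit (a i)
    · obtain ⟨v, hv1, hv2⟩ := pt_of_isUnit hu
      rw [hv1] at h
      have : v = u := Option.some.inj h
      rw [← hv2, this]; rfl
    · rw [pt_of_not hu] at h; exact absurd h (by simp)
  · intro h; exact pt_of_eq h

lemma pt_zero' (a : ∀ i, ZMod (n i)) (i : ι) (h1 : 1 < n i) (ha : a i = 0) : pt a i = none := by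
  have : Fact (1 < n i) := ⟨h1⟩
  apply pt_of_not
  rw [ha]
  exact not_isUnit_zero

lemma emb_iff {i : ι} (h1 : 1 < n i) (x : (cyc n).Pt) (v : (ZMod (n i))ˣ) :
    emb x i = (v : ZMod (n i)) ↔ x i = some v := by
  have : Fact (1 < n i) := ⟨h1⟩
  cases h : x i with
  | none =>
    rw [emb_none h]
    constructor
    · intro h0
      exact absurd h0.symm v.ne_zero
    · intro h0; exact absurd h0 (by simp)
  | some u =>
    rw [emb_some h]
    constructor
    · intro h0
      have : u = v := Units.ext h0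
      rw [this]
    · intro h0
      have : u = v := Option.some.inj h0
      rw [this]; rfl

lemma cond_iff {n4 : ι → ℕ} [∀ i, NeZero (n4 i)] {i : ι} (h4 : n4 i = n i) (hodd : Nat.Coprime 2 (n i))
    (h1 : 1 < n i) (x : (cyc n4).Pt) (w e : ℕ) (hw : (w : ZMod (n4 i)) = emb x i) (β : (ZMod (n i))ˣ)
    (A : ∀ l, ZMod (n l)) (hA : A i = (2 : ZMod (n i)) ^ e * w) :
    (x i = some (tr (n i) (n4 i) e β) ∨ x i = some (-1 * tr (n i) (n4 i) e β)) ↔
      (pt A i = some β ∨ pt A i = some (-1 * β)) := by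
  rw [pt_some_iff, pt_some_iff, hA, ← tr_iff h4 w e hodd β, hw, emb_iff (by omega), emb_iff (by omega)]

lemma lft_zero {T : Finset ι} {b : (cyr n (rd n o)).GG} {lam : (cyr n (rd n o)).Pt → ZMod 2}
    (h : Lam (cyr n (rd n o)) T b lam) {i : ι} (hi : i ∈ T) (hio : i ≠ o) (h1 : 1 < n i)
    (a : ∀ i, ZMod (n i)) (ha : a i = 0) : lft n o k lam a = 0 := by
  unfold lft
  have e1 : lam (pt a) = 0 := h.zero _ ⟨i, hi, pt_zero' a i h1 ha⟩
  have e2 : ∀ (v : ℕ) (u : (ZMod (n o))ˣ),
      lam (Function.update (pt (fun j => (2 : ZMod (n j)) ^ (k - 1 - v) * a j)) o (some u)) = 0 := by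
    intro v u
    refine h.zero _ ⟨i, hi, ?_⟩
    rw [Function.update_of_ne hio]
    exact pt_zero' _ i h1 (by rw [ha, mul_zero])
  rw [e1]
  simp only [e2]
  simp

lemma lft_of_zero (hno : n o = 2 ^ k) (lam : (∀ i, Option (ZMod (n i))ˣ) → ZMod 2)
    (a : ∀ i, ZMod (n i)) (ha : a o = 0) : lft n o k lam a = lam (pt a) := by
  unfold lft
  rw [if_pos ha, ha]
  have : ∀ v ∈ range k, ∑ u : (ZMod (n o))ˣ,
      (if (2 : ZMod (n o)) ^ v * (u : ZMod (n o)) = 0 then
        lam (Function.update (pt (fun i => (2 : ZMod (n i)) ^ (k - 1 - v) * a i)) o (some u)) else 0) = 0 := by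
    intro v hv
    apply Finset.sum_eq_zero
    intro u _
    rw [if_neg (P0 hno (mem_range.mp hv) u)]
  rw [Finset.sum_eq_zero this, add_zero]

lemma lft_of_odd (hno : n o = 2 ^ k) (hk : 3 ≤ k) (lam : (∀ i, Option (ZMod (n i))ˣ) → ZMod 2)
    (a : ∀ i, ZMod (n i)) {w : ℕ} (hw : w % 2 = 1) (ha : a o = ((2 ^ (k - 2) * w : ℕ) : ZMod (n o))) :
    lft n o k lam a = ∑ u : (ZMod (n o))ˣ, (if (u : ZMod (n o)).val % 4 = w % 4 then
      lam (Function.update (pt (fun i => (2 : ZMod (n i)) ^ 1 * a i)) o (some u)) else 0) := by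
  unfold lft
  rw [if_neg (by rw [ha]; exact P2 hno hk hw), zero_add, ha]
  rw [Finset.sum_eq_single (k - 2)]
  · apply Finset.sum_congr rfl
    intro u _
    have h1 := P1 hno hk (show k - 2 < k by omega) u hw
    rw [show k - 1 - (k - 2) = 1 by omega]
    by_cases hc : (u : ZMod (n o)).val % 4 = w % 4
    · rw [if_pos hc, if_pos (h1.2 ⟨rfl, hc⟩)]
    · rw [if_neg hc, if_neg (fun h => hc (h1.1 h).2)]
  · intro v hv hne
    apply Finset.sum_eq_zero
    intro u _
    rw [if_neg]
    intro h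
    exact hne ((P1 hno hk (mem_range.mp hv) u hw).1 h).1
  · intro h
    exact absurd (mem_range.mpr (by omega)) h

end EvRes

open EvRes

variable {ι : Type} [Fintype ι] [LinearOrder ι] {n : ι → ℕ} [∀ i, NeZero (n i)] {N : ℕ} [NeZero N]
  {o : ι} {k : ℕ}

theorem lam_restrict (H : Adm2 n o k N) {n4 : ι → ℕ} [∀ i, NeZero (n4 i)] {N4 : ℕ} [NeZero N4]
    (ho4 : n4 o = 4) (hn4 : ∀ i, i ≠ o → n4 i = n i) (hN4 : ∏ i, n4 i = N4)
    (E : (∀ i, ZMod (n4 i)) ≃+* ZMod N4) {T : Finset ι} (hT : T.Nonempty)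
    {b : (cyr n (rd n o)).GG} {lam : (cyr n (rd n o)).Pt → ZMod 2}
    (h : Lam (cyr n (rd n o)) T b lam)
    (hOD : OddDist (fun b : ZMod N => lft n o k lam (phi n 1 b))) :
    ∃ b', Lam (cyc n4) T b'
      (fun x => lft n o k lam (phi n 1 (iota (2 ^ (k - 2)) (E (emb x)) : ZMod N))) := by
  have hadm : Adm' n4 := by
    intro i
    by_cases hi : i = o
    · right; rw [hi, ho4]
    · left; rw [hn4 i hi]; exact H.hn i hi
  have hodd : ∀ i, i ≠ o → Nat.Coprime 2 (n i) := fun i hi => by
    rw [Nat.coprime_two_left]; exact Nat.odd_iff.mpr (H.hn i hi).2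
  have hk := H.hk
  have hno1 : 1 < n o := by rw [H.ho]; exact Nat.one_lt_pow (by omega) (by norm_num)
  have hn1 : ∀ i, 1 < n i := by
    intro i
    by_cases hi : i = o
    · rw [hi]; exact hno1
    · exact (H.hn i hi).1.one_lt
  have hn41 : ∀ i, 1 < n4 i := by
    intro i
    by_cases hi : i = o
    · rw [hi, ho4]; norm_num
    · rw [hn4 i hi]; exact hn1 i
  have hco4 : Pairwise (fun i j => (n4 i).Coprime (n4 j)) := by
    intro i j hij
    have h4 : (4 : ℕ) = 2 ^ 2 := by norm_num
    by_cases hi : i = o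
    · have hj : j ≠ o := fun hj => hij (hi.trans hj.symm)
      rw [hi, ho4, hn4 j hj, h4]
      exact Nat.Coprime.pow_left 2 (hodd j hj)
    · by_cases hj : j = o
      · rw [hj, ho4, hn4 i hi, h4]
        exact (Nat.Coprime.pow_left 2 (hodd i hi)).symm
      · rw [hn4 i hi, hn4 j hj]; exact H.hco hij
  have h4k : (2 : ℕ) ^ k = 2 ^ (k - 2) * 4 := by
    rw [show (4 : ℕ) = 2 ^ 2 by norm_num, ← pow_add]; congr 1; omega
  have hlvl : 2 ^ (k - 2) * N4 = N := by
    have e1 : ∏ i ∈ univ.erase o, n4 i = ∏ i ∈ univ.erase o, n i :=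
      prod_congr rfl fun i hi => hn4 i (ne_of_mem_erase hi)
    have e2 := Finset.mul_prod_erase univ n4 (mem_univ o)
    have e3 := Finset.mul_prod_erase univ n (mem_univ o)
    rw [← hN4, ← H.hN, ← e2, ← e3, ho4, H.ho, e1, h4k, mul_assoc]
  have hC : OddDist (fun b : ZMod N4 => lft n o k lam (phi n 1 (iota (2 ^ (k - 2)) b : ZMod N))) :=
    OddDist.comp_iota hlvl hOD
  obtain ⟨hD, hI⟩ := isD0_of_oddDist hadm hco4 hN4 E hC
  have hd : ∀ i, n i ∣ 1 * N := by
    intro i
    rw [one_mul, ← H.hN]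
    exact dvd_prod_of_mem n (mem_univ i)
  have hw : ∀ (x : (cyc n4).Pt) (i : ι), (((E (emb x)).val : ℕ) : ZMod (n4 i)) = emb x i := by
    intro x i
    have := congrFun (phi_E hN4 E (emb x)) i
    unfold phi at this
    rw [one_mul] at this
    exact this
  have ha : ∀ (x : (cyc n4).Pt) (i : ι), phi n 1 (iota (2 ^ (k - 2)) (E (emb x)) : ZMod N) i =
      ((2 ^ (k - 2) * (E (emb x)).val : ℕ) : ZMod (n i)) := by
    intro x i
    unfold iota
    rw [phi_natCast hd, one_mul]
  have hnone : ∀ (x : (cyc n4).Pt) (i : ι), x i = none →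
      phi n 1 (iota (2 ^ (k - 2)) (E (emb x)) : ZMod N) i = 0 := by
    intro x i hx
    have h1 := hw x i
    rw [emb_none hx, ZMod.natCast_eq_zero_iff] at h1
    rw [ha]
    by_cases hi : i = o
    · subst hi
      rw [ho4] at h1
      exact P4 H.ho hk h1
    · rw [hn4 i hi] at h1
      rw [ZMod.natCast_eq_zero_iff]
      exact h1.mul_left _
  have hzero : ∀ x : (cyc n4).Pt, (∃ i ∈ T, x i = none) →
      lft n o k lam (phi n 1 (iota (2 ^ (k - 2)) (E (emb x)) : ZMod N)) = 0 := by
    rintro x ⟨i, hi, hx⟩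
    have h0 := hnone x i hx
    by_cases hio : i = o
    · subst hio
      rw [lft_of_zero H.ho lam _ h0]
      exact h.zero _ ⟨i, hi, pt_zero' _ i hno1 h0⟩
    · exact lft_zero h hi hio (hn1 i) _ h0
  set e : ℕ := if o ∈ T then k - 1 else k - 2 with he
  refine ⟨fun i => if i = o then 1 else tr (n i) (n4 i) e (b i), hD, ?_, hzero, ?_⟩
  · intro x
    have h1 := hI x
    refine h1.trans ?_
    exact ZMod.neg_eq_self_mod_two _
  intro x hx
  have hb' : ∀ i, i ≠ o → (if i = o then (1 : (ZMod (n4 i))ˣ) else tr (n i) (n4 i) e (b i)) =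
      tr (n i) (n4 i) e (b i) := fun i hi => if_neg hi
  by_cases hoT : o ∈ T
  · cases hxo : x o with
    | none =>
      have h1 := hzero x ⟨o, hoT, hxo⟩
      beta_reduce
      rw [h1, if_neg]
      intro hc
      rcases hc o hoT with h2 | h2
      · rw [hxo] at h2; exact absurd h2 (by simp)
      · rw [hxo] at h2; exact absurd h2 (by simp)
    | some u4 =>
      set w : ℕ := (E (emb x)).val with hwd
      have hwodd : w % 2 = 1 := by
        have h1 := hw x o
        rw [emb_some hxo] at h1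
        have h2 : IsUnit ((w : ℕ) : ZMod (n4 o)) := by
          rw [h1]; exact vl_isUnit u4
        rw [ZMod.isUnit_iff_coprime, ho4] at h2
        have h3 : Nat.Coprime w 2 := Nat.Coprime.coprime_dvd_right (by norm_num) h2
        rw [Nat.coprime_comm, Nat.coprime_two_left] at h3
        exact Nat.odd_iff.mp h3
      have ha' := ha x
      have hn' := hnone x
      set a := phi n 1 (iota (2 ^ (k - 2)) (E (emb x)) : ZMod N) with had
      beta_reduce
      rw [lft_of_odd H.ho hk lam a hwodd (ha' o)]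
      set A : ∀ i, ZMod (n i) := fun i => (2 : ZMod (n i)) ^ 1 * a i with hAd
      have hA : ∀ i, A i = (2 : ZMod (n i)) ^ e * w := by
        intro i
        rw [hAd]
        beta_reduce
        rw [ha' i, he, if_pos hoT]
        push_cast
        rw [← mul_assoc, ← pow_add]
        congr 2
        omega
      have hsupp : ∀ u : (ZMod (n o))ˣ, (cyr n (rd n o)).Supp T (Function.update (pt A) o (some u)) := by
        intro u i hi
        have hio : i ≠ o := by rintro rfl; exact hi hoT
        rw [Function.update_of_ne hio]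
        apply pt_zero' _ i (hn1 i)
        rw [hAd]
        beta_reduce
        rw [hn' i (hx i hi), mul_zero]
      by_cases hC' : ∀ i ∈ T, i ≠ o → (pt A i = some (b i) ∨ pt A i = some (-1 * b i))
      · rw [if_pos]
        · refine Eq.trans ?_ (count_one H.ho hk (b o) hwodd)
          apply Finset.sum_congr rfl
          intro u _
          rw [h.full _ (hsupp u)]
          by_cases h1 : (u : ZMod (n o)).val % 4 = w % 4
          · rw [if_pos h1]
            by_cases h2 : u = b o ∨ u = -1 * b o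
            · have hL : ∀ i ∈ T, Function.update (pt A) o (some u) i = some (b i) ∨
                  Function.update (pt A) o (some u) i = some ((cyr n (rd n o)).c i * b i) := by
                intro i hi
                by_cases hio : i = o
                · subst hio
                  rw [Function.update_self]
                  rcases h2 with h2 | h2
                  · left; rw [h2]
                  · right; rw [h2]
                · rw [Function.update_of_ne hio]
                  exact hC' i hi hio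
              rw [if_pos hL, if_pos ⟨h1, h2⟩]
            · have hL : ¬ ∀ i ∈ T, Function.update (pt A) o (some u) i = some (b i) ∨
                  Function.update (pt A) o (some u) i = some ((cyr n (rd n o)).c i * b i) := by
                intro hall
                apply h2
                have h3 := hall o hoT
                rw [Function.update_self] at h3
                rcases h3 with h3 | h3
                · left; exact Option.some.inj h3
                · right; exact Option.some.inj h3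
              rw [if_neg hL, if_neg (fun hh => h2 hh.2)]
          · rw [if_neg h1, if_neg (fun hh => h1 hh.1)]
        · intro i hi
          by_cases hio : i = o
          · subst hio
            rw [hxo]
            simp only [if_true]
            rcases units_four' ho4 u4 with h1 | h1
            · left; rw [h1]
            · right; rw [h1]
          · beta_reduce
            rw [hb' i hio]
            exact (cond_iff (hn4 i hio) (hodd i hio) (hn1 i) x w e (hw x i) (b i) A (hA i)).2 (hC' i hi hio)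
      · rw [if_neg]
        · apply Finset.sum_eq_zero
          intro u _
          have hL : ¬ ∀ i ∈ T, Function.update (pt A) o (some u) i = some (b i) ∨
              Function.update (pt A) o (some u) i = some ((cyr n (rd n o)).c i * b i) := by
            intro hall
            apply hC'
            intro i hi hio
            have h3 := hall i hi
            rw [Function.update_of_ne hio] at h3
            exact h3
          have hL2 : lam (Function.update (pt A) o (some u)) = 0 := by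
            rw [h.full _ (hsupp u), if_neg hL]
          rw [hL2]
          split_ifs <;> rfl
        · intro hall
          apply hC'
          intro i hi hio
          have h3 := hall i hi
          beta_reduce at h3
          rw [hb' i hio] at h3
          exact (cond_iff (hn4 i hio) (hodd i hio) (hn1 i) x w e (hw x i) (b i) A (hA i)).1 h3
  · have hxo : x o = none := hx o hoT
    have ha' := ha x
    have hn' := hnone x
    set a := phi n 1 (iota (2 ^ (k - 2)) (E (emb x)) : ZMod N) with had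
    have hsupp : (cyr n (rd n o)).Supp T (pt a) := by
      intro i hi
      exact pt_zero' _ i (hn1 i) (hn' i (hx i hi))
    beta_reduce
    rw [lft_of_zero H.ho lam a (hn' o hxo), h.full _ hsupp]
    have hA : ∀ i, a i = (2 : ZMod (n i)) ^ e * ((E (emb x)).val : ℕ) := by
      intro i
      rw [ha' i, he, if_neg hoT]
      push_cast; rfl
    have hiff : (∀ i ∈ T, x i = some (if i = o then (1 : (ZMod (n4 i))ˣ) else tr (n i) (n4 i) e (b i)) ∨
        x i = some ((cyc n4).c i * (if i = o then (1 : (ZMod (n4 i))ˣ) else tr (n i) (n4 i) e (b i)))) ↔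
        (∀ i ∈ T, pt a i = some (b i) ∨ pt a i = some ((cyr n (rd n o)).c i * b i)) := by
      constructor
      · intro hall i hi
        have hio : i ≠ o := by rintro rfl; exact hoT hi
        have h3 := hall i hi
        rw [hb' i hio] at h3
        exact (cond_iff (hn4 i hio) (hodd i hio) (hn1 i) x _ e (hw x i) (b i) a (hA i)).1 h3
      · intro hall i hi
        have hio : i ≠ o := by rintro rfl; exact hoT hi
        have h3 := hall i hi
        rw [hb' i hio]
        exact (cond_iff (hn4 i hio) (hodd i hio) (hn1 i) x _ e (hw x i) (b i) a (hA i)).2 h3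
    by_cases hc : ∀ i ∈ T, pt a i = some (b i) ∨ pt a i = some ((cyr n (rd n o)).c i * b i)
    · rw [if_pos hc, if_pos (hiff.2 hc)]
    · rw [if_neg hc, if_neg (fun hh => hc (hiff.1 hh))]

end Pool.Agent.LB
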