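import Pool.Agent.LB.Rho

/-!
Odd distributions with values in a group of exponent two: extension from the level `N` to the level
`m = k N` with the same primes, `k` odd (`m` may be even).
-/

set_option linter.unusedSectionVars false

namespace Pool.Agent.LB

open Finset Pool.Agent.H916R2

theorem rho_step2 {p m d : ℕ} [NeZero m] [NeZero d] (hpodd : p % 2 = 1) (hp : p.Prime)
    (hpd : p * d = m) (hpd' : p ∣ d) (A : Type) [AddCommGroup A] (hA : ∀ a : A, a + a = 0)
    (c : ZMod d → A) (hc : OddDist c) : OddDist (fun x : ZMod m => c (rhoStep p x)) := by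
  have hd0 : d ≠ 0 := NeZero.ne d
  have hpm : p ∣ m := ⟨d, hpd.symm⟩
  have hdm : d ∣ m := ⟨p, by rw [← hpd, mul_comm]⟩
  have hval : ∀ a : ZMod m, ∃ n : ℕ, a = (n : ZMod m) := fun a => ⟨a.val, by
    rw [ZMod.natCast_zmod_val]⟩
  refine ⟨fun a => ?_, fun a ha => ?_, fun q d' hq hqd a => ?_⟩
  · -- the values at `- a`
    have key : (rhoStep p (-a) : ZMod d) = - rhoStep p a := by
      obtain ⟨n, rfl⟩ := hval a
      obtain ⟨n', hn'⟩ := hval (-(n : ZMod m))
      rw [hn', rhoStep_nat hp.pos hpd hpd', rhoStep_nat hp.pos hpd hpd']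
      have h1 : ((n + n' : ℕ) : ZMod m) = 0 := by
        push_cast
        rw [← hn', add_neg_cancel]
      rw [ZMod.natCast_eq_zero_iff] at h1
      have h2 : p ∣ n' ↔ p ∣ n := by
        have h3 : p ∣ n + n' := hpm.trans h1
        exact ⟨fun h => (Nat.dvd_add_left h).1 h3, fun h => (Nat.dvd_add_right h).1 h3⟩
      by_cases h : p ∣ n
      · rw [if_pos h, if_pos (h2.2 h)]
        obtain ⟨u, rfl⟩ := h
        obtain ⟨u', rfl⟩ := h2.2 (dvd_mul_right p u)
        rw [Nat.mul_div_cancel_left _ hp.pos, Nat.mul_div_cancel_left _ hp.pos]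
        rw [← mul_add, ← hpd] at h1
        have h4 := Nat.dvd_of_mul_dvd_mul_left hp.pos h1
        rw [← ZMod.natCast_eq_zero_iff] at h4
        push_cast at h4
        exact (neg_eq_of_add_eq_zero_right h4).symm
      · rw [if_neg h, if_neg (fun h3 => h (h2.1 h3))]
        have h4 := hdm.trans h1
        rw [← ZMod.natCast_eq_zero_iff] at h4
        push_cast at h4
        exact (neg_eq_of_add_eq_zero_right h4).symm
    change c (rhoStep p (-a)) = - c (rhoStep p a)
    rw [key, hc.neg]
  · -- the values at the elements of order two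
    obtain ⟨n, rfl⟩ := hval a
    have h2 : ((2 * n : ℕ) : ZMod m) = 0 := by
      push_cast
      rw [two_mul]
      exact ha
    rw [ZMod.natCast_eq_zero_iff] at h2
    change c (rhoStep p (n : ZMod m)) = 0
    rw [rhoStep_nat hp.pos hpd hpd']
    by_cases h : p ∣ n
    · obtain ⟨u, rfl⟩ := h
      rw [if_pos (dvd_mul_right p u), Nat.mul_div_cancel_left _ hp.pos]
      apply hc.half
      have h3 : p * d ∣ p * (2 * u) := by
        rw [hpd, show p * (2 * u) = 2 * (p * u) by ring]
        exact h2
      have h4 := Nat.dvd_of_mul_dvd_mul_left hp.pos h3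
      rw [← ZMod.natCast_eq_zero_iff] at h4
      push_cast at h4
      rw [← two_mul]
      exact h4
    · exfalso
      rcases (Nat.Prime.dvd_mul hp).1 (hpm.trans h2) with h3 | h3
      · have h4 := (Nat.prime_dvd_prime_iff_eq hp Nat.prime_two).1 h3
        omega
      · exact h h3
  · -- the distribution relations
    obtain ⟨n, rfl⟩ := hval a
    change ∑ i ∈ range q, c (rhoStep p ((n : ZMod m) + (i : ZMod m) * (d' : ZMod m))) =
      c (rhoStep p ((q : ZMod m) * (n : ZMod m)))
    have e1 : ∀ i : ℕ, (n : ZMod m) + (i : ZMod m) * (d' : ZMod m) =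
        ((n + i * d' : ℕ) : ZMod m) := fun i => by push_cast; rfl
    have e2 : (q : ZMod m) * (n : ZMod m) = ((q * n : ℕ) : ZMod m) := by push_cast; rfl
    rw [e2, rhoStep_nat hp.pos hpd hpd']
    have e3 : ∑ i ∈ range q, c (rhoStep p ((n : ZMod m) + (i : ZMod m) * (d' : ZMod m))) =
        ∑ i ∈ range q, c (if p ∣ n + i * d' then (((n + i * d') / p : ℕ) : ZMod d) else
          ((n + i * d' : ℕ) : ZMod d)) :=
      sum_congr rfl fun i _ => by rw [e1, rhoStep_nat hp.pos hpd hpd']
    rw [e3]
    by_cases hqp : q = p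
    · -- the prime `p`
      subst hqp
      have hdd : d' = d := Nat.eq_of_mul_eq_mul_left hq.pos (hqd.trans hpd.symm)
      subst hdd
      obtain ⟨d1, hd1⟩ := hpd'
      rw [if_pos (dvd_mul_right q n), Nat.mul_div_cancel_left _ hq.pos]
      by_cases h : q ∣ n
      · obtain ⟨u, rfl⟩ := h
        have e4 : ∀ i : ℕ, q * u + i * d' = q * (u + i * d1) := fun i => by rw [hd1]; ring
        have e5 := hc.dist q d1 hq hd1.symm (u : ZMod d')
        have e6 : ∑ i ∈ range q, c (if q ∣ q * u + i * d' then
            (((q * u + i * d') / q : ℕ) : ZMod d') else ((q * u + i * d' : ℕ) : ZMod d')) =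
            ∑ i ∈ range q, c ((u : ZMod d') + (i : ZMod d') * (d1 : ZMod d')) := by
          refine sum_congr rfl fun i _ => ?_
          rw [e4, if_pos (dvd_mul_right _ _), Nat.mul_div_cancel_left _ hq.pos]
          push_cast
          rfl
        rw [e6, e5]
        push_cast
        rfl
      · have e6 : ∑ i ∈ range q, c (if q ∣ n + i * d' then
            (((n + i * d') / q : ℕ) : ZMod d') else ((n + i * d' : ℕ) : ZMod d')) =
            ∑ i ∈ range q, c (n : ZMod d') := by
          refine sum_congr rfl fun i _ => ?_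
          have h1 : ¬ q ∣ n + i * d' := by
            intro h2
            have h3 : q ∣ i * d' := by rw [hd1]; exact ⟨i * d1, by ring⟩
            exact h ((Nat.dvd_add_left h3).1 h2)
          rw [if_neg h1]
          push_cast
          rw [ZMod.natCast_self, mul_zero, add_zero]
        rw [e6, sum_const, card_range]
        exact odd_smul hA hpodd _
    · -- the other primes
      have hqd2 : q ∣ d := by
        have h1 : q ∣ p * d := by rw [hpd]; exact ⟨d', hqd.symm⟩
        rcases (Nat.Prime.dvd_mul hq).1 h1 with h2 | h2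
        · exact absurd ((Nat.prime_dvd_prime_iff_eq hq hp).1 h2) hqp
        · exact h2
      obtain ⟨d1, hd1⟩ := hqd2
      have hd' : d' = p * d1 := by
        apply Nat.eq_of_mul_eq_mul_left hq.pos
        rw [hqd, ← hpd, hd1]
        ring
      have hcop : Nat.Coprime p q := (Nat.coprime_primes hp hq).2 (Ne.symm hqp)
      by_cases h : p ∣ n
      · obtain ⟨u, rfl⟩ := h
        have e4 : ∀ i : ℕ, p * u + i * d' = p * (u + i * d1) := fun i => by rw [hd']; ring
        have e5 := hc.dist q d1 hq hd1.symm (u : ZMod d)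
        have e6 : ∑ i ∈ range q, c (if p ∣ p * u + i * d' then
            (((p * u + i * d') / p : ℕ) : ZMod d) else ((p * u + i * d' : ℕ) : ZMod d)) =
            ∑ i ∈ range q, c ((u : ZMod d) + (i : ZMod d) * (d1 : ZMod d)) := by
          refine sum_congr rfl fun i _ => ?_
          rw [e4, if_pos (dvd_mul_right _ _), Nat.mul_div_cancel_left _ hp.pos]
          push_cast
          rfl
        have e7 : q * (p * u) = p * (q * u) := by ring
        rw [e6, e5, e7, if_pos (dvd_mul_right _ _), Nat.mul_div_cancel_left _ hp.pos]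
        push_cast
        rfl
      · have e5 := hc.dist q d1 hq hd1.symm (n : ZMod d)
        have e6 : ∑ i ∈ range q, c (if p ∣ n + i * d' then
            (((n + i * d') / p : ℕ) : ZMod d) else ((n + i * d' : ℕ) : ZMod d)) =
            ∑ i ∈ range q, (fun j : ℕ => c ((n : ZMod d) + (j : ZMod d) * (d1 : ZMod d)))
              (i * p) := by
          refine sum_congr rfl fun i _ => ?_
          have h1 : ¬ p ∣ n + i * d' := by
            intro h2
            have h3 : p ∣ i * d' := by rw [hd']; exact ⟨i * d1, by ring⟩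
            exact h ((Nat.dvd_add_left h3).1 h2)
          rw [if_neg h1, hd']
          push_cast
          rw [mul_assoc]
        rw [e6, sum_perm hq.pos hcop
          (fun j : ℕ => c ((n : ZMod d) + (j : ZMod d) * (d1 : ZMod d))), e5, if_neg]
        · push_cast
          rfl
        · intro h2
          rcases (Nat.Prime.dvd_mul hp).1 h2 with h3 | h3
          · exact hqp ((Nat.prime_dvd_prime_iff_eq hp hq).1 h3).symm
          · exact h h3
        · intro i
          have h2 : ((i % q : ℕ) : ZMod d) * (d1 : ZMod d) = ((i : ℕ) : ZMod d) * (d1 : ZMod d) := by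
            have h3 : (((i % q) * d1 : ℕ) : ZMod d) = ((i * d1 : ℕ) : ZMod d) := by
              rw [ZMod.natCast_eq_natCast_iff', hd1, ← Nat.mul_mod_mul_right, Nat.mod_mod]
            push_cast at h3
            exact h3
          change c ((n : ZMod d) + ((i % q : ℕ) : ZMod d) * (d1 : ZMod d)) = _
          rw [h2]

/-- the orders -/
theorem order_step {p m d : ℕ} [NeZero m] [NeZero d] (hpodd : p % 2 = 1) (hp : p.Prime)
    (hpd : p * d = m) (hpd' : p ∣ d) (a : ZMod m) :
    (addOrderOf (rhoStep p a : ZMod d)).primeFactors = (addOrderOf a).primeFactors ∧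
      padicValNat 2 (addOrderOf (rhoStep p a : ZMod d)) = padicValNat 2 (addOrderOf a) := by
  have hd0 : d ≠ 0 := NeZero.ne d
  have hm0 : m ≠ 0 := NeZero.ne m
  obtain ⟨n, rfl⟩ : ∃ n : ℕ, a = (n : ZMod m) := ⟨a.val, by rw [ZMod.natCast_zmod_val]⟩
  rw [rhoStep_nat hp.pos hpd hpd', ZMod.addOrderOf_coe _ hm0]
  by_cases h : p ∣ n
  · obtain ⟨u, rfl⟩ := h
    rw [if_pos (dvd_mul_right p u), Nat.mul_div_cancel_left _ hp.pos, ZMod.addOrderOf_coe _ hd0]
    have e : m / m.gcd (p * u) = d / d.gcd u := by
      rw [← hpd, Nat.gcd_mul_left, Nat.mul_div_mul_left _ _ hp.pos]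
    rw [e]
    exact ⟨rfl, rfl⟩
  · rw [if_neg h, ZMod.addOrderOf_coe _ hd0]
    have hcop : Nat.Coprime p n := (Nat.Prime.coprime_iff_not_dvd hp).2 h
    have e1 : m.gcd n = d.gcd n := by
      rw [← hpd]
      exact Nat.Coprime.gcd_mul_left_cancel d hcop
    have hg : d.gcd n ∣ d := Nat.gcd_dvd_left d n
    have e2 : m / m.gcd n = p * (d / d.gcd n) := by
      rw [e1, ← hpd, Nat.mul_div_assoc p hg]
    have hx0 : d / d.gcd n ≠ 0 := by
      have h1 : 0 < d.gcd n := Nat.gcd_pos_of_pos_left n (Nat.pos_of_ne_zero hd0)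
      have h2 := Nat.div_pos (Nat.le_of_dvd (Nat.pos_of_ne_zero hd0) hg) h1
      omega
    have hpx : p ∣ d / d.gcd n := by
      have h1 : p ∣ d.gcd n * (d / d.gcd n) := by
        rw [Nat.mul_div_cancel' hg]
        exact hpd'
      rcases (Nat.Prime.dvd_mul hp).1 h1 with h2 | h2
      · exact absurd (h2.trans (Nat.gcd_dvd_right d n)) h
      · exact h2
    rw [e2]
    constructor
    · rw [Nat.primeFactors_mul hp.ne_zero hx0, hp.primeFactors]
      refine (Finset.union_eq_right.2 ?_).symm
      rw [Finset.singleton_subset_iff, Nat.mem_primeFactors]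
      exact ⟨hp, hpx, hx0⟩
    · rw [padicValNat.mul hp.ne_zero hx0, padicValNat.eq_zero_of_not_dvd (n := p) (by omega), zero_add]

theorem exists_rho_aux2 : ∀ (n m m0 k : ℕ) [NeZero m] [NeZero m0], k = n → k % 2 = 1 →
    k * m0 = m → (∀ p, p.Prime → p ∣ m → p ∣ m0) →
    ∃ ρ : ZMod m → ZMod m0, (∀ b : ZMod m0, ρ (iota k b) = b) ∧
      (∀ a : ZMod m, (addOrderOf (ρ a)).primeFactors = (addOrderOf a).primeFactors ∧
        padicValNat 2 (addOrderOf (ρ a)) = padicValNat 2 (addOrderOf a)) ∧
      ∀ (A : Type) [AddCommGroup A] (_ : ∀ a : A, a + a = 0) (c : ZMod m0 → A), OddDist c →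
        OddDist (fun x => c (ρ x)) := by
  intro n
  induction n using Nat.strong_induction_on with
  | _ n ih =>
  intro m m0 k _ _ hkn hodd hkm hpr
  have hm : m ≠ 0 := NeZero.ne m
  have hm0 : m0 ≠ 0 := NeZero.ne m0
  have hk0 : k ≠ 0 := by rintro rfl; simp at hkm; exact hm hkm.symm
  by_cases hk1 : k = 1
  · subst hk1
    rw [one_mul] at hkm
    subst hkm
    refine ⟨id, fun b => ?_, fun a => ⟨rfl, rfl⟩, fun A _ _ c hc => hc⟩
    unfold iota
    rw [one_mul, ZMod.natCast_zmod_val]
    rfl
  · have hp := Nat.minFac_prime hk1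
    set p := k.minFac with hpdef
    obtain ⟨k', hk'⟩ : p ∣ k := Nat.minFac_dvd k
    have hk'0 : k' ≠ 0 := by rintro rfl; simp at hk'; exact hk0 hk'
    have : NeZero (k' * m0) := ⟨Nat.mul_ne_zero hk'0 hm0⟩
    have hpd : p * (k' * m0) = m := by rw [← hkm, hk']; ring
    have hpm : p ∣ m := Dvd.intro _ hpd
    have hpm0 : p ∣ m0 := hpr p hp hpm
    have hpd' : p ∣ k' * m0 := hpm0.mul_left k'
    have hpo : p % 2 = 1 := by
      rcases Nat.mod_two_eq_zero_or_one p with h | h
      · exfalso
        rw [hk', Nat.mul_mod, h] at hodd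
        simp at hodd
      · exact h
    have hodd' : k' % 2 = 1 := by
      rcases Nat.mod_two_eq_zero_or_one k' with h | h
      · exfalso
        rw [hk', Nat.mul_mod, h] at hodd
        simp at hodd
      · exact h
    have hk'lt : k' < n := by
      rw [← hkn, hk']
      have := hp.two_le
      have : 0 < k' := Nat.pos_of_ne_zero hk'0
      nlinarith
    obtain ⟨ρ, hρ, hρO, hρD⟩ := ih k' hk'lt (k' * m0) m0 k' rfl hodd' rfl
      (fun q hq hqd => hpr q hq (dvd_trans hqd (Dvd.intro_left p hpd)))
    refine ⟨fun x => ρ (rhoStep p x), fun b => ?_, fun a => ?_, fun A _ hA c hc =>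
      rho_step2 hpo hp hpd hpd' A hA (fun y => c (ρ y)) (hρD A hA c hc)⟩
    swap
    · obtain ⟨o1, o2⟩ := order_step hpo hp hpd hpd' a
      obtain ⟨o3, o4⟩ := hρO (rhoStep p a)
      exact ⟨o3.trans o1, o4.trans o2⟩
    have h1 : (iota k b : ZMod m) = iota p (iota k' b : ZMod (k' * m0)) := by
      rw [iota_comp hpd, hk']
    change ρ (rhoStep p (iota k b)) = b
    rw [h1]
    have h2 : (rhoStep p (iota p (iota k' b : ZMod (k' * m0)) : ZMod m) : ZMod (k' * m0)) =
        iota k' b := by
      have h3 : (iota p (iota k' b : ZMod (k' * m0)) : ZMod m) =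
        ((p * (iota k' b : ZMod (k' * m0)).val : ℕ) : ZMod m) := rfl
      rw [h3, rhoStep_nat hp.pos hpd hpd', if_pos (dvd_mul_right _ _),
        Nat.mul_div_cancel_left _ hp.pos, ZMod.natCast_zmod_val]
    rw [h2]
    exact hρ b

theorem exists_rho2 {m N k : ℕ} [NeZero m] [NeZero N] (hk : k * N = m) (hodd : k % 2 = 1)
    (hp : ∀ p, p.Prime → p ∣ m → p ∣ N) : ∃ ρ : ZMod m → ZMod N,
      (∀ b : ZMod N, ρ (iota k b) = b) ∧
      (∀ a : ZMod m, (addOrderOf (ρ a)).primeFactors = (addOrderOf a).primeFactors ∧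
        padicValNat 2 (addOrderOf (ρ a)) = padicValNat 2 (addOrderOf a)) ∧
      ∀ (A : Type) [AddCommGroup A] (_ : ∀ a : A, a + a = 0) (c : ZMod N → A), OddDist c →
        OddDist (fun x => c (ρ x)) :=
  exists_rho_aux2 k m N k rfl hodd hk hp

end Pool.Agent.LB
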