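import Mathlib

/-!
# A numerical inequality with rising factorials

With `f k x = ∑ i ≤ k, C(k, i) 2 ^ i x (x + 1) ⋯ (x + i - 1)` one has
`f (k + 1) x = f k x + 2 x f k (x + 1)`, and `f k` is monotone; hence
`f k (s + 1) + f k s ≤ 2 ^ (k + 1) (s + 1) ⋯ (s + k)` by induction on `k`.
-/

set_option autoImplicit false

namespace Pool.Agent.LB

open Finset

/-- the generating sum -/
def numF (k x : ℕ) : ℕ := ∑ i ∈ range (k + 1), k.choose i * (2 ^ i * x.ascFactorial i)

theorem numF_zero (x : ℕ) : numF 0 x = 1 := by simp [numF]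

theorem asc_succ (x i : ℕ) : x.ascFactorial (i + 1) = x * (x + 1).ascFactorial i := by
  rw [Nat.ascFactorial_succ]
  exact (Nat.succ_ascFactorial x i).symm

theorem numF_succ (k x : ℕ) : numF (k + 1) x = numF k x + 2 * x * numF k (x + 1) := by
  unfold numF
  rw [Finset.sum_range_succ' (fun i => (k + 1).choose i * (2 ^ i * x.ascFactorial i)), Finset.mul_sum]
  have h1 : ∀ i, (k + 1).choose (i + 1) * (2 ^ (i + 1) * x.ascFactorial (i + 1)) =
      2 * x * (k.choose i * (2 ^ i * (x + 1).ascFactorial i)) +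
        k.choose (i + 1) * (2 ^ (i + 1) * x.ascFactorial (i + 1)) := by
    intro i
    rw [Nat.choose_succ_succ, add_mul, asc_succ]
    ring
  simp_rw [h1]
  rw [Finset.sum_add_distrib]
  have h2 : ∑ i ∈ range (k + 1), k.choose (i + 1) * (2 ^ (i + 1) * x.ascFactorial (i + 1)) +
      k.choose 0 * (2 ^ 0 * x.ascFactorial 0) = ∑ i ∈ range (k + 1), k.choose i * (2 ^ i * x.ascFactorial i) := by
    rw [← Finset.sum_range_succ' (fun i => k.choose i * (2 ^ i * x.ascFactorial i)),
      Finset.sum_range_succ, Nat.choose_succ_self, zero_mul, add_zero]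
  rw [← h2]
  simp only [Nat.choose_zero_right]
  ring

theorem numF_mono (k : ℕ) : ∀ x : ℕ, numF k x ≤ numF k (x + 1) := by
  induction k with
  | zero => intro x; rw [numF_zero, numF_zero]
  | succ k ih =>
    intro x
    rw [numF_succ, numF_succ]
    have h1 := ih x
    have h2 := ih (x + 1)
    have h3 : 2 * x * numF k (x + 1) ≤ 2 * (x + 1) * numF k (x + 1 + 1) :=
      Nat.mul_le_mul (by omega) h2
    omega

theorem numF_add (k : ℕ) : ∀ s : ℕ, numF k (s + 1) + numF k s ≤ 2 ^ (k + 1) * (s + 1).ascFactorial k := by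
  induction k with
  | zero => intro s; rw [numF_zero, numF_zero]; simp
  | succ k ih =>
    intro s
    rw [numF_succ, numF_succ, asc_succ]
    have h1 := ih (s + 1)
    have h2 := numF_mono k s
    have h3 := Nat.mul_le_mul_left (2 * (s + 1)) h1
    have h4 : 2 * (s + 1) * (2 ^ (k + 1) * (s + 1 + 1).ascFactorial k) =
        2 ^ (k + 1 + 1) * ((s + 1) * (s + 1 + 1).ascFactorial k) := by ring
    rw [h4] at h3
    nlinarith

theorem num_ineq (s k : ℕ) : ∑ i ∈ range k, k.choose i * (2 ^ i * (s + 1).ascFactorial i) +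
    ∑ i ∈ range (k + 1), k.choose i * (2 ^ i * s.ascFactorial i) ≤ 2 ^ k * (s + 1).ascFactorial k := by
  have h := numF_add k s
  have h1 : numF k (s + 1) = ∑ i ∈ range k, k.choose i * (2 ^ i * (s + 1).ascFactorial i) +
      2 ^ k * (s + 1).ascFactorial k := by
    unfold numF
    rw [Finset.sum_range_succ, Nat.choose_self, one_mul]
  have h2 : numF k s = ∑ i ∈ range (k + 1), k.choose i * (2 ^ i * s.ascFactorial i) := rfl
  rw [← h2]
  rw [h1, pow_succ] at h
  have h3 : 2 ^ k * 2 * (s + 1).ascFactorial k = 2 ^ k * (s + 1).ascFactorial k +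
      2 ^ k * (s + 1).ascFactorial k := by ring
  omega

end Pool.Agent.LB
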