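import Pool.Agent.LB.EvLamB
import Pool.Agent.LB.EvLft
import Pool.Agent.LB.EvRes
import Pool.Agent.LB.EvLev
import Pool.Agent.LB.EvCnt
import Pool.Agent.LB.Num
import Pool.Agent.LB.EvRho

/-!
The family of distributions modulo 2 attached to a set of indices, on the level `m`, `8 ∣ m`.
-/

set_option linter.unusedSectionVars false

namespace Pool.Agent.LB

open Finset Pool.Agent.N993 Pool.Agent.H916R2 Pool.Agent.N992

section

variable {ι : Type} [Fintype ι] [LinearOrder ι] {n : ι → ℕ} [∀ i, NeZero (n i)] {N : ℕ} [NeZero N]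
  {o : ι} {k : ℕ}

lemma cyr_c_ne (H : Adm2 n o k N) (i : ι) : (cyr n (rd n o)).c i ≠ 1 := by
  have h : 2 < n i := by
    by_cases hi : i = o
    · subst hi
      rw [H.ho]
      calc 2 < 2 ^ 3 := by norm_num
        _ ≤ 2 ^ k := Nat.pow_le_pow_right (by norm_num) H.hk
    · have h1 := (H.hn i hi).1.two_le
      have h2 := (H.hn i hi).2
      rcases Nat.lt_or_ge 2 (n i) with h3 | h3
      · exact h3
      · have h4 : n i = 2 := le_antisymm h3 h1
        rw [h4] at h2
        omega
  intro h1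
  have h2 := congrArg (fun u : (ZMod (n i))ˣ => (u : ZMod (n i))) h1
  have h3 : (-1 : ZMod (n i)) = 1 := by
    have : ((-1 : (ZMod (n i))ˣ) : ZMod (n i)) = ((1 : (ZMod (n i))ˣ) : ZMod (n i)) := h2
    rwa [Units.val_neg, Units.val_one] at this
  have : Fact (2 < n i) := ⟨h⟩
  exact ZMod.neg_one_ne_one h3

lemma card_G (H : Adm2 n o k N) {i : ι} (hi : i ≠ o) :
    Fintype.card ((cyr n (rd n o)).G i) = 2 * (n i / 2) := by
  have e1 : Fintype.card ((cyr n (rd n o)).G i) = Nat.totient (n i) := ZMod.card_units_eq_totient _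
  rw [e1, Nat.totient_prime (H.hn i hi).1]
  have := (H.hn i hi).2
  omega

/-- the subgroup of the units congruent to 1 modulo 4 -/
def K4 (n : ι → ℕ) (o : ι) (k : ℕ) : Subgroup (ZMod (n o))ˣ where
  carrier := {u | (2 : ZMod (n o)) ^ (k - 2) * (u : ZMod (n o)) = 2 ^ (k - 2)}
  one_mem' := by simp
  mul_mem' := by
    intro a b ha hb
    simp only [Set.mem_ofPred_eq] at ha hb ⊢
    rw [Units.val_mul, ← mul_assoc, ha, hb]
  inv_mem' := by
    intro a ha
    simp only [Set.mem_ofPred_eq] at ha ⊢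
    calc (2 : ZMod (n o)) ^ (k - 2) * ((a⁻¹ : (ZMod (n o))ˣ) : ZMod (n o)) =
        (2 ^ (k - 2) * (a : ZMod (n o))) * ((a⁻¹ : (ZMod (n o))ˣ) : ZMod (n o)) := by rw [ha]
      _ = 2 ^ (k - 2) := by rw [mul_assoc, Units.mul_inv, mul_one]

lemma mem_K4 {u : (ZMod (n o))ˣ} :
    u ∈ K4 n o k ↔ (2 : ZMod (n o)) ^ (k - 2) * (u : ZMod (n o)) = 2 ^ (k - 2) := Iff.rfl

lemma two_pow_k (H : Adm2 n o k N) : (2 : ZMod (n o)) ^ k = 0 := by
  have h := (ZMod.natCast_eq_zero_iff (2 ^ k) (n o)).mpr (by rw [H.ho])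
  push_cast at h
  exact h

lemma four_pow (H : Adm2 n o k N) : (2 : ZMod (n o)) ^ (k - 2) * 4 = 0 := by
  have h1 : (4 : ZMod (n o)) = 2 ^ 2 := by norm_num
  have h2 : k - 2 + 2 = k := by have := H.hk; omega
  rw [h1, ← pow_add, h2, two_pow_k H]

lemma K4_or (H : Adm2 n o k N) (u : (ZMod (n o))ˣ) :
    u ∈ K4 n o k ∨ (cyr n (rd n o)).c o * u ∈ K4 n o k := by
  have hodd : (u : ZMod (n o)).val % 2 = 1 := by
    have h1 := ZMod.val_coe_unit_coprime u
    have h2 : Nat.Coprime (u : ZMod (n o)).val 2 :=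
      Nat.Coprime.coprime_dvd_right (by rw [H.ho]; exact dvd_pow_self 2 (by have := H.hk; omega)) h1
    exact Nat.odd_iff.mp (Nat.coprime_two_right.mp h2)
  have hval : (u : ZMod (n o)) = (((u : ZMod (n o)).val : ℕ) : ZMod (n o)) := by
    rw [ZMod.natCast_zmod_val]
  set v := (u : ZMod (n o)).val with hv
  have h4 := four_pow H
  rcases (by omega : v % 4 = 1 ∨ v % 4 = 3) with h | h
  · left
    rw [mem_K4, hval]
    obtain ⟨t, ht⟩ : ∃ t, v = 4 * t + 1 := ⟨v / 4, by omega⟩
    rw [ht]
    push_cast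
    linear_combination (t : ZMod (n o)) * h4
  · right
    obtain ⟨t, ht⟩ : ∃ t, v = 4 * t + 3 := ⟨v / 4, by omega⟩
    have h5 : ((((cyr n (rd n o)).c o * u : (ZMod (n o))ˣ)) : ZMod (n o)) = - (u : ZMod (n o)) := by
      change (((-1 : (ZMod (n o))ˣ) * u : (ZMod (n o))ˣ) : ZMod (n o)) = _
      rw [neg_one_mul, Units.val_neg]
    have h6 : (2 : ZMod (n o)) ^ (k - 2) * ((((cyr n (rd n o)).c o * u : (ZMod (n o))ˣ)) : ZMod (n o)) =
        2 ^ (k - 2) := by
      rw [h5, hval, ht]
      push_cast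
      linear_combination -((t : ZMod (n o)) + 1) * h4
    exact h6

lemma K4_c (H : Adm2 n o k N) : (cyr n (rd n o)).c o ∉ K4 n o k := by
  intro h
  have h1 : (2 : ZMod (n o)) ^ (k - 2) * (((-1 : (ZMod (n o))ˣ)) : ZMod (n o)) = 2 ^ (k - 2) := h
  rw [Units.val_neg, Units.val_one] at h1
  have h2 : (2 : ZMod (n o)) ^ (k - 1) = 0 := by
    have h3 : k - 1 = k - 2 + 1 := by have := H.hk; omega
    rw [h3, pow_succ]
    linear_combination -h1
  have h3 : ((2 ^ (k - 1) : ℕ) : ZMod (n o)) = 0 := by push_cast; exact h2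
  rw [ZMod.natCast_eq_zero_iff, H.ho] at h3
  have h4 := Nat.le_of_dvd (by positivity) h3
  have h5 : 2 ^ (k - 1) < 2 ^ k := Nat.pow_lt_pow_right (by norm_num) (by have := H.hk; omega)
  omega

lemma cnt_zero {D : Dat ι} {T P : Finset ι} {b : D.GG} {lam : D.Pt → ZMod 2} (h : Lam D T b lam)
    (hP : ¬ T ⊆ P) : cnt D lam P = 0 := by
  obtain ⟨i, hi, hi'⟩ := not_subset.mp hP
  unfold cnt
  rw [card_eq_zero, filter_eq_empty_iff]
  intro x _ hx
  apply hx.2
  apply h.zero
  exact ⟨i, hi, by rw [← notMem_spt, hx.1]; exact hi'⟩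

lemma prod_card (H : Adm2 n o k N) (a : ∀ i, ZMod (n i)) :
    ∏ i ∈ osup o a, Fintype.card ((cyr n (rd n o)).G i) =
      2 ^ (osup o a).card * ∏ i ∈ osup o a, (n i / 2) := by
  rw [← prod_const, ← prod_mul_distrib]
  refine prod_congr rfl fun i hi => ?_
  unfold osup at hi
  rw [mem_filter] at hi
  exact card_G H hi.2.1

lemma card_Go (H : Adm2 n o k N) : 2 < Fintype.card ((cyr n (rd n o)).G o) := by
  have e1 : Fintype.card ((cyr n (rd n o)).G o) = Nat.totient (n o) := ZMod.card_units_eq_totient _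
  rw [e1, H.ho, Nat.totient_prime_pow Nat.prime_two (by have := H.hk; omega)]
  have h1 : 2 ^ 2 ≤ 2 ^ (k - 1) := Nat.pow_le_pow_right (by norm_num) (by have := H.hk; omega)
  omega

variable {ν : ι ↪ ℕ}

lemma big_eq (H : Adm2 n o k N) (hνo : ν o = 4) (hν : ∀ i, i ≠ o → ν i = n i) (T : Finset ι) :
    big (cyr n (rd n o)) T = sz (T.map ν) := by
  unfold big sz
  have h1 : (T.map ν).erase 3 = (T.filter (fun i => 2 < Fintype.card ((cyr n (rd n o)).G i))).map ν := by
    ext x
    rw [mem_erase, mem_map, mem_map]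
    constructor
    · rintro ⟨hx, i, hi, rfl⟩
      refine ⟨i, ?_, rfl⟩
      rw [mem_filter]
      refine ⟨hi, ?_⟩
      by_cases hio : i = o
      · rw [hio]; exact card_Go H
      · rw [card_G H hio]
        rw [hν i hio] at hx
        have h2 := (H.hn i hio).1.two_le
        have h3 := (H.hn i hio).2
        omega
    · rintro ⟨i, hi, rfl⟩
      rw [mem_filter] at hi
      refine ⟨?_, i, hi.1, rfl⟩
      by_cases hio : i = o
      · rw [hio, hνo]; norm_num
      · rw [hν i hio]
        have h2 := hi.2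
        rw [card_G H hio] at h2
        intro h3
        rw [h3] at h2
        omega
  rw [h1, card_map]

lemma map_erase4 (hνo : ν o = 4) (T : Finset ι) : (T.map ν).erase 4 = (T.erase o).map ν := by
  ext x
  rw [mem_erase, mem_map, mem_map]
  constructor
  · rintro ⟨hx, i, hi, rfl⟩
    refine ⟨i, mem_erase.mpr ⟨?_, hi⟩, rfl⟩
    rintro rfl
    exact hx hνo
  · rintro ⟨i, hi, rfl⟩
    rw [mem_erase] at hi
    refine ⟨?_, i, hi.2, rfl⟩
    rw [← hνo]
    exact fun h => hi.1 (ν.injective h)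

lemma mem_map4 (hνo : ν o = 4) (T : Finset ι) : 4 ∈ T.map ν ↔ o ∈ T := by
  rw [← hνo]
  exact mem_map' ν

lemma hh_map (hν : ∀ i, i ≠ o → ν i = n i) (a : ∀ i, ZMod (n i)) :
    hh ((osup o a).map ν) = ∏ i ∈ osup o a, (n i / 2) := by
  unfold hh
  rw [prod_map]
  refine prod_congr rfl fun i hi => ?_
  unfold osup at hi
  rw [mem_filter] at hi
  rw [hν i hi.2.1]

lemma o_notMem_osup (a : ∀ i, ZMod (n i)) : o ∉ osup o a := by
  unfold osup
  rw [mem_filter]
  rintro ⟨_, h, _⟩
  exact h rfl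

lemma pow_cancel {p X Y : ℕ} (h : 2 ^ p * X ≤ 2 ^ p * Y) : X ≤ Y :=
  Nat.le_of_mul_le_mul_left h (by positivity)

/-- the level of the coordinate `o` -/
structure Lev (n : ι → ℕ) (o : ι) (k j : ℕ) (z : ZMod (n o)) : Prop where
  l0 : j = 0 → z = 0
  l1 : j = 1 → z = 2 ^ (k - 1)
  l2 : 2 ≤ j → j ≤ k ∧ ∃ u0 : (ZMod (n o))ˣ, z = 2 ^ (k - j) * (u0 : ZMod (n o))

/-- the bounds common to all sets: levels 0 and 1 and at least 3 -/
lemma bound_common (H : Adm2 n o k N) (hνo : ν o = 4) (hν : ∀ i, i ≠ o → ν i = n i) {T : Finset ι}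
    {lam : (cyr n (rd n o)).Pt → ZMod 2} (hL : Lam (cyr n (rd n o)) T 1 lam)
    (hc : ∀ P, T ⊆ P → cnt (cyr n (rd n o)) lam P ≤
      2 ^ P.card * (big (cyr n (rd n o)) T).ascFactorial (P.card - T.card))
    (a : ∀ i, ZMod (n i)) {j : ℕ} (hj : Lev n o k j (a o)) (hj2 : j ≠ 2 ∨ o ∉ T) :
    2 * (badc n o k lam a * hh ((osup o a).map ν)) ≤
      prb (T.map ν) ((osup o a).map ν) (min 3 j) * Fintype.card (cyr n (rd n o)).GG := by
  set C := Fintype.card (cyr n (rd n o)).GG with hC
  rw [hh_map hν]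
  set hP := ∏ i ∈ osup o a, (n i / 2) with hhP
  have hpc := prod_card H a
  rw [← hhP] at hpc
  rw [big_eq H hνo hν] at hc
  have hPo : o ∉ osup o a := o_notMem_osup a
  have hj' : j = 0 ∨ j = 1 ∨ j = 2 ∨ 3 ≤ j := by omega
  rcases hj' with h | h | h | h
  · -- level 0
    have h1 := badc_zero H lam a (hj.l0 h)
    rw [hpc] at h1
    have hm : min 3 j = 0 := by omega
    rw [hm]
    unfold prb
    rw [if_pos rfl, card_map, card_map]
    by_cases hT : T ⊆ osup o a
    · rw [if_pos (map_subset_map.mpr hT)]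
      have h2 : 2 ^ (osup o a).card * (badc n o k lam a * hP) ≤ 2 ^ (osup o a).card *
          ((sz (T.map ν)).ascFactorial ((osup o a).card - T.card) * C) := by
        calc _ = badc n o k lam a * (2 ^ (osup o a).card * hP) := by ring
          _ ≤ _ := h1
          _ ≤ _ := Nat.mul_le_mul_right _ (hc _ hT)
          _ = _ := by ring
      have h3 := pow_cancel h2
      calc _ ≤ 2 * ((sz (T.map ν)).ascFactorial ((osup o a).card - T.card) * C) :=
            Nat.mul_le_mul_left _ h3
        _ = _ := by ring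
    · rw [if_neg (fun h => hT (map_subset_map.mp h))]
      rw [cnt_zero hL hT, zero_mul] at h1
      have h2 : 2 ^ (osup o a).card * (badc n o k lam a * hP) ≤ 2 ^ (osup o a).card * 0 := by
        calc _ = badc n o k lam a * (2 ^ (osup o a).card * hP) := by ring
          _ ≤ _ := h1
          _ = _ := by ring
      have h3 := pow_cancel h2
      omega
  · -- level 1
    have h1 := badc_one H hL.isD a (hj.l1 h)
    rw [hpc] at h1
    have hm : min 3 j = 1 := by omega
    rw [hm]
    unfold prb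
    rw [if_neg one_ne_zero, if_pos rfl, card_map, card_map]
    by_cases hT : T ⊆ osup o a
    · rw [if_pos (map_subset_map.mpr hT)]
      have h2 : 2 ^ (osup o a).card * (badc n o k lam a * hP) ≤ 2 ^ (osup o a).card *
          (2 * (sz (T.map ν)).ascFactorial ((osup o a).card - T.card) * C) := by
        calc _ = badc n o k lam a * (2 ^ (osup o a).card * hP) := by ring
          _ ≤ _ := h1
          _ ≤ 2 * (2 ^ (osup o a).card *
            (sz (T.map ν)).ascFactorial ((osup o a).card - T.card)) * C :=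
            Nat.mul_le_mul_right _ (Nat.mul_le_mul_left _ (hc _ hT))
          _ = _ := by ring
      have h3 := pow_cancel h2
      calc _ ≤ 2 * (2 * (sz (T.map ν)).ascFactorial ((osup o a).card - T.card) * C) :=
            Nat.mul_le_mul_left _ h3
        _ = _ := by ring
    · rw [if_neg (fun h => hT (map_subset_map.mp h))]
      rw [cnt_zero hL hT, mul_zero, zero_mul] at h1
      have h2 : 2 ^ (osup o a).card * (badc n o k lam a * hP) ≤ 2 ^ (osup o a).card * 0 := by
        calc _ = badc n o k lam a * (2 ^ (osup o a).card * hP) := by ring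
          _ ≤ _ := h1
          _ = _ := by ring
      have h3 := pow_cancel h2
      omega
  · -- level 2, `o ∉ T`
    have hoT : o ∉ T := by
      rcases hj2 with h' | h'
      · exact absurd h h'
      · exact h'
    obtain ⟨hjk, u0, hu0⟩ := hj.l2 (by omega)
    have h1 := badc_two H lam a (j := j) (by omega) hjk u0 hu0
    rw [hpc] at h1
    have hm : min 3 j = 2 := by omega
    rw [hm]
    unfold prb
    rw [if_neg two_ne_zero, if_neg (by norm_num), if_pos rfl, map_erase4 hνo,
      card_map, card_map, erase_eq_of_notMem hoT, if_neg (fun h => hoT ((mem_map4 hνo T).mp h))]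
    have hsub : T ⊆ insert o (osup o a) ↔ T ⊆ osup o a := by
      constructor
      · intro h2 i hi
        rcases mem_insert.mp (h2 hi) with h3 | h3
        · rw [h3] at hi; exact absurd hi hoT
        · exact h3
      · exact fun h2 => h2.trans (subset_insert _ _)
    have hcard : (insert o (osup o a)).card = (osup o a).card + 1 := card_insert_of_notMem hPo
    rw [h] at h1
    by_cases hT : T ⊆ osup o a
    · rw [if_pos (map_subset_map.mpr hT)]
      have h4 := hc _ (hsub.mpr hT)
      rw [hcard] at h4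
      have h2 : 2 ^ ((osup o a).card + 1) * (badc n o k lam a * hP) ≤ 2 ^ ((osup o a).card + 1) *
          ((sz (T.map ν)).ascFactorial ((osup o a).card + 1 - T.card) * C) := by
        calc _ = badc n o k lam a * (2 ^ (2 - 1) * (2 ^ (osup o a).card * hP)) := by
              rw [pow_succ]; norm_num; ring
          _ ≤ _ := h1
          _ ≤ _ := Nat.mul_le_mul_right _ h4
          _ = _ := by ring
      have h3 := pow_cancel h2
      calc _ ≤ 2 * ((sz (T.map ν)).ascFactorial ((osup o a).card + 1 - T.card) * C) :=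
            Nat.mul_le_mul_left _ h3
        _ = _ := by ring
    · rw [if_neg (fun h => hT (map_subset_map.mp h))]
      rw [cnt_zero hL (fun h => hT (hsub.mp h)), zero_mul] at h1
      have h2 : 2 ^ ((osup o a).card + 1) * (badc n o k lam a * hP) ≤
          2 ^ ((osup o a).card + 1) * 0 := by
        calc _ = badc n o k lam a * (2 ^ (2 - 1) * (2 ^ (osup o a).card * hP)) := by
              rw [pow_succ]; norm_num; ring
          _ ≤ _ := h1
          _ = _ := by ring
      have h3 := pow_cancel h2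
      omega
  · -- level at least 3
    obtain ⟨hjk, u0, hu0⟩ := hj.l2 (by omega)
    have h1 := badc_two H lam a (j := j) (by omega) hjk u0 hu0
    rw [hpc] at h1
    have hm : min 3 j = 3 := by omega
    rw [hm]
    unfold prb
    rw [if_neg (by norm_num), if_neg (by norm_num), if_neg (by norm_num), map_erase4 hνo,
      card_map, card_map]
    have hsub : T ⊆ insert o (osup o a) ↔ T.erase o ⊆ osup o a := by
      rw [subset_insert_iff]
    have hcard : (insert o (osup o a)).card = (osup o a).card + 1 := card_insert_of_notMem hPo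
    have h4j : 2 ^ 2 ≤ 2 ^ (j - 1) := Nat.pow_le_pow_right (by norm_num) (by omega)
    have h0 : 2 ^ ((osup o a).card + 1) * (2 * (badc n o k lam a * hP)) ≤
        badc n o k lam a * (2 ^ (j - 1) * (2 ^ (osup o a).card * hP)) := by
      calc _ = badc n o k lam a * (2 ^ 2 * (2 ^ (osup o a).card * hP)) := by
            rw [pow_succ]; ring
        _ ≤ _ := Nat.mul_le_mul_left _ (Nat.mul_le_mul_right _ h4j)
    by_cases hT : T.erase o ⊆ osup o a
    · rw [if_pos (map_subset_map.mpr hT)]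
      have h4 := hc _ (hsub.mpr hT)
      rw [hcard] at h4
      have h2 : 2 ^ ((osup o a).card + 1) * (2 * (badc n o k lam a * hP)) ≤
          2 ^ ((osup o a).card + 1) *
          ((sz (T.map ν)).ascFactorial ((osup o a).card + 1 - T.card) * C) := by
        calc _ ≤ _ := h0
          _ ≤ _ := h1
          _ ≤ _ := Nat.mul_le_mul_right _ h4
          _ = _ := by ring
      exact pow_cancel h2
    · rw [if_neg (fun h => hT (map_subset_map.mp h))]
      rw [cnt_zero hL (fun h => hT (hsub.mp h)), zero_mul] at h1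
      have h2 : 2 ^ ((osup o a).card + 1) * (2 * (badc n o k lam a * hP)) ≤
          2 ^ ((osup o a).card + 1) * 0 := by
        calc _ ≤ _ := h0
          _ ≤ _ := h1
          _ = _ := by ring
      have h3 := pow_cancel h2
      omega

/-- level 2, `o ∈ T` -/
lemma bound_push (H : Adm2 n o k N) (hνo : ν o = 4) (hν : ∀ i, i ≠ o → ν i = n i) {T' : Finset ι}
    (ho : o ∉ T') {lam B : (cyr n (rd n o)).Pt → ZMod 2} (hB1 : Lam (cyr n (rd n o)) T' 1 B)
    (hc : ∀ P, T' ⊆ P → cnt (cyr n (rd n o)) B P ≤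
      2 ^ P.card * (big (cyr n (rd n o)) T').ascFactorial (P.card - T'.card))
    (hB : ∀ x : (cyr n (rd n o)).Pt, x o = none → ∀ h : (ZMod (n o))ˣ,
      ∑ u : (ZMod (n o))ˣ, (if (2 : ZMod (n o)) ^ (k - 2) * (u : ZMod (n o)) = 2 ^ (k - 2) * h then
        lam (Function.update x o (some u)) else 0) = B x)
    (a : ∀ i, ZMod (n i)) (u0 : (ZMod (n o))ˣ)
    (ha : a o = 2 ^ (k - 2) * (u0 : ZMod (n o))) :
    2 * (badc n o k lam a * hh ((osup o a).map ν)) ≤
      prb ((insert o T').map ν) ((osup o a).map ν) 2 * Fintype.card (cyr n (rd n o)).GG := by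
  set C := Fintype.card (cyr n (rd n o)).GG with hC
  rw [hh_map hν]
  set hP := ∏ i ∈ osup o a, (n i / 2) with hhP
  have hpc := prod_card H a
  rw [← hhP] at hpc
  have h1 := badc_push H hB a u0 ha
  rw [hpc] at h1
  have hbig : sz ((insert o T').map ν) - 1 = big (cyr n (rd n o)) T' := by
    rw [← big_eq H hνo hν, big, big, filter_insert, if_pos (card_Go H), card_insert_of_notMem,
      Nat.add_sub_cancel]
    rw [mem_filter]
    exact fun h => ho h.1
  unfold prb
  rw [if_neg two_ne_zero, if_neg (by norm_num), if_pos rfl, map_erase4 hνo,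
    card_map, card_map, erase_insert ho, if_pos ((mem_map4 hνo _).mpr (mem_insert_self _ _)), hbig,
    card_insert_of_notMem ho, Nat.add_sub_add_right]
  by_cases hT : T' ⊆ osup o a
  · rw [if_pos (map_subset_map.mpr hT)]
    have h2 : 2 ^ (osup o a).card * (badc n o k lam a * hP) ≤ 2 ^ (osup o a).card *
        ((big (cyr n (rd n o)) T').ascFactorial ((osup o a).card - T'.card) * C) := by
      calc _ = badc n o k lam a * (2 ^ (osup o a).card * hP) := by ring
        _ ≤ _ := h1
        _ ≤ _ := Nat.mul_le_mul_right _ (hc _ hT)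
        _ = _ := by ring
    have h3 := pow_cancel h2
    calc _ ≤ 2 * ((big (cyr n (rd n o)) T').ascFactorial ((osup o a).card - T'.card) * C) :=
          Nat.mul_le_mul_left _ h3
      _ = _ := by ring
  · rw [if_neg (fun h => hT (map_subset_map.mp h))]
    rw [cnt_zero hB1 hT, zero_mul] at h1
    have h2 : 2 ^ (osup o a).card * (badc n o k lam a * hP) ≤ 2 ^ (osup o a).card * 0 := by
      calc _ = badc n o k lam a * (2 ^ (osup o a).card * hP) := by ring
        _ ≤ _ := h1
        _ = _ := by ring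
    have h3 := pow_cancel h2
    omega

/-- the distributions modulo 2 with the bounds -/
theorem exists_lamb (H : Adm2 n o k N) (hνo : ν o = 4) (hν : ∀ i, i ≠ o → ν i = n i)
    (T : Finset ι) : ∃ lam, Lam (cyr n (rd n o)) T 1 lam ∧
      ∀ (a : ∀ i, ZMod (n i)) (j : ℕ), Lev n o k j (a o) →
        2 * (badc n o k lam a * hh ((osup o a).map ν)) ≤
          prb (T.map ν) ((osup o a).map ν) (min 3 j) * Fintype.card (cyr n (rd n o)).GG := by
  classical
  by_cases hoT : o ∈ T
  · obtain ⟨T', ho, rfl⟩ : ∃ T', o ∉ T' ∧ insert o T' = T :=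
      ⟨T.erase o, notMem_erase _ _, insert_erase hoT⟩
    obtain ⟨lam, B, h1, h2, h3, h4, h5⟩ := exists_lam3 (D := cyr n (rd n o)) num_ineq (cyr_c_ne H)
      (fun _ => rfl) T' ho (K4 n o k) (K4_or H) (K4_c H)
    have hbig : big (cyr n (rd n o)) (insert o T') = big (cyr n (rd n o)) T' + 1 := by
      rw [big, big, filter_insert, if_pos (card_Go H), card_insert_of_notMem]
      rw [mem_filter]
      exact fun h => ho h.1
    refine ⟨lam, h1, ?_⟩
    intro a j hj
    by_cases hj2 : j = 2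
    · subst hj2
      obtain ⟨_, u0, hu0⟩ := hj.l2 le_rfl
      have hm : min 3 2 = 2 := by norm_num
      rw [hm]
      refine bound_push H hνo hν ho h2 h4 ?_ a u0 hu0
      intro x hx h
      rw [← h5 x hx h]
      refine sum_congr rfl fun u _ => ?_
      have e : ((2 : ZMod (n o)) ^ (k - 2) * (u : ZMod (n o)) = 2 ^ (k - 2) * h) ↔
          h⁻¹ * u ∈ K4 n o k := by
        rw [mem_K4]
        constructor
        · intro h6
          calc (2 : ZMod (n o)) ^ (k - 2) * ((h⁻¹ * u : (ZMod (n o))ˣ) : ZMod (n o)) =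
              (2 ^ (k - 2) * (u : ZMod (n o))) * ((h⁻¹ : (ZMod (n o))ˣ) : ZMod (n o)) := by
                rw [Units.val_mul]; ring
            _ = 2 ^ (k - 2) * ((h : ZMod (n o)) * ((h⁻¹ : (ZMod (n o))ˣ) : ZMod (n o))) := by
                rw [h6]; ring
            _ = _ := by rw [Units.mul_inv, mul_one]
        · intro h6
          calc (2 : ZMod (n o)) ^ (k - 2) * (u : ZMod (n o)) =
              (2 ^ (k - 2) * ((h⁻¹ * u : (ZMod (n o))ˣ) : ZMod (n o))) * (h : ZMod (n o)) := by
                rw [Units.val_mul]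
                have : ((h⁻¹ : (ZMod (n o))ˣ) : ZMod (n o)) * (h : ZMod (n o)) = 1 := Units.inv_mul h
                linear_combination -(2 ^ (k - 2) * (u : ZMod (n o))) * this
            _ = _ := by rw [h6]
      exact if_congr e rfl rfl
    · refine bound_common H hνo hν h1 ?_ a hj (Or.inl hj2)
      intro P hP
      rw [hbig, card_insert_of_notMem ho]
      exact h3 P hP
  · obtain ⟨lam, h1, h2⟩ := exists_lam2 (D := cyr n (rd n o)) num_ineq (cyr_c_ne H)
      (fun _ => rfl) T
    exact ⟨lam, h1, fun a j hj => bound_common H hνo hν h1 h2 a hj (Or.inr hoT)⟩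

end

/-- E7 -/
theorem exists_fam {m : ℕ} [NeZero m] (h8 : 8 ∣ m) {S : Finset ℕ}
    (hS : S = insert 4 (m.primeFactors.erase 2)) [hnz : ∀ i : Ix S, NeZero (nn S i)] {k0 m0 : ℕ}
    [NeZero m0] (hm0 : ∏ i, nn S i = m0) (hk : k0 * m0 = m)
    (E : (∀ i, ZMod (nn S i)) ≃+* ZMod m0) {T : Finset (Ix S)} (hT : T.Nonempty) :
    ∃ (γ : Type) (_ : Fintype γ) (_ : Nonempty γ) (F : γ → ZMod m → ZMod 2),
      (∀ g, OddDist (F g)) ∧
      (∀ g, ∃ b, Lam (cyc (nn S)) T b (fun x => F g (iota k0 (E (emb x))))) ∧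
      ∀ a : ZMod m, 2 * ((univ.filter (fun g => F g a ≠ 0)).card * hh (opf (addOrderOf a))) ≤
        prb (T.map (Function.Embedding.subtype _)) (opf (addOrderOf a)) (lev2 (addOrderOf a)) *
          Fintype.card γ := by
  classical
  have hm : m ≠ 0 := NeZero.ne m
  have hf2 : Fact (Nat.Prime 2) := ⟨Nat.prime_two⟩
  obtain ⟨k, m', hm', hmk⟩ : ∃ k m', m' % 2 = 1 ∧ 2 ^ k * m' = m := by
    obtain ⟨k, m', h1, h2⟩ := Nat.exists_eq_two_pow_mul_odd hm
    exact ⟨k, m', Nat.odd_iff.mp h1, h2.symm⟩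
  have hk3 : 3 ≤ k := by
    by_contra hlt
    have h1 : 2 ^ (k + 1) ∣ 2 ^ k * m' := by
      rw [hmk]
      refine dvd_trans ?_ h8
      have : (8 : ℕ) = 2 ^ 3 := by norm_num
      rw [this]
      exact pow_dvd_pow 2 (by omega)
    rw [pow_succ] at h1
    have h2 := Nat.dvd_of_mul_dvd_mul_left (by positivity) h1
    omega
  have hmem : ∀ i : Ix S, (i : ℕ) ≠ 4 → (i : ℕ).Prime ∧ (i : ℕ) % 2 = 1 ∧ (i : ℕ) ∣ m := by
    intro i hi
    have h0 : ∀ x ∈ S, x ∈ insert 4 (m.primeFactors.erase 2) := by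
      intro x hx; rw [← hS]; exact hx
    have h1 := h0 i i.2
    rw [mem_insert] at h1
    have h2 := h1.resolve_left hi
    rw [mem_erase] at h2
    have h3 := Nat.prime_of_mem_primeFactors h2.2
    exact ⟨h3, (h3.eq_two_or_odd).resolve_left h2.1, Nat.dvd_of_mem_primeFactors h2.2⟩
  let o : Ix S := ⟨4, by rw [hS]; exact mem_insert_self _ _⟩
  have hne4 : ∀ i : Ix S, i ≠ o → (i : ℕ) ≠ 4 := fun i hi h => hi (Subtype.ext h)
  let n : Ix S → ℕ := fun i => if (i : ℕ) = 4 then 2 ^ k else (i : ℕ)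
  have hno : n o = 2 ^ k := if_pos rfl
  have hni : ∀ i, i ≠ o → n i = (i : ℕ) := fun i hi => if_neg (hne4 i hi)
  have hnn : ∀ i, i ≠ o → nn S i = n i := fun i hi => (hni i hi).symm
  have hnzn : ∀ i, NeZero (n i) := by
    intro i
    constructor
    by_cases hi : i = o
    · rw [hi, hno]; positivity
    · rw [hni i hi]; exact (hmem i (hne4 i hi)).1.ne_zero
  set M0 : ℕ := ∏ i ∈ univ.erase o, (i : ℕ) with hM0
  have hM0odd : M0 % 2 = 1 := by
    rw [← Nat.odd_iff, hM0]
    refine prod_induction _ Odd (fun a b => Odd.mul) odd_one fun i hi => ?_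
    exact Nat.odd_iff.mpr (hmem i (hne4 i (ne_of_mem_erase hi))).2.1
  have hm0M : m0 = 4 * M0 := by
    rw [← hm0, ← mul_prod_erase univ (nn S) (mem_univ o)]
  have hNM : ∏ i, n i = 2 ^ k * M0 := by
    rw [← mul_prod_erase univ n (mem_univ o), hno, hM0]
    congr 1
    exact prod_congr rfl fun i hi => hni i (ne_of_mem_erase hi)
  obtain ⟨k1, hk1⟩ : 2 ^ (k - 2) ∣ k0 := by
    have h1 : 2 ^ k ∣ (k0 * 4) * M0 := by
      have : k0 * 4 * M0 = 2 ^ k * m' := by rw [hmk, ← hk, hm0M]; ring
      rw [this]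
      exact dvd_mul_right _ _
    have h2 : 2 ^ k ∣ k0 * 4 := by
      refine Nat.Coprime.dvd_of_dvd_mul_right ?_ h1
      exact Nat.Coprime.pow_left k (Nat.coprime_two_left.mpr (Nat.odd_iff.mpr hM0odd))
    have h3 : 2 ^ k = 2 ^ (k - 2) * 4 := by
      have : (4 : ℕ) = 2 ^ 2 := by norm_num
      rw [this, ← pow_add]
      congr 1
      omega
    rw [h3] at h2
    exact Nat.dvd_of_mul_dvd_mul_right (by norm_num) h2
  have h2k : 2 ^ k = 2 ^ (k - 2) * 4 := by
    have : (4 : ℕ) = 2 ^ 2 := by norm_num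
    rw [this, ← pow_add]
    congr 1
    omega
  set N : ℕ := ∏ i, n i with hN
  have hN0 : N ≠ 0 := prod_ne_zero_iff.mpr fun i _ => (hnzn i).out
  have hNZ : NeZero N := ⟨hN0⟩
  have hkN : k1 * N = m := by
    rw [hNM, ← hk, hm0M, hk1, h2k]; ring
  have hk1odd : k1 % 2 = 1 := by
    have h1 : k1 * M0 = m' := by
      apply Nat.eq_of_mul_eq_mul_left (show 0 < 2 ^ k by positivity)
      rw [hmk, ← hkN, hNM]; ring
    rcases Nat.mod_two_eq_zero_or_one k1 with h | h
    · exfalso
      rw [← h1, Nat.mul_mod, h] at hm'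
      simp at hm'
    · exact h
  have H : Adm2 n o k N := by
    refine ⟨hk3, hno, ?_, ?_, rfl⟩
    · intro i hi
      rw [hni i hi]
      exact ⟨(hmem i (hne4 i hi)).1, (hmem i (hne4 i hi)).2.1⟩
    · intro i j hij
      by_cases hi : i = o
      · by_cases hj : j = o
        · exact absurd (hi.trans hj.symm) hij
        · rw [hi, hno, hni j hj]
          exact Nat.Coprime.pow_left k (Nat.coprime_two_left.mpr
            (Nat.odd_iff.mpr (hmem j (hne4 j hj)).2.1))
      · by_cases hj : j = o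
        · rw [hj, hno, hni i hi]
          exact Nat.Coprime.pow_right k (Nat.coprime_two_right.mpr
            (Nat.odd_iff.mpr (hmem i (hne4 i hi)).2.1))
        · rw [hni i hi, hni j hj]
          exact (Nat.coprime_primes (hmem i (hne4 i hi)).1 (hmem j (hne4 j hj)).1).mpr
            (fun h => hij (Subtype.ext h))
  have hpN : ∀ p, p.Prime → p ∣ m → p ∣ N := by
    intro p hp hpm
    by_cases h2 : p = 2
    · rw [h2, hNM]
      exact dvd_mul_of_dvd_left (dvd_pow_self 2 (by omega)) _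
    · have hpS : p ∈ S := by
        rw [hS]
        exact mem_insert_of_mem (mem_erase.mpr ⟨h2, Nat.mem_primeFactors.mpr ⟨hp, hpm, hm⟩⟩)
      have hp4 : p ≠ 4 := by rintro rfl; revert hp; norm_num
      have h3 : n ⟨p, hpS⟩ = p := if_neg hp4
      rw [← h3]
      exact dvd_prod_of_mem n (mem_univ _)
  obtain ⟨ρ, hρ1, hρ2, hρ3⟩ := exists_rho2 hkN hk1odd hpN
  let ν : Ix S ↪ ℕ := Function.Embedding.subtype _
  have hνo : ν o = 4 := rfl
  have hν : ∀ i, i ≠ o → ν i = n i := fun i hi => (hni i hi).symm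
  obtain ⟨lam, hlam, hbd⟩ := exists_lamb H hνo hν T
  have hOD : ∀ g : (cyr n (rd n o)).GG, OddDist (fun b : ZMod N =>
      lft n o k (fun x => lam ((cyr n (rd n o)).act g x)) (phi n 1 b)) := by
    intro g
    have h1 := hlam.translate g
    refine oddDist_lft H h1.isD h1.inv ?_
    obtain ⟨i, hi⟩ := hT
    exact h1.zero _ ⟨i, hi, rfl⟩
  refine ⟨(cyr n (rd n o)).GG, inferInstance, ⟨1⟩, fun g a =>
    lft n o k (fun x => lam ((cyr n (rd n o)).act g x)) (phi n 1 (ρ a)), ?_, ?_, ?_⟩
  · intro g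
    exact hρ3 (ZMod 2) (fun a => CharTwo.add_self_eq_zero a) _ (hOD g)
  · intro g
    obtain ⟨b', hb'⟩ := lam_restrict H (n4 := nn S) rfl hnn hm0 E hT (hlam.translate g) (hOD g)
    refine ⟨b', ?_⟩
    have e : (fun x : (cyc (nn S)).Pt => lft n o k (fun x => lam ((cyr n (rd n o)).act g x))
        (phi n 1 (ρ (iota k0 (E (emb x)))))) = fun x =>
        lft n o k (fun x => lam ((cyr n (rd n o)).act g x))
          (phi n 1 (iota (2 ^ (k - 2)) (E (emb x)) : ZMod N)) := by
      funext x
      have h1 : (iota k0 (E (emb x)) : ZMod m) =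
          iota k1 (iota (2 ^ (k - 2)) (E (emb x)) : ZMod N) := by
        rw [iota_comp hkN, hk1, mul_comm]
      rw [h1, hρ1]
    rw [e]
    exact hb'
  · intro a
    have hlev : Lev n o k (padicValNat 2 (addOrderOf (ρ a))) (phi n 1 (ρ a) o) := by
      obtain ⟨h1, h2, h3⟩ := phi_level H (ρ a)
      exact ⟨h1, h2, h3⟩
    have h1 := hbd (phi n 1 (ρ a)) _ hlev
    have hsup : (osup o (phi n 1 (ρ a))).map ν = opf (addOrderOf a) := by
      unfold opf
      rw [← (hρ2 a).1]
      ext x
      rw [mem_map, mem_erase, Nat.mem_primeFactors]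
      have hd0 : addOrderOf (ρ a) ≠ 0 := (addOrderOf_pos (ρ a)).ne'
      constructor
      · rintro ⟨i, hi, rfl⟩
        rw [osup_phi H] at hi
        rw [hni i hi.1] at hi
        have h2 := hmem i (hne4 i hi.1)
        have h3 : ν i = (i : ℕ) := rfl
        rw [h3]
        refine ⟨?_, h2.1, hi.2, hd0⟩
        intro h4
        rw [h4] at h2
        omega
      · rintro ⟨hx2, hxp, hxd, _⟩
        have hxm : x ∣ m := by
          have h2 : addOrderOf (ρ a) ∣ N := by
            have h := addOrderOf_dvd_card (x := ρ a)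
            rwa [ZMod.card] at h
          exact (hxd.trans h2).trans (Dvd.intro_left k1 hkN)
        have hxS : x ∈ S := by
          rw [hS]
          exact mem_insert_of_mem (mem_erase.mpr ⟨hx2, Nat.mem_primeFactors.mpr ⟨hxp, hxm, hm⟩⟩)
        have hx4 : x ≠ 4 := by rintro rfl; revert hxp; norm_num
        have hio : (⟨x, hxS⟩ : Ix S) ≠ o := fun h => hx4 (congrArg Subtype.val h)
        refine ⟨⟨x, hxS⟩, ?_, rfl⟩
        rw [osup_phi H, hni _ hio]
        exact ⟨hio, hxd⟩
    have h1' : 2 * (badc n o k lam (phi n 1 (ρ a)) * hh ((osup o (phi n 1 (ρ a))).map ν)) ≤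
        prb (T.map ν) ((osup o (phi n 1 (ρ a))).map ν) (min 3 (padicValNat 2 (addOrderOf (ρ a)))) *
          Fintype.card (cyr n (rd n o)).GG := h1
    rw [hsup, (hρ2 a).2] at h1'
    exact h1'

end Pool.Agent.LB
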