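import Pool.Agent.LB.EvDefs
import Pool.Agent.LB.LamEx

/-!
The distributions modulo 2 attached to the sets of indices, and the number of points at which they do
not vanish: the indices whose group has two elements are not counted.
-/

set_option linter.unusedSectionVars false

namespace Pool.Agent.LB

open Finset Pool.Agent.N993 Pool.Agent.H916R2 Pool.Agent.N992

variable {ι : Type} [DecidableEq ι] [Fintype ι] {D : Dat ι}

/-- The bound for the half distribution. -/
theorem cnt_HH_le2 (hnum : NumIneq) {T' : Finset ι} {p : ι} (hp : p ∉ T') {B : D.Pt → ZMod 2}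
    {s : ℕ} (hB : ∀ P, T' ⊆ P → cnt D B P ≤ 2 ^ P.card * s.ascFactorial (P.card - T'.card)) :
    ∀ (n : ℕ) (P : Finset ι), P.card ≤ n → insert p T' ⊆ P →
      cnt D (HH D T' p B) P ≤ 2 ^ (P.card - 1) *
        (s + 1).ascFactorial (P.card - (T'.card + 1)) := by
  intro n
  induction n with
  | zero =>
    intro P h0 hP
    have h1 := card_le_card hP
    rw [card_insert_of_notMem hp] at h1
    omega
  | succ n ih =>
    intro P hn hP
    have hpP : p ∈ P := hP (mem_insert_self _ _)
    have hTP : T' ⊆ P := fun i hi => hP (mem_insert_of_mem hi)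
    set M := P \ insert p T' with hM
    have hpM : p ∉ M := fun h => (mem_sdiff.mp h).2 (mem_insert_self _ _)
    have hPM : P \ T' = insert p M := by
      ext i
      rw [mem_sdiff, mem_insert, hM, mem_sdiff, mem_insert, not_or]
      constructor
      · rintro ⟨h1, h2⟩
        by_cases h : i = p
        · left; exact h
        · right; exact ⟨h1, h, h2⟩
      · rintro (rfl | ⟨h1, _, h2⟩)
        · exact ⟨hpP, hp⟩
        · exact ⟨h1, h2⟩
    have hcard : P.card = T'.card + 1 + M.card := by
      rw [hM, card_sdiff_of_subset hP, card_insert_of_notMem hp]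
      have h1 := card_le_card hP
      rw [card_insert_of_notMem hp] at h1
      omega
    set t := T'.card with ht
    set k := M.card with hk
    have e0 : P.card - 1 = t + k := by omega
    have e0' : P.card - (t + 1) = k := by omega
    rw [e0, e0']
    refine (cnt_HH T' p B hpP).trans ?_
    rw [hPM, sum_nes_insert' hpM]
    have b1 : ∀ ε ∈ nes M, cnt D (HH D T' p B) (P \ ε) ≤
        2 ^ t * (2 ^ (k - ε.card) * (s + 1).ascFactorial (k - ε.card)) := by
      intro ε hε
      obtain ⟨hεM, hεne⟩ := mem_nes.mp hε
      have hεP : ε ⊆ P := hεM.trans sdiff_subset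
      have hεk : ε.card ≤ k := card_le_card hεM
      have hε1 : 1 ≤ ε.card := card_pos.mpr (nonempty_iff_ne_empty.mpr hεne)
      have hc : (P \ ε).card = P.card - ε.card := card_sdiff_of_subset hεP
      have h2 := ih (P \ ε) (by omega) (by
        intro i hi
        rw [mem_sdiff]
        exact ⟨hP hi, fun h => (mem_sdiff.mp (hεM h)).2 hi⟩)
      rw [hc] at h2
      have e1 : P.card - ε.card - 1 = t + (k - ε.card) := by omega
      have e2 : P.card - ε.card - (t + 1) = k - ε.card := by omega
      rw [e1, e2, pow_add] at h2
      rw [← mul_assoc]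
      exact h2
    have b2 : ∀ ε ∈ M.powerset, cnt D (HH D T' p B) (P \ insert p ε) ≤
        2 ^ t * (2 ^ (k - ε.card) * s.ascFactorial (k - ε.card)) := by
      intro ε hε
      rw [mem_powerset] at hε
      have hpε : p ∉ ε := fun h => hpM (hε h)
      have hεP : insert p ε ⊆ P := insert_subset hpP (hε.trans sdiff_subset)
      have hεk : ε.card ≤ k := card_le_card hε
      have hc : (P \ insert p ε).card = P.card - (ε.card + 1) := by
        rw [card_sdiff_of_subset hεP, card_insert_of_notMem hpε]
      have h1 : cnt D (HH D T' p B) (P \ insert p ε) = cnt D B (P \ insert p ε) := by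
        apply cnt_congr
        intro x hx
        apply HH_none
        rw [← notMem_spt, hx, mem_sdiff, not_and, not_not]
        exact fun _ => mem_insert_self _ _
      have h2 := hB (P \ insert p ε) (by
        intro i hi
        rw [mem_sdiff, mem_insert, not_or]
        refine ⟨hTP hi, ?_, fun h => (mem_sdiff.mp (hε h)).2 (mem_insert_of_mem hi)⟩
        rintro rfl; exact hp hi)
      rw [h1]
      rw [hc] at h2
      have e1 : P.card - (ε.card + 1) = t + (k - ε.card) := by omega
      have e2 : P.card - (ε.card + 1) - t = k - ε.card := by omega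
      rw [e2, e1, pow_add] at h2
      rw [← mul_assoc]
      exact h2
    refine (Nat.add_le_add (sum_le_sum b1) (sum_le_sum b2)).trans ?_
    rw [← mul_sum, ← mul_sum, ← mul_add, pow_add, mul_assoc]
    apply Nat.mul_le_mul_left
    rw [sum_nes_sub M (fun i => 2 ^ i * (s + 1).ascFactorial i),
      sum_powerset_sub M (fun i => 2 ^ i * s.ascFactorial i)]
    exact hnum s k

/-- one more index whose group has more than two elements -/
theorem lam_insert (hfree : ∀ i, D.c i ≠ 1) (hβ : ∀ i, D.β i = 1) {T' : Finset ι} {p : ι} (hp : p ∉ T')
    {B : D.Pt → ZMod 2} (hB : Lam D T' 1 B) :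
    Lam D (insert p T') 1 (fun x => if x p = none then 0 else HH D T' p B x + HH D T' p B (D.act D.c x)) := by
  classical
  set H := HH D T' p B with hH
  have hrel := HH_rel hβ hp hB.isD hB.zero
  have hsup : ∀ x : D.Pt, D.Supp univ x := fun x i hi => absurd (mem_univ i) hi
  have hH0 : ∀ x : D.Pt, (∃ i ∈ T', x i = none) → H x = 0 := fun x hx =>
    HH_zero hB.zero _ x le_rfl hx
  set lam : D.Pt → ZMod 2 := fun x => if x p = none then 0 else H x + H (D.act D.c x) with hlam
  have hlam0 : ∀ x : D.Pt, x p = none → lam x = 0 := fun x hx => if_pos hx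
  have hlam1 : ∀ x : D.Pt, x p ≠ none → lam x = H x + H (D.act D.c x) := fun x hx => if_neg hx
  change Lam D (insert p T') 1 lam
  refine ⟨?_, ?_, ?_, ?_⟩
  · intro i _ x _ hx
    rw [hβ, Dat.act_one]
    have hc : ∑ u : D.G i, H (D.act D.c (Function.update x i (some u))) =
        ∑ u : D.G i, H (Function.update (D.act D.c x) i (some u)) := by
      refine Fintype.sum_equiv (Equiv.mulLeft (D.c i)) _ _ (fun u => ?_)
      rw [Dat.act_update_some]; rfl
    by_cases hip : i = p
    · subst hip
      rw [hlam0 x hx, hlam0 _ (Dat.act_eq_none.mpr hx), sub_self]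
      have e1 : ∀ u : D.G i, lam (Function.update x i (some u)) =
          H (Function.update x i (some u)) + H (D.act D.c (Function.update x i (some u))) :=
        fun u => hlam1 _ (by rw [Function.update_self]; simp)
      simp only [e1]
      rw [sum_add_distrib, hc, hrel _ x i le_rfl hx,
        hrel _ (D.act D.c x) i le_rfl (Dat.act_eq_none.mpr hx), if_pos rfl, if_pos rfl, hB.inv]
      exact add_self2 _
    · by_cases hxp : x p = none
      · rw [hlam0 x hxp, hlam0 _ (Dat.act_eq_none.mpr hxp), sub_self]
        apply sum_eq_zero
        intro u _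
        exact hlam0 _ (by rw [Function.update_of_ne (Ne.symm hip)]; exact hxp)
      · have e1 : ∀ u : D.G i, lam (Function.update x i (some u)) =
            H (Function.update x i (some u)) + H (D.act D.c (Function.update x i (some u))) :=
          fun u => hlam1 _ (by rw [Function.update_of_ne (Ne.symm hip)]; exact hxp)
        simp only [e1]
        rw [sum_add_distrib, hc, hrel _ x i le_rfl hx,
          hrel _ (D.act D.c x) i le_rfl (Dat.act_eq_none.mpr hx), if_neg hip, if_neg hip,
          hlam1 x hxp, hlam1 _ (fun h => hxp (Dat.act_eq_none.mp h)), sub_eq_add_neg,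
          ZModModule.neg_eq_self, Dat.act_act D.c (D.α i), mul_comm D.c (D.α i),
          ← Dat.act_act (D.α i) D.c]
        ring
  · intro x
    by_cases hxp : x p = none
    · rw [hlam0 x hxp, hlam0 _ (Dat.act_eq_none.mpr hxp)]
    · rw [hlam1 x hxp, hlam1 _ (fun h => hxp (Dat.act_eq_none.mp h)), Dat.act_c_c, add_comm]
  · rintro x ⟨i, hi, hxi⟩
    rcases mem_insert.mp hi with rfl | hi
    · exact hlam0 x hxi
    · by_cases hxp : x p = none
      · exact hlam0 x hxp
      · rw [hlam1 x hxp, hH0 x ⟨i, hi, hxi⟩, hH0 _ ⟨i, hi, Dat.act_eq_none.mpr hxi⟩, add_zero]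
  · intro x hx
    by_cases hxp : x p = none
    · rw [hlam0 x hxp, if_neg]
      intro h
      rcases h p (mem_insert_self _ _) with h | h <;> rw [hxp] at h <;> cases h
    · -- the value of `H`
      have hHv : ∀ y : D.Pt, D.Supp (insert p T') y → y p ≠ none →
          H y = if y p = some 1 then B (Function.update y p none) else 0 := by
        intro y hy hyp
        rw [hH, HH_some hyp]
        unfold stp
        have h1 : spt D y \ T' = insert p ∅ := by
          ext i
          rw [mem_sdiff, mem_spt2, mem_insert]
          constructor
          · rintro ⟨h1, h2⟩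
            left
            by_contra h3
            exact h1 (hy i (by rw [mem_insert, not_or]; exact ⟨h3, h2⟩))
          · rintro (rfl | h)
            · exact ⟨hyp, hp⟩
            · exact absurd h (notMem_empty i)
        have h2 : nes (∅ : Finset ι) = ∅ := by
          unfold nes; rw [powerset_empty, filter_singleton, if_neg (by simp)]
        rw [h1, sum_nes_insert (notMem_empty p), powerset_empty, sum_singleton, h2, sum_empty,
          zero_add, th_insert_self (notMem_empty p), th_empty, Dat.act_one]
        have h3 : One D (insert p ∅) y ↔ y p = some 1 := by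
          unfold One; simp
        have h4 : era D (insert p ∅) y = Function.update y p none := by
          funext i
          unfold era
          by_cases h : i = p
          · subst h; rw [if_pos (mem_insert_self _ _), Function.update_self]
          · rw [if_neg (by simp [h]), Function.update_of_ne h]
        simp only [h3]
        rw [h4, HH_none (Function.update_self ..)]
      have hBv : ∀ y : D.Pt, D.Supp (insert p T') y → B (Function.update y p none) =
          if ∀ i ∈ T', y i = some 1 ∨ y i = some (D.c i * 1) then 1 else 0 := by
        intro y hy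
        rw [hB.full _ hy.update_none]
        have : (∀ i ∈ T', (Function.update y p none) i = some ((1 : D.GG) i) ∨
            (Function.update y p none) i = some (D.c i * (1 : D.GG) i)) ↔
            ∀ i ∈ T', y i = some 1 ∨ y i = some (D.c i * 1) := by
          constructor
          · intro h i hi
            have := h i hi
            rwa [Function.update_of_ne (by rintro rfl; exact hp hi)] at this
          · intro h i hi
            rw [Function.update_of_ne (by rintro rfl; exact hp hi)]
            exact h i hi
        simp only [this]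
      have hcx : D.Supp (insert p T') (D.act D.c x) := hx.act _
      have hinv : B (Function.update (D.act D.c x) p none) = B (Function.update x p none) := by
        rw [← Dat.act_update_none, hB.inv]
      rw [hlam1 x hxp, hHv x hx hxp, hHv _ hcx (fun h => hxp (Dat.act_eq_none.mp h)), hinv,
        hBv x hx]
      obtain ⟨v, hv⟩ := Option.ne_none_iff_exists'.mp hxp
      have hv2 : D.act D.c x p = some (D.c p * v) := Dat.act_apply_some hv
      have key : D.c p * v = 1 ↔ v = D.c p * 1 := by
        constructor
        · intro h
          rw [← h, ← mul_assoc, D.hc p, one_mul]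
        · intro h
          rw [h, mul_one, D.hc p]
      have h1 : (D.act D.c x p = some 1) ↔ x p = some (D.c p * 1) := by
        rw [hv2, hv]
        constructor
        · intro h; rw [key.mp (Option.some_injective _ h)]
        · intro h; rw [key.mpr (Option.some_injective _ h)]
      simp only [h1]
      have hne : (some (1 : D.G p)) ≠ some (D.c p * 1) := by
        intro h
        have h2 := Option.some_injective _ h
        rw [mul_one] at h2
        exact hfree p h2.symm
      have hall : (∀ i ∈ insert p T', x i = some ((1 : D.GG) i) ∨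
          x i = some (D.c i * (1 : D.GG) i)) ↔
          ((x p = some 1 ∨ x p = some (D.c p * 1)) ∧
            ∀ i ∈ T', x i = some 1 ∨ x i = some (D.c i * 1)) := by
        constructor
        · intro h
          exact ⟨h p (mem_insert_self _ _), fun i hi => h i (mem_insert_of_mem hi)⟩
        · rintro ⟨h2, h3⟩ i hi
          rcases mem_insert.mp hi with rfl | hi
          · exact h2
          · exact h3 i hi
      by_cases h2 : x p = some 1
      · have h3 : ¬ x p = some (D.c p * 1) := fun h => hne (h2.symm.trans h)
        rw [if_pos h2, if_neg h3, add_zero]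
        simp only [hall, h2, true_or, true_and]
      · rw [if_neg h2, zero_add]
        by_cases h3 : x p = some (D.c p * 1)
        · rw [if_pos h3]
          simp only [hall, h3, or_true, true_and]
        · rw [if_neg h3, if_neg]
          intro h
          rcases (hall.mp h).1 with h | h
          · exact h2 h
          · exact h3 h

/-- the number of points for this function -/
theorem cnt_lam_insert {T' : Finset ι} {p : ι} {B : D.Pt → ZMod 2} {P : Finset ι} (hpP : p ∈ P) :
    cnt D (fun x => if x p = none then 0 else HH D T' p B x + HH D T' p B (D.act D.c x)) P ≤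
      2 * cnt D (HH D T' p B) P := by
  classical
  set H := HH D T' p B with hH
  set lam : D.Pt → ZMod 2 := fun x => if x p = none then 0 else H x + H (D.act D.c x) with hlam
  have hlam1 : ∀ x : D.Pt, x p ≠ none → lam x = H x + H (D.act D.c x) := fun x hx => if_neg hx
  change cnt D lam P ≤ 2 * cnt D H P
  have h3 : univ.filter (fun x : D.Pt => spt D x = P ∧ lam x ≠ 0) ⊆
      univ.filter (fun x : D.Pt => spt D x = P ∧ H x ≠ 0) ∪
      univ.filter (fun x : D.Pt => spt D x = P ∧ H (D.act D.c x) ≠ 0) := by
    intro x hx
    rw [mem_filter] at hx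
    obtain ⟨_, hxP, hx0⟩ := hx
    have hxp : x p ≠ none := by rw [← mem_spt2, hxP]; exact hpP
    rw [hlam1 x hxp] at hx0
    rw [mem_union, mem_filter, mem_filter]
    by_cases h4 : H x = 0
    · right
      rw [h4, zero_add] at hx0
      exact ⟨mem_univ _, hxP, hx0⟩
    · left
      exact ⟨mem_univ _, hxP, h4⟩
  have h5 : (univ.filter (fun x : D.Pt => spt D x = P ∧ H (D.act D.c x) ≠ 0)).card ≤
      cnt D H P := by
    refine card_le_card_of_injOn (fun x => D.act D.c x) ?_ ?_
    · intro x hx
      rw [mem_coe, mem_filter] at hx ⊢
      exact ⟨mem_univ _, by rw [spt_act2]; exact hx.2.1, hx.2.2⟩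
    · intro x _ y _ hxy
      have := congrArg (D.act D.c) hxy
      simp only [Dat.act_c_c] at this
      exact this
  calc cnt D lam P ≤ _ := card_le_card h3
    _ ≤ _ := card_union_le _ _
    _ ≤ cnt D H P + cnt D H P := Nat.add_le_add le_rfl h5
    _ = 2 * cnt D H P := by ring

lemma eq_one_or_c {p : ι} (hfree : D.c p ≠ 1) (hcard : Fintype.card (D.G p) ≤ 2) (v : D.G p) :
    v = 1 ∨ v = D.c p := by
  by_contra h
  rw [not_or] at h
  have h2 : 2 < Fintype.card (D.G p) :=
    Fintype.two_lt_card_iff.2 ⟨v, 1, D.c p, h.1, h.2, fun h3 => hfree h3.symm⟩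
  omega

lemma card_two {p : ι} (hfree : D.c p ≠ 1) (hcard : Fintype.card (D.G p) ≤ 2) :
    Fintype.card (D.G p) = 2 := by
  have h1 : 1 < Fintype.card (D.G p) := Fintype.one_lt_card_iff.2 ⟨D.c p, 1, hfree⟩
  omega

/-- one more index whose group has two elements -/
theorem lam_insert2 (hfree : ∀ i, D.c i ≠ 1) (hβ : ∀ i, D.β i = 1) {T' : Finset ι} {p : ι}
    (hp : p ∉ T') (hcard : Fintype.card (D.G p) ≤ 2) {B : D.Pt → ZMod 2} (hB : Lam D T' 1 B) :
    Lam D (insert p T') 1 (fun x => if x p = none then 0 else B (Function.update x p none)) := by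
  classical
  set lam : D.Pt → ZMod 2 := fun x => if x p = none then 0 else B (Function.update x p none) with hlam
  have hlam0 : ∀ x : D.Pt, x p = none → lam x = 0 := fun x hx => if_pos hx
  have hlam1 : ∀ x : D.Pt, x p ≠ none → lam x = B (Function.update x p none) := fun x hx => if_neg hx
  have hsup : ∀ x : D.Pt, D.Supp univ x := fun x i hi => absurd (mem_univ i) hi
  change Lam D (insert p T') 1 lam
  refine ⟨?_, ?_, ?_, ?_⟩
  · intro i _ x _ hx
    rw [hβ, Dat.act_one]
    by_cases hip : i = p
    · subst hip
      rw [hlam0 x hx, hlam0 _ (Dat.act_eq_none.mpr hx), sub_self]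
      have e1 : ∀ u : D.G i, lam (Function.update x i (some u)) = B (Function.update x i none) := by
        intro u
        rw [hlam1 _ (by rw [Function.update_self]; simp), Function.update_idem]
      simp only [e1]
      rw [sum_const, card_univ, card_two (hfree i) hcard, two_nsmul]
      exact add_self2 _
    · by_cases hxp : x p = none
      · rw [hlam0 x hxp, hlam0 _ (Dat.act_eq_none.mpr hxp), sub_self]
        apply sum_eq_zero
        intro u _
        exact hlam0 _ (by rw [Function.update_of_ne (Ne.symm hip)]; exact hxp)
      · have e1 : ∀ u : D.G i, lam (Function.update x i (some u)) =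
            B (Function.update (Function.update x p none) i (some u)) := by
          intro u
          rw [hlam1 _ (by rw [Function.update_of_ne (Ne.symm hip)]; exact hxp),
            Function.update_comm hip]
        simp only [e1]
        rw [hB.isD i (mem_univ i) _ (hsup _) (by rw [Function.update_of_ne hip]; exact hx), hβ,
          Dat.act_one, hlam1 x hxp, hlam1 _ (fun h => hxp (Dat.act_eq_none.mp h)),
          Dat.act_update_none]
  · intro x
    by_cases hxp : x p = none
    · rw [hlam0 x hxp, hlam0 _ (Dat.act_eq_none.mpr hxp)]
    · rw [hlam1 x hxp, hlam1 _ (fun h => hxp (Dat.act_eq_none.mp h)), ← Dat.act_update_none, hB.inv]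
  · rintro x ⟨i, hi, hxi⟩
    rcases mem_insert.mp hi with rfl | hi
    · exact hlam0 x hxi
    · by_cases hxp : x p = none
      · exact hlam0 x hxp
      · rw [hlam1 x hxp]
        have hne : i ≠ p := fun h => hp (h ▸ hi)
        refine hB.zero _ ⟨i, hi, ?_⟩
        rw [Function.update_of_ne hne]
        exact hxi
  · intro x hx
    by_cases hxp : x p = none
    · rw [hlam0 x hxp, if_neg]
      intro h
      rcases h p (mem_insert_self _ _) with h | h <;> rw [hxp] at h <;> cases h
    · rw [hlam1 x hxp, hB.full _ hx.update_none]
      obtain ⟨v, hv⟩ := Option.ne_none_iff_exists'.mp hxp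
      have hvv : x p = some ((1 : D.GG) p) ∨ x p = some (D.c p * (1 : D.GG) p) := by
        rw [hv, Pi.one_apply, mul_one]
        rcases eq_one_or_c (hfree p) hcard v with h | h
        · left; rw [h]
        · right; rw [h]
      have hall : (∀ i ∈ insert p T', x i = some ((1 : D.GG) i) ∨
          x i = some (D.c i * (1 : D.GG) i)) ↔
          ∀ i ∈ T', (Function.update x p none) i = some ((1 : D.GG) i) ∨
            (Function.update x p none) i = some (D.c i * (1 : D.GG) i) := by
        constructor
        · intro h i hi
          have hne : i ≠ p := fun h => hp (h ▸ hi)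
          rw [Function.update_of_ne hne]
          exact h i (mem_insert_of_mem hi)
        · intro h i hi
          rcases mem_insert.mp hi with rfl | hi
          · exact hvv
          · have hne : i ≠ p := fun h => hp (h ▸ hi)
            have h2 := h i hi
            rwa [Function.update_of_ne hne] at h2
      simp only [hall]

/-- the number of points for this function -/
theorem cnt_lam_insert2 {p : ι} (hcard : Fintype.card (D.G p) ≤ 2) {B : D.Pt → ZMod 2}
    {P : Finset ι} :
    cnt D (fun x => if x p = none then 0 else B (Function.update x p none)) P ≤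
      2 * cnt D B (P.erase p) := by
  classical
  unfold cnt
  refine card_le_mul_card_image_of_maps_to (f := fun x : D.Pt => Function.update x p none) ?_ 2 ?_
  · intro x hx
    obtain ⟨_, hxP, hx0⟩ := mem_filter.1 hx
    dsimp only at hx0
    have hxp : x p ≠ none := by
      intro h
      rw [if_pos h] at hx0
      exact hx0 rfl
    rw [if_neg hxp] at hx0
    refine mem_filter.2 ⟨mem_univ _, ?_, hx0⟩
    ext i
    rw [mem_spt2, mem_erase, ← hxP, mem_spt2]
    by_cases h : i = p
    · subst h
      rw [Function.update_self]
      simp
    · rw [Function.update_of_ne h]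
      simp [h]
  · intro y _
    refine le_trans (card_le_card_of_injOn (t := (univ : Finset (D.G p)))
      (fun x : D.Pt => (x p).getD 1) (fun _ _ => mem_coe.2 (mem_univ _)) ?_)
      ((card_univ (α := D.G p)).le.trans hcard)
    intro x hx z hz hxz
    obtain ⟨hx1, hx2⟩ := mem_filter.1 (mem_coe.1 hx)
    obtain ⟨hz1, hz2⟩ := mem_filter.1 (mem_coe.1 hz)
    have hxp : x p ≠ none := by
      intro h
      have h0 := (mem_filter.1 hx1).2.2
      dsimp only at h0
      rw [if_pos h] at h0
      exact h0 rfl
    have hzp : z p ≠ none := by
      intro h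
      have h0 := (mem_filter.1 hz1).2.2
      dsimp only at h0
      rw [if_pos h] at h0
      exact h0 rfl
    obtain ⟨u, hu⟩ := Option.ne_none_iff_exists'.mp hxp
    obtain ⟨w, hw⟩ := Option.ne_none_iff_exists'.mp hzp
    have huw : u = w := by
      have h1 : (x p).getD 1 = (z p).getD 1 := hxz
      rw [hu, hw] at h1
      exact h1
    funext i
    by_cases h : i = p
    · subst h
      rw [hu, hw, huw]
    · have h2 := congrFun (hx2.trans hz2.symm) i
      simp only [Function.update_of_ne h] at h2
      exact h2

/-- The distributions modulo 2. -/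
theorem exists_lam2 (hnum : NumIneq) (hfree : ∀ i, D.c i ≠ 1) (hβ : ∀ i, D.β i = 1) (T : Finset ι) :
    ∃ lam : D.Pt → ZMod 2, Lam D T 1 lam ∧
      ∀ P, T ⊆ P → cnt D lam P ≤ 2 ^ P.card * (big D T).ascFactorial (P.card - T.card) := by
  classical
  induction T using Finset.induction_on with
  | empty =>
    obtain ⟨lam, h1, h2⟩ := exists_lam hnum hfree hβ ∅
    refine ⟨lam, h1, fun P hP => ?_⟩
    have h3 : big D ∅ = (∅ : Finset ι).card := by
      unfold big
      rw [filter_empty]
    rw [h3]
    exact h2 P hP
  | insert p T' hp ih =>
    obtain ⟨B, hB, hBc⟩ := ih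
    by_cases hcard : 2 < Fintype.card (D.G p)
    · refine ⟨_, lam_insert hfree hβ hp hB, fun P hP => ?_⟩
      have hpP : p ∈ P := hP (mem_insert_self _ _)
      have h1 := cnt_HH_le2 hnum hp hBc _ P le_rfl hP
      have h2 := cnt_lam_insert (D := D) (T' := T') (B := B) hpP
      have hbig : big D (insert p T') = big D T' + 1 := by
        unfold big
        rw [filter_insert, if_pos hcard, card_insert_of_notMem (fun h => hp (mem_filter.1 h).1)]
      rw [card_insert_of_notMem hp, hbig]
      have h6 : 1 ≤ P.card := card_pos.mpr ⟨p, hpP⟩
      calc _ ≤ 2 * cnt D (HH D T' p B) P := h2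
        _ ≤ 2 * (2 ^ (P.card - 1) * (big D T' + 1).ascFactorial (P.card - (T'.card + 1))) :=
          Nat.mul_le_mul_left _ h1
        _ = 2 ^ (P.card - 1 + 1) * (big D T' + 1).ascFactorial (P.card - (T'.card + 1)) := by
          rw [pow_succ]; ring
        _ = _ := by rw [Nat.sub_add_cancel h6]
    · have hcard2 : Fintype.card (D.G p) ≤ 2 := by omega
      refine ⟨_, lam_insert2 hfree hβ hp hcard2 hB, fun P hP => ?_⟩
      have hpP : p ∈ P := hP (mem_insert_self _ _)
      have hT : T' ⊆ P.erase p := fun i hi =>
        mem_erase.2 ⟨by rintro rfl; exact hp hi, hP (mem_insert_of_mem hi)⟩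
      have h1 := hBc (P.erase p) hT
      have h2 := cnt_lam_insert2 (D := D) (p := p) hcard2 (B := B) (P := P)
      have hbig : big D (insert p T') = big D T' := by
        unfold big
        rw [filter_insert, if_neg hcard]
      have h6 : 1 ≤ P.card := card_pos.mpr ⟨p, hpP⟩
      rw [card_erase_of_mem hpP] at h1
      rw [card_insert_of_notMem hp, hbig]
      have h7 : P.card - 1 - T'.card = P.card - (T'.card + 1) := by omega
      rw [h7] at h1
      calc _ ≤ 2 * cnt D B (P.erase p) := h2
        _ ≤ 2 * (2 ^ (P.card - 1) * (big D T').ascFactorial (P.card - (T'.card + 1))) :=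
          Nat.mul_le_mul_left _ h1
        _ = 2 ^ (P.card - 1 + 1) * (big D T').ascFactorial (P.card - (T'.card + 1)) := by
          rw [pow_succ]; ring
        _ = _ := by rw [Nat.sub_add_cancel h6]

end Pool.Agent.LB
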