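import Pool.Agent.LB.EvDefs
import Pool.Agent.LB.LamEx
import Pool.Agent.LB.EvLamA

/-!
The distributions modulo 2 with a last index `o`, and their push forward (helper441, for helper992).
-/

set_option linter.unusedSectionVars false

namespace Pool.Agent.LB

open Finset Pool.Agent.N993 Pool.Agent.H916R2 Pool.Agent.N992

variable {ι : Type} [DecidableEq ι] [Fintype ι] {D : Dat ι}

/-- the step at a point with a coordinate at `o` -/
lemma stp_update {T' : Finset ι} {p i : ι} {F : D.Pt → ZMod 2} {y : D.Pt}
    (hy : y i = none) (hi : i ∉ T') (u : D.G i) :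
    stp D T' p F (Function.update y i (some u)) =
      (∑ ε ∈ nes (spt D y \ T'), if One D ε y then
        F (Function.update (D.act (th D p ε) (era D ε y)) i (some (th D p ε i * u))) else 0) +
      ∑ ε ∈ (spt D y \ T').powerset, if u = 1 ∧ One D ε y then
        F (D.act (th D p (insert i ε)) (era D ε y)) else 0 := by
  have hiy : i ∉ spt D y := notMem_spt.mpr hy
  have hiM : i ∉ spt D y \ T' := fun h => hiy (mem_sdiff.mp h).1
  unfold stp
  rw [spt_update, insert_sdiff_of_notMem _ hi, sum_nes_insert hiM]
  congr 1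
  · refine sum_congr rfl fun ε hε => ?_
    have hiε : i ∉ ε := fun h => hiM ((mem_nes.mp hε).1 h)
    rw [era_update hiε, Dat.act_update_some]
    simp only [one_update_of_notMem hiε]
  · refine sum_congr rfl fun ε hε => ?_
    rw [mem_powerset] at hε
    have hiε : i ∉ ε := fun h => hiM (hε h)
    rw [era_insert_update hy]
    simp only [one_insert_update hiε]

/-- the push forward of the half distribution -/
theorem push_HH {T' : Finset ι} {o : ι} (ho : o ∉ T') {B : D.Pt → ZMod 2}
    (K : Subgroup (D.G o)) [DecidablePred (· ∈ K)] (hα : ∀ i, D.α i o ∈ K) :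
    ∀ (n : ℕ) (y : D.Pt), (spt D y).card ≤ n → y o = none → ∀ h : D.G o,
      ∑ u : D.G o, (if h⁻¹ * u ∈ K then HH D T' o B (Function.update y o (some u)) else 0) =
        if h ∈ K then B y else 0 := by
  have hth : ∀ ε : Finset ι, th D o ε o ∈ K := by
    intro ε
    unfold th
    rw [Finset.prod_apply]
    exact K.prod_mem fun i _ => hα i
  intro n
  induction n with
  | zero =>
    intro y h0 hy h
    have h1 : spt D y = ∅ := card_eq_zero.mp (Nat.le_zero.mp h0)
    have e1 : ∀ u : D.G o, HH D T' o B (Function.update y o (some u)) =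
        if u = 1 then B y else 0 := by
      intro u
      rw [HH_some (by rw [Function.update_self]; simp), stp_update hy ho, h1, empty_sdiff,
        powerset_empty, sum_singleton]
      have h2 : nes (∅ : Finset ι) = ∅ := by
        unfold nes; rw [powerset_empty, filter_singleton, if_neg (by simp)]
      rw [h2, sum_empty, zero_add, th_insert_self (notMem_empty o), th_empty, Dat.act_one,
        era_empty, HH_none hy]
      simp only [one_empty y, and_true]
    simp only [e1]
    rw [sum_eq_single (1 : D.G o)]
    · rw [if_pos rfl, mul_one]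
      simp only [K.inv_mem_iff]
    · intro u _ hu
      rw [if_neg hu]
      split_ifs <;> rfl
    · intro h3
      exact absurd (mem_univ _) h3
  | succ n ih =>
    intro y hn hy h
    have e1 : ∀ u : D.G o, (if h⁻¹ * u ∈ K then
        HH D T' o B (Function.update y o (some u)) else 0) =
        (∑ ε ∈ nes (spt D y \ T'), if One D ε y then (if h⁻¹ * u ∈ K then
          HH D T' o B (Function.update (D.act (th D o ε) (era D ε y)) o
            (some (th D o ε o * u))) else 0) else 0) +
        ∑ ε ∈ (spt D y \ T').powerset, if One D ε y then (if u = 1 then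
          (if h ∈ K then B (D.act (th D o ε) (era D ε y)) else 0) else 0) else 0 := by
      intro u
      rw [HH_some (by rw [Function.update_self]; simp), stp_update hy ho]
      have e2 : ∀ ε ∈ (spt D y \ T').powerset, (if u = 1 ∧ One D ε y then
          HH D T' o B (D.act (th D o (insert o ε)) (era D ε y)) else 0) =
          if u = 1 ∧ One D ε y then B (D.act (th D o ε) (era D ε y)) else 0 := by
        intro ε hε
        rw [mem_powerset] at hε
        have hiε : o ∉ ε := fun h => (notMem_spt.mpr hy) (mem_sdiff.mp (hε h)).1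
        rw [th_insert_self hiε, HH_none (Dat.act_eq_none.mpr (era_eq_none hy))]
      rw [sum_congr rfl e2]
      by_cases hu : h⁻¹ * u ∈ K
      · simp only [if_pos hu]
        congr 1
        refine sum_congr rfl fun ε _ => ?_
        by_cases h1 : One D ε y
        · by_cases h2 : u = 1
          · subst h2
            rw [mul_one, K.inv_mem_iff] at hu
            rw [if_pos ⟨rfl, h1⟩, if_pos h1, if_pos rfl, if_pos hu]
          · rw [if_neg (fun h3 => h2 h3.1), if_pos h1, if_neg h2]
        · rw [if_neg (fun h3 => h1 h3.2), if_neg h1]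
      · simp only [if_neg hu, ite_self, sum_const_zero, zero_add]
        symm
        apply sum_eq_zero
        intro ε _
        by_cases h2 : u = 1
        · subst h2
          rw [mul_one, K.inv_mem_iff] at hu
          simp only [if_neg hu, ite_self]
        · simp only [if_neg h2, ite_self]
    simp only [e1]
    rw [sum_add_distrib, sum_comm, sum_comm (s := univ) (t := (spt D y \ T').powerset)]
    have e3 : ∀ ε ∈ nes (spt D y \ T'), (∑ u : D.G o, if One D ε y then (if h⁻¹ * u ∈ K then
          HH D T' o B (Function.update (D.act (th D o ε) (era D ε y)) o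
            (some (th D o ε o * u))) else 0) else 0) =
        if One D ε y then (if h ∈ K then B (D.act (th D o ε) (era D ε y)) else 0) else 0 := by
      intro ε hε
      by_cases h1 : One D ε y
      · simp only [if_pos h1]
        have hlt := card_lt_of_nes (p := o) hε
        rw [← ih (D.act (th D o ε) (era D ε y)) (by omega)
          (Dat.act_eq_none.mpr (era_eq_none hy)) h]
        refine Fintype.sum_equiv (Equiv.mulLeft (th D o ε o)) _ _ (fun u => ?_)
        have h4 : h⁻¹ * (th D o ε o * u) ∈ K ↔ h⁻¹ * u ∈ K := by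
          rw [mul_left_comm]
          exact K.mul_mem_cancel_left (hth ε)
        simp only [Equiv.coe_mulLeft, h4]
      · simp only [if_neg h1, sum_const_zero]
    have e4 : ∀ ε ∈ (spt D y \ T').powerset, (∑ u : D.G o, if One D ε y then (if u = 1 then
          (if h ∈ K then B (D.act (th D o ε) (era D ε y)) else 0) else 0) else 0) =
        if One D ε y then (if h ∈ K then B (D.act (th D o ε) (era D ε y)) else 0) else 0 := by
      intro ε _
      by_cases h1 : One D ε y
      · simp only [if_pos h1]
        rw [sum_ite_eq' univ (1 : D.G o), if_pos (mem_univ _)]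
      · simp only [if_neg h1, sum_const_zero]
    rw [sum_congr rfl e3, sum_congr rfl e4, sum_powerset_nes, th_empty, Dat.act_one, era_empty,
      if_pos (one_empty y)]
    have := add_self2 (∑ ε ∈ nes (spt D y \ T'), if One D ε y then
      (if h ∈ K then B (D.act (th D o ε) (era D ε y)) else 0) else 0)
    linear_combination this

/-- the count of the symmetrised half distribution -/
lemma cnt_lam_le {T' : Finset ι} {p : ι} {B : D.Pt → ZMod 2} {P : Finset ι} (hpP : p ∈ P) :
    cnt D (fun x => if x p = none then 0 else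
      HH D T' p B x + HH D T' p B (D.act D.c x)) P ≤ 2 * cnt D (HH D T' p B) P := by
  classical
  obtain ⟨H, hH⟩ : ∃ H, H = HH D T' p B := ⟨_, rfl⟩
  obtain ⟨lam, hlam⟩ : ∃ lam : D.Pt → ZMod 2, lam = fun x => if x p = none then 0 else
    H x + H (D.act D.c x) := ⟨_, rfl⟩
  have hlam1 : ∀ x : D.Pt, x p ≠ none → lam x = H x + H (D.act D.c x) := fun x hx => by
    rw [hlam]
    exact if_neg hx
  rw [← hH, ← hlam]
  have h3 : univ.filter (fun x : D.Pt => spt D x = P ∧ lam x ≠ 0) ⊆
      univ.filter (fun x : D.Pt => spt D x = P ∧ H x ≠ 0) ∪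
      univ.filter (fun x : D.Pt => spt D x = P ∧ H (D.act D.c x) ≠ 0) := by
    intro x hx
    rw [mem_filter] at hx
    obtain ⟨_, hxP, hx0⟩ := hx
    have hxp : x p ≠ none := by rw [← mem_spt2, hxP]; exact hpP
    rw [hlam1 x hxp] at hx0
    rw [mem_union, mem_filter, mem_filter]
    by_cases h4 : H x = 0
    · right
      rw [h4, zero_add] at hx0
      exact ⟨mem_univ _, hxP, hx0⟩
    · left
      exact ⟨mem_univ _, hxP, h4⟩
  have h5 : (univ.filter (fun x : D.Pt => spt D x = P ∧ H (D.act D.c x) ≠ 0)).card ≤
      cnt D H P := by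
    refine card_le_card_of_injOn (fun x => D.act D.c x) ?_ ?_
    · intro x hx
      rw [mem_coe, mem_filter] at hx ⊢
      exact ⟨mem_univ _, by rw [spt_act2]; exact hx.2.1, hx.2.2⟩
    · intro x _ y _ hxy
      have := congrArg (D.act D.c) hxy
      simp only [Dat.act_c_c] at this
      exact this
  calc cnt D lam P ≤ _ := card_le_card h3
    _ ≤ _ := card_union_le _ _
    _ ≤ cnt D H P + cnt D H P := Nat.add_le_add le_rfl h5
    _ = 2 * cnt D H P := by ring

theorem exists_lam3_aux (hnum : NumIneq) (hfree : ∀ i, D.c i ≠ 1) (hβ : ∀ i, D.β i = 1)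
    (T' : Finset ι) {o : ι} (ho : o ∉ T') (K : Subgroup (D.G o)) [DecidablePred (· ∈ K)]
    (hK : ∀ u, u ∈ K ∨ D.c o * u ∈ K) (hcK : D.c o ∉ K) (hα : ∀ i, D.α i o ∈ K) :
    ∃ lam B : D.Pt → ZMod 2, Lam D (insert o T') 1 lam ∧ Lam D T' 1 B ∧
      (∀ P, insert o T' ⊆ P → cnt D lam P ≤
        2 ^ P.card * (big D T' + 1).ascFactorial (P.card - (T'.card + 1))) ∧
      (∀ P, T' ⊆ P → cnt D B P ≤ 2 ^ P.card * (big D T').ascFactorial (P.card - T'.card)) ∧
      ∀ x : D.Pt, x o = none → ∀ h : D.G o,
        ∑ u : D.G o, (if h⁻¹ * u ∈ K then lam (Function.update x o (some u)) else 0) = B x := by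
  obtain ⟨B, hB, hBc⟩ := exists_lam2 hnum hfree hβ T'
  refine ⟨fun x => if x o = none then 0 else HH D T' o B x + HH D T' o B (D.act D.c x), B,
    lam_insert hfree hβ ho hB, hB, ?_, hBc, ?_⟩
  · intro P hP
    have hpP : o ∈ P := hP (mem_insert_self _ _)
    have h1 := cnt_HH_le2 hnum ho hBc _ P le_rfl hP
    have h6 : 1 ≤ P.card := card_pos.mpr ⟨o, hpP⟩
    calc _ ≤ 2 * cnt D (HH D T' o B) P := cnt_lam_le hpP
      _ ≤ 2 * (2 ^ (P.card - 1) * (big D T' + 1).ascFactorial (P.card - (T'.card + 1))) :=
        Nat.mul_le_mul_left _ h1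
      _ = 2 ^ (P.card - 1 + 1) * (big D T' + 1).ascFactorial (P.card - (T'.card + 1)) := by
        rw [pow_succ]; ring
      _ = _ := by rw [Nat.sub_add_cancel h6]
  · intro x hx h
    have e1 : ∀ u : D.G o, (if h⁻¹ * u ∈ K then
        (if (Function.update x o (some u) : D.Pt) o = none then 0 else
          HH D T' o B (Function.update x o (some u)) +
            HH D T' o B (D.act D.c (Function.update x o (some u)))) else 0) =
        (if h⁻¹ * u ∈ K then HH D T' o B (Function.update x o (some u)) else 0) +
        (if h⁻¹ * u ∈ K then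
          HH D T' o B (Function.update (D.act D.c x) o (some (D.c o * u))) else 0) := by
      intro u
      rw [if_neg (show ¬ (Function.update x o (some u) : D.Pt) o = none by
        rw [Function.update_self]; simp), Dat.act_update_some]
      split_ifs
      · rfl
      · rw [add_zero]
    have e2 : ∑ u : D.G o, (if h⁻¹ * u ∈ K then
          HH D T' o B (Function.update (D.act D.c x) o (some (D.c o * u))) else 0) =
        ∑ u : D.G o, (if (D.c o * h)⁻¹ * u ∈ K then
          HH D T' o B (Function.update (D.act D.c x) o (some u)) else 0) := by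
      refine Fintype.sum_equiv (Equiv.mulLeft (D.c o)) _ _ (fun u => ?_)
      have h4 : (D.c o * h)⁻¹ * (D.c o * u) = h⁻¹ * u := by
        rw [mul_inv, mul_comm (D.c o)⁻¹, mul_assoc, inv_mul_cancel_left]
      simp only [Equiv.coe_mulLeft, h4]
    simp only [e1]
    rw [sum_add_distrib, e2, push_HH ho K hα _ x le_rfl hx h,
      push_HH ho K hα _ (D.act D.c x) le_rfl (Dat.act_eq_none.mpr hx) (D.c o * h), hB.inv]
    have hnot : ¬ (h ∈ K ∧ D.c o * h ∈ K) := by
      rintro ⟨h1, h2⟩
      exact hcK ((K.mul_mem_cancel_right h1).1 h2)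
    rcases hK h with h1 | h1
    · rw [if_pos h1, if_neg (fun h2 => hnot ⟨h1, h2⟩), add_zero]
    · rw [if_neg (fun h2 => hnot ⟨h2, h1⟩), if_pos h1, zero_add]

/-- the data with the multipliers changed by `c` so that they are in `K` at the index `o` -/
@[reducible] def twD (D : Dat ι) (o : ι) (K : Subgroup (D.G o)) [DecidablePred (· ∈ K)] :
    Dat ι where
  G := D.G
  grp := D.grp
  fin := D.fin
  deq := D.deq
  α i := if D.α i o ∈ K then D.α i else D.c * D.α i
  β := D.β
  c := D.c
  hc := D.hc

lemma lam_tw {o : ι} {K : Subgroup (D.G o)} [DecidablePred (· ∈ K)]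
    {T : Finset ι} {lam : D.Pt → ZMod 2} (h : Lam (twD D o K) T 1 lam) : Lam D T 1 lam where
  isD := by
    intro i hi x hx h0
    have h1 : ∑ u : D.G i, lam (Function.update x i (some u)) =
        lam (D.act (if D.α i o ∈ K then D.α i else D.c * D.α i) x) - lam (D.act (D.β i) x) :=
      h.isD i hi x hx h0
    rw [h1]
    split_ifs with h2
    · rfl
    · rw [← Dat.act_act]
      have h3 : ∀ y : D.Pt, lam (D.act D.c y) = lam y := h.inv
      rw [h3]
  inv := h.inv
  zero := h.zero
  full := h.full

theorem exists_lam3 (hnum : NumIneq) (hfree : ∀ i, D.c i ≠ 1) (hβ : ∀ i, D.β i = 1)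
    (T' : Finset ι) {o : ι} (ho : o ∉ T') (K : Subgroup (D.G o)) [DecidablePred (· ∈ K)]
    (hK : ∀ u, u ∈ K ∨ D.c o * u ∈ K) (hcK : D.c o ∉ K) :
    ∃ lam B : D.Pt → ZMod 2, Lam D (insert o T') 1 lam ∧ Lam D T' 1 B ∧
      (∀ P, insert o T' ⊆ P → cnt D lam P ≤
        2 ^ P.card * (big D T' + 1).ascFactorial (P.card - (T'.card + 1))) ∧
      (∀ P, T' ⊆ P → cnt D B P ≤ 2 ^ P.card * (big D T').ascFactorial (P.card - T'.card)) ∧
      ∀ x : D.Pt, x o = none → ∀ h : D.G o,
        ∑ u : D.G o, (if h⁻¹ * u ∈ K then lam (Function.update x o (some u)) else 0) = B x := by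
  have hα : ∀ i, (twD D o K).α i o ∈ K := by
    intro i
    show (if D.α i o ∈ K then D.α i else D.c * D.α i) o ∈ K
    split_ifs with h
    · exact h
    · exact (hK _).resolve_left h
  obtain ⟨lam, B, h1, h2, h3, h4, h5⟩ := exists_lam3_aux (D := twD D o K) hnum hfree hβ T' ho K
    hK hcK hα
  exact ⟨lam, B, lam_tw h1, lam_tw h2, h3, h4, h5⟩

end Pool.Agent.LB
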