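import Pool.Agent.LB.EvMain
import Pool.Agent.LB.W4

/-!
All Hodge characters with at most eight entries.
-/

set_option linter.unusedSectionVars false

namespace Pool.Agent.LB

open Finset Pool.Agent.N993 Pool.Agent.H916R2 Pool.Agent.N992

lemma mod_four_iff {d : ℕ} (hd : d ≠ 0) : d % 4 = 2 ↔ padicValNat 2 d = 1 := by
  have hf : Fact (Nat.Prime 2) := ⟨Nat.prime_two⟩
  have h1 := padicValNat_dvd_iff_le (p := 2) hd (n := 1)
  have h2 := padicValNat_dvd_iff_le (p := 2) hd (n := 2)
  norm_num at h1 h2
  constructor
  · intro h
    have h3 : 1 ≤ padicValNat 2 d := h1.mp (by omega)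
    have h4 : ¬ 2 ≤ padicValNat 2 d := fun h5 => by
      have := h2.mpr h5; omega
    omega
  · intro h
    have h3 : 2 ∣ d := h1.mpr (by omega)
    have h4 : ¬ 4 ∣ d := fun h5 => by
      have := h2.mp h5; omega
    omega

lemma sum_ite_card {α : Type} (s : Multiset α) (p : α → Prop) [DecidablePred p] :
    (s.map (fun a => if p a then 1 else 0)).sum = Multiset.card (s.filter p) := by
  induction s using Multiset.induction_on with
  | empty => simp
  | cons a s ih =>
    rw [Multiset.map_cons, Multiset.sum_cons, ih]
    by_cases h : p a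
    · rw [if_pos h, Multiset.filter_cons_of_pos _ h, Multiset.card_cons, add_comm]
    · rw [if_neg h, Multiset.filter_cons_of_neg _ h, zero_add]

lemma lev_zero {d : ℕ} (h : d % 2 = 1) : lev2 d = 0 := by
  unfold lev2
  rw [padicValNat.eq_zero_of_not_dvd (by omega)]
  rfl

lemma lev_one {d : ℕ} (h : padicValNat 2 d = 1) : lev2 d = 1 := by
  unfold lev2
  rw [h]
  rfl

section

variable {m : ℕ} [NeZero m] {S : Finset ℕ} [hnz : ∀ i : Ix S, NeZero (nn S i)]
  {k0 m0 : ℕ} [NeZero m0]

lemma bd_zero {γ : Type} [Fintype γ] {F : γ → ZMod m → ZMod 2} {a : ZMod m} {T P : Finset ℕ} {j C : ℕ}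
    (h : 2 * (bd F a * hh P) ≤ prb T P j * C) (hp : prb T P j = 0) (hP : 0 < hh P) : bd F a = 0 := by
  rw [hp, zero_mul] at h
  have h5 : bd F a * hh P = 0 := by omega
  rcases mul_eq_zero.mp h5 with h6 | h6
  · exact h6
  · omega

/-- Step 2: the number of entries of odd order with the only prime factor 29 is even. -/
theorem even29 (h8 : 8 ∣ m) (hS : S = insert 4 (m.primeFactors.erase 2))
    (hm0 : ∏ i, nn S i = m0) (hk : k0 * m0 = m) (E : (∀ i, ZMod (nn S i)) ≃+* ZMod m0)
    (hP : ∀ p, p.Prime → p ∣ m → p ≤ 31) {s : Multiset (ZMod m)} (hs : Multiset.card s = 8)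
    (hrel : Rel (fun a : ZMod m => ((s.count a : ℕ) : ℤ))) (hsum : s.sum = 0)
    (hSx : ∀ x ∈ S, (x.Prime ∧ x % 2 = 1) ∨ x = 4) (hred : Red m m0 k0)
    (hw : 29 ∣ m → 14 ≤ newW 29 s) : (s.map (phiO {29} m)).sum = 0 := by
  classical
  by_contra hcon
  have hx : ∃ x0 ∈ s, phiO {29} m x0 ≠ 0 := by
    by_contra hno
    push Not at hno
    apply hcon
    apply Multiset.sum_eq_zero
    intro x hx
    obtain ⟨a, ha, rfl⟩ := Multiset.mem_map.mp hx
    exact hno a ha
  obtain ⟨x0, hx0, hphi⟩ := hx
  have hx1 : addOrderOf x0 % 2 = 1 ∧ (addOrderOf x0).primeFactors = {29} := by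
    by_contra hno
    apply hphi
    unfold phiO
    rw [if_neg hno]
  have h29 : 29 ∣ m := by
    have h1 : 29 ∈ (addOrderOf x0).primeFactors := by rw [hx1.2]; exact mem_singleton_self _
    exact (Nat.dvd_of_mem_primeFactors h1).trans (order_dvd x0)
  have hw' := hw h29
  -- the number of entries of level one
  have h6 : 6 ≤ Multiset.card (s.filter (fun a => padicValNat 2 (addOrderOf a) = 1)) := by
    have h1 : newW 29 s ≤ (s.map (fun a => (if padicValNat 2 (addOrderOf a) = 1 then 1 else 0) + 1)).sum := by
      unfold newW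
      apply Multiset.sum_map_le_sum_map
      intro a _
      by_cases h2 : 29 ∣ a.val
      · rw [if_pos h2]; exact Nat.zero_le _
      · rw [if_neg h2]
        unfold w2
        by_cases h3 : padicValNat 2 (addOrderOf a) = 1
        · rw [if_pos h3]
          split_ifs <;> norm_num
        · rw [if_neg h3, if_neg]
          rw [mod_four_iff (addOrderOf_pos a).ne']
          exact h3
    rw [Multiset.sum_map_add, Multiset.map_const', Multiset.sum_replicate, smul_eq_mul, mul_one,
      hs] at h1
    have h2 : (s.map (fun a => if padicValNat 2 (addOrderOf a) = 1 then 1 else 0)).sum =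
        Multiset.card (s.filter (fun a => padicValNat 2 (addOrderOf a) = 1)) :=
      sum_ite_card s _
    omega
  obtain ⟨y0, t, hst, hy0, ht⟩ := two_part (dvd_trans (by norm_num) h8) hs hsum hx0 hx1.1 h6
  have hct : Multiset.card t = 6 := by
    rw [hst, Multiset.card_cons, Multiset.card_cons] at hs
    omega
  have e1 : (fun x : (cyc (nn S)).Pt => half (phiO {29} m (iota k0 (E (emb x))))) =
      fun x => half (phiO {29} m0 (E (emb x))) := by
    funext x; rw [phiO_iota {29} hk]
  have hSP : S ⊆ insert 4 P31 := by
    rw [hS]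
    exact insert_subset_insert _ (opf_sub dvd_rfl hP)
  have hpf : ∀ a ∈ s, (addOrderOf a % 2 = 1 ∨ padicValNat 2 (addOrderOf a) = 1) := by
    intro a ha
    rw [hst, Multiset.mem_cons, Multiset.mem_cons] at ha
    rcases ha with rfl | rfl | ha
    · exact Or.inl hx1.1
    · exact Or.inl hy0
    · exact Or.inr (ht a ha)
  have hzero : (s.map (fun a => half (phiO {29} m a))).sum = 0 := by
    refine sum_zero_of_fam hSx hm0 hk hred E hrel
      (oddDist_half_phiO (A := {29}) (singleton_nonempty _)) ?_
    intro T he hne hz
    rw [e1] at hz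
    have hmem29 : 29 ∈ nat' T := by
      by_contra hno
      apply hz
      apply Zr.zero
      intro x hx
      rw [phiO_eq_cls (by decide), cls_supp hm0 E (p := 29) (by norm_num) (mem_singleton_self _) ?_ hx,
        map_zero]
      intro i hi hd
      apply hno
      have h1 : (i : ℕ) ∈ S := i.2
      have h2 : 29 ∣ (i : ℕ) := hd
      rcases hSx i h1 with h3 | h3
      · have h4 : 29 = (i : ℕ) := (Nat.prime_dvd_prime_iff_eq (by norm_num) h3.1).mp h2
        unfold nat'
        rw [mem_map]
        exact ⟨i, hi, h4.symm⟩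
      · rw [h3] at h2
        norm_num at h2
    by_cases h4 : 4 ≤ T.card
    · refine ex_big h8 hS hm0 hk E hP hs.le he h4 ?_
      intro h5
      rw [h5] at hmem29
      revert hmem29
      decide
    · have h2 : T.card = 2 := by
        have h5 : 0 < T.card := card_pos.mpr hne
        obtain ⟨r, hr⟩ := he
        omega
      obtain ⟨γ, hγ, hγn, F, hF1, hF2, hF3⟩ := exists_fam h8 hS hm0 hk E hne
      have hF3' : ∀ a : ZMod m, 2 * (bd F a * hh (opf (addOrderOf a))) ≤
          prb (nat' T) (opf (addOrderOf a)) (lev2 (addOrderOf a)) * Fintype.card γ := hF3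
      have hC : 0 < Fintype.card γ := Fintype.card_pos
      obtain ⟨g, hg⟩ : ∃ g, ∀ a ∈ s, F g a = 0 := by
        by_cases h44 : 4 ∈ nat' T
        · -- the pair {4, 29}
          have hT : ∀ a : ZMod m, ¬ nat' T ⊆ opf (addOrderOf a) := by
            intro a h
            have h5 := h h44
            unfold opf at h5
            exact absurd (Nat.prime_of_mem_primeFactors (mem_of_mem_erase h5)) (by norm_num)
          refine fam_avoid_w F s (c := 1) one_pos (fun _ => 0) ?_ ?_
          · intro a ha
            have h5 : bd F a = 0 := by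
              refine bd_zero (hF3' a) ?_ (hh_opf_pos _)
              rcases hpf a ha with h6 | h6
              · rw [lev_zero h6]; exact prb_zero (hT a)
              · rw [lev_one h6]; exact prb_one (hT a)
            rw [h5]
            simp
          · simp [hC]
        · -- two odd primes
          have hTP : nat' T ⊆ P31 := by
            intro x hx
            have h5 := hSP (nat'_sub T hx)
            rw [mem_insert] at h5
            rcases h5 with h5 | h5
            · rw [h5] at hx; exact absurd hx h44
            · exact h5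
          have hnum : ∀ a : ZMod m, 13 * prb (nat' T) (opf (addOrderOf a)) 0 <
              2 * hh (opf (addOrderOf a)) ∧ 13 * prb (nat' T) (opf (addOrderOf a)) 1 <
              4 * hh (opf (addOrderOf a)) := fun a =>
            prb_29 hTP (opf_sub (order_dvd a) hP) (by rw [nat'_card]; exact h2) hmem29
          have htlt : ∀ a ∈ t, 13 * bd F a < 2 * Fintype.card γ := by
            intro a ha
            have h5 := hF3' a
            rw [lev_one (ht a ha)] at h5
            refine bd_lt h5 ?_ hC
            have := (hnum a).2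
            omega
          have htx : ∀ a ∈ t, a ≠ x0 := by
            rintro a ha rfl
            have h5 := ht a ha
            rw [padicValNat.eq_zero_of_not_dvd (by have := hx1.1; omega)] at h5
            omega
          have hto : ∀ a ∈ t, ¬ addOrderOf a % 2 = 1 := by
            intro a ha h6
            have h5 := ht a ha
            rw [padicValNat.eq_zero_of_not_dvd (by omega)] at h5
            omega
          refine fam_avoid_w' F s (c := 13) (by norm_num)
            (fun a => if a = x0 then 0 else if addOrderOf a % 2 = 1 then 1 else 2) ?_ ?_ ?_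
          · intro a ha
            by_cases hax : a = x0
            · subst hax
              rw [if_pos rfl, zero_mul]
              have h5 : bd F a = 0 := by
                refine bd_zero (hF3' a) ?_ (hh_opf_pos _)
                rw [lev_zero hx1.1]
                apply prb_zero
                intro h6
                have h7 : opf (addOrderOf a) ⊆ {29} := by
                  unfold opf
                  rw [hx1.2]
                  exact erase_subset _ _
                have h8 := card_le_card (h6.trans h7)
                rw [nat'_card, h2, card_singleton] at h8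
                omega
              rw [h5, mul_zero]
            · rw [if_neg hax]
              by_cases hao : addOrderOf a % 2 = 1
              · rw [if_pos hao]
                have h5 := hF3' a
                rw [lev_zero hao] at h5
                refine bd_le h5 ?_ (hh_opf_pos _)
                have := (hnum a).1
                omega
              · rw [if_neg hao]
                have h5 := hF3' a
                rw [lev_one ((hpf a ha).resolve_left hao)] at h5
                refine bd_le h5 ?_ (hh_opf_pos _)
                have := (hnum a).2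
                omega
          · obtain ⟨a, ha⟩ : ∃ a, a ∈ t := Multiset.card_pos_iff_exists_mem.mp (by omega)
            refine ⟨a, by rw [hst]; exact Multiset.mem_cons_of_mem (Multiset.mem_cons_of_mem ha), ?_⟩
            rw [if_neg (htx a ha), if_neg (hto a ha)]
            exact htlt a ha
          · rw [hst, Multiset.map_cons, Multiset.map_cons, Multiset.sum_cons, Multiset.sum_cons,
              if_pos rfl]
            have h5 : (t.map (fun a => if a = x0 then 0 else if addOrderOf a % 2 = 1 then 1 else 2)).sum ≤
                (t.map (fun _ => 2)).sum := by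
              apply Multiset.sum_map_le_sum_map
              intro a _
              split_ifs <;> norm_num
            rw [Multiset.map_const', Multiset.sum_replicate, smul_eq_mul, hct] at h5
            have h6 : (if y0 = x0 then 0 else if addOrderOf y0 % 2 = 1 then 1 else 2) ≤ 1 := by
              rw [if_pos hy0]
              split_ifs <;> norm_num
            omega
      exact ⟨F g, hF1 g, hF2 g, sum_zero_of_avoid hg⟩
  have h1 : (s.map (fun a => half (phiO {29} m a))).sum = half ((s.map (phiO {29} m)).sum) := by
    rw [map_multiset_sum, Multiset.map_map]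
    rfl
  rw [h1] at hzero
  exact half_ne_zero hcon hzero

end

/-- The kill statement for the large degrees. -/
theorem large (hmod : ModEven29) : Large := by
  classical
  intro m _ s h8 hP hw hcard hs
  have hm : m ≠ 0 := NeZero.ne m
  obtain ⟨S, hS⟩ : ∃ S : Finset ℕ, S = insert 4 (m.primeFactors.erase 2) := ⟨_, rfl⟩
  have hmem : ∀ x ∈ S, x ≠ 4 → x.Prime ∧ x % 2 = 1 ∧ x ∣ m := by
    intro x hx hi
    rw [hS, mem_insert] at hx
    have h2 := hx.resolve_left hi
    rw [mem_erase] at h2
    have h3 := Nat.prime_of_mem_primeFactors h2.2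
    exact ⟨h3, (h3.eq_two_or_odd).resolve_left h2.1, Nat.dvd_of_mem_primeFactors h2.2⟩
  have hSx : ∀ x ∈ S, (x.Prime ∧ x % 2 = 1) ∨ x = 4 := by
    intro x hx
    by_cases h : x = 4
    · exact Or.inr h
    · exact Or.inl ⟨(hmem x hx h).1, (hmem x hx h).2.1⟩
  have hS31 : ∀ x ∈ S, x ≤ 31 := by
    intro x hx
    by_cases h : x = 4
    · rw [h]; norm_num
    · exact hP x (hmem x hx h).1 (hmem x hx h).2.2
  have hnz : ∀ i : Ix S, NeZero (nn S i) := fun i =>
    ⟨by have := one_lt_of (hSx i i.2); change (i : ℕ) ≠ 0; omega⟩
  have hn' : Adm' (nn S) := fun i => hSx i i.2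
  have hco : Pairwise (fun i j : Ix S => (nn S i).Coprime (nn S j)) := fun i j hij =>
    coprime_of (hSx i i.2) (hSx j j.2) (fun h => hij (Subtype.ext h))
  obtain ⟨m0, hm0⟩ : ∃ m0, ∏ i : Ix S, nn S i = m0 := ⟨_, rfl⟩
  have hm00 : m0 ≠ 0 := by
    rw [← hm0]; exact prod_ne_zero_iff.mpr fun i _ => (hnz i).out
  have hNZ0 : NeZero m0 := ⟨hm00⟩
  have hm0S : m0 = ∏ x ∈ S, x := by
    rw [← hm0]
    exact Finset.prod_coe_sort S (fun x => x)
  have hdvd : m0 ∣ m := by
    rw [hm0S]
    apply Finset.prod_dvd_of_isRelPrime
    · intro a ha b hb hab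
      exact Nat.coprime_iff_isRelPrime.mp (coprime_of (hSx a ha) (hSx b hb) hab)
    · intro x hx
      by_cases h : x = 4
      · rw [h]; exact dvd_trans (by norm_num) h8
      · exact (hmem x hx h).2.2
  obtain ⟨k0, hk0⟩ := hdvd
  have hk : k0 * m0 = m := (mul_comm _ _).trans hk0.symm
  have h4m0 : 4 ∣ m0 := by
    rw [hm0S]
    exact dvd_prod_of_mem (fun x => x) (by rw [hS]; exact mem_insert_self _ _)
  have hpm : ∀ p, p.Prime → p ∣ m → p ∣ m0 := by
    intro p hp hpm
    by_cases h2 : p = 2
    · rw [h2]; exact dvd_trans (by norm_num) h4m0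
    · rw [hm0S]
      exact dvd_prod_of_mem (fun x => x) (by
        rw [hS]
        exact mem_insert_of_mem (mem_erase.mpr ⟨h2, Nat.mem_primeFactors.mpr ⟨hp, hpm, hm⟩⟩))
  have hred : Red m m0 k0 := red_exists _ m m0 k0 rfl hk hpm (fun _ => h4m0)
  let E : (∀ i, ZMod (nn S i)) ≃+* ZMod m0 := by
    subst hm0
    exact (ZMod.prodEquivPi (nn S) hco).symm
  obtain ⟨L2, hL0, hL2⟩ := pairs_zr' hmod hSx hS31
  refine ⟨L2, hL0, ?_⟩
  intro κ N _ hN Q _ c hc hkill
  have hκN : κ * L2 * m = N := by rw [← hN]; ring
  have hκN0 : κ * L2 * k0 * m0 = N := by rw [mul_assoc, hk, hκN]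
  refine CharacterModule.eq_zero_of_character_apply fun φ0 => ?_
  let φ : Q →+ AddCircle (1 : ℚ) := φ0
  change φ _ = 0
  have hcφ : OddDist (fun b => φ (c b)) := Pool.Agent.N998.oddDist_map hc φ
  obtain ⟨ε, hε⟩ := hL2 (κ * L2 * k0) N m0 hm0 ⟨κ * k0, by ring⟩ hκN0 E (fun b => φ (c b)) hcφ (by
    intro u hu
    have h1 := hkill u hu
    have h2 : (u.map (fun b => φ (c b))).sum = φ ((u.map c).sum) := by
      rw [map_multiset_sum, Multiset.map_map]; rfl
    rw [h2, h1, map_zero])
  set g : ZMod m → AddCircle (1 : ℚ) := fun a => φ (c (iota (κ * L2) a)) -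
    half (ε * phiO {29} m a) with hg
  have hgD : OddDist g := by
    apply OddDist.sub
    · exact Pool.Agent.N998.oddDist_map (hc.comp_iota hκN) φ
    · have h1 : OddDist (fun a : ZMod m => (AddMonoidHom.mulLeft ε) (phiO {29} m a)) :=
        Pool.Agent.N998.oddDist_map (oddDist_phiO (singleton_nonempty _) m) _
      exact Pool.Agent.N998.oddDist_map h1 half
  have hge : (fun x : (cyc (nn S)).Pt => g (iota k0 (E (emb x)))) =
      fun x => φ (c (iota (κ * L2 * k0) (E (emb x)))) - half (ε * phiO {29} m0 (E (emb x))) := by
    funext x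
    rw [hg]
    beta_reduce
    rw [phiO_iota {29} hk, iota_comp hκN]
  have h3 : ∀ A ∈ ({{3, 5, 7}, {3, 5}, {5, 7}} : Finset (Finset ℕ)), ThreeSets A := by
    intro A hA
    rw [mem_insert, mem_insert, mem_singleton] at hA
    exact hA
  have hzero : (s.map g).sum = 0 := by
    refine sum_zero_of_fam hSx hm0 hk hred E hs.rel hgD ?_
    intro T he hne hz
    have h2 : T.card ≠ 2 := fun h => hz (by rw [hge]; exact hε T h)
    have h4 : 4 ≤ T.card := by
      have h5 : 0 < T.card := card_pos.mpr hne
      obtain ⟨r, hr⟩ := he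
      omega
    by_cases hT1 : nat' T = {4, 3, 5, 7}
    · exact ex_T1 h8 hS hm0 hk E hP hcard.le hs.rel hSx hred hT1
        (fun A hA U hU => phiO_zr hSx hm0 E (h3 A hA) hU.le)
        (fun A hA => phiO_not_zr hSx hm0 E (h3 A hA) hT1)
    · exact ex_big h8 hS hm0 hk E hP hcard.le he h4 hT1
  have h29 := even29 h8 hS hm0 hk E hP hcard hs.rel hs.2.2.1 hSx hred hw
  have h5 : (s.map g).sum = φ ((s.map (fun a => c (iota (κ * L2) a))).sum) -
      half (ε * (s.map (phiO {29} m)).sum) := by
    rw [hg, Multiset.sum_map_sub, half_mul_sum]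
    congr 1
    rw [map_multiset_sum, Multiset.map_map]
    rfl
  rw [h5, h29, mul_zero, map_zero, sub_zero] at hzero
  exact hzero

end Pool.Agent.LB
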