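import Pool.Agent.LB.EvDefs

/-!
Numerics for sets of primes up to 31 (for the Hodge conjecture for Fermat varieties; helper992, helper849).
-/

set_option linter.unusedSectionVars false
set_option linter.unusedVariables false

namespace Pool.Agent.LB

open Finset

/-- the odd primes up to 31 -/
def P31 : Finset ℕ := {3, 5, 7, 11, 13, 17, 19, 23, 29, 31}

namespace EvNumAux

/-- the minima of `hh` -/
def Hf (n : ℕ) : ℕ := [1, 1, 2, 6, 30, 180, 1440, 12960, 142560, 1995840, 29937600].getD n 0

theorem hh_ge {P : Finset ℕ} (hP : P ⊆ P31) : Hf P.card ≤ hh P := by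
  have h : ∀ P ∈ P31.powerset, Hf P.card ≤ hh P := by decide +kernel
  exact h P (mem_powerset.2 hP)

theorem hh_ge3 {P : Finset ℕ} (hP : P ⊆ P31) (hc : P.card = 3) (h : P ≠ {3, 5, 7}) : 10 ≤ hh P := by
  have h1 : ∀ P ∈ P31.powerset, P.card = 3 → P ≠ {3, 5, 7} → 10 ≤ hh P := by decide +kernel
  exact h1 P (mem_powerset.2 hP) hc h

theorem hh_ge' {P : Finset ℕ} (hP : P ⊆ P31) (h3 : 3 ∉ P) : Hf (P.card + 1) ≤ hh P := by
  have h1 : insert 3 P ⊆ P31 := insert_subset (by decide) hP
  have h2 := hh_ge h1
  rw [card_insert_of_notMem h3] at h2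
  have h4 : hh (insert 3 P) = hh P := by
    unfold hh
    rw [prod_insert h3]
    simp
  rwa [h4] at h2

theorem hh_ge29 {P : Finset ℕ} (hP : P ⊆ P31) (h : 29 ∈ P) : 14 * Hf (P.card - 1) ≤ hh P := by
  have h2 := hh_ge ((erase_subset 29 P).trans hP)
  rw [card_erase_of_mem h] at h2
  have h4 : hh P = 14 * hh (P.erase 29) := by
    unfold hh
    rw [← mul_prod_erase P (fun p => p / 2) h]
  rw [h4]
  exact Nat.mul_le_mul_left _ h2

theorem num1 : ∀ n ∈ range 11, ∀ t ∈ range 11, t ≤ n → Even t → 4 ≤ t →
    16 * (t - 1).ascFactorial (n + 1 - t) < 2 * Hf n := by decide +kernel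

theorem num2 : ∀ n ∈ range 11, ∀ t ∈ range 11, t < n → Even t → 4 ≤ t →
    16 * t.ascFactorial (n + 1 - t) < 2 * Hf n := by decide +kernel

theorem num3 : ∀ t ∈ range 10, Even t → 4 ≤ t → 16 * t < 2 * Hf (t + 1) := by decide +kernel

theorem num4 : ∀ n ∈ range 11, ∀ t ∈ range 12, ∀ b ∈ range 2, t ≤ n + 1 → Even t → 4 ≤ t → 4 ≤ n →
    16 * (t - b - 1).ascFactorial (n + 1 - t) < 2 * Hf n ∧ 8 * (t - b).ascFactorial (n + 1 - t) < 2 * Hf n := by
  decide +kernel

theorem num5 : ∀ n ∈ range 11, 3 ≤ n → 12 * Nat.ascFactorial 2 (n - 3) ≤ 2 * Hf n ∧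
    6 * Nat.ascFactorial 3 (n - 3) ≤ 2 * Hf n := by decide +kernel

theorem num6 : ∀ n ∈ range 11, 2 ≤ n → 13 * Nat.ascFactorial 2 (n - 2) < 14 * Hf (n - 1) ∧
    13 * Nat.ascFactorial 1 (n - 2) < 14 * Hf (n - 1) := by decide +kernel

theorem card31 {P : Finset ℕ} (hP : P ⊆ P31) : P.card ≤ 10 := by
  have := card_le_card hP
  have h : P31.card = 10 := by decide
  omega

theorem sz_eq (T : Finset ℕ) : sz T = if 3 ∈ T then T.card - 1 else T.card := by
  unfold sz
  rw [card_erase_eq_ite]

theorem hh_pos {P : Finset ℕ} (hP : P ⊆ P31) : 0 < hh P := by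
  have h1 := hh_ge hP
  have h2 := card31 hP
  have h3 : ∀ n ∈ range 11, 0 < Hf n := by decide
  have := h3 P.card (mem_range.2 (by omega))
  omega

/-- the main estimate without the number 4 -/
theorem main_no4 {T P : Finset ℕ} (hTP : T ⊆ P) (hP : P ⊆ P31) (he : Even T.card)
    (h4 : 4 ≤ T.card) : 16 * (sz T).ascFactorial (P.card + 1 - T.card) < 2 * hh P := by
  have hn := card31 hP
  have ht := card_le_card hTP
  have h1 := hh_ge hP
  rw [sz_eq]
  split_ifs with h3
  · have := num1 P.card (mem_range.2 (by omega)) T.card (mem_range.2 (by omega)) ht he h4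
    omega
  · rcases lt_or_eq_of_le ht with h5 | h5
    · have := num2 P.card (mem_range.2 (by omega)) T.card (mem_range.2 (by omega)) h5 he h4
      omega
    · have h6 : T = P := eq_of_subset_of_card_le hTP h5.ge
      subst h6
      have h7 := hh_ge' hP h3
      have h8 : T.card ≠ 10 := by
        intro h9
        have h10 : P31.card = 10 := by decide
        have h11 : T = P31 := eq_of_subset_of_card_le hP (by omega)
        rw [h11] at h3
        exact h3 (by decide)
      have h9 := num3 T.card (mem_range.2 (by omega)) he h4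
      have h10 : T.card + 1 - T.card = 1 := by omega
      rw [h10]
      have h12 : T.card.ascFactorial 1 = T.card := by
        simp [Nat.ascFactorial]
      rw [h12]
      omega

theorem asc_step {s k : ℕ} (h : 2 ≤ s) : 2 * s.ascFactorial k ≤ s.ascFactorial (k + 1) := by
  rw [Nat.ascFactorial_succ]
  exact Nat.mul_le_mul_right _ (by omega)

end EvNumAux

open EvNumAux

theorem prb_lt {T P : Finset ℕ} (hT : T ⊆ insert 4 P31) (hP : P ⊆ P31) (he : Even T.card)
    (h4 : 4 ≤ T.card) (h1 : T ≠ {4, 3, 5, 7}) (j : ℕ) : 8 * prb T P j < 2 * hh P := by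
  have hpos := hh_pos hP
  have hn := card31 hP
  have h4P : 4 ∉ P := fun h => absurd (hP h) (by decide)
  have hs : 3 ≤ sz T := by
    rw [sz_eq]
    split_ifs <;> omega
  by_cases hT4 : 4 ∈ T
  · have hTP : ¬ T ⊆ P := fun h => h4P (h hT4)
    have key : T.erase 4 ⊆ P → 16 * (sz T - 1).ascFactorial (P.card + 1 - T.card) < 2 * hh P ∧
        8 * (sz T).ascFactorial (P.card + 1 - T.card) < 2 * hh P := by
      intro hS
      have hSc := card_le_card hS
      rw [card_erase_of_mem hT4] at hSc
      by_cases hn4 : 4 ≤ P.card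
      · have h2 := hh_ge hP
        rw [sz_eq]
        split_ifs with h3
        · have := num4 P.card (mem_range.2 (by omega)) T.card (mem_range.2 (by omega)) 1 (mem_range.2 (by omega))
            (by omega) he h4 hn4
          omega
        · have := num4 P.card (mem_range.2 (by omega)) T.card (mem_range.2 (by omega)) 0 (mem_range.2 (by omega))
            (by omega) he h4 hn4
          rw [Nat.sub_zero] at this
          omega
      · have hP3 : P.card = 3 := by omega
        have hTc : T.card = 4 := by omega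
        have hSP : T.erase 4 = P := by
          refine eq_of_subset_of_card_le hS ?_
          rw [card_erase_of_mem hT4]
          omega
        have hPne : P ≠ {3, 5, 7} := by
          intro h
          apply h1
          rw [← insert_erase hT4, hSP, h]
        have h2 := hh_ge3 hP hP3 hPne
        have h5 : P.card + 1 - T.card = 0 := by omega
        rw [h5, Nat.ascFactorial_zero, Nat.ascFactorial_zero]
        omega
    unfold prb
    rw [if_neg hTP, if_pos hT4]
    split_ifs with a1 a2 a3 a4 a5
    · omega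
    · omega
    · have := key a4
      omega
    · omega
    · have := key a5
      omega
    · omega
  · have hTe : T.erase 4 = T := erase_eq_of_notMem hT4
    unfold prb
    rw [if_neg hT4, hTe]
    by_cases hTP : T ⊆ P
    · have key := main_no4 hTP hP he h4
      have ht := card_le_card hTP
      have h5 : P.card + 1 - T.card = (P.card - T.card) + 1 := by omega
      have h6 := asc_step (s := sz T) (k := P.card - T.card) (by omega)
      rw [← h5] at h6
      rw [if_pos hTP, if_pos hTP, if_pos hTP, if_pos hTP]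
      split_ifs <;> omega
    · rw [if_neg hTP, if_neg hTP, if_neg hTP, if_neg hTP]
      split_ifs <;> omega

theorem prb_T1 {P : Finset ℕ} (hP : P ⊆ P31) (j : ℕ) : 6 * prb {4, 3, 5, 7} P j ≤ 2 * hh P := by
  have hpos := hh_pos hP
  have hn := card31 hP
  have h4P : 4 ∉ P := fun h => absurd (hP h) (by decide)
  have hTP : ¬ ({4, 3, 5, 7} : Finset ℕ) ⊆ P := fun h => h4P (h (by decide))
  have hT4 : 4 ∈ ({4, 3, 5, 7} : Finset ℕ) := by decide
  have hs : sz {4, 3, 5, 7} = 3 := by decide
  have hc : ({4, 3, 5, 7} : Finset ℕ).card = 4 := by decide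
  have h2 := hh_ge hP
  unfold prb
  rw [if_neg hTP, if_pos hT4, hs, hc, if_neg hTP]
  by_cases hS : ({4, 3, 5, 7} : Finset ℕ).erase 4 ⊆ P
  · have hSc := card_le_card hS
    rw [card_erase_of_mem hT4, hc] at hSc
    have h3 := num5 P.card (mem_range.2 (by omega)) (by omega)
    have h5 : P.card + 1 - 4 = P.card - 3 := by omega
    have h6 : 3 - 1 = 2 := rfl
    rw [if_pos hS, if_pos hS, h5, h6]
    split_ifs <;> omega
  · rw [if_neg hS, if_neg hS]
    split_ifs <;> omega

theorem prb_29 {T P : Finset ℕ} (hT : T ⊆ P31) (hP : P ⊆ P31) (h2 : T.card = 2) (h29 : 29 ∈ T) :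
    13 * prb T P 0 < 2 * hh P ∧ 13 * prb T P 1 < 4 * hh P := by
  have hpos := hh_pos hP
  have hn := card31 hP
  unfold prb
  rw [if_pos rfl, if_neg one_ne_zero, if_pos rfl]
  by_cases hTP : T ⊆ P
  · have ht := card_le_card hTP
    have h3 := hh_ge29 hP (hTP h29)
    have h4 := num6 P.card (mem_range.2 (by omega)) (by omega)
    rw [if_pos hTP, if_pos hTP, sz_eq, h2]
    split_ifs
    · have : 2 - 1 = 1 := rfl
      rw [this]
      omega
    · omega
  · rw [if_neg hTP, if_neg hTP]
    omega

end Pool.Agent.LB
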