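import Pool.Agent.LB.EvDefs

/-!
The distributions modulo 2 attached to sets of odd primes.
-/

set_option autoImplicit false
set_option linter.unusedSectionVars false

namespace Pool.Agent.LB

open Finset Pool.Agent.N993 Pool.Agent.H916R2 Pool.Agent.N992

namespace EvPhi

/-- the value at an element of order `k` -/
noncomputable def vv (A : Finset ℕ) (k : ℕ) : ZMod 2 :=
  if k % 2 = 1 ∧ k.primeFactors = A then 1 else 0

lemma phiO_eq (A : Finset ℕ) (m : ℕ) (a : ZMod m) : phiO A m a = vv A (addOrderOf a) := rfl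

lemma ord_cases {G : Type} [AddMonoid G] (p : ℕ) (hp : p.Prime) (b : G) :
    (addOrderOf b = addOrderOf (p • b) ∧ ¬ p ∣ addOrderOf b) ∨
      addOrderOf b = p * addOrderOf (p • b) := by
  have h1 := addOrderOf_nsmul' b hp.ne_zero
  by_cases h : p ∣ addOrderOf b
  · right
    rw [h1, Nat.gcd_eq_right h, Nat.mul_div_cancel' h]
  · left
    have h2 : Nat.gcd (addOrderOf b) p = 1 := ((Nat.Prime.coprime_iff_not_dvd hp).2 h).symm
    rw [h1, h2, Nat.div_one]
    exact ⟨rfl, h⟩

/-- elements killed by `p` -/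
lemma killed {m p d : ℕ} [NeZero m] (hp : p.Prime) (h : p * d = m) (x : ZMod m)
    (hx : p • x = 0) : ∃ i < p, x = (i : ZMod m) * (d : ZMod m) := by
  have hm : 0 < m := Nat.pos_of_ne_zero (NeZero.ne m)
  have h1 : ((p * x.val : ℕ) : ZMod m) = 0 := by
    rw [Nat.cast_mul, ZMod.natCast_zmod_val, ← nsmul_eq_mul]
    exact hx
  rw [ZMod.natCast_eq_zero_iff] at h1
  have h1' : p * d ∣ p * x.val := by rw [h]; exact h1
  obtain ⟨i, hi⟩ := Nat.dvd_of_mul_dvd_mul_left hp.pos h1'
  have hd : 0 < d := by
    rcases Nat.eq_zero_or_pos d with h0 | h0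
    · rw [h0, mul_zero] at h; omega
    · exact h0
  have hv := ZMod.val_lt x
  refine ⟨i, ?_, ?_⟩
  · by_contra hcon
    have : m ≤ x.val := by
      rw [hi, ← h, mul_comm p d]
      exact Nat.mul_le_mul_left d (not_lt.1 hcon)
    omega
  · have : x = ((x.val : ℕ) : ZMod m) := (ZMod.natCast_zmod_val x).symm
    rw [this, hi]
    push_cast
    ring

lemma dist_mul {m p d i : ℕ} (h : p * d = m) : p • ((i : ZMod m) * (d : ZMod m)) = 0 := by
  rw [nsmul_eq_mul]
  have : (p : ZMod m) * ((i : ZMod m) * (d : ZMod m)) = (i : ZMod m) * ((p * d : ℕ) : ZMod m) := by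
    push_cast; ring
  rw [this, h, ZMod.natCast_self, mul_zero]

lemma inj {m p d i j : ℕ} [NeZero m] (h : p * d = m) (hi : i < p) (hj : j < p)
    (he : (i : ZMod m) * (d : ZMod m) = (j : ZMod m) * (d : ZMod m)) : i = j := by
  have hm : 0 < m := Nat.pos_of_ne_zero (NeZero.ne m)
  have hd : 0 < d := by
    rcases Nat.eq_zero_or_pos d with h0 | h0
    · rw [h0, mul_zero] at h; omega
    · exact h0
  have h1 : ((i * d : ℕ) : ZMod m) = ((j * d : ℕ) : ZMod m) := by
    push_cast; exact he
  rw [ZMod.natCast_eq_natCast_iff'] at h1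
  rw [Nat.mod_eq_of_lt (by rw [← h]; exact Nat.mul_lt_mul_of_pos_right hi hd),
    Nat.mod_eq_of_lt (by rw [← h]; exact Nat.mul_lt_mul_of_pos_right hj hd)] at h1
  exact Nat.eq_of_mul_eq_mul_right hd h1

lemma cast_odd {p : ℕ} (h : p % 2 = 1) : ((p : ℕ) : ZMod 2) = 1 := by
  rw [← Nat.mod_add_div p 2, h]
  push_cast
  have : (2 : ZMod 2) = 0 := by decide
  rw [this, zero_mul, add_zero]

lemma cast_even {p : ℕ} (h : p % 2 = 0) : ((p : ℕ) : ZMod 2) = 0 := by
  rw [← Nat.mod_add_div p 2, h]
  push_cast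
  have : (2 : ZMod 2) = 0 := by decide
  rw [this, zero_mul, add_zero]

lemma vv_even (A : Finset ℕ) {k : ℕ} (h : k % 2 = 0) : vv A k = 0 := by
  unfold vv
  rw [if_neg]
  rintro ⟨h1, _⟩
  omega

lemma vv_mul (A : Finset ℕ) {p n : ℕ} (hp : p.Prime) (hp2 : p % 2 = 1) (hn : n ≠ 0) (h : p ∣ n) :
    vv A (p * n) = vv A n := by
  have h1 : (p * n) % 2 = n % 2 := by
    rw [Nat.mul_mod, hp2, one_mul, Nat.mod_mod]
  have h2 : (p * n).primeFactors = n.primeFactors := by
    rw [Nat.primeFactors_mul hp.ne_zero hn, hp.primeFactors]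
    apply Finset.union_eq_right.2
    intro q hq
    rw [Finset.mem_singleton] at hq
    rw [hq]
    exact Nat.mem_primeFactors.2 ⟨hp, h, hn⟩
  unfold vv
  rw [h1, h2]

lemma odd_or (p : ℕ) (hp : p.Prime) : p = 2 ∨ p % 2 = 1 := hp.eq_two_or_odd

end EvPhi

open EvPhi

theorem oddDist_phiO {A : Finset ℕ} (hA : A.Nonempty) (m : ℕ) [NeZero m] : OddDist (phiO A m) := by
  refine ⟨?_, ?_, ?_⟩
  · intro a
    rw [phiO_eq, phiO_eq, addOrderOf_neg]
    generalize vv A (addOrderOf a) = x
    revert x
    decide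
  · intro a ha
    rw [phiO_eq]
    have h1 : addOrderOf a ∣ 2 := by
      rw [addOrderOf_dvd_iff_nsmul_eq_zero, two_nsmul]
      exact ha
    rcases (Nat.dvd_prime Nat.prime_two).1 h1 with h | h
    · rw [h]
      unfold vv
      rw [if_neg]
      rintro ⟨_, h2⟩
      rw [Nat.primeFactors_one] at h2
      exact hA.ne_empty h2.symm
    · rw [h]
      exact vv_even A rfl
  · intro p d hp hpd a
    simp only [phiO_eq]
    have hpa : (p : ZMod m) * a = p • a := (nsmul_eq_mul p a).symm
    rw [hpa]
    obtain ⟨n, hn⟩ : ∃ n, n = addOrderOf (p • a) := ⟨_, rfl⟩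
    rw [← hn]
    have hn0 : n ≠ 0 := by
      rw [hn]
      exact (addOrderOf_pos (p • a)).ne'
    have hb : ∀ i : ℕ, p • (a + (i : ZMod m) * (d : ZMod m)) = p • a := by
      intro i
      rw [nsmul_add, dist_mul hpd, add_zero]
    have hord : ∀ i : ℕ, (addOrderOf (a + (i : ZMod m) * (d : ZMod m)) = n ∧
        ¬ p ∣ addOrderOf (a + (i : ZMod m) * (d : ZMod m))) ∨
        addOrderOf (a + (i : ZMod m) * (d : ZMod m)) = p * n := by
      intro i
      have := ord_cases p hp (a + (i : ZMod m) * (d : ZMod m))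
      rw [hb i, ← hn] at this
      exact this
    by_cases hpn : p ∣ n
    · have hall : ∀ i ∈ range p, vv A (addOrderOf (a + (i : ZMod m) * (d : ZMod m))) =
          vv A (p * n) := by
        intro i _
        rcases hord i with ⟨h1, h2⟩ | h1
        · rw [h1] at h2
          exact absurd hpn h2
        · rw [h1]
      rw [Finset.sum_congr rfl hall, Finset.sum_const, card_range, nsmul_eq_mul]
      rcases odd_or p hp with h2 | h2
      · have hn2 : n % 2 = 0 := by
          rw [h2] at hpn
          omega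
        rw [vv_even A hn2, h2, cast_even (by norm_num), zero_mul]
      · rw [cast_odd h2, one_mul, vv_mul A hp h2 hn0 hpn]
    · -- the element of order prime to `p`
      have hcop : Nat.Coprime p n := (Nat.Prime.coprime_iff_not_dvd hp).2 hpn
      obtain ⟨u, hu⟩ : ∃ u : ℕ, (p * u) % n = 1 % n := by
        obtain ⟨u, hu⟩ := Nat.exists_mul_mod_eq_of_coprime (k := n) (n := p) 1 hcop hn0
        exact ⟨u, by rw [hu.2]⟩
      have hkey : p • (u • (p • a)) = p • a := by
        rw [← mul_nsmul']
        have h3 : (p * u) • (p • a) = (1 : ℕ) • (p • a) := by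
          rw [← mod_addOrderOf_nsmul, ← hn, hu, hn, mod_addOrderOf_nsmul]
        rw [h3, one_nsmul]
      obtain ⟨i₀, hi₀, hx⟩ := killed hp hpd (u • (p • a) - a) (by
        rw [nsmul_sub, hkey, sub_self])
      have hb0 : a + (i₀ : ZMod m) * (d : ZMod m) = u • (p • a) := by
        rw [← hx]; abel
      have ho0 : addOrderOf (a + (i₀ : ZMod m) * (d : ZMod m)) = n := by
        rcases hord i₀ with h1 | h1
        · exact h1.1
        · exfalso
          have h4 : addOrderOf (u • (p • a)) ∣ n := by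
            rw [addOrderOf_dvd_iff_nsmul_eq_zero, ← mul_nsmul, mul_comm, mul_nsmul, hn,
              addOrderOf_nsmul_eq_zero, nsmul_zero]
          rw [hb0] at h1
          rw [h1] at h4
          exact hpn ((Dvd.intro _ rfl : p ∣ p * n).trans h4)
      have hoth : ∀ i ∈ (range p).erase i₀,
          vv A (addOrderOf (a + (i : ZMod m) * (d : ZMod m))) = vv A (p * n) := by
        intro i hi
        rw [Finset.mem_erase, Finset.mem_range] at hi
        rcases hord i with ⟨h1, _⟩ | h1
        · exfalso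
          apply hi.1
          apply inj hpd hi.2 hi₀
          have e1 : n • ((i : ZMod m) * (d : ZMod m) - (i₀ : ZMod m) * (d : ZMod m)) = 0 := by
            have : (i : ZMod m) * (d : ZMod m) - (i₀ : ZMod m) * (d : ZMod m) =
                (a + (i : ZMod m) * (d : ZMod m)) - (a + (i₀ : ZMod m) * (d : ZMod m)) := by abel
            rw [this, nsmul_sub]
            have e2 : n • (a + (i : ZMod m) * (d : ZMod m)) = 0 := by
              rw [← addOrderOf_dvd_iff_nsmul_eq_zero, h1]
            have e3 : n • (a + (i₀ : ZMod m) * (d : ZMod m)) = 0 := by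
              rw [← addOrderOf_dvd_iff_nsmul_eq_zero, ho0]
            rw [e2, e3, sub_zero]
          have e4 : p • ((i : ZMod m) * (d : ZMod m) - (i₀ : ZMod m) * (d : ZMod m)) = 0 := by
            rw [nsmul_sub, dist_mul hpd, dist_mul hpd, sub_zero]
          have e5 := addOrderOf_dvd_iff_nsmul_eq_zero.2 e1
          have e6 := addOrderOf_dvd_iff_nsmul_eq_zero.2 e4
          have e7 : addOrderOf ((i : ZMod m) * (d : ZMod m) - (i₀ : ZMod m) * (d : ZMod m)) = 1 :=
            Nat.eq_one_of_dvd_coprimes hcop e6 e5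
          exact sub_eq_zero.1 (AddMonoid.addOrderOf_eq_one_iff.1 e7)
        · rw [h1]
      rw [← Finset.add_sum_erase _ _ (Finset.mem_range.2 hi₀), ho0, Finset.sum_congr rfl hoth,
        Finset.sum_const, Finset.card_erase_of_mem (Finset.mem_range.2 hi₀), card_range,
        nsmul_eq_mul]
      rcases odd_or p hp with h2 | h2
      · have : (p * n) % 2 = 0 := by rw [h2]; omega
        rw [vv_even A this, mul_zero, add_zero]
      · rw [cast_even (by omega), zero_mul, add_zero]

theorem phiO_iota (A : Finset ℕ) {k m0 m : ℕ} [NeZero m] [NeZero m0] (h : k * m0 = m)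
    (b : ZMod m0) : phiO A m (iota k b) = phiO A m0 b := by
  rw [phiO_eq, phiO_eq]
  let f : ZMod m0 →+ ZMod m := AddMonoidHom.mk' (fun b => iota k b) fun x y => iota_add h x y
  have hf : Function.Injective f := by
    rw [injective_iff_map_eq_zero]
    intro x hx
    have h1 : ((k * x.val : ℕ) : ZMod m) = 0 := hx
    rw [ZMod.natCast_eq_zero_iff, ← h] at h1
    have hk : 0 < k := by
      rcases Nat.eq_zero_or_pos k with h0 | h0
      · rw [h0, zero_mul] at h
        exact absurd h.symm (NeZero.ne m)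
      · exact h0
    have h2 := Nat.dvd_of_mul_dvd_mul_left hk h1
    have h3 := Nat.eq_zero_of_dvd_of_lt h2 (ZMod.val_lt x)
    exact (ZMod.val_eq_zero x).1 h3
  have := addOrderOf_injective f hf b
  rw [← this]
  rfl

theorem phiO_sum (A : Finset ℕ) {m : ℕ} [NeZero m] (s : Multiset (ZMod m)) :
    (s.map (phiO A m)).sum =
    ((Multiset.card (s.filter (fun a => addOrderOf a % 2 = 1 ∧
      (addOrderOf a).primeFactors = A)) : ℕ) : ZMod 2) := by
  induction s using Multiset.induction_on with
  | empty => simp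
  | cons a s ih =>
    rw [Multiset.map_cons, Multiset.sum_cons, ih]
    by_cases h : addOrderOf a % 2 = 1 ∧ (addOrderOf a).primeFactors = A
    · rw [Multiset.filter_cons_of_pos (p := fun a => addOrderOf a % 2 = 1 ∧
        (addOrderOf a).primeFactors = A) _ h, Multiset.card_cons, phiO, if_pos h]
      push_cast
      ring
    · rw [Multiset.filter_cons_of_neg (p := fun a => addOrderOf a % 2 = 1 ∧
        (addOrderOf a).primeFactors = A) _ h, phiO, if_neg h, zero_add]

end Pool.Agent.LB

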