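import Pool.Agent.LB.EvDefs

/-!
Pigeonhole for families of distributions modulo 2.
-/

set_option linter.unusedSectionVars false

namespace Pool.Agent.LB

open Finset Pool.Agent.N993 Pool.Agent.H916R2

variable {m : ℕ} [NeZero m] {γ : Type} [Fintype γ]

/-- the number of members which do not vanish at `a` -/
noncomputable def bd (F : γ → ZMod m → ZMod 2) (a : ZMod m) : ℕ :=
  (univ.filter (fun g => F g a ≠ 0)).card

theorem fam_avoid (F : γ → ZMod m → ZMod 2) (s : Multiset (ZMod m))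
    (h : (s.map (bd F)).sum < Fintype.card γ) : ∃ g, ∀ a ∈ s, F g a = 0 := by
  classical
  by_contra hcon
  push Not at hcon
  have hcov : Fintype.card γ ≤ ∑ a ∈ s.toFinset, bd F a := by
    rw [← Finset.card_univ]
    refine le_trans (card_le_card ?_) card_biUnion_le
    intro g _
    obtain ⟨x, hx, hx'⟩ := hcon g
    rw [mem_biUnion]
    exact ⟨x, Multiset.mem_toFinset.mpr hx, by rw [mem_filter]; exact ⟨mem_univ _, hx'⟩⟩
  have h2 : ∑ a ∈ s.toFinset, bd F a ≤ (s.map (bd F)).sum := by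
    rw [Finset.sum_multiset_map_count]
    refine sum_le_sum fun a ha => ?_
    rw [smul_eq_mul]
    have h1 : 1 ≤ s.count a := Multiset.one_le_count_iff_mem.mpr (Multiset.mem_toFinset.mp ha)
    exact Nat.le_mul_of_pos_left _ h1
  omega

theorem sum_zero_of_avoid {F : ZMod m → ZMod 2} {s : Multiset (ZMod m)} (h : ∀ a ∈ s, F a = 0) :
    (s.map F).sum = 0 := by
  apply Multiset.sum_eq_zero
  intro x hx
  obtain ⟨a, ha, rfl⟩ := Multiset.mem_map.mp hx
  exact h a ha

/-- weights: if `c * bd F a ≤ w a * card γ`, and the sum of the weights is smaller -/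
theorem fam_avoid_w (F : γ → ZMod m → ZMod 2) (s : Multiset (ZMod m)) {c : ℕ} (hc : 0 < c)
    (w : ZMod m → ℕ) (hw : ∀ a ∈ s, c * bd F a ≤ w a * Fintype.card γ)
    (h : (s.map w).sum * Fintype.card γ < c * Fintype.card γ) : ∃ g, ∀ a ∈ s, F g a = 0 := by
  apply fam_avoid
  have h1 : (s.map (fun a => c * bd F a)).sum ≤ (s.map (fun a => w a * Fintype.card γ)).sum :=
    Multiset.sum_map_le_sum_map _ _ hw
  rw [Multiset.sum_map_mul_left, Multiset.sum_map_mul_right] at h1
  exact Nat.lt_of_mul_lt_mul_left (lt_of_le_of_lt h1 h)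

theorem fam_avoid_w' (F : γ → ZMod m → ZMod 2) (s : Multiset (ZMod m)) {c : ℕ} (hc : 0 < c)
    (w : ZMod m → ℕ) (hw : ∀ a ∈ s, c * bd F a ≤ w a * Fintype.card γ)
    (hs : ∃ a ∈ s, c * bd F a < w a * Fintype.card γ)
    (h : (s.map w).sum ≤ c) : ∃ g, ∀ a ∈ s, F g a = 0 := by
  apply fam_avoid
  have h1 : (s.map (fun a => c * bd F a)).sum < (s.map (fun a => w a * Fintype.card γ)).sum :=
    Multiset.sum_lt_sum hw hs
  rw [Multiset.sum_map_mul_left, Multiset.sum_map_mul_right] at h1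
  exact Nat.lt_of_mul_lt_mul_left (lt_of_lt_of_le h1 (Nat.mul_le_mul_right _ h))

/-- from the proportion bound -/
lemma bd_le {F : γ → ZMod m → ZMod 2} {a : ZMod m} {T P : Finset ℕ} {j : ℕ} {C c w : ℕ}
    (h : 2 * (bd F a * hh P) ≤ prb T P j * C) (hn : c * prb T P j ≤ w * (2 * hh P))
    (hh0 : 0 < hh P) : c * bd F a ≤ w * C := by
  have h1 : c * bd F a * (2 * hh P) ≤ w * C * (2 * hh P) := by
    calc c * bd F a * (2 * hh P) = c * (2 * (bd F a * hh P)) := by ring
      _ ≤ c * (prb T P j * C) := Nat.mul_le_mul_left _ h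
      _ = (c * prb T P j) * C := by ring
      _ ≤ (w * (2 * hh P)) * C := Nat.mul_le_mul_right _ hn
      _ = _ := by ring
  exact Nat.le_of_mul_le_mul_right h1 (by omega)

lemma bd_lt {F : γ → ZMod m → ZMod 2} {a : ZMod m} {T P : Finset ℕ} {j : ℕ} {C c w : ℕ}
    (h : 2 * (bd F a * hh P) ≤ prb T P j * C) (hn : c * prb T P j < w * (2 * hh P))
    (hC : 0 < C) : c * bd F a < w * C := by
  have h1 : c * bd F a * (2 * hh P) < w * C * (2 * hh P) := by
    calc c * bd F a * (2 * hh P) = c * (2 * (bd F a * hh P)) := by ring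
      _ ≤ c * (prb T P j * C) := Nat.mul_le_mul_left _ h
      _ = (c * prb T P j) * C := by ring
      _ < (w * (2 * hh P)) * C := Nat.mul_lt_mul_of_pos_right hn hC
      _ = _ := by ring
  exact Nat.lt_of_mul_lt_mul_right h1

lemma hh_pos {P : Finset ℕ} (h : ∀ p ∈ P, 2 ≤ p) : 0 < hh P :=
  Finset.prod_pos fun p hp => Nat.div_pos (h p hp) (by norm_num)

lemma prb_zero {T P : Finset ℕ} (h : ¬ T ⊆ P) : prb T P 0 = 0 := by
  unfold prb; rw [if_pos rfl, if_neg h]

lemma prb_one {T P : Finset ℕ} (h : ¬ T ⊆ P) : prb T P 1 = 0 := by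
  unfold prb; rw [if_neg one_ne_zero, if_pos rfl, if_neg h]

end Pool.Agent.LB
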