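import Mathlib

/-!
# Project EV, leaf 9 (helper50): the two-part of a relation with 8 terms
-/

set_option autoImplicit false
set_option linter.unusedSectionVars false

namespace Pool.Agent.LB

open Finset

namespace EvTwo

lemma eq_half {m : ℕ} [NeZero m] {x : ZMod m} (hx : x ≠ 0) (h : 2 • x = 0) :
    x = ((m / 2 : ℕ) : ZMod m) := by
  have h1 : ((2 * x.val : ℕ) : ZMod m) = 0 := by
    rw [Nat.cast_mul, ZMod.natCast_val, ZMod.cast_id', id]
    rw [nsmul_eq_mul] at h
    exact_mod_cast h
  rw [ZMod.natCast_eq_zero_iff] at h1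
  have h2 : x.val < m := ZMod.val_lt x
  have h3 : x.val ≠ 0 := fun h4 => hx ((ZMod.val_eq_zero x).1 h4)
  obtain ⟨c, hc⟩ := h1
  have h4 : c = 1 := by
    have hc1 : c < 2 := by
      by_contra hcon
      push Not at hcon
      have : m * 2 ≤ m * c := Nat.mul_le_mul_left m hcon
      omega
    have hc0 : c ≠ 0 := by
      rintro rfl
      omega
    omega
  rw [h4, mul_one] at hc
  have h5 : x.val = m / 2 := by omega
  rw [← h5, ZMod.natCast_val, ZMod.cast_id', id]

end EvTwo

open EvTwo in
theorem two_part {m : ℕ} [NeZero m] (h2 : 2 ∣ m) {s : Multiset (ZMod m)}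
    (h8 : Multiset.card s = 8) (hsum : s.sum = 0) {x0 : ZMod m} (hx0 : x0 ∈ s)
    (ho : addOrderOf x0 % 2 = 1)
    (h6 : 6 ≤ Multiset.card (s.filter (fun a => padicValNat 2 (addOrderOf a) = 1))) :
    ∃ (y0 : ZMod m) (t : Multiset (ZMod m)), s = x0 ::ₘ y0 ::ₘ t ∧ addOrderOf y0 % 2 = 1 ∧
      ∀ a ∈ t, padicValNat 2 (addOrderOf a) = 1 := by
  classical
  have hm0 : m ≠ 0 := NeZero.ne m
  obtain ⟨k, Q, hQ, hmQ⟩ := Nat.exists_eq_two_pow_mul_odd hm0
  have hdvd : ∀ a : ZMod m, addOrderOf a ∣ m := by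
    intro a
    have := addOrderOf_dvd_card (x := a)
    rwa [ZMod.card] at this
  have hpos : ∀ a : ZMod m, 0 < addOrderOf a := fun a => addOrderOf_pos a
  have hodd : ∀ d : ℕ, d ∣ m → d % 2 = 1 → d ∣ Q := by
    intro d hd hd1
    have hcop : Nat.Coprime d (2 ^ k) := by
      apply Nat.Coprime.pow_right
      rw [Nat.coprime_comm, Nat.coprime_two_left]
      exact Nat.odd_iff.2 hd1
    rw [hmQ] at hd
    exact hcop.dvd_of_dvd_mul_left hd
  have hQodd : Q % 2 = 1 := Nat.odd_iff.1 hQ
  -- elements of odd order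
  have f1 : ∀ a : ZMod m, addOrderOf a % 2 = 1 → Q • a = 0 := by
    intro a ha
    rw [← addOrderOf_dvd_iff_nsmul_eq_zero]
    exact hodd _ (hdvd a) ha
  have f2 : ∀ a : ZMod m, Q • a = 0 → addOrderOf a % 2 = 1 := by
    intro a ha
    rw [← addOrderOf_dvd_iff_nsmul_eq_zero] at ha
    obtain ⟨c, hc⟩ := ha
    by_contra hcon
    have h3 : addOrderOf a % 2 = 0 := by omega
    have h4 : Q % 2 = 0 := by
      rw [hc, Nat.mul_mod, h3]; simp
    omega
  set hh : ZMod m := ((m / 2 : ℕ) : ZMod m) with hhd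
  have f3 : ∀ a : ZMod m, padicValNat 2 (addOrderOf a) = 1 → Q • a ≠ 0 ∧ Q • a = hh := by
    intro a ha
    have hne : Q • a ≠ 0 := by
      intro h
      have h3 := f2 a h
      have h4 : ¬ 2 ∣ addOrderOf a := by omega
      rw [padicValNat.eq_zero_of_not_dvd h4] at ha
      exact zero_ne_one ha
    refine ⟨hne, eq_half hne ?_⟩
    -- `2 Q a = 0`
    have h5 : 2 ∣ addOrderOf a := by
      have : (2 : ℕ) ^ 1 ∣ addOrderOf a := by
        rw [padicValNat_dvd_iff_le (hpos a).ne', ha]
      simpa using this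
    obtain ⟨r, hr⟩ := h5
    have hr0 : r ≠ 0 := by
      rintro rfl
      have := hpos a
      omega
    have hr1 : r % 2 = 1 := by
      by_contra hcon
      have h6 : (2 : ℕ) ^ 2 ∣ addOrderOf a := by
        obtain ⟨r', hr'⟩ : 2 ∣ r := by omega
        exact ⟨r', by rw [hr, hr']; ring⟩
      rw [padicValNat_dvd_iff_le (hpos a).ne', ha] at h6
      omega
    have hrQ : r ∣ Q := hodd r ((Dvd.intro_left 2 hr.symm).trans (hdvd a)) hr1
    rw [smul_smul, ← addOrderOf_dvd_iff_nsmul_eq_zero, hr]
    exact Nat.mul_dvd_mul_left 2 hrQ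
  -- two times the half
  have f4 : 2 • hh = 0 := by
    rw [hhd, nsmul_eq_mul, ← Nat.cast_mul, Nat.mul_div_cancel' h2, ZMod.natCast_self]
  -- sums
  have f5 : ∀ t : Multiset (ZMod m), (∀ a ∈ t, padicValNat 2 (addOrderOf a) = 1) →
      Q • t.sum = (Multiset.card t) • hh := by
    intro t
    induction t using Multiset.induction_on with
    | empty => intro _; simp
    | cons a t ih =>
      intro h
      rw [Multiset.sum_cons, smul_add, ih (fun b hb => h b (Multiset.mem_cons_of_mem hb)),
        (f3 a (h a (Multiset.mem_cons_self a t))).2, Multiset.card_cons, succ_nsmul, add_comm]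
  obtain ⟨s', rfl⟩ := Multiset.exists_cons_of_mem hx0
  have hP0 : ¬ padicValNat 2 (addOrderOf x0) = 1 := by
    have h4 : ¬ 2 ∣ addOrderOf x0 := by omega
    rw [padicValNat.eq_zero_of_not_dvd h4]
    exact zero_ne_one
  rw [Multiset.filter_cons_of_neg (p := fun a : ZMod m => padicValNat 2 (addOrderOf a) = 1) s' hP0] at h6
  rw [Multiset.card_cons] at h8
  have hc7 : Multiset.card s' = 7 := by omega
  rw [Multiset.sum_cons] at hsum
  have hQs : Q • s'.sum = 0 := by
    have := congrArg (fun z => Q • z) hsum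
    simp only [smul_add, smul_zero] at this
    rw [f1 x0 ho, zero_add] at this
    exact this
  have hsplit := Multiset.filter_add_not (fun a => padicValNat 2 (addOrderOf a) = 1) s'
  set t := s'.filter (fun a => padicValNat 2 (addOrderOf a) = 1) with ht
  set u := s'.filter (fun a => ¬ padicValNat 2 (addOrderOf a) = 1) with hu
  have hcards : Multiset.card t + Multiset.card u = 7 := by
    rw [← Multiset.card_add, hsplit, hc7]
  have htP : ∀ a ∈ t, padicValNat 2 (addOrderOf a) = 1 := fun a ha =>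
    (Multiset.mem_filter.1 ha).2
  have hhne : ∀ a ∈ t, hh ≠ 0 := by
    intro a ha h
    have := f3 a (htP a ha)
    rw [this.2] at this
    exact this.1 h
  have htne : ∃ a, a ∈ t := by
    rw [← Multiset.card_pos_iff_exists_mem]; omega
  obtain ⟨a0, ha0⟩ := htne
  have hhn := hhne a0 ha0
  rcases Nat.lt_or_ge (Multiset.card t) 7 with h7 | h7
  · have hu1 : Multiset.card u = 1 := by omega
    obtain ⟨y0, hy0⟩ := Multiset.card_eq_one.1 hu1
    refine ⟨y0, t, ?_, ?_, htP⟩
    · rw [← hsplit, hy0, add_comm, Multiset.singleton_add]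
    · apply f2
      have h9 : s'.sum = y0 + t.sum := by
        rw [← hsplit, Multiset.sum_add, hy0, Multiset.sum_singleton, add_comm]
      rw [h9, smul_add, f5 t htP] at hQs
      have h10 : Multiset.card t = 6 := by omega
      rw [h10] at hQs
      have h11 : (6 : ℕ) • hh = 0 := by
        rw [show (6 : ℕ) = 3 * 2 by norm_num, mul_smul, f4, smul_zero]
      rw [h11, add_zero] at hQs
      exact hQs
  · exfalso
    have hu0 : Multiset.card u = 0 := by omega
    rw [Multiset.card_eq_zero] at hu0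
    have h9 : s'.sum = t.sum := by
      rw [← hsplit, hu0, add_zero]
    rw [h9, f5 t htP] at hQs
    have h10 : Multiset.card t = 7 := by omega
    rw [h10] at hQs
    have h11 : (7 : ℕ) • hh = hh := by
      rw [show (7 : ℕ) = 3 * 2 + 1 by norm_num, add_smul, mul_smul, f4, smul_zero, zero_add,
        one_smul]
    rw [h11] at hQs
    exact hhn hQs

end Pool.Agent.LB
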