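import Pool.Agent.LB.EvSplit
import Pool.Agent.LB.EvStep
import Pool.Agent.LB.EvFam
import Pool.Agent.LB.EvPhi
import Pool.Agent.LB.EvNum
import Pool.Agent.LB.EvTwo

/-!
Relations with at most eight terms: the assembly.
-/

set_option linter.unusedSectionVars false

namespace Pool.Agent.LB

open Finset Pool.Agent.N993 Pool.Agent.H916R2 Pool.Agent.N992

lemma half_ne_zero {a : ZMod 2} (h : a ≠ 0) : half a ≠ 0 := by
  have h1 : a = 1 := by
    fin_cases a
    · exact absurd rfl h
    · rfl
  subst h1
  intro h2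
  have h3 : half 1 = ((1 / 2 : ℚ) : AddCircle (1 : ℚ)) := by
    unfold half
    have := ZMod.lift_coe 2 (⟨zmultiplesHom (AddCircle (1 : ℚ)) ((1 / 2 : ℚ) : AddCircle (1 : ℚ)), by
      rw [zmultiplesHom_apply]
      rw [← AddCircle.coe_zsmul, AddCircle.coe_eq_zero_iff]
      exact ⟨1, by norm_num⟩⟩ : {f : ℤ →+ AddCircle (1 : ℚ) // f (2 : ℕ) = 0}) 1
    rw [Int.cast_one] at this
    rw [this]
    change zmultiplesHom (AddCircle (1 : ℚ)) _ 1 = _
    rw [zmultiplesHom_apply, one_zsmul]
  rw [h3, AddCircle.coe_eq_zero_iff] at h2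
  obtain ⟨n, hn⟩ := h2
  rw [zsmul_eq_mul, mul_one] at hn
  have h4 : (2 * n : ℚ) = 1 := by rw [hn]; norm_num
  have h5 : 2 * n = 1 := by exact_mod_cast h4
  omega

/-- the set of natural numbers attached to `T` -/
def nat' {S : Finset ℕ} (T : Finset (Ix S)) : Finset ℕ := T.map (Function.Embedding.subtype _)

lemma nat'_sub {S : Finset ℕ} (T : Finset (Ix S)) : nat' T ⊆ S := by
  intro x hx
  unfold nat' at hx
  rw [mem_map] at hx
  obtain ⟨y, _, rfl⟩ := hx
  exact y.2

lemma nat'_card {S : Finset ℕ} (T : Finset (Ix S)) : (nat' T).card = T.card := card_map _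

lemma nat'_inj {S : Finset ℕ} {T T' : Finset (Ix S)} (h : nat' T = nat' T') : T = T' :=
  map_injective _ h

lemma opf_sub {m d : ℕ} (hd : d ∣ m) (hP : ∀ p, p.Prime → p ∣ m → p ≤ 31) :
    opf d ⊆ P31 := by
  intro p hp
  unfold opf at hp
  rw [mem_erase] at hp
  have h1 := Nat.prime_of_mem_primeFactors hp.2
  have h2 := Nat.dvd_of_mem_primeFactors hp.2
  have h3 := hP p h1 (h2.trans hd)
  have h4 := hp.1
  unfold P31
  interval_cases p <;> first | (exfalso; revert h1; norm_num; done) | (exfalso; exact h4 rfl) | decide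

/-- the existence of a distribution modulo 2 with the class of `T` which vanishes at `s` -/
def Ex (m : ℕ) (S : Finset ℕ) [∀ i : Ix S, NeZero (nn S i)] (k0 : ℕ) {m0 : ℕ}
    (E : (∀ i, ZMod (nn S i)) ≃+* ZMod m0) (s : Multiset (ZMod m)) (T : Finset (Ix S)) : Prop :=
  ∃ lam : ZMod m → ZMod 2, OddDist lam ∧
    (∃ b, Lam (cyc (nn S)) T b (fun x => lam (iota k0 (E (emb x))))) ∧ (s.map lam).sum = 0

section

variable {m : ℕ} [NeZero m] {S : Finset ℕ} [hnz : ∀ i : Ix S, NeZero (nn S i)]
  {k0 m0 : ℕ} [NeZero m0]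

lemma order_dvd (a : ZMod m) : addOrderOf a ∣ m := by
  have h := addOrderOf_dvd_card (x := a)
  rwa [ZMod.card] at h

lemma hh_opf_pos (d : ℕ) : 0 < hh (opf d) := by
  apply hh_pos
  intro p hp
  unfold opf at hp
  exact (Nat.prime_of_mem_primeFactors (mem_of_mem_erase hp)).two_le

/-- large sets different from `{4, 3, 5, 7}` -/
theorem ex_big (h8 : 8 ∣ m) (hS : S = insert 4 (m.primeFactors.erase 2))
    (hm0 : ∏ i, nn S i = m0) (hk : k0 * m0 = m) (E : (∀ i, ZMod (nn S i)) ≃+* ZMod m0)
    (hP : ∀ p, p.Prime → p ∣ m → p ≤ 31) {s : Multiset (ZMod m)} (hs : Multiset.card s ≤ 8)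
    {T : Finset (Ix S)} (he : Even T.card) (h4 : 4 ≤ T.card) (hT1 : nat' T ≠ {4, 3, 5, 7}) :
    Ex m S k0 E s T := by
  classical
  have hne : T.Nonempty := card_pos.mp (by omega)
  obtain ⟨γ, hγ, hγn, F, hF1, hF2, hF3⟩ := exists_fam h8 hS hm0 hk E hne
  have hSP : S ⊆ insert 4 P31 := by
    rw [hS]
    exact insert_subset_insert _ (opf_sub dvd_rfl hP)
  have hC : 0 < Fintype.card γ := Fintype.card_pos
  obtain ⟨g, hg⟩ : ∃ g, ∀ a ∈ s, F g a = 0 := by
    apply fam_avoid
    have h1 : ∀ a ∈ s, 8 * bd F a + 1 ≤ Fintype.card γ := by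
      intro a _
      have h2 := prb_lt (T := nat' T) (P := opf (addOrderOf a)) ((nat'_sub T).trans hSP)
        (opf_sub (order_dvd a) hP) (by rw [nat'_card]; exact he) (by rw [nat'_card]; exact h4) hT1
        (lev2 (addOrderOf a))
      have h3 := bd_lt (F := F) (a := a) (c := 8) (w := 1) (hF3 a) (by rw [one_mul]; exact h2) hC
      omega
    have h2 : (s.map (fun a => 8 * bd F a + 1)).sum ≤ Multiset.card s * Fintype.card γ := by
      calc (s.map (fun a => 8 * bd F a + 1)).sum ≤ (s.map (fun _ => Fintype.card γ)).sum :=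
            Multiset.sum_map_le_sum_map _ _ h1
        _ = _ := by rw [Multiset.map_const', Multiset.sum_replicate, smul_eq_mul]
    rw [Multiset.sum_map_add, Multiset.sum_map_mul_left, Multiset.map_const', Multiset.sum_replicate,
      smul_eq_mul, mul_one] at h2
    have h5 : Multiset.card s * Fintype.card γ ≤ 8 * Fintype.card γ := Nat.mul_le_mul_right _ hs
    by_cases h6 : Multiset.card s = 0
    · rw [Multiset.card_eq_zero] at h6
      rw [h6, Multiset.map_zero, Multiset.sum_zero]
      exact hC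
    · omega
  exact ⟨F g, hF1 g, hF2 g, sum_zero_of_avoid hg⟩

/-- the distribution `half ∘ phiO A` -/
lemma oddDist_half_phiO {A : Finset ℕ} (hA : A.Nonempty) :
    OddDist (fun a : ZMod m => half (phiO A m a)) :=
  Pool.Agent.N998.oddDist_map (oddDist_phiO hA m) half

/-- the exceptional set `{4, 3, 5, 7}` -/
theorem ex_T1 (h8 : 8 ∣ m) (hS : S = insert 4 (m.primeFactors.erase 2))
    (hm0 : ∏ i, nn S i = m0) (hk : k0 * m0 = m) (E : (∀ i, ZMod (nn S i)) ≃+* ZMod m0)
    (hP : ∀ p, p.Prime → p ∣ m → p ≤ 31) {s : Multiset (ZMod m)} (hs : Multiset.card s ≤ 8)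
    (hrel : Rel (fun a : ZMod m => ((s.count a : ℕ) : ℤ)))
    (hSx : ∀ x ∈ S, (x.Prime ∧ x % 2 = 1) ∨ x = 4) (hred : Red m m0 k0)
    {T : Finset (Ix S)} (hT1 : nat' T = {4, 3, 5, 7})
    (hpair : ∀ A ∈ ({{3, 5, 7}, {3, 5}, {5, 7}} : Finset (Finset ℕ)), ∀ U : Finset (Ix S),
      U.card = 2 → Zr (cyc (nn S)) U (fun x => half (phiO A m0 (E (emb x)))))
    (hT : ∀ A ∈ ({{3, 5, 7}, {3, 5}, {5, 7}} : Finset (Finset ℕ)),
      ¬ Zr (cyc (nn S)) T (fun x => half (phiO A m0 (E (emb x))))) :
    Ex m S k0 E s T := by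
  classical
  have hcard : T.card = 4 := by rw [← nat'_card, hT1]; rfl
  have hne : T.Nonempty := card_pos.mp (by omega)
  have he : Even T.card := by rw [hcard]; decide
  obtain ⟨γ, hγ, hγn, F, hF1, hF2, hF3⟩ := exists_fam h8 hS hm0 hk E hne
  by_contra hcon
  have hone : ∀ g, (s.map (F g)).sum ≠ 0 := fun g hg => hcon ⟨F g, hF1 g, hF2 g, hg⟩
  obtain ⟨g0⟩ := hγn
  -- the three distributions
  have key : ∀ A ∈ ({{3, 5, 7}, {3, 5}, {5, 7}} : Finset (Finset ℕ)),
      ∃ a ∈ s, addOrderOf a % 2 = 1 ∧ (addOrderOf a).primeFactors = A := by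
    intro A hA
    have hAn : A.Nonempty := by
      rw [mem_insert, mem_insert, mem_singleton] at hA
      rcases hA with rfl | rfl | rfl <;> simp
    have e1 : (fun x : (cyc (nn S)).Pt => half (phiO A m (iota k0 (E (emb x))))) =
        fun x => half (phiO A m0 (E (emb x))) := by
      funext x; rw [phiO_iota A hk]
    have h1 := sum_of_fam hSx hm0 hk hred E hrel (oddDist_half_phiO hAn) he
      (T1 := T) (by rw [e1]; exact hT A hA) (by
        intro T' hT' hT'e
        rw [e1]
        have hlt : T'.card < 4 := by rw [← hcard]; exact card_lt_card hT'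
        by_cases h0 : T'.card = 0
        · rw [card_eq_zero] at h0
          subst h0
          apply Zr.zero
          intro x hx
          have h1 : emb x = (0 : ∀ i, ZMod (nn S i)) := by
            funext i
            exact emb_none0 (hx i (notMem_empty i))
          have h2 : OddDist (fun a : ZMod m0 => half (phiO A m0 a)) := oddDist_half_phiO hAn
          rw [h1, map_zero]
          exact h2.half 0 (add_zero 0)
        · apply hpair A hA
          obtain ⟨r, hr⟩ := hT'e
          omega) (hF1 g0) (hF2 g0) (by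
        intro U hUe hUn hU1 hUz
        have hU2 : U.card ≠ 2 := fun h => hUz (by rw [e1]; exact hpair A hA U h)
        have h5 : 0 < U.card := card_pos.mpr hUn
        refine ex_big h8 hS hm0 hk E hP hs hUe ?_ ?_
        · obtain ⟨r, hr⟩ := hUe
          omega
        · intro h6
          exact hU1 (nat'_inj (h6.trans hT1.symm)))
    by_contra hno
    have h2 : (s.map (fun a => half (phiO A m a))).sum = 0 := by
      apply Multiset.sum_eq_zero
      intro x hx
      obtain ⟨a, ha, rfl⟩ := Multiset.mem_map.mp hx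
      have : phiO A m a = 0 := by
        unfold phiO
        rw [if_neg]
        intro h3
        exact hno ⟨a, ha, h3⟩
      rw [this, map_zero]
    rw [h2] at h1
    exact half_ne_zero (hone g0) h1.symm
  -- three terms of odd order
  obtain ⟨a1, ha1, ho1, hp1⟩ := key {3, 5, 7} (by simp)
  obtain ⟨a2, ha2, ho2, hp2⟩ := key {3, 5} (by simp)
  obtain ⟨a3, ha3, ho3, hp3⟩ := key {5, 7} (by simp)
  have h12 : a1 ≠ a2 := by
    rintro rfl; rw [hp1] at hp2; revert hp2; decide
  have h13 : a1 ≠ a3 := by
    rintro rfl; rw [hp1] at hp3; revert hp3; decide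
  have h23 : a2 ≠ a3 := by
    rintro rfl; rw [hp2] at hp3; revert hp3; decide
  have hlev : ∀ a : ZMod m, addOrderOf a % 2 = 1 → lev2 (addOrderOf a) = 0 := by
    intro a ha
    unfold lev2
    rw [padicValNat.eq_zero_of_not_dvd (by omega)]
    rfl
  obtain ⟨g, hg⟩ : ∃ g, ∀ a ∈ s, F g a = 0 := by
    refine fam_avoid_w F s (c := 6) (by norm_num) (fun a => if addOrderOf a % 2 = 1 then 0 else 1) ?_ ?_
    · intro a _
      by_cases ho : addOrderOf a % 2 = 1
      · rw [if_pos ho, zero_mul]
        have h1 := hF3 a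
        rw [hlev a ho] at h1
        have h2 : prb (nat' T) (opf (addOrderOf a)) 0 = 0 := by
          apply prb_zero
          intro h3
          have h4 : 4 ∈ opf (addOrderOf a) := h3 (by rw [hT1]; simp)
          unfold opf at h4
          exact absurd (Nat.prime_of_mem_primeFactors (mem_of_mem_erase h4)) (by norm_num)
        have h3 : prb (T.map (Function.Embedding.subtype _)) (opf (addOrderOf a)) 0 = 0 := h2
        rw [h3, zero_mul] at h1
        have h4 := hh_opf_pos (addOrderOf a)
        have h5 : bd F a * hh (opf (addOrderOf a)) = 0 := by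
          have : (univ.filter (fun g => F g a ≠ 0)).card = bd F a := rfl
          rw [this] at h1
          omega
        rcases mul_eq_zero.mp h5 with h6 | h6
        · rw [h6, mul_zero]
        · omega
      · rw [if_neg ho]
        refine bd_le (hF3 a) ?_ (hh_opf_pos _)
        rw [one_mul]
        have : T.map (Function.Embedding.subtype _) = {4, 3, 5, 7} := hT1
        rw [this]
        exact prb_T1 (opf_sub (order_dvd a) hP) _
    · have hC : 0 < Fintype.card γ := Fintype.card_pos_iff.mpr ⟨g0⟩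
      apply Nat.mul_lt_mul_of_pos_right _ hC
      obtain ⟨s1, rfl⟩ := Multiset.exists_cons_of_mem ha1
      obtain ⟨s2, rfl⟩ := Multiset.exists_cons_of_mem
        ((Multiset.mem_cons.mp ha2).resolve_left (Ne.symm h12))
      have ha3' : a3 ∈ s2 := by
        rcases Multiset.mem_cons.mp ha3 with h | h
        · exact absurd h (Ne.symm h13)
        · rcases Multiset.mem_cons.mp h with h | h
          · exact absurd h (Ne.symm h23)
          · exact h
      obtain ⟨s3, rfl⟩ := Multiset.exists_cons_of_mem ha3'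
      rw [Multiset.map_cons, Multiset.map_cons, Multiset.map_cons, Multiset.sum_cons,
        Multiset.sum_cons, Multiset.sum_cons, if_pos ho1, if_pos ho2, if_pos ho3]
      have h3 : (s3.map (fun a => if addOrderOf a % 2 = 1 then 0 else 1)).sum ≤
          (s3.map (fun _ => 1)).sum := by
        apply Multiset.sum_map_le_sum_map
        intro a _
        split_ifs <;> norm_num
      rw [Multiset.map_const', Multiset.sum_replicate, smul_eq_mul, mul_one] at h3
      simp only [Multiset.card_cons] at hs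
      omega
  exact hone g (sum_zero_of_avoid hg)

end

end Pool.Agent.LB
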