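import Pool.Agent.LB.Fin
import Pool.Agent.LB.EvDefs

/-!
The values of an odd distribution at a relation in terms of distributions modulo 2.
-/

set_option linter.unusedSectionVars false

namespace Pool.Agent.LB

open Finset Pool.Agent.N993 Pool.Agent.H916R2 Pool.Agent.N992

theorem split_sum {m : ℕ} [NeZero m] {S : Finset ℕ} [hnz : ∀ i : Ix S, NeZero (nn S i)]
    (hS : ∀ x ∈ S, (x.Prime ∧ x % 2 = 1) ∨ x = 4) {k m0 : ℕ} [NeZero m0]
    (hm0 : ∏ i, nn S i = m0) (hk : k * m0 = m) (hred : Red m m0 k)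
    (E : (∀ i, ZMod (nn S i)) ≃+* ZMod m0) {s : Multiset (ZMod m)}
    (hs : Rel (fun a : ZMod m => ((s.count a : ℕ) : ℤ)))
    {g : ZMod m → AddCircle (1 : ℚ)} (hg : OddDist g)
    (lam : Finset (Ix S) → ZMod m → ZMod 2)
    (hlam : ∀ T : Finset (Ix S), Even T.card → T.Nonempty →
      ¬ Zr (cyc (nn S)) T (fun x => g (iota k (E (emb x)))) → OddDist (lam T) ∧
      ∃ b, Lam (cyc (nn S)) T b (fun x => lam T (iota k (E (emb x))))) :
    ∃ 𝓑 : Finset (Finset (Ix S)),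
      (∀ T ∈ 𝓑, Even T.card ∧ T.Nonempty ∧
        ¬ Zr (cyc (nn S)) T (fun x => g (iota k (E (emb x))))) ∧
      (∀ T : Finset (Ix S), Even T.card → ¬ Zr (cyc (nn S)) T (fun x => g (iota k (E (emb x)))) →
        (∀ T' ⊂ T, Even T'.card → Zr (cyc (nn S)) T' (fun x => g (iota k (E (emb x))))) → T ∈ 𝓑) ∧
      (s.map g).sum = ∑ T ∈ 𝓑, half ((s.map (lam T)).sum) := by
  classical
  have hn' : Adm' (nn S) := fun i => hS i i.2
  have hco : Pairwise (fun i j : Ix S => (nn S i).Coprime (nn S j)) := fun i j hij =>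
    coprime_of (hS i i.2) (hS j j.2) (fun h => hij (Subtype.ext h))
  set D := cyc (nn S) with hD
  set f : D.Pt → AddCircle (1 : ℚ) := fun x => g (iota k (E (emb x))) with hf
  have hg0 : OddDist (fun b : ZMod m0 => g (iota k b)) := hg.comp_iota hk
  have hfD := isD0_of_oddDist hn' hco hm0 E hg0
  -- the empty set
  have hempty : Zr D ∅ f := by
    apply Zr.zero
    intro x hx
    have h1 : emb x = (0 : ∀ i, ZMod (nn S i)) := by
      funext i
      exact emb_none0 (hx i (notMem_empty i))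
    rw [hf]
    beta_reduce
    rw [h1, map_zero]
    exact hg0.half 0 (add_zero 0)
  have hne : ∀ T : Finset (Ix S), ¬ Zr D T f → T.Nonempty := by
    intro T hT
    rw [nonempty_iff_ne_empty]
    rintro rfl
    exact hT hempty
  let b : Finset (Ix S) → D.GG := fun T =>
    if h : Even T.card ∧ T.Nonempty ∧ ¬ Zr D T f then (hlam T h.1 h.2.1 h.2.2).2.choose else 1
  have hb : ∀ T, Even T.card → T.Nonempty → ¬ Zr D T f →
      Lam D T (b T) (fun x => lam T (iota k (E (emb x)))) := by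
    intro T h1 h2 h5
    have h3 := (hlam T h1 h2 h5).2.choose_spec
    have h4 : b T = (hlam T h1 h2 h5).2.choose := by
      simp only [b]
      rw [dif_pos ⟨h1, h2, h5⟩]
    rw [h4]
    exact h3
  obtain ⟨𝓑, h𝓑, hzr⟩ := decompStmt (Ix S) D (fun i => neg_one_ne_one (hn' i)) f hfD.1 hfD.2 b
    (fun T x => lam T (iota k (E (emb x)))) (fun T h1 h2 => hb T h1 (hne T h2) h2)
  have hBL : ∀ T ∈ 𝓑, OddDist (lam T) ∧ Lam D T (b T) (fun x => lam T (iota k (E (emb x)))) :=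
    fun T hT => ⟨(hlam T (h𝓑 T hT).1 (hne T (h𝓑 T hT).2) (h𝓑 T hT).2).1,
      hb T (h𝓑 T hT).1 (hne T (h𝓑 T hT).2) (h𝓑 T hT).2⟩
  refine ⟨𝓑, fun T hT => ⟨(h𝓑 T hT).1, hne T (h𝓑 T hT).2, (h𝓑 T hT).2⟩, ?_, ?_⟩
  · -- minimal sets
    intro T hTe hTz hmin
    by_contra hTB
    apply hTz
    have h1 := hzr.mono (subset_univ T)
    refine Zr.congr h1 ?_
    intro x hx
    change f x - _ = f x
    rw [sum_eq_zero, sub_zero]
    intro T' hT'
    by_cases hsub : T' ⊆ T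
    · exfalso
      have hss : T' ⊂ T := lt_of_le_of_ne hsub (fun e => hTB (e ▸ hT'))
      exact (h𝓑 T' hT').2 (hmin T' hss (h𝓑 T' hT').1)
    · obtain ⟨i, hi, hi'⟩ := not_subset.mp hsub
      have := (hBL T' hT').2.zero x ⟨i, hi, hx i hi'⟩
      beta_reduce at this ⊢
      rw [this, map_zero]
  · -- the value
    have hOD : ∀ T ∈ 𝓑, OddDist (fun x : ZMod m => half (lam T x)) := fun T hT =>
      Pool.Agent.N998.oddDist_map (hBL T hT).1 half
    set c2 : ZMod m → AddCircle (1 : ℚ) := fun a => g a - ∑ T ∈ 𝓑, half (lam T a) with hc2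
    have hc2D : OddDist c2 := hg.sub (OddDist.sum hOD)
    obtain ⟨x0, hx0, he⟩ := hred _ c2 hc2D _ hs
    have hzero : ∑ b, x0 b • c2 (iota k b) = 0 :=
      kills_of_zr hn' hco hm0 E (hc2D.comp_iota hk) hzr x0 hx0
    rw [hzero, sum_count] at he
    have h3 : (s.map c2).sum = (s.map g).sum - ∑ T ∈ 𝓑, half ((s.map (lam T)).sum) := by
      rw [hc2, Multiset.sum_map_sub]
      congr 1
      rw [Multiset.sum_map_sum]
      refine sum_congr rfl fun T _ => ?_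
      rw [map_multiset_sum, Multiset.map_map]
      rfl
    rw [h3] at he
    exact sub_eq_zero.mp he

/-- If all the distributions modulo 2 which can occur vanish at the relation, so does `g`. -/
theorem sum_zero_of_fam {m : ℕ} [NeZero m] {S : Finset ℕ} [hnz : ∀ i : Ix S, NeZero (nn S i)]
    (hS : ∀ x ∈ S, (x.Prime ∧ x % 2 = 1) ∨ x = 4) {k m0 : ℕ} [NeZero m0]
    (hm0 : ∏ i, nn S i = m0) (hk : k * m0 = m) (hred : Red m m0 k)
    (E : (∀ i, ZMod (nn S i)) ≃+* ZMod m0) {s : Multiset (ZMod m)}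
    (hs : Rel (fun a : ZMod m => ((s.count a : ℕ) : ℤ)))
    {g : ZMod m → AddCircle (1 : ℚ)} (hg : OddDist g)
    (h : ∀ T : Finset (Ix S), Even T.card → T.Nonempty →
      ¬ Zr (cyc (nn S)) T (fun x => g (iota k (E (emb x)))) →
      ∃ lam : ZMod m → ZMod 2, OddDist lam ∧
        (∃ b, Lam (cyc (nn S)) T b (fun x => lam (iota k (E (emb x))))) ∧
        (s.map lam).sum = 0) : (s.map g).sum = 0 := by
  classical
  have hex : ∀ T : Finset (Ix S), ∃ lam : ZMod m → ZMod 2, Even T.card → T.Nonempty →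
      ¬ Zr (cyc (nn S)) T (fun x => g (iota k (E (emb x)))) → OddDist lam ∧
        (∃ b, Lam (cyc (nn S)) T b (fun x => lam (iota k (E (emb x))))) ∧
        (s.map lam).sum = 0 := by
    intro T
    by_cases h1 : Even T.card ∧ T.Nonempty ∧ ¬ Zr (cyc (nn S)) T (fun x => g (iota k (E (emb x))))
    · obtain ⟨lam, h2⟩ := h T h1.1 h1.2.1 h1.2.2
      exact ⟨lam, fun _ _ _ => h2⟩
    · exact ⟨0, fun h2 h3 h4 => absurd ⟨h2, h3, h4⟩ h1⟩
  choose lam hlam using hex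
  obtain ⟨𝓑, h1, -, h2⟩ := split_sum hS hm0 hk hred E hs hg lam (fun T h3 h4 h5 =>
    ⟨(hlam T h3 h4 h5).1, (hlam T h3 h4 h5).2.1⟩)
  rw [h2]
  apply sum_eq_zero
  intro T hT
  rw [(hlam T (h1 T hT).1 (h1 T hT).2.1 (h1 T hT).2.2).2.2, map_zero]

/-- The same with one exceptional minimal set. -/
theorem sum_of_fam {m : ℕ} [NeZero m] {S : Finset ℕ} [hnz : ∀ i : Ix S, NeZero (nn S i)]
    (hS : ∀ x ∈ S, (x.Prime ∧ x % 2 = 1) ∨ x = 4) {k m0 : ℕ} [NeZero m0]
    (hm0 : ∏ i, nn S i = m0) (hk : k * m0 = m) (hred : Red m m0 k)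
    (E : (∀ i, ZMod (nn S i)) ≃+* ZMod m0) {s : Multiset (ZMod m)}
    (hs : Rel (fun a : ZMod m => ((s.count a : ℕ) : ℤ)))
    {g : ZMod m → AddCircle (1 : ℚ)} (hg : OddDist g) {T1 : Finset (Ix S)}
    (he1 : Even T1.card) (hz1 : ¬ Zr (cyc (nn S)) T1 (fun x => g (iota k (E (emb x)))))
    (hmin : ∀ T' ⊂ T1, Even T'.card → Zr (cyc (nn S)) T' (fun x => g (iota k (E (emb x)))))
    {lam1 : ZMod m → ZMod 2} (hl1 : OddDist lam1)
    (hL1 : ∃ b, Lam (cyc (nn S)) T1 b (fun x => lam1 (iota k (E (emb x)))))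
    (h : ∀ T : Finset (Ix S), Even T.card → T.Nonempty → T ≠ T1 →
      ¬ Zr (cyc (nn S)) T (fun x => g (iota k (E (emb x)))) →
      ∃ lam : ZMod m → ZMod 2, OddDist lam ∧
        (∃ b, Lam (cyc (nn S)) T b (fun x => lam (iota k (E (emb x))))) ∧
        (s.map lam).sum = 0) : (s.map g).sum = half ((s.map lam1).sum) := by
  classical
  have hex : ∀ T : Finset (Ix S), ∃ lam : ZMod m → ZMod 2, Even T.card → T.Nonempty →
      ¬ Zr (cyc (nn S)) T (fun x => g (iota k (E (emb x)))) → OddDist lam ∧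
        (∃ b, Lam (cyc (nn S)) T b (fun x => lam (iota k (E (emb x))))) ∧
        (T ≠ T1 → (s.map lam).sum = 0) ∧ (T = T1 → lam = lam1) := by
    intro T
    by_cases h1 : Even T.card ∧ T.Nonempty ∧ ¬ Zr (cyc (nn S)) T (fun x => g (iota k (E (emb x))))
    · by_cases hT : T = T1
      · subst hT
        exact ⟨lam1, fun _ _ _ => ⟨hl1, hL1, fun h => absurd rfl h, fun _ => rfl⟩⟩
      · obtain ⟨lam, h2, h3, h4⟩ := h T h1.1 h1.2.1 hT h1.2.2
        exact ⟨lam, fun _ _ _ => ⟨h2, h3, fun _ => h4, fun h => absurd h hT⟩⟩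
    · exact ⟨0, fun h2 h3 h4 => absurd ⟨h2, h3, h4⟩ h1⟩
  choose lam hlam using hex
  obtain ⟨𝓑, h1, h2, h3⟩ := split_sum hS hm0 hk hred E hs hg lam (fun T h3 h4 h5 =>
    ⟨(hlam T h3 h4 h5).1, (hlam T h3 h4 h5).2.1⟩)
  have hT1 := h2 T1 he1 hz1 hmin
  rw [h3, sum_eq_single T1]
  · rw [(hlam T1 (h1 T1 hT1).1 (h1 T1 hT1).2.1 (h1 T1 hT1).2.2).2.2.2 rfl]
  · intro T hT hne
    rw [(hlam T (h1 T hT).1 (h1 T hT).2.1 (h1 T hT).2.2).2.2.1 hne, map_zero]
  · intro h; exact absurd hT1 h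

end Pool.Agent.LB
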