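import Pool.Agent.LB.Defs

/-!
The tensor system is a distribution of type `(-1) ^ |S|` and no image (helper475).
-/

set_option linter.unusedSectionVars false

namespace Pool.Agent.LB

open Finset Pool.Agent.N993 Dat

variable {ι : Type} [DecidableEq ι] {D : Dat ι}

lemma ten_none {S : Finset ι} {b : D.GG} {x : D.Pt} {i : ι} (hi : i ∈ S) (h : x i = none) :
    ten D S b x = 0 := by
  unfold ten
  apply prod_eq_zero hi
  rw [h]
  simp

lemma ten_act_c (S : Finset ι) (b : D.GG) (x : D.Pt) :
    ten D S b (D.act D.c x) = (-1) ^ S.card * ten D S b x := by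
  unfold ten
  rw [← prod_const, ← prod_mul_distrib]
  refine prod_congr rfl fun i _ => ?_
  cases hx : x i with
  | none => rw [act_apply_none hx]; simp
  | some u =>
    rw [act_apply_some hx]
    have h1 : (some (D.c i * u) = some (b i)) ↔ (some u = some (D.c i * b i)) := by
      rw [Option.some_inj, Option.some_inj]
      constructor
      · intro h
        rw [← h, ← mul_assoc, D.hc, one_mul]
      · intro h
        rw [h, ← mul_assoc, D.hc, one_mul]
    have h2 : (some (D.c i * u) = some (D.c i * b i)) ↔ (some u = some (b i)) := by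
      rw [Option.some_inj, Option.some_inj]
      exact mul_right_inj _
    simp only [h1, h2]
    ring

lemma ten_insert {S : Finset ι} {i : ι} (hi : i ∉ S) (b : D.GG) (x : D.Pt) :
    ten D (insert i S) b x = ((if x i = some (b i) then 1 else 0) -
      (if x i = some (D.c i * b i) then 1 else 0)) * ten D S b x := by
  unfold ten
  rw [prod_insert hi]

lemma ten_update {S : Finset ι} {i : ι} (hi : i ∉ S) (b : D.GG) (x : D.Pt)
    (v : Option (D.G i)) : ten D S b (Function.update x i v) = ten D S b x := by
  unfold ten
  refine prod_congr rfl fun j hj => ?_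
  rw [Function.update_of_ne (by rintro rfl; exact hi hj)]

lemma ten_sum {S : Finset ι} {i : ι} (hi : i ∈ S) (b : D.GG) (x : D.Pt) :
    ∑ u : D.G i, ten D S b (Function.update x i (some u)) = 0 := by
  have h1 : ∀ u : D.G i, ten D S b (Function.update x i (some u)) =
      ((if u = b i then 1 else 0) - (if u = D.c i * b i then 1 else 0)) *
        ten D (S.erase i) b x := by
    intro u
    conv_lhs => rw [← insert_erase hi]
    rw [ten_insert (notMem_erase i S), ten_update (notMem_erase i S), Function.update_self]
    simp only [Option.some_inj]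
  rw [sum_congr rfl fun u _ => h1 u, ← sum_mul, sum_sub_distrib, sum_ite_eq', sum_ite_eq',
    if_pos (mem_univ _), if_pos (mem_univ _), sub_self, zero_mul]

lemma ten_isD (S : Finset ι) (b : D.GG) : D.IsD S (ten D S b) := by
  intro i hi x hx h0
  rw [ten_sum hi, ten_none hi (act_apply_none h0), ten_none hi (act_apply_none h0)]
  simp

lemma ten_ty (S : Finset ι) (b : D.GG) : D.Ty ((-1) ^ S.card) S (ten D S b) := by
  intro x _
  rw [T_apply, triv_int, ten_act_c, smul_eq_mul]

theorem ten_not_img (hfree : ∀ i, D.c i ≠ 1) (S : Finset ι) (b : D.GG) :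
    ¬ D.Img ((-1) ^ S.card) S (ten D S b) := by
  induction S using Finset.induction_on with
  | empty =>
    rintro ⟨g, _, hg⟩
    have h1 := hg (fun _ => none) (fun _ _ => rfl)
    have h2 : D.act D.c (fun _ => none) = (fun _ => none : D.Pt) := funext fun i =>
      act_apply_none rfl
    rw [Pi.add_apply, Pi.smul_apply, T_apply, triv_int, h2] at h1
    unfold ten at h1
    rw [prod_empty, card_empty, pow_zero, one_smul] at h1
    omega
  | insert i S hi ih =>
    set θ : ℤ := (-1) ^ (insert i S).card with hθdef
    have hcard : θ = -(-1) ^ S.card := by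
      rw [hθdef, card_insert_of_notMem hi, pow_succ]
      ring
    have hsq : ((-1 : ℤ) ^ S.card) * (-1) ^ S.card = 1 := by
      rw [← mul_pow]
      norm_num
    have hθ : θ * θ = 1 := by
      rw [hcard, neg_mul_neg, hsq]
    let g1 : D.Pt → D.Ind i ℤ := fun x => ⟨fun u => ten D S b x * (if u = b i then 1 else 0)⟩
    have hg1e : ∀ x u, (g1 x).ev u = ten D S b x * (if u = b i then 1 else 0) := fun _ _ => rfl
    have hg1 : D.IsD S g1 := by
      intro j hj x hx h0
      apply Ind.ext
      funext u
      rw [ind_sum, ind_sub, ind_smul, ind_smul, triv_int, triv_int]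
      simp only [hg1e]
      rw [← sum_mul, ten_sum hj, ten_none hj (act_apply_none h0),
        ten_none hj (act_apply_none h0)]
      ring
    have hg1' : D.EqS S (D.un i (ten D (insert i S) b)) (g1 + θ • D.T D.c g1) := by
      intro x hx
      apply Ind.ext
      funext u
      rw [un_ev, Pi.add_apply, ind_add, Pi.smul_apply, ind_zsmul, T_apply, ind_smul, triv_int,
        hg1e, hg1e, ten_insert hi, ten_update hi, Function.update_self, ten_act_c, smul_eq_mul,
        hcard]
      have h1 : (D.c i * u = b i) ↔ (u = D.c i * b i) := by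
        constructor
        · intro h
          rw [← h, ← mul_assoc, D.hc, one_mul]
        · intro h
          rw [h, ← mul_assoc, D.hc, one_mul]
      simp only [Option.some_inj, h1]
      linear_combination (ten D S b x * (if u = D.c i * b i then 1 else 0)) * hsq
    have hg0' : D.EqS S (ten D (insert i S) b) ((0 : D.Pt → ℤ) + θ • D.T D.c (0 : D.Pt → ℤ)) := by
      intro x hx
      rw [T_zero, smul_zero, add_zero, Pi.zero_apply]
      exact ten_none (mem_insert_self i S) (hx i hi)
    rw [img_iff hfree hi hθ IsD.zero hg0' hg1 hg1']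
    have h1 : dlt i 0 g1 = ten D S b := by
      funext x
      unfold dlt
      rw [T_zero, T_zero, sub_zero, Pi.sub_apply, Pi.zero_apply, sub_zero]
      show D.nrm i (g1 x) = _
      rw [nrm_apply]
      simp only [hg1e]
      rw [← mul_sum, sum_ite_eq', if_pos (mem_univ _), mul_one]
    have h2 : -θ = (-1) ^ S.card := by rw [hcard, neg_neg]
    rw [h1, h2]
    exact ih

theorem ten_spec (hfree : ∀ i, D.c i ≠ 1) (S : Finset ι) (b : D.GG) :
    D.IsD S (ten D S b) ∧ D.Ty ((-1) ^ S.card) S (ten D S b) ∧
      ¬ D.Img ((-1) ^ S.card) S (ten D S b) :=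
  ⟨ten_isD S b, ten_ty S b, ten_not_img hfree S b⟩

end Pool.Agent.LB
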