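import Pool.Agent.LB.Defs

/-!
Uniqueness modulo images of a class whose restrictions to the proper subsets are images.
-/

set_option linter.unusedSectionVars false

namespace Pool.Agent.LB

open Finset Pool.Agent.N993 Pool.Agent.N993.Dat

variable {ι : Type} [DecidableEq ι] {D : Dat ι}

lemma dlt_sub (i : ι) (g0 g0' : D.Pt → ℤ) (g1 g1' : D.Pt → D.Ind i ℤ) :
    dlt i g0 g1 - dlt i g0' g1' = dlt i (g0 - g0') (g1 - g1') := by
  funext x
  rw [Pi.sub_apply]
  unfold dlt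
  simp only [Pi.sub_apply, T_sub, map_sub]
  ring

theorem uniq (hfree : ∀ i, D.c i ≠ 1) (S : Finset ι) : ∀ (θ : ℤ) (_ : θ = (-1) ^ S.card)
    (f1 f2 : D.Pt → ℤ) (_ : D.IsD S f1) (_ : D.Ty θ S f1) (_ : D.IsD S f2) (_ : D.Ty θ S f2)
    (_ : ∀ T ⊂ S, θ = (-1) ^ T.card → D.Img θ T f1)
    (_ : ∀ T ⊂ S, θ = (-1) ^ T.card → D.Img θ T f2)
    (_ : ¬ D.Img θ S f1) (_ : ¬ D.Img θ S f2), D.Img θ S (f1 - f2) := by
  induction S using Finset.induction_on with
  | empty =>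
    intro θ hθ f1 f2 hd1 ht1 hd2 ht2 _ _ hn1 hn2
    have hθ2 : θ * θ = 1 := by rw [hθ]; simp
    have hx0 : ∀ x : D.Pt, D.Supp ∅ x → x = fun _ => none := by
      intro x hx
      funext i
      exact hx i (notMem_empty i)
    have key : ∀ f : D.Pt → ℤ, D.IsD ∅ f → D.Ty θ ∅ f → ¬ D.Img θ ∅ f →
        ¬ 2 ∣ f (fun _ => none) := by
      intro f hd ht hn h2
      apply hn
      refine Img.of_even hθ2 hd ht fun x hx => ?_
      rw [hx0 x hx]
      exact h2
    have h1 := key f1 hd1 ht1 hn1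
    have h2 := key f2 hd2 ht2 hn2
    refine Img.of_even hθ2 (hd1.sub hd2) (ht1.sub ht2) fun x hx => ?_
    rw [hx0 x hx, Pi.sub_apply]
    omega
  | insert i S hi ih =>
    intro θ hθ f1 f2 hd1 ht1 hd2 ht2 hT1 hT2 hn1 hn2
    have hθ2 : θ * θ = 1 := by
      rw [hθ, ← mul_pow]
      simp
    have hparS : -θ = (-1) ^ S.card := by
      rw [hθ, card_insert_of_notMem hi, pow_succ]
      ring
    have hss : S ⊂ insert i S := ssubset_insert hi
    have key : ∀ f : D.Pt → ℤ, D.IsD (insert i S) f → D.Ty θ (insert i S) f →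
        (∀ T ⊂ insert i S, θ = (-1) ^ T.card → D.Img θ T f) → ¬ D.Img θ (insert i S) f →
        ∃ (g0 : D.Pt → ℤ) (g1 : D.Pt → D.Ind i ℤ), D.IsD S g0 ∧
          D.EqS S f (g0 + θ • D.T D.c g0) ∧ D.IsD S g1 ∧
          D.EqS S (D.un i f) (g1 + θ • D.T D.c g1) ∧ D.IsD S (dlt i g0 g1) ∧
          D.Ty (-θ) S (dlt i g0 g1) ∧
          (∀ T ⊂ S, -θ = (-1) ^ T.card → D.Img (-θ) T (dlt i g0 g1)) ∧
          ¬ D.Img (-θ) S (dlt i g0 g1) := by
      intro f hd ht hT hn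
      obtain ⟨g0, hg0, hg0'⟩ := detect hfree S θ hθ2 f (hd.mono (subset_insert _ _))
        (ht.mono (subset_insert _ _)) (fun T hTS hpar => hT T (lt_of_le_of_lt hTS hss) hpar)
      obtain ⟨g1, hg1, hg1'⟩ := tt hfree S (D.Ind i ℤ) (hT_ind i (hfree i)) θ hθ2 (D.un i f)
        (hd.un hi) ht.un
      refine ⟨g0, g1, hg0, hg0', hg1, hg1', dlt_isD hg0 hg1, dlt_ty hi hθ2 hd hg0' hg1', ?_, ?_⟩
      · intro T hTS hpar
        have hTS' : T ⊆ S := hTS.subset
        have hiT : i ∉ T := fun h => hi (hTS' h)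
        refine img_dlt hfree hiT hθ2 (hg0.mono hTS') (hg0'.mono hTS') (hg1.mono hTS')
          (hg1'.mono hTS') (hT _ ?_ ?_)
        · refine ⟨insert_subset_insert _ hTS', fun h => hTS.2 fun j hj => ?_⟩
          rcases mem_insert.mp (h (mem_insert_of_mem hj)) with rfl | h'
          · exact absurd hj hi
          · exact h'
        · rw [card_insert_of_notMem hiT, pow_succ, ← hpar]
          ring
      · rw [← img_iff hfree hi hθ2 hg0 hg0' hg1 hg1']
        exact hn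
    obtain ⟨g0, g1, a1, a2, a3, a4, a5, a6, a7, a8⟩ := key f1 hd1 ht1 hT1 hn1
    obtain ⟨k0, k1, b1, b2, b3, b4, b5, b6, b7, b8⟩ := key f2 hd2 ht2 hT2 hn2
    have h1 := ih (-θ) hparS _ _ a5 a6 b5 b6 a7 b7 a8 b8
    rw [dlt_sub] at h1
    refine (img_iff hfree hi hθ2 (a1.sub b1) ?_ (a3.sub b3) ?_).2 h1
    · refine (a2.sub b2).trans (EqS.of_eq ?_)
      rw [T_sub, smul_sub]
      abel
    · have h2 : D.un i (f1 - f2) = D.un i f1 - D.un i f2 := by
        funext x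
        apply Ind.ext
        funext u
        rfl
      rw [h2]
      refine (a4.sub b4).trans (EqS.of_eq ?_)
      rw [T_sub, smul_sub]
      abel

end Pool.Agent.LB
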