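import Pool.Agent.LB.Main
import Pool.Agent.LB.LamEx
import Pool.Agent.LB.Decomp
import Pool.Agent.LB.Uniq
import Pool.Agent.LB.Ten
import Pool.Agent.LB.Num
import Pool.Agent.LB.Pig
import Pool.Agent.LB.Cok
import Pool.Agent.LB.Rho
import Pool.Agent.N993.ThreeP

/-!
The length bound.
-/

set_option linter.unusedSectionVars false

namespace Pool.Agent.LB

open Finset Pool.Agent.N993 Pool.Agent.H916R2 Pool.Agent.N992

theorem decompStmt : DecompStmt := by
  intro ι _ _ D hfree f hf hfo b lam hlam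
  exact decomp' hfree (fun S => uniq hfree S) (fun S b => ten_spec hfree S b) ⟨hf, hfo⟩ b lam hlam

theorem rhoStmt : RhoStmt := by
  intro m m0 k _ _ hodd hk hp
  obtain ⟨ρ, h1, h2⟩ := exists_rho hodd hk hp
  exact ⟨ρ, h1, fun A _ hA c hc => h2 A hA c hc⟩

/-- the class of a set with many zeros -/
theorem avoid_one {S : Finset ℕ} [∀ i : Ix S, NeZero (nn S i)]
    (hS : ∀ x ∈ S, x.Prime ∧ x % 2 = 1) {r : ℕ} (T : Finset (Ix S))
    (h : ∀ P : Finset (Ix S), T ⊆ P → r * (2 ^ P.card * T.card.ascFactorial (P.card - T.card)) <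
      ∏ i ∈ P, (2 * ((i : ℕ) / 2)))
    (X : Multiset (cyc (nn S)).Pt) (hX : Multiset.card X ≤ r) :
    ∃ (b : (cyc (nn S)).GG) (lam : (cyc (nn S)).Pt → ZMod 2), Lam (cyc (nn S)) T b lam ∧
      ∀ y ∈ X, lam y = 0 := by
  classical
  have hn : ∀ i : Ix S, (nn S i).Prime ∧ nn S i % 2 = 1 := fun i => hS i i.2
  have hn' : Adm' (nn S) := fun i => Or.inl (hn i)
  have hfree : ∀ i : Ix S, (cyc (nn S)).c i ≠ 1 := fun i => neg_one_ne_one (hn' i)
  have hβ : ∀ i : Ix S, (cyc (nn S)).β i = 1 := fun i =>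
    beta_one (not_four_of_prime (hn i).1)
  obtain ⟨lam, h1, h2⟩ := exists_lam (D := cyc (nn S)) num_ineq hfree hβ T
  have hcard : ∀ i : Ix S, Fintype.card ((cyc (nn S)).G i) = 2 * ((i : ℕ) / 2) := by
    intro i
    have e1 : Fintype.card ((cyc (nn S)).G i) = Nat.totient (nn S i) := ZMod.card_units_eq_totient _
    rw [e1, Nat.totient_prime (hn i).1]
    have := (hn i).2
    change (i : ℕ) - 1 = _
    have e2 : (i : ℕ) % 2 = 1 := this
    omega
  obtain ⟨g, hg⟩ := exists_translate (D := cyc (nn S)) lam X r hX (by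
    intro x _
    simp only [hcard]
    by_cases hT : T ⊆ spt (cyc (nn S)) x
    · exact lt_of_le_of_lt (Nat.mul_le_mul_left r (h2 _ hT)) (h _ hT)
    · have e1 : (univ.filter (fun y => spt (cyc (nn S)) y = spt (cyc (nn S)) x ∧ lam y ≠ 0)).card = 0 := by
        rw [card_eq_zero, filter_eq_empty_iff]
        intro y _ hy
        obtain ⟨i, hi, hi'⟩ := not_subset.mp hT
        apply hy.2
        apply h1.zero
        refine ⟨i, hi, ?_⟩
        rw [← notMem_spt, hy.1]
        exact hi'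
      rw [e1, mul_zero]
      apply Nat.pos_of_ne_zero
      rw [prod_ne_zero_iff]
      intro i _
      have e2 := (hn i).1.two_le
      have e3 : 2 ≤ (i : ℕ) := e2
      have : 0 < (i : ℕ) / 2 := Nat.div_pos e3 (by norm_num)
      omega)
  exact ⟨g⁻¹ * 1, fun x => lam ((cyc (nn S)).act g x), h1.translate g, hg⟩

end Pool.Agent.LB
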