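import Pool.Agent.LB.Num14

/-!
Hodge characters with at most 14 entries, degrees not divisible by 6.
-/

set_option linter.unusedSectionVars false

namespace Pool.Agent.LB

open Finset Pool.Agent.N993 Pool.Agent.H916R2 Pool.Agent.N992

lemma addOrderOf_iota {l m0 m : ℕ} [NeZero m0] [NeZero m] (h : l * m0 = m) (b : ZMod m0) :
    addOrderOf (iota l b : ZMod m) = addOrderOf b := by
  have hl : 0 < l := Nat.pos_of_ne_zero (by rintro rfl; simp at h; exact NeZero.ne m h.symm)
  have h1 := ZMod.addOrderOf_coe (l * b.val) (NeZero.ne m)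
  have h2 := ZMod.addOrderOf_coe b.val (NeZero.ne m0)
  have h3 : (iota l b : ZMod m) = ((l * b.val : ℕ) : ZMod m) := rfl
  rw [ZMod.natCast_zmod_val] at h2
  rw [h3, h1, h2, ← h, Nat.gcd_mul_left, Nat.mul_div_mul_left _ _ hl]

lemma BadPair.ne {q a : ℕ} (h : BadPair q a) : a ≠ q := by
  rintro rfl
  exact h.2.2.2.2.2.2.2 ⟨0, by rw [ZMod.natCast_self, mul_zero]⟩

lemma phiO_ne {p m : ℕ} {a : ZMod m} (h : phiO {p} m a ≠ 0) :
    addOrderOf a % 2 = 1 ∧ (addOrderOf a).primeFactors = {p} := by
  by_contra hno
  apply h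
  unfold phiO
  rw [if_neg hno]

lemma not_sub_opf {T : Finset ℕ} (h4 : 4 ∈ T) (d : ℕ) : ¬ T ⊆ opf d := by
  intro h
  have h1 := h h4
  unfold opf at h1
  exact absurd (Nat.prime_of_mem_primeFactors (mem_of_mem_erase h1)) (by norm_num)

/-- odd degrees -/
theorem kill14_odd {m : ℕ} [NeZero m] (hm : m % 2 = 1) {s : Multiset (ZMod m)}
    (hs : IsHodge m s) (hc : Multiset.card s ≤ 14) : Kill m s := by
  classical
  have hNZ : NeZero (8 * m) := ⟨mul_ne_zero (by norm_num) (NeZero.ne m)⟩
  apply kill_down (e := 8) (by norm_num)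
  have hodd : ∀ a ∈ s.map (iota 8 : ZMod m → ZMod (8 * m)), addOrderOf a % 2 = 1 := by
    intro a ha
    obtain ⟨b, _, rfl⟩ := Multiset.mem_map.mp ha
    rw [addOrderOf_iota rfl]
    by_contra h
    have h1 : 2 ∣ addOrderOf b := by omega
    have h2 : 2 ∣ m := h1.trans (order_dvd b)
    omega
  refine kill_phi (p := 29) (by norm_num) (by norm_num) (by norm_num) (by norm_num) (by norm_num)
    (T0 := {3, 29}) (by decide) phiNot_29_3 (dvd_mul_right 8 m) (r := 14)
    (by rw [Multiset.card_map]; exact hc) (hs.iota rfl).rel ?_ ?_ ?_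
  · intro T hT hTc hTT a ha
    unfold Dens
    rw [lev_zero (hodd a ha)]
    have hP := opf_prop (order_dvd a)
    refine prb_pt0 hP (by rcases hTc with h | h <;> omega) ?_
    intro hTP
    have hA := Nat.factorial_pos ((opf (addOrderOf a)).card - 1)
    rcases hTc with h4 | ⟨h2, hE⟩
    · have h5 := four_bound hP (h4.trans (card_le_card hTP))
      have h6 : 6 ≤ (T.card - 1).factorial := by
        have : Nat.factorial 3 ≤ (T.card - 1).factorial := Nat.factorial_le (by omega)
        simpa [Nat.factorial] using this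
      have h7 := Nat.mul_le_mul_right (hh (opf (addOrderOf a))) h6
      omega
    · rw [h2]
      norm_num
      rcases hE with ⟨q, a', rfl, hb⟩ | ⟨q, rfl, _⟩
      · have hq : q ∈ opf (addOrderOf a) := hTP (mem_insert_self _ _)
        have ha' : a' ∈ opf (addOrderOf a) := hTP (mem_insert_of_mem (mem_singleton_self _))
        rcases badPair_29 hb with h | ⟨rfl, h | h⟩
        · have h5 := one_bound hP hq
          have h6 : 18 * ((opf (addOrderOf a)).card - 1).factorial ≤
              (q - 1) / 2 * ((opf (addOrderOf a)).card - 1).factorial :=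
            Nat.mul_le_mul_right _ (by omega)
          omega
        · exact absurd (by rw [h, pair_comm]) hTT
        · refine two_bound hP hq ha' hb.ne ?_
          have : 28 * 10 ≤ 28 * (a' - 1) := Nat.mul_le_mul_left _ (by omega)
          omega
      · exact absurd hTP (not_sub_opf (mem_insert_self _ _) _)
  · intro a ha
    rw [lev_zero (hodd a ha)]
    have hP := opf_prop (order_dvd a)
    unfold prb
    rw [if_pos rfl]
    by_cases hTP : ({3, 29} : Finset ℕ) ⊆ opf (addOrderOf a)
    · rw [if_pos hTP]
      have h29 : 29 ∈ opf (addOrderOf a) := hTP (by decide)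
      have h5 := one_bound hP h29
      have hc2 : ({3, 29} : Finset ℕ).card = 2 := by decide
      have hcard := card_le_card hTP
      have e4 := asc_fac (t := 2) (p := (opf (addOrderOf a)).card) (by omega) (by omega)
      have m3 := asc_mono (show sz {3, 29} ≤ 2 by decide) ((opf (addOrderOf a)).card - 2)
      rw [hc2]
      norm_num at e4 h5
      omega
    · rw [if_neg hTP]
      omega
  · intro a ha hphi
    obtain ⟨h1, h2⟩ := phiO_ne hphi
    rw [lev_zero h1]
    apply prb_zero
    intro h
    have h3 : 3 ∈ opf (addOrderOf a) := h (by decide)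
    unfold opf at h3
    rw [h2] at h3
    revert h3
    decide

lemma four_bound3 {m : ℕ} {P : Finset ℕ} (hP : ∀ p ∈ P, p.Prime ∧ p ≠ 2 ∧ p ∣ m) (h3 : ¬ 3 ∣ m)
    (hc : 3 ≤ P.card) : 5 * P.card.factorial ≤ hh P := by
  have h5 := Cok.prod_ge4 1 (by norm_num) (fun p : ℕ => (p - 1) / 2) P
    (fun p hp => (half_pos' hP hp).2.2 h3) (half_inj hP) (fun p hp => (half_pos' hP hp).2.1)
    (by omega)
  have h8 : 1 + P.card + 1 = (P.card + 1) + 1 := by omega
  rw [h8, Nat.factorial_succ, Nat.factorial_succ] at h5
  simp only [Nat.factorial_one, mul_one] at h5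
  rw [← hh_eq hP] at h5
  have h9 : 5 * (4 * P.card.factorial) ≤ 4 * hh P := by
    refine le_trans ?_ h5
    refine Nat.mul_le_mul (by omega) (Nat.mul_le_mul_right _ (by omega))
  omega

/-- degrees not divisible by 3 -/
theorem kill14_no3 {m : ℕ} [NeZero m] (hm : ¬ 3 ∣ m) {s : Multiset (ZMod m)}
    (hs : IsHodge m s) (hc : Multiset.card s ≤ 14) : Kill m s := by
  classical
  have hNZ : NeZero (8 * m) := ⟨mul_ne_zero (by norm_num) (NeZero.ne m)⟩
  have h3 : ¬ 3 ∣ 8 * m := by
    intro h
    have h1 : Nat.Coprime 3 8 := by norm_num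
    exact hm (h1.dvd_of_dvd_mul_left h)
  apply kill_down (e := 8) (by norm_num)
  refine kill_phi (p := 29) (by norm_num) (by norm_num) (by norm_num) (by norm_num) (by norm_num)
    (T0 := {4, 29}) (by decide) phiNot_29_4 (dvd_mul_right 8 m) (r := 14)
    (by rw [Multiset.card_map]; exact hc) (hs.iota rfl).rel ?_ ?_ ?_
  · intro T hT hTc hTT a ha
    unfold Dens
    have hP := opf_prop (order_dvd a)
    have hA := Nat.factorial_pos (opf (addOrderOf a)).card
    refine prb_pt hP ?_ _
    rcases hTc with h4 | ⟨h2, hE⟩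
    · left
      refine ⟨h4, fun h => ?_⟩
      have h5 := four_bound3 hP h3 h
      omega
    · right
      refine ⟨h2, ?_⟩
      rcases hE with ⟨q, a', hTe, hb⟩ | ⟨q, hTe, hq8, hq5, hq13⟩
      · left
        refine ⟨q, a', hTe, hb, fun hTP => ?_⟩
        have hq : q ∈ opf (addOrderOf a) := hTP (by rw [hTe]; exact mem_insert_self _ _)
        have ha' : a' ∈ opf (addOrderOf a) :=
          hTP (by rw [hTe]; exact mem_insert_of_mem (mem_singleton_self _))
        rcases badPair_29 hb with h | ⟨rfl, h | h⟩
        · have h5 := one_bound3 hP h3 hq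
          have h6 : 18 * (opf (addOrderOf a)).card.factorial ≤
              (q - 1) / 2 * (opf (addOrderOf a)).card.factorial :=
            Nat.mul_le_mul_right _ (by omega)
          omega
        · exfalso
          rw [h] at ha'
          exact h3 (hP 3 ha').2.2
        · have h5 := two_bound3 hP h3 hq ha' hb.ne h
          norm_num at h5
          exact h5
      · right
        refine ⟨q, hTe, by omega, fun hqP => ?_⟩
        have h37 : 37 ≤ q := by
          by_contra h2
          push Not at h2
          have h4 := (hP q hqP).1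
          have h6 : q = 21 ∨ q = 29 := by omega
          rcases h6 with h6 | h6
          · rw [h6] at h4
            exact absurd h4 (by norm_num)
          · exact hTT (by rw [hTe, h6])
        have h5 := one_bound3 hP h3 hqP
        have h6 : 18 * (opf (addOrderOf a)).card.factorial ≤
            (q - 1) / 2 * (opf (addOrderOf a)).card.factorial :=
          Nat.mul_le_mul_right _ (by omega)
        have h7 : 1 ≤ (opf (addOrderOf a)).card := card_pos.mpr ⟨q, hqP⟩
        have h8 : 1 * hh (opf (addOrderOf a)) ≤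
            min 2 (opf (addOrderOf a)).card * hh (opf (addOrderOf a)) :=
          Nat.mul_le_mul_right _ (by omega)
        omega
  · intro a ha
    have hP := opf_prop (order_dvd a)
    have hnP := not_sub_opf (T := {4, 29}) (by decide) (addOrderOf a)
    have hT4 : 4 ∈ ({4, 29} : Finset ℕ) := by decide
    have hTe : ({4, 29} : Finset ℕ).erase 4 = {29} := by decide
    have hsz : sz {4, 29} = 2 := by decide
    have hc2 : ({4, 29} : Finset ℕ).card = 2 := by decide
    unfold prb
    rw [if_neg hnP, if_pos hT4, hTe, hsz, hc2, if_neg hnP]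
    by_cases hTP : ({29} : Finset ℕ) ⊆ opf (addOrderOf a)
    · have h29 : 29 ∈ opf (addOrderOf a) := hTP (by decide)
      have h5 := one_bound hP h29
      have h6 := one_bound3 hP h3 h29
      have h1 : 1 ≤ (opf (addOrderOf a)).card := card_pos.mpr ⟨29, h29⟩
      have e4 := asc_fac (t := 2) (p := (opf (addOrderOf a)).card + 1) (by omega) (by omega)
      have e5 := asc_fac (t := 1) (p := (opf (addOrderOf a)).card) (by omega) (by omega)
      have e6 : (opf (addOrderOf a)).card + 1 - 2 = (opf (addOrderOf a)).card - 1 := by omega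
      rw [Nat.add_sub_cancel, e6] at e4
      norm_num at e4 e5 h5 h6
      rw [if_pos hTP, if_pos hTP, e6]
      norm_num
      split_ifs <;> omega
    · rw [if_neg hTP, if_neg hTP]
      split_ifs <;> omega
  · intro a ha hphi
    obtain ⟨h1, h2⟩ := phiO_ne hphi
    rw [lev_zero h1]
    exact prb_zero (not_sub_opf (by decide) _)

/-- degrees not divisible by 6, at most 14 entries -/
theorem kill14 {m : ℕ} [NeZero m] (hm : ¬ 6 ∣ m) {s : Multiset (ZMod m)}
    (hs : IsHodge m s) (hc : Multiset.card s ≤ 14) : Kill m s := by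
  by_cases h3 : 3 ∣ m
  · have h2 : m % 2 = 1 := by
      by_contra h
      have h1 : 2 ∣ m := by omega
      have h4 : Nat.Coprime 2 3 := by norm_num
      have h5 : 2 * 3 ∣ m := h4.mul_dvd_of_dvd_of_dvd h1 h3
      exact hm h5
    exact kill14_odd h2 hs hc
  · exact kill14_no3 h3 hs hc

/-- The theorem for the degrees not divisible by 6, dimension at most 13. -/
theorem lengthBound14 (m : ℕ) [NeZero m] (hm : ¬ 6 ∣ m) :
    ∃ l : ℕ, ∃ _ : NeZero (l * m), ∀ s : Multiset (ZMod m), IsHodge m s → s ≠ 0 →
      Multiset.card s ≤ 15 →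
      Generated (l * m) (FourBase (l * m)) (s.map fun a => ((l * a.val : ℕ) : ZMod (l * m))) := by
  obtain ⟨l, hl, h⟩ := final_of_kill (m := m) (r := 14) fun s hs hc => kill14 hm hs hc
  refine ⟨l, hl, fun s hs hne hc => h s hs hne ?_⟩
  obtain ⟨c, hc'⟩ := hs.2.1
  omega

end Pool.Agent.LB
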