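import Pool.Agent.H916R2.Relations
import Pool.Agent.N997.Fiber

/-!
The distributions modulo 2 which count the elements whose order has a given set of odd primes.
-/

namespace Pool.Agent.LB

open Finset Pool.Agent.H916R2 Pool.Agent.N997

/-- `1` if the set of primes dividing the order of `a` is `A`. -/
noncomputable def cls (A : Finset ℕ) {M : ℕ} (a : ZMod M) : ZMod 2 :=
  if (addOrderOf a).primeFactors = A then 1 else 0

lemma cls_neg (A : Finset ℕ) {M : ℕ} (a : ZMod M) : cls A (-a) = cls A a := by
  unfold cls; rw [addOrderOf_neg]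

/-- the order of `p y` -/
lemma order_mul {M : ℕ} [NeZero M] {p : ℕ} (hp : p.Prime) (y : ZMod M) :
    (¬ p ∣ addOrderOf y ∧ addOrderOf ((p : ZMod M) * y) = addOrderOf y) ∨
    (p ∣ addOrderOf y ∧ p * addOrderOf ((p : ZMod M) * y) = addOrderOf y) := by
  have h1 : (p : ZMod M) * y = p • y := by rw [nsmul_eq_mul]
  by_cases h : p ∣ addOrderOf y
  · right
    refine ⟨h, ?_⟩
    rw [h1, addOrderOf_nsmul_of_dvd hp.ne_zero h]
    exact Nat.mul_div_cancel' h
  · left
    refine ⟨h, ?_⟩
    rw [h1]
    exact Nat.Coprime.addOrderOf_nsmul (((Nat.Prime.coprime_iff_not_dvd hp).mpr h).symm)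

/-- the fibre of multiplication by `p` contains at most one element of order prime to `p` -/
lemma fib_unique {M : ℕ} [NeZero M] {p : ℕ} (hp : p.Prime) {y z : ZMod M}
    (hy : ¬ p ∣ addOrderOf y) (hz : ¬ p ∣ addOrderOf z) (h : (p : ZMod M) * y = (p : ZMod M) * z) :
    y = z := by
  have h1 : p • (y - z) = 0 := by
    rw [nsmul_eq_mul, mul_sub, h, sub_self]
  have h2 : addOrderOf (y - z) ∣ p := addOrderOf_dvd_of_nsmul_eq_zero h1
  have h3 : addOrderOf (y - z) ∣ addOrderOf y * addOrderOf z := by
    apply addOrderOf_dvd_of_nsmul_eq_zero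
    rw [nsmul_sub, mul_nsmul, addOrderOf_nsmul_eq_zero, mul_nsmul', addOrderOf_nsmul_eq_zero]
    simp
  have hcop : Nat.Coprime p (addOrderOf y * addOrderOf z) :=
    Nat.Coprime.mul_right ((Nat.Prime.coprime_iff_not_dvd hp).mpr hy)
      ((Nat.Prime.coprime_iff_not_dvd hp).mpr hz)
  have h4 : addOrderOf (y - z) = 1 := Nat.eq_one_of_dvd_coprimes hcop h2 h3
  rw [AddMonoid.addOrderOf_eq_one_iff] at h4
  exact sub_eq_zero.mp h4

/-- the fibre of multiplication by `p` contains an element of order prime to `p` if possible -/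
lemma fib_exists {M : ℕ} [NeZero M] {p : ℕ} (hp : p.Prime) {a : ZMod M}
    (h : ¬ p ∣ addOrderOf ((p : ZMod M) * a)) :
    ∃ y : ZMod M, (p : ZMod M) * y = (p : ZMod M) * a ∧ ¬ p ∣ addOrderOf y := by
  set w := (p : ZMod M) * a with hw
  have hcop : Nat.Coprime p (addOrderOf w) := (Nat.Prime.coprime_iff_not_dvd hp).mpr h
  obtain ⟨u, hu⟩ : ∃ u : ℕ, p * u ≡ 1 [MOD addOrderOf w] := by
    rcases Nat.eq_or_lt_of_le (Nat.one_le_iff_ne_zero.mpr (addOrderOf_pos w).ne') with h1 | h1
    · exact ⟨0, by rw [← h1]; exact Nat.modEq_one⟩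
    · exact Nat.exists_mul_mod_eq_one_of_coprime hcop h1 |>.imp fun u hu => by
        unfold Nat.ModEq
        rw [hu.2, Nat.mod_eq_of_lt h1]
  refine ⟨u • w, ?_, ?_⟩
  · have h2 : (p * u) • w = 1 • w := by
      rw [nsmul_eq_nsmul_iff_modEq]; exact hu
    rw [one_nsmul, nsmul_eq_mul] at h2
    rw [nsmul_eq_mul]
    push_cast at h2
    rw [← mul_assoc]
    exact h2
  · intro h2
    apply h
    exact h2.trans (addOrderOf_dvd_of_mem_zmultiples (AddSubgroup.nsmul_mem_zmultiples w u))

lemma odd_nsmul_two {n : ℕ} (hn : n % 2 = 1) (a : ZMod 2) : n • a = a := by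
  rw [nsmul_eq_mul]
  have : ((n : ℕ) : ZMod 2) = 1 := by
    rw [← Nat.cast_one, ZMod.natCast_eq_natCast_iff']
    omega
  rw [this, one_mul]

lemma card_fib {M : ℕ} [NeZero M] {p : ℕ} (hpM : p ∣ M) (a : ZMod M) :
    (fib M (p : ℤ) (((p : ℕ) : ZMod M) * a)).card = p := by
  have h := sum_fib hpM (fun _ : ZMod M => (1 : ℕ)) a
  rw [Finset.sum_const, Finset.sum_const, card_range, smul_eq_mul, smul_eq_mul, mul_one,
    mul_one] at h
  exact h

theorem cls_oddDist {A : Finset ℕ} (hA : A.Nonempty) (hA2 : 2 ∉ A) {M : ℕ} [NeZero M] :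
    OddDist (cls A : ZMod M → ZMod 2) where
  neg := fun a => by rw [cls_neg, ZModModule.neg_eq_self]
  half := fun a ha => by
    unfold cls
    rw [if_neg]
    intro h
    have h1 : addOrderOf a ∣ 2 := addOrderOf_dvd_of_nsmul_eq_zero (by rw [two_nsmul]; exact ha)
    obtain ⟨x, hx⟩ := hA
    rw [← h] at hx
    have h2 := Nat.prime_of_mem_primeFactors hx
    have h3 := (Nat.dvd_of_mem_primeFactors hx).trans h1
    have h4 := (Nat.prime_dvd_prime_iff_eq h2 Nat.prime_two).mp h3
    rw [h4, h] at hx
    exact hA2 hx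
  dist := by
    classical
    intro p d hp hpd a
    have hpM : p ∣ M := ⟨d, hpd.symm⟩
    have hd : d = M / p := by rw [← hpd, Nat.mul_div_cancel_left _ hp.pos]
    have h0 := sum_fib hpM (cls A) a
    rw [← hd] at h0
    rw [← h0]
    have hmem : ∀ y, y ∈ fib M (p : ℤ) (((p : ℕ) : ZMod M) * a) ↔
        (p : ZMod M) * y = (p : ZMod M) * a := by
      intro y
      rw [mem_fib]
      push_cast
      rfl
    have hcard : (fib M (p : ℤ) (((p : ℕ) : ZMod M) * a)).card = p := card_fib hpM a
    set w := (p : ZMod M) * a with hw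
    by_cases h : p ∣ addOrderOf w
    · -- all orders in the fibre have the same primes
      have h1 : ∀ y ∈ fib M (p : ℤ) w, cls A y = cls A w := by
        intro y hy
        rw [hmem] at hy
        unfold cls
        congr 1
        rcases order_mul hp y with ⟨h2, h3⟩ | ⟨h2, h3⟩
        · rw [hy] at h3
          rw [h3] at h
          exact absurd h h2
        · rw [hy] at h3
          rw [← h3, Nat.primeFactors_mul hp.ne_zero (addOrderOf_pos w).ne',
            hp.primeFactors, union_eq_right.mpr]
          intro x hx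
          rw [mem_singleton] at hx
          subst hx
          exact Nat.mem_primeFactors.mpr ⟨hp, h, (addOrderOf_pos w).ne'⟩
      rw [sum_congr rfl h1, sum_const, hcard]
      by_cases hp2 : p = 2
      · subst hp2
        have h2 : cls A w = 0 := by
          unfold cls
          rw [if_neg]
          intro h3
          apply hA2
          rw [← h3]
          exact Nat.mem_primeFactors.mpr ⟨hp, h, (addOrderOf_pos w).ne'⟩
        rw [h2, smul_zero]
      · exact odd_nsmul_two (hp.eq_two_or_odd.resolve_left hp2) _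
    · obtain ⟨y0, hy0, hy0'⟩ := fib_exists hp h
      have hy0m : y0 ∈ fib M (p : ℤ) w := (hmem y0).mpr hy0
      rw [← add_sum_erase _ _ hy0m]
      have h0' : cls A y0 = cls A w := by
        unfold cls
        rcases order_mul hp y0 with ⟨h2, h3⟩ | ⟨h2, h3⟩
        · rw [hy0] at h3; rw [h3]
        · exact absurd h2 hy0'
      have h1 : ∀ y ∈ (fib M (p : ℤ) w).erase y0, cls A y =
          if insert p (addOrderOf w).primeFactors = A then 1 else 0 := by
        intro y hy
        rw [mem_erase, hmem] at hy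
        unfold cls
        congr 1
        rcases order_mul hp y with ⟨h2, h3⟩ | ⟨h2, h3⟩
        · exact absurd (fib_unique hp h2 hy0' (hy.2.trans hy0.symm)) hy.1
        · rw [hy.2] at h3
          rw [← h3, Nat.primeFactors_mul hp.ne_zero (addOrderOf_pos w).ne',
            hp.primeFactors]
          rfl
      rw [sum_congr rfl h1, sum_const, card_erase_of_mem hy0m, hcard, h0']
      by_cases hp2 : p = 2
      · subst hp2
        rw [if_neg, smul_zero, add_zero]
        intro h3
        apply hA2
        rw [← h3]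
        exact mem_insert_self _ _
      · have h5 : (p - 1) % 2 = 0 := by
          have := hp.eq_two_or_odd.resolve_left hp2
          omega
        have h6 : ∀ b : ZMod 2, (p - 1) • b = 0 := by
          intro b
          rw [nsmul_eq_mul]
          have : (((p - 1 : ℕ)) : ZMod 2) = 0 := by
            rw [ZMod.natCast_eq_zero_iff]
            omega
          rw [this, zero_mul]
        rw [h6, add_zero]

/-- the class of an element does not change under the embedding of levels -/
lemma cls_iota (A : Finset ℕ) {l m0 m : ℕ} [NeZero m0] [NeZero m] (h : l * m0 = m) (b : ZMod m0) :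
    cls A (iota l b : ZMod m) = cls A b := by
  unfold cls
  congr 2
  have hl : 0 < l := Nat.pos_of_ne_zero (by rintro rfl; simp at h; exact NeZero.ne m h.symm)
  have h1 := ZMod.addOrderOf_coe (l * b.val) (NeZero.ne m)
  have h2 := ZMod.addOrderOf_coe b.val (NeZero.ne m0)
  rw [ZMod.natCast_zmod_val] at h2
  unfold iota
  rw [h1, h2, ← h, Nat.gcd_mul_left, Nat.mul_div_mul_left _ _ hl]

end Pool.Agent.LB
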