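import Pool.Agent.LB.Cyc
import Pool.Agent.LB.W0

/-!
Distributions which lift on the points supported in `T` kill the relations of the level of `T`; the
relation of level 420 which is odd on the classes of `{3, 5, 7}`, `{3, 5}` and `{5, 7}`.
-/

set_option linter.unusedSectionVars false

namespace Pool.Agent.LB

open Finset Pool.Agent.N993 Pool.Agent.H916R2 Pool.Agent.N992

section

variable {ι : Type} [Fintype ι] [LinearOrder ι] {n : ι → ℕ} [∀ i, NeZero (n i)] {N : ℕ} [NeZero N]

lemma ext_congr {Q : Type} [AddCommGroup Q] (hn : Adm' n) {T : Finset ι} {f g : (cyc n).Pt → Q}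
    (h : ∀ x, (cyc n).Supp T x → f x = g x) {a : ∀ i, ZMod (n i)} (ha : ∀ i, i ∉ T → a i = 0) :
    ext f a = ext g a := by
  have hs := supp_pt hn ha
  by_cases hf : ∃ i, n i = 4 ∧ a i = 2
  · obtain ⟨i, h4, h2⟩ := hf
    rw [ext_of_flag f h4 h2, ext_of_flag g h4 h2, h _ hs, h _ (hs.act _)]
  · rw [ext_of_not f hf, ext_of_not g hf, h _ hs]

/-- A distribution which lifts on the points supported in `T` kills the relations of that level. -/
theorem kills_of_zr_T (hn : Adm' n) (hco : Pairwise (fun i j => (n i).Coprime (n j)))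
    (hN : ∏ i, n i = N) (E : (∀ i, ZMod (n i)) ≃+* ZMod N) {c : ZMod N → AddCircle (1 : ℚ)}
    (hc : OddDist c) (T : Finset ι) {m0 l : ℕ} [NeZero m0] (hm0 : ∏ i ∈ T, n i = m0)
    (hl : l * m0 = N) (hz : Zr (cyc n) T (fun x => c (E (emb x)))) (x : ZMod m0 → ℤ)
    (hx : Rel x) : ∑ b, x b • c (iota l b) = 0 := by
  classical
  obtain ⟨h, hD, ho, hlift⟩ := hz
  have hprod : m0 * ∏ i ∈ univ \ T, n i = N := by
    rw [← hm0, ← hN, mul_comm]
    exact prod_sdiff (subset_univ T)
  have hl2 : l = ∏ i ∈ univ \ T, n i := by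
    have h1 : m0 * l = m0 * ∏ i ∈ univ \ T, n i := by rw [hprod, mul_comm]; exact hl
    exact Nat.eq_of_mul_eq_mul_left (NeZero.pos m0) h1
  have hlS : ∀ i, i ∉ T → n i ∣ l := by
    intro i hi
    rw [hl2]
    exact dvd_prod_of_mem n (mem_sdiff.mpr ⟨mem_univ _, hi⟩)
  have hlS' : ∀ i ∈ T, l.Coprime (n i) := by
    intro i hi
    rw [hl2]
    apply Nat.Coprime.prod_left
    intro j hj
    exact hco (fun h => (mem_sdiff.mp hj).2 (h ▸ hi))
  have hdist := oddDist_ext hn hco T hm0 l hlS hlS' hD ho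
  have hrat := Pool.Agent.N998.rat_zero _ hdist x hx
  set a : ZMod m0 → ∀ i, ZMod (n i) := fun b i => ((l * b.val : ℕ) : ZMod (n i)) with ha
  have hio : ∀ b : ZMod m0, (iota l b : ZMod N) = E (a b) := by
    intro b
    exact E_natCast E (l * b.val)
  have haT : ∀ b, ∀ i, i ∉ T → a b i = 0 := by
    intro b i hi
    rw [ha]
    beta_reduce
    rw [ZMod.natCast_eq_zero_iff]
    exact (hlS i hi).mul_right _
  have h1 : ∀ b : ZMod m0, c (iota l b) = prj (ext h (a b)) := by
    intro b
    rw [hio]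
    refine (c_eq_ext hn hco hN E hc (a b)).trans ?_
    rw [← ext_map]
    exact ext_congr hn (fun y hy => (hlift y hy).symm) (haT b)
  have h5 : ∀ b : ZMod m0, x b • c (iota l b) = prj ((x b : ℚ) * ext h (a b)) := by
    intro b
    rw [h1, ← map_zsmul, zsmul_eq_mul]
  simp only [h5]
  rw [← map_sum, hrat, map_zero]

end

/-- the entries of the relation of level 420 -/
def l420 : List ℕ :=
  [16, 20, 81, 89, 107, 139, 188, 196, 201, 252, 261, 277, 287, 312, 361, 376, 407]

/-- the relation of level 420 -/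
def s420 : Multiset (ZMod 420) := ((l420.map (fun a : ℕ => (a : ZMod 420)) : List (ZMod 420)) : Multiset (ZMod 420))

lemma s420_check : ∀ t : Fin 420, Nat.Coprime t.val 420 →
    (l420.map (fun a => saw (((t.val * a : ℕ) : ZMod 420)))).sum = 0 := by
  decide +kernel

lemma s420_rel : Rel (fun a : ZMod 420 => ((s420.count a : ℕ) : ℤ)) := by
  intro t
  have h4 := sum_count s420 (fun a => saw ((t : ZMod 420) * a))
  have h5 : (s420.map (fun a => saw ((t : ZMod 420) * a))).sum = 0 := by
    have h := s420_check ⟨(t : ZMod 420).val, ZMod.val_lt _⟩ (ZMod.val_coe_unit_coprime t)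
    unfold s420
    rw [Multiset.map_coe, Multiset.sum_coe, List.map_map]
    rw [← h]
    congr 1
  rw [h5] at h4
  simpa using h4

lemma cls_natCast (A : Finset ℕ) (M : ℕ) [NeZero M] (a : ℕ) :
    cls A ((a : ℕ) : ZMod M) = if (M / M.gcd a).primeFactors = A then 1 else 0 := by
  unfold cls
  rw [ZMod.addOrderOf_coe a (NeZero.ne M)]

lemma s420_cls {A : Finset ℕ} (hA : A = {3, 5, 7} ∨ A = {3, 5} ∨ A = {5, 7}) :
    (s420.map (cls A)).sum = 1 := by
  unfold s420
  rw [Multiset.map_coe, Multiset.sum_coe, List.map_map]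
  have h : (cls A : ZMod 420 → ZMod 2) ∘ (fun a : ℕ => (a : ZMod 420)) =
      fun a : ℕ => if (420 / Nat.gcd 420 a).primeFactors = A then 1 else 0 := by
    funext a
    exact cls_natCast A 420 a
  rw [h]
  rcases hA with rfl | rfl | rfl <;> decide +kernel

end Pool.Agent.LB
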