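import Pool.Agent.N993.ThreeP
import Pool.Agent.LB.W3
import Pool.Agent.LB.Decomp
import Pool.Agent.LB.Uniq
import Pool.Agent.LB.Ten

/-!
Sets of odd primes and 4 for which all relations follow from a given family of relations which contains
the modular characters.
-/

set_option linter.unusedSectionVars false

namespace Pool.Agent.LB

open Finset Pool.Agent.H916R2 Pool.Agent.N992 Pool.Agent.N993 Pool.Agent.N998

/-- A family of multisets of residues, closed under the change of the level, which contains the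
modular characters. -/
structure BaseFam (B : ∀ (N : ℕ) [NeZero N], Multiset (ZMod N) → Prop) : Prop where
  lift : ∀ {k m0 m : ℕ} [NeZero m] [NeZero m0] (_ : k * m0 = m) {s : Multiset (ZMod m0)},
    B m0 s → B m (s.map (iota k : ZMod m0 → ZMod m))
  modular : ∀ {m : ℕ} [NeZero m] {s : Multiset (ZMod m)}, ModularCharacter m s → B m s

variable {B : ∀ (N : ℕ) [NeZero N], Multiset (ZMod N) → Prop}

/-- All relations of level `∏ T` follow from the family `B` in some multiple of the level. -/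
def GoodB (B : ∀ (N : ℕ) [NeZero N], Multiset (ZMod N) → Prop) (T : Finset ℕ) : Prop :=
  ∃ l : ℕ, l ≠ 0 ∧ ∀ (k N mT : ℕ) [NeZero N] [NeZero mT], ∏ x ∈ T, x = mT → k * (l * mT) = N →
    ∀ (Q : Type) [AddCommGroup Q] (c : ZMod N → Q), OddDist c →
    (∀ s, B N s → (s.map c).sum = 0) →
    ∀ x : ZMod mT → ℤ, Rel x → ∑ b, x b • c (iota (k * l) b) = 0

lemma goodB_of_level (hB : BaseFam B) {T : Finset ℕ} {l : ℕ} (hl : l ≠ 0)
    (h : ∀ (N mT : ℕ) [NeZero N] [NeZero mT], ∏ x ∈ T, x = mT → l * mT = N →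
      ∀ (Q : Type) [AddCommGroup Q] (c : ZMod N → Q), OddDist c →
      (∀ s, B N s → (s.map c).sum = 0) →
      ∀ x : ZMod mT → ℤ, Rel x → ∑ b, x b • c (iota l b) = 0) : GoodB B T := by
  refine ⟨l, hl, ?_⟩
  intro k N mT _ _ hmT hk Q _ c hc hkill x hx
  have hNZ : NeZero (l * mT) := ⟨Nat.mul_ne_zero hl (NeZero.ne mT)⟩
  have h1 := h (l * mT) mT hmT rfl Q (fun d : ZMod (l * mT) => c (iota k d)) (hc.comp_iota hk) (by
    intro s hs
    have h2 := hkill _ (hB.lift hk hs)
    rw [Multiset.map_map] at h2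
    exact h2) x hx
  have h3 : ∀ b : ZMod mT, c (iota k (iota l b : ZMod (l * mT))) = c (iota (k * l) b) := by
    intro b
    rw [iota_comp hk]
  simp only [h3] at h1
  exact h1

/-- Adding information about subsets. -/
theorem goodB_core (hB : BaseFam B) {U S : Finset ℕ} (hU : ∀ x ∈ U, (x.Prime ∧ x % 2 = 1) ∨ x = 4) (hSU : S ⊆ U)
    (F : Finset (Finset ℕ)) (hF : ∀ T ∈ F, T ⊆ U ∧ GoodB B T)
    (hmain : ∀ (_ : ∀ i : Ix U, NeZero (nn U i)) (ν : (cyc (nn U)).Pt → ℤ),
      (cyc (nn U)).IsD univ ν → (cyc (nn U)).Ty 1 univ ν →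
      ((cyc (nn U)).small (qq U)).Img 1 univ (Dat.sm (qq U) ν) →
      (∀ T ∈ F, (cyc (nn U)).Img 1 (T.subtype (· ∈ U)) ν) →
      (cyc (nn U)).Img 1 (S.subtype (· ∈ U)) ν) : GoodB B S := by
  classical
  have hnz : ∀ i : Ix U, NeZero (nn U i) := fun i =>
    ⟨by have := one_lt_of (hU i i.2); change (i : ℕ) ≠ 0; omega⟩
  have hn : Adm' (nn U) := fun i => hU i i.2
  have hco : Pairwise (fun i j : Ix U => (nn U i).Coprime (nn U j)) := fun i j hij =>
    coprime_of (hU i i.2) (hU j j.2) (fun h => hij (Subtype.ext h))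
  have hprod : ∀ T : Finset ℕ, T ⊆ U → ∏ i ∈ T.subtype (· ∈ U), nn U i = ∏ x ∈ T, x := fun T hT =>
    Finset.prod_subtype_of_mem (fun x => x) (fun x hx => hT hx)
  have hN0 : ∏ i : Ix U, nn U i ≠ 0 := prod_ne_zero_iff.mpr fun i _ => (hnz i).out
  have hNZ : NeZero (∏ i : Ix U, nn U i) := ⟨hN0⟩
  -- the multipliers
  choose l hl0 hl using fun (T : Finset ℕ) (hT : T ∈ F) => (hF T hT).2
  set L : ℕ := ∏ T ∈ F.attach, l T.1 T.2 with hL
  have hL0 : L ≠ 0 := prod_ne_zero_iff.mpr fun T _ => hl0 T.1 T.2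
  have hlL : ∀ T (hT : T ∈ F), l T hT ∣ L := fun T hT =>
    dvd_prod_of_mem (fun T : {x // x ∈ F} => l T.1 T.2) (mem_attach F ⟨T, hT⟩)
  -- the multiplier for `S`
  have hSdvd : ∏ x ∈ S, x ∣ ∏ i : Ix U, nn U i := by
    rw [← hprod S hSU]
    exact prod_dvd_prod_of_subset _ _ _ (subset_univ _)
  obtain ⟨d, hd⟩ := hSdvd
  have hd0 : d ≠ 0 := by rintro rfl; rw [mul_zero] at hd; exact hN0 hd
  refine goodB_of_level hB (l := L * d) (Nat.mul_ne_zero hL0 hd0) ?_
  intro N mS _ _ hmS hN Q _ c hc hk x hx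
  have hLN : L * ∏ i : Ix U, nn U i = N := by rw [hd, hmS, ← hN]; ring
  have hdS : d * mS = ∏ i : Ix U, nn U i := by rw [hd, hmS]; ring
  set c1 : ZMod (∏ i : Ix U, nn U i) → Q := fun a => c (iota L a) with hc1
  have hc1D : OddDist c1 := hc.comp_iota hLN
  have hk1 : ∀ s, ModularCharacter (∏ i : Ix U, nn U i) s → (s.map c1).sum = 0 := by
    intro s hs
    have h2 := hk _ (hB.lift hLN (hB.modular hs))
    rw [Multiset.map_map] at h2
    exact h2
  have hc1iota : ∀ (m0 l0 : ℕ) [NeZero m0], l0 * m0 = ∏ i : Ix U, nn U i → ∀ b : ZMod m0,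
      c1 (iota l0 b) = c (iota (L * l0) b) := by
    intro m0 l0 _ h0 b
    rw [hc1]
    beta_reduce
    rw [iota_comp hLN]
  have h1 := coreG hn hco rfl (ZMod.prodEquivPi (nn U) hco).symm hc1D hk1 (S.subtype (· ∈ U))
    (fun T' => ∃ T ∈ F, T' = T.subtype (· ∈ U)) (by
      rintro _ ⟨T, hTF, rfl⟩ mT lT _ hmT hlT y hy
      obtain ⟨e, he⟩ := hlL T hTF
      have hTU := (hF T hTF).1
      rw [hprod T hTU] at hmT
      have h2 := hl T hTF (e * lT) N mT hmT (by
        rw [← hLN, ← hlT, he]; ring) Q c hc hk y hy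
      have h3 : e * lT * l T hTF = L * lT := by rw [he]; ring
      rw [h3] at h2
      simp only [hc1iota mT lT hlT]
      exact h2) (by
      intro ν h1 h2 h3 h4
      exact hmain hnz ν h1 h2 h3 fun T hT => h4 _ ⟨T, hT, rfl⟩)
    (by rw [hprod S hSU]; exact hmS) hdS x hx
  simp only [hc1iota mS d hdS] at h1
  exact h1

/-- The sets with only squares. -/
theorem goodB_of_squares (hB : BaseFam B) {S : Finset ℕ} (hS : ∀ x ∈ S, (x.Prime ∧ x % 2 = 1) ∨ x = 4)
    (hsq : ∀ p ∈ S, p % 4 = 1 → (∀ j ∈ S, j ≠ p → IsSquare ((j : ℕ) : ZMod p)) ∧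
      (4 ∈ S → IsSquare ((2 : ℕ) : ZMod p))) : GoodB B S := by
  classical
  have h0 : ∏ x ∈ S, x ≠ 0 := by
    rw [prod_ne_zero_iff]
    intro x hx
    have := one_lt_of (hS x hx); omega
  have hNZ : NeZero (∏ x ∈ S, x) := ⟨h0⟩
  obtain ⟨l, N, hN, hl, _, h⟩ := core_set S hS hsq (∏ x ∈ S, x) rfl
  have hl0 : l ≠ 0 := by rintro rfl; rw [zero_mul] at hl; exact hN.out hl.symm
  refine goodB_of_level hB hl0 ?_
  intro N' mT _ _ hmT hN' Q _ c hc hk x hx
  subst hmT
  have hNN : N = N' := hl.symm.trans hN'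
  subst hNN
  exact h Q c hc (fun s hs => hk s (hB.modular hs)) x hx

/-- Transfer between pairs with nonresidues. -/
theorem goodB_pair_transfer (hB : BaseFam B) {p a b : ℕ} (hp : p.Prime) (hp4 : p % 4 = 1) (ha : Three a)
    (hb : Three b) (hna : NR p a) (hnb : NR p b) (h : GoodB B {p, b}) : GoodB B {p, a} := by
  classical
  have hpa : p ≠ a := by rintro rfl; exact ha.mod hp4
  have hpb : p ≠ b := by rintro rfl; exact hb.mod hp4
  set U0 : Finset ℕ := {a, b} with hU0d
  have hU0 : ∀ x ∈ U0, (x.Prime ∧ x % 2 = 1) ∨ x = 4 := by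
    intro x hx
    rw [hU0d, mem_insert, mem_singleton] at hx
    rcases hx with rfl | rfl
    · exact ha.adm
    · exact hb.adm
  have hpU0 : p ∉ U0 := by
    rw [hU0d, mem_insert, mem_singleton, not_or]
    exact ⟨hpa, hpb⟩
  obtain ⟨q, hq, hq8, hqU0, hneg, hnr⟩ := exists_aux hU0 hp hp4 hpU0
  set U : Finset ℕ := insert p (insert q U0) with hUd
  have hU : ∀ x ∈ U, (x.Prime ∧ x % 2 = 1) ∨ x = 4 := by
    intro x hx
    rw [hUd, mem_insert, mem_insert] at hx
    rcases hx with rfl | rfl | hx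
    · left; exact ⟨hp, by omega⟩
    · left; exact ⟨hq, by omega⟩
    · exact hU0 x hx
  have hpU : p ∈ U := mem_insert_self _ _
  have hqU : q ∈ U := mem_insert_of_mem (mem_insert_self _ _)
  have hU0U : U0 ⊆ U := (subset_insert _ _).trans (subset_insert _ _)
  have ha0 : a ∈ U0 := mem_insert_self _ _
  have hb0 : b ∈ U0 := mem_insert_of_mem (mem_singleton_self _)
  refine goodB_core hB (U := U) hU (S := {p, a}) ?_ {{p, b}} ?_ ?_
  · intro x hx
    rw [mem_insert, mem_singleton] at hx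
    rcases hx with rfl | rfl
    · exact hpU
    · exact hU0U ha0
  · intro T hT
    rw [mem_singleton] at hT
    subst hT
    refine ⟨?_, h⟩
    intro x hx
    rw [mem_insert, mem_singleton] at hx
    rcases hx with rfl | rfl
    · exact hpU
    · exact hU0U hb0
  · intro _ ν hν hty hsm hT
    have hfree : ∀ i, (cyc (nn U)).c i ≠ 1 := fun i => neg_one_ne_one (hU i i.2)
    have haux := auxC_of hU hpU hqU hU0U hp hp4 hq hq8 hpU0 hqU0 hneg hnr
    have hun : (univ : Finset (Ix U)) = insert ⟨p, hpU⟩ (insert ⟨q, hqU⟩ (U0.subtype (· ∈ U))) := by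
      rw [← subtype_insert' hqU, ← subtype_insert' hpU, ← hUd, subtype_self]
    have h1 := hT _ (mem_singleton_self _)
    rw [subtype_insert' hpU, subtype_singleton' (hU0U hb0)] at h1
    rw [subtype_insert' hpU, subtype_singleton' (hU0U ha0)]
    rw [hun] at hν hty hsm
    refine (Dat.pair_iff hfree haux hν hty (fun z hz => Dat.small_even (by norm_num) hsm hz)
      (a := ⟨a, hU0U ha0⟩) (b := ⟨b, hU0U hb0⟩) ?_ ?_ ?_ ?_ ?_ ?_ ?_ ?_).mpr h1
    · rw [mem_subtype]; exact ha0
    · exact qq_c_eq_neg_one hU ha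
    · exact card_kernel_odd ha
    · exact qq_nr hU (fun h => hpa (congrArg Subtype.val h).symm) hna
    · rw [mem_subtype]; exact hb0
    · exact qq_c_eq_neg_one hU hb
    · exact card_kernel_odd hb
    · exact qq_nr hU (fun h => hpb (congrArg Subtype.val h).symm) hnb

/-- Two primes congruent to 1 modulo 4 which are nonresidues modulo each other. -/
theorem goodB_two_primes (hB : BaseFam B) {p r a b : ℕ} (hp : p.Prime) (hp4 : p % 4 = 1) (hr : r.Prime)
    (hr4 : r % 4 = 1) (hpr : p ≠ r) (hrp : ¬ IsSquare ((r : ℕ) : ZMod p)) (ha : Three a)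
    (hna : NR p a) (hga : GoodB B {p, a}) (hb : Three b) (hnb : NR r b) (hgb : GoodB B {r, b}) :
    GoodB B {p, r} := by
  classical
  have hpad : (p.Prime ∧ p % 2 = 1) ∨ p = 4 := Or.inl ⟨hp, by omega⟩
  have hrad : (r.Prime ∧ r % 2 = 1) ∨ r = 4 := Or.inl ⟨hr, by omega⟩
  have hpa : p ≠ a := by rintro rfl; exact ha.mod hp4
  have hra : r ≠ a := by rintro rfl; exact ha.mod hr4
  -- the second auxiliary prime
  obtain ⟨s, hs, hs8, hs0, hsneg, hsr⟩ := exists_aux (U0 := {p, a}) (p := r) (by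
    intro x hx
    rw [mem_insert, mem_singleton] at hx
    rcases hx with rfl | rfl
    · exact hpad
    · exact ha.adm) hr hr4 (by
    rw [mem_insert, mem_singleton, not_or]
    exact ⟨hpr.symm, hra⟩)
  have hs4 : s % 4 = 3 := by omega
  have hsT : Three s := Or.inl ⟨hs, hs4⟩
  have hs4' : s ≠ 4 := by rintro rfl; omega
  have hr4' : r ≠ 4 := by rintro rfl; omega
  have hsp : s ≠ p := fun e => hs0 (e ▸ mem_insert_self _ _)
  have hsa : s ≠ a := fun e => hs0 (e ▸ mem_insert_of_mem (mem_singleton_self _))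
  have hsr' : s ≠ r := by rintro rfl; omega
  have hgs : GoodB B {r, s} := by
    refine goodB_pair_transfer hB hr hr4 hsT hb ?_ hnb hgb
    unfold NR
    rw [if_neg hs4']
    exact hsr
  have hsqp : IsSquare ((s : ℕ) : ZMod p) := by
    rw [hsneg p (mem_insert_self _ _)]
    exact isSquare_neg_one hp hp4
  set U0 : Finset ℕ := {a, r, s} with hU0d
  have hU0 : ∀ x ∈ U0, (x.Prime ∧ x % 2 = 1) ∨ x = 4 := by
    intro x hx
    rw [hU0d, mem_insert, mem_insert, mem_singleton] at hx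
    rcases hx with rfl | rfl | rfl
    · exact ha.adm
    · exact hrad
    · exact hsT.adm
  have hpU0 : p ∉ U0 := by
    rw [hU0d, mem_insert, mem_insert, mem_singleton, not_or, not_or]
    exact ⟨hpa, hpr, hsp.symm⟩
  obtain ⟨q, hq, hq8, hqU0, hneg, hnr⟩ := exists_aux hU0 hp hp4 hpU0
  set U : Finset ℕ := insert p (insert q U0) with hUd
  have hU : ∀ x ∈ U, (x.Prime ∧ x % 2 = 1) ∨ x = 4 := by
    intro x hx
    rw [hUd, mem_insert, mem_insert] at hx
    rcases hx with rfl | rfl | hx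
    · exact hpad
    · left; exact ⟨hq, by omega⟩
    · exact hU0 x hx
  have hpU : p ∈ U := mem_insert_self _ _
  have hqU : q ∈ U := mem_insert_of_mem (mem_insert_self _ _)
  have hU0U : U0 ⊆ U := (subset_insert _ _).trans (subset_insert _ _)
  have ha0 : a ∈ U0 := mem_insert_self _ _
  have hr0 : r ∈ U0 := mem_insert_of_mem (mem_insert_self _ _)
  have hs0 : s ∈ U0 := mem_insert_of_mem (mem_insert_of_mem (mem_singleton_self _))
  have hne : ∀ {x y : ℕ} {hx : x ∈ U} {hy : y ∈ U}, x ≠ y → (⟨x, hx⟩ : Ix U) ≠ ⟨y, hy⟩ :=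
    fun h e => h (congrArg Subtype.val e)
  refine goodB_core hB (U := U) hU (S := {p, r}) ?_ {{p, a}, {r, s}} ?_ ?_
  · intro x hx
    rw [mem_insert, mem_singleton] at hx
    rcases hx with rfl | rfl
    · exact hpU
    · exact hU0U hr0
  · intro T hT
    rw [mem_insert, mem_singleton] at hT
    rcases hT with rfl | rfl
    · refine ⟨?_, hga⟩
      intro x hx
      rw [mem_insert, mem_singleton] at hx
      rcases hx with rfl | rfl
      · exact hpU
      · exact hU0U ha0
    · refine ⟨?_, hgs⟩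
      intro x hx
      rw [mem_insert, mem_singleton] at hx
      rcases hx with rfl | rfl
      · exact hU0U hr0
      · exact hU0U hs0
  · intro _ ν hν hty hsm hT
    have hfree : ∀ i, (cyc (nn U)).c i ≠ 1 := fun i => neg_one_ne_one (hU i i.2)
    have haux := auxC_of hU hpU hqU hU0U hp hp4 hq hq8 hpU0 hqU0 hneg hnr
    have hun : (univ : Finset (Ix U)) = insert ⟨p, hpU⟩ (insert ⟨q, hqU⟩ (U0.subtype (· ∈ U))) := by
      rw [← subtype_insert' hqU, ← subtype_insert' hpU, ← hUd, subtype_self]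
    have h1 := hT _ (mem_insert_self _ _)
    have h2 := hT _ (mem_insert_of_mem (mem_singleton_self _))
    rw [subtype_insert' hpU, subtype_singleton' (hU0U ha0)] at h1
    rw [subtype_insert' (hU0U hr0), subtype_singleton' (hU0U hs0)] at h2
    rw [subtype_insert' hpU, subtype_singleton' (hU0U hr0)]
    rw [hun] at hν hty hsm
    refine Dat.two_primes hfree haux hν hty (fun z hz => Dat.small_even (by norm_num) hsm hz)
      (a := ⟨a, hU0U ha0⟩) ?_ ?_ ?_ ?_ h1 (r := ⟨r, hU0U hr0⟩) (s := ⟨s, hU0U hs0⟩) ?_ ?_ ?_ ?_ ?_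
      ?_ ?_ ?_ ?_ ?_ h2
    · rw [mem_subtype]; exact ha0
    · exact qq_c_eq_neg_one hU ha
    · exact card_kernel_odd ha
    · exact qq_nr hU (hne hpa.symm) hna
    · exact hne hsr'.symm
    · rw [mem_subtype]; exact hr0
    · rw [mem_subtype]; exact hs0
    · exact qq_c_eq_one hU hr4
    · exact qq_c_eq_neg_one hU hsT
    · exact qq_eq_neg_one hU (hne hpr.symm) hrp
    · exact beta_eq_one hU hr4'
    · exact qq_eq_one hU (hne hsp) hsqp
    · exact beta_eq_one hU hs4'
    · exact qq_eq_neg_one hU (hne hsr') hsr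

end Pool.Agent.LB
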