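import Pool.Agent.LB.Defs

/-!
The half distribution `H` attached to a distribution `B` modulo 2.
-/

set_option linter.unusedSectionVars false

namespace Pool.Agent.LB

open Finset Pool.Agent.N993

variable {ι : Type} [DecidableEq ι] [Fintype ι] {D : Dat ι}

/-- erase the coordinates in `ε` -/
def era (D : Dat ι) (ε : Finset ι) (x : D.Pt) : D.Pt := fun i => if i ∈ ε then none else x i

/-- the product of the multipliers -/
def th (D : Dat ι) (p : ι) (ε : Finset ι) : D.GG := ∏ i ∈ ε.erase p, D.α i

lemma mem_spt2 {x : D.Pt} {i : ι} : i ∈ spt D x ↔ x i ≠ none := by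
  unfold spt
  rw [mem_filter, Option.isSome_iff_ne_none]
  exact ⟨fun h => h.2, fun h => ⟨mem_univ _, h⟩⟩

lemma notMem_spt {x : D.Pt} {i : ι} : i ∉ spt D x ↔ x i = none := by
  rw [mem_spt2, not_not]

lemma spt_act2 (b : D.GG) (x : D.Pt) : spt D (D.act b x) = spt D x := by
  ext i
  rw [mem_spt2, mem_spt2, Ne, Ne, Dat.act_eq_none]

lemma spt_era (ε : Finset ι) (x : D.Pt) : spt D (era D ε x) = spt D x \ ε := by
  ext i
  rw [mem_spt2, mem_sdiff, mem_spt2]
  unfold era
  by_cases h : i ∈ ε
  · rw [if_pos h]; simp [h]
  · rw [if_neg h]; simp [h]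

lemma spt_update {x : D.Pt} {i : ι} (u : D.G i) :
    spt D (Function.update x i (some u)) = insert i (spt D x) := by
  ext j
  rw [mem_spt2, mem_insert, mem_spt2]
  by_cases h : j = i
  · subst h
    rw [Function.update_self]; simp
  · rw [Function.update_of_ne h]; simp [h]

lemma era_empty (x : D.Pt) : era D ∅ x = x := by
  funext i
  unfold era
  rw [if_neg (notMem_empty i)]

lemma th_empty (p : ι) : th D p ∅ = 1 := by
  unfold th; simp

lemma era_update {ε : Finset ι} {i : ι} (hi : i ∉ ε) (x : D.Pt) (v : Option (D.G i)) :
    era D ε (Function.update x i v) = Function.update (era D ε x) i v := by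
  funext j
  unfold era
  by_cases h : j = i
  · subst h
    rw [if_neg hi, Function.update_self, Function.update_self]
  · rw [Function.update_of_ne h, Function.update_of_ne h]

lemma era_insert_update {ε : Finset ι} {i : ι} {x : D.Pt} (hx : x i = none) (v : Option (D.G i)) :
    era D (insert i ε) (Function.update x i v) = era D ε x := by
  funext j
  unfold era
  by_cases h : j = i
  · subst h
    rw [if_pos (mem_insert_self _ _)]
    split_ifs
    · rfl
    · exact hx.symm
  · rw [Function.update_of_ne h]
    by_cases h' : j ∈ ε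
    · rw [if_pos (mem_insert_of_mem h'), if_pos h']
    · rw [if_neg (by rw [mem_insert, not_or]; exact ⟨h, h'⟩), if_neg h']

/-- all coordinates in `ε` are 1 -/
def One (D : Dat ι) (ε : Finset ι) (x : D.Pt) : Prop := ∀ i ∈ ε, x i = some 1

instance (ε : Finset ι) (x : D.Pt) : Decidable (One D ε x) := by unfold One; infer_instance

lemma one_update_of_notMem {ε : Finset ι} {i : ι} (hi : i ∉ ε) (x : D.Pt) (v : Option (D.G i)) :
    One D ε (Function.update x i v) ↔ One D ε x := by
  unfold One
  constructor
  · intro h j hj
    have := h j hj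
    rwa [Function.update_of_ne (by rintro rfl; exact hi hj)] at this
  · intro h j hj
    rw [Function.update_of_ne (by rintro rfl; exact hi hj)]
    exact h j hj

lemma one_insert_update {ε : Finset ι} {i : ι} (hi : i ∉ ε) (x : D.Pt) (u : D.G i) :
    One D (insert i ε) (Function.update x i (some u)) ↔ (u = 1 ∧ One D ε x) := by
  rw [← one_update_of_notMem hi x (some u)]
  unfold One
  constructor
  · intro h
    refine ⟨?_, fun j hj => h j (mem_insert_of_mem hj)⟩
    have := h i (mem_insert_self _ _)
    rw [Function.update_self] at this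
    exact Option.some_injective _ this
  · rintro ⟨h1, h2⟩ j hj
    rcases mem_insert.mp hj with rfl | hj
    · rw [Function.update_self, h1]
    · exact h2 j hj

/-- the nonempty subsets -/
def nes (M : Finset ι) : Finset (Finset ι) := M.powerset.filter (fun ε => ε ≠ ∅)

lemma mem_nes {M ε : Finset ι} : ε ∈ nes M ↔ ε ⊆ M ∧ ε ≠ ∅ := by
  unfold nes; rw [mem_filter, mem_powerset]

/-- one step of the recursion -/
def stp (D : Dat ι) (T' : Finset ι) (p : ι) (F : D.Pt → ZMod 2) (x : D.Pt) : ZMod 2 :=
  ∑ ε ∈ nes (spt D x \ T'), if One D ε x then F (D.act (th D p ε) (era D ε x)) else 0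

/-- the recursion -/
def Hf (D : Dat ι) (T' : Finset ι) (p : ι) (B : D.Pt → ZMod 2) : ℕ → D.Pt → ZMod 2
  | 0 => B
  | k + 1 => fun x => if x p = none then B x else stp D T' p (Hf D T' p B k) x

/-- the half distribution -/
def HH (D : Dat ι) (T' : Finset ι) (p : ι) (B : D.Pt → ZMod 2) (x : D.Pt) : ZMod 2 :=
  Hf D T' p B (spt D x).card x

lemma card_lt_of_nes {T' : Finset ι} {x : D.Pt} {p : ι} {ε : Finset ι} (h : ε ∈ nes (spt D x \ T')) :
    (spt D (D.act (th D p ε) (era D ε x))).card < (spt D x).card := by
  rw [spt_act2, spt_era]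
  obtain ⟨h1, h2⟩ := mem_nes.mp h
  obtain ⟨i, hi⟩ := nonempty_iff_ne_empty.mpr h2
  apply card_lt_card
  refine ⟨sdiff_subset, fun h' => ?_⟩
  have h3 := h' (mem_sdiff.mp (h1 hi)).1
  exact (mem_sdiff.mp h3).2 hi

lemma stp_congr {T' : Finset ι} {p : ι} {F G : D.Pt → ZMod 2} {x : D.Pt}
    (h : ∀ y, (spt D y).card < (spt D x).card → F y = G y) : stp D T' p F x = stp D T' p G x := by
  unfold stp
  refine sum_congr rfl fun ε hε => ?_
  rw [h _ (card_lt_of_nes hε)]

lemma Hf_stable (T' : Finset ι) (p : ι) (B : D.Pt → ZMod 2) : ∀ (n : ℕ) (x : D.Pt) (k : ℕ),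
    (spt D x).card ≤ n → (spt D x).card ≤ k → Hf D T' p B k x = HH D T' p B x := by
  intro n
  induction n with
  | zero =>
    intro x k h0 hk
    have h1 : (spt D x).card = 0 := Nat.le_zero.mp h0
    have h2 : x p = none := by
      rw [card_eq_zero] at h1
      rw [← notMem_spt, h1]; exact notMem_empty p
    unfold HH
    rw [h1]
    cases k with
    | zero => rfl
    | succ k =>
      change (if x p = none then B x else _) = B x
      rw [if_pos h2]
  | succ n ih =>
    intro x k hn hk
    by_cases h2 : x p = none
    · have h3 : ∀ k, Hf D T' p B k x = B x := by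
        intro k
        cases k with
        | zero => rfl
        | succ k =>
          change (if x p = none then B x else _) = B x
          rw [if_pos h2]
      unfold HH
      rw [h3, h3]
    · have hpos : 0 < (spt D x).card := card_pos.mpr ⟨p, mem_spt2.mpr h2⟩
      obtain ⟨k', rfl⟩ : ∃ k', k = k' + 1 := ⟨k - 1, by omega⟩
      obtain ⟨c', hc'⟩ : ∃ c', (spt D x).card = c' + 1 := ⟨(spt D x).card - 1, by omega⟩
      unfold HH
      rw [hc']
      change (if x p = none then B x else _) = (if x p = none then B x else _)
      rw [if_neg h2, if_neg h2]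
      apply stp_congr
      intro y hy
      rw [ih y k' (by omega) (by omega), ih y c' (by omega) (by omega)]

lemma HH_none {T' : Finset ι} {p : ι} {B : D.Pt → ZMod 2} {x : D.Pt} (h : x p = none) :
    HH D T' p B x = B x := by
  rw [← Hf_stable T' p B _ x ((spt D x).card + 1) le_rfl (Nat.le_succ _)]
  change (if x p = none then B x else _) = B x
  rw [if_pos h]

lemma HH_some {T' : Finset ι} {p : ι} {B : D.Pt → ZMod 2} {x : D.Pt} (h : x p ≠ none) :
    HH D T' p B x = stp D T' p (HH D T' p B) x := by
  rw [← Hf_stable T' p B _ x ((spt D x).card + 1) le_rfl (Nat.le_succ _)]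
  change (if x p = none then B x else stp D T' p (Hf D T' p B (spt D x).card) x) = _
  rw [if_neg h]
  apply stp_congr
  intro y hy
  exact Hf_stable T' p B _ y _ le_rfl hy.le

lemma HH_zero {T' : Finset ι} {p : ι} {B : D.Pt → ZMod 2}
    (hB0 : ∀ x : D.Pt, (∃ i ∈ T', x i = none) → B x = 0) : ∀ (n : ℕ) (x : D.Pt),
    (spt D x).card ≤ n → (∃ i ∈ T', x i = none) → HH D T' p B x = 0 := by
  intro n
  induction n with
  | zero =>
    intro x h0 hx
    have h1 : (spt D x).card = 0 := Nat.le_zero.mp h0
    have h2 : x p = none := by
      rw [card_eq_zero] at h1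
      rw [← notMem_spt, h1]; exact notMem_empty p
    rw [HH_none h2, hB0 x hx]
  | succ n ih =>
    intro x hn hx
    by_cases h2 : x p = none
    · rw [HH_none h2, hB0 x hx]
    · rw [HH_some h2]
      unfold stp
      apply sum_eq_zero
      intro ε hε
      split_ifs with h3
      · apply ih
        · have := card_lt_of_nes (p := p) hε
          omega
        · obtain ⟨i, hi, hxi⟩ := hx
          refine ⟨i, hi, ?_⟩
          rw [Dat.act_eq_none]
          unfold era
          rw [hxi]
          split_ifs <;> rfl
      · rfl

/-- sum over the powerset of an insert -/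
lemma sum_nes_insert {M : Finset ι} {i : ι} (hi : i ∉ M) (F : Finset ι → ZMod 2) :
    ∑ ε ∈ nes (insert i M), F ε = ∑ ε ∈ nes M, F ε + ∑ ε ∈ M.powerset, F (insert i ε) := by
  have h1 : nes (insert i M) = nes M ∪ M.powerset.image (insert i) := by
    ext ε
    rw [mem_nes, mem_union, mem_nes, mem_image]
    constructor
    · rintro ⟨h1, h2⟩
      by_cases hiε : i ∈ ε
      · right
        refine ⟨ε.erase i, ?_, insert_erase hiε⟩
        rw [mem_powerset]
        intro j hj
        rcases mem_insert.mp (h1 (mem_of_mem_erase hj)) with h | h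
        · exact absurd h (ne_of_mem_erase hj)
        · exact h
      · left
        refine ⟨fun j hj => ?_, h2⟩
        rcases mem_insert.mp (h1 hj) with h | h
        · subst h; exact absurd hj hiε
        · exact h
    · rintro (⟨h1, h2⟩ | ⟨ε', h1, rfl⟩)
      · exact ⟨h1.trans (subset_insert _ _), h2⟩
      · rw [mem_powerset] at h1
        exact ⟨insert_subset_insert _ h1, (insert_nonempty _ _).ne_empty⟩
  have hdisj : Disjoint (nes M) (M.powerset.image (insert i)) := by
    rw [disjoint_left]
    intro ε h1 h2
    obtain ⟨ε', _, rfl⟩ := mem_image.mp h2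
    exact hi ((mem_nes.mp h1).1 (mem_insert_self _ _))
  rw [h1, sum_union hdisj, sum_image]
  intro a ha b hb hab
  rw [coe_powerset] at ha hb
  have ha' : i ∉ a := fun h => hi (ha h)
  have hb' : i ∉ b := fun h => hi (hb h)
  have : (insert i a).erase i = (insert i b).erase i := by
    rw [show insert i a = insert i b from hab]
  rwa [erase_insert ha', erase_insert hb'] at this

lemma sum_powerset_nes (M : Finset ι) (F : Finset ι → ZMod 2) :
    ∑ ε ∈ M.powerset, F ε = F ∅ + ∑ ε ∈ nes M, F ε := by
  unfold nes
  rw [← sum_filter_add_sum_filter_not M.powerset (fun ε => ε ≠ ∅), add_comm]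
  congr 1
  rw [sum_eq_single ∅]
  · intro b hb hne
    rw [mem_filter] at hb
    exact absurd hne hb.2
  · intro h
    exfalso; apply h
    rw [mem_filter, mem_powerset]
    exact ⟨empty_subset _, by simp⟩

lemma add_self2 (a : ZMod 2) : a + a = 0 := CharTwo.add_self_eq_zero a

/-- the relation: the sum over the coordinate `i` of the values of the step -/
lemma sum_stp {T' : Finset ι} {p i : ι} {F : D.Pt → ZMod 2} {R : D.Pt → ZMod 2} {y : D.Pt}
    (hy : y i = none)
    (hR : ∀ z : D.Pt, (spt D z).card < (spt D y).card → z i = none →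
      ∑ u : D.G i, F (Function.update z i (some u)) = R z) (hi : i ∉ T') :
    ∑ u : D.G i, stp D T' p F (Function.update y i (some u)) =
      (∑ ε ∈ nes (spt D y \ T'), if One D ε y then R (D.act (th D p ε) (era D ε y)) else 0) +
      ∑ ε ∈ (spt D y \ T').powerset, if One D ε y then
        F (D.act (th D p (insert i ε)) (era D ε y)) else 0 := by
  have hiy : i ∉ spt D y := notMem_spt.mpr hy
  have hiM : i ∉ spt D y \ T' := fun h => hiy (mem_sdiff.mp h).1
  have e0 : ∀ u : D.G i, spt D (Function.update y i (some u)) \ T' = insert i (spt D y \ T') := by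
    intro u
    rw [spt_update, insert_sdiff_of_notMem _ hi]
  have e1 : ∀ u : D.G i, stp D T' p F (Function.update y i (some u)) =
      (∑ ε ∈ nes (spt D y \ T'), if One D ε y then
        F (Function.update (D.act (th D p ε) (era D ε y)) i (some (th D p ε i * u))) else 0) +
      ∑ ε ∈ (spt D y \ T').powerset, if u = 1 ∧ One D ε y then
        F (D.act (th D p (insert i ε)) (era D ε y)) else 0 := by
    intro u
    unfold stp
    rw [e0 u, sum_nes_insert hiM]
    congr 1
    · refine sum_congr rfl fun ε hε => ?_
      have hiε : i ∉ ε := fun h => hiM ((mem_nes.mp hε).1 h)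
      rw [era_update hiε, Dat.act_update_some]
      simp only [one_update_of_notMem hiε]
    · refine sum_congr rfl fun ε hε => ?_
      rw [mem_powerset] at hε
      have hiε : i ∉ ε := fun h => hiM (hε h)
      rw [era_insert_update hy]
      simp only [one_insert_update hiε]
  simp only [e1]
  rw [sum_add_distrib]
  congr 1
  · rw [sum_comm]
    refine sum_congr rfl fun ε hε => ?_
    by_cases h1 : One D ε y
    · simp only [if_pos h1]
      rw [← hR _ (card_lt_of_nes hε)]
      · exact Fintype.sum_equiv (Equiv.mulLeft (th D p ε i)) _ _ (fun u => rfl)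
      · rw [Dat.act_eq_none]
        unfold era
        rw [hy]
        split_ifs <;> rfl
    · simp only [if_neg h1]
      exact sum_const_zero
  · rw [sum_comm]
    refine sum_congr rfl fun ε _ => ?_
    by_cases h1 : One D ε y
    · simp only [h1, and_true, if_true]
      rw [sum_ite_eq' univ (1 : D.G i), if_pos (mem_univ _)]
    · simp only [h1, and_false, if_false]
      exact sum_const_zero

/-- the relation for an index in `T'` -/
lemma sum_stp' {T' : Finset ι} {p i : ι} {F : D.Pt → ZMod 2} {R : D.Pt → ZMod 2} {y : D.Pt}
    (hy : y i = none)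
    (hR : ∀ z : D.Pt, (spt D z).card < (spt D y).card → z i = none →
      ∑ u : D.G i, F (Function.update z i (some u)) = R z) (hi : i ∈ T') :
    ∑ u : D.G i, stp D T' p F (Function.update y i (some u)) =
      ∑ ε ∈ nes (spt D y \ T'), if One D ε y then R (D.act (th D p ε) (era D ε y)) else 0 := by
  have hiM : i ∉ spt D y \ T' := fun h => (mem_sdiff.mp h).2 hi
  have e0 : ∀ u : D.G i, spt D (Function.update y i (some u)) \ T' = spt D y \ T' := by
    intro u
    rw [spt_update, insert_sdiff_of_mem _ hi]
  have e1 : ∀ u : D.G i, stp D T' p F (Function.update y i (some u)) =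
      ∑ ε ∈ nes (spt D y \ T'), if One D ε y then
        F (Function.update (D.act (th D p ε) (era D ε y)) i (some (th D p ε i * u))) else 0 := by
    intro u
    unfold stp
    rw [e0 u]
    refine sum_congr rfl fun ε hε => ?_
    have hiε : i ∉ ε := fun h => hiM ((mem_nes.mp hε).1 h)
    rw [era_update hiε, Dat.act_update_some]
    simp only [one_update_of_notMem hiε]
  simp only [e1]
  rw [sum_comm]
  refine sum_congr rfl fun ε hε => ?_
  by_cases h1 : One D ε y
  · simp only [if_pos h1]
    rw [← hR _ (card_lt_of_nes hε)]
    · exact Fintype.sum_equiv (Equiv.mulLeft (th D p ε i)) _ _ (fun u => rfl)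
    · rw [Dat.act_eq_none]
      unfold era
      rw [hy]
      split_ifs <;> rfl
  · simp only [if_neg h1]
    exact sum_const_zero

lemma th_insert {p i : ι} {ε : Finset ι} (hip : i ≠ p) (hi : i ∉ ε) :
    th D p (insert i ε) = D.α i * th D p ε := by
  unfold th
  rw [erase_insert_of_ne hip, prod_insert (fun h => hi (mem_of_mem_erase h))]

lemma th_insert_self {p : ι} {ε : Finset ι} (hp : p ∉ ε) : th D p (insert p ε) = th D p ε := by
  unfold th
  rw [erase_insert hp, erase_eq_of_notMem hp]

lemma era_eq_none {ε : Finset ι} {x : D.Pt} {i : ι} (h : x i = none) : era D ε x i = none := by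
  unfold era
  rw [h]
  split_ifs <;> rfl

lemma one_empty (y : D.Pt) : One D ∅ y := fun j hj => absurd hj (notMem_empty j)

/-- the relations of the half distribution -/
theorem HH_rel (hβ : ∀ i, D.β i = 1) {T' : Finset ι} {p : ι} (hp : p ∉ T') {B : D.Pt → ZMod 2}
    (hB : D.IsD0 univ B) (hB0 : ∀ x : D.Pt, (∃ i ∈ T', x i = none) → B x = 0) :
    ∀ (n : ℕ) (y : D.Pt) (i : ι), (spt D y).card ≤ n → y i = none →
      ∑ u : D.G i, HH D T' p B (Function.update y i (some u)) =
        if i = p then B y else HH D T' p B (D.act (D.α i) y) + HH D T' p B y := by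
  have hsup : ∀ x : D.Pt, D.Supp univ x := fun x i hi => absurd (mem_univ i) hi
  have hB' : ∀ (y : D.Pt) (i : ι), y i = none →
      ∑ u : D.G i, B (Function.update y i (some u)) = B (D.act (D.α i) y) + B y := by
    intro y i hy
    have := hB i (mem_univ i) y (hsup y) hy
    rw [this, hβ, Dat.act_one, sub_eq_add_neg, ZModModule.neg_eq_self]
  have hH0 : ∀ x : D.Pt, (∃ i ∈ T', x i = none) → HH D T' p B x = 0 := fun x hx =>
    HH_zero hB0 _ x le_rfl hx
  intro n
  induction n with
  | zero =>
    intro y i h0 hy
    have h1 : spt D y = ∅ := card_eq_zero.mp (Nat.le_zero.mp h0)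
    have h2 : y p = none := by rw [← notMem_spt, h1]; exact notMem_empty p
    by_cases hip : i = p
    · subst hip
      rw [if_pos rfl]
      have e1 : ∀ u : D.G i, HH D T' i B (Function.update y i (some u)) =
          if u = 1 then B y else 0 := by
        intro u
        rw [HH_some (by rw [Function.update_self]; simp)]
        unfold stp
        rw [spt_update, h1, insert_sdiff_of_notMem _ hp, empty_sdiff,
          sum_nes_insert (notMem_empty i), powerset_empty, sum_singleton]
        have : nes (∅ : Finset ι) = ∅ := by
          unfold nes; rw [powerset_empty, filter_singleton, if_neg (by simp)]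
        rw [this, sum_empty, zero_add, th_insert_self (notMem_empty i), th_empty, Dat.act_one,
          era_insert_update hy, era_empty]
        have h3 : One D (insert i ∅) (Function.update y i (some u)) ↔ u = 1 := by
          rw [one_insert_update (notMem_empty i)]
          exact ⟨fun h => h.1, fun h => ⟨h, fun j hj => absurd hj (notMem_empty j)⟩⟩
        simp only [h3]
        rw [HH_none h2]
      simp only [e1]
      rw [sum_ite_eq' univ (1 : D.G i), if_pos (mem_univ _)]
    · rw [if_neg hip, HH_none h2, HH_none (Dat.act_eq_none.mpr h2), ← hB' y i hy]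
      refine sum_congr rfl fun u _ => ?_
      rw [HH_none (by rw [Function.update_of_ne (Ne.symm hip)]; exact h2)]
  | succ n ih =>
    intro y i hn hy
    -- the relation for smaller support
    have hR : ∀ z : D.Pt, (spt D z).card < (spt D y).card → z i = none →
        ∑ u : D.G i, HH D T' p B (Function.update z i (some u)) =
          if i = p then B z else HH D T' p B (D.act (D.α i) z) + HH D T' p B z :=
      fun z hz hzi => ih z i (by omega) hzi
    by_cases hip : i = p
    · subst hip
      rw [if_pos rfl]
      simp only [if_true] at hR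
      have e1 : ∀ u : D.G i, HH D T' i B (Function.update y i (some u)) =
          stp D T' i (HH D T' i B) (Function.update y i (some u)) := fun u =>
        HH_some (by rw [Function.update_self]; simp)
      simp only [e1]
      rw [sum_stp hy hR hp, sum_powerset_nes]
      have e2 : ∀ ε ∈ nes (spt D y \ T'), (if One D ε y then
          HH D T' i B (D.act (th D i (insert i ε)) (era D ε y)) else 0) =
          if One D ε y then B (D.act (th D i ε) (era D ε y)) else 0 := by
        intro ε hε
        have hiε : i ∉ ε := fun h => (notMem_spt.mpr hy) (mem_sdiff.mp ((mem_nes.mp hε).1 h)).1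
        rw [th_insert_self hiε, HH_none (Dat.act_eq_none.mpr (era_eq_none hy))]
      rw [sum_congr rfl e2, th_insert_self (notMem_empty i), th_empty, Dat.act_one, era_empty,
        if_pos (one_empty y), HH_none hy]
      have := add_self2 (∑ ε ∈ nes (spt D y \ T'), if One D ε y then
        B (D.act (th D i ε) (era D ε y)) else 0)
      linear_combination this
    · rw [if_neg hip]
      simp only [if_neg hip] at hR
      by_cases hyp : y p = none
      · rw [HH_none hyp, HH_none (Dat.act_eq_none.mpr hyp), ← hB' y i hy]
        refine sum_congr rfl fun u _ => ?_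
        rw [HH_none (by rw [Function.update_of_ne (Ne.symm hip)]; exact hyp)]
      · have e1 : ∀ u : D.G i, HH D T' p B (Function.update y i (some u)) =
            stp D T' p (HH D T' p B) (Function.update y i (some u)) := fun u =>
          HH_some (by rw [Function.update_of_ne (Ne.symm hip)]; exact hyp)
        simp only [e1]
        by_cases hiT : i ∈ T'
        · rw [sum_stp' hy hR hiT, hH0 y ⟨i, hiT, hy⟩, hH0 _ ⟨i, hiT, Dat.act_eq_none.mpr hy⟩,
            add_zero]
          apply sum_eq_zero
          intro ε _
          rw [hH0 _ ⟨i, hiT, Dat.act_eq_none.mpr (era_eq_none hy)⟩,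
            hH0 _ ⟨i, hiT, Dat.act_eq_none.mpr (Dat.act_eq_none.mpr (era_eq_none hy))⟩, add_zero]
          split_ifs <;> rfl
        · rw [sum_stp hy hR hiT, sum_powerset_nes]
          have e2 : ∀ ε ∈ nes (spt D y \ T'), (if One D ε y then
              HH D T' p B (D.act (th D p (insert i ε)) (era D ε y)) else 0) =
              if One D ε y then HH D T' p B (D.act (D.α i) (D.act (th D p ε) (era D ε y)))
              else 0 := by
            intro ε hε
            have hiε : i ∉ ε := fun h => (notMem_spt.mpr hy) (mem_sdiff.mp ((mem_nes.mp hε).1 h)).1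
            rw [th_insert hip hiε, Dat.act_act]
          rw [sum_congr rfl e2, th_insert hip (notMem_empty i), th_empty, mul_one, era_empty,
            if_pos (one_empty y)]
          have e3 : HH D T' p B y = ∑ ε ∈ nes (spt D y \ T'), if One D ε y then
              HH D T' p B (D.act (th D p ε) (era D ε y)) else 0 := HH_some hyp
          have e4 : (∑ ε ∈ nes (spt D y \ T'), if One D ε y then
              (HH D T' p B (D.act (D.α i) (D.act (th D p ε) (era D ε y))) +
                HH D T' p B (D.act (th D p ε) (era D ε y))) else 0) =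
              (∑ ε ∈ nes (spt D y \ T'), if One D ε y then
                HH D T' p B (D.act (D.α i) (D.act (th D p ε) (era D ε y))) else 0) +
              ∑ ε ∈ nes (spt D y \ T'), if One D ε y then
                HH D T' p B (D.act (th D p ε) (era D ε y)) else 0 := by
            rw [← sum_add_distrib]
            refine sum_congr rfl fun ε _ => ?_
            split_ifs
            · rfl
            · rw [add_zero]
          rw [e4, ← e3]
          have := add_self2 (∑ ε ∈ nes (spt D y \ T'), if One D ε y then
            HH D T' p B (D.act (D.α i) (D.act (th D p ε) (era D ε y))) else 0)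
          linear_combination this

/-- the number of points with given support and nonzero value -/
def cnt (D : Dat ι) (H : D.Pt → ZMod 2) (P : Finset ι) : ℕ :=
  (univ.filter (fun x : D.Pt => spt D x = P ∧ H x ≠ 0)).card

/-- The counting inequality. -/
theorem cnt_HH (T' : Finset ι) (p : ι) (B : D.Pt → ZMod 2) {P : Finset ι} (hP : p ∈ P) :
    cnt D (HH D T' p B) P ≤ ∑ ε ∈ nes (P \ T'), cnt D (HH D T' p B) (P \ ε) := by
  classical
  have h1 : univ.filter (fun x : D.Pt => spt D x = P ∧ HH D T' p B x ≠ 0) ⊆
      (nes (P \ T')).biUnion (fun ε => univ.filter (fun x : D.Pt => (spt D x = P ∧ One D ε x) ∧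
        HH D T' p B (D.act (th D p ε) (era D ε x)) ≠ 0)) := by
    intro x hx
    rw [mem_filter] at hx
    obtain ⟨_, hxP, hx0⟩ := hx
    have hxp : x p ≠ none := by rw [← mem_spt2, hxP]; exact hP
    rw [HH_some hxp] at hx0
    unfold stp at hx0
    obtain ⟨ε, hε, hε0⟩ := exists_ne_zero_of_sum_ne_zero hx0
    rw [mem_biUnion]
    refine ⟨ε, by rwa [hxP] at hε, ?_⟩
    rw [mem_filter]
    by_cases h2 : One D ε x
    · rw [if_pos h2] at hε0
      exact ⟨mem_univ _, ⟨hxP, h2⟩, hε0⟩
    · rw [if_neg h2] at hε0
      exact absurd rfl hε0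
  refine (card_le_card h1).trans (card_biUnion_le.trans (sum_le_sum fun ε hε => ?_))
  refine card_le_card_of_injOn (fun x => D.act (th D p ε) (era D ε x)) ?_ ?_
  · intro x hx
    rw [mem_coe, mem_filter] at hx ⊢
    refine ⟨mem_univ _, ?_, hx.2.2⟩
    rw [spt_act2, spt_era, hx.2.1.1]
  · intro x hx y hy hxy
    rw [mem_coe, mem_filter] at hx hy
    have h2 : era D ε x = era D ε y := by
      have h3 := congrArg (D.act (th D p ε)⁻¹) hxy
      simp only [Dat.act_act, inv_mul_cancel, Dat.act_one] at h3
      exact h3
    funext i
    by_cases hi : i ∈ ε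
    · rw [hx.2.1.2 i hi, hy.2.1.2 i hi]
    · have h3 := congrFun h2 i
      unfold era at h3
      rwa [if_neg hi, if_neg hi] at h3

end Pool.Agent.LB
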