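import Pool.Agent.LB.Phi

/-!
The classes of `phiO {p}` at some exceptional pairs, `p = 37, 41, 53`.
-/

set_option linter.unusedSectionVars false

namespace Pool.Agent.LB

open Finset Pool.Agent.N993 Pool.Agent.H916R2 Pool.Agent.N992

/-- the check of a relation -/
def chkRel (N : ℕ) (l : List ℕ) : Bool :=
  (List.range N).all (fun t => !(Nat.gcd t N == 1) ||
    (2 * (l.map (fun a => t * a % N)).sum == N * l.length))

lemma saw_natCast {N : ℕ} [NeZero N] {n : ℕ} (h : n % N ≠ 0) :
    saw ((n : ℕ) : ZMod N) = 2 * ((n % N : ℕ) : ℤ) - N := by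
  unfold saw
  rw [if_neg, ZMod.val_natCast]
  rw [ZMod.natCast_eq_zero_iff]
  intro h1
  exact h (Nat.mod_eq_zero_of_dvd h1)

lemma sum_saw_list {N : ℕ} [NeZero N] (t : ℕ) (l : List ℕ) (h : ∀ a ∈ l, t * a % N ≠ 0) :
    (l.map (fun a => saw (((t * a : ℕ) : ZMod N)))).sum =
      2 * (((l.map (fun a => t * a % N)).sum : ℕ) : ℤ) - N * (l.length : ℤ) := by
  induction l with
  | nil => simp
  | cons a l ih =>
    rw [List.map_cons, List.sum_cons, List.map_cons, List.sum_cons, List.length_cons,
      ih (fun b hb => h b (List.mem_cons_of_mem _ hb)), saw_natCast (h a List.mem_cons_self)]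
    push_cast
    ring

/-- The class is not zero if there is a relation given by a list. -/
theorem phiNot_of_list {p N : ℕ} [NeZero N] (l : List ℕ) (hp2 : p ≠ 2) {T0 : Finset ℕ}
    (hT0 : ∏ x ∈ T0, x = N) (h0 : ∀ a ∈ l, a % N ≠ 0) (hchk : chkRel N l = true)
    (hcls : (l.map (fun a => if (N / Nat.gcd N a).primeFactors = {p} then (1 : ZMod 2) else 0)).sum = 1) :
    PhiNot p T0 := by
  have key : ∀ t : ℕ, t < N → Nat.gcd t N = 1 →
      (l.map (fun a => saw (((t * a : ℕ) : ZMod N)))).sum = 0 := by
    intro t ht hg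
    unfold chkRel at hchk
    rw [List.all_eq_true] at hchk
    have h1 := hchk t (List.mem_range.mpr ht)
    rw [hg] at h1
    simp only [beq_self_eq_true, Bool.not_true, Bool.false_or, beq_iff_eq] at h1
    rw [sum_saw_list t l ?_]
    · have h2 : ((2 * (l.map (fun a => t * a % N)).sum : ℕ) : ℤ) = ((N * l.length : ℕ) : ℤ) := by
        rw [h1]
      push_cast at h2 ⊢
      linarith
    · intro a ha h3
      have h4 : N ∣ t * a := Nat.dvd_of_mod_eq_zero h3
      have h5 : Nat.Coprime N t := (Nat.coprime_iff_gcd_eq_one.mpr hg).symm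
      exact h0 a ha (Nat.mod_eq_zero_of_dvd (h5.dvd_of_dvd_mul_left h4))
  set s : Multiset (ZMod N) :=
    ((l.map (fun a : ℕ => (a : ZMod N)) : List (ZMod N)) : Multiset (ZMod N)) with hs
  have e1 : Rel (fun a : ZMod N => ((s.count a : ℕ) : ℤ)) := by
    intro t
    have h4 := sum_count s (fun a => saw ((t : ZMod N) * a))
    have h5 : (s.map (fun a => saw ((t : ZMod N) * a))).sum = 0 := by
      have h := key (t : ZMod N).val (ZMod.val_lt _) (ZMod.val_coe_unit_coprime t)
      rw [hs, Multiset.map_coe, Multiset.sum_coe, List.map_map, ← h]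
      congr 1
      apply List.map_congr_left
      intro a _
      simp only [Function.comp_apply]
      rw [Nat.cast_mul, ZMod.natCast_zmod_val]
    rw [h5] at h4
    simpa using h4
  have e2 : (s.map (cls {p})).sum = 1 := by
    rw [hs, Multiset.map_coe, Multiset.sum_coe, List.map_map, ← hcls]
    congr 1
    apply List.map_congr_left
    intro a _
    exact cls_natCast {p} N a
  exact @phiNot_of_rel p hp2 T0 N _ hT0 s e1 e2

/-- a relation of level 185 -/
def l185 : List ℕ :=
  [1, 7, 17, 21, 26, 27, 31, 42, 46, 51, 52, 56, 61, 62, 72, 77, 81, 82, 91, 100, 101, 107, 111,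
   112, 116, 126, 132, 136, 137, 142, 146, 151, 156, 157, 162, 167, 172, 181]

theorem phiNot_37_5 : PhiNot 37 {5, 37} :=
  phiNot_of_list (N := 185) l185 (by norm_num) (by decide) (by decide) (by decide +kernel)
    (by decide +kernel)

/-- a relation of level 148 -/
def l148 : List ℕ :=
  [3, 7, 11, 39, 43, 47, 51, 55, 59, 75, 76, 79, 83, 84, 92, 115, 119, 123, 127, 131, 135]

theorem phiNot_37_4 : PhiNot 37 {4, 37} :=
  phiNot_of_list (N := 148) l148 (by norm_num) (by decide) (by decide) (by decide +kernel)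
    (by decide +kernel)

/-- a relation of level 123 -/
def l123 : List ℕ :=
  [6, 7, 10, 13, 22, 25, 37, 40, 46, 48, 49, 51, 55, 70, 73, 78, 79, 81, 82, 88, 97, 100, 103,
   106, 112, 121]

theorem phiNot_41_3 : PhiNot 41 {3, 41} :=
  phiNot_of_list (N := 123) l123 (by norm_num) (by decide) (by decide) (by decide +kernel)
    (by decide +kernel)

/-- a relation of level 287 -/
def l287 : List ℕ :=
  [4, 5, 12, 18, 26, 33, 34, 40, 41, 46, 53, 55, 62, 67, 69, 74, 75, 76, 81, 82, 91, 96, 103,
   104, 110, 116, 117, 123, 125, 132, 137, 139, 144, 145, 151, 153, 158, 166, 167, 173, 180, 186,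
   188, 194, 195, 207, 208, 209, 214, 221, 223, 229, 235, 236, 249, 250, 251, 258, 264, 270, 272,
   277, 279, 286]

theorem phiNot_41_7 : PhiNot 41 {7, 41} :=
  phiNot_of_list (N := 287) l287 (by norm_num) (by decide) (by decide) (by decide +kernel)
    (by decide +kernel)

/-- a relation of level 159 -/
def l159 : List ℕ :=
  [7, 10, 22, 25, 34, 37, 40, 49, 52, 58, 67, 70, 73, 79, 82, 88, 93, 94, 97, 100, 103, 106, 121,
   127, 136, 148, 151, 157]

theorem phiNot_53_3 : PhiNot 53 {3, 53} :=
  phiNot_of_list (N := 159) l159 (by norm_num) (by decide) (by decide) (by decide +kernel)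
    (by decide +kernel)

/-- a relation of level 265 -/
def l265 : List ℕ :=
  [1, 6, 17, 26, 31, 32, 37, 41, 42, 46, 51, 56, 61, 67, 71, 72, 77, 86, 91, 96, 97, 102, 107,
   111, 112, 131, 132, 136, 137, 146, 147, 152, 157, 162, 167, 176, 177, 191, 192, 196, 197, 201,
   202, 212, 217, 226, 231, 236, 237, 242, 250, 252, 256, 261]

theorem phiNot_53_5 : PhiNot 53 {5, 53} :=
  phiNot_of_list (N := 265) l265 (by norm_num) (by decide) (by decide) (by decide +kernel)
    (by decide +kernel)

/-- a relation of level 212 -/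
def l212 : List ℕ :=
  [1, 5, 13, 17, 25, 33, 57, 61, 65, 69, 77, 85, 97, 108, 109, 112, 116, 117, 125, 129, 141, 144,
   145, 161, 165, 169, 172, 181, 185, 197, 205]

theorem phiNot_53_4 : PhiNot 53 {4, 53} :=
  phiNot_of_list (N := 212) l212 (by norm_num) (by decide) (by decide) (by decide +kernel)
    (by decide +kernel)

end Pool.Agent.LB
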