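import Pool.Agent.LB.PhiKill2
import Pool.Agent.LB.PhiRels

/-!
Hodge characters of a degree not divisible by 6 with at most `(p - 1) / 2` entries, where `p` is the
least exceptional prime.
-/

set_option linter.unusedSectionVars false

namespace Pool.Agent.LB

open Finset Pool.Agent.N993 Pool.Agent.H916R2 Pool.Agent.N992

/-- The prime factors of `m` congruent to 1 modulo 4 are 5, 13, 17 or at least `q0`. -/
def BadGe (m q0 : ℕ) : Prop :=
  ∀ q : ℕ, q.Prime → q ∣ m → q % 4 = 1 → q = 5 ∨ q = 13 ∨ q = 17 ∨ q0 ≤ q

lemma BadGe.mul8 {m q0 : ℕ} (h : BadGe m q0) : BadGe (8 * m) q0 := by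
  intro q hq hqm hq4
  refine h q hq ?_ hq4
  rcases (Nat.Prime.dvd_mul hq).mp hqm with h1 | h1
  · exfalso
    have h2 : q ∣ 2 ^ 3 := h1
    have h3 := (Nat.prime_dvd_prime_iff_eq hq Nat.prime_two).mp (hq.dvd_of_dvd_pow h2)
    omega
  · exact h1

lemma kill_zero {m : ℕ} {s : Multiset (ZMod m)} (h : Multiset.card s = 0) : Kill m s := by
  rw [Multiset.card_eq_zero] at h
  subst h
  exact ⟨1, one_ne_zero, fun κ N _ _ Q _ c _ _ => by simp⟩

/-- the weak estimate at level 0 -/
theorem prb_pt0_le {m r : ℕ} {T P : Finset ℕ} (_hP : ∀ p ∈ P, p.Prime ∧ p ≠ 2 ∧ p ∣ m)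
    (h1 : 1 ≤ T.card)
    (h : T ⊆ P → r * (P.card - 1).factorial ≤ (T.card - 1).factorial * hh P) :
    r * prb T P 0 ≤ 2 * hh P := by
  unfold prb
  rw [if_pos rfl]
  by_cases hTP : T ⊆ P
  · have ht := card_le_card hTP
    have h2 := h hTP
    rw [if_pos hTP]
    have e4 := asc_fac (t := T.card) (p := P.card) h1 ht
    have m3 := asc_mono (sz_le T) (P.card - T.card)
    rw [← e4] at h2
    have h3 : (T.card - 1).factorial * (r * T.card.ascFactorial (P.card - T.card)) ≤
        (T.card - 1).factorial * hh P := by
      calc _ = r * ((T.card - 1).factorial * T.card.ascFactorial (P.card - T.card)) := by ring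
        _ ≤ _ := h2
    have h4 := Nat.le_of_mul_le_mul_left h3 (Nat.factorial_pos _)
    have n3 := Nat.mul_le_mul_left r m3
    have n6 : r * (2 * (sz T).ascFactorial (P.card - T.card)) =
        2 * (r * (sz T).ascFactorial (P.card - T.card)) := by ring
    omega
  · rw [if_neg hTP]
    omega

/-- the weak estimate for pairs -/
theorem prb_pt_le {m r : ℕ} {T P : Finset ℕ} (hP : ∀ p ∈ P, p.Prime ∧ p ≠ 2 ∧ p ∣ m)
    (h2 : T.card = 2) (h : T.erase 4 ⊆ P → r * P.card.factorial ≤ hh P) (j : ℕ) :
    r * prb T P j ≤ 2 * hh P := by
  have h4P : 4 ∉ P := fun h4 => absurd (hP 4 h4).1 (by norm_num)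
  have hsz := sz_le T
  rw [h2] at hsz
  by_cases hT4 : 4 ∈ T
  · have hTP : ¬ T ⊆ P := fun h1 => h4P (h1 hT4)
    have key : T.erase 4 ⊆ P → r * (sz T - 1).ascFactorial (P.card + 1 - 2) ≤ hh P ∧
        r * (sz T).ascFactorial (P.card + 1 - 2) ≤ hh P := by
      intro hS
      have hSc := card_le_card hS
      rw [card_erase_of_mem hT4, h2] at hSc
      have h5 := h hS
      have e4 := asc_fac (t := 2) (p := P.card + 1) (by omega) (by omega)
      rw [Nat.add_sub_cancel] at e4
      norm_num at e4
      have m1 := asc_mono (show sz T - 1 ≤ 2 by omega) (P.card + 1 - 2)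
      have m2 := asc_mono hsz (P.card + 1 - 2)
      have n1 := Nat.mul_le_mul_left r m1
      have n2 := Nat.mul_le_mul_left r m2
      have e5 : P.card + 1 - 2 = P.card - 1 := by omega
      rw [e5] at n1 n2 e4 ⊢
      rw [e4] at n1 n2
      omega
    unfold prb
    rw [if_neg hTP, if_pos hT4, h2]
    split_ifs with a1 a2 a3 a4 a5
    · omega
    · omega
    · have h5 := (key a4).1
      have h6 : r * (2 * (sz T - 1).ascFactorial (P.card + 1 - 2)) =
        2 * (r * (sz T - 1).ascFactorial (P.card + 1 - 2)) := by ring
      omega
    · omega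
    · have := (key a5).2
      omega
    · omega
  · have hTe : T.erase 4 = T := erase_eq_of_notMem hT4
    rw [hTe] at h
    unfold prb
    rw [if_neg hT4, hTe, h2]
    by_cases hTP : T ⊆ P
    · have ht := card_le_card hTP
      rw [h2] at ht
      have h5 := h hTP
      have e4 := asc_fac (t := 2) (p := P.card + 1) (by omega) (by omega)
      rw [Nat.add_sub_cancel] at e4
      norm_num at e4
      have m2 := asc_mono hsz (P.card + 1 - 2)
      have m3 := asc_mono hsz (P.card - 2)
      have e6 : P.card + 1 - 2 = (P.card - 2) + 1 := by omega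
      have m4 : 2 * (2 : ℕ).ascFactorial (P.card - 2) ≤ (2 : ℕ).ascFactorial (P.card + 1 - 2) := by
        rw [e6, Nat.ascFactorial_succ]
        exact Nat.mul_le_mul_right _ (by omega)
      have e7 : P.card + 1 - 2 = P.card - 1 := by omega
      rw [e7] at m2 m4 e4 ⊢
      rw [e4] at m2 m4
      have n2 := Nat.mul_le_mul_left r m2
      have n3 := Nat.mul_le_mul_left r m3
      have n4 := Nat.mul_le_mul_left r m4
      have n5 : r * (2 * (2 : ℕ).ascFactorial (P.card - 2)) =
        2 * (r * (2 : ℕ).ascFactorial (P.card - 2)) := by ring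
      have n6 : r * (2 * (sz T).ascFactorial (P.card - 2)) =
        2 * (r * (sz T).ascFactorial (P.card - 2)) := by ring
      have n7 : r * (4 * (sz T).ascFactorial (P.card - 2)) =
        4 * (r * (sz T).ascFactorial (P.card - 2)) := by ring
      have n8 : r * (2 * (sz T).ascFactorial (P.card - 1)) =
        2 * (r * (sz T).ascFactorial (P.card - 1)) := by ring
      rw [if_pos hTP, if_pos hTP, if_pos hTP, if_pos hTP]
      split_ifs
      · omega
      · omega
      · omega
      · omega
    · rw [if_neg hTP, if_neg hTP, if_neg hTP, if_neg hTP]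
      split_ifs <;> omega

lemma exc_three {p : ℕ} (hp : p.Prime) (hp4 : p % 4 = 1) {a : ℕ} (ha : a % 2 = 1)
    (haa : a = 3 ∨ BadPair a p → BadPair p a) (h : Exc {a, p}) : BadPair p a := by
  rcases h with ⟨q, b, hqb, hb⟩ | ⟨q, hqe, _⟩
  · have hq : q ∈ ({a, p} : Finset ℕ) := by rw [hqb]; exact mem_insert_self _ _
    have hbm : b ∈ ({a, p} : Finset ℕ) := by
      rw [hqb]; exact mem_insert_of_mem (mem_singleton_self _)
    have hne := hb.ne
    rw [mem_insert, mem_singleton] at hq hbm
    rcases hq with rfl | rfl <;> rcases hbm with rfl | rfl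
    · exact absurd rfl hne
    · exact haa (Or.inr hb)
    · exact hb
    · exact absurd rfl hne
  · exfalso
    have h4 : 4 ∈ ({a, p} : Finset ℕ) := by rw [hqe]; exact mem_insert_self _ _
    rw [mem_insert, mem_singleton] at h4
    rcases h4 with h4 | h4 <;> omega

/-- bad pairs are symmetric for primes congruent to 1 modulo 4 -/
lemma badPair_symm {p a : ℕ} (hp : p.Prime) (hp4 : p % 4 = 1) (hp5 : p ≠ 5) (hp13 : p ≠ 13)
    (hp17 : p ≠ 17) (h : BadPair a p) : BadPair p a := by
  have hfp : Fact p.Prime := ⟨hp⟩
  have hfa : Fact a.Prime := ⟨h.1⟩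
  have ha4 := h.2.1
  refine ⟨hp, hp4, hp5, hp13, hp17, h.1, by omega, ?_⟩
  intro hsq
  apply h.2.2.2.2.2.2.2
  exact (ZMod.exists_sq_eq_prime_iff_of_mod_four_eq_one (p := p) (q := a) hp4 (by omega)).mp hsq

section odd

variable {p r a0 : ℕ}

/-- odd degrees -/
theorem killU_odd (hp : p.Prime) (hp4 : p % 4 = 1) (hp29 : 29 ≤ p) (hpr : p = 2 * r + 1)
    (hr : r ≤ 29) (h3 : BadPair p 3 → PhiNot p {3, p}) (ha : BadPair p a0 → PhiNot p {a0, p})
    (ha05 : a0 = 5 ∨ a0 = 7) (ha0 : ∀ a, a = 5 ∨ a = 7 → BadPair p a → a = a0)
    {m : ℕ} [NeZero m] (hm : m % 2 = 1) (hq : BadGe m p) {s : Multiset (ZMod m)}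
    (hs : IsHodge m s) (hc : Multiset.card s ≤ r) : Kill m s := by
  classical
  have hNZ : NeZero (8 * m) := ⟨mul_ne_zero (by norm_num) (NeZero.ne m)⟩
  have hq8 := hq.mul8
  by_cases h00 : Multiset.card s = 0
  · exact kill_zero h00
  obtain ⟨z0, hz0⟩ : ∃ a, a ∈ s.map (iota 8 : ZMod m → ZMod (8 * m)) :=
    Multiset.card_pos_iff_exists_mem.mp (by rw [Multiset.card_map]; omega)
  apply kill_down (e := 8) (by norm_num)
  have hodd : ∀ a ∈ s.map (iota 8 : ZMod m → ZMod (8 * m)), addOrderOf a % 2 = 1 := by
    intro a ha
    obtain ⟨b, _, rfl⟩ := Multiset.mem_map.mp ha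
    rw [addOrderOf_iota rfl]
    by_contra h
    have h1 : 2 ∣ addOrderOf b := by omega
    have h2 : 2 ∣ m := h1.trans (order_dvd b)
    omega
  have hp5 : p ≠ 5 := by omega
  have hp13 : p ≠ 13 := by omega
  have hp17 : p ≠ 17 := by omega
  have hhalf : (p - 1) / 2 = r := by omega
  -- the weak estimate for the pairs with `p`
  have hle : ∀ (a : ZMod (8 * m)) (T : Finset ℕ), T.card = 2 → p ∈ T →
      r * prb T (opf (addOrderOf a)) 0 ≤ 2 * hh (opf (addOrderOf a)) := by
    intro a T hT hpT
    have hP := opf_prop (order_dvd a)
    refine prb_pt0_le hP (by omega) ?_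
    intro hTP
    have h5 := one_bound hP (hTP hpT)
    rw [hhalf] at h5
    rw [hT]
    norm_num
    exact h5
  have hzero : ∀ (a : ZMod (8 * m)) (b : ℕ), b ≠ p → phiO {p} (8 * m) a ≠ 0 →
      prb {b, p} (opf (addOrderOf a)) (lev2 (addOrderOf a)) = 0 := by
    intro a b hb hphi
    obtain ⟨h1, h2⟩ := phiO_ne hphi
    rw [lev_zero h1]
    apply prb_zero
    intro h
    have h3 : b ∈ opf (addOrderOf a) := h (mem_insert_self _ _)
    unfold opf at h3
    rw [h2] at h3
    rw [mem_erase, mem_singleton] at h3
    exact hb h3.2
  by_cases hall : ∀ a ∈ s.map (iota 8 : ZMod m → ZMod (8 * m)), opf (addOrderOf a) = {3, p}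
  · -- all points have the set {3, p}
    refine kill_phi' hp hp4 hp5 hp13 hp17 (T0 := {3, p}) (card_pair (by omega)) ?_
      (dvd_mul_right 8 m) (r := r) (by rw [Multiset.card_map]; exact hc) (hs.iota rfl).rel ?_ ?_ ?_
    · intro hE
      exact h3 (exc_three hp hp4 (by norm_num) (fun h => by
        rcases h with h | h
        · by_contra hcon
          have h6 : ¬ BadPair 3 p := fun h => by have := h.2.1; omega
          rcases hE with ⟨q, b, hqb, hb⟩ | ⟨q, hqe, _⟩
          · have hq1 : q ∈ ({3, p} : Finset ℕ) := by rw [hqb]; exact mem_insert_self _ _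
            have hbm : b ∈ ({3, p} : Finset ℕ) := by
              rw [hqb]; exact mem_insert_of_mem (mem_singleton_self _)
            have hne := hb.ne
            rw [mem_insert, mem_singleton] at hq1 hbm
            rcases hq1 with rfl | rfl <;> rcases hbm with rfl | rfl
            · exact hne rfl
            · exact h6 hb
            · exact hcon hb
            · exact hne rfl
          · have h4 : 4 ∈ ({3, p} : Finset ℕ) := by rw [hqe]; exact mem_insert_self _ _
            rw [mem_insert, mem_singleton] at h4
            rcases h4 with h4 | h4 <;> omega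
        · exact absurd h.2.1 (by norm_num)) hE)
    · intro T hT hTc hTT
      have hst : ∀ a ∈ s.map (iota 8 : ZMod m → ZMod (8 * m)), Dens (8 * m) r T a := by
        intro a ha
        unfold Dens
        rw [lev_zero (hodd a ha)]
        have hP := opf_prop (order_dvd a)
        refine prb_pt0 hP (by rcases hTc with h | h <;> omega) ?_
        intro hTP
        exfalso
        have hc1 := card_le_card hTP
        rw [hall a ha] at hTP hc1
        have hc2 : ({3, p} : Finset ℕ).card = 2 := card_pair (by omega)
        rcases hTc with h4 | ⟨h2, _⟩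
        · omega
        · exact hTT (eq_of_subset_of_card_le hTP (by omega))
      exact ⟨fun a ha => (hst a ha).le, z0, hz0, hst z0 hz0⟩
    · intro a ha
      rw [lev_zero (hodd a ha)]
      exact hle a _ (card_pair (by omega)) (mem_insert_of_mem (mem_singleton_self _))
    · intro a _ hphi
      exact hzero a 3 (by omega) hphi
  · push Not at hall
    obtain ⟨x, hx, hxP⟩ := hall
    have ha0p : a0 ≠ p := by omega
    refine kill_phi' hp hp4 hp5 hp13 hp17 (T0 := {a0, p}) (card_pair ha0p) ?_
      (dvd_mul_right 8 m) (r := r) (by rw [Multiset.card_map]; exact hc) (hs.iota rfl).rel ?_ ?_ ?_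
    · intro hE
      refine ha (exc_three hp hp4 (by omega) (fun h => ?_) hE)
      rcases h with h | h
      · omega
      · exact badPair_symm hp hp4 hp5 hp13 hp17 h
    · intro T hT hTc hTT
      -- strict everywhere, or the pair {3, p}
      have key : (∀ a ∈ s.map (iota 8 : ZMod m → ZMod (8 * m)), Dens (8 * m) r T a) ∨ T = {3, p} := by
        by_cases hT3 : T = {3, p}
        · exact Or.inr hT3
        left
        intro a ha
        unfold Dens
        rw [lev_zero (hodd a ha)]
        have hP := opf_prop (order_dvd a)
        refine prb_pt0 hP (by rcases hTc with h | h <;> omega) ?_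
        intro hTP
        have hA := Nat.factorial_pos ((opf (addOrderOf a)).card - 1)
        rcases hTc with h4 | ⟨h2, hE⟩
        · have h5 := four_bound hP (h4.trans (card_le_card hTP))
          have h6 : 6 ≤ (T.card - 1).factorial := by
            have : Nat.factorial 3 ≤ (T.card - 1).factorial := Nat.factorial_le (by omega)
            simpa [Nat.factorial] using this
          have h7 := Nat.mul_le_mul_right (hh (opf (addOrderOf a))) h6
          have h8 := Nat.mul_le_mul_right ((opf (addOrderOf a)).card - 1).factorial hr
          omega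
        · rw [h2]
          norm_num
          rcases hE with ⟨q, a', rfl, hb⟩ | ⟨q, rfl, _⟩
          · have hqP : q ∈ opf (addOrderOf a) := hTP (mem_insert_self _ _)
            have ha' : a' ∈ opf (addOrderOf a) := hTP (mem_insert_of_mem (mem_singleton_self _))
            have hqp : p ≤ q := by
              rcases hq8 q hb.1 (hP q hqP).2.2 hb.2.1 with h | h | h | h
              · exact absurd h hb.2.2.1
              · exact absurd h hb.2.2.2.1
              · exact absurd h hb.2.2.2.2.1
              · exact h
            have h5 := one_bound hP hqP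
            rcases Nat.lt_or_ge p q with h6 | h6
            · have hqo := ((hP q hqP).1.eq_two_or_odd).resolve_left (hP q hqP).2.1
              have h7 : (r + 1) * ((opf (addOrderOf a)).card - 1).factorial ≤
                  (q - 1) / 2 * ((opf (addOrderOf a)).card - 1).factorial :=
                Nat.mul_le_mul_right _ (by omega)
              rw [add_mul, one_mul] at h7
              omega
            · have hqe : q = p := le_antisymm h6 hqp
              subst hqe
              have ha7 : a' = 3 ∨ a' = 5 ∨ a' = 7 ∨ 11 ≤ a' := by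
                have h8 := hb.2.2.2.2.2.1
                have h9 := hb.2.2.2.2.2.2.1
                have h10 := h8.two_le
                by_contra hcon
                push Not at hcon
                obtain ⟨g1, g2, g3, g4⟩ := hcon
                interval_cases a' <;> first | omega | (revert h8; norm_num; done)
              rcases ha7 with h7 | h7 | h7 | h7
              · exact absurd (by rw [h7, pair_comm]) hT3
              · have := ha0 a' (Or.inl h7) hb
                exact absurd (by rw [this, pair_comm]) hTT
              · have := ha0 a' (Or.inr h7) hb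
                exact absurd (by rw [this, pair_comm]) hTT
              · refine two_bound hP hqP ha' hb.ne ?_
                have h8 : (q - 1) * 10 ≤ (q - 1) * (a' - 1) := Nat.mul_le_mul_left _ (by omega)
                omega
          · exact absurd hTP (not_sub_opf (mem_insert_self _ _) _)
      rcases key with hst | rfl
      · exact ⟨fun a ha => (hst a ha).le, z0, hz0, hst z0 hz0⟩
      · refine ⟨fun a ha => ?_, x, hx, ?_⟩
        · rw [lev_zero (hodd a ha)]
          exact hle a _ (card_pair (by omega)) (mem_insert_of_mem (mem_singleton_self _))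
        · unfold Dens
          rw [lev_zero (hodd x hx)]
          have hP := opf_prop (order_dvd x)
          have hH : 0 < hh (opf (addOrderOf x)) := hh_opf_pos _
          unfold prb
          rw [if_pos rfl]
          by_cases hTP : ({3, p} : Finset ℕ) ⊆ opf (addOrderOf x)
          · have hc2 : ({3, p} : Finset ℕ).card = 2 := card_pair (by omega)
            have hc1 := card_le_card hTP
            have hc3 : 3 ≤ (opf (addOrderOf x)).card := by
              by_contra h
              exact hxP (eq_of_subset_of_card_le hTP (by omega)).symm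
            have h5 := one_bound hP (hTP (mem_insert_of_mem (mem_singleton_self _)))
            rw [hhalf] at h5
            have hsz : sz {3, p} = 1 := by
              unfold sz
              rw [erase_insert (by rw [mem_singleton]; omega), card_singleton]
            have e6 : ((opf (addOrderOf x)).card - 1).factorial =
                ((opf (addOrderOf x)).card - 1) * ((opf (addOrderOf x)).card - 2).factorial := by
              obtain ⟨n, hn⟩ : ∃ n, (opf (addOrderOf x)).card = n + 2 :=
                ⟨(opf (addOrderOf x)).card - 2, by omega⟩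
              rw [hn]
              have : n + 2 - 1 = n + 1 := by omega
              rw [this, Nat.factorial_succ]
              rfl
            rw [e6] at h5
            rw [if_pos hTP, hsz, hc2, Nat.one_ascFactorial]
            have hB := Nat.factorial_pos ((opf (addOrderOf x)).card - 2)
            have h6 : 2 * ((opf (addOrderOf x)).card - 2).factorial ≤
                ((opf (addOrderOf x)).card - 1) * ((opf (addOrderOf x)).card - 2).factorial :=
              Nat.mul_le_mul_right _ (by omega)
            have h7 := Nat.mul_le_mul_left r h6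
            have h8 : r * (2 * ((opf (addOrderOf x)).card - 2).factorial) ≤
                hh (opf (addOrderOf x)) := h7.trans h5
            omega
          · rw [if_neg hTP]
            omega
    · intro a ha
      rw [lev_zero (hodd a ha)]
      exact hle a _ (card_pair ha0p) (mem_insert_of_mem (mem_singleton_self _))
    · intro a _ hphi
      exact hzero a a0 ha0p hphi

end odd

end Pool.Agent.LB
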