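import Pool.Agent.LB.KillU

/-!
Hodge characters of a degree not divisible by 3 with at most `(p - 1) / 2` entries, where `p` is the
least exceptional prime, and the final statement for the degrees not divisible by 6.
-/

set_option linter.unusedSectionVars false

namespace Pool.Agent.LB

open Finset Pool.Agent.N993 Pool.Agent.H916R2 Pool.Agent.N992

variable {p r a0 : ℕ}

/-- degrees not divisible by 3 -/
theorem killU_no3 (hp : p.Prime) (hp4 : p % 4 = 1) (hp29 : 29 ≤ p) (hpr : p = 2 * r + 1)
    (hr : r ≤ 29) (h4 : p % 8 = 5 → PhiNot p {4, p}) (ha : BadPair p a0 → PhiNot p {a0, p})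
    (ha05 : a0 = 5 ∨ a0 = 7) (ha0 : ∀ a, a = 5 ∨ a = 7 → BadPair p a → a = a0)
    {m : ℕ} [NeZero m] (hm : ¬ 3 ∣ m) (hq : BadGe m p) {s : Multiset (ZMod m)}
    (hs : IsHodge m s) (hc : Multiset.card s ≤ r) : Kill m s := by
  classical
  have hNZ : NeZero (8 * m) := ⟨mul_ne_zero (by norm_num) (NeZero.ne m)⟩
  have hm3 : ¬ 3 ∣ 8 * m := by
    intro h
    have h1 : Nat.Coprime 3 8 := by norm_num
    exact hm (h1.dvd_of_dvd_mul_left h)
  have hq8 := hq.mul8
  by_cases h00 : Multiset.card s = 0
  · exact kill_zero h00
  obtain ⟨z0, hz0⟩ : ∃ a, a ∈ s.map (iota 8 : ZMod m → ZMod (8 * m)) :=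
    Multiset.card_pos_iff_exists_mem.mp (by rw [Multiset.card_map]; omega)
  apply kill_down (e := 8) (by norm_num)
  have hp5 : p ≠ 5 := by omega
  have hp13 : p ≠ 13 := by omega
  have hp17 : p ≠ 17 := by omega
  have hhalf : (p - 1) / 2 = r := by omega
  have hp4' : p ≠ 4 := by omega
  -- the weak estimate for the pairs with `p`
  have hle : ∀ (a : ZMod (8 * m)) (T : Finset ℕ), T.card = 2 → p ∈ T →
      r * prb T (opf (addOrderOf a)) (lev2 (addOrderOf a)) ≤ 2 * hh (opf (addOrderOf a)) := by
    intro a T hT hpT
    have hP := opf_prop (order_dvd a)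
    refine prb_pt_le hP hT ?_ _
    intro hTP
    have h5 := one_bound3 hP hm3 (hTP (mem_erase.mpr ⟨hp4', hpT⟩))
    rw [hhalf] at h5
    exact h5
  have hzero : ∀ (a : ZMod (8 * m)) (b : ℕ), b ≠ p → phiO {p} (8 * m) a ≠ 0 →
      prb {b, p} (opf (addOrderOf a)) (lev2 (addOrderOf a)) = 0 := by
    intro a b hb hphi
    obtain ⟨h1, h2⟩ := phiO_ne hphi
    rw [lev_zero h1]
    apply prb_zero
    intro h
    have h3 : b ∈ opf (addOrderOf a) := h (mem_insert_self _ _)
    unfold opf at h3
    rw [h2] at h3
    rw [mem_erase, mem_singleton] at h3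
    exact hb h3.2
  by_cases hall : ∀ a ∈ s.map (iota 8 : ZMod m → ZMod (8 * m)), opf (addOrderOf a) = {p}
  · -- all points have the set {p}
    refine kill_phi' hp hp4 hp5 hp13 hp17 (T0 := {4, p}) (card_pair (by omega)) ?_
      (dvd_mul_right 8 m) (r := r) (by rw [Multiset.card_map]; exact hc) (hs.iota rfl).rel ?_ ?_ ?_
    · intro hE
      rcases hE with ⟨q, b, hqb, hb⟩ | ⟨q, hqe, hq8', _⟩
      · exfalso
        have h4m : 4 ∈ ({q, b} : Finset ℕ) := by rw [← hqb]; exact mem_insert_self _ _
        rw [mem_insert, mem_singleton] at h4m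
        rcases h4m with h | h
        · rw [← h] at hb
          exact absurd hb.1 (by norm_num)
        · rw [← h] at hb
          exact absurd hb.2.2.2.2.2.1 (by norm_num)
      · have hqm : q ∈ ({4, p} : Finset ℕ) := by
          rw [hqe]; exact mem_insert_of_mem (mem_singleton_self _)
        rw [mem_insert, mem_singleton] at hqm
        rcases hqm with h | h
        · omega
        · rw [h] at hq8'
          exact @h4 hq8'
    · intro T hT hTc hTT
      have hst : ∀ a ∈ s.map (iota 8 : ZMod m → ZMod (8 * m)), Dens (8 * m) r T a := by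
        intro a ha
        unfold Dens
        have hP := opf_prop (order_dvd a)
        have hP1 : (opf (addOrderOf a)).card = 1 := by rw [hall a ha, card_singleton]
        refine prb_pt hP ?_ _
        rcases hTc with h4 | ⟨h2, hE⟩
        · left
          exact ⟨h4, fun h => by omega⟩
        · right
          refine ⟨h2, ?_⟩
          rcases hE with ⟨q, a', hTe, hb⟩ | ⟨q, hTe, hq8', hq5, hq13⟩
          · left
            refine ⟨q, a', hTe, hb, fun hTP => ?_⟩
            have := card_le_card hTP
            omega
          · right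
            refine ⟨q, hTe, by omega, fun hqP => ?_⟩
            exfalso
            rw [hall a ha, mem_singleton] at hqP
            exact hTT (by rw [hTe, hqP])
      exact ⟨fun a ha => (hst a ha).le, z0, hz0, hst z0 hz0⟩
    · intro a ha
      exact hle a _ (card_pair (by omega)) (mem_insert_of_mem (mem_singleton_self _))
    · intro a _ hphi
      exact hzero a 4 (by omega) hphi
  · push Not at hall
    obtain ⟨x, hx, hxP⟩ := hall
    have ha0p : a0 ≠ p := by omega
    refine kill_phi' hp hp4 hp5 hp13 hp17 (T0 := {a0, p}) (card_pair ha0p) ?_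
      (dvd_mul_right 8 m) (r := r) (by rw [Multiset.card_map]; exact hc) (hs.iota rfl).rel ?_ ?_ ?_
    · intro hE
      refine ha (exc_three hp hp4 (by omega) (fun h => ?_) hE)
      rcases h with h | h
      · omega
      · exact badPair_symm hp hp4 hp5 hp13 hp17 h
    · intro T hT hTc hTT
      -- strict everywhere, or the pair {4, p}
      have key : (∀ a ∈ s.map (iota 8 : ZMod m → ZMod (8 * m)), Dens (8 * m) r T a) ∨ T = {4, p} := by
        by_cases hT3 : T = {4, p}
        · exact Or.inr hT3
        left
        intro a ha
        unfold Dens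
        have hP := opf_prop (order_dvd a)
        have hA := Nat.factorial_pos (opf (addOrderOf a)).card
        have hH : 0 < hh (opf (addOrderOf a)) := hh_opf_pos _
        refine prb_pt hP ?_ _
        rcases hTc with h4 | ⟨h2, hE⟩
        · left
          refine ⟨h4, fun h => ?_⟩
          have h5 := four_bound3 hP hm3 h
          have h8 := Nat.mul_le_mul_right (opf (addOrderOf a)).card.factorial hr
          omega
        · right
          refine ⟨h2, ?_⟩
          rcases hE with ⟨q, a', hTe, hb⟩ | ⟨q, hTe, hq8', hq5, hq13⟩
          · left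
            refine ⟨q, a', hTe, hb, fun hTP => ?_⟩
            have hqP : q ∈ opf (addOrderOf a) := hTP (by rw [hTe]; exact mem_insert_self _ _)
            have ha' : a' ∈ opf (addOrderOf a) :=
              hTP (by rw [hTe]; exact mem_insert_of_mem (mem_singleton_self _))
            have hqp : p ≤ q := by
              rcases hq8 q hb.1 (hP q hqP).2.2 hb.2.1 with h | h | h | h
              · exact absurd h hb.2.2.1
              · exact absurd h hb.2.2.2.1
              · exact absurd h hb.2.2.2.2.1
              · exact h
            have h5 := one_bound3 hP hm3 hqP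
            rcases Nat.lt_or_ge p q with h6 | h6
            · have hqo := ((hP q hqP).1.eq_two_or_odd).resolve_left (hP q hqP).2.1
              have h7 : (r + 1) * (opf (addOrderOf a)).card.factorial ≤
                  (q - 1) / 2 * (opf (addOrderOf a)).card.factorial :=
                Nat.mul_le_mul_right _ (by omega)
              rw [add_mul, one_mul] at h7
              omega
            · have hqe : q = p := le_antisymm h6 hqp
              subst hqe
              have ha7 : a' = 3 ∨ a' = 5 ∨ a' = 7 ∨ 11 ≤ a' := by
                have h8 := hb.2.2.2.2.2.1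
                have h9 := hb.2.2.2.2.2.2.1
                have h10 := h8.two_le
                by_contra hcon
                push Not at hcon
                obtain ⟨g1, g2, g3, g4⟩ := hcon
                interval_cases a' <;> first | omega | (revert h8; norm_num)
              rcases ha7 with h7 | h7 | h7 | h7
              · exfalso
                rw [h7] at ha'
                exact hm3 (hP 3 ha').2.2
              · have := ha0 a' (Or.inl h7) hb
                exact absurd (by rw [hTe, this, pair_comm]) hTT
              · have := ha0 a' (Or.inr h7) hb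
                exact absurd (by rw [hTe, this, pair_comm]) hTT
              · have h8 := two_bound3 hP hm3 hqP ha' hb.ne h7
                rw [hhalf] at h8
                exact h8
          · right
            refine ⟨q, hTe, by omega, fun hqP => ?_⟩
            have hqprime := (hP q hqP).1
            have hqp : p ≤ q := by
              rcases hq8 q hqprime (hP q hqP).2.2 (by omega) with h | h | h | h
              · exact absurd h hq5
              · exact absurd h hq13
              · omega
              · exact h
            have hqp' : p < q := lt_of_le_of_ne hqp (fun h => hT3 (by rw [hTe, h]))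
            have h5 := one_bound3 hP hm3 hqP
            have h7 : (r + 1) * (opf (addOrderOf a)).card.factorial ≤
                (q - 1) / 2 * (opf (addOrderOf a)).card.factorial :=
              Nat.mul_le_mul_right _ (by omega)
            rw [add_mul, one_mul] at h7
            have h1 : 1 ≤ (opf (addOrderOf a)).card := card_pos.mpr ⟨q, hqP⟩
            have h8 : 1 * hh (opf (addOrderOf a)) ≤
                min 2 (opf (addOrderOf a)).card * hh (opf (addOrderOf a)) :=
              Nat.mul_le_mul_right _ (by omega)
            omega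
      rcases key with hst | rfl
      · exact ⟨fun a ha => (hst a ha).le, z0, hz0, hst z0 hz0⟩
      · refine ⟨fun a ha => hle a _ (card_pair (by omega))
          (mem_insert_of_mem (mem_singleton_self _)), x, hx, ?_⟩
        unfold Dens
        have hP := opf_prop (order_dvd x)
        have hH : 0 < hh (opf (addOrderOf x)) := hh_opf_pos _
        refine prb_pt hP ?_ _
        right
        refine ⟨card_pair (by omega), Or.inr ⟨p, rfl, by omega, fun hpP => ?_⟩⟩
        have h5 := one_bound3 hP hm3 hpP
        rw [hhalf] at h5
        have h1 : 2 ≤ (opf (addOrderOf x)).card := by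
          by_contra h
          have h2 : 1 ≤ (opf (addOrderOf x)).card := card_pos.mpr ⟨p, hpP⟩
          obtain ⟨y, hy⟩ := card_eq_one.mp (by omega : (opf (addOrderOf x)).card = 1)
          rw [hy, mem_singleton] at hpP
          exact hxP (by rw [hy, hpP])
        have h2 : min 2 (opf (addOrderOf x)).card = 2 := by omega
        rw [h2]
        omega
    · intro a ha
      exact hle a _ (card_pair ha0p) (mem_insert_of_mem (mem_singleton_self _))
    · intro a _ hphi
      exact hzero a a0 ha0p hphi

lemma not_badPair {p a : ℕ} (h : IsSquare ((a : ℕ) : ZMod p)) : ¬ BadPair p a := fun hb =>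
  hb.2.2.2.2.2.2.2 h

/-- the case of the prime 29 -/
theorem kill_29 {m : ℕ} [NeZero m] (hm : ¬ 6 ∣ m) {s : Multiset (ZMod m)}
    (hs : IsHodge m s) (hc : Multiset.card s ≤ 14) : Kill m s := kill14 hm hs hc

lemma odd_or {m : ℕ} (hm : ¬ 6 ∣ m) : m % 2 = 1 ∨ ¬ 3 ∣ m := by
  by_cases h3 : 3 ∣ m
  · left
    by_contra h
    have h1 : 2 ∣ m := by omega
    have h4 : Nat.Coprime 2 3 := by norm_num
    have h5 : 2 * 3 ∣ m := h4.mul_dvd_of_dvd_of_dvd h1 h3
    exact hm h5
  · exact Or.inr h3

/-- the case of the prime 37 -/
theorem kill_37 {m : ℕ} [NeZero m] (hm : ¬ 6 ∣ m) (hq : BadGe m 37) {s : Multiset (ZMod m)}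
    (hs : IsHodge m s) (hc : Multiset.card s ≤ 18) : Kill m s := by
  have hp : Nat.Prime 37 := by norm_num
  have h7 : ∀ a, a = 5 ∨ a = 7 → BadPair 37 a → a = 5 := by
    rintro a (rfl | rfl) hb
    · rfl
    · exact absurd hb (not_badPair ⟨9, by decide⟩)
  rcases odd_or hm with h | h
  · exact killU_odd (a0 := 5) (r := 18) hp (by norm_num) (by norm_num) (by norm_num) (by norm_num)
      (fun hb => absurd hb (not_badPair ⟨15, by decide⟩)) (fun _ => phiNot_37_5) (Or.inl rfl) h7 h hq
      hs hc
  · exact killU_no3 (a0 := 5) (r := 18) hp (by norm_num) (by norm_num) (by norm_num) (by norm_num)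
      (fun _ => phiNot_37_4) (fun _ => phiNot_37_5) (Or.inl rfl) h7 h hq hs hc

/-- the case of the prime 41 -/
theorem kill_41 {m : ℕ} [NeZero m] (hm : ¬ 6 ∣ m) (hq : BadGe m 41) {s : Multiset (ZMod m)}
    (hs : IsHodge m s) (hc : Multiset.card s ≤ 20) : Kill m s := by
  have hp : Nat.Prime 41 := by norm_num
  have h7 : ∀ a, a = 5 ∨ a = 7 → BadPair 41 a → a = 7 := by
    rintro a (rfl | rfl) hb
    · exact absurd hb (not_badPair ⟨13, by decide⟩)
    · rfl
  rcases odd_or hm with h | h
  · exact killU_odd (a0 := 7) (r := 20) hp (by norm_num) (by norm_num) (by norm_num) (by norm_num)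
      (fun _ => phiNot_41_3) (fun _ => phiNot_41_7) (Or.inr rfl) h7 h hq hs hc
  · exact killU_no3 (a0 := 7) (r := 20) hp (by norm_num) (by norm_num) (by norm_num) (by norm_num)
      (fun h => absurd h (by norm_num)) (fun _ => phiNot_41_7) (Or.inr rfl) h7 h hq hs hc

/-- the case of the prime 53 -/
theorem kill_53 {m : ℕ} [NeZero m] (hm : ¬ 6 ∣ m) (hq : BadGe m 53) {s : Multiset (ZMod m)}
    (hs : IsHodge m s) (hc : Multiset.card s ≤ 26) : Kill m s := by
  have hp : Nat.Prime 53 := by norm_num
  have h7 : ∀ a, a = 5 ∨ a = 7 → BadPair 53 a → a = 5 := by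
    rintro a (rfl | rfl) hb
    · rfl
    · exact absurd hb (not_badPair ⟨22, by decide⟩)
  rcases odd_or hm with h | h
  · exact killU_odd (a0 := 5) (r := 26) hp (by norm_num) (by norm_num) (by norm_num) (by norm_num)
      (fun _ => phiNot_53_3) (fun _ => phiNot_53_5) (Or.inl rfl) h7 h hq hs hc
  · exact killU_no3 (a0 := 5) (r := 26) hp (by norm_num) (by norm_num) (by norm_num) (by norm_num)
      (fun _ => phiNot_53_4) (fun _ => phiNot_53_5) (Or.inl rfl) h7 h hq hs hc

end Pool.Agent.LB
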