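import Pool.Agent.LB.KillV
import Pool.Agent.LB.Cov8

/-!
The final statement for the degrees not divisible by 6, and the covered pairs.
-/

set_option linter.unusedSectionVars false

namespace Pool.Agent.LB

open Finset Pool.Agent.N993 Pool.Agent.H916R2 Pool.Agent.N992

lemma BadGe.of {m q0 q1 : ℕ} (h : BadGe m q0) (h1 : ∀ q : ℕ, q.Prime → q % 4 = 1 → q0 ≤ q → q1 ≤ q) :
    BadGe m q1 := by
  intro q hq hqm hq4
  rcases h q hq hqm hq4 with h2 | h2 | h2 | h2
  · exact Or.inl h2
  · exact Or.inr (Or.inl h2)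
  · exact Or.inr (Or.inr (Or.inl h2))
  · exact Or.inr (Or.inr (Or.inr (h1 q hq hq4 h2)))

lemma lenCond_61 {m r : ℕ} (hq : BadGe m 61) (hr : r ≤ 29) : LenCond m r := by
  intro P hP
  refine ⟨fun h4 => ?_, ?_⟩
  · have h5 := four_bound hP h4
    rw [← hh_eq hP]
    have hA := Nat.factorial_pos (P.card - 1)
    have h8 := Nat.mul_le_mul_right (P.card - 1).factorial hr
    omega
  · rintro ⟨q, hqP, a, _, hb⟩
    rw [← hh_eq hP]
    have h5 := one_bound hP hqP
    have hq61 : 61 ≤ q := by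
      rcases hq q hb.1 (hP q hqP).2.2 hb.2.1 with h | h | h | h
      · exact absurd h hb.2.2.1
      · exact absurd h hb.2.2.2.1
      · exact absurd h hb.2.2.2.2.1
      · exact h
    have hA := Nat.factorial_pos (P.card - 1)
    have h8 := Nat.mul_le_mul_right (P.card - 1).factorial hr
    have h9 : 30 * (P.card - 1).factorial ≤ (q - 1) / 2 * (P.card - 1).factorial :=
      Nat.mul_le_mul_right _ (by omega)
    omega

lemma lenCond4_61 {m r : ℕ} (h3 : ¬ 3 ∣ m) (hq : BadGe m 61) (hr : r ≤ 29) : LenCond4 m r := by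
  intro P hP
  have key : ∀ q ∈ P, 61 ≤ q → r * P.card.factorial < hh P := by
    intro q hqP hq61
    have h5 := one_bound3 hP h3 hqP
    have hA := Nat.factorial_pos P.card
    have h8 := Nat.mul_le_mul_right P.card.factorial hr
    have h9 : 30 * P.card.factorial ≤ (q - 1) / 2 * P.card.factorial :=
      Nat.mul_le_mul_right _ (by omega)
    omega
  refine ⟨fun hc => ?_, ?_, ?_⟩
  · have h5 := four_bound3 hP h3 hc
    rw [← hh_eq hP]
    have hA := Nat.factorial_pos P.card
    have h8 := Nat.mul_le_mul_right P.card.factorial hr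
    omega
  · rintro ⟨q, hqP, a, _, hb⟩
    rw [← hh_eq hP]
    refine key q hqP ?_
    rcases hq q hb.1 (hP q hqP).2.2 hb.2.1 with h | h | h | h
    · exact absurd h hb.2.2.1
    · exact absurd h hb.2.2.2.1
    · exact absurd h hb.2.2.2.2.1
    · exact h
  · rintro ⟨q, hqP, hq8, hq5, hq13⟩
    rw [← hh_eq hP]
    have h1 : 1 ≤ P.card := card_pos.mpr ⟨q, hqP⟩
    refine lt_of_lt_of_le (key q hqP ?_) (Nat.le_mul_of_pos_left _ (by omega))
    rcases hq q (hP q hqP).1 (hP q hqP).2.2 (by omega) with h | h | h | h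
    · exact absurd h hq5
    · exact absurd h hq13
    · omega
    · exact h

/-- The theorem for the degrees not divisible by 6, the prime factors congruent to 1 modulo 4 being
5, 13, 17 or at least `2 n + 3`. -/
theorem lengthBoundGood (m n : ℕ) [NeZero m] (hm : ¬ 6 ∣ m) (hn : n ≤ 27) (hq : BadGe m (2 * n + 3)) :
    ∃ l : ℕ, ∃ _ : NeZero (l * m), ∀ s : Multiset (ZMod m), IsHodge m s → s ≠ 0 →
      Multiset.card s ≤ n + 2 →
      Generated (l * m) (FourBase (l * m)) (s.map fun a => ((l * a.val : ℕ) : ZMod (l * m))) := by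
  have fin : ∀ r : ℕ, n ≤ r - 1 → r % 2 = 0 → 1 ≤ r →
      (∀ s : Multiset (ZMod m), IsHodge m s → Multiset.card s ≤ r → Kill m s) →
      ∃ l : ℕ, ∃ _ : NeZero (l * m), ∀ s : Multiset (ZMod m), IsHodge m s → s ≠ 0 →
      Multiset.card s ≤ n + 2 →
      Generated (l * m) (FourBase (l * m)) (s.map fun a => ((l * a.val : ℕ) : ZMod (l * m))) := by
    intro r hr hr2 hr1 H
    obtain ⟨l, hl, h⟩ := final_of_kill (m := m) (r := r) H
    refine ⟨l, hl, fun s hs hne hc => h s hs hne ?_⟩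
    obtain ⟨c, hc'⟩ := hs.2.1
    omega
  by_cases h13 : n ≤ 13
  · exact fin 14 (by omega) (by norm_num) (by norm_num) fun s hs hc => kill14 hm hs hc
  by_cases h17 : n ≤ 17
  · refine fin 18 (by omega) (by norm_num) (by norm_num) fun s hs hc => kill_37 hm (hq.of ?_) hs hc
    intro q hqp hq4 hq0
    by_contra h
    have h1 : q = 33 := by omega
    rw [h1] at hqp
    exact absurd hqp (by norm_num)
  by_cases h19 : n ≤ 19
  · refine fin 20 (by omega) (by norm_num) (by norm_num) fun s hs hc => kill_41 hm (hq.of ?_) hs hc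
    intro q hqp hq4 hq0
    omega
  by_cases h25 : n ≤ 25
  · refine fin 26 (by omega) (by norm_num) (by norm_num) fun s hs hc => kill_53 hm (hq.of ?_) hs hc
    intro q hqp hq4 hq0
    by_contra h
    have h1 : q = 45 ∨ q = 49 := by omega
    rcases h1 with h1 | h1
    · rw [h1] at hqp
      exact absurd hqp (by norm_num)
    · rw [h1] at hqp
      exact absurd hqp (by norm_num)
  have hq61 : BadGe m 61 := hq.of (by
    intro q hqp hq4 hq0
    by_contra h
    have h1 : q = 57 := by omega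
    rw [h1] at hqp
    exact absurd hqp (by norm_num))
  rcases odd_or hm with h | h
  · obtain ⟨l, hl, hgen⟩ := lengthBound2 m (n + 2) (Or.inl ⟨h, lenCond_61 hq61 (by omega)⟩)
    exact ⟨l, hl, fun s hs hne hc => hgen s hs hne hc⟩
  · exact lengthBoundEven m (n + 2) (lenCond4_61 h hq61 (by omega))

/-- The covered pairs of a degree `m` and a dimension `n`: `n ≤ 7`, every degree; or `m` is not
divisible by 6 and `n ≤ 13`; or `m` is not divisible by 6, `n ≤ 27` and every prime factor of `m`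
congruent to 1 modulo 4 is 5, 13, 17 or at least `2 n + 3`; or all odd prime factors of `m` exceed
`2 n + 5`; or `m` is odd and the square of every prime factor exceeds `4 n + 9`; or one of the numerical
conditions `LenCond4 m (n + 2)`, `LenCond m (n + 2)` (odd `m`), `LenCond m (2 n + 4)` (`m` twice an odd
number). -/
def Covered10 (m n : ℕ) : Prop :=
  n ≤ 7 ∨ (n ≤ 13 ∧ ¬ 6 ∣ m) ∨
  (n ≤ 27 ∧ ¬ 6 ∣ m ∧ ∀ q : ℕ, q.Prime → q ∣ m → q % 4 = 1 → q = 5 ∨ q = 13 ∨ q = 17 ∨ 2 * n + 3 ≤ q) ∨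
  (∀ p : ℕ, p.Prime → p ≠ 2 → p ∣ m → 2 * n + 5 < p) ∨
  (m % 2 = 1 ∧ ∀ p : ℕ, p.Prime → p ∣ m → 4 * n + 9 < p ^ 2) ∨
  LenCond4 m (n + 2) ∨ (m % 2 = 1 ∧ LenCond m (n + 2)) ∨ (m % 4 = 2 ∧ LenCond m (2 * n + 4))

/-- The theorem for the covered pairs. -/
theorem lengthBound10 (m n : ℕ) [NeZero m] (h : Covered10 m n) :
    ∃ l : ℕ, ∃ _ : NeZero (l * m), ∀ s : Multiset (ZMod m), IsHodge m s → s ≠ 0 →
      Multiset.card s ≤ n + 2 →
      Generated (l * m) (FourBase (l * m)) (s.map fun a => ((l * a.val : ℕ) : ZMod (l * m))) := by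
  rcases h with h | ⟨h, h1⟩ | ⟨h, h1, h2⟩ | h | h
  · exact lengthBound9 m n (Or.inl h)
  · obtain ⟨l, hl, hgen⟩ := lengthBound14 m h1
    exact ⟨l, hl, fun s hs hne hc => hgen s hs hne (by omega)⟩
  · exact lengthBoundGood m n h1 h h2
  · exact lengthBound9 m n (Or.inr (Or.inr (Or.inl h)))
  · exact lengthBound9 m n (Or.inr (Or.inr (Or.inr h)))

/-- The degrees which are twice an odd number not divisible by 3, dimension at most 15. -/
theorem covered10_two {m n : ℕ} (hm : m % 4 = 2) (h3 : ¬ 3 ∣ m) (hn : n ≤ 15) : Covered10 m n :=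
  Or.inr (Or.inr (Or.inr (Or.inr (Or.inr (Or.inr (Or.inr ⟨hm, lenCond_35 h3 (by omega)⟩))))))

/-- The degrees prime to 6, dimension at most 33. -/
theorem covered10_six {m n : ℕ} (hm : m % 2 = 1) (h3 : ¬ 3 ∣ m) (hn : n ≤ 33) : Covered10 m n :=
  Or.inr (Or.inr (Or.inr (Or.inr (Or.inr (Or.inr (Or.inl ⟨hm, lenCond_35 h3 (by omega)⟩))))))

/-- The odd degrees not divisible by 87, dimension at most 15. -/
theorem covered10_odd {m n : ℕ} (hm : m % 2 = 1) (h87 : ¬ 87 ∣ m) (hn : n ≤ 15) : Covered10 m n :=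
  Or.inr (Or.inr (Or.inr (Or.inr (Or.inr (Or.inr (Or.inl ⟨hm, lenCond_17 h87 (by omega)⟩))))))

/-- Dimension at most 17 for the degrees not divisible by 6, 58 and 87. -/
theorem covered10_17 {m n : ℕ} (h6 : ¬ 6 ∣ m) (h58 : ¬ 58 ∣ m) (h87 : ¬ 87 ∣ m) (hn : n ≤ 17) :
    Covered10 m n := by
  by_cases h29 : 29 ∣ m
  · have h2 : m % 2 = 1 := by
      by_contra h
      exact h58 ((show Nat.Coprime 2 29 by norm_num).mul_dvd_of_dvd_of_dvd (by omega) h29)
    have h3 : ¬ 3 ∣ m := fun h =>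
      h87 ((show Nat.Coprime 3 29 by norm_num).mul_dvd_of_dvd_of_dvd h h29)
    exact covered10_six h2 h3 (by omega)
  · refine Or.inr (Or.inr (Or.inl ⟨by omega, h6, fun q hq hqm hq4 => ?_⟩))
    by_contra h
    push Not at h
    obtain ⟨h5, h13, h17, hlt⟩ := h
    have hq37 : q < 37 := by omega
    interval_cases q <;> first | omega | (revert hq; norm_num; done) | exact h29 hqm

/-- The old covered pairs are covered. -/
theorem Covered8.covered10 {m n : ℕ} (h : Covered8 m n) : Covered10 m n := by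
  rcases h with h | ⟨h, h1⟩ | h
  · exact Or.inl h
  · refine Or.inr (Or.inl ⟨by omega, fun h6 => ?_⟩)
    rcases h1 with h1 | h1
    · omega
    · exact h1 (dvd_trans (by norm_num) h6)
  · exact Or.inr (Or.inr (Or.inr h))

end Pool.Agent.LB
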