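import Pool.Agent.H916R2.Relations
import Pool.Agent.N993.Core

/-!
Relations of level `2 m'`, `m'` odd, as relations of level `m'` of at most twice the length.
-/

set_option linter.unusedSectionVars false

namespace Pool.Agent.LB

open Finset Pool.Agent.H916R2 Pool.Agent.N993

lemma exists_tr {m m' : ℕ} [NeZero m] [NeZero m'] (hm : 2 * m' = m) (hodd : m' % 2 = 1)
    (a : ZMod m) : ∃ t : Multiset (ZMod m'), Multiset.card t ≤ 2 ∧
      ∀ (Q : Type) [AddCommGroup Q] (c : ZMod m → Q), OddDist c →
        c a = (t.map (fun b => c (iota 2 b))).sum := by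
  by_cases h : a.val % 2 = 0
  · refine ⟨{((a.val / 2 : ℕ) : ZMod m')}, by simp, ?_⟩
    intro Q _ c _
    rw [Multiset.map_singleton, Multiset.sum_singleton, iota_natCast hm]
    congr 1
    have : 2 * (a.val / 2) = a.val := by omega
    rw [this, ZMod.natCast_zmod_val]
  · set b0 : ZMod m' := (((a.val + m') / 2 : ℕ) : ZMod m') with hb0
    have h0 : (iota 2 b0 : ZMod m) = a + (m' : ZMod m) := by
      rw [hb0, iota_natCast hm]
      have : 2 * ((a.val + m') / 2) = a.val + m' := by omega
      rw [this]
      push_cast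
      rw [ZMod.natCast_zmod_val]
    refine ⟨{b0 + b0, -b0}, by simp, ?_⟩
    intro Q _ c hc
    have h1 := hc.dist 2 m' Nat.prime_two hm (a + (m' : ZMod m))
    rw [sum_range_succ, sum_range_one] at h1
    have h2 : a + (m' : ZMod m) + ((1 : ℕ) : ZMod m) * (m' : ZMod m) = a := by
      have h3 : ((2 * m' : ℕ) : ZMod m) = 0 := by rw [hm]; exact ZMod.natCast_self m
      push_cast at h3 ⊢
      linear_combination h3
    have h4 : a + (m' : ZMod m) + ((0 : ℕ) : ZMod m) * (m' : ZMod m) = a + (m' : ZMod m) := by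
      push_cast; ring
    rw [h2, h4] at h1
    have h5 : (iota 2 (b0 + b0) : ZMod m) = ((2 : ℕ) : ZMod m) * (a + (m' : ZMod m)) := by
      rw [iota_add hm, h0]; push_cast; ring
    have h6 : (iota 2 (-b0) : ZMod m) = -(a + (m' : ZMod m)) := by
      rw [iota_neg hm, h0]
    rw [Multiset.insert_eq_cons, Multiset.map_cons, Multiset.sum_cons, Multiset.map_singleton,
      Multiset.sum_singleton, h5, h6, hc.neg, ← h1]
    abel

theorem exists_half {m m' : ℕ} [NeZero m] [NeZero m'] (hm : 2 * m' = m) (hodd : m' % 2 = 1)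
    (s : Multiset (ZMod m)) (hs : Rel (fun a : ZMod m => ((s.count a : ℕ) : ℤ))) :
    ∃ s' : Multiset (ZMod m'), Multiset.card s' ≤ 2 * Multiset.card s ∧
      Rel (fun a : ZMod m' => ((s'.count a : ℕ) : ℤ)) ∧
      ∀ (Q : Type) [AddCommGroup Q] (c : ZMod m → Q), OddDist c →
        (s.map c).sum = (s'.map (fun b => c (iota 2 b))).sum := by
  choose t ht1 ht2 using exists_tr hm hodd
  have key : ∀ s : Multiset (ZMod m), Multiset.card (s.bind t) ≤ 2 * Multiset.card s ∧
      ∀ (Q : Type) [AddCommGroup Q] (c : ZMod m → Q), OddDist c →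
        (s.map c).sum = ((s.bind t).map (fun b => c (iota 2 b))).sum := by
    intro s
    induction s using Multiset.induction_on with
    | empty => simp
    | cons a s ih =>
      refine ⟨?_, ?_⟩
      · rw [Multiset.cons_bind, Multiset.card_add, Multiset.card_cons]
        have := ht1 a
        have := ih.1
        omega
      · intro Q _ c hc
        rw [Multiset.cons_bind, Multiset.map_add, Multiset.sum_add, Multiset.map_cons,
          Multiset.sum_cons, ← ih.2 Q c hc, ht2 a Q c hc]
  refine ⟨s.bind t, (key s).1, ?_, (key s).2⟩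
  intro t'
  obtain ⟨u, hu⟩ := ZMod.unitsMap_surjective (Dvd.intro_left 2 hm : m' ∣ m) t'
  have h1 := (key s).2 ℤ (fun a => saw ((u : ZMod m) * a)) (saw_oddDist' u)
  have h2 : (s.map (fun a => saw ((u : ZMod m) * a))).sum = 0 := by
    rw [← sum_count]
    have := hs u
    simpa using this
  rw [h2] at h1
  have h3 : ∀ b : ZMod m', saw ((u : ZMod m) * iota 2 b) = 2 * saw ((t' : ZMod m') * b) := by
    intro b
    rw [unit_iota hm, saw_iota hm, hu]
    norm_num
  simp only [h3] at h1
  rw [Multiset.sum_map_mul_left] at h1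
  have h4 := sum_count (s.bind t) (fun b => saw ((t' : ZMod m') * b))
  have h5 : ((s.bind t).map (fun b => saw ((t' : ZMod m') * b))).sum = 0 := by omega
  rw [h5] at h4
  simpa using h4

end Pool.Agent.LB
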