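import Pool.Agent.LB.Cyc
import Pool.Agent.LB.Two
import Pool.Agent.N993.Good

/-!
The assembly: relations of odd level with few terms follow from the base.
-/

set_option linter.unusedSectionVars false

namespace Pool.Agent.LB

open Finset Pool.Agent.N993 Pool.Agent.H916R2 Pool.Agent.N992

/-- the decomposition theorem -/
def DecompStmt : Prop := ∀ (ι : Type) [DecidableEq ι] [Fintype ι] (D : Dat ι),
  (∀ i, D.c i ≠ 1) → ∀ (f : D.Pt → AddCircle (1 : ℚ)), D.IsD0 univ f →
  (∀ x, f (D.act D.c x) = - f x) → ∀ (b : Finset ι → D.GG) (lam : Finset ι → D.Pt → ZMod 2),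
  (∀ T, Even T.card → ¬ Zr D T f → Lam D T (b T) (lam T)) →
  ∃ 𝓑 : Finset (Finset ι), (∀ T ∈ 𝓑, Even T.card ∧ ¬ Zr D T f) ∧
    Zr D univ (fun x => f x - ∑ T ∈ 𝓑, half (lam T x))

/-- the passage to prime powers -/
def RhoStmt : Prop := ∀ (m m0 k : ℕ) [NeZero m] [NeZero m0], m % 2 = 1 → k * m0 = m →
  (∀ p, p.Prime → p ∣ m → p ∣ m0) →
  ∃ ρ : ZMod m → ZMod m0, (∀ b : ZMod m0, ρ (iota k b) = b) ∧
    ∀ (A : Type) [AddCommGroup A], (∀ a : A, a + a = 0) → ∀ c : ZMod m0 → A,
      OddDist c → OddDist (fun x => c (ρ x))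

lemma _root_.Pool.Agent.H916R2.OddDist.sub {m : ℕ} {Q : Type*} [AddCommGroup Q] {c d : ZMod m → Q}
    (hc : OddDist c) (hd : OddDist d) : OddDist (fun a => c a - d a) where
  neg := fun a => by rw [hc.neg, hd.neg]; abel
  half := fun a ha => by rw [hc.half a ha, hd.half a ha, sub_zero]
  dist := fun p q hp hpd a => by rw [sum_sub_distrib, hc.dist p q hp hpd, hd.dist p q hp hpd]

lemma _root_.Pool.Agent.H916R2.OddDist.sum {m : ℕ} {Q : Type*} [AddCommGroup Q] {κ : Type*}
    {s : Finset κ} {c : κ → ZMod m → Q} (hc : ∀ i ∈ s, OddDist (c i)) :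
    OddDist (fun a => ∑ i ∈ s, c i a) where
  neg := fun a => by
    rw [← sum_neg_distrib]
    exact sum_congr rfl fun i hi => (hc i hi).neg a
  half := fun a ha => sum_eq_zero fun i hi => (hc i hi).half a ha
  dist := fun p q hp hpd a => by
    rw [sum_comm]
    exact sum_congr rfl fun i hi => (hc i hi).dist p q hp hpd a

/-- For every even set of primes which is not good and every multiset of at most `r` points there is a
distribution modulo 2 with the class of the set which vanishes at these points. -/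
def Avoid (S : Finset ℕ) [∀ i : Ix S, NeZero (nn S i)] (r : ℕ) : Prop :=
  ∀ T : Finset (Ix S), Even T.card → ¬ Good (T.map (Function.Embedding.subtype _)) →
    ∀ X : Multiset (cyc (nn S)).Pt, Multiset.card X ≤ r →
      ∃ (b : (cyc (nn S)).GG) (lam : (cyc (nn S)).Pt → ZMod 2), Lam (cyc (nn S)) T b lam ∧
        ∀ y ∈ X, lam y = 0

theorem main_odd (hdec : DecompStmt) (hrho : RhoStmt) {m : ℕ} [NeZero m] (hodd : m % 2 = 1)
    {S : Finset ℕ} (hS : S = m.primeFactors) [hnz : ∀ i : Ix S, NeZero (nn S i)] {r : ℕ}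
    (hav : Avoid S r) :
    ∃ L : ℕ, L ≠ 0 ∧ ∀ s : Multiset (ZMod m), Multiset.card s ≤ r →
      Rel (fun a : ZMod m => ((s.count a : ℕ) : ℤ)) → ∀ (κ N : ℕ) [NeZero N], κ * (L * m) = N →
      ∀ (Q : Type) [AddCommGroup Q] (c : ZMod N → Q), OddDist c →
      (∀ s, FourBase N s → (s.map c).sum = 0) →
      (s.map (fun a => c (iota (κ * L) a))).sum = 0 := by
  classical
  have hm0 : m ≠ 0 := NeZero.ne m
  have hSp : ∀ x ∈ S, x.Prime ∧ x % 2 = 1 ∧ x ∣ m := by
    intro x hx
    rw [hS] at hx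
    have h1 := Nat.prime_of_mem_primeFactors hx
    have h2 := Nat.dvd_of_mem_primeFactors hx
    refine ⟨h1, ?_, h2⟩
    rcases h1.eq_two_or_odd with h | h
    · exfalso; subst h; omega
    · exact h
  have hn : ∀ i : Ix S, (nn S i).Prime ∧ nn S i % 2 = 1 := fun i =>
    ⟨(hSp i i.2).1, (hSp i i.2).2.1⟩
  have hn' : Adm' (nn S) := fun i => Or.inl (hn i)
  have hco : Pairwise (fun i j : Ix S => (nn S i).Coprime (nn S j)) := fun i j hij =>
    (Nat.coprime_primes (hn i).1 (hn j).1).mpr (fun h => hij (Subtype.ext h))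
  set m0 : ℕ := ∏ i : Ix S, nn S i with hm0def
  have hm00 : m0 ≠ 0 := prod_ne_zero_iff.mpr fun i _ => (hnz i).out
  have hNZ0 : NeZero m0 := ⟨hm00⟩
  have hm0S : m0 = ∏ x ∈ S, x := by
    rw [hm0def]
    exact Finset.prod_coe_sort S (fun x => x)
  have hdvd : m0 ∣ m := by
    rw [hm0S]
    apply Finset.prod_dvd_of_isRelPrime
    · intro a ha b hb hab
      exact Nat.coprime_iff_isRelPrime.mp
        ((Nat.coprime_primes (hSp a ha).1 (hSp b hb).1).mpr hab)
    · intro x hx; exact (hSp x hx).2.2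
  obtain ⟨k, hk⟩ := hdvd
  have hk' : k * m0 = m := (mul_comm _ _).trans hk.symm
  have hpm : ∀ p, p.Prime → p ∣ m → p ∣ m0 := by
    intro p hp hpm
    rw [hm0S]
    exact dvd_prod_of_mem (fun x => x) (by rw [hS]; exact Nat.mem_primeFactors.mpr ⟨hp, hpm, hm0⟩)
  have hred : Red m m0 k := red_exists _ m m0 k rfl hk' hpm (fun h => by
    exfalso
    have : 2 ∣ m := dvd_trans (by norm_num) h
    omega)
  obtain ⟨ρ, hρ1, hρ2⟩ := hrho m m0 k hodd hk' hpm
  -- the multipliers
  let l : Finset ℕ → ℕ := fun T => if h : Good T then h.choose else 1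
  have hl0 : ∀ T, l T ≠ 0 := by
    intro T
    by_cases h : Good T
    · simp only [l, dif_pos h]; exact h.choose_spec.1
    · simp only [l, dif_neg h]; exact one_ne_zero
  have hl : ∀ T, Good T → ∀ (k N mT : ℕ) [NeZero N] [NeZero mT], ∏ x ∈ T, x = mT →
      k * (l T * mT) = N → ∀ (Q : Type) [AddCommGroup Q] (c : ZMod N → Q), OddDist c →
      (∀ s, FourBase N s → (s.map c).sum = 0) →
      ∀ x : ZMod mT → ℤ, Rel x → ∑ b, x b • c (iota (k * l T) b) = 0 := by
    intro T h
    simp only [l, dif_pos h]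
    exact h.choose_spec.2
  set L : ℕ := ∏ T ∈ S.powerset, l T with hL
  have hL0 : L ≠ 0 := prod_ne_zero_iff.mpr fun T _ => hl0 T
  refine ⟨L, hL0, ?_⟩
  intro s hcard hs κ N _ hN Q _ c hc hkill
  have hκN : (κ * L) * m = N := by rw [← hN]; ring
  have hκN0 : (κ * L * k) * m0 = N := by rw [mul_assoc, hk', hκN]
  -- the distribution on level `m0`
  set c1 : ZMod m0 → Q := fun b => c (iota (κ * L * k) b) with hc1
  have hc1D : OddDist c1 := hc.comp_iota hκN0
  have hc1m : ∀ b : ZMod m0, c (iota (κ * L) (iota k b : ZMod m)) = c1 b := by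
    intro b
    rw [iota_comp hκN]
  let E := (ZMod.prodEquivPi (nn S) hco).symm
  refine CharacterModule.eq_zero_of_character_apply fun φ0 => ?_
  let φ : Q →+ AddCircle (1 : ℚ) := φ0
  change φ _ = 0
  set D := cyc (nn S) with hD
  have hcφ : OddDist (fun b => φ (c1 b)) := Pool.Agent.N998.oddDist_map hc1D φ
  set f : D.Pt → AddCircle (1 : ℚ) := fun x => φ (c1 (E (emb x))) with hf
  have hfD := isD0_of_oddDist hn' hco rfl E hcφ
  have hgood : ∀ T : Finset (Ix S), Good (T.map (Function.Embedding.subtype _)) → Zr D T f := by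
    intro T hT
    refine zr_of_kills hn' hco rfl E (c := c1) T ?_ φ
    intro mT lT _ hmT hlT x hx
    have hTS : T.map (Function.Embedding.subtype _) ⊆ S := by
      intro x hx
      rw [mem_map] at hx
      obtain ⟨y, _, rfl⟩ := hx
      exact y.2
    obtain ⟨e, he⟩ : l (T.map (Function.Embedding.subtype _)) ∣ L :=
      dvd_prod_of_mem l (mem_powerset.mpr hTS)
    have hprod : ∏ x ∈ T.map (Function.Embedding.subtype _), x = mT := by
      rw [← hmT, prod_map]; rfl
    have hlT' : lT * mT = m0 := hlT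
    have h1 := hl _ hT (κ * e * k * lT) N mT hprod (by
      rw [← hκN0, ← hlT', he]; ring) Q c hc hkill x hx
    have h2 : κ * e * k * lT * l (T.map (Function.Embedding.subtype _)) = κ * L * k * lT := by
      rw [he]; ring
    rw [h2] at h1
    have h3 : ∀ b : ZMod mT, c1 (iota lT b) = c (iota (κ * L * k * lT) b) := by
      intro b
      rw [hc1]
      beta_reduce
      rw [iota_comp hκN0]
    simp only [h3]
    exact h1
  -- the distributions modulo 2
  set X : Multiset D.Pt := s.map (fun a => pnt (nn S) (ρ a)) with hX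
  have hXc : Multiset.card X ≤ r := by rw [hX, Multiset.card_map]; exact hcard
  have hex : ∀ T : Finset (Ix S), ∃ (b : D.GG) (lam : D.Pt → ZMod 2),
      Even T.card → ¬ Zr D T f → Lam D T b lam ∧ ∀ y ∈ X, lam y = 0 := by
    intro T
    by_cases h : Even T.card ∧ ¬ Zr D T f
    · obtain ⟨b, lam, h1⟩ := hav T h.1 (fun hg => h.2 (hgood T hg)) X hXc
      exact ⟨b, lam, fun _ _ => h1⟩
    · exact ⟨1, 0, fun h1 h2 => absurd ⟨h1, h2⟩ h⟩
  choose b lam hlam using hex
  obtain ⟨𝓑, h𝓑, hzr⟩ := hdec (Ix S) D (fun i => neg_one_ne_one (hn' i)) f hfD.1 hfD.2 b lam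
    (fun T h1 h2 => (hlam T h1 h2).1)
  have h𝓑L : ∀ T ∈ 𝓑, Lam D T (b T) (lam T) ∧ ∀ y ∈ X, lam T y = 0 := fun T hT =>
    hlam T (h𝓑 T hT).1 (h𝓑 T hT).2
  have hne : ∀ T ∈ 𝓑, T.Nonempty := by
    intro T hT
    rw [nonempty_iff_ne_empty]
    rintro rfl
    apply (h𝓑 ∅ hT).2
    apply hgood
    rw [map_empty]
    exact good_of_squares (fun x hx => absurd hx (notMem_empty _))
      (fun x hx => absurd hx (notMem_empty _))
  have hOD : ∀ T ∈ 𝓑, OddDist (fun x : ZMod m => half (lam T (pnt (nn S) (ρ x)))) := by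
    intro T hT
    have h1 : OddDist (fun b : ZMod m0 => lam T (pnt (nn S) b)) := by
      refine oddDist_pnt hn hco rfl (h𝓑L T hT).1.isD ?_ ?_
      · intro x
        rw [(h𝓑L T hT).1.inv, ZModModule.neg_eq_self]
      · obtain ⟨i, hi⟩ := hne T hT
        exact (h𝓑L T hT).1.zero _ ⟨i, hi, rfl⟩
    have h2 := hρ2 (ZMod 2) (fun a => CharTwo.add_self_eq_zero a) _ h1
    exact Pool.Agent.N998.oddDist_map h2 half
  set c2 : ZMod m → AddCircle (1 : ℚ) := fun a => φ (c (iota (κ * L) a)) -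
    ∑ T ∈ 𝓑, half (lam T (pnt (nn S) (ρ a))) with hc2
  have hc2D : OddDist c2 :=
    (Pool.Agent.N998.oddDist_map (hc.comp_iota hκN) φ).sub (OddDist.sum hOD)
  obtain ⟨x0, hx0, he⟩ := hred _ c2 hc2D _ hs
  have hc3 : ∀ b : ZMod m0, c2 (iota k b) = φ (c1 b) - ∑ T ∈ 𝓑, half (lam T (pnt (nn S) b)) := by
    intro b
    rw [hc2]
    beta_reduce
    rw [hc1m, hρ1]
  have hzero : ∑ b, x0 b • c2 (iota k b) = 0 := by
    refine kills_of_zr hn' hco rfl E (hc2D.comp_iota hk') ?_ x0 hx0
    have h1 : (fun x : D.Pt => c2 (iota k (E (emb x)))) =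
        fun x => f x - ∑ T ∈ 𝓑, half (lam T x) := by
      funext x
      rw [hc3, hf]
      congr 1
      refine sum_congr rfl fun T _ => ?_
      rw [pnt_E hn' rfl E]
    have h2 : Zr D univ (fun x : D.Pt => c2 (iota k (E (emb x)))) := by rw [h1]; exact hzr
    exact h2
  rw [hzero, sum_count] at he
  -- conclusion
  have h3 : (s.map c2).sum = (s.map (fun a => φ (c (iota (κ * L) a)))).sum := by
    congr 1
    apply Multiset.map_congr rfl
    intro a ha
    rw [hc2]
    beta_reduce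
    rw [sum_eq_zero, sub_zero]
    intro T hT
    rw [(h𝓑L T hT).2 _ (Multiset.mem_map_of_mem _ ha), map_zero]
  rw [h3] at he
  rw [map_multiset_sum, Multiset.map_map]
  exact he

end Pool.Agent.LB
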