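import Pool.Agent.LB.PhiKill

/-!
The numerical conditions for 14 entries.
-/

set_option linter.unusedSectionVars false

namespace Pool.Agent.LB

open Finset Pool.Agent.N993 Pool.Agent.H916R2 Pool.Agent.N992

/-- the estimate for one set and one point -/
theorem prb_pt {m r : ℕ} {T P : Finset ℕ} (hP : ∀ p ∈ P, p.Prime ∧ p ≠ 2 ∧ p ∣ m)
    (hbad : (4 ≤ T.card ∧ (3 ≤ P.card → r * P.card.factorial < 6 * hh P)) ∨
      (T.card = 2 ∧ ((∃ q a, T = {q, a} ∧ BadPair q a ∧ (T ⊆ P → r * P.card.factorial < hh P)) ∨
        ∃ q, T = {4, q} ∧ q % 2 = 1 ∧ (q ∈ P → r * P.card.factorial < min 2 P.card * hh P))))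
    (j : ℕ) : r * prb T P j < 2 * hh P := by
  have h4P : 4 ∉ P := fun h4 => absurd (hP 4 h4).1 (by norm_num)
  have hH : 0 < hh P := by
    rw [hh_eq hP]
    exact prod_pos fun p hp => (half_pos' hP hp).1
  set H := hh P with hHd
  have ht2 : 2 ≤ T.card := by rcases hbad with h1 | h1 <;> omega
  have hsz := sz_le T
  by_cases hT4 : 4 ∈ T
  · have hTP : ¬ T ⊆ P := fun h1 => h4P (h1 hT4)
    have key : T.erase 4 ⊆ P → r * (sz T - 1).ascFactorial (P.card + 1 - T.card) < H ∧
        r * (sz T).ascFactorial (P.card + 1 - T.card) < 2 * H := by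
      intro hS
      have hSc := card_le_card hS
      rw [card_erase_of_mem hT4] at hSc
      have e1 := asc_fac (t := T.card - 1) (p := P.card) (by omega) hSc
      have e2 : P.card - (T.card - 1) = P.card + 1 - T.card := by omega
      have e3 : T.card - 1 - 1 = T.card - 2 := by omega
      rw [e2, e3] at e1
      have e4 := asc_fac (t := T.card) (p := P.card + 1) (by omega) (by omega)
      rw [Nat.add_sub_cancel] at e4
      have m1 := asc_mono (show sz T - 1 ≤ T.card - 1 by omega) (P.card + 1 - T.card)
      have m2 := asc_mono hsz (P.card + 1 - T.card)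
      set G := (T.card - 1).ascFactorial (P.card + 1 - T.card) with hG
      set F := T.card.ascFactorial (P.card + 1 - T.card) with hF
      have e5 : P.card.factorial = P.card * (P.card - 1).factorial := by
        obtain ⟨n, hn⟩ : ∃ n, P.card = n + 1 := ⟨P.card - 1, by omega⟩
        rw [hn, Nat.factorial_succ, Nat.add_sub_cancel]
      rcases hbad with ⟨h4, c1⟩ | ⟨h2, hE⟩
      · have h5 := c1 (by omega)
        constructor
        · refine lt_of_le_of_lt (Nat.mul_le_mul_left r m1) ?_
          have h6 : 2 ≤ (T.card - 2).factorial := by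
            have : Nat.factorial 2 ≤ (T.card - 2).factorial := Nat.factorial_le (by omega)
            simpa [Nat.factorial] using this
          have h7 : 6 ≤ P.card * (T.card - 2).factorial := by
            calc 6 = 3 * 2 := rfl
              _ ≤ _ := Nat.mul_le_mul (by omega) h6
          have h8 : 6 * (r * G) < 6 * H := by
            refine lt_of_le_of_lt ?_ h5
            rw [e5, ← e1]
            calc 6 * (r * G) ≤ (P.card * (T.card - 2).factorial) * (r * G) :=
                  Nat.mul_le_mul_right _ h7
              _ = _ := by ring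
          omega
        · have h6 : 6 ≤ (T.card - 1).factorial := by
            have : Nat.factorial 3 ≤ (T.card - 1).factorial := Nat.factorial_le (by omega)
            simpa [Nat.factorial] using this
          have h8 : 6 * (r * F) < 6 * H := by
            refine lt_of_le_of_lt ?_ h5
            rw [← e4]
            calc 6 * (r * F) ≤ (T.card - 1).factorial * (r * F) := Nat.mul_le_mul_right _ h6
              _ = _ := by ring
          have h9 := Nat.mul_le_mul_left r m2
          omega
      · have hq : r * P.card.factorial < min 2 P.card * H := by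
          rcases hE with ⟨q, a, rfl, hb, _⟩ | ⟨q, rfl, hq, hq'⟩
          · exfalso
            rw [mem_insert, mem_singleton] at hT4
            rcases hT4 with h4 | h4
            · rw [← h4] at hb
              exact absurd hb.1 (by norm_num)
            · rw [← h4] at hb
              exact absurd hb.2.2.2.2.2.1 (by norm_num)
          · refine hq' (hS (mem_erase.mpr ⟨by rintro rfl; omega, ?_⟩))
            exact mem_insert_of_mem (mem_singleton_self _)
        rw [h2] at e1 e4
        norm_num at e1 e4
        constructor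
        · refine lt_of_le_of_lt (Nat.mul_le_mul_left r m1) ?_
          have h6 : P.card * (r * G) < P.card * H := by
            calc P.card * (r * G) = r * P.card.factorial := by rw [e5, e1]; ring
              _ < min 2 P.card * H := hq
              _ ≤ P.card * H := Nat.mul_le_mul_right _ (min_le_right _ _)
          exact Nat.lt_of_mul_lt_mul_left h6
        · refine lt_of_le_of_lt (Nat.mul_le_mul_left r m2) ?_
          calc r * F = r * P.card.factorial := by rw [e4]
            _ < min 2 P.card * H := hq
            _ ≤ 2 * H := Nat.mul_le_mul_right _ (min_le_left _ _)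
    unfold prb
    rw [if_neg hTP, if_pos hT4]
    split_ifs with a1 a2 a3 a4 a5
    · omega
    · omega
    · have h5 := (key a4).1
      have h6 : r * (2 * (sz T - 1).ascFactorial (P.card + 1 - T.card)) =
        2 * (r * (sz T - 1).ascFactorial (P.card + 1 - T.card)) := by ring
      omega
    · omega
    · exact (key a5).2
    · omega
  · have hTe : T.erase 4 = T := erase_eq_of_notMem hT4
    unfold prb
    rw [if_neg hT4, hTe]
    by_cases hTP : T ⊆ P
    · have ht := card_le_card hTP
      have e4 := asc_fac (t := T.card) (p := P.card + 1) (by omega) (by omega)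
      rw [Nat.add_sub_cancel] at e4
      have m2 := asc_mono hsz (P.card + 1 - T.card)
      have m3 := asc_mono hsz (P.card - T.card)
      have e6 : P.card + 1 - T.card = (P.card - T.card) + 1 := by omega
      have m4 : 2 * T.card.ascFactorial (P.card - T.card) ≤
          T.card.ascFactorial (P.card + 1 - T.card) := by
        rw [e6, Nat.ascFactorial_succ]
        exact Nat.mul_le_mul_right _ (by omega)
      set F := T.card.ascFactorial (P.card + 1 - T.card) with hF
      have key : r * F < H := by
        rcases hbad with ⟨h4, c1⟩ | ⟨h2, hE⟩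
        · have h5 := c1 (by omega)
          have h6 : 6 ≤ (T.card - 1).factorial := by
            have : Nat.factorial 3 ≤ (T.card - 1).factorial := Nat.factorial_le (by omega)
            simpa [Nat.factorial] using this
          have h8 : 6 * (r * F) < 6 * H := by
            refine lt_of_le_of_lt ?_ h5
            rw [← e4]
            calc 6 * (r * F) ≤ (T.card - 1).factorial * (r * F) := Nat.mul_le_mul_right _ h6
              _ = _ := by ring
          omega
        · have hq : r * P.card.factorial < H := by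
            rcases hE with ⟨q, a, hqa, hb, h6⟩ | ⟨q, rfl, hq⟩
            · exact h6 hTP
            · exact absurd (mem_insert_self _ _) hT4
          rw [h2] at e4
          norm_num at e4
          rw [e4]
          exact hq
      have n2 := Nat.mul_le_mul_left r m2
      have n3 := Nat.mul_le_mul_left r m3
      have n4 := Nat.mul_le_mul_left r m4
      have n5 : r * (2 * T.card.ascFactorial (P.card - T.card)) =
        2 * (r * T.card.ascFactorial (P.card - T.card)) := by ring
      have n6 : r * (2 * (sz T).ascFactorial (P.card - T.card)) =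
        2 * (r * (sz T).ascFactorial (P.card - T.card)) := by ring
      have n7 : r * (4 * (sz T).ascFactorial (P.card - T.card)) =
        4 * (r * (sz T).ascFactorial (P.card - T.card)) := by ring
      have n8 : r * (2 * (sz T).ascFactorial (P.card + 1 - T.card)) =
        2 * (r * (sz T).ascFactorial (P.card + 1 - T.card)) := by ring
      rw [if_pos hTP, if_pos hTP, if_pos hTP, if_pos hTP]
      split_ifs
      · omega
      · omega
      · omega
      · omega
    · rw [if_neg hTP, if_neg hTP, if_neg hTP, if_neg hTP]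
      split_ifs <;> omega

/-- the estimate at level 0 -/
theorem prb_pt0 {m r : ℕ} {T P : Finset ℕ} (hP : ∀ p ∈ P, p.Prime ∧ p ≠ 2 ∧ p ∣ m)
    (h1 : 1 ≤ T.card)
    (h : T ⊆ P → r * (P.card - 1).factorial < (T.card - 1).factorial * hh P) :
    r * prb T P 0 < 2 * hh P := by
  have hH : 0 < hh P := by
    rw [hh_eq hP]
    exact prod_pos fun p hp => (half_pos' hP hp).1
  unfold prb
  rw [if_pos rfl]
  by_cases hTP : T ⊆ P
  · have ht := card_le_card hTP
    have h2 := h hTP
    rw [if_pos hTP]
    have e4 := asc_fac (t := T.card) (p := P.card) h1 ht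
    have m3 := asc_mono (sz_le T) (P.card - T.card)
    rw [← e4] at h2
    have h3 : (T.card - 1).factorial * (r * T.card.ascFactorial (P.card - T.card)) <
        (T.card - 1).factorial * hh P := by
      calc _ = r * ((T.card - 1).factorial * T.card.ascFactorial (P.card - T.card)) := by ring
        _ < _ := h2
    have h4 := Nat.lt_of_mul_lt_mul_left h3
    have n3 := Nat.mul_le_mul_left r m3
    have n6 : r * (2 * (sz T).ascFactorial (P.card - T.card)) =
        2 * (r * (sz T).ascFactorial (P.card - T.card)) := by ring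
    omega
  · rw [if_neg hTP]
    omega

section

variable {m r : ℕ}

/-- sets with at least four elements, the prime 3 allowed -/
lemma four_bound {P : Finset ℕ} (hP : ∀ p ∈ P, p.Prime ∧ p ≠ 2 ∧ p ∣ m) (h4 : 4 ≤ P.card) :
    5 * (P.card - 1).factorial ≤ hh P := by
  have h5 := Cok.prod_ge4 0 (by norm_num) (fun p : ℕ => (p - 1) / 2) P
    (fun p hp => (half_pos' hP hp).1) (half_inj hP) (fun p hp => (half_pos' hP hp).2.1) (by omega)
  have h8 : 0 + P.card + 1 = (P.card - 1) + 1 + 1 := by omega
  rw [h8, Nat.factorial_succ, Nat.factorial_succ] at h5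
  simp only [Nat.factorial_zero, mul_one] at h5
  rw [← hh_eq hP] at h5
  have hA := Nat.factorial_pos (P.card - 1)
  set A := (P.card - 1).factorial
  have h9 : 5 * (4 * A) ≤ 4 * hh P := by
    refine le_trans ?_ h5
    refine Nat.mul_le_mul (by omega) (Nat.mul_le_mul_right _ (by omega))
  omega

/-- one prime -/
lemma one_bound {P : Finset ℕ} (hP : ∀ p ∈ P, p.Prime ∧ p ≠ 2 ∧ p ∣ m) {q : ℕ} (hq : q ∈ P) :
    (q - 1) / 2 * (P.card - 1).factorial ≤ hh P := by
  rw [hh_eq hP]
  have h7 := Cok.fac_le (fun p : ℕ => (p - 1) / 2) (P.erase q)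
    (fun i hi => (half_pos' hP (mem_of_mem_erase hi)).1)
    ((half_inj hP).mono (coe_subset.2 (erase_subset q P)))
  rw [card_erase_of_mem hq] at h7
  rw [← mul_prod_erase P (fun p : ℕ => (p - 1) / 2) hq]
  exact Nat.mul_le_mul_left _ h7

/-- one prime, 3 not allowed -/
lemma one_bound3 {P : Finset ℕ} (hP : ∀ p ∈ P, p.Prime ∧ p ≠ 2 ∧ p ∣ m) (h3 : ¬ 3 ∣ m) {q : ℕ}
    (hq : q ∈ P) : (q - 1) / 2 * P.card.factorial ≤ hh P := by
  rw [hh_eq hP]
  have h7 := Cok.fac_le' (fun p : ℕ => (p - 1) / 2) (P.erase q)
    (fun i hi => (half_pos' hP (mem_of_mem_erase hi)).2.2 h3)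
    ((half_inj hP).mono (coe_subset.2 (erase_subset q P)))
  have h8 : 1 ≤ P.card := card_pos.mpr ⟨q, hq⟩
  rw [card_erase_of_mem hq, Nat.sub_add_cancel h8] at h7
  rw [← mul_prod_erase P (fun p : ℕ => (p - 1) / 2) hq]
  exact Nat.mul_le_mul_left _ h7

/-- two primes with a large product -/
lemma two_bound {P : Finset ℕ} (hP : ∀ p ∈ P, p.Prime ∧ p ≠ 2 ∧ p ∣ m) {q a : ℕ} (hq : q ∈ P)
    (ha : a ∈ P) (hqa : a ≠ q) (h : 16 * r < (q - 1) * (a - 1)) :
    r * (P.card - 1).factorial < hh P := by
  classical
  rw [hh_eq hP]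
  have hinj := half_inj hP
  have hqo : q % 2 = 1 := ((hP q hq).1.eq_two_or_odd).resolve_left (hP q hq).2.1
  have hao : a % 2 = 1 := ((hP a ha).1.eq_two_or_odd).resolve_left (hP a ha).2.1
  have hT : ({q, a} : Finset ℕ) ⊆ P := by
    intro x hx
    rw [mem_insert, mem_singleton] at hx
    rcases hx with rfl | rfl
    · exact hq
    · exact ha
  have hT2 : ({q, a} : Finset ℕ).card = 2 := card_pair hqa.symm
  have hc : (P \ {q, a}).card + 2 = P.card := by
    rw [card_sdiff_of_subset hT, hT2]
    have := card_le_card hT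
    omega
  have hprod : ∏ p ∈ P, (p - 1) / 2 = ((q - 1) / 2 * ((a - 1) / 2)) *
      ∏ p ∈ P \ {q, a}, (p - 1) / 2 := by
    rw [← prod_sdiff hT, prod_pair hqa.symm]; ring
  have hsub : ∀ p ∈ P \ {q, a}, p ∈ P := fun p hp => (mem_sdiff.mp hp).1
  have hmul : (q - 1) * (a - 1) = 4 * ((q - 1) / 2 * ((a - 1) / 2)) := by
    obtain ⟨x, hx⟩ : ∃ x, q = 2 * x + 1 := ⟨q / 2, by omega⟩
    obtain ⟨y, hy⟩ : ∃ y, a = 2 * y + 1 := ⟨a / 2, by omega⟩
    rw [hx, hy]
    have e1 : (2 * x + 1 - 1) / 2 = x := by omega
    have e2 : (2 * y + 1 - 1) / 2 = y := by omega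
    rw [e1, e2]
    simp only [Nat.add_one_sub_one]
    ring
  have h7 : (P.card - 1).factorial ≤ 4 * ∏ p ∈ P \ {q, a}, (p - 1) / 2 := by
    by_cases hc3 : 3 ≤ (P \ {q, a}).card
    · have h5 := Cok.prod_ge4 0 (by norm_num) (fun p : ℕ => (p - 1) / 2) (P \ {q, a})
        (fun p hp => (half_pos' hP (hsub p hp)).1)
        (hinj.mono (coe_subset.2 sdiff_subset))
        (fun p hp => (half_pos' hP (hsub p hp)).2.1) (by omega)
      have h8 : 0 + (P \ {q, a}).card + 1 = P.card - 1 := by omega
      rw [h8] at h5
      simpa only [Nat.factorial_zero, mul_one] using h5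
    · have h5 := Cok.fac_le (fun p : ℕ => (p - 1) / 2) (P \ {q, a})
        (fun p hp => (half_pos' hP (hsub p hp)).1)
        (hinj.mono (coe_subset.2 sdiff_subset))
      have h8 : P.card - 1 = (P \ {q, a}).card + 1 := by omega
      rw [h8, Nat.factorial_succ]
      calc ((P \ {q, a}).card + 1) * (P \ {q, a}).card.factorial
          ≤ 4 * (P \ {q, a}).card.factorial := Nat.mul_le_mul_right _ (by omega)
        _ ≤ _ := Nat.mul_le_mul_left _ h5
  rw [hprod]
  rw [hmul] at h
  have h9 : 4 * r < (q - 1) / 2 * ((a - 1) / 2) := by omega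
  have h10 : 0 < ∏ p ∈ P \ {q, a}, (p - 1) / 2 :=
    prod_pos fun p hp => (half_pos' hP (hsub p hp)).1
  calc r * (P.card - 1).factorial ≤ r * (4 * ∏ p ∈ P \ {q, a}, (p - 1) / 2) :=
        Nat.mul_le_mul_left _ h7
    _ = (4 * r) * ∏ p ∈ P \ {q, a}, (p - 1) / 2 := by ring
    _ < _ := Nat.mul_lt_mul_of_pos_right h9 h10

/-- two primes, 3 not allowed: strict inequality -/
lemma two_bound3 {P : Finset ℕ} (hP : ∀ p ∈ P, p.Prime ∧ p ≠ 2 ∧ p ∣ m) (h3 : ¬ 3 ∣ m) {q a : ℕ}
    (hq : q ∈ P) (ha : a ∈ P) (hqa : a ≠ q) (ha7 : 11 ≤ a) :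
    (q - 1) / 2 * P.card.factorial < hh P := by
  classical
  rw [hh_eq hP]
  have hinj := half_inj hP
  have hqo : q % 2 = 1 := ((hP q hq).1.eq_two_or_odd).resolve_left (hP q hq).2.1
  have hq2 := (hP q hq).1.two_le
  rw [← mul_prod_erase P (fun p : ℕ => (p - 1) / 2) hq]
  apply Nat.mul_lt_mul_of_pos_left _ (by omega)
  have hsub : ∀ p ∈ P.erase q, p ∈ P := fun p hp => mem_of_mem_erase hp
  have hcard : (P.erase q).card + 1 = P.card := by
    rw [card_erase_of_mem hq, Nat.sub_add_cancel (card_pos.mpr ⟨q, hq⟩)]
  have haq : a ∈ P.erase q := mem_erase.mpr ⟨hqa, ha⟩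
  have h1 : 1 ≤ (P.erase q).card := card_pos.mpr ⟨a, haq⟩
  by_cases hc : 3 ≤ (P.erase q).card
  · have h5 := Cok.prod_ge4 1 (by norm_num) (fun p : ℕ => (p - 1) / 2) (P.erase q)
      (fun p hp => (half_pos' hP (hsub p hp)).2.2 h3)
      (hinj.mono (coe_subset.2 (erase_subset q P)))
      (fun p hp => (half_pos' hP (hsub p hp)).2.1) (by omega)
    have h8 : 1 + (P.erase q).card + 1 = P.card + 1 := by omega
    rw [h8, Nat.factorial_succ] at h5
    simp only [Nat.factorial_one, mul_one] at h5
    have hA := Nat.factorial_pos P.card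
    have h9 : 5 * P.card.factorial ≤ (P.card + 1) * P.card.factorial :=
      Nat.mul_le_mul_right _ (by omega)
    set A := P.card.factorial
    have hX : (fun p : ℕ => (p - 1) / 2) = fun p : ℕ => (p - 1) / 2 := rfl
    omega
  · rw [← mul_prod_erase (P.erase q) (fun p : ℕ => (p - 1) / 2) haq]
    have h5 := Cok.fac_le' (fun p : ℕ => (p - 1) / 2) ((P.erase q).erase a)
      (fun p hp => (half_pos' hP (hsub p (mem_of_mem_erase hp))).2.2 h3)
      (hinj.mono (coe_subset.2 ((erase_subset a _).trans (erase_subset q P))))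
    rw [card_erase_of_mem haq, Nat.sub_add_cancel h1] at h5
    have h6 : P.card.factorial = P.card * (P.erase q).card.factorial := by
      rw [← hcard, Nat.factorial_succ]
    rw [h6]
    have h7 : P.card < (a - 1) / 2 := by omega
    calc P.card * (P.erase q).card.factorial < (a - 1) / 2 * (P.erase q).card.factorial :=
          Nat.mul_lt_mul_of_pos_right h7 (Nat.factorial_pos _)
      _ ≤ _ := Nat.mul_le_mul_left _ h5

end

end Pool.Agent.LB
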