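import Pool.Agent.LB.Ev4
import Pool.Agent.LB.W5

/-!
The distribution modulo 2 which counts the entries whose order is a power of an odd prime: it does not
lift on exceptional pairs, and it lifts on the other pairs.
-/

set_option linter.unusedSectionVars false

namespace Pool.Agent.LB

open Finset Pool.Agent.N993 Pool.Agent.H916R2 Pool.Agent.N992 Pool.Agent.N998 Pool.Agent.Y2.Cv

lemma Zr.sub' {ι : Type} [Fintype ι] [DecidableEq ι] {D : Dat ι} {T : Finset ι}
    {f g : D.Pt → AddCircle (1 : ℚ)} (hf : Zr D T f) (hg : Zr D T g) :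
    Zr D T (fun x => f x - g x) := by
  obtain ⟨h, h1, h2, h3⟩ := hf
  obtain ⟨k, k1, k2, k3⟩ := hg
  refine ⟨fun x => h x - k x, ?_, ?_, ?_⟩
  · intro i hi x hx h0
    have e1 := h1 i hi x hx h0
    have e2 := k1 i hi x hx h0
    beta_reduce
    rw [sum_sub_distrib, e1, e2]
    ring
  · intro x hx
    beta_reduce
    rw [h2 x hx, k2 x hx]; ring
  · intro x hx
    beta_reduce
    rw [AddCircle.coe_sub, h3 x hx, k3 x hx]

/-- The class of `phiO {p}` at the pair `T0` is not zero. -/
def PhiNot (p : ℕ) (T0 : Finset ℕ) : Prop :=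
  ∀ {S : Finset ℕ} (_ : ∀ x ∈ S, (x.Prime ∧ x % 2 = 1) ∨ x = 4) [∀ i : Ix S, NeZero (nn S i)]
    {m0 : ℕ} [NeZero m0] (_ : ∏ i : Ix S, nn S i = m0) (E : (∀ i, ZMod (nn S i)) ≃+* ZMod m0)
    {T : Finset (Ix S)} (_ : nat' T = T0),
    ¬ Zr (cyc (nn S)) T (fun x => half (phiO {p} m0 (E (emb x))))

/-- The class is not zero if there is a relation with an odd number of entries of order a power of
`p`. -/
theorem phiNot_of_rel {p : ℕ} (hp2 : p ≠ 2) {T0 : Finset ℕ} {m1 : ℕ} [NeZero m1]
    (hT0 : ∏ x ∈ T0, x = m1) {s0 : Multiset (ZMod m1)}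
    (hrel : Rel (fun a : ZMod m1 => ((s0.count a : ℕ) : ℤ))) (hcls : (s0.map (cls {p})).sum = 1) :
    PhiNot p T0 := by
  classical
  intro S hS _ m0 _ hm0 E T hT hz
  have hA2 : 2 ∉ ({p} : Finset ℕ) := by rw [mem_singleton]; exact fun h => hp2 h.symm
  have hn : Adm' (nn S) := fun i => hS i i.2
  have hco : Pairwise (fun i j : Ix S => (nn S i).Coprime (nn S j)) := fun i j hij =>
    coprime_of (hS i i.2) (hS j j.2) (fun h => hij (Subtype.ext h))
  have hprod : ∏ i ∈ T, nn S i = m1 := by
    have h1 : ∏ x ∈ nat' T, x = ∏ i ∈ T, nn S i := by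
      unfold nat'; rw [prod_map]; rfl
    rw [← h1, hT, hT0]
  obtain ⟨l, hl⟩ : m1 ∣ m0 := by
    rw [← hm0, ← hprod]
    exact prod_dvd_prod_of_subset _ _ _ (subset_univ T)
  have hl' : l * m1 = m0 := by rw [hl, mul_comm]
  have hz' : Zr (cyc (nn S)) T (fun x => half (cls {p} (E (emb x)))) := by
    refine hz.congr ?_
    intro x _
    rw [phiO_eq_cls hA2]
  have h1 := kills_of_zr_T hn hco hm0 E (c := fun a => half (cls {p} a))
    (oddDist_half (singleton_nonempty p) hA2) T hprod hl' hz' _ hrel
  rw [sum_count s0 (fun b => half (cls {p} (iota l b : ZMod m0)))] at h1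
  simp only [cls_iota {p} hl'] at h1
  rw [sum_half_map s0 (fun b => cls {p} b), hcls] at h1
  exact half_one_ne h1

/-- The modular characters as a family. -/
def BM (N : ℕ) [NeZero N] (s : Multiset (ZMod N)) : Prop := ModularCharacter N s

lemma BM_fam : BaseFam BM where
  lift := by
    intro k m0 m _ _ h s hs
    exact ModularCharacter.lift h hs
  modular := fun hs => hs

/-- `phiO {p}` lifts on the pairs which are not exceptional. -/
theorem phi_zr_pair {p : ℕ} (hp : p.Prime) (hp4 : p % 4 = 1) (hp5 : p ≠ 5) (hp13 : p ≠ 13)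
    (hp17 : p ≠ 17) {S : Finset ℕ} (hS : ∀ x ∈ S, (x.Prime ∧ x % 2 = 1) ∨ x = 4)
    [∀ i : Ix S, NeZero (nn S i)] {m0 : ℕ} [NeZero m0] (hm0 : ∏ i : Ix S, nn S i = m0)
    (E : (∀ i, ZMod (nn S i)) ≃+* ZMod m0) {T : Finset (Ix S)} (hT : T.card = 2)
    (hexc : ¬ Exc (nat' T)) :
    Zr (cyc (nn S)) T (fun x => half (phiO {p} m0 (E (emb x)))) := by
  classical
  have hp2 : p ≠ 2 := by omega
  have hA2 : 2 ∉ ({p} : Finset ℕ) := by rw [mem_singleton]; exact fun h => hp2 h.symm
  have hp4' : p ≠ 4 := by omega
  have hn : Adm' (nn S) := fun i => hS i i.2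
  have hco : Pairwise (fun i j : Ix S => (nn S i).Coprime (nn S j)) := fun i j hij =>
    coprime_of (hS i i.2) (hS j j.2) (fun h => hij (Subtype.ext h))
  by_cases hpT : p ∈ nat' T
  · -- all the primes see squares
    have hsq : GoodB BM (nat' T) := by
      refine goodB_of_squares BM_fam (fun x hx => hS x (nat'_sub T hx)) ?_
      intro q hq hq4
      have h2 : (nat' T).card = 2 := by rw [nat'_card]; exact hT
      obtain ⟨a, ha, hap⟩ : ∃ a, a ≠ p ∧ nat' T = {p, a} := by
        have h3 : ((nat' T).erase p).card = 1 := by rw [card_erase_of_mem hpT, h2]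
        obtain ⟨a, ha⟩ := card_eq_one.mp h3
        refine ⟨a, ?_, ?_⟩
        · have : a ∈ (nat' T).erase p := by rw [ha]; exact mem_singleton_self _
          exact (mem_erase.mp this).1
        · rw [← insert_erase hpT, ha]
      have hfp : Fact p.Prime := ⟨hp⟩
      have haS : (a.Prime ∧ a % 2 = 1) ∨ a = 4 := hS a (nat'_sub T (by
        rw [hap]; exact mem_insert_of_mem (mem_singleton_self _)))
      -- `a` is a square modulo `p`
      have hsqa : IsSquare ((a : ℕ) : ZMod p) := by
        rcases haS with ⟨h3, h4⟩ | rfl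
        · by_contra h5
          exact hexc (Or.inl ⟨p, a, hap, hp, hp4, hp5, hp13, hp17, h3, by omega, h5⟩)
        · exact ⟨2, by norm_num⟩
      have hsq2 : 4 ∈ nat' T → IsSquare ((2 : ℕ) : ZMod p) := by
        intro h4
        have ha4 : a = 4 := by
          rw [hap, mem_insert, mem_singleton] at h4
          rcases h4 with h | h
          · exact absurd h.symm hp4'
          · exact h.symm
        have h5 : p % 8 = 1 := by
          by_contra h6
          apply hexc
          right
          exact ⟨p, by rw [hap, ha4, pair_comm], by omega, hp5, hp13⟩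
        have := (ZMod.exists_sq_eq_two_iff (p := p) hp2).mpr (Or.inl h5)
        exact_mod_cast this
      rw [hap, mem_insert, mem_singleton] at hq
      by_cases hqp : q = p
      · subst hqp
        refine ⟨?_, hsq2⟩
        intro j hj hjp
        rw [hap, mem_insert, mem_singleton] at hj
        rcases hj with h | h
        · exact absurd h hjp
        · rw [h]; exact hsqa
      · have hqa : q = a := by
          rcases hq with h | h
          · exact absurd h hqp
          · exact h
        subst hqa
        have hq' : q.Prime := by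
          rcases haS with h | h
          · exact h.1
          · omega
        have hfq : Fact q.Prime := ⟨hq'⟩
        refine ⟨?_, ?_⟩
        · intro j hj hjq
          rw [hap, mem_insert, mem_singleton] at hj
          rcases hj with h | h
          · rw [h]
            exact (ZMod.exists_sq_eq_prime_iff_of_mod_four_eq_one hq4 hp2).mpr hsqa
          · exact absurd h hjq
        · intro h4
          exfalso
          rw [hap, mem_insert, mem_singleton] at h4
          rcases h4 with h | h
          · exact hp4' h.symm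
          · omega
    obtain ⟨l, hl0, hl⟩ := hsq
    have hNZ : NeZero (l * m0) := ⟨Nat.mul_ne_zero hl0 (NeZero.ne m0)⟩
    have hodd : OddDist (fun a : ZMod (l * m0) => half (phiO {p} (l * m0) a)) :=
      oddDist_half_phiO (singleton_nonempty p)
    have hkill : ∀ s, BM (l * m0) s → (s.map (fun a => half (phiO {p} (l * m0) a))).sum = 0 := by
      intro s hs
      have h1 := modular_even hs hp hp4
      rw [sum_half_map s (fun a => phiO {p} (l * m0) a)]
      simp only [phiO_eq_cls hA2]
      have h2 : (s.map (fun a : ZMod (l * m0) => cls {p} a)).sum = 0 := h1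
      rw [h2, map_zero]
    refine zr_of_kills hn hco hm0 E (c := fun a : ZMod m0 => half (phiO {p} m0 a)) T ?_
      (AddMonoidHom.id _)
    intro mT lT _ hmT hlT x hx
    have hprod : ∏ x ∈ nat' T, x = mT := by
      rw [← hmT]; unfold nat'; rw [prod_map]; rfl
    have h1 := hl lT (l * m0) mT hprod (by rw [← hlT]; ring) _ _ hodd hkill x hx
    rw [← h1]
    refine sum_congr rfl fun b _ => ?_
    have h2 : phiO {p} m0 (iota lT b : ZMod m0) = phiO {p} (l * m0) (iota (lT * l) b : ZMod (l * m0)) := by
      have h3 : l * m0 = l * m0 := rfl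
      have h4 : (iota (lT * l) b : ZMod (l * m0)) = iota l (iota lT b : ZMod m0) := by
        rw [iota_comp h3, mul_comm lT l]
      rw [h4, phiO_iota {p} h3]
    rw [h2]
  · apply Zr.zero
    intro x hx
    rw [phiO_eq_cls hA2, cls_supp hm0 E (p := p) hp (mem_singleton_self _) ?_ hx, map_zero]
    intro i hi hd
    apply hpT
    have h1 : p ∣ (i : ℕ) := hd
    unfold nat'
    rw [mem_map]
    refine ⟨i, hi, ?_⟩
    rcases hS i i.2 with h3 | h3
    · exact ((Nat.prime_dvd_prime_iff_eq hp h3.1).mp h1).symm
    · exfalso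
      rw [h3] at h1
      have h4 : p ∣ 2 ^ 2 := h1
      exact hp2 ((Nat.prime_dvd_prime_iff_eq hp Nat.prime_two).mp (hp.dvd_of_dvd_pow h4))

/-- the entries of the relation of level 87 -/
def l87 : List ℕ := [1, 4, 7, 16, 19, 30, 34, 40, 52, 58, 61, 67, 70, 73, 79, 85]

/-- the relation of level 87 -/
def s87 : Multiset (ZMod 87) :=
  ((l87.map (fun a : ℕ => (a : ZMod 87)) : List (ZMod 87)) : Multiset (ZMod 87))

lemma s87_check : ∀ t : Fin 87, Nat.Coprime t.val 87 →
    (l87.map (fun a => saw (((t.val * a : ℕ) : ZMod 87)))).sum = 0 := by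
  decide +kernel

lemma s87_rel : Rel (fun a : ZMod 87 => ((s87.count a : ℕ) : ℤ)) := by
  intro t
  have h4 := sum_count s87 (fun a => saw ((t : ZMod 87) * a))
  have h5 : (s87.map (fun a => saw ((t : ZMod 87) * a))).sum = 0 := by
    have h := s87_check ⟨(t : ZMod 87).val, ZMod.val_lt _⟩ (ZMod.val_coe_unit_coprime t)
    unfold s87
    rw [Multiset.map_coe, Multiset.sum_coe, List.map_map]
    rw [← h]
    congr 1
  rw [h5] at h4
  simpa using h4

lemma s87_cls : (s87.map (cls {29})).sum = 1 := by
  unfold s87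
  rw [Multiset.map_coe, Multiset.sum_coe, List.map_map]
  have h : (cls {29} : ZMod 87 → ZMod 2) ∘ (fun a : ℕ => (a : ZMod 87)) =
      fun a : ℕ => if (87 / Nat.gcd 87 a).primeFactors = {29} then 1 else 0 := by
    funext a
    exact cls_natCast {29} 87 a
  rw [h]
  decide +kernel

theorem phiNot_29_3 : PhiNot 29 {3, 29} :=
  phiNot_of_rel (by norm_num) (m1 := 87) (by decide) s87_rel s87_cls

theorem phiNot_29_4 : PhiNot 29 {4, 29} :=
  phiNot_of_rel (by norm_num) (m1 := 116) (by decide) s116_rel s116_cls

end Pool.Agent.LB
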