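import Pool.Agent.LB.Phi

/-!
The length bound with one exceptional pair.
-/

set_option linter.unusedSectionVars false

namespace Pool.Agent.LB

open Finset Pool.Agent.N993 Pool.Agent.H916R2 Pool.Agent.N992

/-- The final form: one multiple for all characters with at most `r` entries. -/
theorem final_of_kill {m r : ℕ} [NeZero m]
    (H : ∀ s : Multiset (ZMod m), IsHodge m s → Multiset.card s ≤ r → Kill m s) :
    ∃ l : ℕ, ∃ _ : NeZero (l * m), ∀ s : Multiset (ZMod m), IsHodge m s → s ≠ 0 →
      Multiset.card s ≤ r →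
      Generated (l * m) (FourBase (l * m)) (s.map fun a => ((l * a.val : ℕ) : ZMod (l * m))) := by
  classical
  let P : Finset (Multiset (ZMod m)) := (Multiset.powerset (r • (univ : Finset (ZMod m)).val)).toFinset
  let f : Multiset (ZMod m) → ℕ := fun s => if h : Kill m s then h.choose else 1
  have hf0 : ∀ s, f s ≠ 0 := by
    intro s
    by_cases h : Kill m s
    · simp only [f, dif_pos h]; exact h.choose_spec.1
    · simp only [f, dif_neg h]; exact one_ne_zero
  have hf : ∀ s, Kill m s → ∀ (κ N : ℕ) [NeZero N], κ * (f s * m) = N → ∀ (Q : Type) [AddCommGroup Q]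
      (c : ZMod N → Q), OddDist c → (∀ u, FourBase N u → (u.map c).sum = 0) →
      (s.map (fun a => c (iota (κ * f s) a))).sum = 0 := by
    intro s h
    simp only [f, dif_pos h]
    exact h.choose_spec.2
  set L : ℕ := ∏ s ∈ P, f s with hL
  have hL0 : L ≠ 0 := prod_ne_zero_iff.mpr fun s _ => hf0 s
  have hNZ : NeZero (L * m) := ⟨Nat.mul_ne_zero hL0 (NeZero.ne m)⟩
  refine ⟨L, hNZ, fun s hs hne hc => ?_⟩
  have hk := H s hs hc
  have hsP : s ∈ P := by
    simp only [P]
    rw [Multiset.mem_toFinset, Multiset.mem_powerset, Multiset.le_iff_count]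
    intro a
    rw [Multiset.count_nsmul, Multiset.count_univ]
    have := Multiset.count_le_card a s
    omega
  obtain ⟨e, he⟩ : f s ∣ L := dvd_prod_of_mem f hsP
  apply generated_of_kill hs hne
  intro Q _ c hcO hkb
  have h1 := hf s hk e (L * m) (by rw [he]; ring) Q c hcO hkb
  have h2 : e * f s = L := by rw [he, mul_comm]
  rw [h2] at h1
  exact h1

/-- The density condition for a set and a point. -/
def Dens (m r : ℕ) (T : Finset ℕ) (a : ZMod m) : Prop :=
  r * prb T (opf (addOrderOf a)) (lev2 (addOrderOf a)) < 2 * hh (opf (addOrderOf a))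

section

variable {m : ℕ} [NeZero m] {S : Finset ℕ} [hnz : ∀ i : Ix S, NeZero (nn S i)]
  {k0 m0 : ℕ} [NeZero m0]

/-- avoidance with a density condition at all points of the multiset -/
theorem ex_dens (h8 : 8 ∣ m) (hS : S = insert 4 (m.primeFactors.erase 2))
    (hm0 : ∏ i, nn S i = m0) (hk : k0 * m0 = m) (E : (∀ i, ZMod (nn S i)) ≃+* ZMod m0)
    {r : ℕ} {s : Multiset (ZMod m)} (hs : Multiset.card s ≤ r)
    {T : Finset (Ix S)} (hne : T.Nonempty) (hd : ∀ a ∈ s, Dens m r (nat' T) a) :
    Ex m S k0 E s T := by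
  classical
  obtain ⟨γ, hγ, hγn, F, hF1, hF2, hF3⟩ := exists_fam h8 hS hm0 hk E hne
  have hC : 0 < Fintype.card γ := Fintype.card_pos
  obtain ⟨g, hg⟩ : ∃ g, ∀ a ∈ s, F g a = 0 := by
    apply fam_avoid
    have h1 : ∀ a ∈ s, r * bd F a + 1 ≤ Fintype.card γ := by
      intro a ha
      have h3 := bd_lt (F := F) (a := a) (c := r) (w := 1) (hF3 a)
        (by rw [one_mul]; exact hd a ha) hC
      omega
    have h2 : (s.map (fun a => r * bd F a + 1)).sum ≤ Multiset.card s * Fintype.card γ := by
      calc (s.map (fun a => r * bd F a + 1)).sum ≤ (s.map (fun _ => Fintype.card γ)).sum :=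
            Multiset.sum_map_le_sum_map _ _ h1
        _ = _ := by rw [Multiset.map_const', Multiset.sum_replicate, smul_eq_mul]
    rw [Multiset.sum_map_add, Multiset.sum_map_mul_left, Multiset.map_const', Multiset.sum_replicate,
      smul_eq_mul, mul_one] at h2
    by_cases h6 : Multiset.card s = 0
    · rw [Multiset.card_eq_zero] at h6
      rw [h6, Multiset.map_zero, Multiset.sum_zero]
      exact hC
    · by_contra h7
      push Not at h7
      have h8' : r * Fintype.card γ ≤ r * (s.map (bd F)).sum := Nat.mul_le_mul_left _ h7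
      have h9 : Multiset.card s * Fintype.card γ ≤ r * Fintype.card γ := Nat.mul_le_mul_right _ hs
      omega
  exact ⟨F g, hF1 g, hF2 g, sum_zero_of_avoid hg⟩

/-- avoidance with an entry where the family vanishes -/
theorem ex_dens_le (h8 : 8 ∣ m) (hS : S = insert 4 (m.primeFactors.erase 2))
    (hm0 : ∏ i, nn S i = m0) (hk : k0 * m0 = m) (E : (∀ i, ZMod (nn S i)) ≃+* ZMod m0)
    {r : ℕ} {s : Multiset (ZMod m)} (hs : Multiset.card s ≤ r)
    {T : Finset (Ix S)} (hne : T.Nonempty)
    (hd : ∀ a ∈ s, r * prb (nat' T) (opf (addOrderOf a)) (lev2 (addOrderOf a)) ≤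
      2 * hh (opf (addOrderOf a))) {x0 : ZMod m} (hx0 : x0 ∈ s)
    (hx : prb (nat' T) (opf (addOrderOf x0)) (lev2 (addOrderOf x0)) = 0) :
    Ex m S k0 E s T := by
  classical
  obtain ⟨γ, hγ, hγn, F, hF1, hF2, hF3⟩ := exists_fam h8 hS hm0 hk E hne
  have hC : 0 < Fintype.card γ := Fintype.card_pos
  have hr : 0 < r := lt_of_lt_of_le (Multiset.card_pos_iff_exists_mem.mpr ⟨x0, hx0⟩) hs
  obtain ⟨g, hg⟩ : ∃ g, ∀ a ∈ s, F g a = 0 := by
    refine fam_avoid_w F s (c := r) hr (fun a => if a = x0 then 0 else 1) ?_ ?_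
    · intro a ha
      by_cases hax : a = x0
      · rw [if_pos hax, zero_mul, hax]
        have h5 : bd F x0 = 0 := bd_zero (hF3 x0) hx (hh_opf_pos _)
        rw [h5, mul_zero]
      · rw [if_neg hax]
        refine bd_le (hF3 a) ?_ (hh_opf_pos _)
        rw [one_mul]
        exact hd a ha
    · apply Nat.mul_lt_mul_of_pos_right _ hC
      obtain ⟨s1, rfl⟩ := Multiset.exists_cons_of_mem hx0
      rw [Multiset.map_cons, Multiset.sum_cons, if_pos rfl, zero_add]
      have h3 : (s1.map (fun a => if a = x0 then 0 else 1)).sum ≤ (s1.map (fun _ => 1)).sum := by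
        apply Multiset.sum_map_le_sum_map
        intro a _
        split_ifs <;> norm_num
      rw [Multiset.map_const', Multiset.sum_replicate, smul_eq_mul, mul_one] at h3
      rw [Multiset.card_cons] at hs
      omega
  exact ⟨F g, hF1 g, hF2 g, sum_zero_of_avoid hg⟩

end

/-- The kill statement with one exceptional pair `T0`, treated by `phiO {p}`. -/
theorem kill_phi {p : ℕ} (hp : p.Prime) (hp4 : p % 4 = 1) (hp5 : p ≠ 5) (hp13 : p ≠ 13)
    (hp17 : p ≠ 17) {T0 : Finset ℕ} (hT0 : T0.card = 2) (hphi : PhiNot p T0) {m : ℕ} [NeZero m]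
    (h8 : 8 ∣ m) {r : ℕ} {s : Multiset (ZMod m)} (hcard : Multiset.card s ≤ r)
    (hs : Rel (fun a : ZMod m => ((s.count a : ℕ) : ℤ)))
    (hA : ∀ T : Finset ℕ, (∀ x ∈ T, x = 4 ∨ (x.Prime ∧ x ≠ 2 ∧ x ∣ m)) →
      (4 ≤ T.card ∨ (T.card = 2 ∧ Exc T)) → T ≠ T0 → ∀ a ∈ s, Dens m r T a)
    (hB : ∀ a ∈ s, r * prb T0 (opf (addOrderOf a)) (lev2 (addOrderOf a)) ≤
      2 * hh (opf (addOrderOf a)))
    (hB0 : ∀ a ∈ s, phiO {p} m a ≠ 0 → prb T0 (opf (addOrderOf a)) (lev2 (addOrderOf a)) = 0) :
    Kill m s := by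
  classical
  have hm : m ≠ 0 := NeZero.ne m
  obtain ⟨S, hS⟩ : ∃ S : Finset ℕ, S = insert 4 (m.primeFactors.erase 2) := ⟨_, rfl⟩
  have hmem : ∀ x ∈ S, x ≠ 4 → x.Prime ∧ x % 2 = 1 ∧ x ∣ m := by
    intro x hx hi
    rw [hS, mem_insert] at hx
    have h2 := hx.resolve_left hi
    rw [mem_erase] at h2
    have h3 := Nat.prime_of_mem_primeFactors h2.2
    exact ⟨h3, (h3.eq_two_or_odd).resolve_left h2.1, Nat.dvd_of_mem_primeFactors h2.2⟩
  have hSx : ∀ x ∈ S, (x.Prime ∧ x % 2 = 1) ∨ x = 4 := by
    intro x hx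
    by_cases h : x = 4
    · exact Or.inr h
    · exact Or.inl ⟨(hmem x hx h).1, (hmem x hx h).2.1⟩
  have hSy : ∀ x ∈ S, x = 4 ∨ (x.Prime ∧ x ≠ 2 ∧ x ∣ m) := by
    intro x hx
    by_cases h : x = 4
    · exact Or.inl h
    · have := hmem x hx h
      exact Or.inr ⟨this.1, by omega, this.2.2⟩
  have hnz : ∀ i : Ix S, NeZero (nn S i) := fun i =>
    ⟨by have := one_lt_of (hSx i i.2); change (i : ℕ) ≠ 0; omega⟩
  have hn' : Adm' (nn S) := fun i => hSx i i.2
  have hco : Pairwise (fun i j : Ix S => (nn S i).Coprime (nn S j)) := fun i j hij =>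
    coprime_of (hSx i i.2) (hSx j j.2) (fun h => hij (Subtype.ext h))
  obtain ⟨m0, hm0⟩ : ∃ m0, ∏ i : Ix S, nn S i = m0 := ⟨_, rfl⟩
  have hm00 : m0 ≠ 0 := by
    rw [← hm0]; exact prod_ne_zero_iff.mpr fun i _ => (hnz i).out
  have hNZ0 : NeZero m0 := ⟨hm00⟩
  have hm0S : m0 = ∏ x ∈ S, x := by
    rw [← hm0]
    exact Finset.prod_coe_sort S (fun x => x)
  have hdvd : m0 ∣ m := by
    rw [hm0S]
    apply Finset.prod_dvd_of_isRelPrime
    · intro a ha b hb hab
      exact Nat.coprime_iff_isRelPrime.mp (coprime_of (hSx a ha) (hSx b hb) hab)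
    · intro x hx
      by_cases h : x = 4
      · rw [h]; exact dvd_trans (by norm_num) h8
      · exact (hmem x hx h).2.2
  obtain ⟨k0, hk0⟩ := hdvd
  have hk : k0 * m0 = m := (mul_comm _ _).trans hk0.symm
  have h4m0 : 4 ∣ m0 := by
    rw [hm0S]
    exact dvd_prod_of_mem (fun x => x) (by rw [hS]; exact mem_insert_self _ _)
  have hpm : ∀ p, p.Prime → p ∣ m → p ∣ m0 := by
    intro p hp hpm
    by_cases h2 : p = 2
    · rw [h2]; exact dvd_trans (by norm_num) h4m0
    · rw [hm0S]
      exact dvd_prod_of_mem (fun x => x) (by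
        rw [hS]
        exact mem_insert_of_mem (mem_erase.mpr ⟨h2, Nat.mem_primeFactors.mpr ⟨hp, hpm, hm⟩⟩))
  have hred : Red m m0 k0 := red_exists _ m m0 k0 rfl hk hpm (fun _ => h4m0)
  let E : (∀ i, ZMod (nn S i)) ≃+* ZMod m0 := by
    subst hm0
    exact (ZMod.prodEquivPi (nn S) hco).symm
  -- the multipliers
  let l : Finset ℕ → ℕ := fun T => if h : Good T then h.choose else 1
  have hl0 : ∀ T, l T ≠ 0 := by
    intro T
    by_cases h : Good T
    · simp only [l, dif_pos h]; exact h.choose_spec.1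
    · simp only [l, dif_neg h]; exact one_ne_zero
  have hl : ∀ T, Good T → ∀ (k N mT : ℕ) [NeZero N] [NeZero mT], ∏ x ∈ T, x = mT →
      k * (l T * mT) = N → ∀ (Q : Type) [AddCommGroup Q] (c : ZMod N → Q), OddDist c →
      (∀ s, FourBase N s → (s.map c).sum = 0) →
      ∀ x : ZMod mT → ℤ, Rel x → ∑ b, x b • c (iota (k * l T) b) = 0 := by
    intro T h
    simp only [l, dif_pos h]
    exact h.choose_spec.2
  obtain ⟨L, hL⟩ : ∃ L : ℕ, L = ∏ T ∈ S.powerset, l T := ⟨_, rfl⟩
  have hL0 : L ≠ 0 := by rw [hL]; exact prod_ne_zero_iff.mpr fun T _ => hl0 T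
  refine ⟨L, hL0, ?_⟩
  intro κ N _ hN Q _ c hc hkill
  have hκN : κ * L * m = N := by rw [← hN]; ring
  have hκN0 : κ * L * k0 * m0 = N := by rw [mul_assoc, hk, hκN]
  refine CharacterModule.eq_zero_of_character_apply fun φ0 => ?_
  let φ : Q →+ AddCircle (1 : ℚ) := φ0
  change φ _ = 0
  set g : ZMod m → AddCircle (1 : ℚ) := fun a => φ (c (iota (κ * L) a)) with hg
  have hgD : OddDist g := Pool.Agent.N998.oddDist_map (hc.comp_iota hκN) φ
  have hge : (fun x : (cyc (nn S)).Pt => g (iota k0 (E (emb x)))) =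
      fun x => φ (c (iota (κ * L * k0) (E (emb x)))) := by
    funext x
    rw [hg]
    beta_reduce
    rw [iota_comp hκN]
  have hgood : ∀ T : Finset (Ix S), Good (nat' T) →
      Zr (cyc (nn S)) T (fun x => g (iota k0 (E (emb x)))) := by
    intro T hT
    rw [hge]
    refine zr_of_kills hn' hco hm0 E (c := fun b : ZMod m0 => c (iota (κ * L * k0) b)) T ?_ φ
    intro mT lT _ hmT hlT x hx
    obtain ⟨e, he⟩ : l (nat' T) ∣ L := by
      rw [hL]
      exact dvd_prod_of_mem l (mem_powerset.mpr (nat'_sub T))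
    have hprod : ∏ x ∈ nat' T, x = mT := by
      rw [← hmT]; unfold nat'; rw [prod_map]; rfl
    have h1 := hl _ hT (κ * e * k0 * lT) N mT hprod (by rw [← hκN0, ← hlT, he]; ring) Q c hc hkill x hx
    have h2 : κ * e * k0 * lT * l (nat' T) = κ * L * k0 * lT := by rw [he]; ring
    rw [h2] at h1
    rw [← h1]
    refine sum_congr rfl fun b _ => ?_
    rw [iota_comp hκN0]
  -- the sets which are not exceptional pairs
  have hcase : ∀ T : Finset (Ix S), Even T.card → T.Nonempty →
      (4 ≤ (nat' T).card ∨ ((nat' T).card = 2 ∧ Exc (nat' T))) ∨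
      (T.card = 2 ∧ ¬ Exc (nat' T) ∧ Zr (cyc (nn S)) T (fun x => g (iota k0 (E (emb x))))) := by
    intro T he hne
    rw [nat'_card]
    by_cases h4 : 4 ≤ T.card
    · exact Or.inl (Or.inl h4)
    · have h2 : T.card = 2 := by
        have h5 : 0 < T.card := card_pos.mpr hne
        obtain ⟨r, hr⟩ := he
        omega
      by_cases hE : Exc (nat' T)
      · exact Or.inl (Or.inr ⟨h2, hE⟩)
      · refine Or.inr ⟨h2, hE, hgood T ?_⟩
        by_contra hng
        exact hE (exc_of_not_good (fun x hx => hSx x (nat'_sub T hx)) (by rw [nat'_card]; exact h2) hng)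
  have hzero : (s.map g).sum = 0 := by
    by_cases hx : ∃ x0 ∈ s, phiO {p} m x0 ≠ 0
    · -- an entry whose order is a power of `p`
      obtain ⟨x0, hx0, hphi0⟩ := hx
      refine sum_zero_of_fam hSx hm0 hk hred E hs hgD ?_
      intro T he hne hz
      rcases hcase T he hne with hT | hT
      · by_cases hTT : nat' T = T0
        · refine ex_dens_le h8 hS hm0 hk E hcard hne ?_ hx0 ?_
          · rw [hTT]; exact hB
          · rw [hTT]; exact hB0 x0 hx0 hphi0
        · exact ex_dens h8 hS hm0 hk E hcard hne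
            (hA (nat' T) (fun x hx => hSy x (nat'_sub T hx)) hT hTT)
      · exact absurd hT.2.2 hz
    · push Not at hx
      by_cases hT0z : ∀ T : Finset (Ix S), nat' T = T0 →
          Zr (cyc (nn S)) T (fun x => g (iota k0 (E (emb x))))
      · refine sum_zero_of_fam hSx hm0 hk hred E hs hgD ?_
        intro T he hne hz
        rcases hcase T he hne with hT | hT
        · by_cases hTT : nat' T = T0
          · exact absurd (hT0z T hTT) hz
          · exact ex_dens h8 hS hm0 hk E hcard hne
              (hA (nat' T) (fun x hx => hSy x (nat'_sub T hx)) hT hTT)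
        · exact absurd hT.2.2 hz
      · push Not at hT0z
        obtain ⟨T1, hT1, hT1z⟩ := hT0z
        have hT1c : T1.card = 2 := by rw [← nat'_card, hT1, hT0]
        -- subtract the class of `p`
        have hphiD : OddDist (fun a : ZMod m => half (phiO {p} m a)) :=
          oddDist_half_phiO (singleton_nonempty p)
        have hphie : (fun x : (cyc (nn S)).Pt => half (phiO {p} m (iota k0 (E (emb x))))) =
            fun x => half (phiO {p} m0 (E (emb x))) := by
          funext x; rw [phiO_iota {p} hk]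
        set g' : ZMod m → AddCircle (1 : ℚ) := fun a => g a - half (phiO {p} m a) with hg'
        have hg'D : OddDist g' := hgD.sub hphiD
        have hg'e : (fun x : (cyc (nn S)).Pt => g' (iota k0 (E (emb x)))) =
            fun x => g (iota k0 (E (emb x))) - half (phiO {p} m0 (E (emb x))) := by
          funext x
          rw [hg']
          beta_reduce
          rw [phiO_iota {p} hk]
        have hempty : ∀ (c : ZMod m0 → AddCircle (1 : ℚ)), OddDist c →
            ∀ T' ⊂ T1, Even T'.card → Zr (cyc (nn S)) T' (fun x => c (E (emb x))) := by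
          intro c hc T' hT' heven
          have h1 : T'.card < 2 := by rw [← hT1c]; exact card_lt_card hT'
          have h2 : T' = ∅ := by
            rw [← card_eq_zero]
            obtain ⟨r, hr⟩ := heven
            omega
          subst h2
          apply Zr.zero
          intro x hx
          have h3 : (emb x : ∀ i, ZMod (nn S i)) = 0 := by
            funext i
            exact emb_none0 (hx i (notMem_empty i))
          rw [h3, map_zero]
          exact hc.half 0 (by simp)
        have hfree : ∀ i, (cyc (nn S)).c i ≠ 1 := fun i => neg_one_ne_one (hn' i)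
        have hg0 : OddDist (fun b : ZMod m0 => g (iota k0 b)) := hgD.comp_iota hk
        have hp0 : OddDist (fun b : ZMod m0 => half (phiO {p} m0 b)) :=
          oddDist_half_phiO (singleton_nonempty p)
        have hzT1 : Zr (cyc (nn S)) T1 (fun x => g' (iota k0 (E (emb x)))) := by
          rw [hg'e]
          exact zr_sub (fun S => uniq hfree S) (T := T1) (by rw [hT1c]; exact ⟨1, rfl⟩)
            (isD0_of_oddDist hn' hco hm0 E hg0) (isD0_of_oddDist hn' hco hm0 E hp0)
            (hempty _ hg0) (hempty _ hp0) hT1z (hphi hSx hm0 E hT1)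
        have h0 : (s.map g').sum = 0 := by
          refine sum_zero_of_fam hSx hm0 hk hred E hs hg'D ?_
          intro T he hne hz
          rcases hcase T he hne with hT | ⟨hT2, hT3, hT4⟩
          · by_cases hTT : nat' T = T0
            · have : T = T1 := nat'_inj (hTT.trans hT1.symm)
              rw [this] at hz
              exact absurd hzT1 hz
            · exact ex_dens h8 hS hm0 hk E hcard hne
                (hA (nat' T) (fun x hx => hSy x (nat'_sub T hx)) hT hTT)
          · exfalso
            apply hz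
            rw [hg'e]
            exact hT4.sub' (phi_zr_pair hp hp4 hp5 hp13 hp17 hSx hm0 E hT2 hT3)
        have h1 : (s.map g').sum = (s.map g).sum := by
          congr 1
          apply Multiset.map_congr rfl
          intro a ha
          rw [hg']
          beta_reduce
          rw [hx a ha, map_zero, sub_zero]
        rw [← h1]
        exact h0
  rw [map_multiset_sum, Multiset.map_map]
  exact hzero

end Pool.Agent.LB
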