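import Pool.Agent.LB.GB
import Pool.Agent.LB.Main

/-!
The pairs with the prime 29: after subtraction of a multiple of the class of 29 all pairs lift.
-/

set_option linter.unusedSectionVars false

namespace Pool.Agent.LB

open Finset Pool.Agent.H916R2 Pool.Agent.N992 Pool.Agent.N993 Pool.Agent.N998 Pool.Agent.Y2.Cv

/-- the entries of the relation of level 116 -/
def l116 : List ℕ :=
  [3, 7, 19, 31, 35, 43, 47, 59, 60, 63, 67, 75, 91, 92, 95, 96, 103]

/-- the relation of level 116 -/
def s116 : Multiset (ZMod 116) :=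
  ((l116.map (fun a : ℕ => (a : ZMod 116)) : List (ZMod 116)) : Multiset (ZMod 116))

lemma s116_check : ∀ t : Fin 116, Nat.Coprime t.val 116 →
    (l116.map (fun a => saw (((t.val * a : ℕ) : ZMod 116)))).sum = 0 := by
  decide +kernel

lemma s116_rel : Rel (fun a : ZMod 116 => ((s116.count a : ℕ) : ℤ)) := by
  intro t
  have h4 := sum_count s116 (fun a => saw ((t : ZMod 116) * a))
  have h5 : (s116.map (fun a => saw ((t : ZMod 116) * a))).sum = 0 := by
    have h := s116_check ⟨(t : ZMod 116).val, ZMod.val_lt _⟩ (ZMod.val_coe_unit_coprime t)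
    unfold s116
    rw [Multiset.map_coe, Multiset.sum_coe, List.map_map]
    rw [← h]
    congr 1
  rw [h5] at h4
  simpa using h4

lemma s116_cls : (s116.map (cls {29})).sum = 1 := by
  unfold s116
  rw [Multiset.map_coe, Multiset.sum_coe, List.map_map]
  have h : (cls {29} : ZMod 116 → ZMod 2) ∘ (fun a : ℕ => (a : ZMod 116)) =
      fun a : ℕ => if (116 / Nat.gcd 116 a).primeFactors = {29} then 1 else 0 := by
    funext a
    exact cls_natCast {29} 116 a
  rw [h]
  decide +kernel

lemma half_one_ne : half 1 ≠ 0 := by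
  rw [half_one]
  intro h
  obtain ⟨k, hk⟩ := circ_zero h
  have h1 : ((1 : ℤ) : ℚ) = ((2 * k : ℤ) : ℚ) := by push_cast; linarith
  have h2 : (1 : ℤ) = 2 * k := by exact_mod_cast h1
  omega

lemma oddDist_half {A : Finset ℕ} (hA : A.Nonempty) (hA2 : 2 ∉ A) {M : ℕ} [NeZero M] :
    OddDist (fun a : ZMod M => half (cls A a)) :=
  oddDist_map (cls_oddDist hA hA2) half

lemma sum_half_map {M : ℕ} (s : Multiset (ZMod M)) (g : ZMod M → ZMod 2) :
    (s.map (fun a => half (g a))).sum = half (s.map g).sum := by
  rw [map_multiset_sum, Multiset.map_map]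
  rfl

/-- a relation of level 116 is killed by a distribution iff it is half the class of 29 -/
theorem key116 {c : ZMod 116 → AddCircle (1 : ℚ)} (hc : OddDist c) : ∃ ε : ZMod 2,
    ∀ x : ZMod 116 → ℤ, Rel x → ∑ a, x a • (c a - half (ε * cls {29} a)) = 0 := by
  classical
  let S : Finset ℕ := {4, 29}
  have hS : ∀ x ∈ S, (x.Prime ∧ x % 2 = 1) ∨ x = 4 := by
    intro x hx
    rw [mem_insert, mem_singleton] at hx
    rcases hx with rfl | rfl
    · right; rfl
    · left; norm_num
  have hnz : ∀ i : Ix S, NeZero (nn S i) := fun i =>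
    ⟨by have := one_lt_of (hS i i.2); change (i : ℕ) ≠ 0; omega⟩
  have hn : Adm' (nn S) := fun i => hS i i.2
  have hco : Pairwise (fun i j : Ix S => (nn S i).Coprime (nn S j)) := fun i j hij =>
    coprime_of (hS i i.2) (hS j j.2) (fun h => hij (Subtype.ext h))
  have hN : ∏ i : Ix S, nn S i = 116 := by
    rw [Finset.prod_coe_sort S (fun x => x)]
    decide
  obtain ⟨E⟩ : Nonempty ((∀ i, ZMod (nn S i)) ≃+* ZMod 116) := by
    have E0 := (ZMod.prodEquivPi (nn S) hco).symm
    rw [hN] at E0
    exact ⟨E0⟩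
  have hfree : ∀ i, (cyc (nn S)).c i ≠ 1 := fun i => neg_one_ne_one (hn i)
  let g : ZMod 116 → AddCircle (1 : ℚ) := fun a => half (cls {29} a)
  have hg : OddDist g := oddDist_half (singleton_nonempty 29) (by decide)
  have hfD := isD0_of_oddDist hn hco hN E hc
  have hgD := isD0_of_oddDist hn hco hN E hg
  by_cases hz : Zr (cyc (nn S)) univ (fun x => c (E (emb x)))
  · refine ⟨0, fun x hx => ?_⟩
    have h1 := kills_of_zr hn hco hN E hc hz x hx
    rw [← h1]
    refine sum_congr rfl fun a _ => ?_
    rw [zero_mul, map_zero, sub_zero]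
  · refine ⟨1, fun x hx => ?_⟩
    have hgz : ¬ Zr (cyc (nn S)) univ (fun x => g (E (emb x))) := by
      intro h
      have h1 := kills_of_zr hn hco hN E hg h _ s116_rel
      rw [sum_count] at h1
      rw [sum_half_map, s116_cls] at h1
      exact half_one_ne h1
    have hempty : ∀ (c : ZMod 116 → AddCircle (1 : ℚ)), OddDist c →
        ∀ T' ⊂ (univ : Finset (Ix S)), Even T'.card → Zr (cyc (nn S)) T' (fun x => c (E (emb x))) := by
      intro c hc T' hT' heven
      have h1 : T'.card < 2 := by
        have h2 := card_lt_card hT'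
        rw [card_univ, Fintype.card_coe] at h2
        exact h2
      have h2 : T' = ∅ := by
        rw [← card_eq_zero]
        obtain ⟨r, hr⟩ := heven
        omega
      subst h2
      apply Zr.zero
      intro x hx
      have h3 : (emb x : ∀ i, ZMod (nn S i)) = 0 := by
        funext i
        exact emb_none (hx i (notMem_empty i))
      rw [h3, map_zero]
      exact hc.half 0 (by simp)
    have h2 := zr_sub (fun S => uniq hfree S) (T := univ) (by
      rw [card_univ, Fintype.card_coe]; exact ⟨1, rfl⟩) hfD hgD (hempty c hc) (hempty g hg) hz hgz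
    have h3 := kills_of_zr hn hco hN E (hc.sub hg) h2 x hx
    rw [← h3]
    refine sum_congr rfl fun a _ => ?_
    rw [one_mul]

/-- the value at the relation -/
theorem eps116 {c : ZMod 116 → AddCircle (1 : ℚ)} (hc : OddDist c) : ∃ ε : ZMod 2,
    (s116.map (fun a => c a - half (ε * cls {29} a))).sum = 0 := by
  obtain ⟨ε, h⟩ := key116 hc
  refine ⟨ε, ?_⟩
  have h1 := h _ s116_rel
  rw [sum_count] at h1
  exact h1

theorem full116 {Q : Type} [AddCommGroup Q] {c : ZMod 116 → Q} (hc : OddDist c)
    (hk : (s116.map c).sum = 0) (x : ZMod 116 → ℤ) (hx : Rel x) : ∑ a, x a • c a = 0 := by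
  refine CharacterModule.eq_zero_of_character_apply fun φ0 => ?_
  let φ : Q →+ AddCircle (1 : ℚ) := φ0
  change φ _ = 0
  have hcφ : OddDist (fun b => φ (c b)) := oddDist_map hc φ
  obtain ⟨ε, h⟩ := key116 hcφ
  have h1 := h _ s116_rel
  rw [sum_count, Multiset.sum_map_sub, sum_half_map s116 (fun a => ε * cls {29} a),
    Multiset.sum_map_mul_left, s116_cls, mul_one] at h1
  have h2 : (s116.map (fun a => φ (c a))).sum = 0 := by
    have h3 := map_multiset_sum φ (s116.map c)
    rw [Multiset.map_map, hk, map_zero] at h3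
    exact h3.symm
  rw [h2, zero_sub, neg_eq_zero] at h1
  have h4 : ε = 0 := by
    fin_cases ε
    · rfl
    · exact absurd h1 half_one_ne
  subst h4
  have h5 := h x hx
  rw [map_sum, ← h5]
  refine sum_congr rfl fun a _ => ?_
  rw [zero_mul, map_zero, sub_zero, map_zsmul]

/-- the base for the prime 29 -/
def B29 (N : ℕ) [NeZero N] (s : Multiset (ZMod N)) : Prop :=
  ModularCharacter N s ∨ (∃ k : ℕ, k * 116 = N ∧ s = s116.map (iota k)) ∨
    ∃ (k : ℕ) (s0 : Multiset (ZMod 102)), k * 102 = N ∧ FourBase 102 s0 ∧ s = s0.map (iota k)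

lemma B29_fam : BaseFam B29 where
  lift := by
    intro k m0 m _ _ h s hs
    rcases hs with hs | ⟨k', hk', rfl⟩ | ⟨k', s0, hk', hs0, rfl⟩
    · exact Or.inl (ModularCharacter.lift h hs)
    · right; left
      refine ⟨k * k', by rw [mul_assoc, hk', h], ?_⟩
      rw [Multiset.map_map]
      apply Multiset.map_congr rfl
      intro a _
      exact iota_comp h a
    · right; right
      refine ⟨k * k', s0, by rw [mul_assoc, hk', h], hs0, ?_⟩
      rw [Multiset.map_map]
      apply Multiset.map_congr rfl
      intro a _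
      exact iota_comp h a
  modular := fun hs => Or.inl hs

end Pool.Agent.LB
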