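import Pool.Agent.LB.W2

/-!
The pairs with the prime 29.
-/

set_option linter.unusedSectionVars false

namespace Pool.Agent.LB

open Finset Pool.Agent.H916R2 Pool.Agent.N992 Pool.Agent.N993 Pool.Agent.N998 Pool.Agent.Y2.Cv

lemma goodB_of_full {B : ∀ (N : ℕ) [NeZero N], Multiset (ZMod N) → Prop} (hB : BaseFam B)
    {T : Finset ℕ} {l m0 : ℕ} [NeZero m0] [NeZero (l * m0)] (hl : l ≠ 0)
    (hT : ∏ x ∈ T, x = m0) (h : ∀ (Q : Type) [AddCommGroup Q] (c : ZMod (l * m0) → Q), OddDist c →
      (∀ s, B (l * m0) s → (s.map c).sum = 0) → ∀ x : ZMod (l * m0) → ℤ, Rel x →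
      ∑ a, x a • c a = 0) : GoodB B T := by
  classical
  refine goodB_of_level hB hl ?_
  intro N mT _ _ hmT hN Q _ c hc hk x hx
  have hm : m0 = mT := hT.symm.trans hmT
  subst hm
  subst hN
  set x' : ZMod (l * m0) → ℤ := fun a => ∑ b : ZMod m0, if (iota l b : ZMod (l * m0)) = a then x b else 0
    with hx'
  have hsum : ∀ {A : Type} [AddCommGroup A] (F : ZMod (l * m0) → A),
      ∑ a, x' a • F a = ∑ b, x b • F (iota l b) := by
    intro A _ F
    simp only [hx', sum_smul]
    rw [sum_comm]
    refine sum_congr rfl fun b _ => ?_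
    rw [sum_eq_single (iota l b : ZMod (l * m0))]
    · rw [if_pos rfl]
    · intro a _ ha
      rw [if_neg (Ne.symm ha), zero_smul]
    · intro h; exact absurd (mem_univ _) h
  rw [← hsum]
  apply h Q c hc hk
  intro t
  have h1 := hsum (fun a => saw ((t : ZMod (l * m0)) * a))
  simp only [smul_eq_mul] at h1
  rw [h1]
  have h2 : ∀ b : ZMod m0, saw ((t : ZMod (l * m0)) * iota l b) =
      (l : ℤ) * saw (((ZMod.unitsMap (Dvd.intro_left l rfl : m0 ∣ l * m0) t : (ZMod m0)ˣ) : ZMod m0) * b) := by
    intro b
    rw [unit_iota rfl, saw_iota rfl]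
  simp only [h2]
  have h3 := hx (ZMod.unitsMap (Dvd.intro_left l rfl : m0 ∣ l * m0) t)
  have h4 : ∀ b : ZMod m0, x b * ((l : ℤ) *
      saw (((ZMod.unitsMap (Dvd.intro_left l rfl : m0 ∣ l * m0) t : (ZMod m0)ˣ) : ZMod m0) * b)) =
      (l : ℤ) * (x b *
      saw (((ZMod.unitsMap (Dvd.intro_left l rfl : m0 ∣ l * m0) t : (ZMod m0)ˣ) : ZMod m0) * b)) := by
    intro b; ring
  simp only [h4]
  rw [← mul_sum, h3, mul_zero]

lemma iota_one {m : ℕ} [NeZero m] (b : ZMod m) : (iota 1 b : ZMod m) = b := by
  unfold iota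
  rw [one_mul, ZMod.natCast_zmod_val]

theorem goodB_29_4 : GoodB B29 {29, 4} := by
  have h0 : NeZero (1 * 116) := ⟨by norm_num⟩
  refine goodB_of_full B29_fam (l := 1) (m0 := 116) one_ne_zero (by decide) ?_
  intro Q _ c hc hk x hx
  have h1 : (s116.map c).sum = 0 := by
    refine hk s116 (Or.inr (Or.inl ⟨1, rfl, ?_⟩))
    have h2 : (iota 1 : ZMod 116 → ZMod (1 * 116)) = id := by
      funext b
      exact iota_one (m := 116) b
    rw [h2]
    exact (Multiset.map_id s116).symm
  exact full116 hc h1 x hx

theorem goodB_17_3 : GoodB B29 {17, 3} := by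
  have : NeZero (2 * 51) := ⟨by norm_num⟩
  refine goodB_of_full B29_fam (l := 2) (m0 := 51) two_ne_zero (by decide) ?_
  intro Q _ c hc hk x hx
  have h2 : (iota 1 : ZMod 102 → ZMod (2 * 51)) = id := by
    funext b
    exact iota_one (m := 102) b
  refine FullP.fourBase (m := 2 * 51) full_102 Q c hc (fun s hs => hk s ?_) x hx
  refine Or.inr (Or.inr ⟨1, s, rfl, hs, ?_⟩)
  rw [h2]
  exact (Multiset.map_id s).symm

/-- the pairs with the prime 29 -/
theorem goodB_29 {y : ℕ} (hy : (y.Prime ∧ y % 2 = 1) ∨ y = 4) (hy31 : y ≤ 31) (hne : y ≠ 29) :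
    GoodB B29 {29, y} := by
  have h4 : Three 4 := Or.inr rfl
  have hNR4 : NR 29 4 := by unfold NR; rw [if_pos rfl]; decide
  have key : ∀ a, Three a → a ≤ 31 → GoodB B29 {29, a} := by
    intro a ha ha31
    by_cases hna : NR 29 a
    · exact goodB_pair_transfer B29_fam (b := 4) (by norm_num) (by norm_num) ha h4 hna hNR4 goodB_29_4
    · unfold NR at hna
      rw [not_not] at hna
      refine goodB_of_squares B29_fam ?_ ?_
      · intro x hx
        rw [mem_insert, mem_singleton] at hx
        rcases hx with rfl | rfl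
        · left; norm_num
        · exact ha.adm
      · intro p' hp' hp4'
        have hpp : p' = 29 := by
          rw [mem_insert, mem_singleton] at hp'
          rcases hp' with h1 | h1
          · exact h1
          · exact absurd hp4' (h1 ▸ ha.mod)
        subst hpp
        refine ⟨fun j hj hjp => ?_, fun h4 => ?_⟩
        · rw [mem_insert, mem_singleton] at hj
          rcases hj with h1 | h1
          · exact absurd h1 hjp
          · subst h1
            by_cases h4 : j = 4
            · rw [h4]; exact isSquare_four _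
            · rwa [if_neg h4] at hna
        · rw [mem_insert, mem_singleton] at h4
          rcases h4 with h1 | h1
          · omega
          · rwa [if_pos h1.symm] at hna
  rcases hy with ⟨hyp, hy2⟩ | rfl
  swap
  · exact key 4 h4 hy31
  by_cases hy4 : y % 4 = 3
  · exact key y (Or.inl ⟨hyp, hy4⟩) hy31
  have hy4' : y % 4 = 1 := by omega
  have hcases : y = 5 ∨ y = 13 ∨ y = 17 := by
    have h1 := hyp.two_le
    interval_cases y <;> first | omega | (exfalso; revert hyp; decide)
  have hsqc : ∀ z : ℕ, (z = 5 ∨ z = 13) → GoodB B29 {29, z} := by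
    intro z hz
    refine goodB_of_squares B29_fam ?_ ?_
    · intro x hx
      rw [mem_insert, mem_singleton] at hx
      rcases hx with rfl | rfl
      · left; norm_num
      · rcases hz with rfl | rfl
        · left; norm_num
        · left; norm_num
    · intro p' hp' _
      have hno4 : 4 ∉ ({29, z} : Finset ℕ) := by
        rw [mem_insert, mem_singleton]
        rcases hz with rfl | rfl <;> norm_num
      refine ⟨fun j hj hjp => ?_, fun h4 => absurd h4 hno4⟩
      rw [mem_insert, mem_singleton] at hp' hj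
      rcases hz with rfl | rfl
      · rcases hp' with rfl | rfl <;> rcases hj with rfl | rfl
        · exact absurd rfl hjp
        · exact ⟨11, by decide⟩
        · exact ⟨2, by decide⟩
        · exact absurd rfl hjp
      · rcases hp' with rfl | rfl <;> rcases hj with rfl | rfl
        · exact absurd rfl hjp
        · exact ⟨10, by decide⟩
        · exact ⟨4, by decide⟩
        · exact absurd rfl hjp
  rcases hcases with rfl | rfl | rfl
  · exact hsqc 5 (Or.inl rfl)
  · exact hsqc 13 (Or.inr rfl)
  · refine goodB_two_primes B29_fam (a := 4) (b := 3) (by norm_num) (by norm_num) (by norm_num)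
      (by norm_num) (by norm_num) (by decide) h4 hNR4 goodB_29_4
      (Or.inl ⟨by norm_num, by norm_num⟩) ?_ goodB_17_3
    unfold NR; rw [if_neg (by norm_num)]; decide

end Pool.Agent.LB
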