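import Pool.Agent.LB.W2b

/-!
The pairs: after subtraction of a multiple of half the class of 29 all pairs lift.
-/

set_option linter.unusedSectionVars false

namespace Pool.Agent.LB

open Finset Pool.Agent.H916R2 Pool.Agent.N992 Pool.Agent.N993 Pool.Agent.N998 Pool.Agent.Y2.Cv

/-- The primes dividing the order of a point supported in `T` divide the product over `T`. -/
lemma cls_supp {S : Finset ℕ} [∀ i : Ix S, NeZero (nn S i)] {N : ℕ} [NeZero N]
    (_hN : ∏ i, nn S i = N) (E : (∀ i, ZMod (nn S i)) ≃+* ZMod N) {A : Finset ℕ}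
    {T : Finset (Ix S)} {p : ℕ} (hp : p.Prime) (hpA : p ∈ A) (hpT : ∀ i ∈ T, ¬ p ∣ nn S i)
    {x : (cyc (nn S)).Pt} (hx : (cyc (nn S)).Supp T x) : cls A (E (emb x)) = 0 := by
  unfold cls
  rw [if_neg]
  intro h
  rw [← h] at hpA
  have h1 : p ∣ addOrderOf (E (emb x)) := Nat.dvd_of_mem_primeFactors hpA
  have h2 : (∏ i ∈ T, nn S i) • (E (emb x)) = 0 := by
    rw [← map_nsmul]
    have h3 : (∏ i ∈ T, nn S i) • (emb x : ∀ i, ZMod (nn S i)) = 0 := by
      funext i
      rw [Pi.smul_apply, Pi.zero_apply]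
      by_cases hi : i ∈ T
      · obtain ⟨d, hd⟩ := dvd_prod_of_mem (nn S) hi
        rw [hd, mul_nsmul, nsmul_eq_mul, nsmul_eq_mul]
        rw [show ((nn S i : ℕ) : ZMod (nn S i)) = 0 from ZMod.natCast_self _, zero_mul, mul_zero]
      · rw [emb_none (hx i hi), smul_zero]
    rw [h3, map_zero]
  have h4 : p ∣ ∏ i ∈ T, nn S i := h1.trans (addOrderOf_dvd_of_nsmul_eq_zero h2)
  obtain ⟨i, hi, hi'⟩ := (hp.prime.dvd_finsetProd_iff _).mp h4
  exact hpT i hi hi'

/-- The class of 29 kills the modular characters. -/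
def ModEven29 : Prop := ∀ (m : ℕ) [NeZero m] (s : Multiset (ZMod m)), ModularCharacter m s →
  (s.map (fun a : ZMod m => cls {29} a)).sum = 0

lemma half_mul_sum {M : ℕ} (s : Multiset (ZMod M)) (ε : ZMod 2) (g : ZMod M → ZMod 2) :
    (s.map (fun a => half (ε * g a))).sum = half (ε * (s.map g).sum) := by
  rw [sum_half_map s (fun a => ε * g a), Multiset.sum_map_mul_left]

lemma oddDist_eps (ε : ZMod 2) {A : Finset ℕ} (hA : A.Nonempty) (hA2 : 2 ∉ A) {M : ℕ} [NeZero M] :
    OddDist (fun a : ZMod M => half (ε * cls A a)) := by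
  have h1 : OddDist (fun a : ZMod M => (AddMonoidHom.mulLeft ε) (cls A a)) :=
    oddDist_map (cls_oddDist hA hA2) _
  exact oddDist_map h1 half

theorem pairs_zr (hmod : ModEven29) {S : Finset ℕ} (hS : ∀ x ∈ S, (x.Prime ∧ x % 2 = 1) ∨ x = 4)
    (hS31 : ∀ x ∈ S, x ≤ 31) [∀ i : Ix S, NeZero (nn S i)] :
    ∃ L2 : ℕ, L2 ≠ 0 ∧ ∀ (L N m0 : ℕ) [NeZero N] [NeZero m0], ∏ i : Ix S, nn S i = m0 → L2 ∣ L →
      L * m0 = N → ∀ (E : (∀ i, ZMod (nn S i)) ≃+* ZMod m0) (c : ZMod N → AddCircle (1 : ℚ)),
      OddDist c → (∀ s, FourBase N s → (s.map c).sum = 0) →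
      ∃ ε : ZMod 2, ∀ T : Finset (Ix S), T.card = 2 →
        Zr (cyc (nn S)) T (fun x => c (iota L (E (emb x))) - half (ε * cls {29} (E (emb x)))) := by
  classical
  have hn : Adm' (nn S) := fun i => hS i i.2
  have hco : Pairwise (fun i j : Ix S => (nn S i).Coprime (nn S j)) := fun i j hij =>
    coprime_of (hS i i.2) (hS j j.2) (fun h => hij (Subtype.ext h))
  let l : Finset ℕ → ℕ := fun T => if h : Good T then h.choose else 1
  have hl0 : ∀ T, l T ≠ 0 := by
    intro T
    by_cases h : Good T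
    · simp only [l, dif_pos h]; exact h.choose_spec.1
    · simp only [l, dif_neg h]; exact one_ne_zero
  have hl : ∀ T, Good T → ∀ (k N mT : ℕ) [NeZero N] [NeZero mT], ∏ x ∈ T, x = mT →
      k * (l T * mT) = N → ∀ (Q : Type) [AddCommGroup Q] (c : ZMod N → Q), OddDist c →
      (∀ s, FourBase N s → (s.map c).sum = 0) →
      ∀ x : ZMod mT → ℤ, Rel x → ∑ b, x b • c (iota (k * l T) b) = 0 := by
    intro T h
    simp only [l, dif_pos h]
    exact h.choose_spec.2
  let l' : Finset ℕ → ℕ := fun T => if h : GoodB B29 T then h.choose else 1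
  have hl0' : ∀ T, l' T ≠ 0 := by
    intro T
    by_cases h : GoodB B29 T
    · simp only [l', dif_pos h]; exact h.choose_spec.1
    · simp only [l', dif_neg h]; exact one_ne_zero
  have hl' : ∀ T, GoodB B29 T → ∀ (k N mT : ℕ) [NeZero N] [NeZero mT], ∏ x ∈ T, x = mT →
      k * (l' T * mT) = N → ∀ (Q : Type) [AddCommGroup Q] (c : ZMod N → Q), OddDist c →
      (∀ s, B29 N s → (s.map c).sum = 0) →
      ∀ x : ZMod mT → ℤ, Rel x → ∑ b, x b • c (iota (k * l' T) b) = 0 := by
    intro T h
    simp only [l', dif_pos h]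
    exact h.choose_spec.2
  refine ⟨116 * 102 * (∏ T ∈ S.powerset, l T) * ∏ T ∈ S.powerset, l' T, ?_, ?_⟩
  · refine Nat.mul_ne_zero (Nat.mul_ne_zero (by norm_num) ?_) ?_
    · exact prod_ne_zero_iff.mpr fun T _ => hl0 T
    · exact prod_ne_zero_iff.mpr fun T _ => hl0' T
  intro L N m0 _ _ hm0 hL hLN E c hc hkill
  have h116 : 116 ∣ N := by
    rw [← hLN]
    exact Dvd.dvd.mul_right ((Dvd.intro (102 * (∏ T ∈ S.powerset, l T) * ∏ T ∈ S.powerset, l' T)
      (by ring)).trans hL) m0
  obtain ⟨k1, hk1⟩ := h116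
  have hk1' : k1 * 116 = N := by rw [hk1, mul_comm]
  obtain ⟨ε, hε⟩ := eps116 (hc.comp_iota hk1')
  refine ⟨ε, ?_⟩
  set c' : ZMod N → AddCircle (1 : ℚ) := fun a => c a - half (ε * cls {29} a) with hc'
  have hc'D : OddDist c' := hc.sub (oddDist_eps ε (singleton_nonempty 29) (by decide))
  have hkill' : ∀ s, B29 N s → (s.map c').sum = 0 := by
    intro s hs
    rw [hc', Multiset.sum_map_sub, half_mul_sum s ε (fun a : ZMod N => cls {29} a)]
    rcases hs with hs | ⟨k, hk, rfl⟩ | ⟨k, s0, hk, hs0, rfl⟩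
    · rw [hkill s (Or.inr hs), hmod N s hs, mul_zero, map_zero, sub_zero]
    · have hkk : k = k1 := Nat.eq_of_mul_eq_mul_right (by norm_num) (hk.trans hk1'.symm)
      subst hkk
      rw [Multiset.sum_map_sub, half_mul_sum s116 ε (fun a => cls {29} a)] at hε
      rw [Multiset.map_map, Multiset.map_map]
      have h1 : ((fun a : ZMod N => (cls {29} a : ZMod 2)) ∘ (iota k : ZMod 116 → ZMod N)) =
          fun a => cls {29} a := by
        funext a
        exact cls_iota {29} hk a
      rw [h1]
      exact hε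
    · have h1 := hkill _ (FourBase.lift hk hs0)
      rw [h1, zero_sub, neg_eq_zero]
      have h2 : ((s0.map (iota k : ZMod 102 → ZMod N)).map (fun a : ZMod N => (cls {29} a : ZMod 2))).sum
          = 0 := by
        rw [Multiset.map_map]
        apply Multiset.sum_eq_zero
        intro y hy
        rw [Multiset.mem_map] at hy
        obtain ⟨a, _, rfl⟩ := hy
        change cls {29} (iota k a : ZMod N) = 0
        rw [cls_iota {29} hk a]
        unfold cls
        rw [if_neg]
        intro h3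
        have h4 : 29 ∈ (addOrderOf a).primeFactors := by rw [h3]; exact mem_singleton_self _
        have h5 := (Nat.dvd_of_mem_primeFactors h4).trans
          (addOrderOf_dvd_of_nsmul_eq_zero (x := a) (n := 102) (by
            rw [nsmul_eq_mul, ZMod.natCast_self, zero_mul]))
        norm_num at h5
      rw [h2, mul_zero, map_zero]
  intro T hT
  set T' : Finset ℕ := T.map (Function.Embedding.subtype _) with hT'
  have hTS : T' ⊆ S := by
    intro x hx
    rw [hT', mem_map] at hx
    obtain ⟨y, _, rfl⟩ := hx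
    exact y.2
  have hcard : T'.card = 2 := by rw [hT', card_map]; exact hT
  obtain ⟨x, y, hxy, hTxy⟩ := card_eq_two.mp hcard
  have hxS : x ∈ S := hTS (by rw [hTxy]; exact mem_insert_self _ _)
  have hyS : y ∈ S := hTS (by rw [hTxy]; exact mem_insert_of_mem (mem_singleton_self _))
  have hc1 : ∀ (mT lT : ℕ) [NeZero mT], lT * mT = m0 → ∀ b : ZMod mT,
      c (iota L (iota lT b : ZMod m0)) = c (iota (L * lT) b) := by
    intro mT lT _ _ b
    rw [iota_comp hLN]
  by_cases h29 : 29 ∈ T'
  · -- the pair contains 29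
    have hgood : GoodB B29 T' := by
      rw [hTxy] at h29 ⊢
      rw [mem_insert, mem_singleton] at h29
      rcases h29 with h | h
      · subst h
        exact goodB_29 (hS y hyS) (hS31 y hyS) (Ne.symm hxy)
      · subst h
        rw [pair_comm]
        exact goodB_29 (hS x hxS) (hS31 x hxS) hxy
    have h1 := zr_of_kills hn hco hm0 E (c := fun a : ZMod m0 => c' (iota L a)) T (by
      intro mT lT _ hmT hlT z hz
      obtain ⟨e, he⟩ : l' T' ∣ L := by
        refine (dvd_prod_of_mem l' (mem_powerset.mpr hTS)).trans ((Dvd.intro_left _ rfl).trans hL)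
      have hprod : ∏ x ∈ T', x = mT := by
        rw [← hmT, hT', prod_map]; rfl
      have h1 := hl' _ hgood (e * lT) N mT hprod (by rw [← hLN, ← hlT, he]; ring) _ c' hc'D hkill' z hz
      have h2 : e * lT * l' T' = L * lT := by rw [he]; ring
      rw [h2] at h1
      rw [← h1]
      refine sum_congr rfl fun b _ => ?_
      rw [iota_comp hLN]) (AddMonoidHom.id _)
    refine Zr.congr h1 ?_
    intro x _
    change c' (iota L (E (emb x))) = _
    rw [hc']
    beta_reduce
    rw [cls_iota {29} hLN]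
  · have hsmall : SmallSet T' := by
      refine ⟨fun z hz => hS z (hTS hz), fun p hp hp4 => Or.inr ?_⟩
      have h1 := hS31 p (hTS hp)
      have h3 : p ≠ 29 := fun h => h29 (h ▸ hp)
      have h2 : p.Prime := by
        rcases hS p (hTS hp) with h | h
        · exact h.1
        · omega
      have h4 := h2.two_le
      interval_cases p <;> first | omega | (exfalso; revert h2; decide)
    have hgood : Good T' := by
      rw [hTxy] at hsmall ⊢
      exact good_pair hxy hsmall
    have h1 := zr_of_kills hn hco hm0 E (c := fun a : ZMod m0 => c (iota L a)) T (by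
      intro mT lT _ hmT hlT z hz
      obtain ⟨e, he⟩ : l T' ∣ L := by
        refine (dvd_prod_of_mem l (mem_powerset.mpr hTS)).trans (Dvd.dvd.trans ?_ hL)
        exact Dvd.dvd.mul_right (Dvd.intro_left _ rfl) _
      have hprod : ∏ x ∈ T', x = mT := by
        rw [← hmT, hT', prod_map]; rfl
      have h1 := hl _ hgood (e * lT) N mT hprod (by rw [← hLN, ← hlT, he]; ring) _ c hc hkill z hz
      have h2 : e * lT * l T' = L * lT := by rw [he]; ring
      rw [h2] at h1
      rw [← h1]
      refine sum_congr rfl fun b _ => ?_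
      rw [iota_comp hLN]) (AddMonoidHom.id _)
    refine Zr.congr h1 ?_
    intro x hx
    change c (iota L (E (emb x))) = _
    rw [cls_supp hm0 E (p := 29) (by norm_num) (mem_singleton_self _) ?_ hx, mul_zero, map_zero,
      sub_zero]
    intro i hi h
    apply h29
    rw [hT', mem_map]
    refine ⟨i, hi, ?_⟩
    change (i : ℕ) = 29
    have h' : 29 ∣ (i : ℕ) := h
    rcases hS i i.2 with h2 | h2
    · exact ((Nat.prime_dvd_prime_iff_eq (by norm_num) h2.1).mp h').symm
    · rw [h2] at h'; norm_num at h'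

end Pool.Agent.LB
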