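import Pool.Agent.LB.W0
import Pool.Agent.N992.Defs

/-!
Symmetries of the spectra of the congruence representations of `PSL(2, ℤ)`: the squares prime to
the level act, so the classes of order a power of a prime congruent to `1` modulo `4` come in pairs.
-/

namespace Pool.Agent.LB

open Finset Pool.Agent.H916R2 Pool.Agent.N992 MatrixGroups

/-- the matrix which is `diag(a, b)` modulo `N` if `a b = 1` modulo `N` -/
def gam (a b : ℤ) : SL(2, ℤ) :=
  ⟨!![2 * a - a ^ 2 * b, a * b - 1; 1 - a * b, b], by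
    rw [Matrix.det_fin_two_of]; ring⟩

lemma gam_mem {N : ℕ} {a b : ℕ} (hab : ((a : ℕ) : ZMod N) * ((b : ℕ) : ZMod N) = 1) :
    gam a b * ModularGroup.T * (gam a b)⁻¹ * (ModularGroup.T ^ (a * a))⁻¹ ∈
      CongruenceSubgroup.Gamma N := by
  have key : (Matrix.SpecialLinearGroup.map (Int.castRingHom (ZMod N)))
      (gam a b * ModularGroup.T) =
      (Matrix.SpecialLinearGroup.map (Int.castRingHom (ZMod N)))
      (ModularGroup.T ^ (a * a) * gam a b) := by
    have hT : ((ModularGroup.T ^ (a * a) : SL(2, ℤ)) : Matrix (Fin 2) (Fin 2) ℤ) =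
        !![1, ((a * a : ℕ) : ℤ); 0, 1] := by
      rw [← ModularGroup.coe_T_zpow, zpow_natCast]
    ext i j
    rw [Matrix.SpecialLinearGroup.map_apply_coe, Matrix.SpecialLinearGroup.map_apply_coe,
      Matrix.SpecialLinearGroup.coe_mul, Matrix.SpecialLinearGroup.coe_mul, hT,
      ModularGroup.coe_T]
    fin_cases i <;> fin_cases j <;>
      simp [gam] <;> grind
  rw [CongruenceSubgroup.Gamma_mem', map_mul, map_inv, mul_inv_eq_one, map_mul, map_inv,
    mul_inv_eq_iff_eq_mul, key, map_mul]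

lemma spectrum_map {m : ℕ} [NeZero m] {n : ℕ} {ρ : SL(2, ℤ) →* Matrix (Fin n) (Fin n) ℂ}
    {e : Fin n → ZMod m} {N : ℕ} (hN0 : N ≠ 0) (hN : CongruenceSubgroup.Gamma N ≤ ρ.ker)
    (hT : ρ ModularGroup.T = Matrix.diagonal (fun i => ZMod.stdAddChar (e i)))
    {a : ℕ} (ha : a.Coprime N) :
    (Finset.univ.val.map (fun i => ((a * a : ℕ) : ZMod m) * e i)) = Finset.univ.val.map e := by
  have : NeZero N := ⟨hN0⟩
  set b : ℕ := ((a : ZMod N)⁻¹).val with hb
  have hab : ((a : ℕ) : ZMod N) * ((b : ℕ) : ZMod N) = 1 := by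
    rw [hb, ZMod.natCast_zmod_val]
    exact ZMod.coe_mul_inv_eq_one a ha
  have h1 := hN (gam_mem hab)
  rw [MonoidHom.mem_ker] at h1
  -- the intertwining relation
  have h2 : ρ (gam a b) * ρ ModularGroup.T * ρ (gam a b)⁻¹ = ρ (ModularGroup.T ^ (a * a)) := by
    have h3 : ρ (gam a b * ModularGroup.T * (gam a b)⁻¹) =
        ρ (gam a b * ModularGroup.T * (gam a b)⁻¹ * (ModularGroup.T ^ (a * a))⁻¹) *
          ρ (ModularGroup.T ^ (a * a)) := by
      rw [← map_mul]
      congr 1
      group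
    rw [h1, one_mul, map_mul, map_mul] at h3
    exact h3
  have hpow : ρ (ModularGroup.T ^ (a * a)) =
      Matrix.diagonal (fun i => ZMod.stdAddChar (((a * a : ℕ) : ZMod m) * e i)) := by
    rw [map_pow, hT, Matrix.diagonal_pow]
    congr 1
    funext i
    rw [Pi.pow_apply, ← AddChar.map_nsmul_eq_pow, nsmul_eq_mul]
  obtain ⟨u, hu1, hu2⟩ : ∃ u : (Matrix (Fin n) (Fin n) ℂ)ˣ,
      u.val = ρ (gam a b) ∧ (u⁻¹).val = ρ (gam a b)⁻¹ :=
    ⟨⟨ρ (gam a b), ρ (gam a b)⁻¹, by
      rw [← map_mul, mul_inv_cancel, map_one], by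
      rw [← map_mul, inv_mul_cancel, map_one]⟩, rfl, rfl⟩
  have h4 : (Matrix.diagonal (fun i => ZMod.stdAddChar (((a * a : ℕ) : ZMod m) * e i)) :
      Matrix (Fin n) (Fin n) ℂ).charpoly =
      (Matrix.diagonal (fun i => ZMod.stdAddChar (e i)) : Matrix (Fin n) (Fin n) ℂ).charpoly := by
    rw [← hpow, ← h2, ← hT, ← hu1, ← hu2]
    rw [Matrix.coe_units_inv]
    exact Matrix.charpoly_units_conj u (ρ ModularGroup.T)
  rw [Matrix.charpoly_diagonal, Matrix.charpoly_diagonal] at h4
  have h5 : ∀ f : Fin n → ℂ, (∏ i, (Polynomial.X - Polynomial.C (f i))).roots =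
      Finset.univ.val.map f := by
    intro f
    have := Polynomial.roots_multiset_prod_X_sub_C (Finset.univ.val.map f)
    rw [Multiset.map_map] at this
    exact this
  have h6 := congrArg Polynomial.roots h4
  rw [h5, h5] at h6
  have h7 : Multiset.map (ZMod.stdAddChar (N := m))
      (Finset.univ.val.map (fun i => ((a * a : ℕ) : ZMod m) * e i)) =
      Multiset.map (ZMod.stdAddChar (N := m)) (Finset.univ.val.map e) := by
    rw [Multiset.map_map, Multiset.map_map]
    exact h6
  exact Multiset.map_injective ZMod.injective_stdAddChar h7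

theorem spectrum_sq {m : ℕ} [NeZero m] {b : Multiset (ZMod m)} (hb : ModularSpectrum m b) :
    ∃ N0 : ℕ, N0 ≠ 0 ∧ ∀ a : ℕ, a.Coprime N0 → a.Coprime m → ∀ x : ZMod m,
      b.count (((a * a : ℕ) : ZMod m) * x) = b.count x := by
  obtain ⟨n, ρ, e, ⟨N, hN0, hN⟩, -, hT, rfl⟩ := hb
  refine ⟨N, hN0, fun a haN ham x => ?_⟩
  have h1 := spectrum_map hN0 hN hT haN
  have hu : IsUnit ((a * a : ℕ) : ZMod m) :=
    (ZMod.isUnit_iff_coprime (a * a) m).mpr (Nat.Coprime.mul_left ham ham)
  have hinj : Function.Injective (fun y : ZMod m => ((a * a : ℕ) : ZMod m) * y) :=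
    hu.mul_right_injective
  have h2 : (Finset.univ.val.map (fun i => ((a * a : ℕ) : ZMod m) * e i)) =
      Multiset.map (fun y : ZMod m => ((a * a : ℕ) : ZMod m) * y) (Finset.univ.val.map e) := by
    rw [Multiset.map_map]; rfl
  rw [Multiset.count_filter, Multiset.count_filter]
  by_cases hx : x = 0
  · subst hx
    simp
  · have hx' : ((a * a : ℕ) : ZMod m) * x ≠ 0 := by
      intro h
      exact hx (hu.mul_right_eq_zero.mp h)
    rw [if_pos hx', if_pos hx]
    conv_lhs => rw [← h1, h2]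
    exact Multiset.count_map_eq_count' _ _ hinj x

/-- for `p` congruent to `1` modulo `4` there is a square root of `-1` modulo `p ^ (k + 1)` -/
lemma exists_sq_add_one {p : ℕ} (hp : p.Prime) (hp4 : p % 4 = 1) (k : ℕ) :
    ∃ i : ℕ, p ^ (k + 1) ∣ i ^ 2 + 1 := by
  have : Fact p.Prime := ⟨hp⟩
  obtain ⟨y, hy⟩ := (ZMod.exists_sq_eq_neg_one_iff (p := p)).mpr (by omega)
  have h1 : p ∣ y.val ^ 2 + 1 := by
    rw [← ZMod.natCast_eq_zero_iff]
    push_cast
    rw [ZMod.natCast_zmod_val, sq, ← hy]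
    ring
  have h2 : (p : ℤ) ∣ (y.val : ℤ) ^ 2 - (-1) := by
    rw [sub_neg_eq_add]
    exact_mod_cast h1
  have h3 := dvd_sub_pow_of_dvd_sub h2 k
  have hodd : Odd (p ^ k) := (Nat.odd_iff.mpr (by omega)).pow
  refine ⟨y.val ^ (p ^ k), ?_⟩
  rw [hodd.neg_one_pow, sub_neg_eq_add] at h3
  have h4 : ((p ^ (k + 1) : ℕ) : ℤ) ∣ (((y.val ^ (p ^ k)) ^ 2 + 1 : ℕ) : ℤ) := by
    push_cast
    rw [← pow_mul, mul_comm (p ^ k) 2, pow_mul]
    exact h3
  exact_mod_cast h4

/-- a number prime to `n` whose square is `-1` on the elements of order a power of `p` -/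
lemma exists_neg {p : ℕ} (hp : p.Prime) (hp4 : p % 4 = 1) {n m : ℕ} (hn : n ≠ 0) (hmn : m ∣ n) :
    ∃ a : ℕ, a.Coprime n ∧ ∀ x : ZMod m, (addOrderOf x).primeFactors = {p} →
      ((a * a : ℕ) : ZMod m) * x = -x := by
  have hm : m ≠ 0 := by rintro rfl; exact hn (Nat.eq_zero_of_zero_dvd hmn)
  have : NeZero m := ⟨hm⟩
  set e := n.factorization p with he
  obtain ⟨i, hi⟩ := exists_sq_add_one hp hp4 e
  have hcop : (p ^ (e + 1)).Coprime (n / p ^ e) :=
    Nat.Coprime.pow_left _ (Nat.coprime_ordCompl hp hn)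
  obtain ⟨a, ha1, ha2⟩ := Nat.chineseRemainder hcop i 1
  have ha3 : p ^ (e + 1) ∣ a * a + 1 := by
    have h1 : a * a + 1 ≡ i ^ 2 + 1 [MOD p ^ (e + 1)] := by
      rw [sq]
      exact (ha1.mul ha1).add_right 1
    exact (h1.dvd_iff dvd_rfl).mpr hi
  have hpa : p.Coprime a := by
    rw [Nat.Prime.coprime_iff_not_dvd hp]
    intro h
    have h1 : p ∣ a * a + 1 := (dvd_pow_self p (Nat.succ_ne_zero e)).trans ha3
    have h2 : p ∣ 1 := (Nat.dvd_add_right (h.mul_left a)).mp h1
    exact hp.one_lt.ne' (Nat.dvd_one.mp h2)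
  refine ⟨a, ?_, ?_⟩
  · rw [← Nat.ordProj_mul_ordCompl_eq_self n p]
    refine Nat.Coprime.mul_right (Nat.Coprime.pow_right _ hpa.symm) ?_
    rw [Nat.coprime_iff_gcd_eq_one, ha2.gcd_eq]
    simp
  · intro x hx
    have hdn : addOrderOf x ∣ n := by
      refine dvd_trans ?_ hmn
      exact addOrderOf_dvd_of_nsmul_eq_zero (by rw [nsmul_eq_mul, ZMod.natCast_self, zero_mul])
    have hpow : addOrderOf x = p ^ (addOrderOf x).factorization p := by
      have h1 := Nat.prod_factorization_pow_eq_self (addOrderOf_pos x).ne'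
      rw [Nat.prod_factorization_eq_prod_primeFactors, hx, Finset.prod_singleton] at h1
      exact h1.symm
    have hle : (addOrderOf x).factorization p ≤ e :=
      (Nat.factorization_le_iff_dvd (addOrderOf_pos x).ne' hn).mpr hdn p
    have hd : addOrderOf x ∣ a * a + 1 := by
      rw [hpow]
      exact (pow_dvd_pow p (hle.trans (Nat.le_succ e))).trans ha3
    have h0 := addOrderOf_dvd_iff_nsmul_eq_zero.mp hd
    rw [nsmul_eq_mul, Nat.cast_add, Nat.cast_one, add_mul, one_mul] at h0
    exact eq_neg_of_add_eq_zero_left h0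

theorem spectrum_neg {m : ℕ} [NeZero m] {b : Multiset (ZMod m)} (hb : ModularSpectrum m b)
    {p : ℕ} (hp : p.Prime) (hp4 : p % 4 = 1) {x : ZMod m}
    (hx : (addOrderOf x).primeFactors = {p}) : b.count (-x) = b.count x := by
  obtain ⟨N0, hN0, h⟩ := spectrum_sq hb
  obtain ⟨a, ha, hax⟩ := exists_neg hp hp4 (n := N0 * m) (m := m)
    (mul_ne_zero hN0 (NeZero.ne m)) (dvd_mul_left m N0)
  rw [← hax x hx]
  exact h a (Nat.Coprime.coprime_mul_right_right ha) (Nat.Coprime.coprime_mul_left_right ha) x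

/-- the sum of the classes over a modular spectrum vanishes -/
lemma spectrum_even {m : ℕ} [NeZero m] {b : Multiset (ZMod m)} (hb : ModularSpectrum m b)
    {p : ℕ} (hp : p.Prime) (hp4 : p % 4 = 1) : (b.map (fun a : ZMod m => cls {p} a)).sum = 0 := by
  classical
  rw [Finset.sum_multiset_map_count, Finset.sum_subset (Finset.subset_univ b.toFinset)
    (fun x _ hx => by rw [Multiset.count_eq_zero.mpr (fun h => hx (Multiset.mem_toFinset.mpr h)),
      zero_smul])]
  refine Finset.sum_involution (fun x _ => -x) ?_ ?_ ?_ ?_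
  · intro x _
    by_cases hx : (addOrderOf x).primeFactors = {p}
    · rw [spectrum_neg hb hp hp4 hx, cls_neg]
      exact CharTwo.add_self_eq_zero _
    · have h1 : cls {p} x = 0 := by unfold cls; rw [if_neg hx]
      rw [cls_neg, h1, smul_zero, smul_zero, add_zero]
  · intro x _ hne hfix
    apply hne
    have h1 : cls {p} x = 0 := by
      unfold cls
      rw [if_neg]
      intro hx
      have h2 : addOrderOf x ∣ 2 := by
        apply addOrderOf_dvd_of_nsmul_eq_zero
        rw [two_nsmul]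
        nth_rewrite 1 [← hfix]
        exact neg_add_cancel x
      have h3 : p ∈ (addOrderOf x).primeFactors := by rw [hx]; exact mem_singleton_self p
      have h4 := (Nat.prime_dvd_prime_iff_eq hp Nat.prime_two).mp
        ((Nat.dvd_of_mem_primeFactors h3).trans h2)
      omega
    rw [h1, smul_zero]
  · intro x _
    exact Finset.mem_univ _
  · intro x _
    exact neg_neg x

theorem modular_even {m : ℕ} [NeZero m] {s : Multiset (ZMod m)} (hs : ModularCharacter m s)
    {p : ℕ} (hp : p.Prime) (hp4 : p % 4 = 1) :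
    (s.map (fun a : ZMod m => cls {p} a)).sum = 0 := by
  obtain ⟨-, L, r, hL, hr, rfl⟩ := hs
  rw [Multiset.map_add, Multiset.sum_add]
  have h1 : (r.map (fun a : ZMod m => cls {p} a)).sum = 0 := by
    apply Multiset.sum_eq_zero
    intro c hc
    rw [Multiset.mem_map] at hc
    obtain ⟨a, ha, rfl⟩ := hc
    unfold cls
    rw [if_neg]
    intro hx
    have h2 : addOrderOf a ∣ 12 := by
      apply addOrderOf_dvd_of_nsmul_eq_zero
      rw [nsmul_eq_mul]
      exact_mod_cast hr a ha
    have h3 : p ∈ (addOrderOf a).primeFactors := by rw [hx]; exact mem_singleton_self p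
    have h4 := (Nat.dvd_of_mem_primeFactors h3).trans h2
    have h5 : p ≤ 12 := Nat.le_of_dvd (by norm_num) h4
    have h6 := hp.two_le
    interval_cases p <;> omega
  have h2 : (Multiset.map (fun a : ZMod m => cls {p} a) L.sum).sum = 0 := by
    clear hr h1
    induction L with
    | nil => simp
    | cons b L ih =>
      rw [List.sum_cons, Multiset.map_add, Multiset.sum_add,
        spectrum_even (hL b (List.mem_cons_self)) hp hp4,
        ih (fun c hc => hL c (List.mem_cons_of_mem b hc)), add_zero]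
  rw [h1, h2, add_zero]

end Pool.Agent.LB
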