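import Pool.Agent.N997.P.Remove

/-!
Removal of large primes from the degree, weighted version (helper134, after the files
Pool.Agent.N997.P.Ext, Ind, Remove of helper997): the elements whose order is twice an odd number
are counted with the weight two.
-/

set_option autoImplicit false

namespace Pool.Agent.LB

open Finset Pool.Agent.H916R2 Pool.Agent.N997 Pool.Agent.N997.P

/-- the weight: 2 for the elements whose order is twice an odd number -/
noncomputable def w2 {m : ℕ} (a : ZMod m) : ℕ := if addOrderOf a % 4 = 2 then 2 else 1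

lemma one_le_w2 {m : ℕ} (a : ZMod m) : 1 ≤ w2 a := by unfold w2; split_ifs <;> norm_num

lemma w2_congr {m m' : ℕ} {a : ZMod m} {b : ZMod m'}
    (h : addOrderOf a % 4 = 2 ↔ addOrderOf b % 4 = 2) : w2 a = w2 b := by
  unfold w2
  by_cases h1 : addOrderOf a % 4 = 2
  · rw [if_pos h1, if_pos (h.1 h1)]
  · rw [if_neg h1, if_neg (fun h2 => h1 (h.2 h2))]

lemma ord_iota {l m0 m : ℕ} [NeZero m0] [NeZero m] (h : l * m0 = m) (b : ZMod m0) :
    addOrderOf (iota l b : ZMod m) = addOrderOf b := by
  have h0 : ∀ n : ℕ, n • (iota l b : ZMod m) = 0 ↔ n • b = 0 := by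
    intro n
    rw [nsmul_eq_mul, ← iota_natMul h, ← nsmul_eq_mul]
    have h1 : (iota l (0 : ZMod m0) : ZMod m) = 0 := by
      unfold iota
      simp
    constructor
    · intro h2
      exact iota_inj h (h2.trans h1.symm)
    · intro h2
      rw [h2, h1]
  apply Nat.dvd_antisymm
  · rw [addOrderOf_dvd_iff_nsmul_eq_zero, h0]
    exact addOrderOf_nsmul_eq_zero b
  · rw [addOrderOf_dvd_iff_nsmul_eq_zero, ← h0]
    exact addOrderOf_nsmul_eq_zero _

theorem w2_iota {l m0 m : ℕ} [NeZero m0] [NeZero m] (h : l * m0 = m) (b : ZMod m0) :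
    w2 (iota l b : ZMod m) = w2 b := by
  unfold w2
  rw [ord_iota h]

lemma odd_mul_mod {g o : ℕ} (hg : g % 2 = 1) : g * o % 4 = 2 ↔ o % 4 = 2 := by
  have h1 : g % 4 = 1 ∨ g % 4 = 3 := by omega
  have h2 : o % 4 = 0 ∨ o % 4 = 1 ∨ o % 4 = 2 ∨ o % 4 = 3 := by omega
  rw [Nat.mul_mod]
  rcases h1 with h1 | h1 <;> rcases h2 with h2 | h2 | h2 | h2 <;> simp [h1, h2]

/-- multiplication by an odd number does not change the weight -/
lemma w2_mul {m : ℕ} [NeZero m] {q : ℕ} (hq : q % 2 = 1) (a : ZMod m) :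
    w2 ((q : ZMod m) * a) = w2 a := by
  apply w2_congr
  have hq0 : q ≠ 0 := by omega
  rw [← nsmul_eq_mul, addOrderOf_nsmul' _ hq0]
  have hd := Nat.gcd_dvd_left (addOrderOf a) q
  have hdq := Nat.gcd_dvd_right (addOrderOf a) q
  have hg : (addOrderOf a).gcd q % 2 = 1 := by
    by_contra hc
    have h1 : 2 ∣ (addOrderOf a).gcd q := by omega
    have := h1.trans hdq
    omega
  have he : addOrderOf a = (addOrderOf a).gcd q * (addOrderOf a / (addOrderOf a).gcd q) :=
    (Nat.mul_div_cancel' hd).symm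
  have h3 := odd_mul_mod (o := addOrderOf a / (addOrderOf a).gcd q) hg
  rw [← he] at h3
  exact h3.symm

lemma w2_pr {l m' m : ℕ} [NeZero m] [NeZero m'] (h : l * m' = m) (hl : l % 2 = 1) (a : ZMod m) :
    w2 (pr h a) = w2 a := by
  rw [← w2_iota h (pr h a), iota_pr h, w2_mul hl]

lemma w2_odd {m : ℕ} [NeZero m] (hm : m % 2 = 1) (b : ZMod m) : w2 b = 1 := by
  unfold w2
  rw [if_neg]
  intro h1
  have h2 : addOrderOf b ∣ m := by
    have := addOrderOf_dvd_card (x := b)
    rwa [ZMod.card] at this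
  have h3 : 2 ∣ addOrderOf b := by omega
  have := h3.trans h2
  omega

lemma w2_two {m' m : ℕ} [NeZero m] [NeZero m'] (h : 2 * m' = m) (hm : m' % 2 = 1) {a : ZMod m}
    (ha : ¬ 2 ∣ a.val) : w2 a = 2 := by
  unfold w2
  rw [if_pos]
  have h2 : addOrderOf a ∣ m := by
    have := addOrderOf_dvd_card (x := a)
    rwa [ZMod.card] at this
  have h3 : 2 ∣ addOrderOf a := by
    have h4 : addOrderOf a • a = 0 := addOrderOf_nsmul_eq_zero a
    rw [nsmul_eq_mul] at h4
    have h5 : ((addOrderOf a * a.val : ℕ) : ZMod m) = 0 := by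
      rw [Nat.cast_mul, ZMod.natCast_zmod_val]
      exact h4
    rw [ZMod.natCast_eq_zero_iff] at h5
    have h6 : 2 ∣ addOrderOf a * a.val := (Dvd.intro _ h).trans h5
    exact (Nat.prime_two.dvd_mul.1 h6).resolve_right ha
  have h4 : ¬ 4 ∣ addOrderOf a := by
    intro h5
    have := h5.trans h2
    omega
  omega

/-! ### The extension -/

section ext

variable {m m' l : ℕ} [NeZero m] [NeZero m']

theorem Ex_bound_w (h : l * m' = m) (hl : l.Prime) {c : ZMod m' → ℝ} {B : ℝ}
    (hB : ∀ b, |c b| ≤ w2 b * B) (a : ZMod m) : |Ex h c a| ≤ w2 a * B := by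
  have hB0 : 0 ≤ B := by
    have h1 := hB 0
    have h2 : (0 : ℝ) ≤ w2 (0 : ZMod m') * B := (abs_nonneg _).trans h1
    have h3 : (0 : ℝ) < w2 (0 : ZMod m') := by exact_mod_cast one_le_w2 _
    by_contra hc
    push Not at hc
    nlinarith
  have hwa : (1 : ℝ) ≤ w2 a := by exact_mod_cast one_le_w2 a
  have hle : B ≤ w2 a * B := by nlinarith
  have hl2 : (2 : ℝ) ≤ l := by exact_mod_cast hl.two_le
  unfold Ex
  by_cases ha : l ∣ a.val
  · rw [if_pos ha]
    have h1 := hB (dv l a : ZMod m')
    have h2 : w2 (dv l a : ZMod m') = w2 a := by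
      rw [← w2_iota h (dv l a : ZMod m'), iota_dv h ha]
    rwa [h2] at h1
  · rw [if_neg ha, abs_mul, abs_of_nonneg (inv_nonneg.mpr (kap_pos (m' := m') hl).le)]
    by_cases hlm' : l ∣ m'
    · have h1 : ∑ x ∈ cos l a, oo l c x = 0 := by
        apply sum_eq_zero
        intro x hx
        apply oo_of_not
        rw [dvd_cos_self h hlm' hx]; exact ha
      rw [h1, sub_zero]
      have hk : P.kap l m' = l := by unfold P.kap; rw [if_pos hlm']
      rw [hk]
      have hlp : (0 : ℝ) < l := by linarith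
      rw [inv_mul_le_iff₀ hlp]
      have h3 := hB (pr h a)
      by_cases hl3 : l = 2
      · have h4 : (w2 (pr h a) : ℝ) ≤ 2 := by
          have : w2 (pr h a) ≤ 2 := by unfold w2; split_ifs <;> norm_num
          exact_mod_cast this
        have h5 : (l : ℝ) = 2 := by exact_mod_cast hl3
        rw [h5]
        nlinarith
      · have hlo : l % 2 = 1 := by
          rcases hl.eq_two_or_odd with h5 | h5
          · exact absurd h5 hl3
          · exact h5
        rw [w2_pr h hlo] at h3
        nlinarith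
    · obtain ⟨b, hb1, hb2⟩ := exists_unique_old h hl hlm' a
      have h1 : ∑ x ∈ cos l a, oo l c x = c b := by
        rw [Finset.sum_eq_single_of_mem _ hb1, oo_iota h]
        intro x hx hne
        apply oo_of_not
        intro hxl
        exact hne (hb2 x hx hxl)
      rw [h1]
      have hk : P.kap l m' = l - 1 := by unfold P.kap; rw [if_neg hlm']
      rw [hk]
      have hl1 : (0 : ℝ) < l - 1 := by linarith
      rw [inv_mul_le_iff₀ hl1]
      have h3 : |c (pr h a) - c b| ≤ w2 (pr h a) * B + w2 b * B :=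
        (abs_sub _ _).trans (add_le_add (hB _) (hB _))
      refine h3.trans ?_
      by_cases hl3 : l = 2
      · subst hl3
        have hm'o : m' % 2 = 1 := by omega
        rw [w2_odd hm'o, w2_odd hm'o, w2_two h hm'o ha]
        push_cast
        linarith
      · have hlo : l % 2 = 1 := by
          rcases hl.eq_two_or_odd with h5 | h5
          · exact absurd h5 hl3
          · exact h5
        have hl4 : (3 : ℝ) ≤ l := by
          have := hl.two_le
          have h5 : 3 ≤ l := by omega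
          exact_mod_cast h5
        have h6 : w2 b = w2 a := by
          rw [← w2_iota h b, ← w2_mul (m := m) hlo (iota l b), mem_cos.1 hb1, w2_mul hlo]
        rw [w2_pr h hlo, h6]
        nlinarith

end ext

/-- The lower bound at all levels. -/
theorem bd_w {p : ℕ} (hp : p.Prime) (hp2 : p ≠ 2) (M : ℕ) (hM : M ≠ 0) :
    ∀ (m : ℕ) [NeZero m] (P : Finset ℕ), p ∈ P →
    (∀ q ∈ P, q.Prime ∧ q ∣ m) → m ∣ M → ¬ p ∣ M / m → ∀ (g : ZMod m → ℤ) (K : ℝ),
    0 ≤ K → 2 * K < p - 1 →
    (∀ c : ZMod m → ℝ, ND p P c → ∀ B : ℝ, (∀ u, |c u| ≤ w2 u * B) →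
      |∑ a, g a • c a| ≤ K * B) →
    (∀ c : ZMod m → ℝ, ND p P c → ∀ n : ℕ, n ≡ 1 [MOD M / p] → ¬ p ∣ n →
      ∑ a, g a • c ((n : ZMod m) * a) = ∑ a, g a • c a) →
    ∀ c : ZMod m → ℝ, ND p P c → ∑ a, g a • c a = 0 := by
  apply ND_ind (p := p) (motive := fun m _ P => m ∣ M → ¬ p ∣ M / m → ∀ (g : ZMod m → ℤ) (K : ℝ),
    0 ≤ K → 2 * K < p - 1 →
    (∀ c : ZMod m → ℝ, ND p P c → ∀ B : ℝ, (∀ u, |c u| ≤ w2 u * B) →
      |∑ a, g a • c a| ≤ K * B) →
    (∀ c : ZMod m → ℝ, ND p P c → ∀ n : ℕ, n ≡ 1 [MOD M / p] → ¬ p ∣ n →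
      ∑ a, g a • c ((n : ZMod m) * a) = ∑ a, g a • c a) →
    ∀ c : ZMod m → ℝ, ND p P c → ∑ a, g a • c a = 0)
  · intro m _ P hpP hP hall hmM hpM g K hK hlt hb hinv c hc
    have hpm := (hP p hpP).2
    refine bd_base hp hP hall g K ?_ ?_ ?_ c hc
    · have h1 : ((p - 1 : ℕ) : ℝ) ≤ Nat.card (Kn m p) := by exact_mod_cast card_Kn (m := m) hp hpm
      rw [Nat.cast_sub hp.one_le, Nat.cast_one] at h1
      linarith
    · intro c hc B hB
      have hB0 : 0 ≤ B := (abs_nonneg _).trans (hB 0)
      refine hb c hc B fun u => (hB u).trans ?_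
      have : (1 : ℝ) ≤ w2 u := by exact_mod_cast one_le_w2 u
      nlinarith
    · intro c hc h hh
      obtain ⟨n, hn1, hn2, hn3⟩ := exists_rep hp hpm hmM hpM hM hh
      rw [← hinv c hc n hn1 hn2, hn3]
  · intro m m' l _ _ P hpP hP hl hlP h ih1 ih2 hmM hpM g K hK hlt hb hinv c hc
    have hlp : l ≠ p := fun e => hlP (e ▸ hpP)
    have hP1 : ∀ q ∈ P, q.Prime ∧ q ∣ m := fun q hq =>
      ⟨(hP q hq).1, (hP q hq).2.trans (Dvd.intro_left l h)⟩
    have hlm : l ∣ m := Dvd.intro _ h
    have hP2 : ∀ q ∈ insert l P, q.Prime ∧ q ∣ m := by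
      intro q hq
      rcases mem_insert.mp hq with rfl | hq
      · exact ⟨hl, hlm⟩
      · exact hP1 q hq
    -- the new distributions
    have hg0 := ih1 hmM hpM g K hK hlt (fun c hc => hb c (hc.mono (subset_insert _ _)))
      (fun c hc => hinv c (hc.mono (subset_insert _ _)))
    have hg1 := tf hp hp2 m (insert l P) (mem_insert_of_mem hpP) hP2 g hg0
    -- the integral combination at the lower level
    let D := {c' : ZMod m → ℝ // ND p P c'}
    let c2 : ZMod m → (D → ℝ) := fun a c' => c'.1 a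
    have hc2 : ND p P c2 := by
      refine ⟨?_, ?_, ?_⟩
      · intro a
        funext c'
        exact c'.2.neg a
      · intro q hq hqp hqm a
        funext c'
        rw [Finset.sum_apply]
        exact c'.2.dist q hq hqp hqm a
      · intro q hq a ha
        funext c'
        exact c'.2.supp q hq a ha
    obtain ⟨g', hg'⟩ := split h g hg1 _ c2 hc2
    have e2 : ∀ c' : ZMod m → ℝ, ND p P c' → ∑ a, g a • c' a = ∑ b, g' b • c' (iota l b) := by
      intro c' hc'
      have := congrFun hg' ⟨c', hc'⟩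
      rw [Finset.sum_apply, Finset.sum_apply] at this
      simpa [c2] using this
    have e3 : ∀ c' : ZMod m' → ℝ, ND p P c' → ∑ a, g a • Ex h c' a = ∑ b, g' b • c' b := by
      intro c' hc'
      rw [e2 _ (Ex_ND h hP hl hlP hlp hc')]
      refine sum_congr rfl fun b _ => ?_
      rw [Ex_iota h]
    rw [e2 c hc]
    have hmm' : M / m' = l * (M / m) := by
      obtain ⟨r, hr⟩ := hmM
      rw [hr, Nat.mul_div_cancel_left _ (NeZero.pos m), ← h,
        show l * m' * r = m' * (l * r) by ring, Nat.mul_div_cancel_left _ (NeZero.pos m')]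
    refine ih2 ((Dvd.intro_left l h).trans hmM) ?_ g' K hK hlt ?_ ?_
      (fun b => c (iota l b)) (hc.comp_iota h hP hl hlP)
    · rw [hmm']
      intro hdvd
      rcases (Nat.Prime.dvd_mul hp).mp hdvd with h1 | h1
      · exact hlp ((Nat.prime_dvd_prime_iff_eq hp hl).mp h1).symm
      · exact hpM h1
    · intro c' hc' B hB
      rw [← e3 c' hc']
      exact hb _ (Ex_ND h hP hl hlP hlp hc') _ (Ex_bound_w h hl hB)
    · intro c' hc' n hn1 hn2
      have hnl : ∀ q, q.Prime → q ≠ p → q ∣ m → Nat.Coprime n q := by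
        intro q hq hqp hqm
        have h1 : q ∣ M / p := by
          have h2 : q ∣ p * (M / p) := by
            rw [Nat.mul_div_cancel' ((hP1 p hpP).2.trans hmM)]; exact hqm.trans hmM
          exact ((Nat.coprime_primes hq hp).mpr hqp).dvd_of_dvd_mul_left h2
        have h2 := hn1.of_dvd h1
        have h3 : Nat.gcd n q = Nat.gcd 1 q := h2.gcd_eq
        rw [Nat.coprime_iff_gcd_eq_one, h3]; simp
      have hcn : ND p P (fun b : ZMod m' => c' ((n : ZMod m') * b)) := hc'.comp_mul
        (fun q hq => (hP q hq).2) (fun q hq hqp hqm => hnl q hq hqp (hqm.trans (Dvd.intro_left l h)))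
      rw [← e3 _ hcn, ← e3 c' hc']
      rw [← hinv _ (Ex_ND h hP hl hlP hlp hc') n hn1 hn2]
      refine sum_congr rfl fun a _ => ?_
      rw [Ex_mul h (hnl l hl hlp hlm)]

theorem new_kill_w {m p : ℕ} [NeZero m] (hp : p.Prime) (hp2 : p ≠ 2) (hpm : p ∣ m) {x : ZMod m → ℤ}
    (hx : Rel x) {k : ℕ} (hk : ∑ a ∈ univ.filter (fun a : ZMod m => ¬ p ∣ a.val), (w2 a : ℤ) * |x a| ≤ k)
    (hlt : 2 * k + 1 < p) (R : Type) [AddCommGroup R] (c : ZMod m → R)
    (hc : ND p {p} c) : ∑ a, x a • c a = 0 := by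
  have hP : ∀ q ∈ ({p} : Finset ℕ), q.Prime ∧ q ∣ m := by
    intro q hq
    rw [mem_singleton] at hq
    rw [hq]; exact ⟨hp, hpm⟩
  have hsupp : ∀ {R : Type} [AddCommGroup R] {c : ZMod m → R}, ND p {p} c → ∀ a : ZMod m,
      p ∣ a.val → c a = 0 := fun hc a ha => hc.supp p (mem_singleton_self p) a ha
  refine tf hp hp2 m {p} (mem_singleton_self p) hP x ?_ R c hc
  intro c hc
  refine bd_w hp hp2 m (NeZero.ne m) m {p} (mem_singleton_self p) hP dvd_rfl ?_ x k
    (Nat.cast_nonneg k) ?_ ?_ ?_ c hc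
  · rw [Nat.div_self (NeZero.pos m)]
    intro h; exact hp.one_lt.ne' (Nat.dvd_one.mp h)
  · have : ((2 * k + 1 : ℕ) : ℝ) < p := by exact_mod_cast hlt
    push_cast at this
    linarith
  · intro c hc B hB
    have hB0 : 0 ≤ B := by
      have h1 := hB 0
      have h2 : (0 : ℝ) ≤ w2 (0 : ZMod m) * B := (abs_nonneg _).trans h1
      have h3 : (0 : ℝ) < w2 (0 : ZMod m) := by exact_mod_cast one_le_w2 _
      by_contra hc
      push Not at hc
      nlinarith
    calc |∑ a, x a • c a| ≤ ∑ a, |x a • c a| := abs_sum_le_sum_abs _ _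
      _ ≤ ∑ a ∈ univ.filter (fun a : ZMod m => ¬ p ∣ a.val), ((w2 a : ℝ) * (|x a| : ℝ)) * B := by
          rw [Finset.sum_filter]
          apply sum_le_sum
          intro a _
          by_cases ha : p ∣ a.val
          · rw [hsupp hc a ha, if_neg (not_not.mpr ha)]; simp
          · rw [if_pos ha, zsmul_eq_mul, abs_mul]
            refine (mul_le_mul_of_nonneg_left (hB a) (abs_nonneg _)).trans (le_of_eq ?_)
            ring
      _ = (∑ a ∈ univ.filter (fun a : ZMod m => ¬ p ∣ a.val), ((w2 a : ℝ) * (|x a| : ℝ))) * B := by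
          rw [sum_mul]
      _ ≤ k * B := by
          apply mul_le_mul_of_nonneg_right _ hB0
          exact_mod_cast hk
  · intro c hc n hn hpn
    have hnq : ∀ q, q.Prime → q ∣ m → Nat.Coprime n q := by
      intro q hq hqm
      by_cases hqp : q = p
      · rw [hqp]; exact ((hp.coprime_iff_not_dvd).mpr hpn).symm
      · have h1 : q ∣ m / p := by
          have h2 : q ∣ p * (m / p) := by
            rw [Nat.mul_div_cancel' hpm]; exact hqm
          exact ((Nat.coprime_primes hq hp).mpr hqp).dvd_of_dvd_mul_left h2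
        have h2 := hn.of_dvd h1
        have h3 : Nat.gcd n q = Nat.gcd 1 q := h2.gcd_eq
        rw [Nat.coprime_iff_gcd_eq_one, h3]; simp
    have hnm : IsUnit ((n : ℕ) : ZMod m) := by
      rw [ZMod.isUnit_iff_coprime]
      apply Nat.coprime_of_dvd
      intro q hq h1 h2
      have := hnq q hq h2
      rw [Nat.coprime_comm, hq.coprime_iff_not_dvd] at this
      exact this h1
    obtain ⟨u, hu⟩ := hnm
    have hpn1 : (p : ZMod m) * (u : ZMod m) = p := by
      rw [hu]
      have h1 : p * n ≡ p * 1 [MOD m] := by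
        have := Nat.ModEq.mul_left' p hn
        rwa [Nat.mul_div_cancel' hpm] at this
      have h2 := (ZMod.natCast_eq_natCast_iff _ _ _).mpr h1
      push_cast at h2
      rw [mul_one] at h2
      exact h2
    let c' : ZMod m → ℂ := fun a => ((c ((n : ZMod m) * a) - c a : ℝ) : ℂ)
    have hcn := hc.comp_mul (n := n) (fun q hq => (hP q hq).2) (fun q hq _ hqm => hnq q hq hqm)
    have hc' : ND p {p} c' := by
      refine ⟨?_, ?_, ?_⟩
      · intro a
        simp only [c']
        rw [mul_neg, hc.neg, hc.neg]; push_cast; ring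
      · intro q hq hqp hqm a
        simp only [c']
        rw [← Complex.ofReal_sum, sum_sub_distrib, hc.dist q hq hqp hqm,
          hcn.dist q hq hqp hqm]
      · intro q hq a ha
        simp only [c']
        rw [hcn.supp q hq a ha, hc.supp q hq a ha]; simp
    have h1 := rel_kill hp hpm hx hc' (by
      intro a
      simp only [c']
      rw [← Complex.ofReal_sum, sum_sub_distrib]
      have h2 := sum_shift (Kn m p) (k := u) hpn1 (fun v : (ZMod m)ˣ => c ((v : ZMod m) * a))
      have h3 : ∑ k ∈ univ.filter (fun k : (ZMod m)ˣ => (p : ZMod m) * (k : ZMod m) = p),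
          c ((n : ZMod m) * ((k : ZMod m) * a)) =
          ∑ k ∈ univ.filter (fun k : (ZMod m)ˣ => (p : ZMod m) * (k : ZMod m) = p),
          c ((k : ZMod m) * a) := by
        have e : ∀ k : (ZMod m)ˣ, c ((n : ZMod m) * ((k : ZMod m) * a)) =
            c (((u * k : (ZMod m)ˣ) : ZMod m) * a) := by
          intro k
          rw [Units.val_mul, hu, mul_assoc]
        have hset : univ.filter (fun k : (ZMod m)ˣ => (p : ZMod m) * (k : ZMod m) = p) =
            @Finset.filter _ (fun k => k ∈ Kn m p) (fun a => Classical.propDecidable _) univ := by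
          ext k
          rw [mem_filter, @mem_filter _ _ (fun a => Classical.propDecidable _)]
          exact Iff.rfl
        rw [sum_congr rfl fun k _ => e k, hset]
        exact h2
      rw [h3, sub_self]; simp)
    have h4 : ∑ a, (x a : ℂ) * c' a = ((∑ a, x a • c ((n : ZMod m) * a) - ∑ a, x a • c a : ℝ) : ℂ) := by
      rw [← sum_sub_distrib, Complex.ofReal_sum]
      refine sum_congr rfl fun a _ => ?_
      simp only [c', zsmul_eq_mul]
      push_cast; ring
    rw [h4] at h1
    have h5 : (∑ a, x a • c ((n : ZMod m) * a) - ∑ a, x a • c a : ℝ) = 0 := by exact_mod_cast h1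
    linarith

/-- Large primes can be removed. -/
theorem remove_prime_w {m p : ℕ} [NeZero m] (hp : p.Prime) (hp2 : p ≠ 2) (hpm : p ∣ m)
    {x : ZMod m → ℤ} (hx : Rel x) {k : ℕ}
    (hk : ∑ a ∈ univ.filter (fun a : ZMod m => ¬ p ∣ a.val), (w2 a : ℤ) * |x a| ≤ k)
    (hlt : 2 * k + 1 < p) :
    Rel (fun a : ZMod m => if p ∣ a.val then x a else 0) ∧
      ∀ (R : Type) [AddCommGroup R] (c : ZMod m → R), OddDist c →
        ∑ a, x a • c a = ∑ a, (if p ∣ a.val then x a else 0) • c a := by
  have key : ∀ (R : Type) [AddCommGroup R] (c : ZMod m → R), OddDist c →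
        ∑ a, x a • c a = ∑ a, (if p ∣ a.val then x a else 0) • c a := by
    intro R _ c hc
    have h1 := new_kill_w hp hp2 hpm hx hk hlt R _ (ND_new hp hpm hc)
    rw [← sub_eq_zero, ← sum_sub_distrib, ← h1]
    refine sum_congr rfl fun a _ => ?_
    by_cases ha : p ∣ a.val
    · rw [if_pos ha, if_pos ha, sub_self, smul_zero]
    · rw [if_neg ha, if_neg ha, zero_smul, sub_zero]
  refine ⟨?_, key⟩
  intro t
  have h1 := key ℤ _ (oddDist_saw t)
  simp only [smul_eq_mul] at h1
  rw [← h1]
  exact hx t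

end Pool.Agent.LB
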